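import Pool.Agent.Helper83.CY.Base

namespace Pool.Agent.Helper83.CY.AC

open Pool.Agent.Helper83.CY

/-- assembly of the analytic core -/
theorem ac (hL : S_LEG) (hR : S_RED) (hQ : S_SQ) (hS : S_SMALL) (h3 : S_LG3) (hA : S_L2A)
    (hB : S_L2B) : S_AC := by
  classical
  intro n y p0 P1 P2 P3 P4 e0 e1 e2 e3 R Z r lam G A hn hy hyp0 h01 h12 h23 h34 h4n he0 he1 he2 he3
    hR1 hyZ hlam hlamX hG hAdef hA1 hAr
  have hL' := hL n y
  have hR' := hR n y (by omega)
  have hQ' := hQ n y Z (by omega) (by omega) hyZ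
  have hS' := hS n y p0 R lam (by omega) hy hR1 hlam hlamX
  have h3' := h3 n y P4 hn (by omega) (by omega) h4n
  have hA0 := hA n y p0 P1 e0 G (by omega) (by omega) (by omega) h01 hG.le he0
  have hA1' := hA n y P1 P2 e1 G (by omega) (by omega) (by omega) h12 hG.le he1
  have hA2 := hA n y P2 P3 e2 G (by omega) (by omega) (by omega) h23 hG.le he2
  have hA3 := hA n y P3 P4 e3 G (by omega) (by omega) (by omega) h34 hG.le he3
  have hB' := hB n y p0 P4 r G A (by omega) hy (by omega) hG hAdef hA1 hAr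
  -- covering
  have hcov : B2 n y y ((n + 1) ^ 2) ⊆ B2 n y y p0 ∪ (B2le n y p0 P1 G ∪ (B2le n y P1 P2 G ∪
      (B2le n y P2 P3 G ∪ (B2le n y P3 P4 G ∪ (B2gt n y p0 P4 G ∪ B2 n y P4 ((n + 1) ^ 2)))))) := by
    intro m hm
    simp only [B2, B2le, B2gt, Finset.mem_filter, Finset.mem_union] at hm ⊢
    obtain ⟨hm1, p, q, hp1, hp2, hb⟩ := hm
    rcases le_or_gt p p0 with h | h
    · exact Or.inl ⟨hm1, p, q, hp1, h, hb⟩
    · rcases le_or_gt p P4 with h' | h'
      · right
        rcases le_or_gt ((m : ℝ) / q) G with hg | hg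
        · rcases le_or_gt p P1 with k1 | k1
          · exact Or.inl ⟨hm1, p, q, h, k1, hb, hg⟩
          · right
            rcases le_or_gt p P2 with k2 | k2
            · exact Or.inl ⟨hm1, p, q, k1, k2, hb, hg⟩
            · right
              rcases le_or_gt p P3 with k3 | k3
              · exact Or.inl ⟨hm1, p, q, k2, k3, hb, hg⟩
              · right
                exact Or.inl ⟨hm1, p, q, k3, h', hb, hg⟩
        · right; right; right; right; left
          exact ⟨hm1, p, q, h, h', hb, hg⟩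
      · right; right; right; right; right; right
        exact ⟨hm1, p, q, h', hp2, hb⟩
  have hcard : ((B2 n y y ((n + 1) ^ 2)).card : ℝ) ≤ ((B2 n y y p0).card : ℝ) +
      (((B2le n y p0 P1 G).card : ℝ) + (((B2le n y P1 P2 G).card : ℝ) +
      (((B2le n y P2 P3 G).card : ℝ) + (((B2le n y P3 P4 G).card : ℝ) +
      (((B2gt n y p0 P4 G).card : ℝ) + ((B2 n y P4 ((n + 1) ^ 2)).card : ℝ)))))) := by
    have k := Finset.card_le_card hcov
    have k1 := k.trans ((Finset.card_union_le _ _).trans (Nat.add_le_add_left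
      ((Finset.card_union_le _ _).trans (Nat.add_le_add_left
      ((Finset.card_union_le _ _).trans (Nat.add_le_add_left
      ((Finset.card_union_le _ _).trans (Nat.add_le_add_left
      ((Finset.card_union_le _ _).trans (Nat.add_le_add_left
      (Finset.card_union_le _ _) _)) _)) _)) _)) _))
    exact_mod_cast k1
  linarith

end Pool.Agent.Helper83.CY.AC
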