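import Pool.Agent.Helper83.CY.Base

/-! One arc of the hyperbola (module ARC). -/

namespace Pool.Agent.Helper83.CY.ARC

open Finset

/-- counting in a residue class within an interval -/
theorem ap_count (S : Finset ℤ) (d : ℤ) (hd : 0 < d) (L : ℝ) (hL : 0 ≤ L)
    (h1 : ∀ x ∈ S, ∀ y ∈ S, d ∣ x - y)
    (h2 : ∀ x ∈ S, ∀ y ∈ S, (x:ℝ) - y ≤ L) : (S.card : ℝ) ≤ L / d + 1 := by
  have hdR : (0:ℝ) < d := by exact_mod_cast hd
  rcases S.eq_empty_or_nonempty with rfl | hne
  · simp only [card_empty, Nat.cast_zero]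
    positivity
  · set m := S.min' hne with hm
    have hmS : m ∈ S := S.min'_mem hne
    have hmle : ∀ x ∈ S, m ≤ x := fun x hx => S.min'_le x hx
    have hcard : S.card ≤ (Finset.range (⌊L / d⌋₊ + 1)).card := by
      apply Finset.card_le_card_of_injOn (fun x => ((x - m) / d).toNat)
      · intro x hx
        simp only [coe_range, Set.mem_Iio]
        have h3 := h2 x hx m hmS
        obtain ⟨k, hk⟩ := h1 x hx m hmS
        rw [hk, Int.mul_ediv_cancel_left _ hd.ne']
        have hk0 : 0 ≤ k := by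
          have h4 := hmle x hx
          by_contra hneg
          push Not at hneg
          nlinarith
        have h5 : ((k.toNat : ℕ) : ℝ) ≤ L / d := by
          rw [le_div_iff₀ hdR]
          have e : ((k.toNat : ℕ) : ℝ) = (k : ℝ) := by
            exact_mod_cast Int.toNat_of_nonneg hk0
          rw [e]
          have h6 : (x:ℝ) - m = d * k := by exact_mod_cast hk
          linarith [mul_comm (d:ℝ) k]
        exact Nat.lt_succ_of_le (Nat.le_floor h5)
      · intro x hx y hy hxy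
        obtain ⟨k, hk⟩ := h1 x hx m hmS
        obtain ⟨j, hj⟩ := h1 y hy m hmS
        simp only [hk, hj, Int.mul_ediv_cancel_left _ hd.ne'] at hxy
        have hk0 : 0 ≤ k := by
          have h4 := hmle x hx
          by_contra hneg
          push Not at hneg
          nlinarith
        have hj0 : 0 ≤ j := by
          have h4 := hmle y hy
          by_contra hneg
          push Not at hneg
          nlinarith
        have : k = j := by
          have h7 := Int.toNat_of_nonneg hk0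
          have h8 := Int.toNat_of_nonneg hj0
          rw [← h7, ← h8, hxy]
        subst this
        linarith
    rw [card_range] at hcard
    have h9 : (S.card : ℝ) ≤ ((⌊L / d⌋₊ + 1 : ℕ) : ℝ) := by exact_mod_cast hcard
    push_cast at h9
    have h10 := Nat.floor_le (show 0 ≤ L / d by positivity)
    linarith

theorem sum_inv_sqrt (N : ℕ) :
    ∑ r ∈ Finset.range N, 1 / Real.sqrt ((r : ℝ) + 1) ≤ 2 * Real.sqrt N := by
  induction N with
  | zero => simp
  | succ N ih =>
    rw [Finset.sum_range_succ]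
    push_cast
    set A := Real.sqrt ((N:ℝ) + 1) with hA
    set B := Real.sqrt (N:ℝ) with hB
    have hN : (0:ℝ) ≤ N := Nat.cast_nonneg N
    have hA2 : A ^ 2 = (N:ℝ) + 1 := Real.sq_sqrt (by positivity)
    have hB2 : B ^ 2 = (N:ℝ) := Real.sq_sqrt hN
    have hA0 : 0 < A := Real.sqrt_pos.mpr (by positivity)
    have hB0 : 0 ≤ B := Real.sqrt_nonneg _
    have h : 1 / A ≤ 2 * (A - B) := by
      rw [div_le_iff₀ hA0]
      nlinarith [sq_nonneg (A - B)]
    linarith

/-- the difference coordinate -/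
def vv (a b : ℕ) (x : ℕ × ℕ) : ℤ := (b : ℤ) * x.1 - (a : ℤ) * x.2

theorem fiber (n p a b : ℕ) (u : ℤ) (hp : 1 ≤ p) (ha : 1 ≤ a) (hb : 1 ≤ b)
    (hab : Nat.Coprime a b) (F : Finset (ℕ × ℕ))
    (hF : ∀ x ∈ F, x ∈ Pr n p ∧ (b : ℤ) * x.1 + (a : ℤ) * x.2 = u) (D : ℝ) (hD : 0 ≤ D)
    (h : ∀ x ∈ F, ∀ y ∈ F, |(vv a b x : ℝ)| - |(vv a b y : ℝ)| ≤ D) :
    (F.card : ℝ) ≤ 2 * (D / (4 * a * b * p) + 1) := by
  classical
  have hinj : ∀ x ∈ F, ∀ y ∈ F, vv a b x = vv a b y → x = y := by
    intro x hx y hy hxy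
    have h1 := (hF x hx).2
    have h2 := (hF y hy).2
    unfold vv at hxy
    have hb' : (b : ℤ) ≠ 0 := by positivity
    have ha' : (a : ℤ) ≠ 0 := by positivity
    have e1 : (b : ℤ) * x.1 = b * y.1 := by linarith
    have e2 : (a : ℤ) * x.2 = a * y.2 := by linarith
    have e3 : (x.1 : ℤ) = y.1 := mul_left_cancel₀ hb' e1
    have e4 : (x.2 : ℤ) = y.2 := mul_left_cancel₀ ha' e2
    exact Prod.ext (by exact_mod_cast e3) (by exact_mod_cast e4)
  have hdvd : ∀ x ∈ F, ∀ y ∈ F, (4 * a * b * p : ℤ) ∣ vv a b x - vv a b y := by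
    intro x hx y hy
    obtain ⟨h1, h1'⟩ := hF x hx
    obtain ⟨h2, h2'⟩ := hF y hy
    simp only [Pr, mem_filter] at h1 h2
    have k1 : ((2 * p : ℕ) : ℤ) ∣ (x.1 : ℤ) - y.1 :=
      (Nat.modEq_iff_dvd.mp (h2.2.2.2.1.trans h1.2.2.2.1.symm))
    have k2 : ((2 * p : ℕ) : ℤ) ∣ (x.2 : ℤ) - y.2 :=
      (Nat.modEq_iff_dvd.mp (h2.2.2.2.2.trans h1.2.2.2.2.symm))
    obtain ⟨l1, hl1⟩ := k1
    obtain ⟨q1, hq1⟩ := k2
    push_cast at hl1 hq1
    have hp' : (p : ℤ) ≠ 0 := by positivity
    have e1 : (b : ℤ) * l1 + a * q1 = 0 := by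
      have : (2 * p : ℤ) * ((b : ℤ) * l1 + a * q1) = 0 := by
        have e : (b : ℤ) * ((x.1 : ℤ) - y.1) + a * ((x.2 : ℤ) - y.2) = 0 := by linarith
        rw [hl1, hq1] at e
        linarith
      rcases mul_eq_zero.mp this with h0 | h0
      · exact absurd h0 (by positivity)
      · exact h0
    have hcop : IsCoprime (a : ℤ) (b : ℤ) := Nat.isCoprime_iff_coprime.mpr hab
    have e2 : (a : ℤ) ∣ l1 := by
      apply hcop.dvd_of_dvd_mul_left
      exact ⟨-q1, by linarith⟩
    obtain ⟨w, hw⟩ := e2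
    have e3 : q1 = -(b * w) := by
      have ha' : (a : ℤ) ≠ 0 := by positivity
      apply mul_left_cancel₀ ha'
      rw [hw] at e1
      linarith
    refine ⟨w, ?_⟩
    unfold vv
    have : (b : ℤ) * x.1 - a * x.2 - (b * y.1 - a * y.2) =
        b * ((x.1 : ℤ) - y.1) - a * ((x.2 : ℤ) - y.2) := by ring
    rw [this, hl1, hq1, hw, e3]
    ring
  have hd : (0 : ℤ) < 4 * a * b * p := by positivity
  have hpos : ((F.filter (fun x => 0 ≤ vv a b x)).card : ℝ) ≤ D / (4 * a * b * p) + 1 := by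
    have hc : (F.filter (fun x => 0 ≤ vv a b x)).card =
        ((F.filter (fun x => 0 ≤ vv a b x)).image (vv a b)).card := by
      rw [Finset.card_image_of_injOn]
      intro x hx y hy hxy
      simp only [coe_filter, Set.mem_setOf_eq] at hx hy
      exact hinj x hx.1 y hy.1 hxy
    rw [hc]
    have := ap_count ((F.filter (fun x => 0 ≤ vv a b x)).image (vv a b)) (4 * a * b * p) hd D hD
      (by
        intro x hx y hy
        simp only [mem_image, mem_filter] at hx hy
        obtain ⟨x', ⟨hx1, _⟩, rfl⟩ := hx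
        obtain ⟨y', ⟨hy1, _⟩, rfl⟩ := hy
        exact hdvd x' hx1 y' hy1)
      (by
        intro x hx y hy
        simp only [mem_image, mem_filter] at hx hy
        obtain ⟨x', ⟨hx1, hx2⟩, rfl⟩ := hx
        obtain ⟨y', ⟨hy1, hy2⟩, rfl⟩ := hy
        have := h x' hx1 y' hy1
        rwa [abs_of_nonneg (by exact_mod_cast hx2), abs_of_nonneg (by exact_mod_cast hy2)] at this)
    push_cast at this
    exact this
  have hneg : ((F.filter (fun x => ¬ 0 ≤ vv a b x)).card : ℝ) ≤ D / (4 * a * b * p) + 1 := by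
    have hc : (F.filter (fun x => ¬ 0 ≤ vv a b x)).card =
        ((F.filter (fun x => ¬ 0 ≤ vv a b x)).image (fun x => - vv a b x)).card := by
      rw [Finset.card_image_of_injOn]
      intro x hx y hy hxy
      simp only [coe_filter, Set.mem_setOf_eq] at hx hy
      exact hinj x hx.1 y hy.1 (neg_injective hxy)
    rw [hc]
    have := ap_count ((F.filter (fun x => ¬ 0 ≤ vv a b x)).image (fun x => - vv a b x))
      (4 * a * b * p) hd D hD
      (by
        intro x hx y hy
        simp only [mem_image, mem_filter] at hx hy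
        obtain ⟨x', ⟨hx1, _⟩, rfl⟩ := hx
        obtain ⟨y', ⟨hy1, _⟩, rfl⟩ := hy
        have := hdvd y' hy1 x' hx1
        have e : - vv a b x' - - vv a b y' = vv a b y' - vv a b x' := by ring
        rw [e]; exact this)
      (by
        intro x hx y hy
        simp only [mem_image, mem_filter] at hx hy
        obtain ⟨x', ⟨hx1, hx2⟩, rfl⟩ := hx
        obtain ⟨y', ⟨hy1, hy2⟩, rfl⟩ := hy
        have := h x' hx1 y' hy1
        push Not at hx2 hy2
        rw [abs_of_neg (by exact_mod_cast hx2), abs_of_neg (by exact_mod_cast hy2)] at this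
        push_cast
        exact this)
    push_cast at this
    exact this
  have hsum := Finset.card_filter_add_card_filter_not (s := F) (fun x => 0 ≤ vv a b x)
  have hsum' : (F.card : ℝ) = ((F.filter (fun x => 0 ≤ vv a b x)).card : ℝ)
      + ((F.filter (fun x => ¬ 0 ≤ vv a b x)).card : ℝ) := by
    exact_mod_cast hsum.symm
  rw [hsum']
  linarith

/-- the sum coordinate -/
def uu (a b : ℕ) (x : ℕ × ℕ) : ℤ := (b : ℤ) * x.1 + (a : ℤ) * x.2

theorem arc : S_ARC := by
  classical
  intro n p R a b hn hp hR ha hb hab _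
  set s : ℝ := Real.sqrt ((a : ℝ) * b) with hs
  set T : ℝ := Real.sqrt (2 * (n : ℝ) + 1) with hT
  set ρ : ℝ := Real.sqrt (R : ℝ) with hρ
  have hn' : (1 : ℝ) ≤ n := by exact_mod_cast hn
  have hp' : (1 : ℝ) ≤ p := by exact_mod_cast hp
  have hR' : (1 : ℝ) ≤ R := by exact_mod_cast hR
  have ha' : (1 : ℝ) ≤ a := by exact_mod_cast ha
  have hb' : (1 : ℝ) ≤ b := by exact_mod_cast hb
  have hs2 : s ^ 2 = (a : ℝ) * b := Real.sq_sqrt (by positivity)
  have hT2 : T ^ 2 = 2 * (n : ℝ) + 1 := Real.sq_sqrt (by positivity)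
  have hρ2 : ρ ^ 2 = (R : ℝ) := Real.sq_sqrt (by positivity)
  have hs0 : 0 < s := Real.sqrt_pos.mpr (by positivity)
  have hT0 : 0 < T := Real.sqrt_pos.mpr (by positivity)
  have hρ0 : 0 < ρ := Real.sqrt_pos.mpr (by positivity)
  -- the basic facts about members of the arc
  have hmem : ∀ x ∈ Arc n p R a b, x ∈ Pr n p ∧
      ((uu a b x : ℤ) : ℝ) ^ 2 - ((vv a b x : ℤ) : ℝ) ^ 2 = 4 * s ^ 2 * ((x.1 : ℝ) * x.2) ∧
      (n : ℝ) ^ 2 < (x.1 : ℝ) * x.2 ∧ (x.1 : ℝ) * x.2 < ((n : ℝ) + 1) ^ 2 ∧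
      ((vv a b x : ℤ) : ℝ) ^ 2 < ((n : ℝ) + 1) ^ 2 / R ∧ (0 : ℝ) ≤ ((uu a b x : ℤ) : ℝ) := by
    intro x hx
    simp only [Arc, mem_filter] at hx
    obtain ⟨h1, h2⟩ := hx
    have h1' := h1
    simp only [Pr, mem_filter] at h1'
    refine ⟨h1, ?_, ?_, ?_, ?_, ?_⟩
    · unfold uu vv
      push_cast
      rw [hs2]
      ring
    · exact_mod_cast h1'.2.1
    · exact_mod_cast h1'.2.2.1
    · have h3 : |((vv a b x : ℤ) : ℝ)| < ((n : ℝ) + 1) / ρ := by
        unfold vv
        push_cast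
        exact h2
      have h4 : ((vv a b x : ℤ) : ℝ) ^ 2 < (((n : ℝ) + 1) / ρ) ^ 2 := by
        rw [← sq_abs]
        exact pow_lt_pow_left₀ h3 (abs_nonneg _) two_ne_zero
      rwa [div_pow, hρ2] at h4
    · unfold uu
      push_cast
      positivity
  -- lower and upper bounds for u
  have hulow : ∀ x ∈ Arc n p R a b, 2 * s * n < ((uu a b x : ℤ) : ℝ) := by
    intro x hx
    obtain ⟨_, h2, h3, h4, h5, h6⟩ := hmem x hx
    refine lt_of_pow_lt_pow_left₀ 2 h6 ?_
    have : 4 * s ^ 2 * (n : ℝ) ^ 2 < 4 * s ^ 2 * ((x.1 : ℝ) * x.2) := by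
      apply mul_lt_mul_of_pos_left h3; positivity
    nlinarith [sq_nonneg ((vv a b x : ℤ) : ℝ)]
  set E : ℝ := ((n : ℝ) + 1) / (4 * s * R) with hE
  have hE0 : 0 < E := by positivity
  set u1 : ℝ := 2 * s * ((n : ℝ) + 1) with hu1
  have hu10 : 0 < u1 := by positivity
  have huup : ∀ x ∈ Arc n p R a b, ((uu a b x : ℤ) : ℝ) < u1 + E := by
    intro x hx
    obtain ⟨_, h2, h3, h4, h5, h6⟩ := hmem x hx
    refine lt_of_pow_lt_pow_left₀ 2 (by positivity) ?_
    have e1 : 4 * s ^ 2 * ((x.1 : ℝ) * x.2) < 4 * s ^ 2 * ((n : ℝ) + 1) ^ 2 := by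
      apply mul_lt_mul_of_pos_left h4; positivity
    have e2 : (u1 + E) ^ 2 = 4 * s ^ 2 * ((n : ℝ) + 1) ^ 2 + ((n : ℝ) + 1) ^ 2 / R + E ^ 2 := by
      have : 2 * u1 * E = ((n : ℝ) + 1) ^ 2 / R := by
        rw [hu1, hE]; field_simp; ring
      calc (u1 + E) ^ 2 = u1 ^ 2 + 2 * u1 * E + E ^ 2 := by ring
        _ = _ := by rw [this, hu1]; ring
    rw [e2]
    nlinarith [sq_nonneg E]
  -- congruence of u
  have hucong : ∀ x ∈ Arc n p R a b, ∀ y ∈ Arc n p R a b,
      ((2 * p : ℕ) : ℤ) ∣ uu a b x - uu a b y := by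
    intro x hx y hy
    have h1 := (hmem x hx).1
    have h2 := (hmem y hy).1
    simp only [Pr, mem_filter] at h1 h2
    have k1 : ((2 * p : ℕ) : ℤ) ∣ (x.1 : ℤ) - y.1 :=
      (Nat.modEq_iff_dvd.mp (h2.2.2.2.1.trans h1.2.2.2.1.symm))
    have k2 : ((2 * p : ℕ) : ℤ) ∣ (x.2 : ℤ) - y.2 :=
      (Nat.modEq_iff_dvd.mp (h2.2.2.2.2.trans h1.2.2.2.2.symm))
    have : uu a b x - uu a b y = b * ((x.1 : ℤ) - y.1) + a * ((x.2 : ℤ) - y.2) := by
      unfold uu; ring
    rw [this]
    exact dvd_add (Dvd.dvd.mul_left k1 _) (Dvd.dvd.mul_left k2 _)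
  -- difference of the v^2
  have hvv : ∀ x ∈ Arc n p R a b, ∀ y ∈ Arc n p R a b, uu a b x = uu a b y →
      ((vv a b x : ℤ) : ℝ) ^ 2 - ((vv a b y : ℤ) : ℝ) ^ 2 ≤ 4 * s ^ 2 * T ^ 2 := by
    intro x hx y hy hxy
    obtain ⟨_, h2, h3, h4, h5, h6⟩ := hmem x hx
    obtain ⟨_, k2, k3, k4, k5, k6⟩ := hmem y hy
    rw [hxy] at h2
    have : ((vv a b x : ℤ) : ℝ) ^ 2 - ((vv a b y : ℤ) : ℝ) ^ 2 =
        4 * s ^ 2 * ((y.1 : ℝ) * y.2 - (x.1 : ℝ) * x.2) := by linarith
    rw [this]
    apply mul_le_mul_of_nonneg_left _ (by positivity)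
    rw [hT2]
    nlinarith
  set M1 : ℝ := 2 * s * T with hM1
  have hM10 : 0 < M1 := by positivity
  set C0 : ℝ := T / (s * p) + 2 with hC0
  have hC00 : 0 < C0 := by positivity
  -- generic bound for a fibre
  have hfib0 : ∀ u : ℤ, (((Arc n p R a b).filter (fun x => uu a b x = u)).card : ℝ) ≤ C0 := by
    intro u
    have := fiber n p a b u hp ha hb hab ((Arc n p R a b).filter (fun x => uu a b x = u))
      (by
        intro x hx
        rw [mem_filter] at hx
        exact ⟨(hmem x hx.1).1, hx.2⟩) M1 hM10.le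
      (by
        intro x hx y hy
        rw [mem_filter] at hx hy
        have h1 := hvv x hx.1 y hy.1 (hx.2.trans hy.2.symm)
        by_contra hlt
        push Not at hlt
        have h2 := abs_nonneg ((vv a b y : ℤ) : ℝ)
        rw [← sq_abs ((vv a b x : ℤ) : ℝ), ← sq_abs ((vv a b y : ℤ) : ℝ)] at h1
        have e : M1 ^ 2 = 4 * s ^ 2 * T ^ 2 := by rw [hM1]; ring
        nlinarith)
    refine this.trans (le_of_eq ?_)
    have e : (4 : ℝ) * a * b * p = 4 * s ^ 2 * p := by rw [hs2]; ring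
    rw [e, hC0, hM1]
    field_simp
    ring
  set W : ℝ := Real.sqrt (8 * s * ((n : ℝ) + 1) * p) with hW
  have hW2 : W ^ 2 = 8 * s * ((n : ℝ) + 1) * p := Real.sq_sqrt (by positivity)
  have hW0 : 0 < W := Real.sqrt_pos.mpr (by positivity)
  -- bound for a far fibre
  have hfibr : ∀ (u : ℤ) (r : ℝ), 0 < r → u1 + 2 * p * r ≤ (u : ℝ) →
      (((Arc n p R a b).filter (fun x => uu a b x = u)).card : ℝ) ≤
        T ^ 2 / (W * p) * (1 / Real.sqrt r) + 2 := by
    intro u r hr hur
    have hr0 : 0 < Real.sqrt r := Real.sqrt_pos.mpr hr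
    have hr2 : Real.sqrt r ^ 2 = r := Real.sq_sqrt hr.le
    have hvlow : ∀ x ∈ (Arc n p R a b).filter (fun x => uu a b x = u),
        W * Real.sqrt r ≤ |((vv a b x : ℤ) : ℝ)| := by
      intro x hx
      rw [mem_filter] at hx
      obtain ⟨_, h2, h3, h4, h5, h6⟩ := hmem x hx.1
      refine (pow_le_pow_iff_left₀ (by positivity) (abs_nonneg _) two_ne_zero).mp ?_
      rw [sq_abs, mul_pow, hW2, hr2]
      rw [hx.2] at h2
      have e1 : 4 * s ^ 2 * ((x.1 : ℝ) * x.2) < 4 * s ^ 2 * ((n : ℝ) + 1) ^ 2 := by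
        apply mul_lt_mul_of_pos_left h4; positivity
      have e2 : u1 ^ 2 = 4 * s ^ 2 * ((n : ℝ) + 1) ^ 2 := by rw [hu1]; ring
      have e3 : 8 * s * ((n : ℝ) + 1) * p * r = (2 * p * r) * (2 * u1) := by rw [hu1]; ring
      rw [e3]
      have e4 : 0 < 2 * (p:ℝ) * r := by positivity
      nlinarith [mul_le_mul_of_nonneg_left hur hu10.le]
    have := fiber n p a b u hp ha hb hab ((Arc n p R a b).filter (fun x => uu a b x = u))
      (by
        intro x hx
        rw [mem_filter] at hx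
        exact ⟨(hmem x hx.1).1, hx.2⟩) (4 * s ^ 2 * T ^ 2 / (2 * (W * Real.sqrt r))) (by positivity)
      (by
        intro x hx y hy
        have hx1 := hvlow x hx
        have hy1 := hvlow y hy
        rw [mem_filter] at hx hy
        have h1 := hvv x hx.1 y hy.1 (hx.2.trans hy.2.symm)
        have hWr : 0 < W * Real.sqrt r := by positivity
        rw [le_div_iff₀ (by positivity)]
        rw [← sq_abs ((vv a b x : ℤ) : ℝ), ← sq_abs ((vv a b y : ℤ) : ℝ)] at h1
        rcases le_total |((vv a b x : ℤ) : ℝ)| |((vv a b y : ℤ) : ℝ)| with hle | hle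
        · have : (|((vv a b x : ℤ) : ℝ)| - |((vv a b y : ℤ) : ℝ)|) * (2 * (W * Real.sqrt r)) ≤ 0 :=
            mul_nonpos_of_nonpos_of_nonneg (by linarith) (by positivity)
          refine this.trans (by positivity)
        · have : (|((vv a b x : ℤ) : ℝ)| - |((vv a b y : ℤ) : ℝ)|) * (2 * (W * Real.sqrt r)) ≤
              (|((vv a b x : ℤ) : ℝ)| - |((vv a b y : ℤ) : ℝ)|) *
                (|((vv a b x : ℤ) : ℝ)| + |((vv a b y : ℤ) : ℝ)|) :=
            mul_le_mul_of_nonneg_left (by linarith) (by linarith)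
          refine this.trans ?_
          nlinarith)
    refine this.trans (le_of_eq ?_)
    have e : (4 : ℝ) * a * b * p = 4 * s ^ 2 * p := by rw [hs2]; ring
    rw [e]
    field_simp
  -- the values of u
  set U := (Arc n p R a b).image (uu a b) with hU
  set f : ℤ → ℝ := fun u => (((Arc n p R a b).filter (fun x => uu a b x = u)).card : ℝ) with hf
  have hcard : ((Arc n p R a b).card : ℝ) = ∑ u ∈ U, f u := by
    rw [Finset.card_eq_sum_card_image (uu a b) (Arc n p R a b)]
    push_cast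
    rfl
  have hUmem : ∀ u ∈ U, 2 * s * n < (u : ℝ) ∧ (u : ℝ) < u1 + E := by
    intro u hu
    rw [hU, mem_image] at hu
    obtain ⟨x, hx, rfl⟩ := hu
    exact ⟨hulow x hx, huup x hx⟩
  have hUcong : ∀ u ∈ U, ∀ w ∈ U, ((2 * p : ℕ) : ℤ) ∣ u - w := by
    intro u hu w hw
    rw [hU, mem_image] at hu hw
    obtain ⟨x, hx, rfl⟩ := hu
    obtain ⟨y, hy, rfl⟩ := hw
    exact hucong x hx y hy
  have hsplit : ∑ u ∈ U, f u = ∑ u ∈ U.filter (fun u : ℤ => (u : ℝ) ≤ u1), f u +
      ∑ u ∈ U.filter (fun u : ℤ => ¬ (u : ℝ) ≤ u1), f u :=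
    (Finset.sum_filter_add_sum_filter_not _ _ _).symm
  have hlow : ∑ u ∈ U.filter (fun u : ℤ => (u : ℝ) ≤ u1), f u ≤ (s / p + 1) * C0 := by
    calc ∑ u ∈ U.filter (fun u : ℤ => (u : ℝ) ≤ u1), f u
        ≤ ∑ u ∈ U.filter (fun u : ℤ => (u : ℝ) ≤ u1), C0 :=
          Finset.sum_le_sum (fun u _ => hfib0 u)
      _ = ((U.filter (fun u : ℤ => (u : ℝ) ≤ u1)).card : ℝ) * C0 := by
          rw [sum_const, nsmul_eq_mul]
      _ ≤ (s / p + 1) * C0 := by
          apply mul_le_mul_of_nonneg_right _ hC00.le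
          have := ap_count (U.filter (fun u : ℤ => (u : ℝ) ≤ u1)) ((2 * p : ℕ) : ℤ)
            (by positivity) (2 * s) (by positivity)
            (by
              intro x hx y hy
              rw [mem_filter] at hx hy
              exact hUcong x hx.1 y hy.1)
            (by
              intro x hx y hy
              rw [mem_filter] at hx hy
              have h1 := (hUmem y hy.1).1
              have h2 := hx.2
              rw [hu1] at h2
              linarith)
          push_cast at this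
          refine this.trans (le_of_eq ?_)
          rw [mul_div_mul_left _ _ (two_ne_zero)]
  have hhigh : ∑ u ∈ U.filter (fun u : ℤ => ¬ (u : ℝ) ≤ u1), f u ≤
      C0 + (T ^ 2 / (W * p) * (2 * (((n : ℝ) + 1) / (W * ρ))) + 2 * (E / (2 * p))) := by
    set H := U.filter (fun u : ℤ => ¬ (u : ℝ) ≤ u1) with hH
    rcases H.eq_empty_or_nonempty with h | hne
    · rw [h, sum_empty]; positivity
    · set u0 := H.min' hne with hu0
      have hu0H : u0 ∈ H := H.min'_mem hne
      have hHmem : ∀ u ∈ H, u ∈ U ∧ u1 < (u : ℝ) := by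
        intro u hu
        rw [hH, mem_filter] at hu
        exact ⟨hu.1, not_le.mp hu.2⟩
      rw [← Finset.add_sum_erase H f hu0H]
      apply add_le_add (hfib0 u0)
      set N := ⌊E / (2 * p)⌋₊ with hN
      have key : ∀ u ∈ H.erase u0, ∃ r : ℕ, u = u0 + 2 * p * ((r : ℤ) + 1) ∧ r < N := by
        intro u hu
        rw [mem_erase] at hu
        obtain ⟨k, hk⟩ := hUcong u (hHmem u hu.2).1 u0 (hHmem u0 hu0H).1
        have hle : u0 ≤ u := H.min'_le u hu.2
        have hlt : u0 < u := lt_of_le_of_ne hle (fun h => hu.1 h.symm)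
        have h2p : (0 : ℤ) < ((2 * p : ℕ) : ℤ) := by positivity
        have hk0 : 0 < k := by
          by_contra hneg
          push Not at hneg
          nlinarith
        obtain ⟨r, hr⟩ := Int.eq_ofNat_of_zero_le (show 0 ≤ k - 1 by linarith)
        refine ⟨r, ?_, ?_⟩
        · push_cast at hk
          have : k = (r : ℤ) + 1 := by linarith
          rw [← this]
          linarith
        · apply Nat.le_floor
          have h1 := (hUmem u (hHmem u hu.2).1).2
          have h2 := (hHmem u0 hu0H).2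
          rw [le_div_iff₀ (by positivity)]
          have hk' : (u : ℝ) - u0 = (2 * p) * (k : ℝ) := by
            have := congrArg (fun z : ℤ => (z : ℝ)) hk
            push_cast at this
            exact this
          have hr' : (k : ℝ) = (r : ℝ) + 1 := by
            have : k = (r : ℤ) + 1 := by linarith
            rw [this]; push_cast; ring
          push_cast
          rw [← hr']
          linarith
      choose! rr hrr using key
      have hinj : ∀ u ∈ H.erase u0, ∀ w ∈ H.erase u0, rr u = rr w → u = w := by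
        intro u hu w hw huw
        rw [(hrr u hu).1, (hrr w hw).1, huw]
      have step : ∑ u ∈ H.erase u0, f u ≤
          ∑ u ∈ H.erase u0, (fun r : ℕ => T ^ 2 / (W * p) * (1 / Real.sqrt ((r : ℝ) + 1)) + 2) (rr u) := by
        apply Finset.sum_le_sum
        intro u hu
        apply hfibr u ((rr u : ℝ) + 1) (by positivity)
        have h1 := (hrr u hu).1
        have h2 := (hHmem u0 hu0H).2
        have h3 : (u : ℝ) = u0 + 2 * p * ((rr u : ℝ) + 1) := by
          have := congrArg (fun z : ℤ => (z : ℝ)) h1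
          push_cast at this
          exact this
        rw [h3]
        linarith
      refine step.trans ?_
      rw [← Finset.sum_image (f := fun r : ℕ => T ^ 2 / (W * p) * (1 / Real.sqrt ((r : ℝ) + 1)) + 2)
        (fun u hu w hw h => hinj u hu w hw h)]
      refine (Finset.sum_le_sum_of_subset_of_nonneg (t := Finset.range N) ?_ ?_).trans ?_
      · intro r hr
        rw [mem_image] at hr
        obtain ⟨u, hu, rfl⟩ := hr
        exact mem_range.mpr (hrr u hu).2
      · intro r _ _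
        positivity
      · rw [Finset.sum_add_distrib, ← Finset.mul_sum, sum_const, card_range, nsmul_eq_mul]
        have hNle : (N : ℝ) ≤ E / (2 * p) := Nat.floor_le (by positivity)
        have hNs : Real.sqrt (N : ℝ) ≤ ((n : ℝ) + 1) / (W * ρ) := by
          rw [Real.sqrt_le_iff]
          refine ⟨by positivity, hNle.trans (le_of_eq ?_)⟩
          rw [div_pow, mul_pow, hW2, hρ2, hE]
          field_simp
          ring
        have h1 := sum_inv_sqrt N
        have h2 : T ^ 2 / (W * p) * ∑ r ∈ Finset.range N, 1 / Real.sqrt ((r : ℝ) + 1) ≤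
            T ^ 2 / (W * p) * (2 * (((n : ℝ) + 1) / (W * ρ))) := by
          apply mul_le_mul_of_nonneg_left _ (by positivity)
          linarith
        linarith
  rw [hcard, hsplit]
  have hE2 : 2 * (E / (2 * p)) = ((n : ℝ) + 1) / (4 * s * R * p) := by
    rw [hE]; field_simp
  have hbig : T ^ 2 / (W * p) * (2 * (((n : ℝ) + 1) / (W * ρ))) ≤
      ((n : ℝ) + 1) / (2 * s * ρ * (p : ℝ) ^ 2) := by
    have e1 : T ^ 2 / (W * p) * (2 * (((n : ℝ) + 1) / (W * ρ))) =
        (T ^ 2 / 2) / (2 * s * ρ * (p : ℝ) ^ 2) := by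
      have : T ^ 2 / (W * p) * (2 * (((n : ℝ) + 1) / (W * ρ))) =
          2 * T ^ 2 * ((n : ℝ) + 1) / (W ^ 2 * (p * ρ)) := by
        field_simp
      rw [this, hW2]
      field_simp
      ring
    rw [e1]
    apply div_le_div_of_nonneg_right _ (by positivity)
    rw [hT2]
    linarith
  have hfin : (s / p + 1) * C0 + C0 = T / (p : ℝ) ^ 2 + 2 * s / p + 2 * T / (s * p) + 4 := by
    rw [hC0]; field_simp; ring
  linarith

end Pool.Agent.Helper83.CY.ARC
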