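import Mathlib

/-! Cyclic numbers between consecutive squares: definitions and module statements. -/

namespace Pool.Agent.Helper83.CY

/-- `m` is a cyclic number: `gcd (m, phi m) = 1`. -/
def Cyc (m : ℕ) : Prop := 0 < m ∧ Nat.Coprime m (Nat.totient m)

/-- the integers strictly between `n ^ 2` and `(n + 1) ^ 2` -/
def I (n : ℕ) : Finset ℕ := Finset.Ioo (n ^ 2) ((n + 1) ^ 2)

/-- the primes `p` with `a < p ≤ b` -/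
def PP (a b : ℕ) : Finset ℕ := (Finset.Ioc a b).filter Nat.Prime

noncomputable def S1 (a b : ℕ) : ℝ := ∑ p ∈ PP a b, 1 / (p : ℝ)

noncomputable def S2 (a b : ℕ) : ℝ := ∑ p ∈ PP a b, 1 / (p : ℝ) ^ 2

noncomputable def nu (a b : ℕ) : ℝ := ((PP a b).card : ℝ)

noncomputable def V (y : ℕ) : ℝ := ∏ p ∈ PP 0 y, (1 - 1 / (p : ℝ))

open Classical in
/-- the cyclic numbers strictly between consecutive squares -/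
noncomputable def CycI (n : ℕ) : Finset ℕ := (I n).filter Cyc

open Classical in
/-- elements of `I n` all of whose prime factors exceed `y` -/
noncomputable def Sift (n y : ℕ) : Finset ℕ :=
  (I n).filter (fun m => ∀ p : ℕ, p.Prime → p ∣ m → y < p)

open Classical in
noncomputable def B1 (n y : ℕ) : Finset ℕ :=
  (Sift n y).filter (fun m => ∃ p : ℕ, p.Prime ∧ p ^ 2 ∣ m)

/-- the pair `p, q` of primes makes `m` non-cyclic -/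
def Bad (m p q : ℕ) : Prop := p.Prime ∧ q.Prime ∧ p ∣ q - 1 ∧ p * q ∣ m

open Classical in
noncomputable def B2 (n y P P' : ℕ) : Finset ℕ :=
  (Sift n y).filter (fun m => ∃ p q : ℕ, P < p ∧ p ≤ P' ∧ Bad m p q)

open Classical in
noncomputable def B2le (n y P P' : ℕ) (G : ℝ) : Finset ℕ :=
  (Sift n y).filter (fun m => ∃ p q : ℕ, P < p ∧ p ≤ P' ∧ Bad m p q ∧ (m : ℝ) / q ≤ G)

open Classical in
noncomputable def B2gt (n y P P' : ℕ) (G : ℝ) : Finset ℕ :=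
  (Sift n y).filter (fun m => ∃ p q : ℕ, P < p ∧ p ≤ P' ∧ Bad m p q ∧ G < (m : ℝ) / q)

/-- pairs `(l, q)` with `n^2 < l q < (n+1)^2`, `l` an odd multiple of `p`, `q = 1 mod 2p` -/
def Pr (n p : ℕ) : Finset (ℕ × ℕ) :=
  ((Finset.range ((n + 1) ^ 2)) ×ˢ (Finset.range ((n + 1) ^ 2))).filter
    (fun x => n ^ 2 < x.1 * x.2 ∧ x.1 * x.2 < (n + 1) ^ 2 ∧
      x.1 ≡ p [MOD 2 * p] ∧ x.2 ≡ 1 [MOD 2 * p])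

open Classical in
noncomputable def Arc (n p R a b : ℕ) : Finset (ℕ × ℕ) :=
  (Pr n p).filter
    (fun x => |(b : ℝ) * (x.1 : ℝ) - (a : ℝ) * (x.2 : ℝ)| < ((n : ℝ) + 1) / Real.sqrt R)

open Classical in
noncomputable def Mid (n p R : ℕ) : Finset (ℕ × ℕ) :=
  (Pr n p).filter
    (fun x => ((n : ℝ) + 1) / Real.sqrt R < (x.1 : ℝ) ∧ ((n : ℝ) + 1) / Real.sqrt R < (x.2 : ℝ))

open Classical in
noncomputable def ZA (n p : ℕ) (X : ℝ) : Finset (ℕ × ℕ) :=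
  (Pr n p).filter (fun x => (x.2 : ℝ) ≤ X ∧ 1 < x.2 ∧ ¬ 3 ∣ x.2)

open Classical in
noncomputable def ZB (n p : ℕ) (X : ℝ) : Finset (ℕ × ℕ) :=
  (Pr n p).filter (fun x => (x.1 : ℝ) ≤ X ∧ ¬ 3 ∣ x.1)

/-- coprime pairs `(a, b)` of positive integers with `a b ≤ R` -/
def AB (R : ℕ) : Finset (ℕ × ℕ) :=
  ((Finset.Icc 1 R) ×ˢ (Finset.Icc 1 R)).filter (fun x => x.1 * x.2 ≤ R ∧ Nat.Coprime x.1 x.2)

noncomputable def D0 (R : ℕ) : ℝ := ((AB R).card : ℝ)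

noncomputable def D1 (R : ℕ) : ℝ := ∑ x ∈ AB R, 1 / Real.sqrt ((x.1 : ℝ) * (x.2 : ℝ))

/-! ### statements of the modules -/

/-- Legendre sieve. -/
def S_LEG : Prop := ∀ n y : ℕ,
  2 * (n : ℝ) * V y - 2 ^ ((PP 0 y).card) ≤ ((Sift n y).card : ℝ)

/-- Reduction. -/
def S_RED : Prop := ∀ n y : ℕ, 1 ≤ n →
  ((Sift n y).card : ℝ) ≤ ((CycI n).card : ℝ) + ((B1 n y).card : ℝ) +
    ((B2 n y y ((n + 1) ^ 2)).card : ℝ)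

/-- Squares. -/
def S_SQ : Prop := ∀ n y Z : ℕ, 1 ≤ n → 2 ≤ y → y ≤ Z →
  ((B1 n y).card : ℝ) ≤ (n : ℝ) * S2 y Z + nu y Z + ((n : ℝ) + 1) ^ 2 / (2 * (Z : ℝ) ^ 2) + 1

/-- One arc of the hyperbola. -/
def S_ARC : Prop := ∀ n p R a b : ℕ, 1 ≤ n → 1 ≤ p → 1 ≤ R → 1 ≤ a → 1 ≤ b →
  Nat.Coprime a b → a * b ≤ R →
  ((Arc n p R a b).card : ℝ) ≤
    Real.sqrt (2 * n + 1) / (p : ℝ) ^ 2 + 2 * Real.sqrt ((a : ℝ) * b) / p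
    + 2 * Real.sqrt (2 * n + 1) / (Real.sqrt ((a : ℝ) * b) * p) + 4
    + ((n : ℝ) + 1) / (2 * Real.sqrt ((a : ℝ) * b) * Real.sqrt R * (p : ℝ) ^ 2)
    + ((n : ℝ) + 1) / (4 * Real.sqrt ((a : ℝ) * b) * R * p)

/-- The middle zone. -/
def S_MID : Prop := ∀ n p R : ℕ, 1 ≤ n → 1 ≤ p → 1 ≤ R →
  ((Mid n p R).card : ℝ) ≤
    D0 R * (Real.sqrt (2 * n + 1) / (p : ℝ) ^ 2 + 2 * Real.sqrt R / p + 4)
    + D1 R * (2 * Real.sqrt (2 * n + 1) / p + ((n : ℝ) + 1) / (2 * Real.sqrt R * (p : ℝ) ^ 2)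
        + ((n : ℝ) + 1) / (4 * R * p))

/-- Zone A: small `q`. -/
def S_ZA : Prop := ∀ (n p : ℕ) (X lam : ℝ), 1 ≤ n → p.Prime → 5 ≤ p → 0 ≤ lam →
  X ≤ p * Real.exp lam →
  0 ≤ X →
  ((ZA n p X).card : ℝ) ≤ (n : ℝ) / (2 * (p : ℝ) ^ 2) * (5 / 4 + 2 / 3 * lam) + X / (3 * p) + 2 / 3

/-- Zone B: small `l`. -/
def S_ZB : Prop := ∀ (n p : ℕ) (X lam : ℝ), 1 ≤ n → p.Prime → 5 ≤ p → 0 ≤ lam →
  X ≤ p * Real.exp lam →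
  0 ≤ X →
  ((ZB n p X).card : ℝ) ≤ (n : ℝ) / (p : ℝ) ^ 2 * (1 + 1 / 3 * lam) + X / (3 * p) + 2 / 3

/-- the bound for small primes -/
noncomputable def small (n y p0 R : ℕ) (lam : ℝ) : ℝ :=
  (n : ℝ) * S2 y p0 * (13 / 8 + 2 / 3 * lam)
  + 2 / 3 * (((n : ℝ) + 1) / Real.sqrt R) * S1 y p0 + 4 / 3 * nu y p0
  + D0 R * (Real.sqrt (2 * n + 1) * S2 y p0 + 2 * Real.sqrt R * S1 y p0 + 4 * nu y p0)
  + D1 R * (2 * Real.sqrt (2 * n + 1) * S1 y p0 + ((n : ℝ) + 1) / (2 * Real.sqrt R) * S2 y p0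
      + ((n : ℝ) + 1) / (4 * R) * S1 y p0)

/-- Small primes. -/
def S_SMALL : Prop := ∀ (n y p0 R : ℕ) (lam : ℝ), 1 ≤ n → 3 ≤ y → 1 ≤ R → 0 ≤ lam →
  ((n : ℝ) + 1) / Real.sqrt R ≤ y * Real.exp lam →
  ((B2 n y y p0).card : ℝ) ≤ small n y p0 R lam

/-- Very large primes. -/
def S_LG3 : Prop := ∀ n y P : ℕ, 4 ≤ n → 2 ≤ y → 1 ≤ P → P ≤ n + 1 →
  ((B2 n y P ((n + 1) ^ 2)).card : ℝ) ≤
    ((n : ℝ) + 1) ^ 2 / (P : ℝ) ^ 2 / 2 * (1 + 1 / 2 * Real.log (((n : ℝ) + 1) ^ 2 / (P : ℝ) ^ 2))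

/-- Large primes, small `l`. -/
def S_L2A : Prop := ∀ (n y P P' e : ℕ) (G : ℝ), 1 ≤ n → 2 ≤ y → 1 ≤ P → P ≤ P' → 0 ≤ G →
  (n + 1) ^ 2 ≤ (y + 1) ^ (e + 1) * P ^ 2 →
  ((B2le n y P P' G).card : ℝ) ≤ 2 ^ e * ((2 * (n : ℝ) + 1 + G) / 2 * S2 P P' + nu P P')

/-- Large primes, small `q`. -/
def S_L2B : Prop := ∀ (n y P P' r : ℕ) (G A : ℝ), 1 ≤ n → 3 ≤ y → 1 ≤ P → 0 < G →
  A = ((n : ℝ) + 1) ^ 2 / G → 1 ≤ A → A ≤ 2 * (P : ℝ) ^ (r + 1) →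
  ((B2gt n y P P' G).card : ℝ) ≤ r * ((n : ℝ) / P * (1 / 2 * Real.log A) + A / 3 + 1)

/-- The analytic core. -/
def S_AC : Prop := ∀ (n y p0 P1 P2 P3 P4 e0 e1 e2 e3 R Z r : ℕ) (lam G A : ℝ),
  4 ≤ n → 3 ≤ y → y ≤ p0 → p0 ≤ P1 → P1 ≤ P2 → P2 ≤ P3 → P3 ≤ P4 → P4 ≤ n + 1 →
  (n + 1) ^ 2 ≤ (y + 1) ^ (e0 + 1) * p0 ^ 2 →
  (n + 1) ^ 2 ≤ (y + 1) ^ (e1 + 1) * P1 ^ 2 →
  (n + 1) ^ 2 ≤ (y + 1) ^ (e2 + 1) * P2 ^ 2 →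
  (n + 1) ^ 2 ≤ (y + 1) ^ (e3 + 1) * P3 ^ 2 →
  1 ≤ R → y ≤ Z → 0 ≤ lam → ((n : ℝ) + 1) / Real.sqrt R ≤ y * Real.exp lam →
  0 < G → A = ((n : ℝ) + 1) ^ 2 / G → 1 ≤ A → A ≤ 2 * (p0 : ℝ) ^ (r + 1) →
  2 * (n : ℝ) * V y - 2 ^ ((PP 0 y).card)
    - ((n : ℝ) * S2 y Z + nu y Z + ((n : ℝ) + 1) ^ 2 / (2 * (Z : ℝ) ^ 2) + 1)
    - small n y p0 R lam
    - (2 ^ e0 * ((2 * (n : ℝ) + 1 + G) / 2 * S2 p0 P1 + nu p0 P1)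
      + 2 ^ e1 * ((2 * (n : ℝ) + 1 + G) / 2 * S2 P1 P2 + nu P1 P2)
      + 2 ^ e2 * ((2 * (n : ℝ) + 1 + G) / 2 * S2 P2 P3 + nu P2 P3)
      + 2 ^ e3 * ((2 * (n : ℝ) + 1 + G) / 2 * S2 P3 P4 + nu P3 P4))
    - r * ((n : ℝ) / p0 * (1 / 2 * Real.log A) + A / 3 + 1)
    - ((n : ℝ) + 1) ^ 2 / (P4 : ℝ) ^ 2 / 2
        * (1 + 1 / 2 * Real.log (((n : ℝ) + 1) ^ 2 / (P4 : ℝ) ^ 2))
    ≤ ((CycI n).card : ℝ)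

/-- Elementary tails (numbers prime to 6). -/
def S_NT : Prop := ∀ P P' : ℕ, 6 ≤ P → P ≤ P' →
  S2 P P' ≤ 1 / 3 * (1 / ((P : ℝ) - 3) - 1 / ((P' : ℝ) + 4)) ∧
  nu P P' ≤ ((P' : ℝ) - P) / 3 + 2 ∧
  S1 P P' ≤ 1 / 3 * Real.log (((P' : ℝ) + 4) / ((P : ℝ) - 3))

/-- Counting lattice points under the hyperbola. -/
def S_DG : Prop := ∀ R : ℕ, 1 ≤ R →
  D0 R ≤ R * (1 + Real.log R) ∧ D1 R ≤ 2 * Real.sqrt R * (1 + Real.log R)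

/-- Chebyshev-Mertens type bounds. -/
def S_CHEB : Prop := (∀ y : ℕ, 5003 ≤ y → 0.45 / Real.log y ≤ V y) ∧
  (∀ y Z : ℕ, 5003 ≤ y → S2 y Z ≤ 2.8 / ((y : ℝ) * Real.log y))

/-- Kernel computation. -/
def S_KER : Prop := ∀ n : ℕ, 1 ≤ n → n < 10 ^ 8 → 2 ≤ (CycI n).card

/-- The range `10^8 .. 10^14`. -/
def S_FIN : Prop := ∀ n : ℕ, 10 ^ 8 ≤ n → n ≤ 10 ^ 14 → 2 ≤ (CycI n).card

/-- The tail. -/
def S_TAIL : Prop := ∀ n : ℕ, 10 ^ 14 ≤ n → 2 ≤ (CycI n).card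

end Pool.Agent.Helper83.CY
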