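import Mathlib

/-! Binary splitting of finite sums of natural numbers, for kernel computation. -/

namespace Pool.Agent.Helper83.CY.Bs

/-- `bs f m k lo` is the sum of `f i` over `lo ≤ i < lo + 2 ^ k` with `i ≤ m`. -/
def bs (f : ℕ → ℕ) (m : ℕ) (k : ℕ) : ℕ → ℕ :=
  Nat.rec (motive := fun _ => ℕ → ℕ)
    (fun lo => cond (Nat.ble lo m) (f lo) 0)
    (fun j ih lo => cond (Nat.ble lo m) (Nat.add (ih lo) (ih (Nat.add lo (Nat.pow 2 j)))) 0) k

theorem bs_zero (f : ℕ → ℕ) (m lo : ℕ) : bs f m 0 lo = if lo ≤ m then f lo else 0 := by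
  show cond (Nat.ble lo m) (f lo) 0 = _
  by_cases h : lo ≤ m
  · rw [if_pos h, Nat.ble_eq_true_of_le h]; rfl
  · rw [if_neg h]
    have : Nat.ble lo m = false := by
      rw [← Bool.not_eq_true]; intro h'; exact h (Nat.le_of_ble_eq_true h')
    rw [this]; rfl

theorem bs_succ (f : ℕ → ℕ) (m j lo : ℕ) :
    bs f m (j + 1) lo = if lo ≤ m then bs f m j lo + bs f m j (lo + 2 ^ j) else 0 := by
  show cond (Nat.ble lo m) (Nat.add (bs f m j lo) (bs f m j (Nat.add lo (Nat.pow 2 j)))) 0 = _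
  by_cases h : lo ≤ m
  · rw [if_pos h, Nat.ble_eq_true_of_le h]; rfl
  · rw [if_neg h]
    have : Nat.ble lo m = false := by
      rw [← Bool.not_eq_true]; intro h'; exact h (Nat.le_of_ble_eq_true h')
    rw [this]; rfl

theorem bs_eq (f : ℕ → ℕ) (m : ℕ) : ∀ k lo : ℕ,
    bs f m k lo = ∑ i ∈ Finset.Ico lo (lo + 2 ^ k), if i ≤ m then f i else 0 := by
  intro k
  induction k with
  | zero => intro lo; rw [bs_zero]; simp
  | succ j ih =>
    intro lo
    rw [bs_succ, ih, ih]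
    have hs : ∑ i ∈ Finset.Ico lo (lo + 2 ^ (j + 1)), (if i ≤ m then f i else 0) =
        ∑ i ∈ Finset.Ico lo (lo + 2 ^ j), (if i ≤ m then f i else 0) +
        ∑ i ∈ Finset.Ico (lo + 2 ^ j) (lo + 2 ^ j + 2 ^ j), (if i ≤ m then f i else 0) := by
      rw [Finset.sum_Ico_consecutive _ (Nat.le_add_right _ _) (Nat.le_add_right _ _)]
      congr 2
      rw [pow_succ]; ring
    rw [hs]
    by_cases h : lo ≤ m
    · rw [if_pos h]
    · rw [if_neg h]
      have e1 : ∑ i ∈ Finset.Ico lo (lo + 2 ^ j), (if i ≤ m then f i else 0) = 0 :=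
        Finset.sum_eq_zero (fun i hi => by rw [Finset.mem_Ico] at hi; rw [if_neg (by omega)])
      have e2 : ∑ i ∈ Finset.Ico (lo + 2 ^ j) (lo + 2 ^ j + 2 ^ j), (if i ≤ m then f i else 0) = 0 :=
        Finset.sum_eq_zero (fun i hi => by rw [Finset.mem_Ico] at hi; rw [if_neg (by omega)])
      rw [e1, e2]

/-- the sum over `lo ≤ i ≤ m` -/
theorem bs_Icc (f : ℕ → ℕ) (m k lo : ℕ) (h : m < lo + 2 ^ k) :
    bs f m k lo = ∑ i ∈ Finset.Icc lo m, f i := by
  rw [bs_eq, ← Finset.sum_filter]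
  congr 1
  ext i
  rw [Finset.mem_filter, Finset.mem_Ico, Finset.mem_Icc]
  constructor
  · rintro ⟨⟨h1, _⟩, h2⟩; exact ⟨h1, h2⟩
  · rintro ⟨h1, h2⟩; exact ⟨⟨h1, by omega⟩, h2⟩

end Pool.Agent.Helper83.CY.Bs
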