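import Pool.Agent.Helper83.CY.Const
import Pool.Agent.Helper83.CY.Bs

/-! Module CD: sums over coprime pairs under the hyperbola by kernel computation. -/

namespace Pool.Agent.Helper83.CY.CD

open Pool.Agent.Helper83.CY Pool.Agent.Helper83.CY.Bs

/-- evaluate the argument first -/
def force (n : ℕ) (k : ℕ → ℕ) : ℕ :=
  Nat.rec (motive := fun _ => ℕ) (k 0) (fun m _ => k (Nat.succ m)) n

theorem force_eq (n : ℕ) (k : ℕ → ℕ) : force n k = k n := by
  cases n <;> rfl

def nw (N s : ℕ) : ℕ := Nat.div (Nat.add s (Nat.div N s)) 2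

/-- an approximation of `sqrt N` -/
def rt (N : ℕ) : ℕ :=
  nw N (nw N (nw N (nw N (Nat.pow 2 (Nat.succ (Nat.div (Nat.log2 N) 2))))))

/-- upper bound for `10 ^ 12 / sqrt m` -/
def c (m : ℕ) : ℕ :=
  Nat.add (Nat.div (Nat.add (Nat.div 10000000000000000 (rt (Nat.mul m 100000000)))
    (Nat.div (Nat.mul (rt (Nat.mul m 100000000)) 100000000) m)) 2) 2

def cc (m : ℕ) : ℕ :=
  cond (Nat.ble (c m) 100000000000000000000) (Nat.add (c m) 0) 100000000000000000000

def g (a b : ℕ) : ℕ :=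
  cond (Nat.beq (Nat.gcd a b) 1)
    (force (Nat.mul a b) (fun m => Nat.add (cc m) 1000000000000000000000000000000)) 0

def T (s R : ℕ) : ℕ :=
  bs (fun a => force (Nat.div R a) (fun m => bs (g a) m (Nat.succ (Nat.log2 m)) (Nat.succ a))) s 7 1

/-! ### proofs -/

theorem cond_ble (a b x y : ℕ) : cond (Nat.ble a b) x y = if a ≤ b then x else y := by
  by_cases h : a ≤ b
  · rw [if_pos h, Nat.ble_eq_true_of_le h]; rfl
  · rw [if_neg h]
    have : Nat.ble a b = false := by
      rw [← Bool.not_eq_true]; intro h'; exact h (Nat.le_of_ble_eq_true h')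
    rw [this]; rfl

theorem cond_beq (a b x y : ℕ) : cond (Nat.beq a b) x y = if a = b then x else y := by
  by_cases h : a = b
  · rw [if_pos h, h, Nat.beq_refl]; rfl
  · rw [if_neg h]
    have : Nat.beq a b = false := by
      rw [← Bool.not_eq_true]; intro h'; exact h (Nat.eq_of_beq_eq_true h')
    rw [this]; rfl

theorem nw_pos {N s : ℕ} (hN : 0 < N) (hs : 0 < s) : 0 < nw N s := by
  show 0 < (s + N / s) / 2
  apply Nat.div_pos _ (by norm_num)
  by_cases h : s = 1
  · subst h; rw [Nat.div_one]; omega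
  · exact le_trans (by omega : 2 ≤ s) (Nat.le_add_right _ _)

theorem rt_pos {N : ℕ} (hN : 0 < N) : 0 < rt N := by
  have h0 : 0 < Nat.pow 2 (Nat.succ (Nat.div (Nat.log2 N) 2)) := Nat.pow_pos (by norm_num)
  exact nw_pos hN (nw_pos hN (nw_pos hN (nw_pos hN h0)))

theorem le_floor (a b : ℕ) (hb : 0 < b) : (a : ℝ) / b ≤ ((a / b : ℕ) : ℝ) + 1 := by
  have hb' : (0 : ℝ) < b := by exact_mod_cast hb
  rw [div_le_iff₀ hb']
  have h := Nat.lt_div_mul_add (a := a) hb
  have h2 : (a : ℝ) < ((a / b : ℕ) : ℝ) * b + b := by exact_mod_cast h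
  linarith

theorem amgm (r S : ℝ) (hr : 0 < r) (hS : 0 < S) :
    1 / r ≤ (10000000000000000 / S + S * 100000000 / r ^ 2) / 2 / 10 ^ 12 := by
  have e : (10000000000000000 / S + S * 100000000 / r ^ 2) / 2 / 10 ^ 12 - 1 / r
      = (10 ^ 4 * r - S) ^ 2 / (2 * 10 ^ 4 * S * r ^ 2) := by
    field_simp
    ring
  have h : 0 ≤ (10 ^ 4 * r - S) ^ 2 / (2 * 10 ^ 4 * S * r ^ 2) := by positivity
  linarith

theorem c_bd {m : ℕ} (hm : 0 < m) : 1 / Real.sqrt m ≤ (c m : ℝ) / 10 ^ 12 := by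
  have hm' : (0 : ℝ) < m := by exact_mod_cast hm
  have hS : 0 < rt (m * 100000000) := rt_pos (by positivity)
  set S := rt (m * 100000000) with hSdef
  have hS' : (0 : ℝ) < S := by exact_mod_cast hS
  have hc : c m = (10000000000000000 / S + S * 100000000 / m) / 2 + 2 := rfl
  have h1 := le_floor 10000000000000000 S hS
  have h2 := le_floor (S * 100000000) m hm
  have h3 := le_floor (10000000000000000 / S + S * 100000000 / m) 2 (by norm_num)
  rw [hc]
  push_cast at h1 h2 h3 ⊢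
  have hr : 0 < Real.sqrt m := Real.sqrt_pos.mpr hm'
  have hsq : Real.sqrt m ^ 2 = m := Real.sq_sqrt hm'.le
  -- AM-GM
  have key : 1 / Real.sqrt m ≤ (10000000000000000 / (S : ℝ) + (S : ℝ) * 100000000 / m) / 2 / 10 ^ 12 := by
    have := amgm (Real.sqrt m) S hr hS'
    rw [hsq] at this
    exact this
  refine key.trans ?_
  apply div_le_div_of_nonneg_right _ (by norm_num)
  linarith

theorem cc_eq (m : ℕ) : cc m = min (c m) 100000000000000000000 := by
  unfold cc
  rw [cond_ble]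
  show (if c m ≤ 100000000000000000000 then c m + 0 else 100000000000000000000) = _
  by_cases h : c m ≤ 100000000000000000000
  · rw [if_pos h, min_eq_left h]; rfl
  · rw [if_neg h, min_eq_right (by omega)]

theorem cc_le (m : ℕ) : cc m ≤ 100000000000000000000 := by
  rw [cc_eq]; exact min_le_right _ _

theorem cc_bd {m : ℕ} (hm : 0 < m) : 1 / Real.sqrt m ≤ (cc m : ℝ) / 10 ^ 12 := by
  rw [cc_eq]
  rcases le_total (c m) 100000000000000000000 with h | h
  · rw [min_eq_left h]; exact c_bd hm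
  · rw [min_eq_right h]
    have h1 : (1 : ℝ) ≤ Real.sqrt m := by
      rw [Real.one_le_sqrt]; exact_mod_cast hm
    have h2 : 1 / Real.sqrt m ≤ 1 := by
      rw [div_le_one (by linarith)]; exact h1
    refine h2.trans ?_
    norm_num

theorem g_eq (a b : ℕ) :
    g a b = if Nat.gcd a b = 1 then cc (a * b) + 10 ^ 30 else 0 := by
  unfold g
  rw [cond_beq, force_eq]
  rfl

theorem T_eq {s R : ℕ} (hs : s < 100 + 1) :
    T s R = ∑ a ∈ Finset.Icc 1 s, ∑ b ∈ Finset.Icc (a + 1) (R / a),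
      if Nat.gcd a b = 1 then cc (a * b) + 10 ^ 30 else 0 := by
  unfold T
  rw [bs_Icc _ _ _ _ (by omega)]
  apply Finset.sum_congr rfl
  intro a _
  show force (R / a) (fun m => bs (g a) m (Nat.log2 m + 1) (a + 1)) = _
  rw [force_eq]
  show bs (g a) (R / a) (Nat.log2 (R / a) + 1) (a + 1) = _
  rw [bs_Icc]
  · apply Finset.sum_congr rfl
    intro b _
    rw [g_eq]
  · have : R / a < 2 ^ (Nat.log2 (R / a) + 1) := Nat.lt_log2_self
    omega

/-- the pairs with `a < b` -/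
def Lo (R : ℕ) : Finset (ℕ × ℕ) := (AB R).filter (fun x => x.1 < x.2)

theorem mem_AB {R : ℕ} {x : ℕ × ℕ} : x ∈ AB R ↔
    1 ≤ x.1 ∧ 1 ≤ x.2 ∧ x.1 * x.2 ≤ R ∧ Nat.Coprime x.1 x.2 := by
  unfold AB
  rw [Finset.mem_filter, Finset.mem_product, Finset.mem_Icc, Finset.mem_Icc]
  constructor
  · rintro ⟨⟨⟨h1, _⟩, ⟨h2, _⟩⟩, h3, h4⟩
    exact ⟨h1, h2, h3, h4⟩
  · rintro ⟨h1, h2, h3, h4⟩
    refine ⟨⟨⟨h1, ?_⟩, ⟨h2, ?_⟩⟩, h3, h4⟩
    · exact le_trans (Nat.le_mul_of_pos_right _ h2) h3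
    · exact le_trans (Nat.le_mul_of_pos_left _ h1) h3

theorem sum_AB {M : Type*} [AddCommMonoid M] {R : ℕ} (hR : 1 ≤ R) (F : ℕ → M) :
    ∑ x ∈ AB R, F (x.1 * x.2) = F 1 + (∑ x ∈ Lo R, F (x.1 * x.2) + ∑ x ∈ Lo R, F (x.1 * x.2)) := by
  classical
  have h1 : ∑ x ∈ AB R, F (x.1 * x.2) = ∑ x ∈ (AB R).filter (fun x => x.1 < x.2), F (x.1 * x.2) +
      ∑ x ∈ (AB R).filter (fun x => ¬ x.1 < x.2), F (x.1 * x.2) :=
    (Finset.sum_filter_add_sum_filter_not _ _ _).symm
  have h2 : ∑ x ∈ (AB R).filter (fun x => ¬ x.1 < x.2), F (x.1 * x.2) =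
      F 1 + ∑ x ∈ Lo R, F (x.1 * x.2) := by
    have e : (AB R).filter (fun x => ¬ x.1 < x.2) =
        insert (1, 1) ((Lo R).map ⟨Prod.swap, Prod.swap_injective⟩) := by
      ext x
      rw [Finset.mem_filter, mem_AB, Finset.mem_insert, Finset.mem_map]
      constructor
      · rintro ⟨⟨h1, h2, h3, h4⟩, h5⟩
        rcases Nat.lt_or_ge x.2 x.1 with h | h
        · right
          refine ⟨(x.2, x.1), ?_, rfl⟩
          rw [Lo, Finset.mem_filter, mem_AB]
          refine ⟨⟨h2, h1, ?_, h4.symm⟩, h⟩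
          show x.2 * x.1 ≤ R
          rw [mul_comm]; exact h3
        · left
          have h6 : x.1 = x.2 := by omega
          have h7 : x.2 = 1 := by
            rw [h6] at h4
            exact (Nat.coprime_self _).mp h4
          exact Prod.ext (h6.trans h7) h7
      · rintro (h | ⟨y, hy, h⟩)
        · subst h
          exact ⟨⟨le_refl _, le_refl _, by simpa using hR, Nat.coprime_one_left 1⟩, by norm_num⟩
        · rw [Lo, Finset.mem_filter, mem_AB] at hy
          obtain ⟨⟨h1, h2, h3, h4⟩, h5⟩ := hy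
          subst h
          refine ⟨⟨h2, h1, ?_, h4.symm⟩, ?_⟩
          · show y.2 * y.1 ≤ R
            rw [mul_comm]; exact h3
          · show ¬ y.2 < y.1
            omega
    have hn : (1, 1) ∉ ((Lo R).map ⟨Prod.swap, Prod.swap_injective⟩) := by
      rw [Finset.mem_map]
      rintro ⟨y, hy, h⟩
      rw [Lo, Finset.mem_filter] at hy
      have h1 : y.2 = 1 := congrArg Prod.fst h
      have h2 : y.1 = 1 := congrArg Prod.snd h
      omega
    rw [e, Finset.sum_insert hn, Finset.sum_map]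
    congr 1
    apply Finset.sum_congr rfl
    intro x _
    show F (x.2 * x.1) = F (x.1 * x.2)
    rw [mul_comm]
  rw [h1, h2]
  show ∑ x ∈ Lo R, F (x.1 * x.2) + _ = _
  rw [add_left_comm]

theorem sum_Lo {s R : ℕ} (hsR : R < (s + 1) * (s + 1)) (F : ℕ → ℕ) :
    ∑ x ∈ Lo R, F (x.1 * x.2) = ∑ a ∈ Finset.Icc 1 s, ∑ b ∈ Finset.Icc (a + 1) (R / a),
      if Nat.gcd a b = 1 then F (a * b) else 0 := by
  classical
  rw [Finset.sum_sigma']
  rw [← Finset.sum_filter (s := (Finset.Icc 1 s).sigma fun a => Finset.Icc (a + 1) (R / a))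
    (p := fun x => Nat.gcd x.1 x.2 = 1) (f := fun x => F (x.1 * x.2))]
  apply Finset.sum_bij' (i := fun (x : ℕ × ℕ) _ => (⟨x.1, x.2⟩ : Σ _ : ℕ, ℕ))
    (j := fun (x : Σ _ : ℕ, ℕ) _ => ((x.1, x.2) : ℕ × ℕ))
  · intro x hx
    rw [Lo, Finset.mem_filter, mem_AB] at hx
    obtain ⟨⟨h1, h2, h3, h4⟩, h5⟩ := hx
    rw [Finset.mem_filter, Finset.mem_sigma, Finset.mem_Icc, Finset.mem_Icc]
    refine ⟨⟨⟨h1, ?_⟩, ⟨h5, ?_⟩⟩, h4⟩
    · show x.1 ≤ s
      by_contra hc
      push Not at hc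
      have : (s + 1) * (s + 1) ≤ x.1 * x.2 := Nat.mul_le_mul hc (by omega)
      omega
    · show x.2 ≤ R / x.1
      rw [Nat.le_div_iff_mul_le h1, mul_comm]; exact h3
  · intro x hx
    rw [Finset.mem_filter, Finset.mem_sigma, Finset.mem_Icc, Finset.mem_Icc] at hx
    obtain ⟨⟨⟨h1, h2⟩, ⟨h3, h4⟩⟩, h5⟩ := hx
    rw [Lo, Finset.mem_filter, mem_AB]
    refine ⟨⟨h1, ?_, ?_, h5⟩, ?_⟩
    · show 1 ≤ x.2
      omega
    · show x.1 * x.2 ≤ R
      rw [Nat.le_div_iff_mul_le h1, mul_comm] at h4; exact h4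
    · show x.1 < x.2
      omega
  · intro x _; rfl
  · intro x _; rfl
  · intro x _; rfl

theorem decode {s R n B : ℕ} (hR : 1 ≤ R) (hR2 : R ≤ 10000) (hs : s < 100 + 1)
    (hsR : R < (s + 1) * (s + 1)) (_hs2 : 1 ≤ s)
    (h : T s R = n * 10 ^ 30 + B) (hB : B < 10 ^ 30) :
    (AB R).card = 2 * n + 1 ∧ D1 R ≤ (2 * (B : ℝ) + 1000000000002) / 10 ^ 12 := by
  classical
  rw [T_eq hs] at h
  have e1 : T s R = ∑ x ∈ Lo R, (cc (x.1 * x.2) + 10 ^ 30) := by
    rw [T_eq hs, sum_Lo hsR (fun m => cc m + 10 ^ 30)]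
  rw [T_eq hs] at e1
  rw [e1] at h
  rw [Finset.sum_add_distrib, Finset.sum_const, smul_eq_mul] at h
  have hc : (Lo R).card ≤ 10000 * 10000 := by
    have h1 : Lo R ⊆ (Finset.Icc 1 R) ×ˢ (Finset.Icc 1 R) := by
      intro x hx
      rw [Lo, Finset.mem_filter, AB, Finset.mem_filter] at hx
      exact hx.1.1
    refine (Finset.card_le_card h1).trans ?_
    rw [Finset.card_product, Nat.card_Icc, Nat.add_sub_cancel]
    exact Nat.mul_le_mul hR2 hR2
  have h1 : ∑ x ∈ Lo R, cc (x.1 * x.2) ≤ 10000 * 10000 * 100000000000000000000 := by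
    refine (Finset.sum_le_card_nsmul _ _ 100000000000000000000 ?_).trans ?_
    · intro p _; exact cc_le _
    · rw [smul_eq_mul]; exact Nat.mul_le_mul_right _ hc
  have hn : (Lo R).card = n := by omega
  have hB' : ∑ x ∈ Lo R, cc (x.1 * x.2) = B := by omega
  constructor
  · have := sum_AB hR (fun _ => 1)
    rw [Finset.sum_const, Finset.sum_const, smul_eq_mul, smul_eq_mul, mul_one, mul_one, hn] at this
    omega
  · unfold D1
    have e2 : ∑ x ∈ AB R, 1 / Real.sqrt ((x.1 : ℝ) * (x.2 : ℝ)) ≤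
        ∑ x ∈ AB R, (cc (x.1 * x.2) : ℝ) / 10 ^ 12 := by
      apply Finset.sum_le_sum
      intro x hx
      rw [mem_AB] at hx
      have := cc_bd (m := x.1 * x.2) (Nat.mul_pos hx.1 hx.2.1)
      push_cast at this
      exact this
    refine e2.trans ?_
    rw [← Finset.sum_div]
    apply div_le_div_of_nonneg_right _ (by norm_num)
    have e3 := sum_AB hR (fun m => cc m)
    rw [hB'] at e3
    have e4 : ∑ x ∈ AB R, (cc (x.1 * x.2) : ℝ) = ((∑ x ∈ AB R, cc (x.1 * x.2) : ℕ) : ℝ) := by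
      push_cast; rfl
    have hcc : cc 1 = 1000000000002 := by decide +kernel
    rw [e4, e3, hcc]
    push_cast
    linarith

theorem t_256 : T 16 256 = 532 * 10 ^ 30 + 56335311626152 := by
  decide +kernel

theorem d_256 : S_D256 := by
  obtain ⟨h1, h2⟩ := decode (s := 16) (R := 256) (n := 532) (B := 56335311626152)
    (by norm_num) (by norm_num) (by norm_num) (by norm_num) (by norm_num) t_256 (by norm_num)
  refine ⟨by rw [h1], h2.trans ?_⟩
  norm_num

theorem t_400 : T 20 400 = 885 * 10 ^ 30 + 75918962053104 := by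
  decide +kernel

theorem d_400 : S_D400 := by
  obtain ⟨h1, h2⟩ := decode (s := 20) (R := 400) (n := 885) (B := 75918962053104)
    (by norm_num) (by norm_num) (by norm_num) (by norm_num) (by norm_num) t_400 (by norm_num)
  refine ⟨by rw [h1], h2.trans ?_⟩
  norm_num

theorem t_576 : T 24 576 = 1342 * 10 ^ 30 + 96669376246834 := by
  decide +kernel

theorem d_576 : S_D576 := by
  obtain ⟨h1, h2⟩ := decode (s := 24) (R := 576) (n := 1342) (B := 96669376246834)
    (by norm_num) (by norm_num) (by norm_num) (by norm_num) (by norm_num) t_576 (by norm_num)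
  refine ⟨by rw [h1], h2.trans ?_⟩
  norm_num

theorem t_2500 : T 50 2500 = 6932 * 10 ^ 30 + 246340550063309 := by
  decide +kernel

theorem d_2500 : S_D2500 := by
  obtain ⟨h1, h2⟩ := decode (s := 50) (R := 2500) (n := 6932) (B := 246340550063309)
    (by norm_num) (by norm_num) (by norm_num) (by norm_num) (by norm_num) t_2500 (by norm_num)
  refine ⟨by rw [h1], h2.trans ?_⟩
  norm_num

theorem t_10000 : T 100 10000 = 31934 * 10 ^ 30 + 577360328434303 := by
  decide +kernel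

theorem d_10000 : S_D10000 := by
  obtain ⟨h1, h2⟩ := decode (s := 100) (R := 10000) (n := 31934) (B := 577360328434303)
    (by norm_num) (by norm_num) (by norm_num) (by norm_num) (by norm_num) t_10000 (by norm_num)
  refine ⟨by rw [h1], h2.trans ?_⟩
  norm_num

theorem cd : S_CD :=
  ⟨d_256, d_400, d_576, d_2500, d_10000⟩

end Pool.Agent.Helper83.CY.CD
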