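import Pool.Agent.Helper83.CY.Const
import Pool.Agent.Helper83.CY.Bs

/-! Module CP: sums over primes up to 20000 by kernel computation. -/

namespace Pool.Agent.Helper83.CY.CP

open Pool.Agent.Helper83.CY Pool.Agent.Helper83.CY.Bs

/-- product of the primes up to 71 -/
def M1 : ℕ := 2*3*5*7*11*13*17*19*23*29*31*37*41*43*47*53*59*61*67*71

/-- product of the primes from 73 to 139 -/
def M2 : ℕ := 73*79*83*89*97*101*103*107*109*113*127*131*137*139

def L1 : List ℕ := [2,3,5,7,11,13,17,19,23,29,31,37,41,43,47,53,59,61,67,71]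

def L2 : List ℕ := [73,79,83,89,97,101,103,107,109,113,127,131,137,139]

theorem M1_eq : M1 = L1.prod := by decide +kernel
theorem M2_eq : M2 = L2.prod := by decide +kernel

theorem mem_L1 {q : ℕ} (hq : q.Prime) (h : q < 73) : q ∈ L1 := by
  by_contra hc
  simp only [L1, List.mem_cons, List.not_mem_nil, or_false, not_or] at hc
  obtain ⟨h1, h2, h3, h4, h5, h6, h7, h8, h9, h10, h11, h12, h13, h14, h15, h16, h17, h18, h19,
    h20⟩ := hc
  interval_cases q <;> first | omega | (revert hq; norm_num)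

theorem mem_L2 {q : ℕ} (hq : q.Prime) (h0 : 73 ≤ q) (h : q < 149) : q ∈ L2 := by
  by_contra hc
  simp only [L2, List.mem_cons, List.not_mem_nil, or_false, not_or] at hc
  obtain ⟨h1, h2, h3, h4, h5, h6, h7, h8, h9, h10, h11, h12, h13, h14⟩ := hc
  interval_cases q <;> first | omega | (revert hq; norm_num)

theorem prime_of {i : ℕ} (h1 : 1 < i) (hb : i ≤ 20000) (hg : Nat.gcd i M1 = 1)
    (h2 : i < 5329 ∨ Nat.gcd i M2 = 1) : i.Prime := by
  by_contra hc
  have hq : (Nat.minFac i).Prime := Nat.minFac_prime (by omega)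
  have hd : Nat.minFac i ∣ i := Nat.minFac_dvd i
  have hsq : Nat.minFac i ^ 2 ≤ i := Nat.minFac_sq_le_self (by omega) hc
  rcases Nat.lt_or_ge (Nat.minFac i) 73 with h | h
  · have : Nat.minFac i ∣ M1 := by rw [M1_eq]; exact List.dvd_prod (mem_L1 hq h)
    have h3 := Nat.dvd_gcd hd this
    rw [hg] at h3
    exact hq.one_lt.ne' (Nat.dvd_one.mp h3)
  · rcases h2 with h2 | h2
    · nlinarith
    · have h4 : Nat.minFac i < 149 := by
        by_contra h5
        push Not at h5
        nlinarith
      have : Nat.minFac i ∣ M2 := by rw [M2_eq]; exact List.dvd_prod (mem_L2 hq h h4)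
      have h3 := Nat.dvd_gcd hd this
      rw [h2] at h3
      exact hq.one_lt.ne' (Nat.dvd_one.mp h3)

theorem of_prime {i : ℕ} (h1 : 71 < i) (hp : i.Prime) :
    Nat.gcd i M1 = 1 ∧ (i < 5329 ∨ Nat.gcd i M2 = 1) := by
  constructor
  · have : Nat.Coprime i M1 := by
      rw [Nat.Prime.coprime_iff_not_dvd hp, M1_eq]
      intro h
      obtain ⟨a, ha, hd⟩ := (Prime.dvd_prod_iff (Nat.prime_iff.mp hp)).mp h
      have h5 : ∀ a ∈ L1, 0 < a ∧ a ≤ 71 := by decide
      have := Nat.le_of_dvd (h5 a ha).1 hd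
      have := (h5 a ha).2
      omega
    exact this
  · by_cases h : i < 5329
    · exact Or.inl h
    · right
      have : Nat.Coprime i M2 := by
        rw [Nat.Prime.coprime_iff_not_dvd hp, M2_eq]
        intro h
        obtain ⟨a, ha, hd⟩ := (Prime.dvd_prod_iff (Nat.prime_iff.mp hp)).mp h
        have h5 : ∀ a ∈ L2, 0 < a ∧ a ≤ 139 := by decide
        have := Nat.le_of_dvd (h5 a ha).1 hd
        have := (h5 a ha).2
        omega
      exact this

/-- combined weight -/
def W (i : ℕ) : ℕ :=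
  10 ^ 40 + (10 ^ 15 / i + 1) * 10 ^ 20 + (10 ^ 15 / (i * i) + 1)

def f (i : ℕ) : ℕ :=
  cond (Nat.beq (Nat.gcd i 557940830126698960967415390) 1)
    (cond (Nat.ble i 5328)
      (Nat.add 10000000000000000000000000000000000000000
        (Nat.add (Nat.mul (Nat.succ (Nat.div 1000000000000000 i)) 100000000000000000000)
          (Nat.succ (Nat.div 1000000000000000 (Nat.mul i i)))))
      (cond (Nat.beq (Nat.gcd i 17949298760452846880673960431) 1)
        (Nat.add 10000000000000000000000000000000000000000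
          (Nat.add (Nat.mul (Nat.succ (Nat.div 1000000000000000 i)) 100000000000000000000)
            (Nat.succ (Nat.div 1000000000000000 (Nat.mul i i)))))
        0)) 0

theorem f_eq {i : ℕ} (h1 : 71 < i) (hb : i ≤ 20000) : f i = if i.Prime then W i else 0 := by
  have hM1 : M1 = 557940830126698960967415390 := by decide +kernel
  have hM2 : M2 = 17949298760452846880673960431 := by decide +kernel
  have hW : Nat.add 10000000000000000000000000000000000000000
      (Nat.add (Nat.mul (Nat.succ (Nat.div 1000000000000000 i)) 100000000000000000000)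
        (Nat.succ (Nat.div 1000000000000000 (Nat.mul i i)))) = W i := by
    unfold W
    show 10000000000000000000000000000000000000000 + ((1000000000000000 / i + 1) *
      100000000000000000000 + (1000000000000000 / (i * i) + 1)) = _
    norm_num
    ring
  unfold f
  rw [hW, ← hM1, ← hM2]
  have c1 : ∀ a b : ℕ, ∀ x y : ℕ, cond (Nat.beq a b) x y = if a = b then x else y := by
    intro a b x y
    by_cases h : a = b
    · rw [if_pos h, h, Nat.beq_refl]; rfl
    · rw [if_neg h]
      have : Nat.beq a b = false := by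
        rw [← Bool.not_eq_true]; intro h'; exact h (Nat.eq_of_beq_eq_true h')
      rw [this]; rfl
  have c2 : ∀ a b : ℕ, ∀ x y : ℕ, cond (Nat.ble a b) x y = if a ≤ b then x else y := by
    intro a b x y
    by_cases h : a ≤ b
    · rw [if_pos h, Nat.ble_eq_true_of_le h]; rfl
    · rw [if_neg h]
      have : Nat.ble a b = false := by
        rw [← Bool.not_eq_true]; intro h'; exact h (Nat.le_of_ble_eq_true h')
      rw [this]; rfl
  rw [c1, c2, c1]
  by_cases hp : i.Prime
  · obtain ⟨h2, h3⟩ := of_prime h1 hp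
    rw [if_pos h2, if_pos hp]
    by_cases h4 : i ≤ 5328
    · rw [if_pos h4]
    · rw [if_neg h4, if_pos]
      rcases h3 with h3 | h3
      · omega
      · exact h3
  · rw [if_neg hp]
    by_cases h2 : Nat.gcd i M1 = 1
    · rw [if_pos h2]
      by_cases h4 : i ≤ 5328
      · exact absurd (prime_of (by omega) hb h2 (Or.inl (by omega))) hp
      · rw [if_neg h4]
        by_cases h5 : Nat.gcd i M2 = 1
        · exact absurd (prime_of (by omega) hb h2 (Or.inr h5)) hp
        · rw [if_neg h5]
    · rw [if_neg h2]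

/-- the combined sum -/
theorem sum_eq {a b : ℕ} (ha : 71 ≤ a) (hb : b ≤ 20000) :
    ∑ p ∈ PP a b, W p = bs f b 15 (a + 1) := by
  rw [bs_Icc _ _ _ _ (by omega), PP, Finset.sum_filter]
  apply Finset.sum_congr
  · ext i; rw [Finset.mem_Ioc, Finset.mem_Icc]; omega
  · intro i hi
    rw [Finset.mem_Icc] at hi
    rw [f_eq (by omega) (by omega)]

theorem decode {a b n A B : ℕ} (ha : 71 ≤ a) (hb : b ≤ 20000)
    (h : bs f b 15 (a + 1) = n * 10 ^ 40 + A * 10 ^ 20 + B) (hA : A < 10 ^ 20) (hB : B < 10 ^ 20) :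
    (PP a b).card = n ∧ S1 a b ≤ (A : ℝ) / 10 ^ 15 ∧ S2 a b ≤ (B : ℝ) / 10 ^ 15 := by
  rw [← sum_eq ha hb] at h
  have hc : (PP a b).card ≤ 20000 := by
    refine (Finset.card_filter_le _ _).trans ?_
    rw [Nat.card_Ioc]; omega
  have e : ∑ p ∈ PP a b, W p = (PP a b).card * 10 ^ 40 +
      (∑ p ∈ PP a b, (10 ^ 15 / p + 1)) * 10 ^ 20 + ∑ p ∈ PP a b, (10 ^ 15 / (p * p) + 1) := by
    unfold W
    rw [Finset.sum_add_distrib, Finset.sum_add_distrib, Finset.sum_const, smul_eq_mul,
      Finset.sum_mul]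
  have h1 : ∑ p ∈ PP a b, (10 ^ 15 / p + 1) ≤ 20000 * (10 ^ 15 + 1) := by
    refine (Finset.sum_le_card_nsmul _ _ (10 ^ 15 + 1) ?_).trans ?_
    · intro p _; exact Nat.add_le_add_right (Nat.div_le_self _ _) 1
    · rw [smul_eq_mul]; exact Nat.mul_le_mul_right _ hc
  have h2 : ∑ p ∈ PP a b, (10 ^ 15 / (p * p) + 1) ≤ 20000 * (10 ^ 15 + 1) := by
    refine (Finset.sum_le_card_nsmul _ _ (10 ^ 15 + 1) ?_).trans ?_
    · intro p _; exact Nat.add_le_add_right (Nat.div_le_self _ _) 1
    · rw [smul_eq_mul]; exact Nat.mul_le_mul_right _ hc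
  rw [e] at h
  have hr : ∀ p ∈ PP a b, (0 : ℝ) < p := by
    intro p hp
    rw [PP, Finset.mem_filter] at hp
    exact_mod_cast hp.2.pos
  have hk : ∀ q : ℕ, 0 < q → (1 : ℝ) / q ≤ ((10 ^ 15 / q + 1 : ℕ) : ℝ) / 10 ^ 15 := by
    intro q hq
    have hq' : (0 : ℝ) < q := by exact_mod_cast hq
    rw [div_le_div_iff₀ hq' (by norm_num)]
    have := Nat.lt_div_mul_add (a := 10 ^ 15) hq
    have h3 : 10 ^ 15 < (10 ^ 15 / q + 1) * q := by
      rw [add_mul, one_mul]; exact this
    have h4 : ((10 ^ 15 : ℕ) : ℝ) < (((10 ^ 15 / q + 1) * q : ℕ) : ℝ) := by exact_mod_cast h3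
    push_cast at h4 ⊢
    linarith
  refine ⟨by omega, ?_, ?_⟩
  · have hA' : ∑ p ∈ PP a b, (10 ^ 15 / p + 1) = A := by omega
    rw [← hA', S1]
    push_cast
    rw [Finset.sum_div]
    apply Finset.sum_le_sum
    intro p hp
    have h5 := hk p (by exact_mod_cast hr p hp)
    push_cast at h5
    exact h5
  · have hB' : ∑ p ∈ PP a b, (10 ^ 15 / (p * p) + 1) = B := by omega
    rw [← hB', S2]
    push_cast
    rw [Finset.sum_div]
    apply Finset.sum_le_sum
    intro p hp
    have hp0 : 0 < p := by exact_mod_cast hr p hp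
    have h5 := hk (p * p) (Nat.mul_pos hp0 hp0)
    push_cast at h5
    rw [pow_two]
    exact h5

theorem t_71_3000 : bs f 3000 15 72 = 410 * 10 ^ 40 + 601182454745382 * 10 ^ 20 + 2507138076035 := by
  decide +kernel

theorem p_71_3000 : S_P71_3000 := by
  obtain ⟨h1, h2, h3⟩ := decode (a := 71) (b := 3000) (n := 410) (A := 601182454745382) (B := 2507138076035)
    (by norm_num) (by norm_num) t_71_3000 (by norm_num) (by norm_num)
  refine ⟨h2.trans ?_, h3.trans ?_, h1⟩ <;> norm_num

theorem t_71_4000 : bs f 4000 15 72 = 530 * 10 ^ 40 + 635716102964812 * 10 ^ 20 + 2517141022889 := by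
  decide +kernel

theorem p_71_4000 : S_P71_4000 := by
  obtain ⟨h1, h2, h3⟩ := decode (a := 71) (b := 4000) (n := 530) (A := 635716102964812) (B := 2517141022889)
    (by norm_num) (by norm_num) t_71_4000 (by norm_num) (by norm_num)
  refine ⟨h2.trans ?_, h3.trans ?_, h1⟩ <;> norm_num

theorem t_71_6000 : bs f 6000 15 72 = 763 * 10 ^ 40 + 683117161170506 * 10 ^ 20 + 2526919479386 := by
  decide +kernel

theorem p_71_6000 : S_P71_6000 := by
  obtain ⟨h1, h2, h3⟩ := decode (a := 71) (b := 6000) (n := 763) (A := 683117161170506) (B := 2526919479386)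
    (by norm_num) (by norm_num) t_71_6000 (by norm_num) (by norm_num)
  refine ⟨h2.trans ?_, h3.trans ?_, h1⟩ <;> norm_num

theorem t_83_16000 : bs f 16000 15 84 = 1839 * 10 ^ 40 + 751353039231176 * 10 ^ 20 + 2045297405565 := by
  decide +kernel

theorem p_83_16000 : S_P83_16000 := by
  obtain ⟨h1, h2, h3⟩ := decode (a := 83) (b := 16000) (n := 1839) (A := 751353039231176) (B := 2045297405565)
    (by norm_num) (by norm_num) t_83_16000 (by norm_num) (by norm_num)
  refine ⟨h2.trans ?_, h3.trans ?_, h1⟩ <;> norm_num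

theorem t_97_20000 : bs f 20000 15 98 = 2237 * 10 ^ 40 + 752117030124032 * 10 ^ 20 + 1814018923470 := by
  decide +kernel

theorem p_97_20000 : S_P97_20000 := by
  obtain ⟨h1, h2, h3⟩ := decode (a := 97) (b := 20000) (n := 2237) (A := 752117030124032) (B := 1814018923470)
    (by norm_num) (by norm_num) t_97_20000 (by norm_num) (by norm_num)
  refine ⟨h2.trans ?_, h3.trans ?_, h1⟩ <;> norm_num

theorem t_131_20000 : bs f 20000 15 132 = 2230 * 10 ^ 40 + 689630034785398 * 10 ^ 20 + 1251631400630 := by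
  decide +kernel

theorem p_131_20000 : S_P131_20000 := by
  obtain ⟨h1, h2, h3⟩ := decode (a := 131) (b := 20000) (n := 2230) (A := 689630034785398) (B := 1251631400630)
    (by norm_num) (by norm_num) t_131_20000 (by norm_num) (by norm_num)
  refine ⟨h2.trans ?_, h3.trans ?_, h1⟩ <;> norm_num

theorem t_151_20000 : bs f 20000 15 152 = 2226 * 10 ^ 40 + 661802594155822 * 10 ^ 20 + 1057694159984 := by
  decide +kernel

theorem p_151_20000 : S_P151_20000 := by
  obtain ⟨h1, h2, h3⟩ := decode (a := 151) (b := 20000) (n := 2226) (A := 661802594155822) (B := 1057694159984)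
    (by norm_num) (by norm_num) t_151_20000 (by norm_num) (by norm_num)
  refine ⟨h2.trans ?_, h3.trans ?_, h1⟩ <;> norm_num

theorem t_1021_20000 : bs f 20000 15 1022 = 2090 * 10 ^ 40 + 352915070690671 * 10 ^ 20 + 118497856274 := by
  decide +kernel

theorem p_1021_20000 : S_P1021_20000 := by
  obtain ⟨h1, h2, h3⟩ := decode (a := 1021) (b := 20000) (n := 2090) (A := 352915070690671) (B := 118497856274)
    (by norm_num) (by norm_num) t_1021_20000 (by norm_num) (by norm_num)
  refine ⟨h2.trans ?_, h3.trans ?_, h1⟩ <;> norm_num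

theorem t_5003_20000 : bs f 20000 15 5004 = 1592 * 10 ^ 40 + 149545693410047 * 10 ^ 20 + 16433055887 := by
  decide +kernel

theorem p_5003_20000 : S_P5003_20000 := by
  obtain ⟨h1, h2, h3⟩ := decode (a := 5003) (b := 20000) (n := 1592) (A := 149545693410047) (B := 16433055887)
    (by norm_num) (by norm_num) t_5003_20000 (by norm_num) (by norm_num)
  refine ⟨h2.trans ?_, h3.trans ?_, h1⟩ <;> norm_num

theorem cp : S_CP :=
  ⟨p_71_3000, p_71_4000, p_71_6000, p_83_16000, p_97_20000, p_131_20000, p_151_20000, p_1021_20000, p_5003_20000⟩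

end Pool.Agent.Helper83.CY.CP
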