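import Pool.Agent.Helper83.CY.Const

/-! module CV: lower bounds for the products `V y` by kernel computation -/

namespace Pool.Agent.Helper83.CY.CV

/-- bit mask of the primes at most `70` -/
def mask : ℕ := 150465415423185266860

/-- `70!` -/
def c70 : ℕ := 11978571669969891796072783721689098736458938142546425857555362864628009582789845319680000000000000000

/-- primality test below `5041` -/
def tst (m : ℕ) : Bool := if m ≤ 70 then Nat.testBit mask m else Nat.gcd m c70 == 1

theorem c70_eq : c70 = Nat.factorial 70 := by decide +kernel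

theorem small_ok : ∀ m : ℕ, m < 71 → (Nat.testBit mask m = true ↔ m.Prime) := by decide +kernel

theorem tst_iff (m : ℕ) (hm : m < 5041) : tst m = true ↔ m.Prime := by
  unfold tst
  split_ifs with h
  · exact small_ok m (by omega)
  · rw [beq_iff_eq, c70_eq]
    constructor
    · intro hg
      by_contra hp
      have hm2 : 2 ≤ m := by omega
      have hf : (Nat.minFac m) ^ 2 ≤ m := Nat.minFac_sq_le_self (by omega) hp
      have hle : Nat.minFac m ≤ 70 := by
        by_contra hc
        have : 71 ≤ Nat.minFac m := by omega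
        nlinarith
      have hpr : (Nat.minFac m).Prime := Nat.minFac_prime (by omega)
      have h1 : Nat.minFac m ∣ Nat.factorial 70 := (Nat.Prime.dvd_factorial hpr).2 hle
      have h2 : Nat.minFac m ∣ Nat.gcd m (Nat.factorial 70) :=
        Nat.dvd_gcd (Nat.minFac_dvd m) h1
      rw [hg] at h2
      exact hpr.one_lt.ne' (Nat.dvd_one.1 h2)
    · intro hp
      exact (Nat.Prime.coprime_iff_not_dvd hp).2
        (fun hd => h ((Nat.Prime.dvd_factorial hp).1 hd))

/-- fixed precision product over the last `k` numbers below `N` -/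
def run (N : ℕ) : ℕ → ℕ → ℕ
  | 0, v => v
  | k + 1, v =>
    bif tst (N - (k + 1)) then run N k (v * (N - (k + 1) - 1) / (N - (k + 1))) else run N k v

/-- the same for the number of primes -/
def cnt (N : ℕ) : ℕ → ℕ → ℕ
  | 0, v => v
  | k + 1, v => bif tst (N - (k + 1)) then cnt N k (v + 1) else cnt N k v

theorem PP_succ_prime (M : ℕ) (h : (M + 1).Prime) : PP 0 (M + 1) = insert (M + 1) (PP 0 M) := by
  ext x
  simp only [PP, Finset.mem_filter, Finset.mem_Ioc, Finset.mem_insert]
  constructor
  · rintro ⟨⟨h1, h2⟩, h3⟩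
    by_cases hx : x = M + 1
    · exact Or.inl hx
    · exact Or.inr ⟨⟨h1, by omega⟩, h3⟩
  · rintro (rfl | ⟨⟨h1, h2⟩, h3⟩)
    · exact ⟨⟨by omega, le_refl _⟩, h⟩
    · exact ⟨⟨h1, by omega⟩, h3⟩

theorem PP_succ_not (M : ℕ) (h : ¬ (M + 1).Prime) : PP 0 (M + 1) = PP 0 M := by
  ext x
  simp only [PP, Finset.mem_filter, Finset.mem_Ioc]
  constructor
  · rintro ⟨⟨h1, h2⟩, h3⟩
    refine ⟨⟨h1, ?_⟩, h3⟩
    have : x ≠ M + 1 := by rintro rfl; exact h h3
    omega
  · rintro ⟨⟨h1, h2⟩, h3⟩
    exact ⟨⟨h1, by omega⟩, h3⟩

theorem not_mem_PP (M : ℕ) : M + 1 ∉ PP 0 M := by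
  simp [PP]

theorem V_succ_prime (M : ℕ) (h : (M + 1).Prime) :
    V (M + 1) = (1 - 1 / ((M + 1 : ℕ) : ℝ)) * V M := by
  unfold V
  rw [PP_succ_prime M h, Finset.prod_insert (not_mem_PP M)]

theorem V_succ_not (M : ℕ) (h : ¬ (M + 1).Prime) : V (M + 1) = V M := by
  unfold V
  rw [PP_succ_not M h]

theorem V_nonneg (M : ℕ) : 0 ≤ V M := by
  unfold V
  refine Finset.prod_nonneg (fun p hp => ?_)
  have hp1 : p.Prime := by simp only [PP, Finset.mem_filter] at hp; exact hp.2
  have : (1 : ℝ) ≤ p := by exact_mod_cast hp1.one_lt.le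
  have : 1 / (p : ℝ) ≤ 1 := by rw [div_le_one (by linarith)]; exact this
  linarith

theorem run_le (N : ℕ) (hN : N ≤ 5041) : ∀ (k v : ℕ), k ≤ N - 1 → 1 ≤ N →
    (v : ℝ) ≤ 10 ^ 20 * V (N - 1 - k) → (run N k v : ℝ) ≤ 10 ^ 20 * V (N - 1) := by
  intro k
  induction k with
  | zero => intro v _ _ h; simpa [run] using h
  | succ k ih =>
    intro v hk hN1 h
    have e1 : N - (k + 1) = (N - 1 - (k + 1)) + 1 := by omega
    have e2 : N - 1 - k = (N - 1 - (k + 1)) + 1 := by omega
    set M := N - 1 - (k + 1) with hM
    have hMlt : M + 1 < 5041 := by omega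
    have hdef : run N (k + 1) v
      = bif tst (N - (k + 1)) then run N k (v * (N - (k + 1) - 1) / (N - (k + 1))) else run N k v := rfl
    rw [hdef, e1]
    by_cases hp : (M + 1).Prime
    · have ht : tst (M + 1) = true := (tst_iff _ hMlt).2 hp
      rw [ht, cond_true]
      refine ih _ (by omega) hN1 ?_
      rw [e2, V_succ_prime M hp]
      have h1 : ((v * (M + 1 - 1) / (M + 1) : ℕ) : ℝ) ≤ ((v * (M + 1 - 1) : ℕ) : ℝ) / ((M + 1 : ℕ) : ℝ) :=
        Nat.cast_div_le
      have hpos : (0 : ℝ) < ((M + 1 : ℕ) : ℝ) := by positivity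
      have h2 : ((v * (M + 1 - 1) : ℕ) : ℝ) / ((M + 1 : ℕ) : ℝ) = (v : ℝ) * (1 - 1 / ((M + 1 : ℕ) : ℝ)) := by
        have : M + 1 - 1 = M := by omega
        rw [this]
        field_simp
        push_cast
        ring
      rw [h2] at h1
      have h3 : (0 : ℝ) ≤ 1 - 1 / ((M + 1 : ℕ) : ℝ) := by
        have : (1 : ℝ) ≤ ((M + 1 : ℕ) : ℝ) := by exact_mod_cast (by omega : 1 ≤ M + 1)
        have : 1 / ((M + 1 : ℕ) : ℝ) ≤ 1 := by rw [div_le_one hpos]; exact this
        linarith
      calc ((v * (M + 1 - 1) / (M + 1) : ℕ) : ℝ) ≤ (v : ℝ) * (1 - 1 / ((M + 1 : ℕ) : ℝ)) := h1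
        _ ≤ (10 ^ 20 * V M) * (1 - 1 / ((M + 1 : ℕ) : ℝ)) := mul_le_mul_of_nonneg_right h h3
        _ = 10 ^ 20 * ((1 - 1 / ((M + 1 : ℕ) : ℝ)) * V M) := by ring
    · have ht : tst (M + 1) = false := by
        rw [Bool.eq_false_iff]
        exact fun h => hp ((tst_iff _ hMlt).1 h)
      rw [ht, cond_false]
      refine ih _ (by omega) hN1 ?_
      rw [e2, V_succ_not M hp]
      exact h

theorem cnt_eq (N : ℕ) (hN : N ≤ 5041) : ∀ (k v : ℕ), k ≤ N - 1 → 1 ≤ N →
    (PP 0 (N - 1 - k)).card = v → (PP 0 (N - 1)).card = cnt N k v := by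
  intro k
  induction k with
  | zero => intro v _ _ h; simpa [cnt] using h
  | succ k ih =>
    intro v hk hN1 h
    have e1 : N - (k + 1) = (N - 1 - (k + 1)) + 1 := by omega
    have e2 : N - 1 - k = (N - 1 - (k + 1)) + 1 := by omega
    set M := N - 1 - (k + 1) with hM
    have hMlt : M + 1 < 5041 := by omega
    have hdef : cnt N (k + 1) v = bif tst (N - (k + 1)) then cnt N k (v + 1) else cnt N k v := rfl
    rw [hdef, e1]
    by_cases hp : (M + 1).Prime
    · have ht : tst (M + 1) = true := (tst_iff _ hMlt).2 hp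
      rw [ht, cond_true]
      refine ih _ (by omega) hN1 ?_
      rw [e2, PP_succ_prime M hp, Finset.card_insert_of_notMem (not_mem_PP M), h]
    · have ht : tst (M + 1) = false := by
        rw [Bool.eq_false_iff]
        exact fun h => hp ((tst_iff _ hMlt).1 h)
      rw [ht, cond_false]
      refine ih _ (by omega) hN1 ?_
      rw [e2, PP_succ_not M hp]
      exact h

/-- the certified state -/
def St (M v c : ℕ) : Prop := (v : ℝ) ≤ 10 ^ 20 * V M ∧ (PP 0 M).card = c

theorem step {M v c : ℕ} (h : St M v c) (N v' c' : ℕ) (hN : N ≤ 5040) (hM : M ≤ N)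
    (hv : run (N + 1) (N - M) v = v') (hc : cnt (N + 1) (N - M) c = c') : St N v' c' := by
  have e : N + 1 - 1 - (N - M) = M := by omega
  constructor
  · have := run_le (N + 1) (by omega) (N - M) v (by omega) (by omega) (by rw [e]; exact h.1)
    rw [hv] at this
    simpa using this
  · have := cnt_eq (N + 1) (by omega) (N - M) c (by omega) (by omega) (by rw [e]; exact h.2)
    rw [hc] at this
    simpa using this

theorem st0 : St 0 (10 ^ 20) 0 := by
  constructor
  · have h : V 0 = 1 := by simp [V, PP]
    rw [h]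
    norm_num
  · simp [PP]

theorem st71 : St 71 12779768037591930021 20 :=
  step st0 71 12779768037591930021 20 (by norm_num) (by norm_num) (by decide +kernel) (by decide +kernel)

theorem st83 : St 83 12295207962477692725 23 :=
  step st71 83 12295207962477692725 23 (by norm_num) (by norm_num) (by decide +kernel) (by decide +kernel)

theorem st97 : St 97 12031729047493518838 25 :=
  step st83 97 12031729047493518838 25 (by norm_num) (by norm_num) (by decide +kernel) (by decide +kernel)

theorem st131 : St 131 11299713220807927839 32 :=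
  step st97 131 11299713220807927839 32 (by norm_num) (by norm_num) (by decide +kernel) (by decide +kernel)

theorem st151 : St 151 10988535299041431278 36 :=
  step st131 151 10988535299041431278 36 (by norm_num) (by norm_num) (by decide +kernel) (by decide +kernel)

theorem st500 : St 500 8960973680803670282 95 :=
  step st151 500 8960973680803670282 95 (by norm_num) (by norm_num) (by decide +kernel) (by decide +kernel)

theorem st1021 : St 1021 8064680942039034536 172 :=
  step st500 1021 8064680942039034536 172 (by norm_num) (by norm_num) (by decide +kernel) (by decide +kernel)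

theorem st1500 : St 1500 7643558841159846158 239 :=
  step st1021 1500 7643558841159846158 239 (by norm_num) (by norm_num) (by decide +kernel) (by decide +kernel)

theorem st2000 : St 2000 7367160870481080040 303 :=
  step st1500 2000 7367160870481080040 303 (by norm_num) (by norm_num) (by decide +kernel) (by decide +kernel)

theorem st2500 : St 2500 7159364908980209156 367 :=
  step st2000 2500 7159364908980209156 367 (by norm_num) (by norm_num) (by decide +kernel) (by decide +kernel)

theorem st3000 : St 3000 6996576068637029114 430 :=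
  step st2500 3000 6996576068637029114 430 (by norm_num) (by norm_num) (by decide +kernel) (by decide +kernel)

theorem st3500 : St 3500 6870563569347858799 489 :=
  step st3000 3500 6870563569347858799 489 (by norm_num) (by norm_num) (by decide +kernel) (by decide +kernel)

theorem st4000 : St 4000 6759049310839837554 550 :=
  step st3500 4000 6759049310839837554 550 (by norm_num) (by norm_num) (by decide +kernel) (by decide +kernel)

theorem st4500 : St 4500 6663855630805539707 610 :=
  step st4000 4500 6663855630805539707 610 (by norm_num) (by norm_num) (by decide +kernel) (by decide +kernel)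

theorem st5003 : St 5003 6580256457357026953 670 :=
  step st4500 5003 6580256457357026953 670 (by norm_num) (by norm_num) (by decide +kernel) (by decide +kernel)

theorem v71 : S_V71 := by
  refine ⟨?_, st71.2⟩
  have h := st71.1
  rw [div_le_iff₀ (by positivity)]
  norm_num at h
  norm_num
  linarith

theorem v83 : S_V83 := by
  refine ⟨?_, st83.2⟩
  have h := st83.1
  rw [div_le_iff₀ (by positivity)]
  norm_num at h
  norm_num
  linarith

theorem v97 : S_V97 := by
  refine ⟨?_, st97.2⟩
  have h := st97.1
  rw [div_le_iff₀ (by positivity)]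
  norm_num at h
  norm_num
  linarith

theorem v131 : S_V131 := by
  refine ⟨?_, st131.2⟩
  have h := st131.1
  rw [div_le_iff₀ (by positivity)]
  norm_num at h
  norm_num
  linarith

theorem v151 : S_V151 := by
  refine ⟨?_, st151.2⟩
  have h := st151.1
  rw [div_le_iff₀ (by positivity)]
  norm_num at h
  norm_num
  linarith

theorem v1021 : S_V1021 := by
  refine ⟨?_, st1021.2⟩
  have h := st1021.1
  rw [div_le_iff₀ (by positivity)]
  norm_num at h
  norm_num
  linarith

theorem v5003 : S_V5003 := by
  refine ⟨?_, st5003.2⟩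
  have h := st5003.1
  rw [div_le_iff₀ (by positivity)]
  norm_num at h
  norm_num
  linarith

theorem cv : S_CV := ⟨v71, v83, v97, v131, v151, v1021, v5003⟩


end Pool.Agent.Helper83.CY.CV
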