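import Pool.Agent.Helper83.CY.Const

/-! Chebyshev-Mertens type bounds (module CHEB). -/

namespace Pool.Agent.Helper83.CY.CHEB

open Finset Pool.Agent.Helper83.CY

/-! ### sums over primes as sums over intervals -/

lemma sum_PP (a b : ℕ) (f : ℕ → ℝ) :
    ∑ p ∈ PP a b, f p = ∑ m ∈ Ioc a b, if m.Prime then f m else 0 := by
  unfold PP
  rw [Finset.sum_filter]

/-- `∑_{p ≤ N} log p / p` -/
noncomputable def A (N : ℕ) : ℝ := ∑ p ∈ PP 0 N, Real.log p / p

lemma A_succ (n : ℕ) : A (n + 1) = A n + if (n + 1).Prime then Real.log ((n + 1 : ℕ) : ℝ) / ((n + 1 : ℕ) : ℝ) else 0 := by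
  unfold A
  rw [sum_PP, sum_PP, Finset.sum_Ioc_succ_top (Nat.zero_le n)]

lemma S1_succ {a n : ℕ} (h : a ≤ n) :
    S1 a (n + 1) = S1 a n + if (n + 1).Prime then 1 / ((n + 1 : ℕ) : ℝ) else 0 := by
  unfold S1
  rw [sum_PP, sum_PP, Finset.sum_Ioc_succ_top h]

lemma V_succ (n : ℕ) :
    V (n + 1) = V n * if (n + 1).Prime then (1 - 1 / ((n + 1 : ℕ) : ℝ)) else 1 := by
  unfold V PP
  rw [Finset.prod_filter, Finset.prod_filter, Finset.prod_Ioc_succ_top (Nat.zero_le n)]

/-! ### the upper bound for `A` -/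

lemma sum_floor (M : ℕ) : ∀ N ≤ M, ∑ p ∈ PP 0 M, ((N / p : ℕ) : ℝ) * Real.log p ≤
    Real.log (N.factorial : ℝ) := by
  intro N
  induction N with
  | zero => intro _; simp
  | succ N ih =>
    intro h
    have ih' := ih (by omega)
    have h1 : ∑ p ∈ PP 0 M, (((N + 1) / p : ℕ) : ℝ) * Real.log p =
        ∑ p ∈ PP 0 M, ((N / p : ℕ) : ℝ) * Real.log p +
        ∑ p ∈ (PP 0 M).filter (fun p => p ∣ N + 1), Real.log p := by
      rw [Finset.sum_filter, ← Finset.sum_add_distrib]
      apply Finset.sum_congr rfl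
      intro p _
      rw [Nat.succ_div]
      split_ifs <;> push_cast <;> ring
    have h2 : ∑ p ∈ (PP 0 M).filter (fun p => p ∣ N + 1), Real.log p ≤
        ∑ p ∈ (N + 1).primeFactors, Real.log (p : ℝ) := by
      apply Finset.sum_le_sum_of_subset_of_nonneg
      · intro p hp
        simp only [PP, Finset.mem_filter, Finset.mem_Ioc] at hp
        rw [Nat.mem_primeFactors]
        exact ⟨hp.1.2, hp.2, by omega⟩
      · intro p hp _
        exact Real.log_natCast_nonneg p
    have h3 : ∑ p ∈ (N + 1).primeFactors, Real.log (p : ℝ) ≤ Real.log ((N + 1 : ℕ) : ℝ) := by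
      rw [← Real.log_prod (fun p hp => by
        have := (Nat.mem_primeFactors.mp hp).1.pos
        positivity)]
      apply Real.log_le_log
      · apply Finset.prod_pos
        intro p hp
        have := (Nat.mem_primeFactors.mp hp).1.pos
        exact_mod_cast this
      · rw [← Nat.cast_prod]
        exact_mod_cast Nat.le_of_dvd (by omega) (Nat.prod_primeFactors_dvd (N + 1))
    have h4 : Real.log ((N + 1).factorial : ℝ) = Real.log ((N + 1 : ℕ) : ℝ) +
        Real.log (N.factorial : ℝ) := by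
      rw [Nat.factorial_succ, Nat.cast_mul, Real.log_mul (by positivity) (by positivity)]
    rw [h1, h4]
    linarith

lemma log_fact : ∀ N : ℕ, 1 ≤ N → Real.log (N.factorial : ℝ) ≤
    N * Real.log N - N + Real.log N + 1 := by
  intro N hN
  induction N, hN using Nat.le_induction with
  | base => simp
  | succ N hN ih =>
    have hNp : (0 : ℝ) < N := by exact_mod_cast hN
    rw [Nat.factorial_succ, Nat.cast_mul, Real.log_mul (by positivity) (by positivity)]
    have key : (1 : ℝ) ≤ (N + 1) * (Real.log ((N : ℝ) + 1) - Real.log N) := by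
      have h := Real.one_sub_inv_le_log_of_pos (x := ((N : ℝ) + 1) / N) (by positivity)
      rw [Real.log_div (by positivity) (by positivity)] at h
      have h2 : 1 - (((N : ℝ) + 1) / N)⁻¹ = 1 / (N + 1) := by
        field_simp
        ring
      rw [h2] at h
      have := mul_le_mul_of_nonneg_left h (by positivity : (0 : ℝ) ≤ (N : ℝ) + 1)
      rwa [mul_one_div_cancel (by positivity)] at this
    push_cast
    nlinarith

lemma theta_bd (N : ℕ) : ∑ p ∈ PP 0 N, Real.log (p : ℝ) ≤ Real.log 4 * N := by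
  have h := Chebyshev.theta_le_log4_mul_x (x := (N : ℝ)) (by positivity)
  unfold Chebyshev.theta at h
  rw [Nat.floor_natCast] at h
  exact h

lemma log4 : Real.log 4 < 1.3862944 := by
  have h : Real.log 4 = 2 * Real.log 2 := by
    rw [show (4 : ℝ) = 2 ^ 2 by norm_num, Real.log_pow]; norm_num
  have := Real.log_two_lt_d9
  rw [h]; linarith

lemma A_le (N : ℕ) (hN : 5003 ≤ N) : A N ≤ Real.log N + 0.4148 := by
  have hN' : (5003 : ℝ) ≤ N := by exact_mod_cast hN
  have hNp : (0 : ℝ) < N := by linarith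
  have h1 := sum_floor N N le_rfl
  have h2 := log_fact N (by omega)
  have h3 := theta_bd N
  have h4 : (N : ℝ) * A N ≤ ∑ p ∈ PP 0 N, ((N / p : ℕ) : ℝ) * Real.log p +
      ∑ p ∈ PP 0 N, Real.log (p : ℝ) := by
    unfold A
    rw [Finset.mul_sum, ← Finset.sum_add_distrib]
    apply Finset.sum_le_sum
    intro p hp
    simp only [PP, Finset.mem_filter, Finset.mem_Ioc] at hp
    have hp0 : (0 : ℝ) < p := by exact_mod_cast hp.1.1
    have hl : 0 ≤ Real.log (p : ℝ) := Real.log_natCast_nonneg p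
    have hfl : (N : ℝ) / p ≤ ((N / p : ℕ) : ℝ) + 1 := by
      rw [div_le_iff₀ hp0]
      have := Nat.lt_div_mul_add (a := N) hp.1.1
      have h5 : (N : ℝ) < ((N / p : ℕ) : ℝ) * p + p := by exact_mod_cast this
      nlinarith
    have : (N : ℝ) * (Real.log p / p) = (N / p) * Real.log p := by ring
    rw [this]
    nlinarith
  have h5 : (N : ℝ) * A N ≤ N * (Real.log N + 0.4148) := by
    have hl4 := log4
    have hsq : Real.log (N : ℝ) ≤ 2 * Real.sqrt N - 2 := by
      have h := Real.log_le_sub_one_of_pos (x := Real.sqrt N) (Real.sqrt_pos.mpr hNp)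
      rw [Real.log_sqrt hNp.le] at h
      linarith
    have hs : Real.sqrt N * 70.7 ≤ N := by
      have h1 : (70.7 : ℝ) ≤ Real.sqrt N := by
        apply Real.le_sqrt_of_sq_le
        norm_num
        linarith
      have h2 := Real.mul_self_sqrt hNp.le
      nlinarith [Real.sqrt_nonneg (N : ℝ)]
    nlinarith
  exact le_of_mul_le_mul_left h5 hNp

/-! ### partial summation -/

lemma abel {a : ℕ} (ha : 5003 ≤ a) : ∀ y : ℕ, a ≤ y →
    S1 a y ≤ A y / Real.log y - A a / Real.log a +
      0.4148 * (1 / Real.log a - 1 / Real.log y) +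
      (Real.log (Real.log y) - Real.log (Real.log a)) := by
  intro y hy
  induction y, hy using Nat.le_induction with
  | base => simp [S1, PP]
  | succ y hy ih =>
    have hy' : (5003 : ℝ) ≤ y := by exact_mod_cast (le_trans ha hy)
    have hl1 : 1 < Real.log (y : ℝ) := by
      rw [Real.lt_log_iff_exp_lt (by linarith)]
      have := Real.exp_one_lt_d9
      linarith
    have hl2 : Real.log (y : ℝ) < Real.log ((y + 1 : ℕ) : ℝ) := by
      apply Real.log_lt_log (by linarith)
      push_cast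
      linarith
    set L := Real.log (y : ℝ) with hL
    set L' := Real.log ((y + 1 : ℕ) : ℝ) with hL'
    have hA := A_le y (le_trans ha hy)
    rw [S1_succ hy, A_succ]
    have e1 : (if (y + 1).Prime then 1 / ((y + 1 : ℕ) : ℝ) else 0) =
        (if (y + 1).Prime then L' / ((y + 1 : ℕ) : ℝ) else 0) / L' := by
      split_ifs
      · have : L' ≠ 0 := by linarith
        field_simp
      · simp
    rw [e1, add_div]
    have e2 : A y * (1 / L - 1 / L') ≤ 0.4148 * (1 / L - 1 / L') + (Real.log L' - Real.log L) := by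
      have hpos : 0 ≤ 1 / L - 1 / L' := by
        have := one_div_le_one_div_of_le (by linarith : (0 : ℝ) < L) hl2.le
        linarith
      have h1 : A y * (1 / L - 1 / L') ≤ (L + 0.4148) * (1 / L - 1 / L') :=
        mul_le_mul_of_nonneg_right hA hpos
      have h2 : L * (1 / L - 1 / L') = 1 - (L' / L)⁻¹ := by
        have : L' ≠ 0 := by linarith
        have : L ≠ 0 := by linarith
        field_simp
      have h3 := Real.one_sub_inv_le_log_of_pos (x := L' / L) (by apply div_pos <;> linarith)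
      rw [Real.log_div (by linarith) (by linarith)] at h3
      nlinarith
    have e3 : A y * (1 / L - 1 / L') = A y / L - A y / L' := by ring
    rw [e3] at e2
    have e4 : 0.4148 * (1 / Real.log (a : ℝ) - 1 / L') =
        0.4148 * (1 / Real.log (a : ℝ) - 1 / L) + 0.4148 * (1 / L - 1 / L') := by ring
    rw [e4]
    linarith

/-! ### the numerical constant `A 5003` -/

/-- trial division -/
def chk (p : ℕ) : Bool := Nat.ble 2 p && (List.range 71).all
  (fun d => Nat.ble d 1 || !(Nat.beq (p % d) 0) || Nat.beq d p)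

lemma chk_prime {p : ℕ} (hp : p < 5041) (h : chk p = true) : p.Prime := by
  unfold chk at h
  rw [Bool.and_eq_true, List.all_eq_true] at h
  obtain ⟨h1, h2⟩ := h
  have h1' : 2 ≤ p := Nat.le_of_ble_eq_true h1
  rw [Nat.prime_def_minFac]
  refine ⟨h1', ?_⟩
  by_contra hne
  have hsq := Nat.minFac_sq_le_self (n := p) (by omega) (by
    intro hpr
    exact hne ((Nat.prime_def_minFac.mp hpr).2))
  have hlt : p.minFac < 71 := by nlinarith
  have h3 := h2 p.minFac (List.mem_range.mpr hlt)
  have hm2 : 2 ≤ p.minFac := (Nat.minFac_prime (by omega)).two_le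
  have hd : p % p.minFac = 0 := Nat.mod_eq_zero_of_dvd (Nat.minFac_dvd p)
  rw [hd] at h3
  simp only [Bool.or_eq_true] at h3
  rcases h3 with (h3 | h3) | h3
  · have := Nat.le_of_ble_eq_true h3
    omega
  · simp at h3
  · exact hne (Nat.eq_of_beq_eq_true h3)

/-- a lower bound for `16 * 10 ^ 6 * log_2 n / n` -/
def term (n : ℕ) : ℕ := bif Nat.ble n 5003 && chk n then (1000000 * Nat.log2 (n ^ 16)) / n else 0

/-- sum of `term` over `lo, ..., lo + 2 ^ k - 1` -/
def sb : ℕ → ℕ → ℕ
  | 0, lo => term lo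
  | k + 1, lo => sb k lo + sb k (lo + 2 ^ k)

lemma sb_eq : ∀ k lo : ℕ, sb k lo = ∑ i ∈ range (2 ^ k), term (lo + i) := by
  intro k
  induction k with
  | zero => intro lo; simp [sb]
  | succ k ih =>
    intro lo
    rw [sb, ih, ih, pow_succ, mul_two, Finset.sum_range_add]
    congr 1
    apply Finset.sum_congr rfl
    intro i _
    rw [add_assoc]

lemma sb_val : sb 13 0 = 165366637 := by decide +kernel

lemma term_le (n : ℕ) : (term n : ℝ) * Real.log 2 ≤
    (if n ∈ PP 0 5003 then Real.log n / n else 0) * (16 * 10 ^ 6) := by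
  unfold term
  by_cases h : (Nat.ble n 5003 && chk n) = true
  · rw [h, cond_true]
    rw [Bool.and_eq_true] at h
    have hn : n ≤ 5003 := Nat.le_of_ble_eq_true h.1
    have hp := chk_prime (by omega) h.2
    have hmem : n ∈ PP 0 5003 := by
      simp only [PP, Finset.mem_filter, Finset.mem_Ioc]
      exact ⟨⟨hp.pos, hn⟩, hp⟩
    rw [if_pos hmem]
    have hn0 : (0 : ℝ) < n := by exact_mod_cast hp.pos
    have h1 : (((1000000 * Nat.log2 (n ^ 16)) / n : ℕ) : ℝ) ≤ (1000000 * Nat.log2 (n ^ 16) : ℕ) / n :=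
      Nat.cast_div_le
    have h2 : (2 : ℝ) ^ (Nat.log2 (n ^ 16)) ≤ (n : ℝ) ^ 16 := by
      have : 2 ^ (Nat.log2 (n ^ 16)) ≤ n ^ 16 := Nat.log2_self_le (by
        have := hp.pos
        positivity)
      exact_mod_cast this
    have h3 : (Nat.log2 (n ^ 16) : ℝ) * Real.log 2 ≤ 16 * Real.log n := by
      have := Real.log_le_log (by positivity) h2
      rw [Real.log_pow, Real.log_pow] at this
      exact_mod_cast this
    have hl2 : 0 < Real.log 2 := Real.log_pos (by norm_num)
    calc (((1000000 * Nat.log2 (n ^ 16)) / n : ℕ) : ℝ) * Real.log 2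
        ≤ ((1000000 * Nat.log2 (n ^ 16) : ℕ) / n) * Real.log 2 :=
          mul_le_mul_of_nonneg_right h1 hl2.le
      _ = 1000000 * (Nat.log2 (n ^ 16) * Real.log 2) / n := by push_cast; ring
      _ ≤ 1000000 * (16 * Real.log n) / n := by gcongr
      _ = Real.log n / n * (16 * 10 ^ 6) := by ring
  · rw [Bool.not_eq_true] at h
    rw [h, cond_false]
    simp only [Nat.cast_zero, zero_mul]
    split_ifs
    · have : 0 ≤ Real.log (n : ℝ) := Real.log_natCast_nonneg n
      positivity
    · simp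

lemma sum_ite_PP (M N : ℕ) (h : N < M) (f : ℕ → ℝ) :
    ∑ i ∈ range M, (if i ∈ PP 0 N then f i else 0) = ∑ i ∈ PP 0 N, f i := by
  rw [← Finset.sum_filter]
  apply Finset.sum_congr _ (fun _ _ => rfl)
  ext i
  simp only [Finset.mem_filter, Finset.mem_range, and_iff_right_iff_imp]
  intro hi
  simp only [PP, Finset.mem_filter, Finset.mem_Ioc] at hi
  have h5 := hi.1.2
  omega

lemma A_ge : 7.1639 ≤ A 5003 := by
  have h1 := sb_eq 13 0
  rw [sb_val] at h1
  have h0 : (5003 : ℕ) < 2 ^ 13 := by norm_num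
  have hA := sum_ite_PP (2 ^ 13) 5003 h0 (fun i => Real.log i / i)
  have h2 : ((165366637 : ℕ) : ℝ) * Real.log 2 ≤ A 5003 * (16 * 10 ^ 6) := by
    unfold A
    rw [← hA, h1, Finset.sum_mul, Nat.cast_sum, Finset.sum_mul]
    apply Finset.sum_le_sum
    intro i _
    rw [zero_add]
    exact term_le i
  have h3 := Real.log_two_gt_d9
  push_cast at h2
  norm_num at h2 ⊢
  linarith

lemma log5003_le : Real.log 5003 ≤ 8.51802 := by
  have h : Real.log ((5003 : ℝ) ^ 45) ≤ Real.log ((2 ^ 79) ^ 7) := by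
    apply Real.log_le_log (by positivity)
    norm_num
  rw [Real.log_pow, Real.log_pow, Real.log_pow] at h
  have := Real.log_two_lt_d9
  norm_num at h ⊢
  linarith

lemma log5003_ge : 8.5177 ≤ Real.log 5003 := by
  have h : Real.log (((2 : ℝ) ^ 71) ^ 9) ≤ Real.log (5003 ^ 52) := by
    apply Real.log_le_log (by positivity)
    norm_num
  rw [Real.log_pow, Real.log_pow, Real.log_pow] at h
  have := Real.log_two_gt_d9
  norm_num at h ⊢
  linarith

/-! ### the product -/

lemma V_ge (hV : S_V5003) : ∀ y : ℕ, 5003 ≤ y →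
    658025 / 10 ^ 7 * Real.exp (- S1 5003 y - (1 / 5003 - 1 / (y : ℝ))) ≤ V y := by
  intro y hy
  induction y, hy using Nat.le_induction with
  | base =>
    have h : S1 5003 5003 = 0 := by simp [S1, PP]
    rw [h]
    have := hV.1
    norm_num at this ⊢
    exact this
  | succ y hy ih =>
    have hy' : (5003 : ℝ) ≤ y := by exact_mod_cast hy
    rw [S1_succ hy, V_succ]
    have htel : 1 / ((y + 1 : ℕ) : ℝ) + (1 / (y : ℝ) - 1 / ((y + 1 : ℕ) : ℝ)) = 1 / (y : ℝ) := by ring
    by_cases hp : (y + 1).Prime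
    · rw [if_pos hp, if_pos hp]
      have h1 : Real.exp (- (1 / (y : ℝ))) ≤ 1 - 1 / ((y + 1 : ℕ) : ℝ) := by
        have hx : (0 : ℝ) < 1 - 1 / ((y + 1 : ℕ) : ℝ) := by
          push_cast
          rw [sub_pos, div_lt_one (by positivity)]
          linarith
        rw [← Real.le_log_iff_exp_le hx]
        have h := Real.one_sub_inv_le_log_of_pos hx
        have e : 1 - (1 - 1 / ((y + 1 : ℕ) : ℝ))⁻¹ = - (1 / (y : ℝ)) := by
          push_cast
          have : (y : ℝ) ≠ 0 := by linarith
          have h2 : 1 - 1 / ((y : ℝ) + 1) = y / (y + 1) := by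
            field_simp
            ring
          rw [h2, inv_div]
          field_simp
          ring
        rw [e] at h
        exact h
      have h2 : Real.exp (-(S1 5003 y + 1 / ((y + 1 : ℕ) : ℝ)) - (1 / 5003 - 1 / ((y + 1 : ℕ) : ℝ))) =
          Real.exp (- S1 5003 y - (1 / 5003 - 1 / (y : ℝ))) * Real.exp (- (1 / (y : ℝ))) := by
        rw [← Real.exp_add]
        congr 1
        ring
      rw [h2, ← mul_assoc]
      apply mul_le_mul ih h1 (Real.exp_pos _).le
      exact le_trans (by positivity) ih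
    · rw [if_neg hp, if_neg hp, mul_one, add_zero]
      refine le_trans ?_ ih
      apply mul_le_mul_of_nonneg_left _ (by norm_num)
      apply Real.exp_le_exp.mpr
      have := one_div_le_one_div_of_le (by linarith : (0 : ℝ) < y)
        (by push_cast; linarith : (y : ℝ) ≤ ((y + 1 : ℕ) : ℝ))
      linarith

lemma V_bd (hV : S_V5003) (y : ℕ) (hy : 5003 ≤ y) : 0.45 / Real.log y ≤ V y := by
  have hy' : (5003 : ℝ) ≤ y := by exact_mod_cast hy
  have h1 := abel (le_refl 5003) y hy
  have h2 := A_le y hy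
  have h3 := A_ge
  have h4 := log5003_le
  have h5 := log5003_ge
  have h6 : Real.log 5003 ≤ Real.log y := Real.log_le_log (by norm_num) hy'
  push_cast at h1
  set L := Real.log (y : ℝ) with hL
  set a := Real.log (5003 : ℝ) with ha
  have ha0 : 0 < a := by linarith
  have hL0 : 0 < L := by linarith
  have h7 : S1 5003 y ≤ 0.2078 + (Real.log L - Real.log a) := by
    have e1 : A y / L ≤ 1 + 0.4148 * (1 / L) := by
      rw [div_le_iff₀ hL0]
      have : (1 + 0.4148 * (1 / L)) * L = L + 0.4148 := by field_simp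
      rw [this]; exact h2
    have e2 : 7.1639 * (1 / a) ≤ A 5003 / a := by
      rw [mul_one_div]
      exact div_le_div_of_nonneg_right h3 ha0.le
    have e3 : (0.1173 : ℝ) ≤ 1 / a := by
      rw [le_div_iff₀ ha0]
      linarith
    have e4 : 1 / 8.51802 ≤ 1 / a := one_div_le_one_div_of_le ha0 h4
    have e5 : 6.7491 * (1 / 8.51802) ≤ 6.7491 * (1 / a) :=
      mul_le_mul_of_nonneg_left e4 (by norm_num)
    have e6 : (0.7922 : ℝ) ≤ 6.7491 * (1 / 8.51802) := by norm_num
    have e7 : 0.4148 * (1 / a - 1 / L) = 0.4148 * (1 / a) - 0.4148 * (1 / L) := by ring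
    rw [e7] at h1
    have e8 : 6.7491 * (1 / a) = 7.1639 * (1 / a) - 0.4148 * (1 / a) := by ring
    rw [e8] at e5
    linarith
  have h8 : Real.exp (-0.2081) * (a / L) ≤ Real.exp (- S1 5003 y - (1 / 5003 - 1 / (y : ℝ))) := by
    have e : a / L = Real.exp (Real.log a - Real.log L) := by
      rw [Real.exp_sub, Real.exp_log ha0, Real.exp_log hL0]
    rw [e, ← Real.exp_add]
    apply Real.exp_le_exp.mpr
    have h10 : (0 : ℝ) ≤ 1 / (y : ℝ) := by positivity
    have h11 : (1 : ℝ) / 5003 ≤ 0.0003 := by norm_num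
    linarith
  have h9 : (0.809 : ℝ) ≤ Real.exp (-0.2081) := by
    have e1 : Real.exp (-0.2081) = (Real.exp (-0.2081 / 8)) ^ 8 := by
      rw [← Real.exp_nat_mul]
      congr 1
      norm_num
    have e2 := Real.add_one_le_exp (-0.2081 / 8 : ℝ)
    rw [e1]
    calc (0.809 : ℝ) ≤ (-0.2081 / 8 + 1) ^ 8 := by norm_num
      _ ≤ _ := pow_le_pow_left₀ (by norm_num) e2 8
  refine le_trans ?_ (V_ge hV y hy)
  refine le_trans ?_ (mul_le_mul_of_nonneg_left h8 (by norm_num))
  rw [div_le_iff₀ hL0]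
  have e : 658025 / 10 ^ 7 * (Real.exp (-0.2081) * (a / L)) * L =
      658025 / 10 ^ 7 * (Real.exp (-0.2081) * a) := by
    field_simp
  rw [e]
  have : 0.809 * 8.5177 ≤ Real.exp (-0.2081) * a :=
    mul_le_mul h9 h5 (by norm_num) (Real.exp_pos _).le
  norm_num at this ⊢
  linarith

/-! ### the sum of `1 / p ^ 2` -/

lemma S2_add {a b c : ℕ} (h1 : a ≤ b) (h2 : b ≤ c) : S2 a c = S2 a b + S2 b c := by
  unfold S2
  rw [sum_PP, sum_PP, sum_PP, Finset.sum_Ioc_consecutive _ h1 h2]

lemma S2_mono {a b c : ℕ} (h2 : b ≤ c) : S2 a b ≤ S2 a c := by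
  unfold S2
  apply Finset.sum_le_sum_of_subset_of_nonneg
  · intro p hp
    simp only [PP, Finset.mem_filter, Finset.mem_Ioc] at hp ⊢
    exact ⟨⟨hp.1.1, by omega⟩, hp.2⟩
  · intro p _ _
    positivity

lemma theta_dyadic (x : ℕ) : ∑ p ∈ PP x (2 * x), Real.log (p : ℝ) ≤ x * Real.log 4 := by
  have h1 : (∏ p ∈ PP x (2 * x), p) ∣ Nat.choose (x + x) x := by
    apply Finset.prod_primes_dvd
    · intro p hp
      simp only [PP, Finset.mem_filter] at hp
      exact hp.2.prime
    · intro p hp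
      simp only [PP, Finset.mem_filter, Finset.mem_Ioc] at hp
      exact hp.2.dvd_choose_add (by omega) (by omega) (by omega)
  have h2 : Nat.choose (x + x) x ≤ 2 ^ (x + x) := Nat.choose_le_two_pow _ _
  have h3 : (∏ p ∈ PP x (2 * x), p) ≤ 2 ^ (x + x) :=
    le_trans (Nat.le_of_dvd (Nat.choose_pos (by omega)) h1) h2
  have h4 : (∏ p ∈ PP x (2 * x), (p : ℝ)) ≤ (4 : ℝ) ^ x := by
    rw [← Nat.cast_prod]
    have : ((4 : ℝ)) ^ x = ((2 ^ (x + x) : ℕ) : ℝ) := by
      push_cast
      rw [← two_mul, pow_mul]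
      norm_num
    rw [this]
    exact_mod_cast h3
  rw [← Real.log_prod (fun p hp => by
    simp only [PP, Finset.mem_filter, Finset.mem_Ioc] at hp
    have := hp.2.pos
    positivity), ← Real.log_pow]
  apply Real.log_le_log _ h4
  apply Finset.prod_pos
  intro p hp
  simp only [PP, Finset.mem_filter, Finset.mem_Ioc] at hp
  exact_mod_cast hp.2.pos

lemma S2_dyadic (x : ℕ) (hx : 2 ≤ x) : S2 x (2 * x) ≤ Real.log 4 / (x * Real.log x) := by
  have hx' : (2 : ℝ) ≤ x := by exact_mod_cast hx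
  have hl : 0 < Real.log (x : ℝ) := Real.log_pos (by linarith)
  have h := theta_dyadic x
  have h1 : S2 x (2 * x) * ((x : ℝ) ^ 2 * Real.log x) ≤ ∑ p ∈ PP x (2 * x), Real.log (p : ℝ) := by
    unfold S2
    rw [Finset.sum_mul]
    apply Finset.sum_le_sum
    intro p hp
    simp only [PP, Finset.mem_filter, Finset.mem_Ioc] at hp
    have hp1 : (x : ℝ) ≤ p := by exact_mod_cast hp.1.1.le
    have e1 : Real.log (x : ℝ) ≤ Real.log p := Real.log_le_log (by linarith) hp1
    have hp0 : (0 : ℝ) < p := by linarith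
    have e2 : 1 / (p : ℝ) ^ 2 * (x : ℝ) ^ 2 ≤ 1 := by
      rw [one_div_mul_eq_div, div_le_one (by positivity)]
      exact pow_le_pow_left₀ (by linarith) hp1 2
    calc 1 / (p : ℝ) ^ 2 * ((x : ℝ) ^ 2 * Real.log x)
        = (1 / (p : ℝ) ^ 2 * (x : ℝ) ^ 2) * Real.log x := by ring
      _ ≤ 1 * Real.log x := mul_le_mul_of_nonneg_right e2 hl.le
      _ ≤ Real.log p := by linarith
  have hx0 : (0 : ℝ) < x := by linarith
  rw [le_div_iff₀ (mul_pos hx0 hl)]
  have h2 : S2 x (2 * x) * (x * Real.log x) * x ≤ Real.log 4 * x := by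
    nlinarith
  exact le_of_mul_le_mul_right h2 (by linarith)

lemma S2_pow (y : ℕ) (hy : 2 ≤ y) (k : ℕ) :
    S2 y (2 ^ k * y) ≤ Real.log 4 / (y * Real.log y) * (2 * (1 - 1 / 2 ^ k)) := by
  have hy' : (2 : ℝ) ≤ y := by exact_mod_cast hy
  have hl : 0 < Real.log (y : ℝ) := Real.log_pos (by linarith)
  induction k with
  | zero => simp [S2, PP]
  | succ k ih =>
    have hk1 : 1 ≤ 2 ^ k := Nat.one_le_two_pow
    have h1 : y ≤ 2 ^ k * y := Nat.le_mul_of_pos_left y (by omega)
    have h2 : 2 ^ (k + 1) * y = 2 * (2 ^ k * y) := by ring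
    rw [h2, S2_add h1 (by omega)]
    have h3 := S2_dyadic (2 ^ k * y) (by omega)
    have hc : ((2 ^ k * y : ℕ) : ℝ) = 2 ^ k * y := by push_cast; ring
    rw [hc] at h3
    have hl4 : 0 < Real.log 4 := Real.log_pos (by norm_num)
    have h4 : Real.log 4 / (2 ^ k * y * Real.log (2 ^ k * y)) ≤
        Real.log 4 / (y * Real.log y) * (1 / 2 ^ k) := by
      rw [div_mul_div_comm, mul_one]
      apply div_le_div_of_nonneg_left hl4.le (mul_pos (mul_pos (by linarith) hl) (by positivity))
      have h5 : Real.log (y : ℝ) ≤ Real.log (2 ^ k * y) := by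
        apply Real.log_le_log (by linarith)
        have : (1 : ℝ) ≤ 2 ^ k := one_le_pow₀ (by norm_num)
        nlinarith
      have h6 : (0 : ℝ) < 2 ^ k * y := by positivity
      calc (y : ℝ) * Real.log y * 2 ^ k = (2 ^ k * y) * Real.log y := by ring
        _ ≤ (2 ^ k * y) * Real.log (2 ^ k * y) := mul_le_mul_of_nonneg_left h5 h6.le
    have h7 : Real.log 4 / (y * Real.log y) * (2 * (1 - 1 / 2 ^ (k + 1))) =
        Real.log 4 / (y * Real.log y) * (2 * (1 - 1 / 2 ^ k)) +
        Real.log 4 / (y * Real.log y) * (1 / 2 ^ k) := by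
      have : (2 : ℝ) ^ (k + 1) = 2 * 2 ^ k := by ring
      rw [this]
      have h2k : (2 : ℝ) ^ k ≠ 0 := by positivity
      have hyl : (y : ℝ) * Real.log y ≠ 0 := by positivity
      field_simp
      ring
    rw [h7]
    linarith

lemma S2_bd (y Z : ℕ) (hy : 5003 ≤ y) : S2 y Z ≤ 2.8 / ((y : ℝ) * Real.log y) := by
  have hy' : (5003 : ℝ) ≤ y := by exact_mod_cast hy
  have hl : 0 < Real.log (y : ℝ) := Real.log_pos (by linarith)
  have hZ : Z ≤ 2 ^ Z * y := by
    have h1 : Z < 2 ^ Z := Nat.lt_two_pow_self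
    have h2 : 2 ^ Z ≤ 2 ^ Z * y := Nat.le_mul_of_pos_right _ (by omega)
    omega
  refine le_trans (S2_mono hZ) (le_trans (S2_pow y (by omega) Z) ?_)
  rw [div_mul_eq_mul_div]
  apply div_le_div_of_nonneg_right _ (by positivity)
  have h4 := log4
  have hl4 : 0 < Real.log 4 := Real.log_pos (by norm_num)
  have h5 : (0 : ℝ) ≤ 1 / 2 ^ Z := by positivity
  have h6 : Real.log 4 * (2 * (1 - 1 / 2 ^ Z)) ≤ Real.log 4 * 2 :=
    mul_le_mul_of_nonneg_left (by linarith) hl4.le
  linarith

/-- Chebyshev-Mertens type bounds. -/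
theorem cheb (hV : S_V5003) : S_CHEB :=
  ⟨fun y hy => V_bd hV y hy, fun y Z hy => S2_bd y Z hy⟩

end Pool.Agent.Helper83.CY.CHEB
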