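import Pool.Agent.Helper83.CY.TailDefs

namespace Pool.Agent.Helper83.CY.E0b

open Pool.Agent.Helper83.CY

theorem e0 : S_E0 := by
  classical
  intro c y hc hy
  have hex : ∃ e : ℕ, (c + 1) ^ 4 ≤ (y + 1) ^ (e + 1) := by
    obtain ⟨e, he⟩ := pow_unbounded_of_one_lt ((c + 1) ^ 4) (show 1 < y + 1 by omega)
    exact ⟨e, he.le.trans (Nat.pow_le_pow_right (by omega) (by omega))⟩
  refine ⟨Nat.find hex, Nat.find_spec hex, ?_⟩
  set e := Nat.find hex with he
  have hlow : (y + 1) ^ e ≤ (c + 1) ^ 4 := by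
    rcases Nat.eq_zero_or_pos e with h | h
    · rw [h]; simpa using Nat.one_le_pow 4 (c + 1) (by omega)
    · have h1 : e - 1 < Nat.find hex := by omega
      have h2 := Nat.find_min hex h1
      have h3 : e - 1 + 1 = e := by omega
      rw [h3] at h2
      omega
  have h4 : (2 ^ e) ^ 7 ≤ (c + 1) ^ 4 := by
    calc (2 ^ e) ^ 7 = (2 ^ 7) ^ e := by rw [← pow_mul, ← pow_mul, Nat.mul_comm]
      _ ≤ (y + 1) ^ e := Nat.pow_le_pow_left (by norm_num; omega) e
      _ ≤ _ := hlow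
  exact_mod_cast h4

theorem cube : S_CUBE := by
  intro n hn
  have h0 : ∃ c : ℕ, n < (c + 1) ^ 3 := ⟨n, by nlinarith [Nat.zero_le n, Nat.zero_le (n ^ 2)]⟩
  classical
  refine ⟨Nat.find h0, ?_, ?_, Nat.find_spec h0⟩
  · by_contra h
    have h1 : Nat.find h0 + 1 ≤ 46415 := by omega
    have h2 := Nat.find_spec h0
    have h3 : (Nat.find h0 + 1) ^ 3 ≤ 46415 ^ 3 := Nat.pow_le_pow_left h1 3
    norm_num at h3 hn
    omega
  · rcases Nat.eq_zero_or_pos (Nat.find h0) with h | h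
    · rw [h]; simp
    · have h1 : Nat.find h0 - 1 < Nat.find h0 := by omega
      have h2 := Nat.find_min h0 h1
      have h3 : Nat.find h0 - 1 + 1 = Nat.find h0 := by omega
      rw [h3] at h2
      omega

end Pool.Agent.Helper83.CY.E0b
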