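import Pool.Agent.Helper83.CY.FINC

/-! Cyclic numbers between consecutive squares: the range `10 ^ 8 .. 10 ^ 9`. -/

namespace Pool.Agent.Helper83.CY.FINA

open Pool.Agent.Helper83.CY Pool.Agent.Helper83.CY.FINC

set_option maxHeartbeats 4000000 in
theorem r1 (hAC : S_AC) (hNT : S_NT) (hV : S_V71) (hP : S_P71_3000) (hD : S_D256) (n : ℕ)
    (h1 : 100000000 ≤ n) (h2 : n ≤ 150000000) : 2 ≤ (CycI n).card := by
  obtain ⟨v1, v2⟩ := hV
  obtain ⟨p1, p2, p3⟩ := hP
  obtain ⟨c1, c2⟩ := hD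
  have c3 : D0 (16 ^ 2) ≤ (1065 : ℝ) := by
    have e : (16 : ℕ) ^ 2 = 256 := by norm_num
    rw [e]
    unfold D0
    rw [c1]
    norm_num
  have c4 : D1 (16 ^ 2) ≤ (1137 / 10 : ℝ) := by
    have e : (16 : ℕ) ^ 2 = 256 := by norm_num
    rw [e]
    exact c2.trans (by norm_num)
  have x1 := exp_ge (a := 95) (b := 8) (X := (150000001 : ℝ) / 1136) (by norm_num) (by norm_num)
  have x2 := exp_ge (a := 127) (b := 8) (X := (150000003 : ℝ) / 20) (by norm_num) (by norm_num)
  have x3 := exp_ge (a := 92) (b := 8) (X := (22500000300000001 : ℝ) / 243049000000) (by norm_num) (by norm_num)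
  push_cast at x1 x2 x3
  refine core hAC hNT (n := n) (nlo := 100000000) (nhi := 150000000) (y := 71) (p0 := 3000) (P1 := 3420)
    (P2 := 29000) (P3 := 246000) (P4 := 493000) (e0 := 5) (e1 := 4) (e2 := 3) (e3 := 2) (q := 16)
    (Z := 345000) (r := 1) (lam := 95 / 8) (th := 1 / 20) (kap := 14143 / 10 ^ 8)
    (LA := 127 / 8) (L4 := 92 / 8)
    h1 h2 (by norm_num) v1 v2 p1 p2 p3 c3 c4 (by norm_num) (by norm_num) (by norm_num)
    (by norm_num) (by norm_num) (by norm_num) (by norm_num) (by norm_num)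
    (by norm_num) (by norm_num) (by norm_num) (by norm_num)
    (by norm_num) (by norm_num) (by norm_num) ?_ (by norm_num) (by norm_num) (by norm_num)
    ?_ ?_ (by norm_num) (by norm_num) (by norm_num) rfl _ _ rfl rfl ?_ ?_
  · refine le_trans (le_of_eq ?_) (mul_le_mul_of_nonneg_left x1 (by norm_num))
    norm_num
  · refine le_trans (le_of_eq ?_) x2
    norm_num
  · refine le_trans (le_of_eq ?_) x3
    norm_num
  · norm_num [sg, nn]
  · norm_num [sg, nn]

set_option maxHeartbeats 4000000 in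
theorem r2 (hAC : S_AC) (hNT : S_NT) (hV : S_V71) (hP : S_P71_4000) (hD : S_D256) (n : ℕ)
    (h1 : 150000000 ≤ n) (h2 : n ≤ 300000000) : 2 ≤ (CycI n).card := by
  obtain ⟨v1, v2⟩ := hV
  obtain ⟨p1, p2, p3⟩ := hP
  obtain ⟨c1, c2⟩ := hD
  have c3 : D0 (16 ^ 2) ≤ (1065 : ℝ) := by
    have e : (16 : ℕ) ^ 2 = 256 := by norm_num
    rw [e]
    unfold D0
    rw [c1]
    norm_num
  have c4 : D1 (16 ^ 2) ≤ (1137 / 10 : ℝ) := by
    have e : (16 : ℕ) ^ 2 = 256 := by norm_num
    rw [e]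
    exact c2.trans (by norm_num)
  have x1 := exp_ge (a := 100) (b := 8) (X := (300000001 : ℝ) / 1136) (by norm_num) (by norm_num)
  have x2 := exp_ge (a := 133) (b := 8) (X := (300000003 : ℝ) / 20) (by norm_num) (by norm_num)
  have x3 := exp_ge (a := 97) (b := 8) (X := (90000000600000001 : ℝ) / 505521000000) (by norm_num) (by norm_num)
  push_cast at x1 x2 x3
  refine core hAC hNT (n := n) (nlo := 150000000) (nhi := 300000000) (y := 71) (p0 := 4000) (P1 := 6830)
    (P2 := 57900) (P3 := 492000) (P4 := 711000) (e0 := 5) (e1 := 4) (e2 := 3) (e3 := 2) (q := 16)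
    (Z := 497000) (r := 1) (lam := 100 / 8) (th := 1 / 20) (kap := 11548 / 10 ^ 8)
    (LA := 133 / 8) (L4 := 97 / 8)
    h1 h2 (by norm_num) v1 v2 p1 p2 p3 c3 c4 (by norm_num) (by norm_num) (by norm_num)
    (by norm_num) (by norm_num) (by norm_num) (by norm_num) (by norm_num)
    (by norm_num) (by norm_num) (by norm_num) (by norm_num)
    (by norm_num) (by norm_num) (by norm_num) ?_ (by norm_num) (by norm_num) (by norm_num)
    ?_ ?_ (by norm_num) (by norm_num) (by norm_num) rfl _ _ rfl rfl ?_ ?_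
  · refine le_trans (le_of_eq ?_) (mul_le_mul_of_nonneg_left x1 (by norm_num))
    norm_num
  · refine le_trans (le_of_eq ?_) x2
    norm_num
  · refine le_trans (le_of_eq ?_) x3
    norm_num
  · norm_num [sg, nn]
  · norm_num [sg, nn]

set_option maxHeartbeats 4000000 in
theorem r3 (hAC : S_AC) (hNT : S_NT) (hV : S_V71) (hP : S_P71_6000) (hD : S_D400) (n : ℕ)
    (h1 : 300000000 ≤ n) (h2 : n ≤ 1000000000) : 2 ≤ (CycI n).card := by
  obtain ⟨v1, v2⟩ := hV
  obtain ⟨p1, p2, p3⟩ := hP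
  obtain ⟨c1, c2⟩ := hD
  have c3 : D0 (20 ^ 2) ≤ (1771 : ℝ) := by
    have e : (20 : ℕ) ^ 2 = 400 := by norm_num
    rw [e]
    unfold D0
    rw [c1]
    norm_num
  have c4 : D1 (20 ^ 2) ≤ (1529 / 10 : ℝ) := by
    have e : (20 : ℕ) ^ 2 = 400 := by norm_num
    rw [e]
    exact c2.trans (by norm_num)
  have x1 := exp_ge (a := 108) (b := 8) (X := (1000000001 : ℝ) / 1420) (by norm_num) (by norm_num)
  have x2 := exp_ge (a := 142) (b := 8) (X := (1000000003 : ℝ) / 20) (by norm_num) (by norm_num)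
  have x3 := exp_ge (a := 111) (b := 8) (X := (1000000002000000001 : ℝ) / 1000000000000) (by norm_num) (by norm_num)
  push_cast at x1 x2 x3
  refine core hAC hNT (n := n) (nlo := 300000000) (nhi := 1000000000) (y := 71) (p0 := 6000) (P1 := 22800)
    (P2 := 193000) (P3 := 193000) (P4 := 1000000) (e0 := 5) (e1 := 4) (e2 := 3) (e3 := 3) (q := 20)
    (Z := 937000) (r := 1) (lam := 108 / 8) (th := 1 / 20) (kap := 81650 / 10 ^ 9)
    (LA := 142 / 8) (L4 := 111 / 8)
    h1 h2 (by norm_num) v1 v2 p1 p2 p3 c3 c4 (by norm_num) (by norm_num) (by norm_num)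
    (by norm_num) (by norm_num) (by norm_num) (by norm_num) (by norm_num)
    (by norm_num) (by norm_num) (by norm_num) (by norm_num)
    (by norm_num) (by norm_num) (by norm_num) ?_ (by norm_num) (by norm_num) (by norm_num)
    ?_ ?_ (by norm_num) (by norm_num) (by norm_num) rfl _ _ rfl rfl ?_ ?_
  · refine le_trans (le_of_eq ?_) (mul_le_mul_of_nonneg_left x1 (by norm_num))
    norm_num
  · refine le_trans (le_of_eq ?_) x2
    norm_num
  · refine le_trans (le_of_eq ?_) x3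
    norm_num
  · norm_num [sg, nn]
  · norm_num [sg, nn]

theorem finA (hAC : S_AC) (hNT : S_NT) (hCV : S_CV) (hCP : S_CP) (hCD : S_CD) (n : ℕ)
    (h1 : 10 ^ 8 ≤ n) (h2 : n ≤ 10 ^ 9) : 2 ≤ (CycI n).card := by
  obtain ⟨v71, v83, v97, v131, v151, v1021, v5003⟩ := hCV
  obtain ⟨a1, a2, a3, a4, a5, a6, a7, a8, a9⟩ := hCP
  obtain ⟨d1, d2, d3, d4, d5⟩ := hCD
  norm_num at h1 h2
  rcases le_or_gt n 150000000 with g1 | g1
  · exact r1 hAC hNT v71 a1 d1 n h1 g1
  rcases le_or_gt n 300000000 with g2 | g2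
  · exact r2 hAC hNT v71 a2 d1 n g1.le g2
  exact r3 hAC hNT v71 a3 d2 n g2.le h2

end Pool.Agent.Helper83.CY.FINA
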