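import Pool.Agent.Helper83.CY.FINC

/-! Cyclic numbers between consecutive squares: the range `10 ^ 9 .. 10 ^ 14`. -/

namespace Pool.Agent.Helper83.CY.FINB

open Pool.Agent.Helper83.CY Pool.Agent.Helper83.CY.FINC

set_option maxHeartbeats 4000000 in
theorem r4 (hAC : S_AC) (hNT : S_NT) (hV : S_V83) (hP : S_P83_16000) (hD : S_D576) (n : ℕ)
    (h1 : 1000000000 ≤ n) (h2 : n ≤ 10000000000) : 2 ≤ (CycI n).card := by
  obtain ⟨v1, v2⟩ := hV
  obtain ⟨p1, p2, p3⟩ := hP
  obtain ⟨c1, c2⟩ := hD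
  have c3 : D0 (24 ^ 2) ≤ (2685 : ℝ) := by
    have e : (24 : ℕ) ^ 2 = 576 := by norm_num
    rw [e]
    unfold D0
    rw [c1]
    norm_num
  have c4 : D1 (24 ^ 2) ≤ (972 / 5 : ℝ) := by
    have e : (24 : ℕ) ^ 2 = 576 := by norm_num
    rw [e]
    exact c2.trans (by norm_num)
  have x1 := exp_ge (a := 124) (b := 8) (X := (10000000001 : ℝ) / 1992) (by norm_num) (by norm_num)
  have x2 := exp_ge (a := 157) (b := 8) (X := (30000000009 : ℝ) / 100) (by norm_num) (by norm_num)
  have x3 := exp_ge (a := 129) (b := 8) (X := (100000000020000000001 : ℝ) / 10432900000000) (by norm_num) (by norm_num)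
  push_cast at x1 x2 x3
  refine core hAC hNT (n := n) (nlo := 1000000000) (nhi := 10000000000) (y := 83) (p0 := 16000) (P1 := 16900)
    (P2 := 155000) (P3 := 1420000) (P4 := 3230000) (e0 := 6) (e1 := 5) (e2 := 4) (e3 := 3) (q := 24)
    (Z := 3010000) (r := 1) (lam := 124 / 8) (th := 3 / 100) (kap := 44722 / 10 ^ 9)
    (LA := 157 / 8) (L4 := 129 / 8)
    h1 h2 (by norm_num) v1 v2 p1 p2 p3 c3 c4 (by norm_num) (by norm_num) (by norm_num)
    (by norm_num) (by norm_num) (by norm_num) (by norm_num) (by norm_num)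
    (by norm_num) (by norm_num) (by norm_num) (by norm_num)
    (by norm_num) (by norm_num) (by norm_num) ?_ (by norm_num) (by norm_num) (by norm_num)
    ?_ ?_ (by norm_num) (by norm_num) (by norm_num) rfl _ _ rfl rfl ?_ ?_
  · refine le_trans (le_of_eq ?_) (mul_le_mul_of_nonneg_left x1 (by norm_num))
    norm_num
  · refine le_trans (le_of_eq ?_) x2
    norm_num
  · refine le_trans (le_of_eq ?_) x3
    norm_num
  · norm_num [sg, nn]
  · norm_num [sg, nn]

set_option maxHeartbeats 4000000 in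
theorem r5 (hAC : S_AC) (hNT : S_NT) (hV : S_V97) (hP : S_P97_20000) (hD : S_D2500) (n : ℕ)
    (h1 : 10000000000 ≤ n) (h2 : n ≤ 1000000000000) : 2 ≤ (CycI n).card := by
  obtain ⟨v1, v2⟩ := hV
  obtain ⟨p1, p2, p3⟩ := hP
  obtain ⟨c1, c2⟩ := hD
  have c3 : D0 (50 ^ 2) ≤ (13865 : ℝ) := by
    have e : (50 : ℕ) ^ 2 = 2500 := by norm_num
    rw [e]
    unfold D0
    rw [c1]
    norm_num
  have c4 : D1 (50 ^ 2) ≤ (2469 / 5 : ℝ) := by
    have e : (50 : ℕ) ^ 2 = 2500 := by norm_num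
    rw [e]
    exact c2.trans (by norm_num)
  have x1 := exp_ge (a := 154) (b := 8) (X := (1000000000001 : ℝ) / 4850) (by norm_num) (by norm_num)
  have x2 := exp_ge (a := 196) (b := 8) (X := (1000000000003 : ℝ) / 25) (by norm_num) (by norm_num)
  have x3 := exp_ge (a := 170) (b := 8) (X := (1000000000002000000000001 : ℝ) / 665640000000000) (by norm_num) (by norm_num)
  push_cast at x1 x2 x3
  refine core hAC hNT (n := n) (nlo := 10000000000) (nhi := 1000000000000) (y := 97) (p0 := 20000) (P1 := 108000)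
    (P2 := 1070000) (P3 := 10600000) (P4 := 25800000) (e0 := 7) (e1 := 6) (e2 := 5) (e3 := 4) (q := 50)
    (Z := 30100000) (r := 2) (lam := 154 / 8) (th := 1 / 25) (kap := 14143 / 10 ^ 9)
    (LA := 196 / 8) (L4 := 170 / 8)
    h1 h2 (by norm_num) v1 v2 p1 p2 p3 c3 c4 (by norm_num) (by norm_num) (by norm_num)
    (by norm_num) (by norm_num) (by norm_num) (by norm_num) (by norm_num)
    (by norm_num) (by norm_num) (by norm_num) (by norm_num)
    (by norm_num) (by norm_num) (by norm_num) ?_ (by norm_num) (by norm_num) (by norm_num)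
    ?_ ?_ (by norm_num) (by norm_num) (by norm_num) rfl _ _ rfl rfl ?_ ?_
  · refine le_trans (le_of_eq ?_) (mul_le_mul_of_nonneg_left x1 (by norm_num))
    norm_num
  · refine le_trans (le_of_eq ?_) x2
    norm_num
  · refine le_trans (le_of_eq ?_) x3
    norm_num
  · norm_num [sg, nn]
  · norm_num [sg, nn]

set_option maxHeartbeats 4000000 in
theorem r6 (hAC : S_AC) (hNT : S_NT) (hV : S_V131) (hP : S_P131_20000) (hD : S_D10000) (n : ℕ)
    (h1 : 1000000000000 ≤ n) (h2 : n ≤ 100000000000000) : 2 ≤ (CycI n).card := by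
  obtain ⟨v1, v2⟩ := hV
  obtain ⟨p1, p2, p3⟩ := hP
  obtain ⟨c1, c2⟩ := hD
  have c3 : D0 (100 ^ 2) ≤ (63869 : ℝ) := by
    have e : (100 : ℕ) ^ 2 = 10000 := by norm_num
    rw [e]
    unfold D0
    rw [c1]
    norm_num
  have c4 : D1 (100 ^ 2) ≤ (1156 / 1 : ℝ) := by
    have e : (100 : ℕ) ^ 2 = 10000 := by norm_num
    rw [e]
    exact c2.trans (by norm_num)
  have x1 := exp_ge (a := 183) (b := 8) (X := (100000000000001 : ℝ) / 13100) (by norm_num) (by norm_num)
  have x2 := exp_ge (a := 236) (b := 8) (X := (300000000000009 : ℝ) / 50) (by norm_num) (by norm_num)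
  have x3 := exp_ge (a := 197) (b := 8) (X := (11890606420927705112960761 : ℝ) / 256000000000000) (by norm_num) (by norm_num)
  push_cast at x1 x2 x3
  refine core hAC hNT (n := n) (nlo := 1000000000000) (nhi := 100000000000000) (y := 131) (p0 := 20000) (P1 := 28700)
    (P2 := 330000) (P3 := 43500000) (P4 := 464000000) (e0 := 9) (e1 := 8) (e2 := 7) (e3 := 5) (q := 100)
    (Z := 649000000) (r := 2) (lam := 183 / 8) (th := 3 / 50) (kap := 14143 / 10 ^ 10)
    (LA := 236 / 8) (L4 := 197 / 8)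
    h1 h2 (by norm_num) v1 v2 p1 p2 p3 c3 c4 (by norm_num) (by norm_num) (by norm_num)
    (by norm_num) (by norm_num) (by norm_num) (by norm_num) (by norm_num)
    (by norm_num) (by norm_num) (by norm_num) (by norm_num)
    (by norm_num) (by norm_num) (by norm_num) ?_ (by norm_num) (by norm_num) (by norm_num)
    ?_ ?_ (by norm_num) (by norm_num) (by norm_num) rfl _ _ rfl rfl ?_ ?_
  · refine le_trans (le_of_eq ?_) (mul_le_mul_of_nonneg_left x1 (by norm_num))
    norm_num
  · refine le_trans (le_of_eq ?_) x2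
    norm_num
  · refine le_trans (le_of_eq ?_) x3
    norm_num
  · norm_num [sg, nn]
  · norm_num [sg, nn]

theorem finB (hAC : S_AC) (hNT : S_NT) (hCV : S_CV) (hCP : S_CP) (hCD : S_CD) (n : ℕ)
    (h1 : 10 ^ 9 ≤ n) (h2 : n ≤ 10 ^ 14) : 2 ≤ (CycI n).card := by
  obtain ⟨v71, v83, v97, v131, v151, v1021, v5003⟩ := hCV
  obtain ⟨a1, a2, a3, a4, a5, a6, a7, a8, a9⟩ := hCP
  obtain ⟨d1, d2, d3, d4, d5⟩ := hCD
  norm_num at h1 h2
  rcases le_or_gt n 10000000000 with g1 | g1
  · exact r4 hAC hNT v83 a4 d3 n h1 g1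
  rcases le_or_gt n 1000000000000 with g2 | g2
  · exact r5 hAC hNT v97 a5 d4 n g1.le g2
  exact r6 hAC hNT v131 a6 d5 n g2.le h2

end Pool.Agent.Helper83.CY.FINB
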