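import Pool.Agent.Helper83.CY.Base

set_option autoImplicit false

open Finset

namespace Pool.Agent.Helper83.CY.L2A

/-- a set of natural numbers `x` with `a < c x < b` has at most `(b - a) / c + 1` elements -/
theorem count_le (S : Finset ℕ) (a b c : ℝ) (hc : 0 < c) (hab : a ≤ b)
    (h : ∀ x ∈ S, a < c * x ∧ c * x < b) : (S.card : ℝ) ≤ (b - a) / c + 1 := by
  rcases S.eq_empty_or_nonempty with rfl | hne
  · simp only [card_empty, Nat.cast_zero]
    have : 0 ≤ (b - a) / c := div_nonneg (by linarith) hc.le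
    linarith
  · set u := S.min' hne
    set v := S.max' hne
    have hu := h u (S.min'_mem hne)
    have hv := h v (S.max'_mem hne)
    have huv : u ≤ v := S.min'_le _ (S.max'_mem hne)
    have hsub : S ⊆ Finset.Icc u v := fun x hx => Finset.mem_Icc.2 ⟨S.min'_le x hx, S.le_max' x hx⟩
    have hcard : S.card ≤ v + 1 - u := by
      have := card_le_card hsub
      rwa [Nat.card_Icc] at this
    have h1 : (S.card : ℝ) ≤ (v : ℝ) + 1 - u := by
      have h2 : ((S.card : ℕ) : ℝ) ≤ ((v + 1 - u : ℕ) : ℝ) := by exact_mod_cast hcard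
      rw [Nat.cast_sub (by omega)] at h2
      push_cast at h2
      exact h2
    have h3 : (v : ℝ) - u ≤ (b - a) / c := by
      rw [le_div_iff₀ hc]
      nlinarith [hu.1, hv.2]
    linarith

/-- the divisors of `N` all of whose prime factors exceed `y` -/
noncomputable def KK (y N : ℕ) : Finset ℕ := by
  classical
  exact (N.divisors).filter (fun k => ∀ r : ℕ, r.Prime → r ∣ k → y < r)

theorem mem_KK {y N k : ℕ} : k ∈ KK y N ↔ (k ∣ N ∧ N ≠ 0) ∧ ∀ r : ℕ, r.Prime → r ∣ k → y < r := by
  classical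
  rw [KK, mem_filter, Nat.mem_divisors]

theorem KK_card (y : ℕ) : ∀ (e N : ℕ), 1 ≤ N → N < (y + 1) ^ (e + 1) → (KK y N).card ≤ 2 ^ e := by
  classical
  intro e
  induction e with
  | zero =>
    intro N hN h
    rw [zero_add, pow_one] at h
    rw [pow_zero]
    refine card_le_one.2 ?_
    have key : ∀ k ∈ KK y N, k = 1 := by
      intro k hk
      obtain ⟨⟨h1, h2⟩, h3⟩ := mem_KK.1 hk
      by_contra hk1
      obtain ⟨r, hr, hrk⟩ := Nat.exists_prime_and_dvd hk1
      have h4 := h3 r hr hrk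
      have h5 : r ≤ N := Nat.le_of_dvd (by omega) (hrk.trans h1)
      omega
    intro a ha b hb
    rw [key a ha, key b hb]
  | succ e ih =>
    intro N hN h
    by_cases hex : ∃ r : ℕ, r.Prime ∧ r ∣ N ∧ y < r
    · obtain ⟨r, hr, ⟨N', rfl⟩, hyr⟩ := hex
      have hN' : 1 ≤ N' := by
        rcases Nat.eq_zero_or_pos N' with h0 | h0
        · rw [h0, mul_zero] at hN
          omega
        · exact h0
      have hlt : N' < (y + 1) ^ (e + 1) := by
        by_contra hcon
        push Not at hcon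
        have h1 : (y + 1) * (y + 1) ^ (e + 1) ≤ r * N' := Nat.mul_le_mul (by omega) hcon
        rw [← pow_succ'] at h1
        omega
      have hsub : KK y (r * N') ⊆ KK y N' ∪ (KK y N').image (fun k => r * k) := by
        intro k hk
        obtain ⟨⟨h1, h2⟩, h3⟩ := mem_KK.1 hk
        rw [mem_union]
        by_cases hrk : r ∣ k
        · right
          obtain ⟨k', rfl⟩ := hrk
          refine mem_image.2 ⟨k', mem_KK.2 ⟨⟨?_, by omega⟩, fun s hs hsk => h3 s hs (hsk.mul_left r)⟩, rfl⟩
          exact Nat.dvd_of_mul_dvd_mul_left hr.pos h1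
        · left
          refine mem_KK.2 ⟨⟨?_, by omega⟩, h3⟩
          have hco : Nat.Coprime k r := ((Nat.Prime.coprime_iff_not_dvd hr).2 hrk).symm
          exact hco.dvd_of_dvd_mul_left h1
      calc (KK y (r * N')).card ≤ (KK y N' ∪ (KK y N').image (fun k => r * k)).card :=
            card_le_card hsub
        _ ≤ (KK y N').card + ((KK y N').image (fun k => r * k)).card := card_union_le _ _
        _ ≤ (KK y N').card + (KK y N').card := Nat.add_le_add_left card_image_le _
        _ ≤ 2 ^ e + 2 ^ e := Nat.add_le_add (ih N' hN' hlt) (ih N' hN' hlt)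
        _ = 2 ^ (e + 1) := by rw [pow_succ]; ring
    · push Not at hex
      have h1 : (KK y N).card ≤ 1 := by
        refine card_le_one.2 ?_
        have key : ∀ k ∈ KK y N, k = 1 := by
          intro k hk
          obtain ⟨⟨h1, h2⟩, h3⟩ := mem_KK.1 hk
          by_contra hk1
          obtain ⟨r, hr, hrk⟩ := Nat.exists_prime_and_dvd hk1
          have h4 := h3 r hr hrk
          have h5 := hex r hr (hrk.trans h1)
          omega
        intro a ha b hb
        rw [key a ha, key b hb]
      exact h1.trans Nat.one_le_two_pow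

/-- the possible values of half of `N = k t` -/
noncomputable def NN (n p : ℕ) (G : ℝ) : Finset ℕ := by
  classical
  exact (Finset.range ((n + 1) ^ 2)).filter (fun N =>
    (n : ℝ) ^ 2 - G < 2 * (p : ℝ) ^ 2 * N ∧ 2 * (p : ℝ) ^ 2 * N < ((n : ℝ) + 1) ^ 2)

theorem NN_card (n p : ℕ) (G : ℝ) (hp : 1 ≤ p) (hG : 0 ≤ G) :
    ((NN n p G).card : ℝ) ≤ (2 * (n : ℝ) + 1 + G) / 2 * (1 / (p : ℝ) ^ 2) + 1 := by
  classical
  have hp0 : (0 : ℝ) < p := by exact_mod_cast hp
  have h := count_le (NN n p G) ((n : ℝ) ^ 2 - G) (((n : ℝ) + 1) ^ 2) (2 * (p : ℝ) ^ 2) (by positivity)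
    (by nlinarith [Nat.cast_nonneg (α := ℝ) n]) (fun x hx => by
      rw [NN, mem_filter] at hx
      exact hx.2)
  have e : (((n : ℝ) + 1) ^ 2 - ((n : ℝ) ^ 2 - G)) / (2 * (p : ℝ) ^ 2) =
      (2 * (n : ℝ) + 1 + G) / 2 * (1 / (p : ℝ) ^ 2) := by
    field_simp
    ring
  rwa [e] at h

theorem l2a : S_L2A := by
  classical
  intro n y P P' e G hn hy hP hPP hG hpow
  have hsub : B2le n y P P' G ⊆ (PP P P').biUnion (fun p => (NN n p G).biUnion
      (fun N => if 2 * N < (y + 1) ^ (e + 1) ∧ 1 ≤ 2 * N then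
        (KK y (2 * N)).image (fun k => p * k + p ^ 2 * (2 * N)) else ∅)) := by
    intro m hm
    rw [B2le, mem_filter] at hm
    obtain ⟨hmS, p, q, hPp, hpP', ⟨hp, hq, hpq, hpqm⟩, hG'⟩ := hm
    rw [Sift, mem_filter, I, mem_Ioo] at hmS
    obtain ⟨⟨hm1, hm2⟩, hrough⟩ := hmS
    have hmpos : 0 < m := by exact lt_of_le_of_lt (Nat.zero_le _) hm1
    have hyp : y < p := hrough p hp ((Dvd.intro _ rfl).trans hpqm)
    have hyq : y < q := hrough q hq ((Dvd.intro_left _ rfl).trans hpqm)
    obtain ⟨k, hk⟩ := hpqm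
    obtain ⟨t, ht⟩ := hpq
    have hq1 : q = p * t + 1 := by
      have := hq.one_lt
      omega
    have hpodd : Odd p := hp.odd_of_ne_two (by omega)
    have hqodd : Odd q := hq.odd_of_ne_two (by omega)
    have hpt : Even (p * t) := by
      rcases Nat.even_or_odd (p * t) with h | h
      · exact h
      · exfalso
        rw [hq1] at hqodd
        exact (Nat.not_even_iff_odd.2 hqodd) h.add_one
    have hteven : Even t := by
      rcases Nat.even_mul.1 hpt with h | h
      · exact absurd h (Nat.not_even_iff_odd.2 hpodd)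
      · exact h
    obtain ⟨t', ht'⟩ := hteven
    have ht2 : t = 2 * t' := by omega
    have hkpos : 0 < k := by
      rcases Nat.eq_zero_or_pos k with h | h
      · rw [h, mul_zero] at hk
        omega
      · exact h
    have ht'pos : 0 < t' := by
      rcases Nat.eq_zero_or_pos t' with h | h
      · rw [ht2, h, mul_zero, mul_zero] at hq1
        have := hq.one_lt
        omega
      · exact h
    have hppos : 0 < p := hp.pos
    have hmeq : m = p * k + p ^ 2 * (2 * (k * t')) := by
      rw [hk, hq1, ht2]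
      ring
    have hNpos : 1 ≤ 2 * (k * t') := by
      have := Nat.mul_pos hkpos ht'pos
      omega
    have hlt : 2 * (k * t') < (y + 1) ^ (e + 1) := by
      by_contra hcon
      push Not at hcon
      have h1 : (y + 1) ^ (e + 1) * P ^ 2 ≤ (2 * (k * t')) * p ^ 2 :=
        Nat.mul_le_mul hcon (Nat.pow_le_pow_left hPp.le 2)
      have h2 : (2 * (k * t')) * p ^ 2 ≤ m := by
        rw [hmeq, mul_comm (2 * (k * t'))]
        exact Nat.le_add_left _ _
      omega
    have hreal : (m : ℝ) = p * k + 2 * (p : ℝ) ^ 2 * ((k * t' : ℕ) : ℝ) := by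
      rw [hmeq]
      push_cast
      ring
    have hGk : (p : ℝ) * k ≤ G := by
      have hq0 : (0 : ℝ) < q := by exact_mod_cast hq.pos
      have h1 : (m : ℝ) / q = p * k := by
        rw [hk]
        push_cast
        field_simp
      rw [← h1]
      exact hG'
    have hm1r : (n : ℝ) ^ 2 < m := by exact_mod_cast hm1
    have hm2r : (m : ℝ) < ((n : ℝ) + 1) ^ 2 := by exact_mod_cast hm2
    have hpk0 : (0 : ℝ) ≤ p * k := by positivity
    rw [mem_biUnion]
    refine ⟨p, ?_, ?_⟩
    · rw [PP, mem_filter, mem_Ioc]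
      exact ⟨⟨hPp, hpP'⟩, hp⟩
    rw [mem_biUnion]
    refine ⟨k * t', ?_, ?_⟩
    · rw [NN, mem_filter, mem_range]
      refine ⟨?_, by linarith, by linarith⟩
      have h1 : k * t' ≤ p ^ 2 * (2 * (k * t')) := by
        have : 1 ≤ p ^ 2 := Nat.one_le_pow _ _ hppos
        nlinarith [Nat.zero_le (k * t')]
      omega
    · rw [if_pos ⟨hlt, hNpos⟩, mem_image]
      refine ⟨k, mem_KK.2 ⟨⟨?_, by omega⟩, fun r hr hrk => ?_⟩, ?_⟩
      · exact Dvd.intro (2 * t') (by ring)
      · exact hrough r hr (hk ▸ hrk.mul_left (p * q))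
      · rw [hmeq]
  have hcard : ((B2le n y P P' G).card : ℝ) ≤
      ∑ p ∈ PP P P', ((2 * (n : ℝ) + 1 + G) / 2 * (1 / (p : ℝ) ^ 2) + 1) * 2 ^ e := by
    have h1 := (card_le_card hsub).trans card_biUnion_le
    have h2 : ((B2le n y P P' G).card : ℝ) ≤ ∑ p ∈ PP P P', (((NN n p G).biUnion
      (fun N => if 2 * N < (y + 1) ^ (e + 1) ∧ 1 ≤ 2 * N then
        (KK y (2 * N)).image (fun k => p * k + p ^ 2 * (2 * N)) else ∅)).card : ℝ) := by
      exact_mod_cast h1
    refine h2.trans (sum_le_sum fun p hp => ?_)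
    rw [PP, mem_filter, mem_Ioc] at hp
    have hp1 : 1 ≤ p := hp.2.one_lt.le
    have h3 : ((NN n p G).biUnion
      (fun N => if 2 * N < (y + 1) ^ (e + 1) ∧ 1 ≤ 2 * N then
        (KK y (2 * N)).image (fun k => p * k + p ^ 2 * (2 * N)) else ∅)).card ≤
        (NN n p G).card * 2 ^ e := by
      refine card_biUnion_le_card_mul _ _ _ fun N _ => ?_
      split_ifs with hc
      · exact card_image_le.trans (KK_card y e (2 * N) hc.2 hc.1)
      · rw [card_empty]
        exact Nat.zero_le _
    calc (((NN n p G).biUnion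
      (fun N => if 2 * N < (y + 1) ^ (e + 1) ∧ 1 ≤ 2 * N then
        (KK y (2 * N)).image (fun k => p * k + p ^ 2 * (2 * N)) else ∅)).card : ℝ)
        ≤ ((NN n p G).card : ℝ) * 2 ^ e := by exact_mod_cast h3
      _ ≤ _ := mul_le_mul_of_nonneg_right (NN_card n p G hp1 hG) (by positivity)
  refine hcard.trans (le_of_eq ?_)
  rw [← sum_mul, sum_add_distrib, ← mul_sum, S2, nu]
  simp only [sum_const, nsmul_eq_mul, mul_one]
  ring

end Pool.Agent.Helper83.CY.L2A
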