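import Pool.Agent.Helper83.CY.Base

set_option autoImplicit false

open Finset

namespace Pool.Agent.Helper83.CY.L2B

/-- a set of natural numbers `x` with `a < c x < b` has at most `(b - a) / c + 1` elements -/
theorem count_le (S : Finset ℕ) (a b c : ℝ) (hc : 0 < c) (hab : a ≤ b)
    (h : ∀ x ∈ S, a < c * x ∧ c * x < b) : (S.card : ℝ) ≤ (b - a) / c + 1 := by
  rcases S.eq_empty_or_nonempty with rfl | hne
  · simp only [card_empty, Nat.cast_zero]
    have : 0 ≤ (b - a) / c := div_nonneg (by linarith) hc.le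
    linarith
  · set u := S.min' hne
    set v := S.max' hne
    have hu := h u (S.min'_mem hne)
    have hv := h v (S.max'_mem hne)
    have huv : u ≤ v := S.min'_le _ (S.max'_mem hne)
    have hsub : S ⊆ Finset.Icc u v := fun x hx => Finset.mem_Icc.2 ⟨S.min'_le x hx, S.le_max' x hx⟩
    have hcard : S.card ≤ v + 1 - u := by
      have := card_le_card hsub
      rwa [Nat.card_Icc] at this
    have h1 : (S.card : ℝ) ≤ (v : ℝ) + 1 - u := by
      have h2 : ((S.card : ℕ) : ℝ) ≤ ((v + 1 - u : ℕ) : ℝ) := by exact_mod_cast hcard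
      rw [Nat.cast_sub (by omega)] at h2
      push_cast at h2
      exact h2
    have h3 : (v : ℝ) - u ≤ (b - a) / c := by
      rw [le_div_iff₀ hc]
      nlinarith [hu.1, hv.2]
    linarith

/-- the primes `q`, `5 ≤ q < A` -/
noncomputable def QQ (A : ℝ) : Finset ℕ := by
  classical
  exact (Finset.range (⌈A⌉₊ + 1)).filter (fun q => q.Prime ∧ 5 ≤ q ∧ (q : ℝ) < A)

theorem mem_QQ {A : ℝ} {q : ℕ} : q ∈ QQ A ↔ q.Prime ∧ 5 ≤ q ∧ (q : ℝ) < A := by
  classical
  rw [QQ, mem_filter, mem_range]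
  constructor
  · exact fun h => h.2
  · intro h
    refine ⟨?_, h⟩
    have h1 : (q : ℝ) < ⌈A⌉₊ := lt_of_lt_of_le h.2.2 (Nat.le_ceil A)
    have h2 : q < ⌈A⌉₊ := by exact_mod_cast h1
    omega

theorem mod_six {q : ℕ} (hq : q.Prime) (h5 : 5 ≤ q) : q % 6 = 1 ∨ q % 6 = 5 := by
  have h2 : ¬ 2 ∣ q := fun h => by
    have := (Nat.prime_dvd_prime_iff_eq Nat.prime_two hq).1 h
    omega
  have h3 : ¬ 3 ∣ q := fun h => by
    have := (Nat.prime_dvd_prime_iff_eq Nat.prime_three hq).1 h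
    omega
  omega

theorem QQ_card (A : ℝ) (hA : 1 ≤ A) : ((QQ A).card : ℝ) ≤ A / 3 + 1 := by
  classical
  -- q = 6 i + 1 and q = 6 i - 1
  have h1 : QQ A ⊆ (QQ A).filter (fun q => q % 6 = 1) ∪ (QQ A).filter (fun q => q % 6 = 5) := by
    intro q hq
    have h := mem_QQ.1 hq
    rw [mem_union, mem_filter, mem_filter]
    rcases mod_six h.1 h.2.1 with h' | h'
    · exact Or.inl ⟨hq, h'⟩
    · exact Or.inr ⟨hq, h'⟩
  have h2 : ((QQ A).filter (fun q => q % 6 = 1)).card ≤ ⌊A / 6⌋₊ := by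
    have hsub : ((QQ A).filter (fun q => q % 6 = 1)).image (fun q => q / 6) ⊆ Finset.Icc 1 ⌊A / 6⌋₊ := by
      intro i hi
      obtain ⟨q, hq, rfl⟩ := mem_image.1 hi
      rw [mem_filter] at hq
      obtain ⟨hq, hq6⟩ := hq
      have h := mem_QQ.1 hq
      rw [Finset.mem_Icc]
      refine ⟨by omega, Nat.le_floor ?_⟩
      have h3 : ((6 * (q / 6) : ℕ) : ℝ) ≤ q := by exact_mod_cast Nat.mul_div_le q 6
      push_cast at h3
      linarith [h.2.2]
    have hinj : Set.InjOn (fun q : ℕ => q / 6) (((QQ A).filter (fun q => q % 6 = 1) : Finset ℕ) : Set ℕ) := by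
      intro a ha b hb hab
      rw [mem_coe, mem_filter] at ha hb
      simp only at hab
      omega
    rw [← card_image_of_injOn hinj]
    have := card_le_card hsub
    rwa [Nat.card_Icc, Nat.add_sub_cancel] at this
  have h3 : ((QQ A).filter (fun q => q % 6 = 5)).card ≤ ⌊A / 6⌋₊ + 1 := by
    have hsub : ((QQ A).filter (fun q => q % 6 = 5)).image (fun q => q / 6) ⊆
        Finset.range (⌊A / 6⌋₊ + 1) := by
      intro i hi
      obtain ⟨q, hq, rfl⟩ := mem_image.1 hi
      rw [mem_filter] at hq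
      obtain ⟨hq, hq6⟩ := hq
      have h := mem_QQ.1 hq
      rw [Finset.mem_range]
      refine Nat.lt_succ_of_le (Nat.le_floor ?_)
      have h3 : ((6 * (q / 6) : ℕ) : ℝ) ≤ q := by exact_mod_cast Nat.mul_div_le q 6
      push_cast at h3
      linarith [h.2.2]
    have hinj : Set.InjOn (fun q : ℕ => q / 6) (((QQ A).filter (fun q => q % 6 = 5) : Finset ℕ) : Set ℕ) := by
      intro a ha b hb hab
      rw [mem_coe, mem_filter] at ha hb
      simp only at hab
      omega
    rw [← card_image_of_injOn hinj]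
    have := card_le_card hsub
    rwa [card_range] at this
  have h4 : (QQ A).card ≤ ⌊A / 6⌋₊ + (⌊A / 6⌋₊ + 1) :=
    (card_le_card h1).trans ((card_union_le _ _).trans (Nat.add_le_add h2 h3))
  have h5 : ((⌊A / 6⌋₊ : ℕ) : ℝ) ≤ A / 6 := Nat.floor_le (by positivity)
  have h6 : ((QQ A).card : ℝ) ≤ (⌊A / 6⌋₊ : ℝ) + ((⌊A / 6⌋₊ : ℝ) + 1) := by exact_mod_cast h4
  linarith

theorem odd_sum (J : ℕ) (hJ : 1 ≤ J) :
    ∑ j ∈ Finset.Icc 2 J, 1 / (2 * (j : ℝ) + 1) ≤ 1 / 2 * (Real.log (2 * J + 1) - Real.log 3) := by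
  induction J, hJ using Nat.le_induction with
  | base =>
    simp only [Nat.cast_one]
    norm_num
  | succ J hJ ih =>
    rw [Finset.sum_Icc_succ_top (by omega)]
    have h1 : Real.log ((2 * (J : ℝ) + 1) / (2 * (J : ℝ) + 3)) ≤
        (2 * (J : ℝ) + 1) / (2 * (J : ℝ) + 3) - 1 := Real.log_le_sub_one_of_pos (by positivity)
    rw [Real.log_div (by positivity) (by positivity)] at h1
    have h2 : (2 * (J : ℝ) + 1) / (2 * (J : ℝ) + 3) - 1 = -2 * (1 / (2 * (J : ℝ) + 3)) := by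
      field_simp
      ring
    rw [h2] at h1
    push_cast
    have h3 : 2 * ((J : ℝ) + 1) + 1 = 2 * J + 3 := by ring
    rw [h3]
    linarith

theorem QQ_sum (A : ℝ) (hA : 1 ≤ A) : ∑ q ∈ QQ A, 1 / (q : ℝ) ≤ 1 / 2 * Real.log A := by
  classical
  rcases (QQ A).eq_empty_or_nonempty with h0 | hne
  · rw [h0, sum_empty]
    have := Real.log_nonneg hA
    linarith
  · set v := (QQ A).max' hne
    have hv := mem_QQ.1 ((QQ A).max'_mem hne)
    have hodd : ∀ q ∈ QQ A, q = 2 * (q / 2) + 1 := by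
      intro q hq
      have h := mem_QQ.1 hq
      rcases mod_six h.1 h.2.1 with h' | h' <;> omega
    have hsub : (QQ A) ⊆ (Finset.Icc 2 (v / 2)).image (fun j => 2 * j + 1) := by
      intro q hq
      have h := mem_QQ.1 hq
      have hqv : q ≤ v := (QQ A).le_max' q hq
      refine mem_image.2 ⟨q / 2, Finset.mem_Icc.2 ⟨by omega, Nat.div_le_div_right hqv⟩, (hodd q hq).symm⟩
    calc ∑ q ∈ QQ A, 1 / (q : ℝ)
        ≤ ∑ q ∈ (Finset.Icc 2 (v / 2)).image (fun j : ℕ => 2 * j + 1), 1 / (q : ℝ) :=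
          sum_le_sum_of_subset_of_nonneg hsub fun i _ _ => by positivity
      _ = ∑ j ∈ Finset.Icc 2 (v / 2), 1 / (2 * (j : ℝ) + 1) := by
          rw [sum_image (fun a _ b _ h => by omega)]
          refine sum_congr rfl fun j _ => ?_
          push_cast
          rfl
      _ ≤ 1 / 2 * (Real.log (2 * (v / 2 : ℕ) + 1) - Real.log 3) := odd_sum _ (by omega)
      _ ≤ 1 / 2 * Real.log A := by
          have h1 : (2 * ((v / 2 : ℕ) : ℝ) + 1) = v := by
            have := hodd v ((QQ A).max'_mem hne)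
            exact_mod_cast this.symm
          rw [h1]
          have h2 : Real.log v ≤ Real.log A := Real.log_le_log (by
            have : 0 < v := by omega
            exact_mod_cast this) hv.2.2.le
          have h3 : 0 ≤ Real.log 3 := Real.log_nonneg (by norm_num)
          linarith

/-- the prime divisors `p > P` of `q - 1` with `p ≠ 2` -/
noncomputable def PQ (P q : ℕ) : Finset ℕ := by
  classical
  exact ((q - 1).primeFactors).filter (fun p => P < p ∧ p ≠ 2)

theorem PQ_card {P r q : ℕ} {A : ℝ} (hP : 1 ≤ P) (hA : A ≤ 2 * (P : ℝ) ^ (r + 1)) (hq : q ∈ QQ A) :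
    (PQ P q).card ≤ r := by
  classical
  by_contra hcon
  push Not at hcon
  have h := mem_QQ.1 hq
  have hq0 : q - 1 ≠ 0 := by omega
  have h2 : 2 ∉ PQ P q := by
    rw [PQ, mem_filter]
    exact fun h => h.2.2 rfl
  have hsub : insert 2 (PQ P q) ⊆ (q - 1).primeFactors := by
    intro p hp
    rcases mem_insert.1 hp with rfl | hp
    · refine Nat.mem_primeFactors.2 ⟨Nat.prime_two, ?_, hq0⟩
      rcases mod_six h.1 h.2.1 with h' | h' <;> omega
    · rw [PQ, mem_filter] at hp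
      exact hp.1
  have hdvd : ∏ p ∈ insert 2 (PQ P q), p ∣ q - 1 :=
    (prod_dvd_prod_of_subset _ _ _ hsub).trans (Nat.prod_primeFactors_dvd (q - 1))
  have hle := Nat.le_of_dvd (by omega) hdvd
  rw [prod_insert h2] at hle
  have hprod : P ^ (PQ P q).card ≤ ∏ p ∈ PQ P q, p := by
    refine pow_card_le_prod _ _ _ fun p hp => ?_
    rw [PQ, mem_filter] at hp
    exact hp.2.1.le
  have hpow : P ^ (r + 1) ≤ P ^ (PQ P q).card := Nat.pow_le_pow_right hP hcon
  have h3 : 2 * P ^ (r + 1) < q := by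
    have : 2 * P ^ (r + 1) ≤ q - 1 := by
      calc 2 * P ^ (r + 1) ≤ 2 * ∏ p ∈ PQ P q, p := Nat.mul_le_mul_left 2 (hpow.trans hprod)
        _ ≤ q - 1 := hle
    omega
  have h4 : (2 : ℝ) * (P : ℝ) ^ (r + 1) < q := by exact_mod_cast h3
  linarith [h.2.2]

/-- the odd multiples of `p q` in `I n` -/
noncomputable def MM (n p q : ℕ) : Finset ℕ := by
  classical
  exact (I n).filter (fun m => m % 2 = 1 ∧ p * q ∣ m)

theorem MM_card (n p q : ℕ) (hp : 0 < p) (hq : 0 < q) :
    ((MM n p q).card : ℝ) ≤ (n : ℝ) / (p * q) + 1 := by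
  classical
  set S : Finset ℕ := (Finset.range ((n + 1) ^ 2)).filter (fun i =>
    n ^ 2 < p * q * (2 * i + 1) ∧ p * q * (2 * i + 1) < (n + 1) ^ 2) with hS
  have hsub : MM n p q ⊆ S.image (fun i => p * q * (2 * i + 1)) := by
    intro m hm
    rw [MM, mem_filter, I, mem_Ioo] at hm
    obtain ⟨⟨h1, h2⟩, h3, k, hk⟩ := hm
    have hkodd : k % 2 = 1 := by
      rcases Nat.mod_two_eq_zero_or_one k with h | h
      · exfalso
        have : m % 2 = 0 := by
          rw [hk, Nat.mul_mod, h, mul_zero, Nat.zero_mod]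
        omega
      · exact h
    have hk2 : k = 2 * (k / 2) + 1 := by omega
    refine mem_image.2 ⟨k / 2, ?_, ?_⟩
    · rw [hS, mem_filter, mem_range, ← hk2, ← hk]
      refine ⟨?_, h1, h2⟩
      have : k ≤ m := by
        rw [hk]
        exact Nat.le_mul_of_pos_left k (Nat.mul_pos hp hq)
      omega
    · rw [← hk2, ← hk]
  have hp0 : (0 : ℝ) < p := by exact_mod_cast hp
  have hq0 : (0 : ℝ) < q := by exact_mod_cast hq
  have hcard := count_le S ((n : ℝ) ^ 2 + 1 / 2 - p * q) ((n : ℝ) ^ 2 + 2 * n + 1 / 2 - p * q)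
    (2 * (p * q)) (by positivity) (by linarith [Nat.cast_nonneg (α := ℝ) n]) (fun i hi => by
      rw [hS, mem_filter] at hi
      obtain ⟨-, h1, h2⟩ := hi
      have h1' : n ^ 2 + 1 ≤ p * q * (2 * i + 1) := h1
      have h2' : p * q * (2 * i + 1) + 1 ≤ (n + 1) ^ 2 := h2
      have e1 : (n : ℝ) ^ 2 + 1 ≤ p * q * (2 * i + 1) := by exact_mod_cast h1'
      have e2 : (p : ℝ) * q * (2 * i + 1) + 1 ≤ (n + 1) ^ 2 := by exact_mod_cast h2'
      constructor
      · linarith
      · linarith)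
  have e : ((n : ℝ) ^ 2 + 2 * n + 1 / 2 - p * q - ((n : ℝ) ^ 2 + 1 / 2 - p * q)) / (2 * (p * q)) =
      (n : ℝ) / (p * q) := by
    field_simp
    ring
  rw [e] at hcard
  have h1 : ((MM n p q).card : ℝ) ≤ (S.card : ℝ) := by
    exact_mod_cast (card_le_card hsub).trans card_image_le
  linarith

theorem l2b : S_L2B := by
  classical
  intro n y P P' r G A hn hy hP hG hA hA1 hAr
  have hsub : B2gt n y P P' G ⊆ (QQ A).biUnion (fun q => (PQ P q).biUnion (fun p => MM n p q)) := by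
    intro m hm
    rw [B2gt, mem_filter] at hm
    obtain ⟨hmS, p, q, hPp, hpP', ⟨hp, hq, hpq, hpqm⟩, hG'⟩ := hm
    rw [Sift, mem_filter] at hmS
    obtain ⟨hmI, hrough⟩ := hmS
    have hmI' := hmI
    rw [I, mem_Ioo] at hmI'
    obtain ⟨hm1, hm2⟩ := hmI'
    have hyp : y < p := hrough p hp ((Dvd.intro _ rfl).trans hpqm)
    have hyq : y < q := hrough q hq ((Dvd.intro_left _ rfl).trans hpqm)
    have hq0 : (0 : ℝ) < q := by exact_mod_cast hq.pos
    have hq5 : 5 ≤ q := by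
      have h4 : q ≠ 4 := by
        rintro rfl
        exact absurd hq (by norm_num)
      omega
    have hqA : (q : ℝ) < A := by
      rw [lt_div_iff₀ hq0] at hG'
      have h1 : (m : ℝ) < ((n : ℝ) + 1) ^ 2 := by exact_mod_cast hm2
      rw [hA, lt_div_iff₀ hG]
      nlinarith
    rw [mem_biUnion]
    refine ⟨q, mem_QQ.2 ⟨hq, hq5, hqA⟩, ?_⟩
    rw [mem_biUnion]
    refine ⟨p, ?_, ?_⟩
    · rw [PQ, mem_filter]
      exact ⟨Nat.mem_primeFactors.2 ⟨hp, hpq, by omega⟩, hPp, by omega⟩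
    · rw [MM, mem_filter]
      refine ⟨hmI, ?_, hpqm⟩
      rcases Nat.mod_two_eq_zero_or_one m with h | h
      · exfalso
        have := hrough 2 Nat.prime_two (Nat.dvd_of_mod_eq_zero h)
        omega
      · exact h
  have hP0 : (0 : ℝ) < P := by exact_mod_cast hP
  have h1 : ((B2gt n y P P' G).card : ℝ) ≤
      ∑ q ∈ QQ A, (((PQ P q).biUnion (fun p => MM n p q)).card : ℝ) := by
    exact_mod_cast (card_le_card hsub).trans card_biUnion_le
  have h2 : ∀ q ∈ QQ A, (((PQ P q).biUnion (fun p => MM n p q)).card : ℝ) ≤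
      (r : ℝ) * ((n : ℝ) / P * (1 / (q : ℝ)) + 1) := by
    intro q hq
    have hq' := mem_QQ.1 hq
    have hq0 : (0 : ℝ) < q := by exact_mod_cast hq'.1.pos
    have h3 : (((PQ P q).biUnion (fun p => MM n p q)).card : ℝ) ≤
        ∑ p ∈ PQ P q, ((MM n p q).card : ℝ) := by
      exact_mod_cast card_biUnion_le
    have h4 : ∑ p ∈ PQ P q, ((MM n p q).card : ℝ) ≤
        ∑ p ∈ PQ P q, ((n : ℝ) / P * (1 / (q : ℝ)) + 1) := by
      refine sum_le_sum fun p hp => ?_
      rw [PQ, mem_filter] at hp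
      have hp0 : 0 < p := (Nat.prime_of_mem_primeFactors hp.1).pos
      have hPp : (P : ℝ) < p := by exact_mod_cast hp.2.1
      refine (MM_card n p q hp0 hq'.1.pos).trans ?_
      have h5 : (n : ℝ) / (p * q) ≤ (n : ℝ) / (P * q) :=
        div_le_div_of_nonneg_left (Nat.cast_nonneg n) (by positivity)
          (mul_le_mul_of_nonneg_right hPp.le hq0.le)
      have h6 : (n : ℝ) / (P * q) = (n : ℝ) / P * (1 / (q : ℝ)) := by
        field_simp
      linarith
    rw [sum_const, nsmul_eq_mul] at h4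
    have h7 : ((PQ P q).card : ℝ) ≤ r := by exact_mod_cast PQ_card hP hAr hq
    have h8 : (0 : ℝ) ≤ (n : ℝ) / P * (1 / (q : ℝ)) + 1 := by positivity
    exact h3.trans (h4.trans (mul_le_mul_of_nonneg_right h7 h8))
  refine (h1.trans (sum_le_sum h2)).trans ?_
  rw [← mul_sum, sum_add_distrib, ← mul_sum, sum_const, nsmul_eq_mul, mul_one]
  refine mul_le_mul_of_nonneg_left ?_ (Nat.cast_nonneg r)
  have h9 := QQ_sum A hA1
  have h10 := QQ_card A hA1
  have h11 : (n : ℝ) / P * ∑ q ∈ QQ A, 1 / (q : ℝ) ≤ (n : ℝ) / P * (1 / 2 * Real.log A) :=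
    mul_le_mul_of_nonneg_left h9 (by positivity)
  linarith

end Pool.Agent.Helper83.CY.L2B
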