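import Pool.Agent.Helper83.CY.Base

/-! Very large primes. -/

namespace Pool.Agent.Helper83.CY.LG3

open Finset

/-- odd harmonic sums -/
theorem odd_harm (J : ℕ) (hJ : 1 ≤ J) :
    ∑ j ∈ range J, 1 / (2 * (j : ℝ) + 1) ≤ 1 + 1 / 2 * Real.log (2 * J - 1) := by
  induction J, hJ using Nat.le_induction with
  | base => norm_num
  | succ J hJ ih =>
    rw [sum_range_succ]
    have hJ' : (1 : ℝ) ≤ J := by exact_mod_cast hJ
    have h0 : (0 : ℝ) < 2 * J - 1 := by linarith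
    have h1 : (0 : ℝ) < 2 * J + 1 := by linarith
    have h2 := Real.one_sub_inv_le_log_of_pos (x := (2 * (J : ℝ) + 1) / (2 * J - 1)) (by positivity)
    rw [Real.log_div h1.ne' h0.ne', inv_div] at h2
    have h3 : 1 - (2 * (J : ℝ) - 1) / (2 * J + 1) = 2 * (1 / (2 * J + 1)) := by
      field_simp
      ring
    rw [h3] at h2
    have e : 2 * ((J + 1 : ℕ) : ℝ) - 1 = 2 * J + 1 := by push_cast; ring
    rw [e]
    linarith

theorem odd_sum (N : ℕ) (hN : 1 ≤ N) :
    ∑ k ∈ (Icc 1 N).filter Odd, 1 / (k : ℝ) ≤ 1 + 1 / 2 * Real.log N := by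
  have h1 : (Icc 1 N).filter Odd ⊆ (range ((N + 1) / 2)).image (fun j : ℕ => (2 * j + 1 : ℕ)) := by
    intro k hk
    rw [mem_filter, mem_Icc] at hk
    obtain ⟨⟨h1, h2⟩, j, hj⟩ := hk
    rw [mem_image]
    exact ⟨j, by rw [mem_range]; omega, hj.symm⟩
  have h2 := sum_le_sum_of_subset_of_nonneg (f := fun k : ℕ => 1 / (k : ℝ)) h1
    (fun _ _ _ => by positivity)
  rw [sum_image (fun a _ b _ h => by simpa using h)] at h2
  have h3 := odd_harm ((N + 1) / 2) (by omega)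
  have h4 : 2 * (((N + 1) / 2 : ℕ) : ℝ) - 1 ≤ N := by
    have : 2 * ((N + 1) / 2) ≤ N + 1 := by omega
    have h5 : (2 * (((N + 1) / 2 : ℕ) : ℝ)) ≤ N + 1 := by exact_mod_cast this
    linarith
  have h5 : (0 : ℝ) < 2 * (((N + 1) / 2 : ℕ) : ℝ) - 1 := by
    have : 1 ≤ (N + 1) / 2 := by omega
    have h5 : (1 : ℝ) ≤ (((N + 1) / 2 : ℕ) : ℝ) := by exact_mod_cast this
    linarith
  have h6 := Real.log_le_log h5 h4
  push_cast at h2
  linarith

/-- at most one prime for each pair -/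
theorem uniq {n k s p p' : ℕ} (hk : 1 ≤ k) (hs : 1 ≤ s) (hp : Odd p) (hp' : Odd p')
    (h1 : n ^ 2 < k * p + 2 * k * s * p ^ 2) (h2 : k * p' + 2 * k * s * p' ^ 2 < (n + 1) ^ 2)
    (hlt : p < p') : False := by
  obtain ⟨i, hi⟩ := hp
  obtain ⟨j, hj⟩ := hp'
  have h3 : p + 2 ≤ p' := by omega
  have h4 : k * (p + 2) + 2 * k * s * (p + 2) ^ 2 ≤ k * p' + 2 * k * s * p' ^ 2 := by gcongr
  have e : k * (p + 2) + 2 * k * s * (p + 2) ^ 2 =
      (k * p + 2 * k * s * p ^ 2) + (2 * k + 8 * (k * s) * (p + 1)) := by ring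
  rw [e] at h4
  have h5 : 2 * k + 8 * (k * s) * (p + 1) < 2 * n := by
    have : (n + 1) ^ 2 = n ^ 2 + 2 * n + 1 := by ring
    omega
  have h6 : k + 4 * (k * s) * (p + 1) < n := by
    have : 2 * k + 8 * (k * s) * (p + 1) = 2 * (k + 4 * (k * s) * (p + 1)) := by ring
    omega
  have hp0 : 1 ≤ p := by omega
  have h7 : k * p + 2 * k * s * p ^ 2 ≤ (k + 4 * (k * s) * (p + 1)) * p := by
    have : (k + 4 * (k * s) * (p + 1)) * p = (k * p + 2 * k * s * p ^ 2) +
        (2 * (k * s) * p ^ 2 + 4 * (k * s) * p) := by ring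
    rw [this]
    exact Nat.le_add_right _ _
  have h8 : (k + 4 * (k * s) * (p + 1)) * p ≤ n * p := by gcongr
  have h9 : n < p := by
    by_contra hcon
    push Not at hcon
    have : n * p ≤ n * n := by gcongr
    have e2 : n ^ 2 = n * n := sq n
    omega
  have h10 : 4 * (k * s) * (p + 1) ≥ p + 1 := by
    have : 1 ≤ k * s := Nat.one_le_iff_ne_zero.2 (by positivity)
    nlinarith
  omega

theorem data {n y P m : ℕ} (hy : 2 ≤ y) (hm : m ∈ B2 n y P ((n + 1) ^ 2)) :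
    ∃ p k s : ℕ, P < p ∧ Odd p ∧ Odd k ∧ 1 ≤ k ∧ 1 ≤ s ∧ m = k * p + 2 * k * s * p ^ 2 ∧
      n ^ 2 < m ∧ m < (n + 1) ^ 2 := by
  classical
  unfold B2 at hm
  rw [mem_filter] at hm
  obtain ⟨hs, p, q, hPp, -, hpp, hq, hpq, hdvd⟩ := hm
  unfold Sift at hs
  rw [mem_filter] at hs
  obtain ⟨hI, hsift⟩ := hs
  unfold I at hI
  rw [mem_Ioo] at hI
  obtain ⟨k, hk⟩ := hdvd
  have hoddm : ¬ 2 ∣ m := by
    intro h
    have := hsift 2 Nat.prime_two h
    omega
  have hpm : p ∣ m := by rw [hk]; exact ⟨q * k, by ring⟩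
  have hqm : q ∣ m := by rw [hk]; exact ⟨p * k, by ring⟩
  have hkm : k ∣ m := by rw [hk]; exact ⟨p * q, by ring⟩
  have hodd : ∀ d, d ∣ m → Odd d := by
    intro d hd
    rw [← Nat.not_even_iff_odd, even_iff_two_dvd]
    exact fun h => hoddm (h.trans hd)
  obtain ⟨t, ht⟩ := hpq
  have hq1 : q = p * t + 1 := by have := hq.one_lt; omega
  have hteven : Even t := by
    rw [← Nat.not_odd_iff_even]
    intro hto
    have h1 : Odd (p * t) := (hodd p hpm).mul hto
    have h2 : Even q := by rw [hq1]; exact h1.add_odd odd_one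
    exact (Nat.not_even_iff_odd.2 (hodd q hqm)) h2
  obtain ⟨s, hs⟩ := hteven
  have hk0 : k ≠ 0 := by
    rintro rfl
    rw [mul_zero] at hk
    omega
  have hs0 : s ≠ 0 := by
    rintro rfl
    have := hq.one_lt
    rw [hq1, hs] at this
    simp at this
  refine ⟨p, k, s, hPp, hodd p hpm, hodd k hkm, Nat.one_le_iff_ne_zero.2 hk0,
    Nat.one_le_iff_ne_zero.2 hs0, ?_, hI.1, hI.2⟩
  rw [hk, hq1, hs]
  ring

theorem lg3 : S_LG3 := by
  intro n y P hn hy hP hPn
  classical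
  set Z : ℝ := ((n : ℝ) + 1) ^ 2 / (P : ℝ) ^ 2 with hZ
  have hP0 : (0 : ℝ) < P := by exact_mod_cast hP
  have hZ1 : 1 ≤ Z := by
    rw [hZ, one_le_div (by positivity)]
    have : (P : ℝ) ≤ n + 1 := by exact_mod_cast hPn
    gcongr
  set N : ℕ := ⌊Z / 2⌋₊ with hN
  choose! p k s hP' hp hk hk1 hs1 hm hI1 hI2 using
    fun m (h : m ∈ B2 n y P ((n + 1) ^ 2)) => data hy h
  have hks : ∀ m ∈ B2 n y P ((n + 1) ^ 2), k m * s m ≤ N := by
    intro m hmem
    apply Nat.le_floor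
    have h1 := hm m hmem
    have h2 := hI2 m hmem
    have h3 := hP' m hmem
    have h4 : 2 * (k m * s m) * P ^ 2 ≤ (n + 1) ^ 2 := by
      calc 2 * (k m * s m) * P ^ 2 ≤ 2 * (k m * s m) * (p m) ^ 2 := by gcongr
        _ ≤ k m * p m + 2 * k m * s m * p m ^ 2 := by
          have : 2 * k m * s m * p m ^ 2 = 2 * (k m * s m) * (p m) ^ 2 := by ring
          omega
        _ ≤ (n + 1) ^ 2 := by omega
    have h5 : 2 * ((k m * s m : ℕ) : ℝ) * (P : ℝ) ^ 2 ≤ ((n : ℝ) + 1) ^ 2 := by exact_mod_cast h4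
    rw [hZ, le_div_iff₀ (by norm_num), le_div_iff₀ (by positivity)]
    linarith
  have hcard : (B2 n y P ((n + 1) ^ 2)).card ≤
      (((Icc 1 N).filter Odd).sigma (fun k => Icc 1 (N / k))).card := by
    refine card_le_card_of_injOn (fun m => (⟨k m, s m⟩ : Σ _ : ℕ, ℕ)) ?_ ?_
    · intro m hmem
      have hmem : m ∈ B2 n y P ((n + 1) ^ 2) := hmem
      have h1 := hks m hmem
      have h2 := hk1 m hmem
      have h3 := hs1 m hmem
      show (⟨k m, s m⟩ : Σ _ : ℕ, ℕ) ∈ _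
      rw [mem_coe, mem_sigma]
      refine ⟨?_, ?_⟩
      · rw [mem_filter, mem_Icc]
        refine ⟨⟨h2, ?_⟩, hk m hmem⟩
        calc k m = k m * 1 := (mul_one _).symm
          _ ≤ k m * s m := by gcongr
          _ ≤ N := h1
      · show s m ∈ Icc 1 (N / k m)
        rw [mem_Icc]
        refine ⟨h3, ?_⟩
        rw [Nat.le_div_iff_mul_le (by omega), mul_comm]
        exact h1
    · intro m hmem m' hmem' h
      have hmem : m ∈ B2 n y P ((n + 1) ^ 2) := hmem
      have hmem' : m' ∈ B2 n y P ((n + 1) ^ 2) := hmem'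
      have h1 : k m = k m' ∧ s m = s m' := by
        simpa using h
      have g1 := hm m hmem
      have g2 := hm m' hmem'
      rw [← h1.1, ← h1.2] at g2
      have a1 := hI1 m hmem
      have a2 := hI2 m hmem
      have b1 := hI1 m' hmem'
      have b2 := hI2 m' hmem'
      rcases lt_trichotomy (p m) (p m') with hlt | heq | hgt
      · exfalso
        exact uniq (hk1 m hmem) (hs1 m hmem) (hp m hmem) (hp m' hmem') (by rw [← g1]; exact a1)
          (by rw [← g2]; exact b2) hlt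
      · rw [g1, g2, heq]
      · exfalso
        exact uniq (hk1 m hmem) (hs1 m hmem) (hp m' hmem') (hp m hmem) (by rw [← g2]; exact b1)
          (by rw [← g1]; exact a2) hgt
  rw [card_sigma] at hcard
  have h1 : ((B2 n y P ((n + 1) ^ 2)).card : ℝ) ≤
      ∑ k ∈ (Icc 1 N).filter Odd, (N : ℝ) * (1 / (k : ℝ)) := by
    calc ((B2 n y P ((n + 1) ^ 2)).card : ℝ)
        ≤ ((∑ k ∈ (Icc 1 N).filter Odd, (Icc 1 (N / k)).card : ℕ) : ℝ) := by exact_mod_cast hcard
      _ = ∑ k ∈ (Icc 1 N).filter Odd, ((N / k : ℕ) : ℝ) := by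
        push_cast
        refine sum_congr rfl fun k _ => ?_
        rw [Nat.card_Icc, Nat.add_sub_cancel]
      _ ≤ ∑ k ∈ (Icc 1 N).filter Odd, (N : ℝ) * (1 / (k : ℝ)) := by
        refine sum_le_sum fun k _ => ?_
        rw [mul_one_div]
        exact Nat.cast_div_le
  rw [← mul_sum] at h1
  have hlogZ : 0 ≤ Real.log Z := Real.log_nonneg hZ1
  rcases Nat.eq_zero_or_pos N with hN0 | hN0
  · rw [hN0] at h1
    simp only [Nat.cast_zero, zero_mul] at h1
    have : 0 ≤ Z / 2 * (1 + 1 / 2 * Real.log Z) := by positivity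
    linarith
  · have h2 := odd_sum N hN0
    have hNZ : (N : ℝ) ≤ Z / 2 := Nat.floor_le (by positivity)
    have hN1 : (1 : ℝ) ≤ N := by exact_mod_cast hN0
    have h3 : Real.log N ≤ Real.log Z := Real.log_le_log (by linarith) (by linarith)
    calc ((B2 n y P ((n + 1) ^ 2)).card : ℝ) ≤ N * ∑ k ∈ (Icc 1 N).filter Odd, 1 / (k : ℝ) := h1
      _ ≤ Z / 2 * (1 + 1 / 2 * Real.log Z) := by
        have h4 : ∑ k ∈ (Icc 1 N).filter Odd, 1 / (k : ℝ) ≤ 1 + 1 / 2 * Real.log Z := by linarith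
        gcongr

end Pool.Agent.Helper83.CY.LG3
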