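import Pool.Agent.Helper83.CY.Base

/-! LEG: the Legendre sieve in an interval (helper48). -/

namespace Pool.Agent.Helper83.CY.Leg

open Finset Pool.Agent.Helper83.CY

/-- the integers `A < m ≤ B` prime to all elements of `P` -/
noncomputable def S (P : Finset ℕ) (A B : ℝ) : Finset ℕ :=
  (Ioc ⌊A⌋₊ ⌊B⌋₊).filter (fun m => ∀ p ∈ P, ¬ p ∣ m)

lemma mem_Ioc_floor {A B : ℝ} (hA : 0 ≤ A) (hB : 0 ≤ B) (m : ℕ) :
    m ∈ Ioc ⌊A⌋₊ ⌊B⌋₊ ↔ A < m ∧ (m : ℝ) ≤ B := by
  rw [mem_Ioc, Nat.floor_lt hA, Nat.le_floor_iff hB]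

lemma main_aux (P : Finset ℕ) (hP : ∀ p ∈ P, p.Prime) : ∀ A B : ℝ, 0 ≤ A → A ≤ B →
    |((S P A B).card : ℝ) - (B - A) * ∏ p ∈ P, (1 - 1 / (p : ℝ))| ≤ 2 ^ P.card := by
  classical
  induction P using Finset.induction_on with
  | empty =>
    intro A B hA hAB
    have hB : 0 ≤ B := hA.trans hAB
    have h1 : S ∅ A B = Ioc ⌊A⌋₊ ⌊B⌋₊ := by
      unfold S
      exact filter_true_of_mem fun m _ p hp => absurd hp (notMem_empty p)
    rw [h1, Nat.card_Ioc, prod_empty, mul_one, card_empty, pow_zero,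
      Nat.cast_sub (Nat.floor_le_floor hAB), abs_le]
    have h2 := Nat.floor_le hA
    have h3 := Nat.lt_floor_add_one A
    have h4 := Nat.floor_le hB
    have h5 := Nat.lt_floor_add_one B
    constructor <;> linarith
  | insert p P hp ih =>
    intro A B hA hAB
    have hB : 0 ≤ B := hA.trans hAB
    have hpp : p.Prime := hP p (mem_insert_self p P)
    have hp0 : (0 : ℝ) < p := by exact_mod_cast hpp.pos
    have ih' := ih fun q hq => hP q (mem_insert_of_mem hq)
    have h1 := ih' A B hA hAB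
    have h2 := ih' (A / p) (B / p) (by positivity) (by gcongr)
    -- the multiples of `p`
    have h3 : (S P A B).filter (fun m => p ∣ m) = (S P (A / p) (B / p)).image (fun m => p * m) := by
      ext m
      constructor
      · intro hm
        rw [mem_filter] at hm
        obtain ⟨hm1, k, rfl⟩ := hm
        unfold S at hm1
        rw [mem_filter, mem_Ioc_floor hA hB] at hm1
        rw [mem_image]
        refine ⟨k, ?_, rfl⟩
        unfold S
        rw [mem_filter, mem_Ioc_floor (by positivity) (by positivity)]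
        obtain ⟨⟨h4, h5⟩, h6⟩ := hm1
        push_cast at h4 h5
        refine ⟨⟨?_, ?_⟩, fun q hq hqk => h6 q hq (hqk.mul_left p)⟩
        · rw [div_lt_iff₀ hp0]; linarith
        · rw [le_div_iff₀ hp0]; linarith
      · intro hm
        rw [mem_image] at hm
        obtain ⟨k, hk, rfl⟩ := hm
        unfold S at hk
        rw [mem_filter, mem_Ioc_floor (by positivity) (by positivity)] at hk
        obtain ⟨⟨h4, h5⟩, h6⟩ := hk
        rw [div_lt_iff₀ hp0] at h4
        rw [le_div_iff₀ hp0] at h5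
        rw [mem_filter]
        refine ⟨?_, dvd_mul_right p k⟩
        unfold S
        rw [mem_filter, mem_Ioc_floor hA hB]
        refine ⟨⟨by push_cast; linarith, by push_cast; linarith⟩, fun q hq hqk => ?_⟩
        have hqp : q.Prime := hP q (mem_insert_of_mem hq)
        rcases hqp.dvd_mul.1 hqk with h | h
        · have : q = p := (Nat.prime_dvd_prime_iff_eq hqp hpp).1 h
          exact hp (this ▸ hq)
        · exact h6 q hq h
    have h4 : ((S P A B).filter (fun m => p ∣ m)).card = (S P (A / p) (B / p)).card := by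
      rw [h3]
      exact card_image_of_injective _ fun a b hab => Nat.eq_of_mul_eq_mul_left hpp.pos hab
    have h5 : S (insert p P) A B = (S P A B).filter (fun m => ¬ p ∣ m) := by
      unfold S
      rw [filter_filter]
      refine filter_congr fun m _ => ?_
      constructor
      · intro h
        exact ⟨fun q hq => h q (mem_insert_of_mem hq), h p (mem_insert_self p P)⟩
      · rintro ⟨h, h'⟩ q hq
        rcases mem_insert.1 hq with rfl | hq
        · exact h'
        · exact h q hq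
    have h6 : ((S (insert p P) A B).card : ℝ) = (S P A B).card - (S P (A / p) (B / p)).card := by
      have h7 := card_filter_add_card_filter_not (s := S P A B) (fun m => p ∣ m)
      rw [h4, ← h5] at h7
      have h8 : ((S P (A / p) (B / p)).card : ℝ) + (S (insert p P) A B).card = (S P A B).card := by
        exact_mod_cast h7
      linarith
    rw [h6, prod_insert hp, card_insert_of_notMem hp, pow_succ]
    have e : ((S P A B).card : ℝ) - (S P (A / p) (B / p)).card -
        (B - A) * ((1 - 1 / (p : ℝ)) * ∏ p ∈ P, (1 - 1 / (p : ℝ))) =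
        (((S P A B).card : ℝ) - (B - A) * ∏ p ∈ P, (1 - 1 / (p : ℝ))) -
        (((S P (A / p) (B / p)).card : ℝ) - (B / p - A / p) * ∏ p ∈ P, (1 - 1 / (p : ℝ))) := by
      field_simp
      ring
    rw [e]
    refine (abs_sub _ _).trans ?_
    linarith

theorem leg : S_LEG := by
  classical
  intro n y
  have h1 := main_aux (PP 0 y) (fun p hp => (mem_filter.1 hp).2) ((n : ℝ) ^ 2) ((n : ℝ) ^ 2 + 2 * n)
    (by positivity) (by linarith [show (0 : ℝ) ≤ n from Nat.cast_nonneg n])
  have h2 : S (PP 0 y) ((n : ℝ) ^ 2) ((n : ℝ) ^ 2 + 2 * n) = Sift n y := by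
    have e1 : ⌊(n : ℝ) ^ 2⌋₊ = n ^ 2 := by
      rw [← Nat.cast_pow, Nat.floor_natCast]
    have e2 : ⌊(n : ℝ) ^ 2 + 2 * n⌋₊ = n ^ 2 + 2 * n := by
      have : (n : ℝ) ^ 2 + 2 * n = ((n ^ 2 + 2 * n : ℕ) : ℝ) := by push_cast; ring
      rw [this, Nat.floor_natCast]
    unfold S Sift
    rw [e1, e2]
    ext m
    rw [mem_filter, mem_filter, I, mem_Ioc, mem_Ioo]
    have e3 : (n + 1) ^ 2 = n ^ 2 + 2 * n + 1 := by ring
    constructor
    · rintro ⟨⟨h3, h4⟩, h5⟩
      refine ⟨⟨h3, by omega⟩, fun p hp hpm => ?_⟩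
      by_contra h6
      exact h5 p (mem_filter.2 ⟨mem_Ioc.2 ⟨hp.pos, by omega⟩, hp⟩) hpm
    · rintro ⟨⟨h3, h4⟩, h5⟩
      refine ⟨⟨h3, by omega⟩, fun p hp hpm => ?_⟩
      obtain ⟨h6, h7⟩ := mem_filter.1 hp
      have := h5 p h7 hpm
      rw [mem_Ioc] at h6
      omega
  rw [h2] at h1
  have h3 := (abs_le.1 h1).1
  have h4 : (n : ℝ) ^ 2 + 2 * n - (n : ℝ) ^ 2 = 2 * n := by ring
  rw [h4] at h3
  unfold V
  linarith

end Pool.Agent.Helper83.CY.Leg
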