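import Pool.Agent.Helper83.CY.Base

/-! # Module MID: Dirichlet covering of the middle zone -/

set_option autoImplicit false

open Finset

namespace Pool.Agent.Helper83.CY.MID

open Classical in
theorem cover (n p R : ℕ) (hn : 1 ≤ n) (hR : 1 ≤ R) :
    Mid n p R ⊆ (AB R).biUnion (fun x => Arc n p R x.1 x.2) := by
  intro x hx
  have hx' := hx
  unfold Mid at hx
  rw [mem_filter] at hx
  obtain ⟨hPr, h1, h2⟩ := hx
  have hPr' := hPr
  unfold Pr at hPr
  rw [mem_filter] at hPr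
  obtain ⟨-, hlo, hhi, -, -⟩ := hPr
  obtain ⟨l, q⟩ := x
  simp only at h1 h2 hlo hhi
  have hR0 : (0 : ℝ) < R := by exact_mod_cast hR
  have hsR : 0 < Real.sqrt R := Real.sqrt_pos.mpr hR0
  have hsR2 : Real.sqrt R * Real.sqrt R = R := Real.mul_self_sqrt hR0.le
  have hn0 : (0 : ℝ) < (n : ℝ) + 1 := by positivity
  have hX : 0 < ((n : ℝ) + 1) / Real.sqrt R := by positivity
  have hl : (0 : ℝ) < l := hX.trans h1
  have hq : (0 : ℝ) < q := hX.trans h2
  have hhi' : (l : ℝ) * q < ((n : ℝ) + 1) ^ 2 := by exact_mod_cast hhi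
  set ρ : ℝ := (l : ℝ) / q with hρ
  have hρ0 : 0 < ρ := by positivity
  have hρq : ρ * q = l := by rw [hρ]; field_simp
  -- 1 / R < ρ < R
  have hlow : 1 < R * ρ := by
    have h3 : ((n : ℝ) + 1) < l * Real.sqrt R := by
      rwa [div_lt_iff₀ hsR] at h1
    have h4 : ((n : ℝ) + 1) ^ 2 < (l * Real.sqrt R) ^ 2 := by
      apply pow_lt_pow_left₀ h3 hn0.le (by norm_num)
    have h5 : (l * Real.sqrt R) ^ 2 = l ^ 2 * R := by
      rw [mul_pow, Real.sq_sqrt hR0.le]
    have h6 : (l : ℝ) * q < l ^ 2 * R := by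
      rw [← h5]; exact hhi'.trans h4
    have h7 : (q : ℝ) < l * R := by
      have : (l : ℝ) * q < l * (l * R) := by linarith [h6, sq (l : ℝ)]
      exact lt_of_mul_lt_mul_left this hl.le
    have h8 : (q : ℝ) < R * ρ * q := by
      calc (q : ℝ) < l * R := h7
        _ = R * (ρ * q) := by rw [hρq]; ring
        _ = R * ρ * q := by ring
    have h9 : 1 * (q : ℝ) < R * ρ * q := by linarith
    exact lt_of_mul_lt_mul_right h9 hq.le
  have hup : ρ < R := by
    have h3 : ((n : ℝ) + 1) < q * Real.sqrt R := by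
      rwa [div_lt_iff₀ hsR] at h2
    have h4 : ((n : ℝ) + 1) ^ 2 < (q * Real.sqrt R) ^ 2 := by
      apply pow_lt_pow_left₀ h3 hn0.le (by norm_num)
    have h5 : (q * Real.sqrt R) ^ 2 = q ^ 2 * R := by
      rw [mul_pow, Real.sq_sqrt hR0.le]
    have h6 : (l : ℝ) * q < q ^ 2 * R := by
      rw [← h5]; exact hhi'.trans h4
    have h7 : (l : ℝ) < R * q := by
      have : (l : ℝ) * q < (R * q) * q := by linarith [h6, sq (q : ℝ)]
      exact lt_of_mul_lt_mul_right this hq.le
    rw [hρ, div_lt_iff₀ hq]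
    exact h7
  set S : ℝ := Real.sqrt (R / ρ) with hS
  have hRρ : 0 < (R : ℝ) / ρ := by positivity
  have hS1 : 1 < S := by
    rw [hS]
    apply Real.lt_sqrt_of_sq_lt
    rw [one_pow, lt_div_iff₀ hρ0]
    linarith
  have hS2 : S * S * ρ = R := by
    rw [hS, Real.mul_self_sqrt hRρ.le]; field_simp
  set B : ℕ := ⌊S⌋₊ with hB
  have hB1 : 1 ≤ B := by
    rw [hB]
    apply Nat.le_floor
    simpa using hS1.le
  have hBS : (B : ℝ) ≤ S := Nat.floor_le (by positivity)
  have hSB : S < (B : ℝ) + 1 := Nat.lt_floor_add_one S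
  obtain ⟨r, hr, hrB⟩ := Real.exists_rat_abs_sub_le_and_den_le ρ (n := B) (by omega)
  set b : ℕ := r.den with hb
  have hb1 : 1 ≤ b := r.pos
  have hb0 : (0 : ℝ) < b := by exact_mod_cast hb1
  have hrc : (r : ℝ) = (r.num : ℝ) / b := by
    rw [hb]; exact_mod_cast (Rat.num_div_den r).symm
  have hbB : (b : ℝ) ≤ B := by exact_mod_cast hrB
  -- |b ρ - num| ≤ 1 / (B + 1)
  have h10 : |(b : ℝ) * ρ - r.num| ≤ 1 / ((B : ℝ) + 1) := by
    have : (b : ℝ) * ρ - r.num = b * (ρ - r) := by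
      rw [hrc]; field_simp
    rw [this, abs_mul, abs_of_pos hb0]
    calc (b : ℝ) * |ρ - r| ≤ b * (1 / (((B : ℝ) + 1) * b)) := by
          apply mul_le_mul_of_nonneg_left hr hb0.le
      _ = 1 / ((B : ℝ) + 1) := by field_simp
  have hB0 : (0 : ℝ) < (B : ℝ) + 1 := by positivity
  have h11 : 1 / ((B : ℝ) + 1) < 1 / S := by
    apply one_div_lt_one_div_of_lt (by positivity) hSB
  -- a ≥ 1
  have hnum : 0 < r.num := by
    by_contra hneg
    push Not at hneg
    have hneg' : (r.num : ℝ) ≤ 0 := by exact_mod_cast hneg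
    have h12 : ρ ≤ b * ρ := by
      have : (1 : ℝ) ≤ b := by exact_mod_cast hb1
      nlinarith
    have h13 : (b : ℝ) * ρ - r.num < 1 / S := (le_abs_self _).trans_lt (h10.trans_lt h11)
    have h14 : ρ < 1 / S := by linarith
    have h15 : ρ * S < 1 := by rwa [lt_div_iff₀ (by positivity)] at h14
    have h16 : (R : ℝ) < S := by
      calc (R : ℝ) = S * (ρ * S) := by rw [← hS2]; ring
        _ < S * 1 := by apply mul_lt_mul_of_pos_left h15 (by positivity)
        _ = S := mul_one S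
    have h17 : (R : ℝ) * R < S * S := by
      apply mul_lt_mul'' h16 h16 hR0.le hR0.le
    have h18 : (R : ℝ) * R * ρ < R := by
      calc (R : ℝ) * R * ρ < S * S * ρ := by apply mul_lt_mul_of_pos_right h17 hρ0
        _ = R := hS2
    have h19 : (R : ℝ) * (R * ρ) < R * 1 := by linarith
    have h20 := lt_of_mul_lt_mul_left h19 hR0.le
    linarith
  set a : ℕ := r.num.toNat with ha
  have haz : (a : ℤ) = r.num := by rw [ha]; exact Int.toNat_of_nonneg hnum.le
  have har : (a : ℝ) = (r.num : ℝ) := by exact_mod_cast haz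
  have ha1 : 1 ≤ a := by omega
  have hcop : Nat.Coprime a b := by
    have := r.reduced
    have h21 : r.num.natAbs = a := by omega
    rw [h21] at this
    exact this
  rw [← har] at h10
  -- a b ≤ R
  have hab : a * b ≤ R := by
    have h22 : (a : ℝ) ≤ b * ρ + 1 / ((B : ℝ) + 1) := by
      have := (abs_le.mp h10).1
      linarith
    have h23 : (a : ℝ) * b < R + 1 := by
      calc (a : ℝ) * b ≤ (b * ρ + 1 / ((B : ℝ) + 1)) * b := by
            apply mul_le_mul_of_nonneg_right h22 hb0.le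
        _ = b * b * ρ + b / ((B : ℝ) + 1) := by ring
        _ < R + 1 := by
          have h24 : (b : ℝ) * b * ρ ≤ R := by
            rw [← hS2]
            apply mul_le_mul_of_nonneg_right _ hρ0.le
            have : (b : ℝ) ≤ S := hbB.trans hBS
            apply mul_le_mul this this hb0.le (by positivity)
          have h25 : (b : ℝ) / ((B : ℝ) + 1) < 1 := by
            rw [div_lt_one hB0]; linarith
          linarith
    have h26 : a * b < R + 1 := by exact_mod_cast h23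
    omega
  have haR : a ≤ R := le_trans (Nat.le_mul_of_pos_right a hb1) hab
  have hbR : b ≤ R := le_trans (Nat.le_mul_of_pos_left b ha1) hab
  rw [mem_biUnion]
  refine ⟨(a, b), ?_, ?_⟩
  · unfold AB
    rw [mem_filter, mem_product, mem_Icc, mem_Icc]
    exact ⟨⟨⟨ha1, haR⟩, ⟨hb1, hbR⟩⟩, hab, hcop⟩
  · unfold Arc
    rw [mem_filter]
    refine ⟨hPr', ?_⟩
    simp only
    have h27 : (b : ℝ) * l - a * q = (b * ρ - a) * q := by
      rw [sub_mul, mul_assoc, hρq]
    rw [h27, abs_mul, abs_of_pos hq]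
    have h28 : |(b : ℝ) * ρ - a| * q < 1 / S * q := by
      apply mul_lt_mul_of_pos_right (h10.trans_lt h11) hq
    refine h28.trans ?_
    -- q / S < (n+1) / sqrt R
    rw [lt_div_iff₀ hsR]
    have h29 : (1 / S * q * Real.sqrt R) ^ 2 < ((n : ℝ) + 1) ^ 2 := by
      have h30 : (1 / S * q * Real.sqrt R) ^ 2 = l * q := by
        have hS0 : S ≠ 0 := by positivity
        have : (1 / S * q * Real.sqrt R) ^ 2 = q ^ 2 * (Real.sqrt R * Real.sqrt R) / (S * S) := by
          field_simp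
        rw [this, hsR2, ← hS2]
        rw [← hρq]
        field_simp
      rw [h30]; exact hhi'
    exact lt_of_pow_lt_pow_left₀ 2 hn0.le h29

open Classical in
theorem mid (h : S_ARC) : S_MID := by
  intro n p R hn hp hR
  have hp0 : (0 : ℝ) < p := by exact_mod_cast hp
  have hR0 : (0 : ℝ) < R := by exact_mod_cast hR
  have hsR : 0 < Real.sqrt R := Real.sqrt_pos.mpr hR0
  have h1 : ((Mid n p R).card : ℝ) ≤ ∑ x ∈ AB R, ((Arc n p R x.1 x.2).card : ℝ) := by
    have := (card_le_card (cover n p R hn hR)).trans card_biUnion_le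
    exact_mod_cast this
  refine h1.trans ?_
  have h2 : ∀ x ∈ AB R, ((Arc n p R x.1 x.2).card : ℝ) ≤
      (Real.sqrt (2 * n + 1) / (p : ℝ) ^ 2 + 2 * Real.sqrt R / p + 4) +
      1 / Real.sqrt ((x.1 : ℝ) * (x.2 : ℝ)) *
      (2 * Real.sqrt (2 * n + 1) / p + ((n : ℝ) + 1) / (2 * Real.sqrt R * (p : ℝ) ^ 2)
        + ((n : ℝ) + 1) / (4 * R * p)) := by
    intro x hx
    unfold AB at hx
    rw [mem_filter, mem_product, mem_Icc, mem_Icc] at hx
    obtain ⟨⟨⟨ha1, -⟩, ⟨hb1, -⟩⟩, hab, hcop⟩ := hx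
    have h3 := h n p R x.1 x.2 hn hp hR ha1 hb1 hcop hab
    have ha0 : (0 : ℝ) < x.1 := by exact_mod_cast ha1
    have hb0 : (0 : ℝ) < x.2 := by exact_mod_cast hb1
    have hs : 0 < Real.sqrt ((x.1 : ℝ) * x.2) := Real.sqrt_pos.mpr (by positivity)
    have hsle : Real.sqrt ((x.1 : ℝ) * x.2) ≤ Real.sqrt R := by
      apply Real.sqrt_le_sqrt
      exact_mod_cast hab
    have h4 : 2 * Real.sqrt ((x.1 : ℝ) * x.2) / p ≤ 2 * Real.sqrt R / p := by
      apply div_le_div_of_nonneg_right _ hp0.le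
      linarith
    refine h3.trans ?_
    have h5 : 1 / Real.sqrt ((x.1 : ℝ) * (x.2 : ℝ)) *
      (2 * Real.sqrt (2 * n + 1) / p + ((n : ℝ) + 1) / (2 * Real.sqrt R * (p : ℝ) ^ 2)
        + ((n : ℝ) + 1) / (4 * R * p)) =
        2 * Real.sqrt (2 * n + 1) / (Real.sqrt ((x.1 : ℝ) * x.2) * p)
        + ((n : ℝ) + 1) / (2 * Real.sqrt ((x.1 : ℝ) * x.2) * Real.sqrt R * (p : ℝ) ^ 2)
        + ((n : ℝ) + 1) / (4 * Real.sqrt ((x.1 : ℝ) * x.2) * R * p) := by
      field_simp
    rw [h5]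
    linarith
  refine (sum_le_sum h2).trans ?_
  rw [sum_add_distrib, sum_const, nsmul_eq_mul, ← sum_mul]
  unfold D0 D1
  exact le_refl _

end Pool.Agent.Helper83.CY.MID
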