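import Pool.Agent.Helper83.CY.Base

/-! Module NT: elementary bounds over the numbers prime to 6. -/

namespace Pool.Agent.Helper83.CY.NT

open Pool.Agent.Helper83.CY

lemma mod6 {p : ℕ} (hp : p.Prime) (h : 6 < p) : p % 6 = 1 ∨ p % 6 = 5 := by
  have h2 : ¬ 2 ∣ p := fun h2 => by
    have := (Nat.prime_dvd_prime_iff_eq Nat.prime_two hp).1 h2; omega
  have h3 : ¬ 3 ∣ p := fun h3 => by
    have := (Nat.prime_dvd_prime_iff_eq Nat.prime_three hp).1 h3; omega
  omega

lemma blocks (g : ℕ → ℝ) (hg : ∀ m, 0 ≤ g m) (P P' : ℕ) (h6 : 6 ≤ P) :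
    ∑ p ∈ PP P P', g p ≤
      ∑ i ∈ Finset.Ico ((P + 5) / 6) ((P' + 1) / 6 + 1), (g (6 * i - 1) + g (6 * i + 1)) := by
  have e : ∑ i ∈ Finset.Ico ((P + 5) / 6) ((P' + 1) / 6 + 1), (g (6 * i - 1) + g (6 * i + 1))
      = ∑ x ∈ (Finset.Ico ((P + 5) / 6) ((P' + 1) / 6 + 1)).biUnion
          (fun i => ({6 * i - 1, 6 * i + 1} : Finset ℕ)), g x := by
    rw [Finset.sum_biUnion]
    · refine Finset.sum_congr rfl fun i _ => ?_
      rw [Finset.sum_pair (by omega)]
    · intro i hi j hj hij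
      simp only [Finset.coe_Ico, Set.mem_Ico] at hi hj
      rw [Function.onFun, Finset.disjoint_left]
      intro x hx hy
      simp only [Finset.mem_insert, Finset.mem_singleton] at hx hy
      omega
  rw [e]
  refine Finset.sum_le_sum_of_subset_of_nonneg ?_ fun _ _ _ => hg _
  intro p hp
  simp only [PP, Finset.mem_filter, Finset.mem_Ioc] at hp
  have := mod6 hp.2 (by omega)
  simp only [Finset.mem_biUnion, Finset.mem_Ico, Finset.mem_insert, Finset.mem_singleton]
  exact ⟨(p + 1) / 6, by omega, by omega⟩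

lemma tele (h T : ℕ → ℝ) (a b : ℕ) (hab : a ≤ b) (hh : ∀ i, a ≤ i → h i ≤ T i - T (i + 1)) :
    ∑ i ∈ Finset.Ico a b, h i ≤ T a - T b := by
  induction b, hab using Nat.le_induction with
  | base => simp
  | succ b hb ih =>
    rw [Finset.sum_Ico_succ_top hb]
    have := hh b hb
    linarith

lemma s2 (P P' : ℕ) (h6 : 6 ≤ P) (h : P ≤ P') :
    S2 P P' ≤ 1 / 3 * (1 / ((P : ℝ) - 3) - 1 / ((P' : ℝ) + 4)) := by
  have hP : (6 : ℝ) ≤ P := by exact_mod_cast h6
  have hPP : (P : ℝ) ≤ P' := by exact_mod_cast h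
  refine (blocks (fun p => 1 / (p : ℝ) ^ 2) (fun _ => by positivity) P P' h6).trans ?_
  rcases le_or_gt ((P + 5) / 6) ((P' + 1) / 6 + 1) with hab | hab
  · refine (tele _ (fun i => 1 / 3 * (1 / (6 * (i : ℝ) - 3))) _ _ hab ?_).trans ?_
    · intro i hi
      have hi1 : 1 ≤ i := by omega
      have hi' : (1 : ℝ) ≤ i := by exact_mod_cast hi1
      have c1 : ((6 * i - 1 : ℕ) : ℝ) = 6 * i - 1 := by
        rw [Nat.cast_sub (by omega)]; push_cast; ring
      have c2 : ((6 * i + 1 : ℕ) : ℝ) = 6 * i + 1 := by push_cast; ring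
      have c3 : ((i + 1 : ℕ) : ℝ) = i + 1 := by push_cast; ring
      simp only [c1, c2, c3]
      have p1 : (0 : ℝ) < 6 * i - 1 := by linarith
      have p2 : (0 : ℝ) < 6 * i + 1 := by linarith
      have p3 : (0 : ℝ) < 6 * i - 3 := by linarith
      have p4 : (0 : ℝ) < 6 * ((i : ℝ) + 1) - 3 := by linarith
      rw [← mul_sub, div_add_div _ _ (by positivity) (by positivity), div_sub_div _ _ (ne_of_gt p3)
        (ne_of_gt p4), ← sub_nonneg]
      have key : 1 / 3 * ((1 * (6 * ((i : ℝ) + 1) - 3) - (6 * i - 3) * 1) /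
          ((6 * i - 3) * (6 * ((i : ℝ) + 1) - 3))) -
          (1 * (6 * (i : ℝ) + 1) ^ 2 + (6 * (i : ℝ) - 1) ^ 2 * 1) /
            ((6 * (i : ℝ) - 1) ^ 2 * (6 * (i : ℝ) + 1) ^ 2) =
          (2 * (6 * (36 * (i : ℝ) ^ 2) + 10)) /
            ((6 * i - 3) * (6 * ((i : ℝ) + 1) - 3) * ((6 * (i : ℝ) - 1) ^ 2 * (6 * (i : ℝ) + 1) ^ 2)) := by
        field_simp
        ring
      rw [key]
      positivity
    · have d1 : P ≤ 6 * ((P + 5) / 6) := by omega
      have d2 : 6 * ((P' + 1) / 6 + 1) ≤ P' + 7 := by omega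
      have e1 : (P : ℝ) ≤ 6 * (((P + 5) / 6 : ℕ) : ℝ) := by exact_mod_cast d1
      have e2 : 6 * (((P' + 1) / 6 + 1 : ℕ) : ℝ) ≤ P' + 7 := by exact_mod_cast d2
      have d3 : 1 ≤ (P' + 1) / 6 + 1 := by omega
      have e3 : (1 : ℝ) ≤ (((P' + 1) / 6 + 1 : ℕ) : ℝ) := by exact_mod_cast d3
      have f1 : 1 / (6 * (((P + 5) / 6 : ℕ) : ℝ) - 3) ≤ 1 / ((P : ℝ) - 3) :=
        one_div_le_one_div_of_le (by linarith) (by linarith)
      have f2 : 1 / ((P' : ℝ) + 4) ≤ 1 / (6 * (((P' + 1) / 6 + 1 : ℕ) : ℝ) - 3) :=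
        one_div_le_one_div_of_le (by linarith) (by linarith)
      show 1 / 3 * (1 / (6 * (((P + 5) / 6 : ℕ) : ℝ) - 3)) -
        1 / 3 * (1 / (6 * (((P' + 1) / 6 + 1 : ℕ) : ℝ) - 3)) ≤ _
      linarith
  · rw [Finset.Ico_eq_empty (by omega), Finset.sum_empty]
    have : 1 / ((P' : ℝ) + 4) ≤ 1 / ((P : ℝ) - 3) :=
      one_div_le_one_div_of_le (by linarith) (by linarith)
    linarith

lemma nu_le (P P' : ℕ) (h6 : 6 ≤ P) (h : P ≤ P') :
    nu P P' ≤ ((P' : ℝ) - P) / 3 + 2 := by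
  have key : (PP P P').card + ((P + 5) / 6 + (P + 1) / 6) ≤ (P' + 5) / 6 + (P' + 1) / 6 := by
    induction P', h using Nat.le_induction with
    | base => simp [PP]
    | succ b hb ih =>
      have e : PP P (b + 1) = if (b + 1).Prime then insert (b + 1) (PP P b) else PP P b := by
        ext x
        split_ifs with hp
        · simp only [PP, Finset.mem_filter, Finset.mem_Ioc, Finset.mem_insert]
          constructor
          · rintro ⟨⟨h1, h2⟩, h3⟩
            rcases Nat.lt_or_ge x (b + 1) with h4 | h4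
            · exact Or.inr ⟨⟨h1, by omega⟩, h3⟩
            · exact Or.inl (by omega)
          · rintro (rfl | ⟨⟨h1, h2⟩, h3⟩)
            · exact ⟨⟨by omega, le_rfl⟩, hp⟩
            · exact ⟨⟨h1, by omega⟩, h3⟩
        · simp only [PP, Finset.mem_filter, Finset.mem_Ioc]
          constructor
          · rintro ⟨⟨h1, h2⟩, h3⟩
            refine ⟨⟨h1, ?_⟩, h3⟩
            rcases Nat.lt_or_ge x (b + 1) with h4 | h4
            · omega
            · exact absurd (by rwa [show x = b + 1 by omega] at h3) hp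
          · rintro ⟨⟨h1, h2⟩, h3⟩
            exact ⟨⟨h1, by omega⟩, h3⟩
      rw [e]
      split_ifs with hp
      · have := mod6 hp (by omega)
        have hc := Finset.card_insert_le (b + 1) (PP P b)
        omega
      · omega
  have k2 : 3 * (PP P P').card + P ≤ P' + 6 := by omega
  have k3 : 3 * ((PP P P').card : ℝ) + P ≤ P' + 6 := by exact_mod_cast k2
  unfold nu
  linarith

lemma log_bd (i : ℕ) (hi : 1 ≤ i) :
    1 / (i : ℝ) + 1 / (12 * (i : ℝ) ^ 3) ≤ Real.log ((2 * (i : ℝ) + 1) / (2 * i - 1)) := by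
  have hi' : (1 : ℝ) ≤ i := by exact_mod_cast hi
  have ha : (0 : ℝ) < (2 * i - 1) / 2 := by linarith
  have hs := Real.hasSum_log_one_add_inv ha
  have hle := sum_le_hasSum (Finset.range 2) (fun k _ => by positivity) hs
  have e1 : 1 + ((2 * (i : ℝ) - 1) / 2)⁻¹ = (2 * (i : ℝ) + 1) / (2 * i - 1) := by
    have : (2 * (i : ℝ) - 1) ≠ 0 := by linarith
    field_simp
    ring
  rw [e1] at hle
  refine le_trans (le_of_eq ?_) hle
  have e2 : 2 * ((2 * (i : ℝ) - 1) / 2) + 1 = 2 * i := by ring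
  rw [e2]
  simp only [Finset.sum_range_succ, Finset.sum_range_zero]
  push_cast
  field_simp
  ring

lemma s1 (P P' : ℕ) (h6 : 6 ≤ P) (h : P ≤ P') :
    S1 P P' ≤ 1 / 3 * Real.log (((P' : ℝ) + 4) / ((P : ℝ) - 3)) := by
  have hP : (6 : ℝ) ≤ P := by exact_mod_cast h6
  have hPP : (P : ℝ) ≤ P' := by exact_mod_cast h
  rw [Real.log_div (by linarith) (by linarith)]
  refine (blocks (fun p => 1 / (p : ℝ)) (fun _ => by positivity) P P' h6).trans ?_
  rcases le_or_gt ((P + 5) / 6) ((P' + 1) / 6 + 1) with hab | hab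
  · refine (tele _ (fun i => - (1 / 3 * Real.log (6 * (i : ℝ) - 3))) _ _ hab ?_).trans ?_
    · intro i hi
      have hi1 : 1 ≤ i := by omega
      have hi' : (1 : ℝ) ≤ i := by exact_mod_cast hi1
      have c1 : ((6 * i - 1 : ℕ) : ℝ) = 6 * i - 1 := by
        rw [Nat.cast_sub (by omega)]; push_cast; ring
      have c2 : ((6 * i + 1 : ℕ) : ℝ) = 6 * i + 1 := by push_cast; ring
      have c3 : ((i + 1 : ℕ) : ℝ) = i + 1 := by push_cast; ring
      simp only [c1, c2, c3]
      have p1 : (0 : ℝ) < 6 * i - 1 := by linarith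
      have p2 : (0 : ℝ) < 6 * i + 1 := by linarith
      have p3 : (0 : ℝ) < 6 * i - 3 := by linarith
      have p4 : (0 : ℝ) < 6 * ((i : ℝ) + 1) - 3 := by linarith
      have hl := log_bd i hi1
      have e : Real.log ((2 * (i : ℝ) + 1) / (2 * i - 1)) =
          Real.log (6 * ((i : ℝ) + 1) - 3) - Real.log (6 * (i : ℝ) - 3) := by
        rw [← Real.log_div (by linarith) (by linarith)]
        congr 1
        have : (2 * (i : ℝ) - 1) ≠ 0 := by linarith
        rw [div_eq_div_iff this (by linarith)]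
        ring
      rw [e] at hl
      have k : 1 / (6 * (i : ℝ) - 1) + 1 / (6 * (i : ℝ) + 1) ≤
          1 / 3 * (1 / (i : ℝ) + 1 / (12 * (i : ℝ) ^ 3)) := by
        rw [← sub_nonneg]
        have : 1 / 3 * (1 / (i : ℝ) + 1 / (12 * (i : ℝ) ^ 3)) -
            (1 / (6 * (i : ℝ) - 1) + 1 / (6 * (i : ℝ) + 1)) =
            (24 * (i : ℝ) ^ 2 - 1) / (36 * (i : ℝ) ^ 3 * ((6 * i - 1) * (6 * i + 1))) := by
          have q0 : (i : ℝ) ≠ 0 := by linarith
          have q1 : (6 * (i : ℝ) - 1) ≠ 0 := p1.ne'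
          have q2 : (6 * (i : ℝ) + 1) ≠ 0 := p2.ne'
          rw [div_add_div _ _ q0 (by positivity), div_add_div _ _ q1 q2, div_mul_div_comm,
            div_sub_div _ _ (by positivity) (mul_ne_zero q1 q2),
            div_eq_div_iff (mul_ne_zero (by positivity) (mul_ne_zero q1 q2))
              (mul_ne_zero (by positivity) (mul_ne_zero q1 q2))]
          ring
        rw [this]
        refine div_nonneg ?_ (by positivity)
        nlinarith
      linarith
    · have d1 : P ≤ 6 * ((P + 5) / 6) := by omega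
      have d2 : 6 * ((P' + 1) / 6 + 1) ≤ P' + 7 := by omega
      have e1 : (P : ℝ) ≤ 6 * (((P + 5) / 6 : ℕ) : ℝ) := by exact_mod_cast d1
      have e2 : 6 * (((P' + 1) / 6 + 1 : ℕ) : ℝ) ≤ P' + 7 := by exact_mod_cast d2
      have d3 : 1 ≤ (P' + 1) / 6 + 1 := by omega
      have e3 : (1 : ℝ) ≤ (((P' + 1) / 6 + 1 : ℕ) : ℝ) := by exact_mod_cast d3
      have f1 : Real.log ((P : ℝ) - 3) ≤ Real.log (6 * (((P + 5) / 6 : ℕ) : ℝ) - 3) :=
        Real.log_le_log (by linarith) (by linarith)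
      have f2 : Real.log (6 * (((P' + 1) / 6 + 1 : ℕ) : ℝ) - 3) ≤ Real.log ((P' : ℝ) + 4) :=
        Real.log_le_log (by linarith) (by linarith)
      show - (1 / 3 * Real.log (6 * (((P + 5) / 6 : ℕ) : ℝ) - 3)) -
        - (1 / 3 * Real.log (6 * (((P' + 1) / 6 + 1 : ℕ) : ℝ) - 3)) ≤ _
      linarith
  · rw [Finset.Ico_eq_empty (by omega), Finset.sum_empty]
    have : Real.log ((P : ℝ) - 3) ≤ Real.log ((P' : ℝ) + 4) :=
      Real.log_le_log (by linarith) (by linarith)
    linarith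

theorem nt : S_NT := fun P P' h6 h => ⟨s2 P P' h6 h, nu_le P P' h6 h, s1 P P' h6 h⟩

end Pool.Agent.Helper83.CY.NT
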