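import Pool.Agent.Helper83.CY.TailDefs

set_option autoImplicit false

namespace Pool.Agent.Helper83.CY.OB1

/-- upper bound for the logarithm of 215.44 -/
theorem log_const : Real.log 215.44 ≤ 5.3728 := by
  rw [Real.log_le_iff_le_exp (by norm_num)]
  have h1 : (2.7182818283 : ℝ) < Real.exp 1 := Real.exp_one_gt_d9
  have h2 : Real.exp (5.3728 : ℝ) = Real.exp 1 ^ 5 * Real.exp 0.3728 := by
    rw [← Real.exp_nat_mul, ← Real.exp_add]
    norm_num
  rw [h2]
  have h3 : (1 + 0.3728 + 0.3728 ^ 2 / 2 + 0.3728 ^ 3 / 6 + 0.3728 ^ 4 / 24 : ℝ) ≤ Real.exp 0.3728 := by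
    have := Real.sum_le_exp_of_nonneg (x := 0.3728) (by norm_num) 5
    simp only [Finset.sum_range_succ, Finset.sum_range_zero] at this
    norm_num [Nat.factorial] at this ⊢
    linarith
  calc (215.44 : ℝ) ≤ 2.7182818283 ^ 5 * (1 + 0.3728 + 0.3728 ^ 2 / 2 + 0.3728 ^ 3 / 6 + 0.3728 ^ 4 / 24) := by
        norm_num
    _ ≤ Real.exp 1 ^ 5 * Real.exp 0.3728 := by
        gcongr

theorem ob1 : S_OB1 := by
  intro n c sig g E hc hcn hnc hs0 hs1 hg0 hg1 hE0 hE7
  have hcR : (46415 : ℝ) ≤ c := by exact_mod_cast hc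
  have hc0 : (0 : ℝ) < c := by linarith
  set q := Real.sqrt (c : ℝ) with hq
  have hq2 : q ^ 2 = c := Real.sq_sqrt hc0.le
  have hq1 : (215.44 : ℝ) ≤ q := by
    apply Real.le_sqrt_of_sq_le
    have : (215.44 : ℝ) ^ 2 ≤ 46415 := by norm_num
    linarith
  have hq0 : (0 : ℝ) < q := by linarith
  set u := Real.log (q / 215.44) with hu
  have hu0 : 0 ≤ u := Real.log_nonneg (by rw [le_div_iff₀ (by norm_num)]; linarith)
  have hr : 1 + u + u ^ 2 / 2 ≤ q / 215.44 := by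
    have := Real.quadratic_le_exp_of_nonneg hu0
    rwa [hu, Real.exp_log (by positivity), ← hu] at this
  set w := Real.log (c : ℝ) with hw
  have hw1 : w ≤ 10.7456 + 2 * u := by
    have e1 : w = 2 * (Real.log 215.44 + u) := by
      rw [hw, ← hq2, Real.log_pow, hu, Real.log_div hq0.ne' (by norm_num)]
      push_cast
      ring
    have := log_const
    rw [e1]
    linarith
  have hw0 : 10 ≤ w := by
    rw [hw, Real.le_log_iff_exp_le hc0]
    have h1 : Real.exp 1 < (2.7182818286 : ℝ) := Real.exp_one_lt_d9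
    have h2 : Real.exp (10 : ℝ) = Real.exp 1 ^ 10 := by
      rw [← Real.exp_nat_mul]; norm_num
    rw [h2]
    calc Real.exp 1 ^ 10 ≤ (2.7182818286 : ℝ) ^ 10 := by gcongr
      _ ≤ 46415 := by norm_num
      _ ≤ c := hcR
  -- the basic bounds
  have hwq : w ≤ 0.04988 * q := by
    have : w ≤ 10.7456 * (q / 215.44) := by nlinarith [sq_nonneg u]
    have e : 10.7456 * (q / 215.44) = (10.7456 / 215.44) * q := by ring
    rw [e] at this
    have : (10.7456 / 215.44 : ℝ) * q ≤ 0.04988 * q := by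
      gcongr; norm_num
    linarith
  set l := 3.7727 + w with hl
  set s1 := (w - 4.8) / 3 with hs1d
  have hl0 : 0 ≤ l := by rw [hl]; linarith
  have hs10 : 0 ≤ s1 := by rw [hs1d]; linarith
  have hlq : l ≤ 0.06739 * q := by
    have : l ≤ 14.5183 * (q / 215.44) := by rw [hl]; nlinarith [sq_nonneg u]
    have e : 14.5183 * (q / 215.44) = (14.5183 / 215.44) * q := by ring
    rw [e] at this
    have : (14.5183 / 215.44 : ℝ) * q ≤ 0.06739 * q := by
      gcongr; norm_num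
    linarith
  have hsq : s1 ≤ 0.0092 * q := by
    have : s1 ≤ 5.9456 / 3 * (q / 215.44) := by rw [hs1d]; nlinarith [sq_nonneg u]
    have e : 5.9456 / 3 * (q / 215.44) = (5.9456 / 3 / 215.44) * q := by ring
    rw [e] at this
    have : (5.9456 / 3 / 215.44 : ℝ) * q ≤ 0.0092 * q := by
      gcongr; norm_num
    linarith
  have hlsq : l * s1 ≤ 0.13356 * q := by
    have h1 : l * s1 ≤ (14.5183 + 2 * u) * ((5.9456 + 2 * u) / 3) := by
      apply mul_le_mul _ _ hs10 (by linarith)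
      · rw [hl]; linarith
      · rw [hs1d]; linarith
    have h2 : (14.5183 + 2 * u) * ((5.9456 + 2 * u) / 3) ≤ 14.5183 * 5.9456 / 3 * (1 + u + u ^ 2 / 2) := by
      nlinarith [sq_nonneg u]
    have h3 : 14.5183 * 5.9456 / 3 * (1 + u + u ^ 2 / 2) ≤ 14.5183 * 5.9456 / 3 * (q / 215.44) := by
      gcongr
    have e : 14.5183 * 5.9456 / 3 * (q / 215.44) = (14.5183 * 5.9456 / 3 / 215.44) * q := by ring
    have h4 : (14.5183 * 5.9456 / 3 / 215.44 : ℝ) * q ≤ 0.13356 * q := by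
      gcongr; norm_num
    linarith
  have hQ : 1 / q ≤ 0.0046417 := by
    rw [div_le_iff₀ hq0]
    linarith
  have hQ0 : 0 < 1 / q := by positivity
  set Q := 1 / q with hQd
  have qQ : q * Q = 1 := by rw [hQd]; field_simp
  have hX : s1 * Q ≤ 0.0092 := by
    calc s1 * Q ≤ 0.0092 * q * Q := by gcongr
      _ = 0.0092 := by rw [mul_assoc, qQ, mul_one]
  have hY : l * Q ≤ 0.06739 := by
    calc l * Q ≤ 0.06739 * q * Q := by gcongr
      _ = 0.06739 := by rw [mul_assoc, qQ, mul_one]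
  have hZ : l * s1 * Q ≤ 0.13356 := by
    calc l * s1 * Q ≤ 0.13356 * q * Q := by gcongr
      _ = 0.13356 := by rw [mul_assoc, qQ, mul_one]
  have hW : w * Q ≤ 0.04988 := by
    calc w * Q ≤ 0.04988 * q * Q := by gcongr
      _ = 0.04988 := by rw [mul_assoc, qQ, mul_one]
  have hQ2 : Q * Q ≤ 0.00002155 := by nlinarith
  have hQc : 1 / (c : ℝ) = Q * Q := by
    rw [← hq2, hQd]; field_simp
  -- term 7
  have hK : E ≤ 0.01001 * ((c : ℝ) - 2) := by
    by_contra hcon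
    push Not at hcon
    have h1 : (0.01001 * ((c : ℝ) - 2)) ^ 7 < E ^ 7 := by
      apply pow_lt_pow_left₀ hcon (by nlinarith) (by norm_num)
    have h2 : ((c : ℝ) + 1) ^ 4 ≤ (0.01001 * ((c : ℝ) - 2)) ^ 7 := by
      have h3 : (c : ℝ) + 1 ≤ ((c : ℝ) - 2) * 1.0001 := by linarith
      have h4 : ((c : ℝ) + 1) ^ 4 ≤ (((c : ℝ) - 2) * 1.0001) ^ 4 := by gcongr
      have h5 : (46413 : ℝ) ^ 3 ≤ ((c : ℝ) - 2) ^ 3 := by
        gcongr; linarith
      have h6 : (((c : ℝ) - 2) * 1.0001) ^ 4 ≤ ((c : ℝ) - 2) ^ 4 * (0.01001 ^ 7 * 46413 ^ 3) := by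
        rw [mul_pow]
        gcongr
        norm_num
      have h7 : ((c : ℝ) - 2) ^ 4 * (0.01001 ^ 7 * 46413 ^ 3) ≤ ((c : ℝ) - 2) ^ 4 * (0.01001 ^ 7 * ((c : ℝ) - 2) ^ 3) := by
        gcongr
      have e : ((c : ℝ) - 2) ^ 4 * (0.01001 ^ 7 * ((c : ℝ) - 2) ^ 3) = (0.01001 * ((c : ℝ) - 2)) ^ 7 := by ring
      linarith
    linarith
  have t7 : E * ((1.0001 + g / 2) / (3 * (c - 2)) + 1 / (3 * c)) ≤ 0.0401 := by
    have hc2 : (0 : ℝ) < c - 2 := by linarith
    have h1 : (1.0001 + g / 2) / (3 * ((c : ℝ) - 2)) + 1 / (3 * c) ≤ 12.0001 / (3 * ((c : ℝ) - 2)) := by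
      have a1 : (1.0001 + g / 2) / (3 * ((c : ℝ) - 2)) ≤ 11.0001 / (3 * ((c : ℝ) - 2)) := by
        gcongr; linarith
      have a2 : 1 / (3 * (c : ℝ)) ≤ 1 / (3 * ((c : ℝ) - 2)) := by
        gcongr; linarith
      have a3 : 11.0001 / (3 * ((c : ℝ) - 2)) + 1 / (3 * ((c : ℝ) - 2)) = 12.0001 / (3 * ((c : ℝ) - 2)) := by
        rw [← add_div]; norm_num
      linarith
    calc E * ((1.0001 + g / 2) / (3 * (c - 2)) + 1 / (3 * c))
        ≤ (0.01001 * ((c : ℝ) - 2)) * (12.0001 / (3 * ((c : ℝ) - 2))) := by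
          apply mul_le_mul hK h1 _ (by positivity)
          positivity
      _ = 0.01001 * 12.0001 / 3 := by field_simp
      _ ≤ 0.0401 := by norm_num
  -- term 8
  have hnR : (n : ℝ) < ((c : ℝ) + 1) ^ 3 := by exact_mod_cast hnc
  have hn0 : (1 : ℝ) ≤ n := by
    have : (c : ℝ) ^ 3 ≤ n := by exact_mod_cast hcn
    nlinarith [sq_nonneg ((c : ℝ))]
  have t8 : Real.log ((n : ℝ) + 3) / (c + 1) ≤ 0.0007 := by
    have h1 : Real.log ((n : ℝ) + 3) ≤ 3 * (w + 2 / c) := by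
      have a1 : (n : ℝ) + 3 ≤ ((c : ℝ) + 2) ^ 3 := by nlinarith
      have a2 : Real.log ((n : ℝ) + 3) ≤ Real.log (((c : ℝ) + 2) ^ 3) := Real.log_le_log (by linarith) a1
      rw [Real.log_pow] at a2
      have a3 : Real.log ((c : ℝ) + 2) = w + Real.log (1 + 2 / c) := by
        rw [hw, ← Real.log_mul hc0.ne' (by positivity)]
        congr 1
        field_simp
      have a4 : Real.log (1 + 2 / (c : ℝ)) ≤ 2 / c := by
        have := Real.log_le_sub_one_of_pos (show (0 : ℝ) < 1 + 2 / c by positivity)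
        linarith
      push_cast at a2
      rw [a3] at a2
      linarith
    have h2 : Real.log ((n : ℝ) + 3) / (c + 1) ≤ 3 * (w + 2 / c) / c := by
      apply div_le_div₀ _ h1 hc0 (by linarith)
      positivity
    have h3 : 3 * (w + 2 / c) / c = 3 * (w * Q) * Q + 6 * (1 / (c : ℝ)) * (1 / (c : ℝ)) := by
      have : 3 * (w + 2 / c) / c = 3 * w * (1 / (c : ℝ)) + 6 * (1 / (c : ℝ)) * (1 / (c : ℝ)) := by
        field_simp
        try ring
      rw [this, hQc]
      ring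
    rw [h3, hQc] at h2
    have h4 : 3 * (w * Q) * Q ≤ 3 * 0.04988 * 0.0046417 := by
      gcongr
    have h5 : 6 * (Q * Q) * (Q * Q) ≤ 6 * 0.00002155 * 0.00002155 := by
      gcongr
    norm_num at h4 h5 ⊢
    linarith
  -- term 9
  have t9 : 2 / (n : ℝ) ≤ 0.00001 := by
    have h1 : (46415 : ℝ) ^ 3 ≤ (n : ℝ) := by
      calc (46415 : ℝ) ^ 3 ≤ (c : ℝ) ^ 3 := by gcongr
        _ ≤ (n : ℝ) := by exact_mod_cast hcn
    have h2 : (200000 : ℝ) ≤ (n : ℝ) := by
      have : (200000 : ℝ) ≤ (46415 : ℝ) ^ 3 := by norm_num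
      linarith
    rw [div_le_iff₀ (by linarith)]
    linarith
  -- term 10
  have t10 : 0.5001 * (1.0001 + w) / c ≤ 0.00014 := by
    have h1 : 0.5001 * (1.0001 + w) / c = 0.5001 * (1.0001 * (Q * Q) + (w * Q) * Q) := by
      have : 0.5001 * (1.0001 + w) / c = 0.5001 * (1.0001 * (1 / (c : ℝ)) + w * (1 / (c : ℝ))) := by
        field_simp
      rw [this, hQc]; ring
    rw [h1]
    have h4 : (w * Q) * Q ≤ 0.04988 * 0.0046417 := by gcongr
    norm_num at h4 hQ2 ⊢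
    linarith
  have t1 : 1.0001 * s1 / (6 * q) ≤ 0.00154 := by
    have : 1.0001 * s1 / (6 * q) = 1.0001 / 6 * (s1 * Q) := by rw [hQd]; field_simp
    rw [this]
    norm_num at hX ⊢
    linarith
  have t2 : 4 / 9 / q ^ 4 ≤ 0.00001 := by
    have : 4 / 9 / q ^ 4 = 4 / 9 * ((Q * Q) * (Q * Q)) := by rw [hQd]; field_simp
    rw [this]
    have h5 : (Q * Q) * (Q * Q) ≤ 0.00002155 * 0.00002155 := by gcongr
    norm_num at h5 ⊢
    linarith
  have t3 : 16 * l * (1.4143 * sig / q + 8 * s1 / q ^ 3 + 4 / 3 / q ^ 2) ≤ 0.00873 := by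
    have e : 16 * l * (1.4143 * sig / q + 8 * s1 / q ^ 3 + 4 / 3 / q ^ 2)
        = 16 * (1.4143 * (sig * (l * Q)) + 8 * ((l * s1 * Q) * (Q * Q)) + 4 / 3 * ((l * Q) * Q)) := by
      rw [hQd]; field_simp
    rw [e]
    have a1 : sig * (l * Q) ≤ 0.0011 * 0.06739 := by gcongr
    have a2 : (l * s1 * Q) * (Q * Q) ≤ 0.13356 * 0.00002155 := by gcongr
    have a3 : (l * Q) * Q ≤ 0.06739 * 0.0046417 := by gcongr
    norm_num at a1 a2 a3 ⊢
    linarith
  have t4 : 22.63 * l * s1 / q ^ 2 ≤ 0.01404 := by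
    have e : 22.63 * l * s1 / q ^ 2 = 22.63 * ((l * s1 * Q) * Q) := by
      rw [hQd]; field_simp
    rw [e]
    have a2 : (l * s1 * Q) * Q ≤ 0.13356 * 0.0046417 := by gcongr
    norm_num at a2 ⊢
    linarith
  have t5 : 1.0001 * l * s1 / (8 * q) ≤ 0.0167 := by
    have e : 1.0001 * l * s1 / (8 * q) = 1.0001 / 8 * (l * s1 * Q) := by
      rw [hQd]; field_simp
    rw [e]
    norm_num at hZ ⊢
    linarith
  have t6 : 0.84 / q ^ 2 ≤ 0.00002 := by
    have e : 0.84 / q ^ 2 = 0.84 * (Q * Q) := by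
      rw [hQd]; field_simp
    rw [e]
    norm_num at hQ2 ⊢
    linarith
  unfold O
  norm_num at t1 t2 t3 t4 t5 t6 t7 t8 t9 t10 ⊢
  linarith

end Pool.Agent.Helper83.CY.OB1
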