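import Pool.Agent.Helper83.CY.TailDefs

/-! Cyclic numbers between consecutive squares: the second bound for `O`. -/

namespace Pool.Agent.Helper83.CY.OB2

open Pool.Agent.Helper83.CY

/-- the growth of the exponential function -/
theorem grow {w : ℝ} (hw : 30 ≤ w) : 0.8 * w ≤ Real.exp (3 * w / 28) := by
  have h1 : Real.exp (3 * w / 28) = Real.exp 1 ^ 3 * Real.exp (3 * w / 28 - 3) := by
    rw [← Real.exp_nat_mul, ← Real.exp_add]
    congr 1
    push_cast
    ring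
  have h2 : (20 : ℝ) ≤ Real.exp 1 ^ 3 := by
    have := Real.exp_one_gt_d9
    calc (20 : ℝ) ≤ 2.7182818283 ^ 3 := by norm_num
      _ ≤ _ := by gcongr
  have h3 := Real.add_one_le_exp (3 * w / 28 - 3)
  have h4 : 0 ≤ 3 * w / 28 - 3 + 1 := by linarith
  rw [h1]
  calc 0.8 * w ≤ 20 * (3 * w / 28 - 3 + 1) := by linarith
    _ ≤ _ := by gcongr

theorem two_exp {w : ℝ} (hw : 30 ≤ w) : 7 ≤ Real.exp (w / 14) := by
  have h1 : Real.exp 2 = Real.exp 1 ^ 2 := by
    rw [← Real.exp_nat_mul]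
    norm_num
  have h2 : (7 : ℝ) ≤ Real.exp 1 ^ 2 := by
    have := Real.exp_one_gt_d9
    calc (7 : ℝ) ≤ 2.7182818283 ^ 2 := by norm_num
      _ ≤ _ := by gcongr
  calc (7 : ℝ) ≤ Real.exp 2 := by rw [h1]; exact h2
    _ ≤ _ := Real.exp_le_exp.mpr (by linarith)

set_option maxHeartbeats 4000000 in
theorem ob2 : S_OB2 := by
  intro n c sig g E hw hn1 hn2 hs0 hs1 hg0 hg1 hE0 hE1
  set w := Real.log c with hwdef
  set C : ℝ := (c : ℝ) with hC
  have hc0 : 0 < C := by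
    rcases Nat.eq_zero_or_pos c with h | h
    · rw [hwdef, hC, h] at hw
      norm_num at hw
    · rw [hC]
      exact_mod_cast h
  have hexp : Real.exp w = C := Real.exp_log hc0
  set z := Real.exp (w / 14) with hz
  have hz7 : 7 ≤ z := two_exp hw
  have hz0 : 0 < z := by linarith
  have hzC : z ^ 14 = C := by
    rw [hz, ← Real.exp_nat_mul, ← hexp]
    congr 1
    push_cast
    ring
  have hsq : Real.sqrt C = z ^ 7 := by
    rw [← hzC, show z ^ 14 = (z ^ 7) ^ 2 by ring]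
    exact Real.sqrt_sq (by positivity)
  have hw0 : 0 < w := by linarith
  have hz6 : 0.4096 * w ^ 4 ≤ z ^ 6 := by
    have h1 : z ^ 6 = Real.exp (3 * w / 28) ^ 4 := by
      rw [hz, ← Real.exp_nat_mul, ← Real.exp_nat_mul]
      congr 1
      push_cast
      ring
    rw [h1]
    calc 0.4096 * w ^ 4 = (0.8 * w) ^ 4 := by ring
      _ ≤ _ := by
        have := grow hw
        gcongr
  have hw4 : (810000 : ℝ) ≤ w ^ 4 := by
    calc (810000 : ℝ) = 30 ^ 4 := by norm_num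
      _ ≤ _ := by gcongr
  set q := z ^ 7 with hq
  have hqw : 2.8 * w ^ 4 ≤ q := by
    have : q = z ^ 6 * z := by rw [hq]; ring
    rw [this]
    calc 2.8 * w ^ 4 ≤ 0.4096 * w ^ 4 * 7 := by linarith
      _ ≤ _ := by gcongr
  have hq6 : (2000000 : ℝ) ≤ q := by linarith
  have hq0 : 0 < q := by linarith
  have hCq : C = q ^ 2 := by rw [← hzC, hq]; ring
  have hq2 : 2000000 * (2.8 * w ^ 4) ≤ q ^ 2 := by
    have : q ^ 2 = q * q := by ring
    rw [this]
    gcongr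
  have hq2' : (4000000000000 : ℝ) ≤ q ^ 2 := by
    calc (4000000000000 : ℝ) = 2000000 ^ 2 := by norm_num
      _ ≤ _ := by gcongr
  have hq3 : 4000000000000 * (2.8 * w ^ 4) ≤ q ^ 3 := by
    have : q ^ 3 = q ^ 2 * q := by ring
    rw [this]
    gcongr
  have hq4 : 4000000000000 * (2.8 * w ^ 4) ≤ q ^ 4 := by
    have : q ^ 4 = q ^ 3 * q := by ring
    rw [this]
    calc 4000000000000 * (2.8 * w ^ 4) ≤ q ^ 3 := hq3
      _ = q ^ 3 * 1 := by ring
      _ ≤ q ^ 3 * q := by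
        gcongr
        linarith
  have hC2 : 4000000000000 ≤ C := by rw [hCq]; exact hq2'
  -- bounds for the logarithms
  have hl0 : 0 ≤ 3.7727 + w := by linarith
  have hl : 3.7727 + w ≤ 1.13 * w := by linarith
  have hs1' : 0 ≤ (w - 4.8) / 3 := by linarith
  have hs1'' : (w - 4.8) / 3 ≤ w / 3 := by linarith
  -- the bound for `E`
  have hEz : E ≤ 1.01 * z ^ 8 := by
    have h1 : E ^ 7 ≤ (1.01 * z ^ 8) ^ 7 := by
      refine hE1.trans ?_
      have h2 : (1.01 * z ^ 8) ^ 7 = 1.01 ^ 7 * C ^ 4 := by rw [← hzC]; ring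
      rw [h2]
      calc (C + 1) ^ 4 ≤ (1.01 * C) ^ 4 := by
            gcongr
            linarith
        _ = 1.01 ^ 4 * C ^ 4 := by ring
        _ ≤ _ := mul_le_mul_of_nonneg_right (by norm_num) (by positivity)
    exact le_of_pow_le_pow_left₀ (by norm_num) (by positivity) h1
  have hEC : E / C ≤ 2.47 / w ^ 4 := by
    rw [div_le_div_iff₀ hc0 (by positivity)]
    calc E * w ^ 4 ≤ (1.01 * z ^ 8) * w ^ 4 := by gcongr
      _ = 1.01 * z ^ 8 * w ^ 4 := by ring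
      _ ≤ 1.01 * z ^ 8 * (z ^ 6 / 0.4096) := by
        gcongr
        rw [le_div_iff₀ (by norm_num)]
        linarith
      _ = (1.01 / 0.4096) * z ^ 14 := by ring
      _ ≤ 2.47 * C := by
        rw [hzC]
        gcongr
        norm_num
  have hE0C : 0 ≤ E / C := by positivity
  -- the terms
  have T1 : 1.0001 * ((w - 4.8) / 3) / (6 * q) ≤ 0.001 / w ^ 2 := by
    calc 1.0001 * ((w - 4.8) / 3) / (6 * q) ≤ 1.0001 * (w / 3) / (6 * (2.8 * w ^ 4)) := by gcongr
      _ = (1.0001 / 50.4) * (1 / w) * (1 / w ^ 2) := by field_simp; norm_num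
      _ ≤ (1.0001 / 50.4) * (1 / 30) * (1 / w ^ 2) := by gcongr
      _ ≤ 0.001 * (1 / w ^ 2) := by gcongr; norm_num
      _ = _ := by ring
  have hw2 : (900 : ℝ) ≤ w ^ 2 := by
    calc (900 : ℝ) = 30 ^ 2 := by norm_num
      _ ≤ _ := by gcongr
  have hw24 : 900 * w ^ 2 ≤ w ^ 4 := by
    have : w ^ 4 = w ^ 2 * w ^ 2 := by ring
    rw [this]
    gcongr
  have hw34 : 30 * w ^ 3 ≤ w ^ 4 := by
    have : w ^ 4 = w * w ^ 3 := by ring
    rw [this]
    gcongr
  have T2 : 4 / 9 / q ^ 4 ≤ 0.001 / w ^ 2 := by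
    calc 4 / 9 / q ^ 4 ≤ 4 / 9 / (4000000000000 * (2.8 * w ^ 4)) := by gcongr
      _ ≤ 4 / 9 / (4000000000000 * (2.8 * (900 * w ^ 2))) := by gcongr
      _ = (4 / 9 / (4000000000000 * 2.8 * 900)) / w ^ 2 := by field_simp
      _ ≤ _ := by gcongr; norm_num
  have T3 : 16 * (3.7727 + w) * (1.4143 * sig / q + 8 * ((w - 4.8) / 3) / q ^ 3 + 4 / 3 / q ^ 2) ≤
      0.01 / w ^ 2 := by
    calc 16 * (3.7727 + w) * (1.4143 * sig / q + 8 * ((w - 4.8) / 3) / q ^ 3 + 4 / 3 / q ^ 2) ≤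
        16 * (1.13 * w) * (1.4143 * 0.0011 / (2.8 * w ^ 4) +
          8 * (w / 3) / (4000000000000 * (2.8 * w ^ 4)) + 4 / 3 / (2000000 * (2.8 * w ^ 4))) := by
          gcongr
      _ = (16 * 1.13 * 1.4143 * 0.0011 / 2.8 + 16 * 1.13 * 4 / 3 / (2000000 * 2.8)) *
          (1 / w) * (1 / w ^ 2) + (16 * 1.13 * 8 / 3 / (4000000000000 * 2.8)) * (1 / w ^ 2) := by
          field_simp
          norm_num
          ring
      _ ≤ (16 * 1.13 * 1.4143 * 0.0011 / 2.8 + 16 * 1.13 * 4 / 3 / (2000000 * 2.8)) *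
          (1 / 30) * (1 / w ^ 2) + (16 * 1.13 * 8 / 3 / (4000000000000 * 2.8)) * (1 / w ^ 2) := by
          gcongr
      _ = ((16 * 1.13 * 1.4143 * 0.0011 / 2.8 + 16 * 1.13 * 4 / 3 / (2000000 * 2.8)) *
          (1 / 30) + (16 * 1.13 * 8 / 3 / (4000000000000 * 2.8))) / w ^ 2 := by ring
      _ ≤ _ := by gcongr; norm_num
  have T4 : 22.63 * (3.7727 + w) * ((w - 4.8) / 3) / q ^ 2 ≤ 0.001 / w ^ 2 := by
    calc 22.63 * (3.7727 + w) * ((w - 4.8) / 3) / q ^ 2 ≤
        22.63 * (1.13 * w) * (w / 3) / (2000000 * (2.8 * w ^ 4)) := by gcongr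
      _ = (22.63 * 1.13 / 3 / (2000000 * 2.8)) / w ^ 2 := by field_simp
      _ ≤ _ := by gcongr; norm_num
  have T5 : 1.0001 * (3.7727 + w) * ((w - 4.8) / 3) / (8 * q) ≤ 0.02 / w ^ 2 := by
    calc 1.0001 * (3.7727 + w) * ((w - 4.8) / 3) / (8 * q) ≤
        1.0001 * (1.13 * w) * (w / 3) / (8 * (2.8 * w ^ 4)) := by gcongr
      _ = (1.0001 * 1.13 / 3 / (8 * 2.8)) / w ^ 2 := by field_simp
      _ ≤ _ := by gcongr; norm_num
  have T6 : 0.84 / q ^ 2 ≤ 0.001 / w ^ 2 := by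
    calc 0.84 / q ^ 2 ≤ 0.84 / (2000000 * (2.8 * (900 * w ^ 2))) := by
          gcongr
          refine le_trans ?_ hq2
          gcongr
      _ = (0.84 / (2000000 * 2.8 * 900)) / w ^ 2 := by field_simp
      _ ≤ _ := by gcongr; norm_num
  have T7 : E * ((1.0001 + g / 2) / (3 * (C - 2)) + 1 / (3 * C)) ≤ 0.05 / w ^ 2 := by
    have h1 : (1.0001 + g / 2) / (3 * (C - 2)) ≤ (1.0001 + g / 2) / (29 / 10 * C) :=
      div_le_div_of_nonneg_left (by positivity) (by positivity) (by linarith)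
    have h2 : (1.0001 + g / 2) / (3 * (C - 2)) + 1 / (3 * C) ≤ 0.36 * w / C := by
      calc (1.0001 + g / 2) / (3 * (C - 2)) + 1 / (3 * C) ≤
          (1.0001 + (w + 20) / 2) / (29 / 10 * C) + 1 / (3 * C) := by
            refine add_le_add (h1.trans ?_) le_rfl
            gcongr
        _ = ((1.0001 + (w + 20) / 2) / (29 / 10) + 1 / 3) / C := by field_simp
        _ ≤ _ := by
          gcongr
          linarith
    calc E * ((1.0001 + g / 2) / (3 * (C - 2)) + 1 / (3 * C)) ≤ E * (0.36 * w / C) := by gcongr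
      _ = E / C * (0.36 * w) := by ring
      _ ≤ 2.47 / w ^ 4 * (0.36 * w) := by gcongr
      _ = (2.47 * 0.36) * (1 / w) * (1 / w ^ 2) := by field_simp
      _ ≤ (2.47 * 0.36) * (1 / 30) * (1 / w ^ 2) := by gcongr
      _ ≤ 0.05 * (1 / w ^ 2) := by gcongr; norm_num
      _ = _ := by ring
  have hnC : (n : ℝ) < (C + 1) ^ 3 := by
    rw [hC]
    exact_mod_cast hn2
  have hnC' : C ^ 3 ≤ (n : ℝ) := by
    rw [hC]
    exact_mod_cast hn1
  have hcn : C ≤ (n : ℝ) := by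
    refine le_trans ?_ hnC'
    calc C = C * 1 := by ring
      _ ≤ C * C ^ 2 := by
        gcongr
        calc (1 : ℝ) = 1 ^ 2 := by norm_num
          _ ≤ _ := by
            gcongr
            linarith
      _ = _ := by ring
  have hlog : Real.log ((n : ℝ) + 3) ≤ 4 * w := by
    have h1 : (n : ℝ) + 3 ≤ C ^ 4 := by
      have h2 : (C + 1) ^ 3 + 3 ≤ C ^ 4 := by
        have h3 : (C + 1) ^ 3 ≤ (2 * C) ^ 3 := by
          gcongr
          linarith
        have h4 : (3 : ℝ) ≤ C ^ 3 := by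
          calc (3 : ℝ) ≤ 2 ^ 3 := by norm_num
            _ ≤ _ := by
              gcongr
              linarith
        have h5 : 9 * C ^ 3 ≤ C * C ^ 3 := by
          gcongr
          linarith
        nlinarith
      linarith
    calc Real.log ((n : ℝ) + 3) ≤ Real.log (C ^ 4) := Real.log_le_log (by positivity) h1
      _ = 4 * w := by rw [Real.log_pow]; norm_num; rfl
  have hlC : 0.0001 / w ^ 2 ≥ w / C := by
    rw [ge_iff_le, hCq]
    calc w / q ^ 2 ≤ w / (2000000 * (2.8 * w ^ 4)) := by gcongr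
      _ = 1 / (2000000 * 2.8) * (1 / w) * (1 / w ^ 2) := by field_simp
      _ ≤ 1 / (2000000 * 2.8) * (1 / 30) * (1 / w ^ 2) := by gcongr
      _ ≤ 0.0001 * (1 / w ^ 2) := by gcongr; norm_num
      _ = _ := by ring
  have T8 : Real.log ((n : ℝ) + 3) / (C + 1) ≤ 0.001 / w ^ 2 := by
    calc Real.log ((n : ℝ) + 3) / (C + 1) ≤ (4 * w) / C := by
          gcongr
          linarith
      _ = 4 * (w / C) := by ring
      _ ≤ 4 * (0.0001 / w ^ 2) := by gcongr
      _ = 0.0004 / w ^ 2 := by ring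
      _ ≤ _ := by gcongr; norm_num
  have T9 : 2 / (n : ℝ) ≤ 0.001 / w ^ 2 := by
    calc 2 / (n : ℝ) ≤ w / C := by
          gcongr
          linarith
      _ ≤ 0.0001 / w ^ 2 := hlC
      _ ≤ _ := by gcongr; norm_num
  have T10 : 0.5001 * (1.0001 + w) / C ≤ 0.001 / w ^ 2 := by
    calc 0.5001 * (1.0001 + w) / C ≤ w / C := by
          gcongr
          linarith
      _ ≤ 0.0001 / w ^ 2 := hlC
      _ ≤ _ := by gcongr; norm_num
  rw [hsq]
  unfold O
  have hsum : 0.001 / w ^ 2 + 0.001 / w ^ 2 + 0.01 / w ^ 2 + 0.001 / w ^ 2 + 0.02 / w ^ 2 +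
      0.001 / w ^ 2 + 0.05 / w ^ 2 + 0.001 / w ^ 2 + 0.001 / w ^ 2 + 0.001 / w ^ 2 ≤
      1 / w ^ 2 := by
    have : 0.001 / w ^ 2 + 0.001 / w ^ 2 + 0.01 / w ^ 2 + 0.001 / w ^ 2 + 0.02 / w ^ 2 +
      0.001 / w ^ 2 + 0.05 / w ^ 2 + 0.001 / w ^ 2 + 0.001 / w ^ 2 + 0.001 / w ^ 2 =
      0.087 / w ^ 2 := by ring
    rw [this]
    gcongr
    norm_num
  linarith only [T1, T2, T3, T4, T5, T6, T7, T8, T9, T10, hsum]

end Pool.Agent.Helper83.CY.OB2
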