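import Pool.Agent.Helper83.CY.Base

/-! module RED (helper9) -/

namespace Pool.Agent.Helper83.CY.Red

open Pool.Agent.Helper83.CY

lemma exists_bad {m : ℕ} (hm : 0 < m) (hsq : ∀ p : ℕ, p.Prime → ¬ p ^ 2 ∣ m)
    (hc : ¬ Nat.Coprime m (Nat.totient m)) : ∃ p q : ℕ, Bad m p q := by
  obtain ⟨r, hr, hrm, hrphi⟩ := Nat.Prime.not_coprime_iff_dvd.1 hc
  have hsf : Squarefree m := by
    rw [Nat.squarefree_iff_prime_squarefree]
    intro p hp h
    exact hsq p hp (by rwa [pow_two])
  have hprod : ∏ p ∈ m.primeFactors, p = m := Nat.prod_primeFactors_of_squarefree hsf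
  have h1 := Nat.totient_mul_prod_primeFactors m
  rw [hprod, mul_comm m] at h1
  have h2 : Nat.totient m = ∏ p ∈ m.primeFactors, (p - 1) := Nat.eq_of_mul_eq_mul_right hm h1
  rw [h2] at hrphi
  obtain ⟨q, hq, hrq⟩ := (Prime.dvd_finsetProd_iff hr.prime _).1 hrphi
  have hqp : q.Prime := Nat.prime_of_mem_primeFactors hq
  have hqm : q ∣ m := Nat.dvd_of_mem_primeFactors hq
  refine ⟨r, q, hr, hqp, hrq, ?_⟩
  have hne : r ≠ q := by
    rintro rfl
    have h3 : r ≤ r - 1 := Nat.le_of_dvd (by have := hqp.two_le; omega) hrq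
    have := hqp.two_le
    omega
  exact Nat.Coprime.mul_dvd_of_dvd_of_dvd ((Nat.coprime_primes hr hqp).2 hne) hrm hqm

theorem red : S_RED := by
  classical
  intro n y hn
  have hsub : Sift n y ⊆ CycI n ∪ B1 n y ∪ B2 n y y ((n + 1) ^ 2) := by
    intro m hm
    have hm' := hm
    simp only [Sift, Finset.mem_filter, I, Finset.mem_Ioo] at hm
    obtain ⟨⟨hm1, hm2⟩, hm3⟩ := hm
    have hpos : 0 < m := by omega
    simp only [Finset.mem_union]
    by_cases h1 : Nat.Coprime m (Nat.totient m)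
    · left; left
      simp only [CycI, Finset.mem_filter, I, Finset.mem_Ioo]
      exact ⟨⟨hm1, hm2⟩, hpos, h1⟩
    · by_cases h2 : ∃ p : ℕ, p.Prime ∧ p ^ 2 ∣ m
      · left; right
        simp only [B1, Finset.mem_filter]
        exact ⟨hm', h2⟩
      · right
        simp only [B2, Finset.mem_filter]
        refine ⟨hm', ?_⟩
        push Not at h2
        obtain ⟨p, q, hpq⟩ := exists_bad hpos h2 h1
        have hpm : p ∣ m := (Dvd.intro _ rfl).trans hpq.2.2.2
        refine ⟨p, q, hm3 p hpq.1 hpm, ?_, hpq⟩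
        exact (Nat.le_of_dvd hpos hpm).trans hm2.le
  have h1 := Finset.card_le_card hsub
  have h2 := Finset.card_union_le (CycI n ∪ B1 n y) (B2 n y y ((n + 1) ^ 2))
  have h3 := Finset.card_union_le (CycI n) (B1 n y)
  have h4 : (Sift n y).card ≤ (CycI n).card + (B1 n y).card + (B2 n y y ((n + 1) ^ 2)).card := by
    omega
  exact_mod_cast h4

end Pool.Agent.Helper83.CY.Red
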