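import Pool.Agent.Helper83.CY.Base

/-! # Module SMALL: the bound for small primes -/

set_option autoImplicit false

open Finset

namespace Pool.Agent.Helper83.CY.SMALL

open Classical in
theorem cover (n y p0 R : ℕ) (hy : 3 ≤ y) :
    B2 n y y p0 ⊆ (PP y p0).biUnion (fun p =>
      (ZA n p (((n : ℝ) + 1) / Real.sqrt R) ∪ ZB n p (((n : ℝ) + 1) / Real.sqrt R) ∪
        Mid n p R).image (fun x => x.1 * x.2)) := by
  intro m hm
  unfold B2 Sift at hm
  rw [mem_filter, mem_filter] at hm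
  obtain ⟨⟨hmI, hmy⟩, p, q, hyp, hpp0, hp, hq, hpq, hdvd⟩ := hm
  unfold I at hmI
  rw [mem_Ioo] at hmI
  obtain ⟨hlo, hhi⟩ := hmI
  have hm0 : 0 < m := by
    have := Nat.zero_le (n ^ 2)
    omega
  have h2m : ¬ 2 ∣ m := by
    intro h
    have := hmy 2 Nat.prime_two h
    omega
  have h3m : ¬ 3 ∣ m := by
    intro h
    have := hmy 3 Nat.prime_three h
    omega
  have hp4 : 3 < p := by omega
  obtain ⟨k, hk⟩ := hdvd
  -- l = p * k
  have hml : m = (p * k) * q := by rw [hk]; ring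
  have hqm : q ∣ m := ⟨p * k, by rw [hml]; ring⟩
  have hlm : p * k ∣ m := ⟨q, hml⟩
  have hl2 : ¬ 2 ∣ p * k := fun h => h2m (h.trans hlm)
  have hl3 : ¬ 3 ∣ p * k := fun h => h3m (h.trans hlm)
  have hq2 : ¬ 2 ∣ q := fun h => h2m (h.trans hqm)
  have hq3 : ¬ 3 ∣ q := fun h => h3m (h.trans hqm)
  have hk2 : ¬ 2 ∣ k := fun h => hl2 (h.trans (Dvd.intro_left p rfl))
  have hq1 : 1 < q := hq.one_lt
  have hlpos : 0 < p * k := by
    rcases Nat.eq_zero_or_pos (p * k) with h | h
    · rw [h] at hml; simp at hml; omega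
    · exact h
  have hp2 : ¬ 2 ∣ p := fun h => hl2 (h.trans (Dvd.intro k rfl))
  -- congruences
  have hc1 : p * k ≡ p [MOD 2 * p] := by
    have hk' : k ≡ 1 [MOD 2] := by
      unfold Nat.ModEq
      omega
    have := Nat.ModEq.mul_left' p hk'
    rw [mul_one] at this
    rwa [mul_comm p 2] at this
  have hc2 : q ≡ 1 [MOD 2 * p] := by
    have h2 : 2 ∣ q - 1 := by omega
    have hcop : Nat.Coprime 2 p := by
      rw [Nat.coprime_two_left]
      rcases Nat.even_or_odd p with h | h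
      · exact absurd h.two_dvd hp2
      · exact h
    have h2p : 2 * p ∣ q - 1 := hcop.mul_dvd_of_dvd_of_dvd h2 hpq
    exact ((Nat.modEq_iff_dvd' hq1.le).mpr h2p).symm
  have hPr : (p * k, q) ∈ Pr n p := by
    unfold Pr
    rw [mem_filter, mem_product, mem_range, mem_range]
    have h1 : p * k ≤ m := Nat.le_of_dvd hm0 hlm
    have h2 : q ≤ m := Nat.le_of_dvd hm0 hqm
    refine ⟨⟨by simp only; omega, by simp only; omega⟩, ?_, ?_, hc1, hc2⟩
    · simp only; rw [← hml]; exact hlo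
    · simp only; rw [← hml]; exact hhi
  rw [mem_biUnion]
  refine ⟨p, ?_, ?_⟩
  · unfold PP
    rw [mem_filter, mem_Ioc]
    exact ⟨⟨hyp, hpp0⟩, hp⟩
  · rw [mem_image]
    refine ⟨(p * k, q), ?_, hml.symm⟩
    rw [mem_union, mem_union]
    by_cases hqX : (q : ℝ) ≤ ((n : ℝ) + 1) / Real.sqrt R
    · left; left
      unfold ZA
      rw [mem_filter]
      exact ⟨hPr, hqX, hq1, hq3⟩
    · by_cases hlX : ((p * k : ℕ) : ℝ) ≤ ((n : ℝ) + 1) / Real.sqrt R
      · left; right
        unfold ZB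
        rw [mem_filter]
        exact ⟨hPr, hlX, hl3⟩
      · right
        unfold Mid
        rw [mem_filter]
        push Not at hqX hlX
        exact ⟨hPr, hlX, hqX⟩

open Classical in
theorem small_bd (hm : S_MID) (ha : S_ZA) (hb : S_ZB) : S_SMALL := by
  intro n y p0 R lam hn hy hR hlam hX
  set X : ℝ := ((n : ℝ) + 1) / Real.sqrt R with hXdef
  have hR0 : (0 : ℝ) < R := by exact_mod_cast hR
  have hsR : 0 < Real.sqrt R := Real.sqrt_pos.mpr hR0
  have hX0 : 0 ≤ X := by positivity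
  have h1 : ((B2 n y y p0).card : ℝ) ≤ ∑ p ∈ PP y p0, (((ZA n p X).card : ℝ) +
      ((ZB n p X).card : ℝ) + ((Mid n p R).card : ℝ)) := by
    have h2 := (card_le_card (cover n y p0 R hy)).trans card_biUnion_le
    have h3 : ∀ p ∈ PP y p0, ((ZA n p X ∪ ZB n p X ∪ Mid n p R).image
        (fun x => x.1 * x.2)).card ≤ (ZA n p X).card + (ZB n p X).card + (Mid n p R).card := by
      intro p _
      exact card_image_le.trans ((card_union_le _ _).trans
        (Nat.add_le_add_right (card_union_le _ _) _))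
    have h4 := h2.trans (sum_le_sum h3)
    exact_mod_cast h4
  refine h1.trans ?_
  have h5 : ∀ p ∈ PP y p0, ((ZA n p X).card : ℝ) + ((ZB n p X).card : ℝ) +
      ((Mid n p R).card : ℝ) ≤
      (1 / (p : ℝ) ^ 2) * ((n : ℝ) * (13 / 8 + 2 / 3 * lam) + D0 R * Real.sqrt (2 * n + 1) +
        D1 R * (((n : ℝ) + 1) / (2 * Real.sqrt R))) +
      (1 / (p : ℝ)) * (2 / 3 * X + D0 R * (2 * Real.sqrt R) + D1 R * (2 * Real.sqrt (2 * n + 1)) +
        D1 R * (((n : ℝ) + 1) / (4 * R))) + (4 / 3 + D0 R * 4) := by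
    intro p hp
    unfold PP at hp
    rw [mem_filter, mem_Ioc] at hp
    obtain ⟨⟨hyp, -⟩, hpp⟩ := hp
    have hp5 : 5 ≤ p := by
      have h4 : p ≠ 4 := by rintro rfl; revert hpp; decide
      omega
    have hp1 : 1 ≤ p := by omega
    have hp0 : (0 : ℝ) < p := by exact_mod_cast hp1
    have hXp : X ≤ p * Real.exp lam := by
      refine hX.trans ?_
      apply mul_le_mul_of_nonneg_right _ (Real.exp_pos _).le
      exact_mod_cast hyp.le
    have e1 := ha n p X lam hn hpp hp5 hlam hXp hX0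
    have e2 := hb n p X lam hn hpp hp5 hlam hXp hX0
    have e3 := hm n p R hn hp1 hR
    refine (add_le_add (add_le_add e1 e2) e3).trans (le_of_eq ?_)
    field_simp
    ring
  refine (sum_le_sum h5).trans ?_
  rw [sum_add_distrib, sum_add_distrib, ← sum_mul, ← sum_mul, sum_const, nsmul_eq_mul]
  apply le_of_eq
  unfold small S1 S2 nu
  rw [← hXdef]
  ring

end Pool.Agent.Helper83.CY.SMALL
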