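import Pool.Agent.Helper83.CY.Base

/-! module SQ (helper9) -/

namespace Pool.Agent.Helper83.CY.Sq

open Pool.Agent.Helper83.CY

lemma ap_card (a L r v : ℕ) (hr : 0 < r) :
    (((Finset.Ioc a (a + L)).filter (fun x => x ≡ v [MOD r])).card : ℝ) ≤ (L : ℝ) / r + 1 := by
  have h := Nat.Ioc_filter_modEq_card a (a + L) hr v
  have hrQ : (0 : ℚ) < (r : ℚ) := by exact_mod_cast hr
  have h1 : ((((Finset.Ioc a (a + L)).filter (fun x => x ≡ v [MOD r])).card : ℤ) : ℚ)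
      ≤ (L : ℚ) / r + 1 := by
    rw [h]
    push_cast
    apply max_le
    · have h2 := Int.floor_le (((a : ℚ) + L - v) / r)
      have h3 := Int.lt_floor_add_one (((a : ℚ) - v) / r)
      have h4 : ((a : ℚ) + L - v) / r = ((a : ℚ) - v) / r + (L : ℚ) / r := by
        field_simp
        ring
      rw [h4] at h2
      rw [h4]
      linarith
    · positivity
  have h2 : (((((Finset.Ioc a (a + L)).filter (fun x => x ≡ v [MOD r])).card : ℤ) : ℚ) : ℝ)
      ≤ (((L : ℚ) / r + 1 : ℚ) : ℝ) := by exact_mod_cast h1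
  push_cast at h2
  exact h2

lemma small_card (n p : ℕ) (hp : 1 ≤ p) :
    (((I n).filter (fun m => Odd m ∧ p ^ 2 ∣ m)).card : ℝ) ≤ (n : ℝ) * (1 / (p : ℝ) ^ 2) + 1 := by
  have hsub : (I n).filter (fun m => Odd m ∧ p ^ 2 ∣ m) ⊆
      (Finset.Ioc (n ^ 2) (n ^ 2 + 2 * n)).filter (fun x => x ≡ p ^ 2 [MOD (2 * p ^ 2)]) := by
    intro m hm
    simp only [I, Finset.mem_filter, Finset.mem_Ioo] at hm
    obtain ⟨⟨h1, h2⟩, h3, k, rfl⟩ := hm
    simp only [Finset.mem_filter, Finset.mem_Ioc]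
    refine ⟨⟨h1, by nlinarith⟩, ?_⟩
    have hk : Odd k := (Nat.odd_mul.1 h3).2
    obtain ⟨j, rfl⟩ := hk
    have : p ^ 2 * (2 * j + 1) = p ^ 2 + (2 * p ^ 2) * j := by ring
    rw [this]
    unfold Nat.ModEq
    simp
  have h1 := ap_card (n ^ 2) (2 * n) (2 * p ^ 2) (p ^ 2) (by positivity)
  have h2 : (((I n).filter (fun m => Odd m ∧ p ^ 2 ∣ m)).card : ℝ) ≤
      (((Finset.Ioc (n ^ 2) (n ^ 2 + 2 * n)).filter
        (fun x => x ≡ p ^ 2 [MOD (2 * p ^ 2)])).card : ℝ) := by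
    exact_mod_cast Finset.card_le_card hsub
  refine h2.trans (h1.trans (le_of_eq ?_))
  have hp0 : (p : ℝ) ≠ 0 := by positivity
  push_cast
  field_simp

lemma uniq {n p p' k : ℕ} (hk : 1 ≤ k) (h1 : n ^ 2 < p ^ 2 * k) (h2 : p' ^ 2 * k < (n + 1) ^ 2) :
    p' ≤ p := by
  by_contra hcon
  push Not at hcon
  have h3 : (p + 1) ^ 2 ≤ p' ^ 2 := Nat.pow_le_pow_left hcon 2
  have h4 : n < p * k := by
    have h5 : n ^ 2 < (p * k) ^ 2 := by
      calc n ^ 2 < p ^ 2 * k := h1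
        _ = p ^ 2 * k * 1 := by ring
        _ ≤ p ^ 2 * k * k := Nat.mul_le_mul_left _ hk
        _ = (p * k) ^ 2 := by ring
    exact lt_of_pow_lt_pow_left₀ 2 (Nat.zero_le _) h5
  have h6 : (p + 1) ^ 2 * k ≤ p' ^ 2 * k := Nat.mul_le_mul_right _ h3
  nlinarith

lemma big_card (n Z : ℕ) (hZ : 1 ≤ Z) (T : Finset ℕ)
    (hT : ∀ m ∈ T, m ∈ I n ∧ Odd m ∧ ∃ p : ℕ, Z < p ∧ p ^ 2 ∣ m) :
    (T.card : ℝ) ≤ ((n : ℝ) + 1) ^ 2 / (2 * (Z : ℝ) ^ 2) + 1 := by
  classical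
  have hex : ∀ m : ℕ, ∃ p : ℕ, m ∈ T → (Z < p ∧ p ^ 2 ∣ m) := by
    intro m
    by_cases hm : m ∈ T
    · obtain ⟨_, _, p, hp⟩ := hT m hm
      exact ⟨p, fun _ => hp⟩
    · exact ⟨0, fun h => absurd h hm⟩
  choose f hf using hex
  have hZr : (0 : ℝ) < (Z : ℝ) := by exact_mod_cast hZ
  set N : ℕ := ⌊((n : ℝ) + 1) ^ 2 / (2 * (Z : ℝ) ^ 2)⌋₊ with hN
  have key : ∀ m ∈ T, ∃ j : ℕ, m = f m ^ 2 * (2 * j + 1) ∧ (m / f m ^ 2) / 2 = j := by
    intro m hm
    obtain ⟨h1, h2, _⟩ := hT m hm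
    obtain ⟨h3, k, hk⟩ := hf m hm
    have hk2 : Odd k := by
      rw [hk] at h2
      exact (Nat.odd_mul.1 h2).2
    obtain ⟨j, rfl⟩ := hk2
    refine ⟨j, hk, ?_⟩
    have hpos : 0 < f m ^ 2 := by
      have : 0 < f m := by omega
      positivity
    have : m / f m ^ 2 = 2 * j + 1 := Nat.div_eq_of_eq_mul_right hpos hk
    rw [this]
    omega
  have hcard : T.card ≤ (Finset.range (N + 1)).card := by
    apply Finset.card_le_card_of_injOn (fun m => (m / f m ^ 2) / 2)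
    · intro m hm
      obtain ⟨j, hj1, hj2⟩ := key m hm
      simp only [Finset.coe_range, Set.mem_Iio]
      rw [hj2]
      obtain ⟨h3, _⟩ := hf m hm
      obtain ⟨h1, _, _⟩ := hT m hm
      simp only [I, Finset.mem_Ioo] at h1
      rw [Nat.lt_succ_iff, hN]
      apply Nat.le_floor
      rw [le_div_iff₀ (by positivity)]
      have h5 : Z ^ 2 ≤ f m ^ 2 := Nat.pow_le_pow_left h3.le 2
      have h6 : j * (2 * Z ^ 2) ≤ (n + 1) ^ 2 := by
        calc j * (2 * Z ^ 2) = Z ^ 2 * (2 * j) := by ring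
          _ ≤ f m ^ 2 * (2 * j + 1) := Nat.mul_le_mul h5 (by omega)
          _ = m := hj1.symm
          _ ≤ (n + 1) ^ 2 := h1.2.le
      exact_mod_cast h6
    · intro m hm m' hm' heq
      obtain ⟨j, hj1, hj2⟩ := key m hm
      obtain ⟨j', hj1', hj2'⟩ := key m' hm'
      simp only at heq
      rw [hj2, hj2'] at heq
      subst heq
      obtain ⟨h1, _, _⟩ := hT m hm
      obtain ⟨h1', _, _⟩ := hT m' hm'
      simp only [I, Finset.mem_Ioo] at h1 h1'
      have e1 : f m' ≤ f m := uniq (n := n) (k := 2 * j + 1) (by omega)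
        (by rw [← hj1]; exact h1.1) (by rw [← hj1']; exact h1'.2)
      have e2 : f m ≤ f m' := uniq (n := n) (k := 2 * j + 1) (by omega)
        (by rw [← hj1']; exact h1'.1) (by rw [← hj1]; exact h1.2)
      rw [hj1, hj1', le_antisymm e2 e1]
  rw [Finset.card_range] at hcard
  have h7 : (T.card : ℝ) ≤ (N : ℝ) + 1 := by exact_mod_cast hcard
  have h8 : (N : ℝ) ≤ ((n : ℝ) + 1) ^ 2 / (2 * (Z : ℝ) ^ 2) := Nat.floor_le (by positivity)
  linarith

theorem sq : S_SQ := by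
  classical
  intro n y Z hn hy hyZ
  set T : Finset ℕ := (B1 n y).filter (fun m => ∃ p : ℕ, Z < p ∧ p ^ 2 ∣ m) with hTdef
  have hodd : ∀ m ∈ Sift n y, Odd m := by
    intro m hm
    simp only [Sift, Finset.mem_filter] at hm
    by_contra h
    rw [Nat.not_odd_iff_even] at h
    have := hm.2 2 Nat.prime_two h.two_dvd
    omega
  have hsub : B1 n y ⊆ ((PP y Z).biUnion (fun p => (I n).filter (fun m => Odd m ∧ p ^ 2 ∣ m))) ∪ T := by
    intro m hm
    have hm0 := hm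
    simp only [B1, Finset.mem_filter] at hm
    obtain ⟨h1, p, hp, hpm⟩ := hm
    have h1' := h1
    simp only [Sift, Finset.mem_filter] at h1'
    have hyp : y < p := h1'.2 p hp ((dvd_pow_self p two_ne_zero).trans hpm)
    rw [Finset.mem_union]
    by_cases hpZ : p ≤ Z
    · left
      simp only [Finset.mem_biUnion, PP, Finset.mem_filter, Finset.mem_Ioc]
      exact ⟨p, ⟨⟨hyp, hpZ⟩, hp⟩, h1'.1, hodd m h1, hpm⟩
    · right
      simp only [hTdef, Finset.mem_filter]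
      exact ⟨hm0, p, by omega, hpm⟩
  have h1 : (B1 n y).card ≤
      (∑ p ∈ PP y Z, ((I n).filter (fun m => Odd m ∧ p ^ 2 ∣ m)).card) + T.card :=
    (Finset.card_le_card hsub).trans ((Finset.card_union_le _ _).trans
      (Nat.add_le_add_right Finset.card_biUnion_le _))
  have h2 : ((B1 n y).card : ℝ) ≤
      (∑ p ∈ PP y Z, (((I n).filter (fun m => Odd m ∧ p ^ 2 ∣ m)).card : ℝ)) + (T.card : ℝ) := by
    exact_mod_cast h1
  have h3 : ∑ p ∈ PP y Z, (((I n).filter (fun m => Odd m ∧ p ^ 2 ∣ m)).card : ℝ) ≤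
      (n : ℝ) * S2 y Z + nu y Z := by
    calc ∑ p ∈ PP y Z, (((I n).filter (fun m => Odd m ∧ p ^ 2 ∣ m)).card : ℝ)
        ≤ ∑ p ∈ PP y Z, ((n : ℝ) * (1 / (p : ℝ) ^ 2) + 1) := by
          apply Finset.sum_le_sum
          intro p hp
          simp only [PP, Finset.mem_filter] at hp
          exact small_card n p hp.2.one_lt.le
      _ = (n : ℝ) * S2 y Z + nu y Z := by
          rw [Finset.sum_add_distrib, ← Finset.mul_sum, Finset.sum_const, nsmul_eq_mul, mul_one]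
          rfl
  have h4 : (T.card : ℝ) ≤ ((n : ℝ) + 1) ^ 2 / (2 * (Z : ℝ) ^ 2) + 1 := by
    apply big_card n Z (by omega) T
    intro m hm
    simp only [hTdef, Finset.mem_filter, B1] at hm
    obtain ⟨⟨h5, _⟩, h6⟩ := hm
    refine ⟨?_, hodd m h5, h6⟩
    simp only [Sift, Finset.mem_filter] at h5
    exact h5.1
  linarith

end Pool.Agent.Helper83.CY.Sq
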