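import Pool.Agent.Helper83.CY.TailDefs

set_option autoImplicit false

open Finset

namespace Pool.Agent.Helper83.CY.T1

theorem PP_mono {a b b' : ℕ} (h : b ≤ b') : PP a b ⊆ PP a b' := by
  intro p hp
  rw [PP, mem_filter, mem_Ioc] at hp ⊢
  exact ⟨⟨hp.1.1, hp.1.2.trans h⟩, hp.2⟩

theorem S2_mono {a b b' : ℕ} (h : b ≤ b') : S2 a b ≤ S2 a b' := by
  rw [S2, S2]
  exact sum_le_sum_of_subset_of_nonneg (PP_mono h) fun i _ _ => by positivity

theorem S2_split {a b c : ℕ} (hab : a ≤ b) (hbc : b ≤ c) : S2 a c = S2 a b + S2 b c := by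
  rw [S2, S2, S2, ← sum_union]
  · refine sum_congr ?_ fun _ _ => rfl
    ext p
    simp only [PP, mem_union, mem_filter, mem_Ioc]
    constructor
    · rintro ⟨⟨h1, h2⟩, h3⟩
      rcases le_or_gt p b with h | h
      · exact Or.inl ⟨⟨h1, h⟩, h3⟩
      · exact Or.inr ⟨⟨h, h2⟩, h3⟩
    · rintro (⟨⟨h1, h2⟩, h3⟩ | ⟨⟨h1, h2⟩, h3⟩)
      · exact ⟨⟨h1, h2.trans hbc⟩, h3⟩
      · exact ⟨⟨lt_of_le_of_lt hab h1, h2⟩, h3⟩
  · rw [Finset.disjoint_left]
    intro p hp hp'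
    rw [PP, mem_filter, mem_Ioc] at hp hp'
    exact absurd hp.1.2 (not_le.2 hp'.1.1)

/-- the tail of `S2` from a value at `20000` -/
theorem S2_bound (hNT : S_NT) {y : ℕ} {s t : ℝ} (hy : y ≤ 20000) (hs : S2 y 20000 ≤ s)
    (ht : s + 1 / (3 * 19997) ≤ t) (Z : ℕ) : S2 y Z ≤ t := by
  rcases le_or_gt Z 20000 with h | h
  · have h1 := S2_mono (a := y) h
    have h2 : (0 : ℝ) ≤ 1 / (3 * 19997) := by norm_num
    linarith
  · rw [S2_split hy h.le]
    have h1 := (hNT 20000 Z (by norm_num) h.le).1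
    have h2 : (0 : ℝ) ≤ 1 / ((Z : ℝ) + 4) := by positivity
    have h3 : (1 : ℝ) / 3 * (1 / (((20000 : ℕ) : ℝ) - 3) - 1 / ((Z : ℝ) + 4)) ≤ 1 / (3 * 19997) := by
      push_cast
      have : (1 : ℝ) / (20000 - 3) = 1 / 19997 := by norm_num
      rw [this]
      have h4 : (1 : ℝ) / (3 * 19997) = 1 / 3 * (1 / 19997) := by norm_num
      rw [h4]
      nlinarith
    linarith

theorem t1 (hTA : S_TA) (h1 : S_OB1) (h2 : S_OB2) (hE : S_E0) (hNT : S_NT) (hV : S_CV)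
    (hP : S_CP) : S_T1 := by
  intro n c hn hc hcn hnc hw
  obtain ⟨-, -, -, -, ⟨hV1, hV2⟩, -⟩ := hV
  obtain ⟨-, -, -, -, -, -, ⟨-, hP2, -⟩, -⟩ := hP
  obtain ⟨e0, he1, he2⟩ := hE c 151 hc (by norm_num)
  have hnr : (10 : ℝ) ^ 14 ≤ n := by exact_mod_cast hn
  have hsig : ∀ Z, S2 151 Z ≤ 0.0010745 := fun Z =>
    S2_bound hNT (by norm_num) hP2 (by norm_num) Z
  have hcr : (46415 : ℝ) ≤ c := by exact_mod_cast hc
  have key := hTA n c 151 e0 (1098853 / 10 ^ 7) 0.0010745 (20 * n) 20 (2 ^ e0) hc hcn hnc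
    (by norm_num) (by omega) hV1 hsig (by norm_num) (by linarith) le_rfl
    (by linarith) he1 le_rfl
  have hcard : (2 : ℝ) ^ ((PP 0 151).card) ≤ 68719476736 := by
    rw [hV2]
    norm_num
  have hE0 : (0 : ℝ) ≤ 2 ^ e0 := by positivity
  set w := Real.log c with hwdef
  have hratio : (n : ℝ) / (20 * n) = 1 / 20 := by
    have : (0 : ℝ) < n := by linarith
    field_simp
  rw [hratio] at key
  have hO : O n c w (3.7727 + w) ((w - 4.8) / 3) (Real.sqrt c) 0.0010745 20 (2 ^ e0) +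
      0.0010745 * (1 + 13 / 8 + 5 / 3 * w + 1.0001 * (3.7727 + w)) ≤ 0.177 := by
    rcases le_or_gt w 30 with h | h
    · have h3 := h1 n c 0.0010745 20 (2 ^ e0) hc hcn hnc (by norm_num) (by norm_num)
        (by norm_num) le_rfl hE0 he2
      rw [← hwdef] at h3
      linarith only [h3, h]
    · have h3 := h2 n c 0.0010745 20 (2 ^ e0) h.le hcn hnc (by norm_num) (by norm_num)
        (by norm_num) (by linarith) hE0 he2
      rw [← hwdef] at h3
      have h4 : 1 / w ^ 2 ≤ 1 / 900 := by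
        refine one_div_le_one_div_of_le (by norm_num) ?_
        nlinarith only [h]
      linarith only [h3, h4, hw]
  have hfin : (2 : ℝ) ≤ ((CycI n).card : ℝ) := by
    refine le_trans ?_ key
    have h5 : (0.009 : ℝ) ≤ 2 * (1098853 / 10 ^ 7)
        - 0.0010745 * (1 + 13 / 8 + 5 / 3 * w + 1.0001 * (3.7727 + w))
        - O n c w (3.7727 + w) ((w - 4.8) / 3) (Real.sqrt c) 0.0010745 20 (2 ^ e0)
        - 0.66674 * (1 / 20) := by
      linarith only [hO]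
    have h6 : (10 : ℝ) ^ 14 * 0.009 ≤ (n : ℝ) * (2 * (1098853 / 10 ^ 7)
        - 0.0010745 * (1 + 13 / 8 + 5 / 3 * w + 1.0001 * (3.7727 + w))
        - O n c w (3.7727 + w) ((w - 4.8) / 3) (Real.sqrt c) 0.0010745 20 (2 ^ e0)
        - 0.66674 * (1 / 20)) :=
      mul_le_mul hnr h5 (by norm_num) (le_trans (by norm_num) hnr)
    have h7 : (2 : ℝ) + 68719476736 ≤ (10 : ℝ) ^ 14 * 0.009 := by norm_num
    linarith only [h6, h7, hcard]
  exact_mod_cast hfin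

end Pool.Agent.Helper83.CY.T1
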