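import Pool.Agent.Helper83.CY.TailDefs

/-! module T2: the part `48 ≤ log c ≤ 280` of the tail -/

namespace Pool.Agent.Helper83.CY.T2

open Pool.Agent.Helper83.CY

theorem S2_mono {a b c : ℕ} (h : b ≤ c) : S2 a b ≤ S2 a c := by
  unfold S2
  refine Finset.sum_le_sum_of_subset_of_nonneg ?_ (fun _ _ _ => by positivity)
  intro x hx
  simp only [PP, Finset.mem_filter, Finset.mem_Ioc] at hx ⊢
  exact ⟨⟨hx.1.1, hx.1.2.trans h⟩, hx.2⟩

theorem S2_split {a b c : ℕ} (hab : a ≤ b) (hbc : b ≤ c) : S2 a c = S2 a b + S2 b c := by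
  have h1 : PP a c = PP a b ∪ PP b c := by
    ext x
    simp only [PP, Finset.mem_filter, Finset.mem_union, Finset.mem_Ioc]
    constructor
    · rintro ⟨⟨h1, h2⟩, h3⟩
      rcases le_or_gt x b with h | h
      · exact Or.inl ⟨⟨h1, h⟩, h3⟩
      · exact Or.inr ⟨⟨h, h2⟩, h3⟩
    · rintro (⟨⟨h1, h2⟩, h3⟩ | ⟨⟨h1, h2⟩, h3⟩)
      · exact ⟨⟨h1, h2.trans hbc⟩, h3⟩
      · exact ⟨⟨lt_of_le_of_lt hab h1, h2⟩, h3⟩
  have h2 : Disjoint (PP a b) (PP b c) := by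
    rw [Finset.disjoint_left]
    intro x h1 h2
    simp only [PP, Finset.mem_filter, Finset.mem_Ioc] at h1 h2
    omega
  unfold S2
  rw [h1, Finset.sum_union h2]

theorem sig_le (hNT : S_NT) (hP : S_CP) (Z : ℕ) : S2 1021 Z ≤ 0.0001352 := by
  have hp : S2 1021 20000 ≤ (11850 : ℝ) / 10 ^ 8 := hP.2.2.2.2.2.2.2.1.2.1
  rcases le_total Z 20000 with h | h
  · have h1 := S2_mono (a := 1021) h
    have h2 : (11850 : ℝ) / 10 ^ 8 ≤ 0.0001352 := by norm_num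
    linarith
  · rw [S2_split (by norm_num : (1021 : ℕ) ≤ 20000) h]
    obtain ⟨h1, -, -⟩ := hNT 20000 Z (by norm_num) h
    have h3 : 0 ≤ 1 / ((Z : ℝ) + 4) := by positivity
    have h4 : 1 / 3 * (1 / (((20000 : ℕ) : ℝ) - 3) - 1 / ((Z : ℝ) + 4)) ≤ 1 / 3 * (1 / 19997) := by
      have : ((20000 : ℕ) : ℝ) - 3 = 19997 := by norm_num
      rw [this]
      linarith
    have h5 : (11850 : ℝ) / 10 ^ 8 + 1 / 3 * (1 / 19997) ≤ 0.0001352 := by norm_num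
    linarith

theorem br {w Ov : ℝ} (h1 : 48 ≤ w) (h2 : w ≤ 280) (hO : Ov ≤ 1 / w ^ 2) :
    (0.02 : ℝ) ≤ 2 * ((806468 : ℝ) / 10 ^ 7)
      - 0.0001352 * (1 + 13 / 8 + 5 / 3 * w + 1.0001 * (3.7727 + w))
      - Ov - 0.66674 * (1 / 20) := by
  have hOw : 1 / w ^ 2 ≤ 1 / 2304 := by
    apply one_div_le_one_div_of_le (by norm_num)
    nlinarith
  have e1 : (0.0001352 : ℝ) * (1 + 13 / 8 + 5 / 3 * w + 1.0001 * (3.7727 + w)) ≤ 0.1019 := by
    linarith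
  have e2 : Ov ≤ 0.0005 := by
    refine (hO.trans hOw).trans ?_
    norm_num
  norm_num at e1 e2 ⊢
  linarith

theorem big {c n : ℕ} (hc : 46415 ≤ c) (hc1 : c ^ 3 ≤ n) (hw1 : 48 ≤ Real.log c) :
    (2 : ℝ) ^ 180 ≤ n := by
  have hcpos : (0 : ℝ) < c := by
    have : (0 : ℕ) < c := by omega
    exact_mod_cast this
  have e1 : (c : ℝ) ^ 3 ≤ n := by exact_mod_cast hc1
  have e2 : Real.exp (Real.log c) = c := Real.exp_log hcpos
  have e3 : Real.exp 48 ≤ c := by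
    rw [← e2]
    exact Real.exp_le_exp.2 hw1
  have e4 : (2.7 : ℝ) ^ 48 ≤ Real.exp 48 := by
    have : Real.exp 48 = Real.exp 1 ^ 48 := by
      rw [← Real.exp_nat_mul]
      norm_num
    rw [this]
    exact pow_le_pow_left₀ (by norm_num) (by linarith [Real.exp_one_gt_d9]) 48
  have e5 : (2 : ℝ) ^ 60 ≤ c := le_trans (le_trans (by norm_num) e4) e3
  calc (2 : ℝ) ^ 180 = ((2 : ℝ) ^ 60) ^ 3 := by norm_num
    _ ≤ (c : ℝ) ^ 3 := pow_le_pow_left₀ (by positivity) e5 3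
    _ ≤ n := e1

theorem fin_aux {x y z : ℝ} (h1 : (2 : ℝ) ^ 180 ≤ x) (h2 : 0.02 ≤ y) (h3 : x * y - 2 ^ 172 ≤ z) :
    2 ≤ z := by
  have e0 : (0 : ℝ) ≤ x := le_trans (by positivity) h1
  have e1 : x * 0.02 ≤ x * y := mul_le_mul_of_nonneg_left h2 e0
  have e3 : (2 : ℝ) ^ 180 * 0.02 ≤ x * 0.02 := mul_le_mul_of_nonneg_right h1 (by norm_num)
  have e2 : (2 : ℝ) + 2 ^ 172 ≤ (2 : ℝ) ^ 180 * 0.02 := by norm_num
  have e4 : (2 : ℝ) + 2 ^ 172 ≤ x * y := e2.trans (e3.trans e1)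
  have e5 : (2 : ℝ) ≤ x * y - 2 ^ 172 := le_sub_iff_add_le.2 e4
  exact e5.trans h3

theorem t2 (hTA : S_TA) (_h1 : S_OB1) (h2 : S_OB2) (hE : S_E0) (hNT : S_NT) (hV : S_CV)
    (hP : S_CP) : S_T2 := by
  intro n c hn hc hc1 hc2 hw1 hw2
  obtain ⟨e0, he1, he2⟩ := hE c 1021 hc (by norm_num)
  have hv : (806468 : ℝ) / 10 ^ 7 ≤ V 1021 ∧ (PP 0 1021).card = 172 := hV.2.2.2.2.2.1
  have hn0 : (10 : ℝ) ^ 14 ≤ n := by exact_mod_cast hn
  have hnpos : (0 : ℝ) < n := lt_of_lt_of_le (by norm_num) hn0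
  have hO := h2 n c 0.0001352 20 (2 ^ e0) (by linarith) hc1 hc2 (by norm_num) (by norm_num)
    (by norm_num) (by linarith) (by positivity) he2
  have key := hTA n c 1021 e0 ((806468 : ℝ) / 10 ^ 7) 0.0001352 (20 * n) 20 (2 ^ e0) hc hc1 hc2
    (by norm_num) (by omega) hv.1 (sig_le hNT hP) (by norm_num) (by linarith) le_rfl
    (by linarith) he1 le_rfl
  rw [hv.2] at key
  have hdiv : (n : ℝ) / (20 * n) = 1 / 20 := by
    clear key
    field_simp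
  rw [hdiv] at key
  have hfin : (2 : ℝ) ≤ ((CycI n).card : ℝ) := fin_aux (big hc hc1 hw1) (br hw1 hw2 hO) key
  exact_mod_cast hfin

end Pool.Agent.Helper83.CY.T2
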