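import Pool.Agent.Helper83.CY.TailDefs

set_option autoImplicit false

open Finset

namespace Pool.Agent.Helper83.CY.T4

/-- the number of primes up to `y` -/
theorem card_PP (hNT : S_NT) {y : ℕ} (hy : 6 ≤ y) : ((PP 0 y).card : ℝ) ≤ (y : ℝ) / 3 + 3 := by
  have h1 := (hNT 6 y le_rfl hy).2.1
  have h2 : (PP 0 y).card ≤ 3 + (PP 6 y).card := by
    have hsub : PP 0 y ⊆ ({2, 3, 5} : Finset ℕ) ∪ PP 6 y := by
      intro p hp
      simp only [PP, mem_filter, mem_Ioc] at hp
      simp only [PP, mem_union, mem_filter, mem_Ioc, mem_insert, mem_singleton]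
      rcases le_or_gt p 6 with h | h
      · left
        obtain ⟨⟨h0, -⟩, hpp⟩ := hp
        interval_cases p <;> first | decide | (exfalso; revert hpp; norm_num)
      · exact Or.inr ⟨⟨h, hp.1.2⟩, hp.2⟩
    calc (PP 0 y).card ≤ (({2, 3, 5} : Finset ℕ) ∪ PP 6 y).card := card_le_card hsub
      _ ≤ ({2, 3, 5} : Finset ℕ).card + (PP 6 y).card := card_union_le _ _
      _ = 3 + (PP 6 y).card := by rfl
  have h3 : ((PP 0 y).card : ℝ) ≤ 3 + ((PP 6 y).card : ℝ) := by exact_mod_cast h2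
  unfold nu at h1
  push_cast at h1
  linarith

theorem log_le {w : ℝ} (hw : 700 ≤ w) : Real.log (12 * w) ≤ 0.02 * w := by
  -- log (12 w) = log 8400 + log (w/700) <= 9.1 + w/700 - 1
  have h1 : Real.log (12 * w) = Real.log 8400 + Real.log (w / 700) := by
    rw [← Real.log_mul (by norm_num) (by positivity)]
    congr 1
    ring
  have h2 : Real.log (w / 700) ≤ w / 700 - 1 := Real.log_le_sub_one_of_pos (by positivity)
  have h3 : Real.log 8400 ≤ 9.8 := by
    have : Real.log 8400 ≤ Real.log (2 ^ 14) := Real.log_le_log (by norm_num) (by norm_num)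
    rw [Real.log_pow] at this
    have h4 := Real.log_two_lt_d9
    push_cast at this
    linarith
  rw [h1]
  linarith

theorem exp_ineq {w : ℝ} (hw : 700 ≤ w) :
    2 + Real.exp (2.7726 * w + 2.08) ≤ Real.exp (3 * w) * (8 / w) := by
  have h1 : Real.exp (3 * w) = Real.exp (2.7726 * w + 2.08) * Real.exp (0.2274 * w - 2.08) := by
    rw [← Real.exp_add]
    congr 1
    ring
  have h2 : 1 + (0.2274 * w - 2.08) + (0.2274 * w - 2.08) ^ 2 / 2 ≤
      Real.exp (0.2274 * w - 2.08) :=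
    Real.quadratic_le_exp_of_nonneg (by linarith)
  have h3 : w ≤ Real.exp (0.2274 * w - 2.08) := by
    refine le_trans ?_ h2
    nlinarith
  have h4 : 1 ≤ Real.exp (2.7726 * w + 2.08) := Real.one_le_exp (by linarith)
  have h5 : Real.exp (2.7726 * w + 2.08) * w ≤ Real.exp (3 * w) := by
    rw [h1]
    exact mul_le_mul_of_nonneg_left h3 (by linarith)
  have hw0 : 0 < w := by linarith
  calc 2 + Real.exp (2.7726 * w + 2.08) ≤ Real.exp (2.7726 * w + 2.08) * 8 := by linarith
    _ = Real.exp (2.7726 * w + 2.08) * w * (8 / w) := by field_simp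
    _ ≤ _ := mul_le_mul_of_nonneg_right h5 (by positivity)

theorem t4 (hTA : S_TA) (h2 : S_OB2) (hE : S_E0) (hNT : S_NT) (hC : S_CHEB) : S_T4 := by
  intro n c hn hc hcn hnc hw
  obtain ⟨hC1, hC2⟩ := hC
  have hcr : (46415 : ℝ) ≤ c := by exact_mod_cast hc
  have hnr : (10 : ℝ) ^ 14 ≤ n := by exact_mod_cast hn
  obtain ⟨y, hydef⟩ : ∃ y : ℕ, y = ⌊12 * Real.log c⌋₊ := ⟨_, rfl⟩
  have hexpc : Real.exp (Real.log c) = c := Real.exp_log (by linarith)
  have hcub : Real.exp (3 * Real.log c) ≤ n := by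
    have : Real.exp (3 * Real.log c) = (c : ℝ) ^ 3 := by
      rw [show 3 * Real.log (c : ℝ) = ((3 : ℕ) : ℝ) * Real.log c by norm_num, Real.exp_nat_mul,
        hexpc]
    rw [this]
    exact_mod_cast hcn
  have hcw : 12 * Real.log c ≤ c := by
    have h3 := Real.quadratic_le_exp_of_nonneg (show 0 ≤ Real.log (c : ℝ) by linarith)
    rw [hexpc] at h3
    nlinarith
  have hy1 : (y : ℝ) ≤ 12 * Real.log c := by
    rw [hydef]
    exact Nat.floor_le (by linarith)
  have hy2 : 12 * Real.log c - 1 ≤ y := by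
    have := Nat.lt_floor_add_one (12 * Real.log (c : ℝ))
    rw [← hydef] at this
    linarith
  have hy3 : 5003 ≤ y := by
    have : (5003 : ℝ) ≤ y := by linarith
    exact_mod_cast this
  have hyc : y ≤ c := by
    have : (y : ℝ) ≤ c := by linarith
    exact_mod_cast this
  obtain ⟨e0, he1, he2⟩ := hE c y hc (by omega)
  have hyr : (8399 : ℝ) ≤ y := by linarith
  have hwn : Real.log c ≤ n := by
    have h3 : (c : ℝ) ≤ (c : ℝ) ^ 3 := by
      have : (1 : ℝ) ≤ (c : ℝ) ^ 2 := one_le_pow₀ (by linarith)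
      nlinarith
    have h4 : (c : ℝ) ^ 3 ≤ n := by exact_mod_cast hcn
    linarith
  have hL1 : 1 ≤ Real.log y := by
    rw [Real.le_log_iff_exp_le (by linarith)]
    have := Real.exp_one_lt_d9
    linarith
  have hL2 : Real.log y ≤ 0.02 * Real.log c :=
    (Real.log_le_log (by linarith) hy1).trans (log_le hw)
  have hcard := card_PP hNT (show 6 ≤ y by omega)
  have hpow : (2 : ℝ) ^ ((PP 0 y).card) ≤ Real.exp (2.7726 * Real.log c + 2.08) := by
    have h3 : (2 : ℝ) ^ ((PP 0 y).card) = Real.exp (((PP 0 y).card : ℝ) * Real.log 2) := by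
      rw [Real.exp_nat_mul, Real.exp_log (by norm_num)]
    rw [h3]
    refine Real.exp_le_exp.2 ?_
    have h4 := Real.log_two_lt_d9
    have h5 := Real.log_two_gt_d9
    have h6 : ((PP 0 y).card : ℝ) ≤ 4 * Real.log c + 3 := by linarith
    nlinarith
  have hnG : (n : ℝ) ≤ n * Real.log c := by nlinarith
  have hsig0 : (0 : ℝ) ≤ 2.8 / ((y : ℝ) * Real.log y) := by positivity
  have key := hTA n c y e0 (0.45 / Real.log y) (2.8 / ((y : ℝ) * Real.log y)) (n * Real.log c)
    (Real.log c) (2 ^ e0) hc hcn hnc (by omega) hyc (hC1 y hy3) (fun Z => hC2 y Z hy3) hsig0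
    hnG (le_of_eq (mul_comm _ _)) hwn he1 le_rfl
  have hE0 : (0 : ℝ) ≤ 2 ^ e0 := by positivity
  have hsig1 : 2.8 / ((y : ℝ) * Real.log y) ≤ 0.0011 := by
    rw [div_le_iff₀ (by positivity)]
    nlinarith
  have hO := h2 n c (2.8 / ((y : ℝ) * Real.log y)) (Real.log c) (2 ^ e0) (by linarith) hcn hnc
    hsig0 hsig1 (by linarith) (by linarith) hE0 he2
  set w := Real.log c with hwdef
  set L := Real.log y with hLdef
  set Ov := O n c w (3.7727 + w) ((w - 4.8) / 3) (Real.sqrt c) (2.8 / ((y : ℝ) * L)) w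
    (2 ^ e0) with hOv
  have hw0 : 0 < w := by linarith
  have hn0 : (0 : ℝ) < n := by linarith
  have hratio : (n : ℝ) / (n * w) = 1 / w := by
    field_simp
  rw [hratio] at key
  -- sig * (...) <= 0.63 / L
  have hs : 2.8 / ((y : ℝ) * L) * (1 + 13 / 8 + 5 / 3 * w + 1.0001 * (3.7727 + w)) ≤ 0.63 / L := by
    rw [div_mul_eq_mul_div, div_le_div_iff₀ (by positivity) (by positivity)]
    have h3 : 2.8 * (1 + 13 / 8 + 5 / 3 * w + 1.0001 * (3.7727 + w)) ≤ 0.63 * y := by
      linarith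
    nlinarith
  have hOw : 1 / w ^ 2 ≤ 1 / w := by
    refine one_div_le_one_div_of_le hw0 ?_
    nlinarith
  have hLw : 13.5 / w ≤ 0.27 / L := by
    rw [div_le_div_iff₀ hw0 (by positivity)]
    linarith
  have h8 : 8 / w ≤ 2 * (0.45 / L)
      - 2.8 / ((y : ℝ) * L) * (1 + 13 / 8 + 5 / 3 * w + 1.0001 * (3.7727 + w)) - Ov
      - 0.66674 * (1 / w) := by
    have e1 : 2 * (0.45 / L) = 0.63 / L + 0.27 / L := by ring
    have e2 : 8 / w = 8 * (1 / w) := by ring
    have e3 : 13.5 / w = 13.5 * (1 / w) := by ring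
    have e4 : 0 < 1 / w := by positivity
    rw [e3] at hLw
    rw [e1, e2]
    linarith
  have hfin : (2 : ℝ) ≤ ((CycI n).card : ℝ) := by
    refine le_trans ?_ key
    have h9 : Real.exp (3 * w) * (8 / w) ≤ (n : ℝ) * (2 * (0.45 / L)
      - 2.8 / ((y : ℝ) * L) * (1 + 13 / 8 + 5 / 3 * w + 1.0001 * (3.7727 + w)) - Ov
      - 0.66674 * (1 / w)) :=
      mul_le_mul hcub h8 (by positivity) hn0.le
    have h10 := exp_ineq hw
    linarith
  exact_mod_cast hfin

end Pool.Agent.Helper83.CY.T4
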