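import Pool.Agent.Helper83.CY.TailDefs

namespace Pool.Agent.Helper83.CY.Tail

open Pool.Agent.Helper83.CY

theorem tail (hC : S_CUBE) (t1 : S_T1) (t2 : S_T2) (t3 : S_T3) (t4 : S_T4) : S_TAIL := by
  intro n hn
  obtain ⟨c, hc, h1, h2⟩ := hC n hn
  rcases le_or_gt (Real.log c) 50 with h | h
  · exact t1 n c hn hc h1 h2 h
  rcases le_or_gt (Real.log c) 280 with h' | h'
  · exact t2 n c hn hc h1 h2 (by linarith) h'
  rcases le_or_gt (Real.log c) 820 with h'' | h''
  · exact t3 n c hn hc h1 h2 (by linarith) h''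
  · exact t4 n c hn hc h1 h2 (by linarith)

end Pool.Agent.Helper83.CY.Tail
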