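import Pool.Agent.Helper83.CY.TailDefs

namespace Pool.Agent.Helper83.CY.TailA

open Pool.Agent.Helper83.CY

lemma log16 : Real.log 16 ≤ 2.7727 := by
  have h : (16 : ℝ) = 2 ^ 4 := by norm_num
  rw [h, Real.log_pow]
  have := Real.log_two_lt_d9
  push_cast
  linarith

lemma log124 : (4.81 : ℝ) ≤ Real.log 124 := by
  have h1 : Real.log 124 = Real.log 128 - Real.log (32 / 31) := by
    rw [← Real.log_div (by norm_num) (by norm_num)]
    norm_num
  have h2 : (128 : ℝ) = 2 ^ 7 := by norm_num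
  have h3 : Real.log (32 / 31) ≤ 32 / 31 - 1 := Real.log_le_sub_one_of_pos (by norm_num)
  have h4 := Real.log_two_gt_d9
  rw [h1, h2, Real.log_pow]
  push_cast
  linarith

/-- first evaluation: the analytic core with the parameters of the tail -/
theorem stepA (hAC : S_AC) (n c y e0 : ℕ) (G : ℝ)
    (hc0 : 46415 ≤ c) (h1 : c ^ 3 ≤ n) (h2 : n < (c + 1) ^ 3) (hy1 : 127 ≤ y) (hyc : y ≤ c)
    (hG1 : (n : ℝ) ≤ G) (hG2 : G ≤ (n : ℝ) * n)
    (he0 : (c + 1) ^ 4 ≤ (y + 1) ^ (e0 + 1)) :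
    2 * (n : ℝ) * V y - 2 ^ ((PP 0 y).card)
    - ((n : ℝ) * S2 y (c ^ 2) + nu y (c ^ 2) + ((n : ℝ) + 1) ^ 2 / (2 * (c : ℝ) ^ 4) + 1)
    - small n y (c + 1) (16 * c) (5 / 2 * Real.log c)
    - (2 ^ e0 * ((2 * (n : ℝ) + 1 + G) / 2 * S2 (c + 1) (c ^ 2) + nu (c + 1) (c ^ 2)))
    - 2 * ((n : ℝ) / ((c : ℝ) + 1) * (1 / 2 * Real.log (((n : ℝ) + 1) ^ 2 / G))
        + ((n : ℝ) + 1) ^ 2 / G / 3 + 1)
    - ((n : ℝ) + 1) ^ 2 / (c : ℝ) ^ 4 / 2
        * (1 + 1 / 2 * Real.log (((n : ℝ) + 1) ^ 2 / (c : ℝ) ^ 4))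
    ≤ ((CycI n).card : ℝ) := by
  have hcR : (46415 : ℝ) ≤ c := by exact_mod_cast hc0
  have hc2 : c + 1 ≤ c ^ 2 := by nlinarith
  have hc3 : c ^ 2 ≤ n + 1 := by
    have : c ^ 2 ≤ c ^ 3 := Nat.pow_le_pow_right (by omega) (by norm_num)
    omega
  have hn1 : n + 1 ≤ (c + 1) ^ 3 := h2
  have hnR : ((n : ℝ) + 1) ≤ ((c : ℝ) + 1) ^ 3 := by exact_mod_cast hn1
  have hn0 : (0 : ℝ) < n := by
    have : 0 < n := lt_of_lt_of_le (by positivity) h1
    exact_mod_cast this
  have hG0 : 0 < G := lt_of_lt_of_le hn0 hG1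
  have hee : (n + 1) ^ 2 ≤ (y + 1) ^ (e0 + 1) * (c + 1) ^ 2 := by
    calc (n + 1) ^ 2 ≤ ((c + 1) ^ 3) ^ 2 := Nat.pow_le_pow_left hn1 2
      _ = (c + 1) ^ 4 * (c + 1) ^ 2 := by ring
      _ ≤ _ := Nat.mul_le_mul_right _ he0
  have hee2 : (n + 1) ^ 2 ≤ (y + 1) ^ (e0 + 1) * (c ^ 2) ^ 2 := by
    refine hee.trans (Nat.mul_le_mul_left _ ?_)
    exact Nat.pow_le_pow_left hc2 2
  have hlamX : ((n : ℝ) + 1) / Real.sqrt ((16 * c : ℕ) : ℝ) ≤
      y * Real.exp (5 / 2 * Real.log c) := by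
    have e1 : Real.exp (5 / 2 * Real.log c) = (c : ℝ) ^ 2 * Real.sqrt c := by
      have : (5 / 2 * Real.log c) = 2 * Real.log c + 1 / 2 * Real.log c := by ring
      rw [this, Real.exp_add]
      have a1 : Real.exp (2 * Real.log c) = (c : ℝ) ^ 2 := by
        have : (2 : ℝ) * Real.log c = Real.log ((c : ℝ) ^ 2) := by
          rw [Real.log_pow]; norm_num
        rw [this, Real.exp_log (by positivity)]
      have a2 : Real.exp (1 / 2 * Real.log c) = Real.sqrt c := by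
        have : (1 / 2 : ℝ) * Real.log c = Real.log (Real.sqrt c) := by
          rw [Real.log_sqrt (by positivity)]; ring
        rw [this, Real.exp_log (Real.sqrt_pos.mpr (by positivity))]
      rw [a1, a2]
    have e2 : Real.sqrt ((16 * c : ℕ) : ℝ) = 4 * Real.sqrt c := by
      push_cast
      rw [Real.sqrt_mul (by norm_num)]
      congr 1
      rw [show (16 : ℝ) = 4 ^ 2 by norm_num, Real.sqrt_sq (by norm_num)]
    rw [e1, e2]
    have hq : 0 < Real.sqrt c := Real.sqrt_pos.mpr (by linarith)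
    have hqq : Real.sqrt c * Real.sqrt c = c := Real.mul_self_sqrt (by linarith)
    rw [div_le_iff₀ (by positivity)]
    have hyR : (127 : ℝ) ≤ y := by exact_mod_cast hy1
    have : (y : ℝ) * ((c : ℝ) ^ 2 * Real.sqrt c) * (4 * Real.sqrt c) =
        4 * y * (c : ℝ) ^ 3 := by
      calc _ = 4 * y * (c : ℝ) ^ 2 * (Real.sqrt c * Real.sqrt c) := by ring
        _ = _ := by rw [hqq]; ring
    rw [this]
    have h3 : ((c : ℝ) + 1) ^ 3 ≤ 8 * (c : ℝ) ^ 3 := by
      have : ((c : ℝ) + 1) ≤ 2 * c := by linarith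
      calc ((c : ℝ) + 1) ^ 3 ≤ (2 * c) ^ 3 := pow_le_pow_left₀ (by positivity) this 3
        _ = _ := by ring
    nlinarith [pow_pos (show (0 : ℝ) < c by linarith) 3]
  have hA1 : 1 ≤ ((n : ℝ) + 1) ^ 2 / G := by
    rw [le_div_iff₀ hG0]
    nlinarith
  have hAr : ((n : ℝ) + 1) ^ 2 / G ≤ 2 * ((c + 1 : ℕ) : ℝ) ^ (2 + 1) := by
    rw [div_le_iff₀ hG0]
    push_cast
    have hn5 : (1 : ℝ) ≤ n := by
      have : 1 ≤ n := by
        have : 0 < n := lt_of_lt_of_le (by positivity) h1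
        omega
      exact_mod_cast this
    have : ((n : ℝ) + 1) ^ 2 ≤ 2 * ((n : ℝ) + 1) * n := by nlinarith
    calc ((n : ℝ) + 1) ^ 2 ≤ 2 * ((n : ℝ) + 1) * n := this
      _ ≤ 2 * ((c : ℝ) + 1) ^ 3 * G := by
        apply mul_le_mul _ hG1 hn0.le (by positivity)
        linarith
  have key := hAC n y (c + 1) (c ^ 2) (c ^ 2) (c ^ 2) (c ^ 2) e0 e0 e0 e0 (16 * c) (c ^ 2) 2
    (5 / 2 * Real.log c) G (((n : ℝ) + 1) ^ 2 / G)
    (by nlinarith [h1, Nat.pow_le_pow_left hc0 3]) (by omega) (by omega) hc2 le_rfl le_rfl le_rfl hc3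
    hee hee2 hee2 hee2 (by omega) (by nlinarith) (by
      have : 0 ≤ Real.log c := Real.log_nonneg (by linarith)
      linarith) hlamX hG0 rfl hA1 hAr
  have z1 : S2 (c ^ 2) (c ^ 2) = 0 := by simp [S2, PP]
  have z2 : nu (c ^ 2) (c ^ 2) = 0 := by simp [nu, PP]
  rw [z1, z2] at key
  have e4 : (((c ^ 2 : ℕ) : ℝ)) ^ 2 = (c : ℝ) ^ 4 := by push_cast; ring
  rw [e4] at key
  push_cast at key ⊢
  linarith


lemma S2_nonneg (a b : ℕ) : 0 ≤ S2 a b := Finset.sum_nonneg (fun _ _ => by positivity)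
lemma S1_nonneg (a b : ℕ) : 0 ≤ S1 a b := Finset.sum_nonneg (fun _ _ => by positivity)
lemma nu_nonneg (a b : ℕ) : 0 ≤ nu a b := by unfold nu; positivity
lemma D0_nonneg (R : ℕ) : 0 ≤ D0 R := by unfold D0; positivity
lemma D1_nonneg (R : ℕ) : 0 ≤ D1 R := Finset.sum_nonneg (fun _ _ => by positivity)

lemma sqrt16 (C : ℝ) : Real.sqrt (16 * C) = 4 * Real.sqrt C := by
  rw [Real.sqrt_mul (by norm_num)]
  congr 1
  rw [show (16 : ℝ) = 4 ^ 2 by norm_num, Real.sqrt_sq (by norm_num)]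

theorem small_le (hNT : S_NT) (hDG : S_DG) (n c y : ℕ) (sig : ℝ)
    (hc0 : 46415 ≤ c) (hy1 : 127 ≤ y) (hyc : y ≤ c)
    (hsig : ∀ Z, S2 y Z ≤ sig) (_hsig0 : 0 ≤ sig) :
    small n y (c + 1) (16 * c) (5 / 2 * Real.log c) ≤
      n * sig * (13 / 8 + 5 / 3 * Real.log c)
      + ((n : ℝ) + 1) * ((Real.log c - 4.8) / 3) / (6 * Real.sqrt c)
      + 4 / 9 * c
      + 16 * c * (3.7727 + Real.log c) * (Real.sqrt (2 * n + 1) * sig
          + 8 * Real.sqrt c * ((Real.log c - 4.8) / 3) + 4 / 3 * c)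
      + 8 * Real.sqrt c * (3.7727 + Real.log c) * (2 * Real.sqrt (2 * n + 1) *
          ((Real.log c - 4.8) / 3) + ((n : ℝ) + 1) / (8 * Real.sqrt c) * sig
          + ((n : ℝ) + 1) / (64 * c) * ((Real.log c - 4.8) / 3)) := by
  have hcR : (46415 : ℝ) ≤ c := by exact_mod_cast hc0
  have hyR : (127 : ℝ) ≤ y := by exact_mod_cast hy1
  have hycR : (y : ℝ) ≤ c := by exact_mod_cast hyc
  set w := Real.log c with hw
  set q := Real.sqrt c with hq
  set s := Real.sqrt (2 * (n : ℝ) + 1) with hs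
  have hq0 : 0 < q := Real.sqrt_pos.mpr (by linarith)
  have hs0 : 0 ≤ s := Real.sqrt_nonneg _
  have hw0 : 9 ≤ w := by
    rw [hw, Real.le_log_iff_exp_le (by linarith)]
    have : Real.exp 9 = Real.exp 1 ^ 9 := by rw [← Real.exp_nat_mul]; norm_num
    rw [this]
    have h1 := Real.exp_one_lt_d9
    calc Real.exp 1 ^ 9 ≤ 2.7182818286 ^ 9 := pow_le_pow_left₀ (Real.exp_pos 1).le h1.le 9
      _ ≤ 46415 := by norm_num
      _ ≤ _ := hcR
  obtain ⟨_, hnu, hS1⟩ := hNT y (c + 1) (by omega) (by omega)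
  have hS2 := hsig (c + 1)
  have hS1' : S1 y (c + 1) ≤ (w - 4.8) / 3 := by
    refine hS1.trans ?_
    have : Real.log ((((c + 1 : ℕ) : ℝ) + 4) / ((y : ℝ) - 3)) ≤ w - 4.8 := by
      have a1 : (((c + 1 : ℕ) : ℝ) + 4) / ((y : ℝ) - 3) ≤ (c : ℝ) * (1 + 5 / c) / 124 := by
        have : (c : ℝ) * (1 + 5 / c) = c + 5 := by
          field_simp
        rw [this]
        push_cast
        apply div_le_div₀ (by linarith) (by linarith) (by norm_num) (by linarith)
      have a2 := Real.log_le_log (by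
        apply div_pos
        · push_cast; linarith
        · linarith) a1
      refine a2.trans ?_
      rw [Real.log_div (by positivity) (by norm_num), Real.log_mul (by positivity) (by positivity)]
      have a3 : Real.log (1 + 5 / (c : ℝ)) ≤ 5 / c := by
        have := Real.log_le_sub_one_of_pos (show (0 : ℝ) < 1 + 5 / c by positivity)
        linarith
      have a4 : (5 : ℝ) / c ≤ 0.001 := by
        rw [div_le_iff₀ (by linarith)]
        linarith
      have := log124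
      linarith
    linarith
  have hnu' : nu y (c + 1) ≤ (c : ℝ) / 3 := by
    refine hnu.trans ?_
    push_cast
    linarith
  obtain ⟨hD0, hD1⟩ := hDG (16 * c) (by omega)
  have hl : 1 + Real.log ((16 * c : ℕ) : ℝ) ≤ 3.7727 + w := by
    push_cast
    rw [Real.log_mul (by norm_num) (by positivity)]
    have := log16
    linarith
  have hl0 : 0 ≤ 3.7727 + w := by linarith
  have e2 : Real.sqrt ((16 * c : ℕ) : ℝ) = 4 * q := by
    push_cast
    exact sqrt16 _
  have hD0' : D0 (16 * c) ≤ 16 * c * (3.7727 + w) := by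
    refine hD0.trans ?_
    have : (((16 * c : ℕ) : ℝ)) = 16 * c := by push_cast; ring
    calc ((16 * c : ℕ) : ℝ) * (1 + Real.log ((16 * c : ℕ) : ℝ))
        ≤ ((16 * c : ℕ) : ℝ) * (3.7727 + w) := mul_le_mul_of_nonneg_left hl (by positivity)
      _ = _ := by rw [this]
  have hD1' : D1 (16 * c) ≤ 8 * q * (3.7727 + w) := by
    refine hD1.trans ?_
    rw [e2]
    calc 2 * (4 * q) * (1 + Real.log ((16 * c : ℕ) : ℝ))
        ≤ 2 * (4 * q) * (3.7727 + w) := mul_le_mul_of_nonneg_left hl (by positivity)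
      _ = _ := by ring
  have hS1n := S1_nonneg y (c + 1)
  have hS2n := S2_nonneg y (c + 1)
  have hnun := nu_nonneg y (c + 1)
  have hs1 : 0 ≤ (w - 4.8) / 3 := by linarith
  unfold small
  rw [e2]
  have hn0 : (0 : ℝ) ≤ n := by positivity
  have t1 : (n : ℝ) * S2 y (c + 1) * (13 / 8 + 2 / 3 * (5 / 2 * w)) ≤
      n * sig * (13 / 8 + 5 / 3 * w) := by
    have : 13 / 8 + 2 / 3 * (5 / 2 * w) = 13 / 8 + 5 / 3 * w := by ring
    rw [this]
    exact mul_le_mul_of_nonneg_right (mul_le_mul_of_nonneg_left hS2 hn0) (by linarith)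
  have t2 : 2 / 3 * (((n : ℝ) + 1) / (4 * q)) * S1 y (c + 1) ≤
      ((n : ℝ) + 1) * ((w - 4.8) / 3) / (6 * q) := by
    calc 2 / 3 * (((n : ℝ) + 1) / (4 * q)) * S1 y (c + 1)
        ≤ 2 / 3 * (((n : ℝ) + 1) / (4 * q)) * ((w - 4.8) / 3) :=
          mul_le_mul_of_nonneg_left hS1' (by positivity)
      _ = _ := by field_simp; ring
  have t3 : 4 / 3 * nu y (c + 1) ≤ 4 / 9 * (c : ℝ) := by linarith
  have t4 : D0 (16 * c) * (s * S2 y (c + 1) + 2 * (4 * q) * S1 y (c + 1) + 4 * nu y (c + 1)) ≤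
      16 * c * (3.7727 + w) * (s * sig + 8 * q * ((w - 4.8) / 3) + 4 / 3 * c) := by
    apply mul_le_mul hD0' _ (by positivity) (by positivity)
    have b1 := mul_le_mul_of_nonneg_left hS2 hs0
    have b2 := mul_le_mul_of_nonneg_left hS1' (show 0 ≤ 2 * (4 * q) by positivity)
    linarith
  have t5 : D1 (16 * c) * (2 * s * S1 y (c + 1) + ((n : ℝ) + 1) / (2 * (4 * q)) * S2 y (c + 1)
      + ((n : ℝ) + 1) / (4 * ((16 * c : ℕ) : ℝ)) * S1 y (c + 1)) ≤
      8 * q * (3.7727 + w) * (2 * s * ((w - 4.8) / 3) + ((n : ℝ) + 1) / (8 * q) * sig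
          + ((n : ℝ) + 1) / (64 * c) * ((w - 4.8) / 3)) := by
    apply mul_le_mul hD1' _ (by positivity) (by positivity)
    have b1 := mul_le_mul_of_nonneg_left hS1' (show 0 ≤ 2 * s by positivity)
    have b2 := mul_le_mul_of_nonneg_left hS2 (show 0 ≤ ((n : ℝ) + 1) / (8 * q) by positivity)
    have b3 := mul_le_mul_of_nonneg_left hS1' (show 0 ≤ ((n : ℝ) + 1) / (64 * c) by positivity)
    have c2 : ((n : ℝ) + 1) / (2 * (4 * q)) = ((n : ℝ) + 1) / (8 * q) := by ring_nf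
    have c3 : ((n : ℝ) + 1) / (4 * ((16 * c : ℕ) : ℝ)) = ((n : ℝ) + 1) / (64 * c) := by
      push_cast; ring_nf
    rw [c2, c3]
    linarith
  linarith

theorem taila (hAC : S_AC) (hNT : S_NT) (hDG : S_DG) : S_TA := by
  intro n c y e0 v sig G g E hc0 h1 h2 hy1 hyc hv hsig hsig0 hG1 hG2 hgn he0 hE
  have hcR : (46415 : ℝ) ≤ c := by exact_mod_cast hc0
  have key := stepA hAC n c y e0 G hc0 h1 h2 hy1 hyc hG1 (hG2.trans
    (mul_le_mul_of_nonneg_right hgn (by positivity))) he0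
  have hsm := small_le hNT hDG n c y sig hc0 hy1 hyc hsig hsig0
  set w := Real.log c with hw
  set q := Real.sqrt c with hq
  set s := Real.sqrt (2 * (n : ℝ) + 1) with hs
  set N : ℝ := (n : ℝ) with hN
  set C : ℝ := (c : ℝ) with hC
  have hq0 : 0 < q := Real.sqrt_pos.mpr (by linarith)
  have hqq : q ^ 2 = C := Real.sq_sqrt (by linarith)
  have hw0 : 9 ≤ w := by
    rw [hw, Real.le_log_iff_exp_le (by linarith)]
    have : Real.exp 9 = Real.exp 1 ^ 9 := by rw [← Real.exp_nat_mul]; norm_num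
    rw [this]
    have h1 := Real.exp_one_lt_d9
    calc Real.exp 1 ^ 9 ≤ 2.7182818286 ^ 9 := pow_le_pow_left₀ (Real.exp_pos 1).le h1.le 9
      _ ≤ 46415 := by norm_num
      _ ≤ _ := hcR
  have hNC : C ^ 3 ≤ N := by rw [hN, hC]; exact_mod_cast h1
  have hNC2 : N + 1 ≤ (C + 1) ^ 3 := by
    rw [hN, hC]
    have : n + 1 ≤ (c + 1) ^ 3 := h2
    exact_mod_cast this
  have hCbig : (46415 : ℝ) ^ 3 ≤ C ^ 3 := pow_le_pow_left₀ (by norm_num) hcR 3
  have hNbig : (46415 : ℝ) ^ 3 ≤ N := hCbig.trans hNC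
  have hN0 : 0 < N := lt_of_lt_of_le (by norm_num) hNbig
  have hC0 : 0 < C := by linarith
  have hG0 : 0 < G := lt_of_lt_of_le hN0 hG1
  have hN1 : N + 1 ≤ 1.0001 * N := by norm_num at hNbig; linarith
  have hC1 : C + 1 ≤ 1.00003 * C := by linarith
  have hq6 : q ^ 6 ≤ N := by
    have : q ^ 6 = C ^ 3 := by rw [← hqq]; ring
    rw [this]; exact hNC
  -- (N+1)^2 / C^4
  have hY : (N + 1) ^ 2 / C ^ 4 ≤ 1.0002 * C ^ 2 := by
    rw [div_le_iff₀ (by positivity)]
    have : (N + 1) ^ 2 ≤ ((C + 1) ^ 3) ^ 2 := pow_le_pow_left₀ (by positivity) hNC2 2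
    refine this.trans ?_
    have h3 : ((C + 1) ^ 3) ^ 2 = (C + 1) ^ 6 := by ring
    rw [h3]
    have : (C + 1) ^ 6 ≤ (1.00003 * C) ^ 6 := pow_le_pow_left₀ (by positivity) hC1 6
    refine this.trans ?_
    have : (1.00003 * C) ^ 6 = 1.00003 ^ 6 * C ^ 6 := by ring
    rw [this]
    have : (1.0002 : ℝ) * C ^ 2 * C ^ 4 = 1.0002 * C ^ 6 := by ring
    rw [this]
    exact mul_le_mul_of_nonneg_right (by norm_num) (by positivity)
  -- s
  have hs0 : 0 ≤ s := Real.sqrt_nonneg _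
  have hsN : s * q ^ 3 ≤ 1.4143 * N := by
    have h5 : (s * q ^ 3) ^ 2 ≤ (1.4143 * N) ^ 2 := by
      have : s ^ 2 = 2 * N + 1 := Real.sq_sqrt (by positivity)
      have e : (s * q ^ 3) ^ 2 = (2 * N + 1) * q ^ 6 := by rw [← this]; ring
      rw [e]
      have k1 : (2 * N + 1) * q ^ 6 ≤ (2 * N + 1) * N :=
        mul_le_mul_of_nonneg_left hq6 (by positivity)
      have k2 : (2 * N + 1) ≤ 1.4143 ^ 2 * N := by norm_num at hNbig ⊢; linarith
      calc (2 * N + 1) * q ^ 6 ≤ (2 * N + 1) * N := k1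
        _ ≤ (1.4143 ^ 2 * N) * N := mul_le_mul_of_nonneg_right k2 hN0.le
        _ = _ := by ring
    exact le_of_sq_le_sq h5 (by positivity)
  have hs1 : 0 ≤ (w - 4.8) / 3 := by linarith
  set s1 := (w - 4.8) / 3 with hs1d
  set l := 3.7727 + w with hl
  have hl0 : 0 ≤ l := by linarith
  clear_value s1 l
  clear_value s q w
  -- pieces of small
  have p2 : (N + 1) * s1 / (6 * q) ≤ N * (1.0001 * s1 / (6 * q)) := by
    rw [mul_div_assoc, mul_div_assoc]
    have : 0 ≤ s1 / (6 * q) := by positivity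
    calc (N + 1) * (s1 / (6 * q)) ≤ (1.0001 * N) * (s1 / (6 * q)) :=
          mul_le_mul_of_nonneg_right hN1 this
      _ = _ := by ring
  have p3 : 4 / 9 * C ≤ N * (4 / 9 / q ^ 4) := by
    rw [← hqq, mul_div_assoc', le_div_iff₀ (by positivity)]
    calc 4 / 9 * q ^ 2 * q ^ 4 = 4 / 9 * q ^ 6 := by ring
      _ ≤ 4 / 9 * N := mul_le_mul_of_nonneg_left hq6 (by norm_num)
      _ = _ := by ring
  have p4 : 16 * C * l * (s * sig + 8 * q * s1 + 4 / 3 * C) ≤
      N * (16 * l * (1.4143 * sig / q + 8 * s1 / q ^ 3 + 4 / 3 / q ^ 2)) := by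
    have a1 : C * (s * sig) ≤ N * (1.4143 * sig / q) := by
      rw [mul_div_assoc', le_div_iff₀ hq0, ← hqq]
      calc q ^ 2 * (s * sig) * q = (s * q ^ 3) * sig := by ring
        _ ≤ (1.4143 * N) * sig := mul_le_mul_of_nonneg_right hsN hsig0
        _ = _ := by ring
    have a2 : C * (8 * q * s1) ≤ N * (8 * s1 / q ^ 3) := by
      rw [mul_div_assoc', le_div_iff₀ (by positivity), ← hqq]
      calc q ^ 2 * (8 * q * s1) * q ^ 3 = q ^ 6 * (8 * s1) := by ring
        _ ≤ N * (8 * s1) := mul_le_mul_of_nonneg_right hq6 (by positivity)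
    have a3 : C * (4 / 3 * C) ≤ N * (4 / 3 / q ^ 2) := by
      rw [mul_div_assoc', le_div_iff₀ (by positivity), ← hqq]
      calc q ^ 2 * (4 / 3 * q ^ 2) * q ^ 2 = q ^ 6 * (4 / 3) := by ring
        _ ≤ N * (4 / 3) := mul_le_mul_of_nonneg_right hq6 (by positivity)
    calc 16 * C * l * (s * sig + 8 * q * s1 + 4 / 3 * C)
        = 16 * l * (C * (s * sig) + C * (8 * q * s1) + C * (4 / 3 * C)) := by ring
      _ ≤ 16 * l * (N * (1.4143 * sig / q) + N * (8 * s1 / q ^ 3) + N * (4 / 3 / q ^ 2)) :=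
          mul_le_mul_of_nonneg_left (by linarith) (by positivity)
      _ = _ := by ring
  have p5 : 8 * q * l * (2 * s * s1 + (N + 1) / (8 * q) * sig + (N + 1) / (64 * C) * s1) ≤
      N * (22.63 * l * s1 / q ^ 2) + N * (1.0001 * l * sig) + N * (1.0001 * l * s1 / (8 * q)) := by
    have a1 : 8 * q * l * (2 * s * s1) ≤ N * (22.63 * l * s1 / q ^ 2) := by
      rw [mul_div_assoc', le_div_iff₀ (by positivity)]
      calc 8 * q * l * (2 * s * s1) * q ^ 2 = (s * q ^ 3) * (16 * l * s1) := by ring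
        _ ≤ (1.4143 * N) * (16 * l * s1) := mul_le_mul_of_nonneg_right hsN (by positivity)
        _ = N * (22.6288 * (l * s1)) := by ring
        _ ≤ N * (22.63 * (l * s1)) := by
            apply mul_le_mul_of_nonneg_left _ hN0.le
            exact mul_le_mul_of_nonneg_right (by norm_num) (by positivity)
        _ = _ := by ring
    have a2 : 8 * q * l * ((N + 1) / (8 * q) * sig) ≤ N * (1.0001 * l * sig) := by
      have e : 8 * q * l * ((N + 1) / (8 * q) * sig) = (N + 1) * (l * sig) := by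
        field_simp
      rw [e]
      calc (N + 1) * (l * sig) ≤ (1.0001 * N) * (l * sig) :=
            mul_le_mul_of_nonneg_right hN1 (by positivity)
        _ = _ := by ring
    have a3 : 8 * q * l * ((N + 1) / (64 * C) * s1) ≤ N * (1.0001 * l * s1 / (8 * q)) := by
      have e : 8 * q * l * ((N + 1) / (64 * C) * s1) = (N + 1) * (l * s1 / (8 * q)) := by
        rw [← hqq]; field_simp; ring
      rw [e]
      calc (N + 1) * (l * s1 / (8 * q)) ≤ (1.0001 * N) * (l * s1 / (8 * q)) :=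
            mul_le_mul_of_nonneg_right hN1 (by positivity)
        _ = _ := by ring
    calc _ = 8 * q * l * (2 * s * s1) + 8 * q * l * ((N + 1) / (8 * q) * sig)
          + 8 * q * l * ((N + 1) / (64 * C) * s1) := by ring
      _ ≤ _ := by linarith
  -- squares
  obtain ⟨_, hnuZ, _⟩ := hNT y (c ^ 2) (by omega) (by nlinarith)
  have hyR : (127 : ℝ) ≤ y := by exact_mod_cast hy1
  have psq : N * S2 y (c ^ 2) + nu y (c ^ 2) + (N + 1) ^ 2 / (2 * C ^ 4) + 1 ≤
      N * sig + N * (0.84 / q ^ 2) := by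
    have a1 : N * S2 y (c ^ 2) ≤ N * sig := mul_le_mul_of_nonneg_left (hsig _) hN0.le
    have a2 : nu y (c ^ 2) ≤ C ^ 2 / 3 := by
      refine hnuZ.trans ?_
      push_cast
      rw [← hC]
      linarith
    have a3 : (N + 1) ^ 2 / (2 * C ^ 4) ≤ 0.5001 * C ^ 2 := by
      have : (N + 1) ^ 2 / (2 * C ^ 4) = (N + 1) ^ 2 / C ^ 4 / 2 := by
        rw [div_div]; ring_nf
      rw [this]
      linarith
    have a4 : 0.84 * C ^ 2 ≤ N * (0.84 / q ^ 2) := by
      rw [mul_div_assoc', le_div_iff₀ (by positivity), ← hqq]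
      calc 0.84 * (q ^ 2) ^ 2 * q ^ 2 = q ^ 6 * 0.84 := by ring
        _ ≤ N * 0.84 := mul_le_mul_of_nonneg_right hq6 (by norm_num)
    have a5 : 1 ≤ 0.001 * C ^ 2 := by nlinarith
    linarith
  -- large, small l
  obtain ⟨hS2L, hnuL, _⟩ := hNT (c + 1) (c ^ 2) (by omega) (by nlinarith)
  have hE0 : 0 ≤ E := le_trans (by positivity) hE
  have pla : 2 ^ e0 * ((2 * N + 1 + G) / 2 * S2 (c + 1) (c ^ 2) + nu (c + 1) (c ^ 2)) ≤
      N * (E * ((1.0001 + g / 2) / (3 * (C - 2)) + 1 / (3 * C))) := by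
    have hg1 : 0 ≤ g := by
      by_contra h
      have h := not_le.mp h
      have : g * N < 0 := mul_neg_of_neg_of_pos h hN0
      linarith
    have a1 : S2 (c + 1) (c ^ 2) ≤ 1 / (3 * (C - 2)) := by
      refine hS2L.trans ?_
      have : (0 : ℝ) ≤ 1 / (((c ^ 2 : ℕ) : ℝ) + 4) := by positivity
      have e : 1 / (3 * (C - 2)) = 1 / 3 * (1 / (C - 2)) := by
        rw [one_div_mul_one_div]
      rw [e]
      push_cast
      have e3 : C + 1 - 3 = C - 2 := by ring
      rw [← hC, e3]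
      push_cast at this
      rw [← hC] at this
      linarith
    have a2 : nu (c + 1) (c ^ 2) ≤ C ^ 2 / 3 := by
      refine hnuL.trans ?_
      push_cast
      rw [← hC]
      linarith
    have a3 : C ^ 2 / 3 ≤ N * (1 / (3 * C)) := by
      rw [mul_one_div, div_le_div_iff₀ (by norm_num) (by positivity)]
      calc C ^ 2 * (3 * C) = C ^ 3 * 3 := by ring
        _ ≤ N * 3 := mul_le_mul_of_nonneg_right hNC (by norm_num)
    have a4 : (2 * N + 1 + G) / 2 ≤ N * (1.0001 + g / 2) := by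
      have : 1 ≤ 0.0001 * N := by norm_num at hNbig; linarith
      nlinarith
    have hC2 : 0 < C - 2 := by linarith
    have a5 : (2 * N + 1 + G) / 2 * S2 (c + 1) (c ^ 2) ≤
        N * ((1.0001 + g / 2) / (3 * (C - 2))) := by
      calc (2 * N + 1 + G) / 2 * S2 (c + 1) (c ^ 2)
          ≤ (N * (1.0001 + g / 2)) * (1 / (3 * (C - 2))) :=
            mul_le_mul a4 a1 (S2_nonneg _ _) (by positivity)
        _ = _ := by ring
    have a6 : 0 ≤ (2 * N + 1 + G) / 2 * S2 (c + 1) (c ^ 2) + nu (c + 1) (c ^ 2) := by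
      have := S2_nonneg (c + 1) (c ^ 2)
      have := nu_nonneg (c + 1) (c ^ 2)
      positivity
    calc 2 ^ e0 * ((2 * N + 1 + G) / 2 * S2 (c + 1) (c ^ 2) + nu (c + 1) (c ^ 2))
        ≤ E * (N * ((1.0001 + g / 2) / (3 * (C - 2))) + N * (1 / (3 * C))) :=
          mul_le_mul hE (by linarith) a6 hE0
      _ = _ := by ring
  -- large, small q
  have hAle : (N + 1) ^ 2 / G ≤ N + 3 := by
    rw [div_le_iff₀ hG0]
    calc (N + 1) ^ 2 ≤ (N + 3) * N := by norm_num at hNbig; nlinarith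
      _ ≤ (N + 3) * G := mul_le_mul_of_nonneg_left hG1 (by positivity)
  have hA0 : 0 < (N + 1) ^ 2 / G := by positivity
  have plb : 2 * (N / (C + 1) * (1 / 2 * Real.log ((N + 1) ^ 2 / G)) + (N + 1) ^ 2 / G / 3 + 1) ≤
      N * (Real.log (N + 3) / (C + 1)) + N * (0.66674 * (N / G)) + N * (2 / N) := by
    have a1 : Real.log ((N + 1) ^ 2 / G) ≤ Real.log (N + 3) := Real.log_le_log hA0 hAle
    have a2 : N / (C + 1) * Real.log ((N + 1) ^ 2 / G) ≤ N * (Real.log (N + 3) / (C + 1)) := by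
      calc N / (C + 1) * Real.log ((N + 1) ^ 2 / G) ≤ N / (C + 1) * Real.log (N + 3) :=
            mul_le_mul_of_nonneg_left a1 (by positivity)
        _ = _ := by ring
    have a3 : 2 * ((N + 1) ^ 2 / G / 3) ≤ N * (0.66674 * (N / G)) := by
      have k : (N + 1) ^ 2 ≤ 1.00001 * N ^ 2 := by
        norm_num at hNbig
        nlinarith
      have : 2 * ((N + 1) ^ 2 / G / 3) = (2 / 3) * (N + 1) ^ 2 / G := by ring
      rw [this]
      have e : N * (0.66674 * (N / G)) = 0.66674 * N ^ 2 / G := by ring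
      rw [e]
      apply div_le_div_of_nonneg_right _ hG0.le
      nlinarith [sq_nonneg N]
    have a4 : N * (2 / N) = 2 := by field_simp
    rw [a4]
    linarith
  -- very large
  have hY0 : 0 < (N + 1) ^ 2 / C ^ 4 := by positivity
  have plc : (N + 1) ^ 2 / C ^ 4 / 2 * (1 + 1 / 2 * Real.log ((N + 1) ^ 2 / C ^ 4)) ≤
      N * (0.5001 * (1.0001 + w) / C) := by
    have a1 : Real.log ((N + 1) ^ 2 / C ^ 4) ≤ 2 * w + 0.0002 := by
      refine (Real.log_le_log hY0 hY).trans ?_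
      rw [Real.log_mul (by norm_num) (by positivity), Real.log_pow]
      have := Real.log_le_sub_one_of_pos (show (0 : ℝ) < 1.0002 by norm_num)
      push_cast
      rw [← hw]
      norm_num at this ⊢
      linarith
    have a2 : 0 ≤ 1.0001 + w := by linarith
    calc (N + 1) ^ 2 / C ^ 4 / 2 * (1 + 1 / 2 * Real.log ((N + 1) ^ 2 / C ^ 4))
        ≤ (N + 1) ^ 2 / C ^ 4 / 2 * (1.0001 + w) :=
          mul_le_mul_of_nonneg_left (by linarith) (by positivity)
      _ ≤ (0.5001 * C ^ 2) * (1.0001 + w) := mul_le_mul_of_nonneg_right (by linarith) a2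
      _ ≤ N * (0.5001 * (1.0001 + w) / C) := by
          rw [mul_div_assoc', le_div_iff₀ hC0]
          calc 0.5001 * C ^ 2 * (1.0001 + w) * C = C ^ 3 * (0.5001 * (1.0001 + w)) := by ring
            _ ≤ N * (0.5001 * (1.0001 + w)) := mul_le_mul_of_nonneg_right hNC (by positivity)
  have pV : 2 * N * v ≤ 2 * N * V y := mul_le_mul_of_nonneg_left hv (by positivity)
  unfold O
  have efin : N * (2 * v
      - sig * (1 + 13 / 8 + 5 / 3 * w + 1.0001 * l)
      - (1.0001 * s1 / (6 * q) + 4 / 9 / q ^ 4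
        + 16 * l * (1.4143 * sig / q + 8 * s1 / q ^ 3 + 4 / 3 / q ^ 2)
        + 22.63 * l * s1 / q ^ 2 + 1.0001 * l * s1 / (8 * q) + 0.84 / q ^ 2
        + E * ((1.0001 + g / 2) / (3 * (C - 2)) + 1 / (3 * C))
        + Real.log (N + 3) / (C + 1) + 2 / N + 0.5001 * (1.0001 + w) / C)
      - 0.66674 * (N / G)) =
      2 * N * v - (N * sig + N * (0.84 / q ^ 2)) - N * sig * (13 / 8 + 5 / 3 * w)
      - N * (1.0001 * s1 / (6 * q)) - N * (4 / 9 / q ^ 4)
      - N * (16 * l * (1.4143 * sig / q + 8 * s1 / q ^ 3 + 4 / 3 / q ^ 2))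
      - (N * (22.63 * l * s1 / q ^ 2) + N * (1.0001 * l * sig) + N * (1.0001 * l * s1 / (8 * q)))
      - N * (E * ((1.0001 + g / 2) / (3 * (C - 2)) + 1 / (3 * C)))
      - (N * (Real.log (N + 3) / (C + 1)) + N * (0.66674 * (N / G)) + N * (2 / N))
      - N * (0.5001 * (1.0001 + w) / C) := by ring
  rw [efin]
  linarith

end Pool.Agent.Helper83.CY.TailA
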