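import Pool.Agent.Helper83.CY.Base

/-! Zones A and B: small `q`, small `l`. -/

set_option autoImplicit false

namespace Pool.Agent.Helper83.CY.ZA

open Finset Pool.Agent.Helper83.CY

/-- a set of numbers congruent modulo `d` of diameter at most `W` -/
theorem prog (S : Finset ℕ) (d W : ℕ) (hd : 1 ≤ d)
    (h : ∀ x ∈ S, ∀ y ∈ S, x ≤ y → y - x ≤ W ∧ d ∣ y - x) : S.card ≤ W / d + 1 := by
  rcases S.eq_empty_or_nonempty with rfl | hS
  · simp
  obtain ⟨m, hm, hmin⟩ := S.exists_min_image (fun x => x) hS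
  have h1 : ∀ x ∈ S, m ≤ x := hmin
  have h2 : S.card ≤ (range (W / d + 1)).card := by
    refine card_le_card_of_injOn (fun x => (x - m) / d) ?_ ?_
    · intro x hx
      have h3 := (h m hm x hx (h1 x hx)).1
      simp only [coe_range, Set.mem_Iio]
      have := Nat.div_le_div_right (c := d) h3
      omega
    · intro x hx y hy hxy
      have e1 := Nat.div_mul_cancel (h m hm x hx (h1 x hx)).2
      have e2 := Nat.div_mul_cancel (h m hm y hy (h1 y hy)).2
      simp only at hxy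
      rw [hxy] at e1
      have := h1 x hx
      have := h1 y hy
      omega
  simpa using h2

theorem div_bd (n q d : ℕ) (hq : 1 ≤ q) (hd : 1 ≤ d) :
    (((2 * n / q) / d + 1 : ℕ) : ℝ) ≤ 2 * n / ((q : ℝ) * d) + 1 := by
  rw [Nat.div_div_eq_div_mul]
  push_cast
  have h := @Nat.cast_div_le ℝ _ _ _ (2 * n) (q * d)
  push_cast at h
  linarith

/-- a fibre with fixed factor `q` -/
theorem fibre (n q d : ℕ) (hq : 1 ≤ q) (hd : 1 ≤ d) (S : Finset ℕ)
    (h : ∀ x ∈ S, n ^ 2 < x * q ∧ x * q < (n + 1) ^ 2) (hm : ∀ x ∈ S, ∀ y ∈ S, x ≡ y [MOD d]) :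
    (S.card : ℝ) ≤ 2 * n / ((q : ℝ) * d) + 1 := by
  refine le_trans ?_ (div_bd n q d hq hd)
  have := prog S d (2 * n / q) hd (fun x hx y hy hxy => ⟨?_, ?_⟩)
  · exact_mod_cast this
  · rw [Nat.le_div_iff_mul_le (by omega)]
    have h1 := h x hx
    have h2 := h y hy
    have h3 : (y - x) * q = y * q - x * q := Nat.sub_mul _ _ _
    have h4 : (n + 1) ^ 2 = n ^ 2 + 2 * n + 1 := by ring
    omega
  · exact (Nat.modEq_iff_dvd' hxy).1 (hm x hx y hy)

section sums
variable (P : ℕ → Prop) [DecidablePred P]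

noncomputable def F (J : ℕ) : ℝ := ∑ j ∈ range J, if P (j + 1) then 1 / ((j : ℝ) + 1) else 0

noncomputable def N (J : ℕ) : ℝ := ∑ j ∈ range J, if P (j + 1) then 1 else 0

theorem F_mono {a b : ℕ} (h : a ≤ b) : F P a ≤ F P b := by
  refine sum_le_sum_of_subset_of_nonneg (range_mono h) ?_
  intro j _ _
  split_ifs <;> positivity

theorem F_block (hP : ∀ i, ¬ (P (3 * i + 1) ∧ P (3 * i + 2))) (K : ℕ) :
    F P (3 * K + 2) ≤ 1 + 2 / 3 * ∑ k ∈ range K, 1 / ((k : ℝ) + 1) := by
  induction K with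
  | zero =>
    have h0 := hP 0
    simp only [F, mul_zero, zero_add, sum_range_succ, range_zero, sum_empty] at h0 ⊢
    by_cases h1 : P 1
    · have h2 : ¬ P 2 := fun h => h0 ⟨h1, h⟩
      norm_num [h1, h2]
    · by_cases h2 : P 2
      · norm_num [h1, h2]
      · norm_num [h1, h2]
  | succ K ih =>
    have h0 := hP (K + 1)
    have e : F P (3 * (K + 1) + 2) = F P (3 * K + 2) +
        (if P (3 * K + 2 + 1) then 1 / (((3 * K + 2 : ℕ) : ℝ) + 1) else 0) +
        (if P (3 * K + 3 + 1) then 1 / (((3 * K + 3 : ℕ) : ℝ) + 1) else 0) +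
        (if P (3 * K + 4 + 1) then 1 / (((3 * K + 4 : ℕ) : ℝ) + 1) else 0) := by
      rw [F, show 3 * (K + 1) + 2 = 3 * K + 2 + 1 + 1 + 1 by ring, sum_range_succ, sum_range_succ,
        sum_range_succ, F]
    rw [e, sum_range_succ]
    have h3 : (if P (3 * K + 2 + 1) then 1 / (((3 * K + 2 : ℕ) : ℝ) + 1) else 0) ≤
        1 / (3 * ((K : ℝ) + 1)) := by
      have e1 : 1 / (((3 * K + 2 : ℕ) : ℝ) + 1) = 1 / (3 * ((K : ℝ) + 1)) := by
        push_cast; ring_nf
      rw [e1]
      split_ifs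
      · exact le_rfl
      · positivity
    have h4 : (if P (3 * K + 3 + 1) then 1 / (((3 * K + 3 : ℕ) : ℝ) + 1) else 0) +
        (if P (3 * K + 4 + 1) then 1 / (((3 * K + 4 : ℕ) : ℝ) + 1) else 0) ≤
        1 / (3 * ((K : ℝ) + 1)) := by
      have b1 : 1 / (((3 * K + 3 : ℕ) : ℝ) + 1) ≤ 1 / (3 * ((K : ℝ) + 1)) := by
        apply one_div_le_one_div_of_le (by positivity)
        push_cast; linarith
      have b2 : 1 / (((3 * K + 4 : ℕ) : ℝ) + 1) ≤ 1 / (3 * ((K : ℝ) + 1)) := by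
        apply one_div_le_one_div_of_le (by positivity)
        push_cast; linarith
      have b0 : 0 ≤ 1 / (3 * ((K : ℝ) + 1)) := by positivity
      have h0' : ¬ (P (3 * K + 3 + 1) ∧ P (3 * K + 4 + 1)) := hP (K + 1)
      by_cases h1 : P (3 * K + 3 + 1)
      · have h2 : ¬ P (3 * K + 4 + 1) := fun h => h0' ⟨h1, h⟩
        rw [if_pos h1, if_neg h2]; linarith
      · rw [if_neg h1]
        split_ifs
        · linarith
        · linarith
    have h5 : 2 / 3 * (1 / ((K : ℝ) + 1)) = 1 / (3 * ((K : ℝ) + 1)) + 1 / (3 * ((K : ℝ) + 1)) := by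
      field_simp
      norm_num
    linarith

theorem harm (K : ℕ) : ∑ k ∈ range K, 1 / ((k : ℝ) + 1) ≤ 1 + Real.log K := by
  have h := harmonic_le_one_add_log K
  rw [harmonic] at h
  push_cast at h
  simpa [one_div] using h

theorem F_bd (hP : ∀ i, ¬ (P (3 * i + 1) ∧ P (3 * i + 2))) {J : ℕ} (hJ : 1 ≤ J) :
    F P J ≤ 5 / 4 + 2 / 3 * Real.log J := by
  have h1 : F P J ≤ F P (3 * (J / 3) + 2) := F_mono P (by omega)
  have h2 := F_block P hP (J / 3)
  have h0 : 0 ≤ Real.log J := Real.log_nonneg (by exact_mod_cast hJ)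
  rcases Nat.eq_zero_or_pos (J / 3) with h3 | h3
  · rw [h3, range_zero, sum_empty] at h2
    rw [h3] at h1
    linarith
  · have h4 := harm (J / 3)
    have h5 : Real.log ((J / 3 : ℕ) : ℝ) + 1 ≤ Real.log J := by
      have h6 : ((J / 3 : ℕ) : ℝ) * 3 ≤ J := by exact_mod_cast Nat.div_mul_le_self J 3
      have h7 : (0 : ℝ) < ((J / 3 : ℕ) : ℝ) := by exact_mod_cast h3
      have h8 : 1 ≤ Real.log 3 := by
        rw [Real.le_log_iff_exp_le (by norm_num)]
        have := Real.exp_one_lt_d9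
        linarith
      have h9 : Real.log (((J / 3 : ℕ) : ℝ) * 3) ≤ Real.log J := Real.log_le_log (by positivity) h6
      rw [Real.log_mul h7.ne' (by norm_num)] at h9
      linarith
    linarith

theorem N_block (hP : ∀ i, ¬ (P (3 * i + 1) ∧ P (3 * i + 2))) (K : ℕ) : N P (3 * K) ≤ 2 * K := by
  induction K with
  | zero => simp [N]
  | succ K ih =>
    have h0 := hP K
    rw [N, show 3 * (K + 1) = 3 * K + 1 + 1 + 1 by ring, sum_range_succ, sum_range_succ,
        sum_range_succ, ← N]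
    push_cast
    by_cases h1 : P (3 * K + 1)
    · have h2 : ¬ P (3 * K + 1 + 1) := fun h => h0 ⟨h1, h⟩
      rw [if_pos h1, if_neg h2]
      split_ifs <;> linarith
    · rw [if_neg h1]
      split_ifs <;> linarith

theorem N_bd (hP : ∀ i, ¬ (P (3 * i + 1) ∧ P (3 * i + 2))) (J : ℕ) : N P J ≤ (2 * J + 2) / 3 := by
  obtain ⟨K, s, hs, hJ⟩ : ∃ K s, s < 3 ∧ J = 3 * K + s := ⟨J / 3, J % 3, Nat.mod_lt _ (by norm_num), by omega⟩
  have h0 := hP K
  have h1 := N_block P hP K
  subst hJ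
  interval_cases s
  · rw [add_zero]
    push_cast
    linarith
  · rw [N, sum_range_succ, ← N]
    push_cast
    split_ifs <;> linarith
  · rw [N, sum_range_succ, sum_range_succ, ← N]
    push_cast
    by_cases h2 : P (3 * K + 1)
    · have h3 : ¬ P (3 * K + 1 + 1) := fun h => h0 ⟨h2, h⟩
      rw [if_pos h2, if_neg h3]
      linarith
    · rw [if_neg h2]
      split_ifs <;> linarith

end sums

theorem modeq_shape {m a d : ℕ} (had : a < d) (h : m ≡ a [MOD d]) : ∃ i, m = a + d * i := by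
  refine ⟨m / d, ?_⟩
  have h1 : m % d = a := by
    have h2 : m % d = a % d := h
    rw [h2, Nat.mod_eq_of_lt had]
  have h3 := Nat.mod_add_div m d
  omega

theorem za : S_ZA := by
  classical
  intro n p X lam hn hp h5 hlam hX hX0
  have hp3 : ¬ 3 ∣ p := by
    intro h
    have := (Nat.prime_dvd_prime_iff_eq Nat.prime_three hp).1 h
    omega
  have hp0 : (0 : ℝ) < p := by exact_mod_cast hp.pos
  obtain ⟨P, hPdef⟩ : ∃ P : ℕ → Prop, P = fun j => ¬ 3 ∣ 1 + 2 * p * j := ⟨_, rfl⟩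
  have hP : ∀ i, ¬ (P (3 * i + 1) ∧ P (3 * i + 2)) := by
    intro i
    rw [hPdef]
    have h3 : p % 3 = 1 ∨ p % 3 = 2 := by omega
    have e1 : (1 + 2 * p * (3 * i + 1)) % 3 = (1 + 2 * (p % 3)) % 3 := by
      rw [show 1 + 2 * p * (3 * i + 1) = 1 + 2 * p + 3 * (2 * p * i) by ring]
      omega
    have e2 : (1 + 2 * p * (3 * i + 2)) % 3 = (1 + 4 * (p % 3)) % 3 := by
      rw [show 1 + 2 * p * (3 * i + 2) = 1 + 4 * p + 3 * (2 * p * i) by ring]
      omega
    rintro ⟨ha, hb⟩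
    simp only [Nat.dvd_iff_mod_eq_zero] at ha hb
    rw [e1] at ha
    rw [e2] at hb
    rcases h3 with h3 | h3 <;> rw [h3] at ha hb <;> omega
  obtain ⟨J, hJ⟩ : ∃ J : ℕ, J = ⌊X / (2 * p)⌋₊ := ⟨_, rfl⟩
  have hJX : (J : ℝ) ≤ X / (2 * p) := by rw [hJ]; exact Nat.floor_le (by positivity)
  have hJle : ∀ j : ℕ, (1 + 2 * (p : ℝ) * j) ≤ X → j ≤ J := by
    intro j hj
    rw [hJ]
    refine Nat.le_floor ?_
    rw [le_div_iff₀ (by positivity)]
    linarith
  -- fibres
  have hcard : ((ZA n p X).card : ℝ) ≤ ∑ j ∈ range J, if P (j + 1) then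
      (n / (2 * (p : ℝ) ^ 2) * (1 / ((j : ℝ) + 1)) + 1) else 0 := by
    have h1 : ∀ x ∈ ZA n p X, (x.2 - 1) / (2 * p) - 1 ∈ range J := by
      intro x hx
      simp only [ZA, Pr, mem_filter] at hx
      obtain ⟨⟨_, _, _, _, h2⟩, h3, h4, _⟩ := hx
      obtain ⟨i, hi⟩ := modeq_shape (by omega) h2
      have hi0 : 1 ≤ i := by
        rcases Nat.eq_zero_or_pos i with h | h
        · rw [h] at hi; omega
        · exact h
      have h5 : i ≤ J := by
        apply hJle
        rw [hi] at h3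
        push_cast at h3
        exact h3
      rw [mem_range, hi, Nat.add_sub_cancel_left, Nat.mul_div_cancel_left _ (by omega)]
      omega
    rw [card_eq_sum_card_fiberwise h1]
    push_cast
    refine sum_le_sum fun j hj => ?_
    -- the fibre
    have h2 : ∀ x ∈ (ZA n p X).filter (fun x => (x.2 - 1) / (2 * p) - 1 = j),
        x.2 = 1 + 2 * p * (j + 1) ∧ x.1 ≡ p [MOD 2 * p] ∧ n ^ 2 < x.1 * x.2 ∧ x.1 * x.2 < (n + 1) ^ 2 ∧
          ¬ 3 ∣ x.2 := by
      intro x hx
      simp only [ZA, Pr, mem_filter] at hx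
      obtain ⟨⟨⟨_, a1, a2, a3, h2⟩, h3, h4, a4⟩, h6⟩ := hx
      obtain ⟨i, hi⟩ := modeq_shape (by omega) h2
      have hi0 : 1 ≤ i := by
        rcases Nat.eq_zero_or_pos i with h | h
        · rw [h] at hi; omega
        · exact h
      have hij : i = j + 1 := by
        rw [hi, Nat.add_sub_cancel_left, Nat.mul_div_cancel_left _ (by omega)] at h6
        omega
      refine ⟨?_, a3, a1, a2, a4⟩
      rw [hi, hij]
    by_cases hPj : P (j + 1)
    · rw [if_pos hPj]
      obtain ⟨S, hS⟩ : ∃ S : Finset ℕ,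
          S = ((ZA n p X).filter (fun x => (x.2 - 1) / (2 * p) - 1 = j)).image Prod.fst := ⟨_, rfl⟩
      have hSc : S.card = ((ZA n p X).filter (fun x => (x.2 - 1) / (2 * p) - 1 = j)).card := by
        rw [hS]
        refine card_image_of_injOn ?_
        intro x hx y hy hxy
        have hx' := h2 x (by simpa using hx)
        have hy' := h2 y (by simpa using hy)
        exact Prod.ext hxy (hx'.1.trans hy'.1.symm)
      have h3 := fibre n (1 + 2 * p * (j + 1)) (2 * p) (by omega) (by omega) S ?_ ?_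
      · rw [← hSc]
        refine h3.trans ?_
        have h4 : 2 * (n : ℝ) / (((1 + 2 * p * (j + 1) : ℕ) : ℝ) * ((2 * p : ℕ) : ℝ)) ≤
            n / (2 * (p : ℝ) ^ 2) * (1 / ((j : ℝ) + 1)) := by
          push_cast
          rw [div_mul_div_comm, mul_one, div_le_div_iff₀ (by positivity) (by positivity)]
          have hn0 : (0 : ℝ) ≤ n := by positivity
          have hj0 : (0 : ℝ) ≤ j := by positivity
          nlinarith [mul_nonneg hn0 hp0.le]
        linarith
      · intro x hx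
        rw [hS, mem_image] at hx
        obtain ⟨z, hz, rfl⟩ := hx
        have hz' := h2 z hz
        rw [← hz'.1]
        exact ⟨hz'.2.2.1, hz'.2.2.2.1⟩
      · intro x hx y hy
        rw [hS, mem_image] at hx hy
        obtain ⟨z, hz, rfl⟩ := hx
        obtain ⟨w, hw, rfl⟩ := hy
        exact (h2 z hz).2.1.trans (h2 w hw).2.1.symm
    · rw [if_neg hPj]
      have : (ZA n p X).filter (fun x => (x.2 - 1) / (2 * p) - 1 = j) = ∅ := by
        rw [eq_empty_iff_forall_notMem]
        intro x hx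
        have hx' := h2 x hx
        apply hPj
        rw [hPdef]
        have h3 := hx'.2.2.2.2
        rw [hx'.1] at h3
        exact h3
      rw [this]
      simp
  have hsplit : (∑ j ∈ range J, if P (j + 1) then
      ((n : ℝ) / (2 * (p : ℝ) ^ 2) * (1 / ((j : ℝ) + 1)) + 1) else 0) =
      n / (2 * (p : ℝ) ^ 2) * F P J + N P J := by
    rw [F, N, mul_sum, ← sum_add_distrib]
    refine sum_congr rfl fun j _ => ?_
    split_ifs <;> simp
  rw [hsplit] at hcard
  have hc0 : 0 ≤ (n : ℝ) / (2 * (p : ℝ) ^ 2) := by positivity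
  rcases Nat.eq_zero_or_pos J with h0 | h0
  · have e1 : F P J = 0 := by rw [h0]; simp [F]
    have e2 : N P J = 0 := by rw [h0]; simp [N]
    rw [e1, e2] at hcard
    have : 0 ≤ (n : ℝ) / (2 * (p : ℝ) ^ 2) * (5 / 4 + 2 / 3 * lam) + X / (3 * p) + 2 / 3 := by positivity
    linarith
  · have h1 := F_bd P hP h0
    have h2 := N_bd P hP J
    have h3 : Real.log J ≤ lam := by
      rw [Real.log_le_iff_le_exp (by exact_mod_cast h0)]
      refine hJX.trans ?_
      rw [div_le_iff₀ (by positivity)]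
      nlinarith [Real.exp_pos lam]
    have h4 : (n : ℝ) / (2 * (p : ℝ) ^ 2) * F P J ≤ n / (2 * (p : ℝ) ^ 2) * (5 / 4 + 2 / 3 * lam) := by
      refine mul_le_mul_of_nonneg_left ?_ hc0
      linarith
    have h5 : (2 * (J : ℝ) + 2) / 3 ≤ X / (3 * p) + 2 / 3 := by
      have e : X / (3 * p) = 2 * (X / (2 * p)) / 3 := by field_simp
      rw [e]
      linarith
    linarith

end Pool.Agent.Helper83.CY.ZA
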