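import Pool.Agent.Helper83.CY.ZA

/-! Zone B: small `l`. -/

set_option autoImplicit false

namespace Pool.Agent.Helper83.CY.ZB

open Finset Pool.Agent.Helper83.CY Pool.Agent.Helper83.CY.ZA

/-- prime to six -/
def P (k : ℕ) : Prop := k % 6 = 1 ∨ k % 6 = 5

instance : DecidablePred P := fun k => by unfold P; infer_instance

theorem P_no {k : ℕ} (h1 : k % 6 ≠ 1) (h5 : k % 6 ≠ 5) : ¬ P k := by
  rintro (h | h)
  · exact h1 h
  · exact h5 h

theorem P_1 {k : ℕ} (h : k % 6 = 1) : P k := Or.inl h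

theorem P_5 {k : ℕ} (h : k % 6 = 5) : P k := Or.inr h

theorem F_1 (i : ℕ) (s : ℕ) (hs : s ≤ 3) : F P (6 * i + 1 + s) = F P (6 * i + 1) := by
  interval_cases s
  · rfl
  · rw [F, show 6 * i + 1 + 1 = (6 * i + 1) + 1 by ring, sum_range_succ, ← F,
      if_neg (P_no (by omega) (by omega)), add_zero]
  · rw [F, show 6 * i + 1 + 2 = (6 * i + 1) + 1 + 1 by ring, sum_range_succ, sum_range_succ, ← F,
      if_neg (P_no (by omega) (by omega)), if_neg (P_no (by omega) (by omega)), add_zero, add_zero]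
  · rw [F, show 6 * i + 1 + 3 = (6 * i + 1) + 1 + 1 + 1 by ring, sum_range_succ, sum_range_succ,
      sum_range_succ, ← F, if_neg (P_no (by omega) (by omega)), if_neg (P_no (by omega) (by omega)),
      if_neg (P_no (by omega) (by omega)), add_zero, add_zero, add_zero]

theorem F_5 (i : ℕ) (s : ℕ) (hs : s ≤ 1) :
    F P (6 * i + 5 + s) = F P (6 * i + 1) + 1 / (6 * (i : ℝ) + 5) := by
  have h4 := F_1 i 3 (by norm_num)
  have h5 : F P (6 * i + 5) = F P (6 * i + 1) + 1 / (6 * (i : ℝ) + 5) := by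
    rw [F, show 6 * i + 5 = (6 * i + 1 + 3) + 1 by ring, sum_range_succ, ← F, h4,
      if_pos (P_5 (by omega))]
    congr 1
    push_cast
    ring
  interval_cases s
  · exact h5
  · rw [F, sum_range_succ, ← F, if_neg (P_no (by omega) (by omega)), add_zero]
    exact h5

theorem F_7 (i : ℕ) : F P (6 * (i + 1) + 1) = F P (6 * i + 1) + 1 / (6 * (i : ℝ) + 5) + 1 / (6 * (i : ℝ) + 7) := by
  rw [F, show 6 * (i + 1) + 1 = (6 * i + 5 + 1) + 1 by ring, sum_range_succ, ← F, F_5 i 1 le_rfl,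
      if_pos (P_1 (by omega))]
  congr 1
  push_cast
  ring

theorem log_gap {a b : ℝ} (ha : 0 < a) (hab : a ≤ b) : 2 * (b - a) / (b + a) ≤ Real.log b - Real.log a := by
  have h := Real.le_log_one_add_of_nonneg (x := (b - a) / a) (div_nonneg (by linarith) ha.le)
  have e : 1 + (b - a) / a = b / a := by field_simp; ring
  rw [e, Real.log_div (by linarith) ha.ne'] at h
  refine le_trans (le_of_eq ?_) h
  have h2 : (b - a) / a + 2 = (b + a) / a := by field_simp; ring
  rw [h2]
  field_simp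

theorem F_1bd (i : ℕ) : F P (6 * i + 1) ≤ 1 + 1 / 3 * Real.log (6 * (i : ℝ) + 1) := by
  induction i with
  | zero =>
    have : F P (6 * 0 + 1) = 1 := by
      simp [F, P]
    rw [this]
    simp
  | succ i ih =>
    rw [F_7]
    have h := log_gap (a := 6 * (i : ℝ) + 1) (b := 6 * (i : ℝ) + 7) (by positivity) (by linarith)
    have e : 6 * ((i + 1 : ℕ) : ℝ) + 1 = 6 * (i : ℝ) + 7 := by push_cast; ring
    rw [e]
    have h2 : 1 / (6 * (i : ℝ) + 5) + 1 / (6 * (i : ℝ) + 7) ≤
        1 / 3 * (2 * (6 * (i : ℝ) + 7 - (6 * (i : ℝ) + 1)) / (6 * (i : ℝ) + 7 + (6 * (i : ℝ) + 1))) := by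
      have hi : (0 : ℝ) ≤ i := by positivity
      rw [div_add_div _ _ (by positivity) (by positivity), mul_div_assoc', div_le_div_iff₀ (by positivity)
        (by positivity)]
      nlinarith
    linarith

theorem F_bd {K : ℕ} (hK : 1 ≤ K) : F P K ≤ 1 + 1 / 3 * Real.log K := by
  obtain ⟨i, s, hs, hKe⟩ : ∃ i s, s < 6 ∧ K = 6 * i + 1 + s := ⟨(K - 1) / 6, (K - 1) % 6,
    Nat.mod_lt _ (by norm_num), by omega⟩
  have h1 := F_1bd i
  rcases le_or_gt s 3 with h3 | h3
  · rw [hKe, F_1 i s h3]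
    refine h1.trans ?_
    have : Real.log (6 * (i : ℝ) + 1) ≤ Real.log ((6 * i + 1 + s : ℕ) : ℝ) := by
      apply Real.log_le_log (by positivity)
      push_cast
      linarith [show (0 : ℝ) ≤ s by positivity]
    linarith
  · obtain ⟨t, ht, hst⟩ : ∃ t, t ≤ 1 ∧ K = 6 * i + 5 + t := ⟨s - 4, by omega, by omega⟩
    rw [hst, F_5 i t ht]
    have h := log_gap (a := 6 * (i : ℝ) + 1) (b := 6 * (i : ℝ) + 5) (by positivity) (by linarith)
    have h2 : 1 / (6 * (i : ℝ) + 5) ≤
        1 / 3 * (2 * (6 * (i : ℝ) + 5 - (6 * (i : ℝ) + 1)) / (6 * (i : ℝ) + 5 + (6 * (i : ℝ) + 1))) := by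
      have hi : (0 : ℝ) ≤ i := by positivity
      rw [mul_div_assoc', div_le_div_iff₀ (by positivity) (by positivity)]
      nlinarith
    have h4 : Real.log (6 * (i : ℝ) + 5) ≤ Real.log ((6 * i + 5 + t : ℕ) : ℝ) := by
      apply Real.log_le_log (by positivity)
      push_cast
      linarith [show (0 : ℝ) ≤ t by positivity]
    linarith

theorem N_6 (i : ℕ) : N P (6 * i) = 2 * i := by
  induction i with
  | zero => simp [N]
  | succ i ih =>
    rw [N, show 6 * (i + 1) = 6 * i + 1 + 1 + 1 + 1 + 1 + 1 by ring, sum_range_succ, sum_range_succ,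
      sum_range_succ, sum_range_succ, sum_range_succ, sum_range_succ, ← N, ih,
      if_pos (P_1 (by omega)), if_neg (P_no (by omega) (by omega)), if_neg (P_no (by omega) (by omega)),
      if_neg (P_no (by omega) (by omega)), if_pos (P_5 (by omega)), if_neg (P_no (by omega) (by omega))]
    push_cast
    ring

theorem N_bd (K : ℕ) : N P K ≤ K / 3 + 2 / 3 := by
  obtain ⟨i, s, hs, hKe⟩ : ∃ i s, s < 6 ∧ K = 6 * i + s := ⟨K / 6, K % 6, Nat.mod_lt _ (by norm_num), by omega⟩
  have h6 := N_6 i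
  have h1 : N P (6 * i + 1) = 2 * i + 1 := by
    rw [N, sum_range_succ, ← N, h6, if_pos (P_1 (by omega))]
  have h2 : N P (6 * i + 2) = 2 * i + 1 := by
    rw [N, sum_range_succ, ← N, h1, if_neg (P_no (by omega) (by omega)), add_zero]
  have h3 : N P (6 * i + 3) = 2 * i + 1 := by
    rw [N, sum_range_succ, ← N, h2, if_neg (P_no (by omega) (by omega)), add_zero]
  have h4 : N P (6 * i + 4) = 2 * i + 1 := by
    rw [N, sum_range_succ, ← N, h3, if_neg (P_no (by omega) (by omega)), add_zero]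
  have h5 : N P (6 * i + 5) = 2 * i + 1 + 1 := by
    rw [N, sum_range_succ, ← N, h4, if_pos (P_5 (by omega))]
  subst hKe
  interval_cases s
  · rw [add_zero, h6]; push_cast; linarith
  · rw [h1]; push_cast; linarith
  · rw [h2]; push_cast; linarith
  · rw [h3]; push_cast; linarith
  · rw [h4]; push_cast; linarith
  · rw [h5]; push_cast; linarith

theorem zb : S_ZB := by
  classical
  intro n p X lam hn hp h5 hlam hX hX0
  have hp0 : (0 : ℝ) < p := by exact_mod_cast hp.pos
  obtain ⟨K, hK⟩ : ∃ K : ℕ, K = ⌊X / p⌋₊ := ⟨_, rfl⟩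
  have hKX : (K : ℝ) ≤ X / p := by rw [hK]; exact Nat.floor_le (by positivity)
  have hKle : ∀ k : ℕ, (p : ℝ) * k ≤ X → k ≤ K := by
    intro k hk
    rw [hK]
    refine Nat.le_floor ?_
    rw [le_div_iff₀ hp0]
    linarith
  -- the shape of the elements
  have shape : ∀ x ∈ ZB n p X, ∃ k, x.1 = p * (k + 1) ∧ P (k + 1) ∧ k + 1 ≤ K ∧
      x.2 ≡ 1 [MOD 2 * p] ∧ n ^ 2 < x.2 * x.1 ∧ x.2 * x.1 < (n + 1) ^ 2 := by
    intro x hx
    simp only [ZB, Pr, mem_filter] at hx
    obtain ⟨⟨_, a1, a2, h1, h2⟩, h3, h4⟩ := hx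
    obtain ⟨i, hi⟩ := modeq_shape (by omega) h1
    have e : x.1 = p * (2 * i + 1) := by rw [hi]; ring
    refine ⟨2 * i, e, ?_, ?_, h2, by rwa [mul_comm] at a1, by rwa [mul_comm] at a2⟩
    · have h5 : ¬ 3 ∣ 2 * i + 1 := fun h => h4 (by rw [e]; exact dvd_mul_of_dvd_right h p)
      unfold P
      omega
    · apply hKle
      rw [e] at h3
      push_cast at h3
      push_cast
      exact h3
  have hcard : ((ZB n p X).card : ℝ) ≤ ∑ k ∈ range K, if P (k + 1) then
      (n / (p : ℝ) ^ 2 * (1 / ((k : ℝ) + 1)) + 1) else 0 := by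
    have h1 : ∀ x ∈ ZB n p X, x.1 / p - 1 ∈ range K := by
      intro x hx
      obtain ⟨k, hk, _, hkK, _⟩ := shape x hx
      rw [mem_range, hk, Nat.mul_div_cancel_left _ (by omega)]
      omega
    rw [card_eq_sum_card_fiberwise h1]
    push_cast
    refine sum_le_sum fun j hj => ?_
    have h2 : ∀ x ∈ (ZB n p X).filter (fun x => x.1 / p - 1 = j),
        x.1 = p * (j + 1) ∧ P (j + 1) ∧ x.2 ≡ 1 [MOD 2 * p] ∧ n ^ 2 < x.2 * x.1 ∧ x.2 * x.1 < (n + 1) ^ 2 := by
      intro x hx
      rw [mem_filter] at hx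
      obtain ⟨k, hk, hP, _, h3⟩ := shape x hx.1
      have hkj : k = j := by
        have := hx.2
        rw [hk, Nat.mul_div_cancel_left _ (by omega)] at this
        omega
      rw [hkj] at hk hP
      exact ⟨hk, hP, h3⟩
    by_cases hPj : P (j + 1)
    · rw [if_pos hPj]
      obtain ⟨S, hS⟩ : ∃ S : Finset ℕ,
          S = ((ZB n p X).filter (fun x => x.1 / p - 1 = j)).image Prod.snd := ⟨_, rfl⟩
      have hSc : S.card = ((ZB n p X).filter (fun x => x.1 / p - 1 = j)).card := by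
        rw [hS]
        refine card_image_of_injOn ?_
        intro x hx y hy hxy
        have hx' := h2 x (by simpa using hx)
        have hy' := h2 y (by simpa using hy)
        exact Prod.ext (hx'.1.trans hy'.1.symm) hxy
      have h3 := fibre n (p * (j + 1)) (2 * p) (Nat.mul_pos hp.pos (by omega)) (by omega) S ?_ ?_
      · rw [← hSc]
        refine h3.trans (le_of_eq ?_)
        push_cast
        field_simp
      · intro x hx
        rw [hS, mem_image] at hx
        obtain ⟨z, hz, rfl⟩ := hx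
        have hz' := h2 z hz
        rw [← hz'.1]
        exact ⟨hz'.2.2.2.1, hz'.2.2.2.2⟩
      · intro x hx y hy
        rw [hS, mem_image] at hx hy
        obtain ⟨z, hz, rfl⟩ := hx
        obtain ⟨w, hw, rfl⟩ := hy
        exact (h2 z hz).2.2.1.trans (h2 w hw).2.2.1.symm
    · rw [if_neg hPj]
      have : (ZB n p X).filter (fun x => x.1 / p - 1 = j) = ∅ := by
        rw [eq_empty_iff_forall_notMem]
        intro x hx
        exact hPj (h2 x hx).2.1
      rw [this]
      simp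
  have hsplit : (∑ k ∈ range K, if P (k + 1) then
      ((n : ℝ) / (p : ℝ) ^ 2 * (1 / ((k : ℝ) + 1)) + 1) else 0) =
      n / (p : ℝ) ^ 2 * F P K + N P K := by
    rw [F, N, mul_sum, ← sum_add_distrib]
    refine sum_congr rfl fun j _ => ?_
    split_ifs <;> simp
  rw [hsplit] at hcard
  have hc0 : 0 ≤ (n : ℝ) / (p : ℝ) ^ 2 := by positivity
  rcases Nat.eq_zero_or_pos K with h0 | h0
  · have e1 : F P K = 0 := by rw [h0]; simp [F]
    have e2 : N P K = 0 := by rw [h0]; simp [N]
    rw [e1, e2] at hcard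
    have : 0 ≤ (n : ℝ) / (p : ℝ) ^ 2 * (1 + 1 / 3 * lam) + X / (3 * p) + 2 / 3 := by positivity
    linarith
  · have h1 := F_bd h0
    have h2 := N_bd K
    have h3 : Real.log K ≤ lam := by
      rw [Real.log_le_iff_le_exp (by exact_mod_cast h0)]
      refine hKX.trans ?_
      rw [div_le_iff₀ hp0]
      linarith
    have h4 : (n : ℝ) / (p : ℝ) ^ 2 * F P K ≤ n / (p : ℝ) ^ 2 * (1 + 1 / 3 * lam) := by
      refine mul_le_mul_of_nonneg_left ?_ hc0
      linarith
    have h5 : (K : ℝ) / 3 + 2 / 3 ≤ X / (3 * p) + 2 / 3 := by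
      have e : X / (3 * p) = (X / p) / 3 := by field_simp
      rw [e]
      linarith
    linarith

end Pool.Agent.Helper83.CY.ZB
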