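import Pool.Agent.Helper83.CY.AC
import Pool.Agent.Helper83.CY.ARC
import Pool.Agent.Helper83.CY.MID
import Pool.Agent.Helper83.CY.ZA
import Pool.Agent.Helper83.CY.ZB
import Pool.Agent.Helper83.CY.SMALL
import Pool.Agent.Helper83.CY.Leg
import Pool.Agent.Helper83.CY.Red
import Pool.Agent.Helper83.CY.Sq
import Pool.Agent.Helper83.CY.LG3
import Pool.Agent.Helper83.CY.L2A
import Pool.Agent.Helper83.CY.L2B
import Pool.Agent.Helper83.CY.NT
import Pool.Agent.Helper83.CY.DG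
import Pool.Agent.Helper83.CY.CV
import Pool.Agent.Helper83.CY.CP
import Pool.Agent.Helper83.CY.CD
import Pool.Agent.Helper83.CY.Cheb
import Pool.Agent.Helper83.CY.FINA
import Pool.Agent.Helper83.CY.FINB
import Pool.Agent.Helper83.CY.TailA
import Pool.Agent.Helper83.CY.Tail
import Pool.Agent.Helper83.CY.E0b
import Pool.Agent.Helper83.CY.OB1
import Pool.Agent.Helper83.CY.OB2
import Pool.Agent.Helper83.CY.T1
import Pool.Agent.Helper83.CY.T2
import Pool.Agent.Helper83.CY.T3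
import Pool.Agent.Helper83.CY.T4

namespace Pool.Agent.Helper83.CY.Big

open Pool.Agent.Helper83.CY

theorem ac : S_AC :=
  AC.ac Leg.leg Red.red Sq.sq (SMALL.small_bd (MID.mid ARC.arc) ZA.za ZB.zb) LG3.lg3 L2A.l2a
    L2B.l2b

theorem ta : S_TA := TailA.taila ac NT.nt DG.dg

theorem fin : S_FIN := by
  intro n h1 h2
  rcases le_or_gt n (10 ^ 9) with h | h
  · exact FINA.finA ac NT.nt CV.cv CP.cp CD.cd n h1 h
  · exact FINB.finB ac NT.nt CV.cv CP.cp CD.cd n h.le h2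

theorem tail : S_TAIL :=
  Tail.tail E0b.cube
    (T1.t1 ta OB1.ob1 OB2.ob2 E0b.e0 NT.nt CV.cv CP.cp)
    (T2.t2 ta OB1.ob1 OB2.ob2 E0b.e0 NT.nt CV.cv CP.cp)
    (T3.t3 ta OB1.ob1 OB2.ob2 E0b.e0 NT.nt CV.cv CP.cp)
    (T4.t4 ta OB2.ob2 E0b.e0 NT.nt (CHEB.cheb CV.v5003))

end Pool.Agent.Helper83.CY.Big
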