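import Pool.Agent.Helper83.CY.Base

/-! numerical constants: statements (proofs in modules CV, CP, CD) -/

namespace Pool.Agent.Helper83.CY

def S_V71 : Prop := (1277976 : ℝ) / 10 ^ 7 ≤ V 71 ∧ (PP 0 71).card = 20
def S_V83 : Prop := (1229520 : ℝ) / 10 ^ 7 ≤ V 83 ∧ (PP 0 83).card = 23
def S_V97 : Prop := (1203172 : ℝ) / 10 ^ 7 ≤ V 97 ∧ (PP 0 97).card = 25
def S_V131 : Prop := (1129971 : ℝ) / 10 ^ 7 ≤ V 131 ∧ (PP 0 131).card = 32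
def S_V151 : Prop := (1098853 : ℝ) / 10 ^ 7 ≤ V 151 ∧ (PP 0 151).card = 36
def S_V1021 : Prop := (806468 : ℝ) / 10 ^ 7 ≤ V 1021 ∧ (PP 0 1021).card = 172
def S_V5003 : Prop := (658025 : ℝ) / 10 ^ 7 ≤ V 5003 ∧ (PP 0 5003).card = 670
def S_P71_3000 : Prop := S1 71 3000 ≤ (601183 : ℝ) / 10 ^ 6 ∧ S2 71 3000 ≤ (250714 : ℝ) / 10 ^ 8 ∧ (PP 71 3000).card = 410
def S_P71_4000 : Prop := S1 71 4000 ≤ (635717 : ℝ) / 10 ^ 6 ∧ S2 71 4000 ≤ (251715 : ℝ) / 10 ^ 8 ∧ (PP 71 4000).card = 530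
def S_P71_6000 : Prop := S1 71 6000 ≤ (683118 : ℝ) / 10 ^ 6 ∧ S2 71 6000 ≤ (252692 : ℝ) / 10 ^ 8 ∧ (PP 71 6000).card = 763
def S_P83_16000 : Prop := S1 83 16000 ≤ (751354 : ℝ) / 10 ^ 6 ∧ S2 83 16000 ≤ (204530 : ℝ) / 10 ^ 8 ∧ (PP 83 16000).card = 1839
def S_P97_20000 : Prop := S1 97 20000 ≤ (752118 : ℝ) / 10 ^ 6 ∧ S2 97 20000 ≤ (181402 : ℝ) / 10 ^ 8 ∧ (PP 97 20000).card = 2237
def S_P131_20000 : Prop := S1 131 20000 ≤ (689631 : ℝ) / 10 ^ 6 ∧ S2 131 20000 ≤ (125164 : ℝ) / 10 ^ 8 ∧ (PP 131 20000).card = 2230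
def S_P151_20000 : Prop := S1 151 20000 ≤ (661803 : ℝ) / 10 ^ 6 ∧ S2 151 20000 ≤ (105770 : ℝ) / 10 ^ 8 ∧ (PP 151 20000).card = 2226
def S_P1021_20000 : Prop := S1 1021 20000 ≤ (352916 : ℝ) / 10 ^ 6 ∧ S2 1021 20000 ≤ (11850 : ℝ) / 10 ^ 8 ∧ (PP 1021 20000).card = 2090
def S_P5003_20000 : Prop := S1 5003 20000 ≤ (149546 : ℝ) / 10 ^ 6 ∧ S2 5003 20000 ≤ (1644 : ℝ) / 10 ^ 8 ∧ (PP 5003 20000).card = 1592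
def S_D256 : Prop := (AB 256).card = 1065 ∧ D1 256 ≤ (113700 : ℝ) / 10 ^ 3
def S_D400 : Prop := (AB 400).card = 1771 ∧ D1 400 ≤ (152900 : ℝ) / 10 ^ 3
def S_D576 : Prop := (AB 576).card = 2685 ∧ D1 576 ≤ (194400 : ℝ) / 10 ^ 3
def S_D2500 : Prop := (AB 2500).card = 13865 ∧ D1 2500 ≤ (493800 : ℝ) / 10 ^ 3
def S_D10000 : Prop := (AB 10000).card = 63869 ∧ D1 10000 ≤ (1156000 : ℝ) / 10 ^ 3

/-- module CV -/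
def S_CV : Prop := S_V71 ∧ S_V83 ∧ S_V97 ∧ S_V131 ∧ S_V151 ∧ S_V1021 ∧ S_V5003

/-- module CP -/
def S_CP : Prop := S_P71_3000 ∧ S_P71_4000 ∧ S_P71_6000 ∧ S_P83_16000 ∧ S_P97_20000 ∧ S_P131_20000 ∧ S_P151_20000 ∧ S_P1021_20000 ∧ S_P5003_20000

/-- module CD -/
def S_CD : Prop := S_D256 ∧ S_D400 ∧ S_D576 ∧ S_D2500 ∧ S_D10000

end Pool.Agent.Helper83.CY
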