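import Pool.Agent.Helper83.CY.Base

/-! module DG: lattice points under the hyperbola -/

namespace Pool.Agent.Helper83.CY.DG

open Finset

theorem sum_AB_le (R : ℕ) (f : ℕ → ℕ → ℝ) (hf : ∀ a b, 0 ≤ f a b) :
    ∑ x ∈ AB R, f x.1 x.2 ≤ ∑ a ∈ Icc 1 R, ∑ b ∈ Icc 1 (R / a), f a b := by
  have h1 : AB R ⊆ ((Icc 1 R) ×ˢ (Icc 1 R)).filter (fun x => x.1 * x.2 ≤ R) := by
    intro x hx
    simp only [AB, mem_filter] at hx ⊢
    exact ⟨hx.1, hx.2.1⟩
  refine (sum_le_sum_of_subset_of_nonneg h1 (fun x _ _ => hf _ _)).trans (le_of_eq ?_)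
  rw [sum_filter, sum_product]
  refine sum_congr rfl (fun a ha => ?_)
  have ha1 : 1 ≤ a := (mem_Icc.1 ha).1
  rw [← sum_filter]
  refine sum_congr ?_ (fun _ _ => rfl)
  ext b
  simp only [mem_filter, mem_Icc]
  rw [Nat.le_div_iff_mul_le (by omega)]
  constructor
  · rintro ⟨⟨h1, _⟩, h3⟩
    exact ⟨h1, by rw [mul_comm]; exact h3⟩
  · rintro ⟨h1, h2⟩
    refine ⟨⟨h1, ?_⟩, by rw [mul_comm]; exact h2⟩
    exact (Nat.le_mul_of_pos_right b (by omega)).trans h2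

theorem sum_inv_le (R : ℕ) : ∑ a ∈ Icc 1 R, 1 / (a : ℝ) ≤ 1 + Real.log R := by
  have h := harmonic_le_one_add_log R
  have e : ((harmonic R : ℚ) : ℝ) = ∑ a ∈ Icc 1 R, 1 / (a : ℝ) := by
    rw [harmonic_eq_sum_Icc]
    push_cast
    exact sum_congr rfl (fun a _ => by rw [one_div])
  rw [← e]
  exact h

theorem sum_inv_sqrt_le (m : ℕ) : ∑ b ∈ Icc 1 m, 1 / Real.sqrt b ≤ 2 * Real.sqrt m := by
  induction m with
  | zero => simp
  | succ m ih =>
    rw [sum_Icc_succ_top (by omega)]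
    have hs1 : 0 < Real.sqrt ((m + 1 : ℕ) : ℝ) := Real.sqrt_pos.2 (by positivity)
    have hs0 : 0 ≤ Real.sqrt (m : ℝ) := Real.sqrt_nonneg _
    have e1 : Real.sqrt ((m + 1 : ℕ) : ℝ) ^ 2 = (m : ℝ) + 1 := by
      rw [Real.sq_sqrt (by positivity)]; push_cast; ring
    have e0 : Real.sqrt (m : ℝ) ^ 2 = (m : ℝ) := Real.sq_sqrt (by positivity)
    have key : 1 / Real.sqrt ((m + 1 : ℕ) : ℝ)
        ≤ 2 * Real.sqrt ((m + 1 : ℕ) : ℝ) - 2 * Real.sqrt (m : ℝ) := by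
      rw [div_le_iff₀ hs1]
      nlinarith [sq_nonneg (Real.sqrt ((m + 1 : ℕ) : ℝ) - Real.sqrt (m : ℝ))]
    linarith

theorem dg : S_DG := by
  intro R hR
  have hR0 : (0 : ℝ) < R := by exact_mod_cast hR
  constructor
  · have h := sum_AB_le R (fun _ _ => 1) (fun _ _ => by norm_num)
    have e : D0 R = ∑ x ∈ AB R, (1 : ℝ) := by simp [D0]
    rw [e]
    refine h.trans ?_
    have h2 : ∑ a ∈ Icc 1 R, ∑ _b ∈ Icc 1 (R / a), (1 : ℝ) ≤ ∑ a ∈ Icc 1 R, (R : ℝ) * (1 / (a : ℝ)) := by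
      refine sum_le_sum (fun a _ => ?_)
      simp only [sum_const, Nat.card_Icc, Nat.add_sub_cancel, nsmul_eq_mul, mul_one]
      refine (Nat.cast_div_le).trans (le_of_eq ?_)
      ring
    refine h2.trans ?_
    rw [← mul_sum]
    exact mul_le_mul_of_nonneg_left (sum_inv_le R) hR0.le
  · have h := sum_AB_le R (fun a b => 1 / Real.sqrt ((a : ℝ) * b)) (fun _ _ => by positivity)
    refine h.trans ?_
    have h2 : ∑ a ∈ Icc 1 R, ∑ b ∈ Icc 1 (R / a), 1 / Real.sqrt ((a : ℝ) * b)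
        ≤ ∑ a ∈ Icc 1 R, (2 * Real.sqrt R) * (1 / (a : ℝ)) := by
      refine sum_le_sum (fun a ha => ?_)
      have ha1 : 1 ≤ a := (mem_Icc.1 ha).1
      have ha0 : (0 : ℝ) < a := by exact_mod_cast ha1
      have e : ∑ b ∈ Icc 1 (R / a), 1 / Real.sqrt ((a : ℝ) * b)
          = (1 / Real.sqrt a) * ∑ b ∈ Icc 1 (R / a), 1 / Real.sqrt b := by
        rw [mul_sum]
        refine sum_congr rfl (fun b _ => ?_)
        rw [Real.sqrt_mul ha0.le]
        rw [one_div_mul_one_div]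
      rw [e]
      have h3 : Real.sqrt ((R / a : ℕ) : ℝ) ≤ Real.sqrt R / Real.sqrt a := by
        rw [← Real.sqrt_div hR0.le]
        exact Real.sqrt_le_sqrt Nat.cast_div_le
      have hsa : 0 < Real.sqrt (a : ℝ) := Real.sqrt_pos.2 ha0
      calc (1 / Real.sqrt a) * ∑ b ∈ Icc 1 (R / a), 1 / Real.sqrt b
          ≤ (1 / Real.sqrt a) * (2 * Real.sqrt ((R / a : ℕ) : ℝ)) :=
            mul_le_mul_of_nonneg_left (sum_inv_sqrt_le _) (by positivity)
        _ ≤ (1 / Real.sqrt a) * (2 * (Real.sqrt R / Real.sqrt a)) :=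
            mul_le_mul_of_nonneg_left (by linarith) (by positivity)
        _ = (2 * Real.sqrt R) * (1 / (a : ℝ)) := by
            have : (a : ℝ) = Real.sqrt a * Real.sqrt a := (Real.mul_self_sqrt ha0.le).symm
            rw [this]
            simp only [Real.sqrt_mul_self hsa.le]
            field_simp
    refine h2.trans ?_
    rw [← mul_sum]
    exact mul_le_mul_of_nonneg_left (sum_inv_le R) (by positivity)


end Pool.Agent.Helper83.CY.DG
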