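import Pool.Agent.Helper83.CY.Const

/-! Cyclic numbers between consecutive squares: the general lemma for the ranges of `FINA`,
`FINB`. -/

namespace Pool.Agent.Helper83.CY.FINC

open Pool.Agent.Helper83.CY

theorem exp_ge {a b : ℕ} {X : ℝ} (hb : 0 < b)
    (h : X ^ b ≤ (2.7182818283 : ℝ) ^ a) : X ≤ Real.exp ((a : ℝ) / b) := by
  have h1 : Real.exp ((a : ℝ) / b) ^ b = Real.exp 1 ^ a := by
    rw [← Real.exp_nat_mul, ← Real.exp_nat_mul]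
    congr 1
    field_simp
  have h2 : X ^ b ≤ Real.exp ((a : ℝ) / b) ^ b := by
    rw [h1]
    refine h.trans (pow_le_pow_left₀ (by norm_num) Real.exp_one_gt_d9.le a)
  exact le_of_pow_le_pow_left₀ hb.ne' (Real.exp_pos _).le h2

theorem PP_split {a b c : ℕ} (hab : a ≤ b) (hbc : b ≤ c) :
    PP a c = PP a b ∪ PP b c := by
  ext x
  simp only [PP, Finset.mem_filter, Finset.mem_union, Finset.mem_Ioc]
  constructor
  · rintro ⟨⟨h1, h2⟩, h3⟩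
    rcases le_or_gt x b with h | h
    · exact Or.inl ⟨⟨h1, h⟩, h3⟩
    · exact Or.inr ⟨⟨h, h2⟩, h3⟩
  · rintro (⟨⟨h1, h2⟩, h3⟩ | ⟨⟨h1, h2⟩, h3⟩)
    · exact ⟨⟨h1, by omega⟩, h3⟩
    · exact ⟨⟨by omega, h2⟩, h3⟩

theorem PP_disj (a b c : ℕ) : Disjoint (PP a b) (PP b c) := by
  rw [Finset.disjoint_left]
  intro x h1 h2
  simp only [PP, Finset.mem_filter, Finset.mem_Ioc] at h1 h2
  omega

theorem S2_split {a b c : ℕ} (hab : a ≤ b) (hbc : b ≤ c) : S2 a c = S2 a b + S2 b c := by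
  unfold S2
  rw [PP_split hab hbc, Finset.sum_union (PP_disj a b c)]

theorem nu_split {a b c : ℕ} (hab : a ≤ b) (hbc : b ≤ c) : nu a c = nu a b + nu b c := by
  unfold nu
  rw [PP_split hab hbc, Finset.card_union_of_disjoint (PP_disj a b c)]
  push_cast
  rfl

theorem S1_nonneg (a b : ℕ) : 0 ≤ S1 a b := Finset.sum_nonneg fun _ _ => by positivity
theorem S2_nonneg (a b : ℕ) : 0 ≤ S2 a b := Finset.sum_nonneg fun _ _ => by positivity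
theorem nu_nonneg (a b : ℕ) : 0 ≤ nu a b := by unfold nu; positivity
theorem D0_nonneg (R : ℕ) : 0 ≤ D0 R := by unfold D0; positivity
theorem D1_nonneg (R : ℕ) : 0 ≤ D1 R := Finset.sum_nonneg fun _ _ => by positivity

/-- upper bound for the sum `S2` over a segment -/
noncomputable def sg (P P' : ℕ) : ℝ := 1 / 3 * (1 / ((P : ℝ) - 3) - 1 / ((P' : ℝ) + 4))

/-- upper bound for the number of primes of a segment -/
noncomputable def nn (P P' : ℕ) : ℝ := ((P' : ℝ) - P) / 3 + 2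

/-- one segment -/
theorem seg (hNT : S_NT) {P P' e : ℕ} {x th : ℝ} (h6 : 6 ≤ P) (h : P ≤ P') (hx : 0 ≤ x)
    (hth : 0 < th) :
    2 ^ e * ((2 * x + 1 + x / th) / 2 * S2 P P' + nu P P') ≤
      x * (2 ^ e * ((2 + 1 / th) / 2 * sg P P')) + 2 ^ e * (sg P P' / 2 + nn P P') := by
  obtain ⟨h1, h2, -⟩ := hNT P P' h6 h
  have h1' : S2 P P' ≤ sg P P' := h1
  have h2' : nu P P' ≤ nn P P' := h2
  have e1 : x * (2 ^ e * ((2 + 1 / th) / 2 * sg P P')) + 2 ^ e * (sg P P' / 2 + nn P P') =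
      2 ^ e * ((2 * x + 1 + x / th) / 2 * sg P P' + nn P P') := by
    field_simp
    ring
  rw [e1]
  have h0 := S2_nonneg P P'
  gcongr

theorem sq_aux {a b : ℝ} (ha : 0 < a) (hab : a ≤ b) :
    (2 * b + 1) * a ^ 2 ≤ (2 * a + 1) * b ^ 2 := by
  have h : (2 * a + 1) * b ^ 2 - (2 * b + 1) * a ^ 2 = 2 * a * b * (b - a) + (b - a) * (b + a) := by
    ring
  have h1 : 0 ≤ b - a := by linarith
  have h2 : 0 < b := by linarith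
  have h3 : 0 ≤ 2 * a * b * (b - a) + (b - a) * (b + a) := by positivity
  linarith

theorem A_aux {x y : ℝ} (hx : 1 ≤ x) (hxy : x ≤ y) : (x + 1) ^ 2 / x ≤ y + 3 := by
  rw [div_le_iff₀ (by linarith)]
  nlinarith

theorem A_aux' {x : ℝ} (hx : 0 < x) : x ≤ (x + 1) ^ 2 / x := by
  rw [le_div_iff₀ hx]
  nlinarith

set_option maxHeartbeats 4000000 in
theorem core (hAC : S_AC) (hNT : S_NT) {n nlo nhi y p0 P1 P2 P3 P4 e0 e1 e2 e3 q Z r k0 N0 : ℕ}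
    {v s1 s2 d0 d1 lam th kap LA L4 w : ℝ}
    (hn1 : nlo ≤ n) (hn2 : n ≤ nhi) (h4 : 4 ≤ nlo)
    (hV : v ≤ V y) (hk : (PP 0 y).card = k0)
    (hS1 : S1 y p0 ≤ s1) (hS2 : S2 y p0 ≤ s2) (hN : (PP y p0).card = N0)
    (hD0 : D0 (q ^ 2) ≤ d0) (hD1 : D1 (q ^ 2) ≤ d1)
    (hy : 3 ≤ y) (hyp : y ≤ p0) (h6 : 6 ≤ p0)
    (h01 : p0 ≤ P1) (h12 : P1 ≤ P2) (h23 : P2 ≤ P3) (h34 : P3 ≤ P4) (h4n : P4 ≤ nlo + 1)
    (hE0 : (nhi + 1) ^ 2 ≤ (y + 1) ^ (e0 + 1) * p0 ^ 2)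
    (hE1 : (nhi + 1) ^ 2 ≤ (y + 1) ^ (e1 + 1) * P1 ^ 2)
    (hE2 : (nhi + 1) ^ 2 ≤ (y + 1) ^ (e2 + 1) * P2 ^ 2)
    (hE3 : (nhi + 1) ^ 2 ≤ (y + 1) ^ (e3 + 1) * P3 ^ 2)
    (hq : 1 ≤ q) (hZ : p0 ≤ Z) (hlam : 0 ≤ lam)
    (hX : ((nhi : ℝ) + 1) / q ≤ y * Real.exp lam)
    (hth : 0 < th) (hA1 : 1 ≤ th * nlo) (hA2 : th * ((nhi : ℝ) + 3) ≤ 2 * (p0 : ℝ) ^ (r + 1))
    (hLA : th * ((nhi : ℝ) + 3) ≤ Real.exp LA)
    (hL4 : ((nhi : ℝ) + 1) ^ 2 / (P4 : ℝ) ^ 2 ≤ Real.exp L4) (hL4' : 0 ≤ L4)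
    (hkap : 0 ≤ kap) (hk2 : 2 * (nlo : ℝ) + 1 ≤ kap ^ 2 * (nlo : ℝ) ^ 2)
    (hw : w = 1 + 1 / (nlo : ℝ))
    (C0 C1 : ℝ)
    (hC0 : C0 = (2 : ℝ) ^ k0 + (N0 + nn p0 Z + 1) + 4 / 3 * N0 +
      d0 * (2 * q * s1 + 4 * N0) +
      (2 ^ e0 * (sg p0 P1 / 2 + nn p0 P1) + 2 ^ e1 * (sg P1 P2 / 2 + nn P1 P2) +
       2 ^ e2 * (sg P2 P3 / 2 + nn P2 P3) + 2 ^ e3 * (sg P3 P4 / 2 + nn P3 P4)) + r)
    (hC1 : C1 = 2 * v - (s2 + sg p0 Z + w ^ 2 * nhi / (2 * (Z : ℝ) ^ 2)) -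
      (s2 * (13 / 8 + 2 / 3 * lam) + 2 / 3 * (w / q) * s1 + d0 * (kap * s2) +
        d1 * (2 * kap * s1 + w / (2 * q) * s2 + w / (4 * (q : ℝ) ^ 2) * s1)) -
      (2 ^ e0 * ((2 + 1 / th) / 2 * sg p0 P1) + 2 ^ e1 * ((2 + 1 / th) / 2 * sg P1 P2) +
       2 ^ e2 * ((2 + 1 / th) / 2 * sg P2 P3) + 2 ^ e3 * ((2 + 1 / th) / 2 * sg P3 P4)) -
      r * (1 / (p0 : ℝ) * (1 / 2 * LA) + th * w ^ 2 / 3) -
      w ^ 2 * nhi / (P4 : ℝ) ^ 2 / 2 * (1 + 1 / 2 * L4))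
    (hpos : 0 ≤ C1) (hfin : 2 + C0 ≤ nlo * C1) : 2 ≤ (CycI n).card := by
  have hnlo : (0 : ℝ) < nlo := by exact_mod_cast (by omega : 0 < nlo)
  have hn1' : (nlo : ℝ) ≤ n := by exact_mod_cast hn1
  have hn2' : (n : ℝ) ≤ nhi := by exact_mod_cast hn2
  have hn0 : (0 : ℝ) < n := by linarith
  have hn1r : (1 : ℝ) ≤ n := by
    have : 1 ≤ n := by omega
    exact_mod_cast this
  have hq' : (0 : ℝ) < q := by exact_mod_cast (by omega : 0 < q)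
  have hp0' : (0 : ℝ) < p0 := by exact_mod_cast (by omega : 0 < p0)
  have hP4 : (0 : ℝ) < P4 := by exact_mod_cast (by omega : 0 < P4)
  have hZ' : (0 : ℝ) < Z := by exact_mod_cast (by omega : 0 < Z)
  have hw0 : 0 < w := by rw [hw]; positivity
  -- `n + 1 ≤ w n`
  have hwn : (n : ℝ) + 1 ≤ w * n := by
    have : 1 ≤ (n : ℝ) / nlo := by
      rw [le_div_iff₀ hnlo]
      linarith
    have e : w * n = n + n / nlo := by
      rw [hw]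
      ring
    rw [e]
    linarith
  have hwn2 : ((n : ℝ) + 1) ^ 2 ≤ w ^ 2 * n * nhi := by
    have h1 : ((n : ℝ) + 1) ^ 2 ≤ (w * n) ^ 2 := pow_le_pow_left₀ (by positivity) hwn 2
    have h2 : (w * n) ^ 2 = w ^ 2 * n * n := by ring
    rw [h2] at h1
    refine h1.trans ?_
    gcongr
  have hsq : Real.sqrt (2 * n + 1) ≤ kap * n := by
    apply Real.sqrt_le_iff.mpr
    refine ⟨by positivity, ?_⟩
    have h1 : (2 * (nlo : ℝ) + 1) * (n : ℝ) ^ 2 ≤ kap ^ 2 * (nlo : ℝ) ^ 2 * (n : ℝ) ^ 2 := by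
      gcongr
    have h2 : (2 * (n : ℝ) + 1) * (nlo : ℝ) ^ 2 ≤ (2 * (nlo : ℝ) + 1) * (n : ℝ) ^ 2 := by
      exact sq_aux hnlo hn1'
    have h3 : (2 * (n : ℝ) + 1) * (nlo : ℝ) ^ 2 ≤ (kap * n) ^ 2 * (nlo : ℝ) ^ 2 := by
      have : kap ^ 2 * (nlo : ℝ) ^ 2 * (n : ℝ) ^ 2 = (kap * n) ^ 2 * (nlo : ℝ) ^ 2 := by ring
      rw [← this]
      exact h2.trans h1
    exact le_of_mul_le_mul_right h3 (by positivity)
  -- A
  set G : ℝ := n / th with hG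
  have hG0 : 0 < G := by positivity
  set A : ℝ := ((n : ℝ) + 1) ^ 2 / G with hA
  have hAe : A = th * (((n : ℝ) + 1) ^ 2 / n) := by
    rw [hA, hG]
    field_simp
  have hAlo : 1 ≤ A := by
    rw [hAe]
    have h1 : (n : ℝ) ≤ ((n : ℝ) + 1) ^ 2 / n := A_aux' hn0
    calc (1 : ℝ) ≤ th * nlo := hA1
      _ ≤ th * n := by gcongr
      _ ≤ _ := by gcongr
  have hAhi : A ≤ th * ((nhi : ℝ) + 3) := by
    rw [hAe]
    have h1 : ((n : ℝ) + 1) ^ 2 / n ≤ (nhi : ℝ) + 3 := A_aux hn1r hn2'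
    gcongr
  have hAw : A ≤ th * w ^ 2 * n := by
    rw [hAe]
    have h1 : ((n : ℝ) + 1) ^ 2 / n ≤ w ^ 2 * n := by
      rw [div_le_iff₀ hn0]
      have h1 : ((n : ℝ) + 1) ^ 2 ≤ (w * n) ^ 2 := pow_le_pow_left₀ (by positivity) hwn 2
      calc ((n : ℝ) + 1) ^ 2 ≤ (w * n) ^ 2 := h1
        _ = w ^ 2 * n * n := by ring
    calc th * (((n : ℝ) + 1) ^ 2 / n) ≤ th * (w ^ 2 * n) := by gcongr
      _ = _ := by ring
  have hlogA : Real.log A ≤ LA := by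
    rw [← Real.log_exp LA]
    exact Real.log_le_log (by linarith) (hAhi.trans hLA)
  have hsqR : Real.sqrt ((q ^ 2 : ℕ) : ℝ) = q := by
    push_cast
    exact Real.sqrt_sq hq'.le
  -- the last term
  have hlog4 : Real.log (((n : ℝ) + 1) ^ 2 / (P4 : ℝ) ^ 2) ≤ L4 := by
    rw [← Real.log_exp L4]
    refine Real.log_le_log (by positivity) (le_trans ?_ hL4)
    gcongr
  have hmono : ∀ {P e : ℕ}, (nhi + 1) ^ 2 ≤ (y + 1) ^ (e + 1) * P ^ 2 →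
      (n + 1) ^ 2 ≤ (y + 1) ^ (e + 1) * P ^ 2 := fun {P e} h =>
    (Nat.pow_le_pow_left (by omega) 2).trans h
  have key := hAC n y p0 P1 P2 P3 P4 e0 e1 e2 e3 (q ^ 2) Z r lam G A (by omega) hy hyp h01 h12
    h23 h34 (by omega) (hmono hE0) (hmono hE1) (hmono hE2) (hmono hE3) (Nat.one_le_pow _ _ hq)
    (by omega) hlam
    (by
      rw [hsqR]
      refine le_trans ?_ hX
      gcongr)
    hG0 hA hAlo (hAhi.trans hA2)
  -- the terms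
  have t0 : (2 : ℝ) * n * v - 2 ^ k0 ≤ 2 * (n : ℝ) * V y - 2 ^ ((PP 0 y).card) := by
    rw [hk]
    gcongr
  have t1 : (n : ℝ) * S2 y Z + nu y Z + ((n : ℝ) + 1) ^ 2 / (2 * (Z : ℝ) ^ 2) + 1 ≤
      n * (s2 + sg p0 Z + w ^ 2 * nhi / (2 * (Z : ℝ) ^ 2)) + (N0 + nn p0 Z + 1) := by
    obtain ⟨g1, g2, -⟩ := hNT p0 Z h6 hZ
    have g1' : S2 p0 Z ≤ sg p0 Z := g1
    have g2' : nu p0 Z ≤ nn p0 Z := g2
    have g3 : S2 y Z ≤ s2 + sg p0 Z := by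
      rw [S2_split hyp hZ]
      exact add_le_add hS2 g1'
    have g4 : nu y Z ≤ N0 + nn p0 Z := by
      rw [nu_split hyp hZ]
      refine add_le_add ?_ g2'
      unfold nu
      rw [hN]
    have g5 : ((n : ℝ) + 1) ^ 2 / (2 * (Z : ℝ) ^ 2) ≤ n * (w ^ 2 * nhi / (2 * (Z : ℝ) ^ 2)) := by
      have : n * (w ^ 2 * nhi / (2 * (Z : ℝ) ^ 2)) = w ^ 2 * n * nhi / (2 * (Z : ℝ) ^ 2) := by ring
      rw [this]
      gcongr
    have g6 : (n : ℝ) * S2 y Z ≤ n * (s2 + sg p0 Z) := by gcongr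
    linarith only [g4, g5, g6]
  have t2 : small n y p0 (q ^ 2) lam ≤
      n * (s2 * (13 / 8 + 2 / 3 * lam) + 2 / 3 * (w / q) * s1 + d0 * (kap * s2) +
        d1 * (2 * kap * s1 + w / (2 * q) * s2 + w / (4 * (q : ℝ) ^ 2) * s1)) +
      (4 / 3 * N0 + d0 * (2 * q * s1 + 4 * N0)) := by
    unfold small
    rw [hsqR]
    have hs1 := S1_nonneg y p0
    have hs2 := S2_nonneg y p0
    have hd0 := D0_nonneg (q ^ 2)
    have hd1 := D1_nonneg (q ^ 2)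
    have hs1' : 0 ≤ s1 := hs1.trans hS1
    have hs2' : 0 ≤ s2 := hs2.trans hS2
    have hd0' : 0 ≤ d0 := hd0.trans hD0
    have hd1' : 0 ≤ d1 := hd1.trans hD1
    have hnu : nu y p0 = N0 := by
      unfold nu
      rw [hN]
    rw [hnu]
    have a1 : (n : ℝ) * S2 y p0 * (13 / 8 + 2 / 3 * lam) ≤ n * s2 * (13 / 8 + 2 / 3 * lam) := by
      gcongr
    have a2 : 2 / 3 * (((n : ℝ) + 1) / q) * S1 y p0 ≤ 2 / 3 * (w * n / q) * s1 := by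
      gcongr
    have a3 : D0 (q ^ 2) * (Real.sqrt (2 * n + 1) * S2 y p0 + 2 * q * S1 y p0 + 4 * N0) ≤
        d0 * (kap * n * s2 + 2 * q * s1 + 4 * N0) := by
      gcongr
    have a4 : D1 (q ^ 2) * (2 * Real.sqrt (2 * n + 1) * S1 y p0 +
        ((n : ℝ) + 1) / (2 * q) * S2 y p0 + ((n : ℝ) + 1) / (4 * ((q ^ 2 : ℕ) : ℝ)) * S1 y p0) ≤
        d1 * (2 * (kap * n) * s1 + w * n / (2 * q) * s2 + w * n / (4 * ((q ^ 2 : ℕ) : ℝ)) * s1) := by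
      gcongr
    push_cast at a4 ⊢
    have e : n * (s2 * (13 / 8 + 2 / 3 * lam) + 2 / 3 * (w / q) * s1 + d0 * (kap * s2) +
        d1 * (2 * kap * s1 + w / (2 * q) * s2 + w / (4 * (q : ℝ) ^ 2) * s1)) +
      (4 / 3 * N0 + d0 * (2 * q * s1 + 4 * N0)) =
      n * s2 * (13 / 8 + 2 / 3 * lam) + 2 / 3 * (w * n / q) * s1 + 4 / 3 * N0 +
      d0 * (kap * n * s2 + 2 * q * s1 + 4 * N0) +
      d1 * (2 * (kap * n) * s1 + w * n / (2 * q) * s2 + w * n / (4 * (q : ℝ) ^ 2) * s1) := by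
      ring
    rw [e]
    linarith only [a1, a2, a3, a4]
  have u0 := seg hNT (e := e0) (x := n) h6 h01 hn0.le hth
  have u1 := seg hNT (e := e1) (x := n) (h6.trans h01) h12 hn0.le hth
  have u2 := seg hNT (e := e2) (x := n) ((h6.trans h01).trans h12) h23 hn0.le hth
  have u3 := seg hNT (e := e3) (x := n) (((h6.trans h01).trans h12).trans h23) h34 hn0.le hth
  have t4 : (r : ℝ) * ((n : ℝ) / p0 * (1 / 2 * Real.log A) + A / 3 + 1) ≤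
      n * (r * (1 / (p0 : ℝ) * (1 / 2 * LA) + th * w ^ 2 / 3)) + r := by
    have e : n * (r * (1 / (p0 : ℝ) * (1 / 2 * LA) + th * w ^ 2 / 3)) + r =
        r * ((n : ℝ) / p0 * (1 / 2 * LA) + (th * w ^ 2 * n) / 3 + 1) := by ring
    rw [e]
    gcongr
  have t5 : ((n : ℝ) + 1) ^ 2 / (P4 : ℝ) ^ 2 / 2
        * (1 + 1 / 2 * Real.log (((n : ℝ) + 1) ^ 2 / (P4 : ℝ) ^ 2)) ≤
      n * (w ^ 2 * nhi / (P4 : ℝ) ^ 2 / 2 * (1 + 1 / 2 * L4)) := by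
    have e : n * (w ^ 2 * nhi / (P4 : ℝ) ^ 2 / 2 * (1 + 1 / 2 * L4)) =
        (w ^ 2 * n * nhi) / (P4 : ℝ) ^ 2 / 2 * (1 + 1 / 2 * L4) := by ring
    rw [e]
    calc ((n : ℝ) + 1) ^ 2 / (P4 : ℝ) ^ 2 / 2
        * (1 + 1 / 2 * Real.log (((n : ℝ) + 1) ^ 2 / (P4 : ℝ) ^ 2)) ≤
        ((n : ℝ) + 1) ^ 2 / (P4 : ℝ) ^ 2 / 2 * (1 + 1 / 2 * L4) := by gcongr
      _ ≤ _ := by gcongr
  have fin1 : (n : ℝ) * C1 - C0 ≤ ((CycI n).card : ℝ) := by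
    refine le_trans ?_ key
    rw [hC0, hC1]
    linarith only [t0, t1, t2, u0, u1, u2, u3, t4, t5]
  have fin2 : (nlo : ℝ) * C1 ≤ n * C1 := by gcongr
  have fin3 : (2 : ℝ) ≤ ((CycI n).card : ℝ) := by linarith only [fin1, fin2, hfin]
  exact_mod_cast fin3

end Pool.Agent.Helper83.CY.FINC
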