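import Pool.Agent.Helper83.CY.KerT

/-! The smallest intervals: explicit cyclic numbers. -/

set_option autoImplicit false

namespace Pool.Agent.Helper83.CY.Ker

def tl : List ℕ := [2, 3, 5, 7, 11, 13, 17, 19, 23, 29, 31, 37, 41, 43, 47]

def tp (n : ℕ) : Bool := decide (2 ≤ n) && decide (n < 2809) &&
  tl.all (fun q => decide (n % q ≠ 0) || decide (n = q))

theorem tp_prime (n : ℕ) (h : tp n = true) : n.Prime := by
  simp only [tp, Bool.and_eq_true, decide_eq_true_eq, List.all_eq_true, Bool.or_eq_true] at h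
  obtain ⟨⟨h1, h2⟩, h3⟩ := h
  by_contra hn
  have hp : (Nat.minFac n).Prime := Nat.minFac_prime (by omega)
  have hsq : Nat.minFac n ^ 2 ≤ n := Nat.minFac_sq_le_self (by omega) hn
  have hlt : Nat.minFac n < 53 := by
    by_contra hc
    push Not at hc
    have := Nat.pow_le_pow_left hc 2
    omega
  have hmem : Nat.minFac n ∈ tl := by
    have key : ∀ p < 53, p.Prime → p ∈ tl := by decide
    exact key _ hlt hp
  rcases h3 _ hmem with h4 | h4
  · exact h4 (Nat.mod_eq_zero_of_dvd (Nat.minFac_dvd n))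
  · rw [h4] at hn
    exact hn hp

/-- certificate for one cyclic number -/
def okc (N p q : ℕ) : Bool :=
  (decide (p = 1) || (tp p && decide ((q - 1) % p ≠ 0))) && tp q && decide (p < q) &&
    decide ((N - 1) ^ 2 < p * q) && decide (p * q < N ^ 2)

theorem okc_spec (N p q : ℕ) (h : okc N p q = true) (hN : 1 ≤ N) : p * q ∈ CycI (N - 1) := by
  simp only [okc, Bool.and_eq_true, decide_eq_true_eq, Bool.or_eq_true] at h
  obtain ⟨⟨⟨⟨h1, h2⟩, h3⟩, h4⟩, h5⟩ := h
  have hq := tp_prime _ h2
  unfold CycI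
  classical
  refine (Finset.mem_filter (p := Cyc)).2 ⟨?_, ?_, ?_⟩
  · unfold I
    rw [Finset.mem_Ioo]
    have : N - 1 + 1 = N := by omega
    rw [this]
    exact ⟨h4, h5⟩
  · rcases Nat.eq_zero_or_pos (p * q) with h | h
    · rw [h] at h4; omega
    · exact h
  · rcases h1 with h1 | ⟨h1, h6⟩
    · subst h1
      rw [one_mul, Nat.totient_prime hq, hq.coprime_iff_not_dvd]
      intro h
      have := Nat.le_of_dvd (by omega) h
      omega
    · have hp := tp_prime _ h1
      have hp2 := hp.two_le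
      rw [Nat.totient_mul ((Nat.coprime_primes hp hq).2 (by omega)), Nat.totient_prime hp,
        Nat.totient_prime hq]
      refine Nat.Coprime.mul_left ?_ ?_
      · refine Nat.Coprime.mul_right ?_ ?_
        · rw [hp.coprime_iff_not_dvd]
          intro h
          have := Nat.le_of_dvd (by omega) h
          omega
        · rw [hp.coprime_iff_not_dvd]
          intro h
          exact h6 (Nat.mod_eq_zero_of_dvd h)
      · refine Nat.Coprime.mul_right ?_ ?_
        · rw [hq.coprime_iff_not_dvd]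
          intro h
          have := Nat.le_of_dvd (by omega) h
          omega
        · rw [hq.coprime_iff_not_dvd]
          intro h
          have := Nat.le_of_dvd (by omega) h
          omega

def chl : ℕ → List (ℕ × ℕ × ℕ × ℕ) → Bool
  | _, [] => true
  | N, (a, b, c, d) :: l => (okc N a b && okc N c d && decide (a * b ≠ c * d)) && chl (N + 1) l

theorem chl_spec : ∀ (l : List (ℕ × ℕ × ℕ × ℕ)) (N : ℕ), 1 ≤ N → chl N l = true →
    ∀ M, N ≤ M → M < N + l.length → 2 ≤ (CycI (M - 1)).card := by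
  intro l
  induction l with
  | nil => intro N _ _ M h1 h2; simp at h2; omega
  | cons x l ih =>
    intro N hN h M h1 h2
    obtain ⟨a, b, c, d⟩ := x
    simp only [chl, Bool.and_eq_true, decide_eq_true_eq] at h
    obtain ⟨⟨⟨k1, k2⟩, k3⟩, k4⟩ := h
    rcases Nat.eq_or_lt_of_le h1 with h5 | h5
    · subst h5
      have : 1 < (CycI (N - 1)).card :=
        Finset.one_lt_card.2 ⟨_, okc_spec _ _ _ k1 hN, _, okc_spec _ _ _ k2 hN, k3⟩
      exact this
    · refine ih (N + 1) (by omega) k4 M h5 ?_
      simp only [List.length_cons] at h2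
      omega

def sl0 : List (ℕ × ℕ × ℕ × ℕ) := [
  (1, 2, 1, 3),
  (1, 5, 1, 7),
  (3, 5, 1, 11),
  (1, 17, 1, 19),
  (5, 7, 3, 11),
  (1, 37, 1, 41),
  (3, 17, 1, 53),
  (7, 11, 5, 13),
  (7, 13, 5, 17),
  (7, 17, 5, 23),
  (11, 13, 7, 19),
  (7, 23, 5, 29),
  (11, 17, 5, 37),
  (13, 17, 11, 19),
  (13, 19, 5, 47),
  (7, 37, 7, 41),
  (17, 19, 13, 23),
  (11, 31, 7, 47),
  (17, 23, 13, 29),
  (19, 23, 13, 31),
  (13, 37, 11, 41),
  (17, 29, 17, 31),
  (19, 29, 13, 41),
  (19, 31, 13, 47),
  (23, 29, 17, 37),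
  (23, 31, 19, 37),
  (19, 41, 17, 43),
  (19, 43, 17, 47),
  (29, 31, 23, 37),
  (23, 41, 17, 53),
  (23, 43, 19, 53),
  (29, 37, 17, 61),
  (31, 37, 19, 59),
  (29, 41, 23, 53),
  (31, 41, 29, 43),
  (31, 43, 29, 47),
  (23, 61, 19, 73),
  (37, 41, 31, 47),
  (37, 43, 29, 53),
  (31, 53, 23, 71),
  (41, 43, 37, 47),
  (31, 59, 29, 61),
  (41, 47, 31, 61),
  (43, 47, 37, 53),
  (31, 67, 29, 71),
  (41, 53, 37, 59),
  (43, 53, 37, 61),
  (23, 101, 23, 103),
  (47, 53, 41, 59),
  (43, 59, 41, 61),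
  (43, 61, 37, 71),
  (47, 59, 41, 67),
  (47, 61, 43, 67),
  (41, 73, 37, 79),
  (53, 59, 43, 71),
  (53, 61, 47, 67),
  (47, 71, 37, 89),
  (47, 73, 43, 79),
  (59, 61, 53, 67),
  (47, 79, 41, 89),
  (53, 71, 43, 89),
  (59, 67, 53, 73),
  (61, 67, 41, 97),
  (59, 71, 53, 79),
  (61, 71, 59, 73),
  (61, 73, 53, 83),
  (47, 97, 43, 107),
  (67, 71, 59, 79),
  (67, 73, 61, 79),
  (47, 107, 29, 173),
  (71, 73, 61, 83),
  (67, 79, 59, 89),
  (61, 89, 53, 101),
  (71, 79, 67, 83),
  (73, 79, 59, 97),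
  (71, 83, 61, 97),
  (73, 83, 67, 89),
  (61, 101, 47, 131),
  (71, 89, 61, 103),
  (79, 83, 73, 89),
  (61, 109, 59, 113),
  (71, 97, 67, 101),
  (79, 89, 67, 103),
  (73, 97, 71, 101),
  (83, 89, 73, 101),
  (73, 103, 59, 127),
  (79, 97, 71, 107),
  (73, 107, 61, 127),
  (83, 97, 79, 101),
  (79, 103, 73, 113),
  (83, 101, 79, 107),
  (89, 97, 83, 103),
  (67, 131, 59, 149),
  (89, 101, 83, 107),
  (89, 103, 83, 109),
  (83, 113, 73, 127),
  (89, 107, 73, 131),
  (97, 101, 89, 109),
  (97, 103, 71, 139),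
  (89, 113, 79, 127)]

theorem sc0 : chl 2 sl0 = true := by decide +kernel

def sl1 : List (ℕ × ℕ × ℕ × ℕ) := [
  (101, 103, 97, 107),
  (97, 109, 83, 127),
  (101, 107, 71, 151),
  (103, 107, 101, 109),
  (103, 109, 71, 157),
  (101, 113, 89, 127),
  (107, 109, 103, 113),
  (79, 149, 71, 167),
  (107, 113, 79, 151),
  (109, 113, 97, 127),
  (89, 139, 83, 149),
  (97, 131, 73, 173),
  (101, 127, 79, 163),
  (103, 127, 83, 157),
  (101, 131, 97, 137),
  (107, 127, 103, 131),
  (109, 127, 101, 137),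
  (107, 131, 103, 137),
  (113, 127, 109, 131),
  (97, 149, 89, 163),
  (113, 131, 107, 137),
  (109, 137, 101, 149),
  (109, 139, 103, 149),
  (113, 137, 103, 151),
  (113, 139, 101, 157),
  (107, 149, 89, 181),
  (109, 149, 107, 151),
  (127, 131, 109, 151),
  (113, 149, 107, 157),
  (113, 151, 109, 157),
  (127, 137, 103, 167),
  (127, 139, 107, 163),
  (131, 137, 113, 157),
  (131, 139, 109, 167),
  (113, 163, 103, 179),
  (107, 173, 103, 181),
  (137, 139, 127, 149),
  (127, 151, 107, 179),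
  (131, 149, 113, 173),
  (131, 151, 109, 181),
  (127, 157, 101, 197),
  (137, 149, 113, 179),
  (139, 149, 137, 151),
  (139, 151, 109, 191),
  (127, 167, 109, 193),
  (137, 157, 131, 163),
  (139, 157, 131, 167),
  (127, 173, 97, 227),
  (149, 151, 137, 163),
  (139, 163, 131, 173),
  (137, 167, 127, 181),
  (149, 157, 139, 167),
  (151, 157, 137, 173),
  (113, 211, 107, 223),
  (149, 163, 139, 173),
  (151, 163, 137, 179),
  (149, 167, 139, 179),
  (151, 167, 139, 181),
  (157, 163, 131, 193),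
  (149, 173, 131, 197),
  (157, 167, 151, 173),
  (139, 191, 137, 193),
  (149, 179, 139, 193),
  (163, 167, 157, 173),
  (151, 181, 139, 197),
  (139, 199, 131, 211),
  (163, 173, 157, 179),
  (157, 181, 149, 191),
  (167, 173, 151, 191),
  (163, 179, 151, 193),
  (163, 181, 149, 197),
  (167, 179, 151, 197),
  (167, 181, 157, 191),
  (157, 193, 137, 223),
  (173, 179, 157, 197),
  (173, 181, 163, 191),
  (163, 193, 149, 211),
  (167, 191, 151, 211),
  (179, 181, 167, 193),
  (163, 199, 137, 239),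
  (173, 191, 167, 197),
  (173, 193, 167, 199),
  (151, 223, 149, 227),
  (179, 191, 173, 197),
  (181, 191, 179, 193),
  (181, 193, 149, 233),
  (179, 197, 167, 211),
  (181, 197, 179, 199),
  (181, 199, 157, 229),
  (163, 223, 151, 241),
  (191, 193, 173, 211),
  (167, 223, 163, 227),
  (191, 197, 163, 229),
  (193, 197, 191, 199),
  (193, 199, 181, 211),
  (173, 223, 151, 257),
  (197, 199, 167, 233),
  (173, 227, 163, 241),
  (179, 223, 173, 229),
  (191, 211, 181, 223)]

theorem sc1 : chl 102 sl1 = true := by decide +kernel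

def sl2 : List (ℕ × ℕ × ℕ × ℕ) := [
  (193, 211, 179, 227),
  (181, 227, 179, 229),
  (197, 211, 181, 229),
  (199, 211, 179, 233),
  (181, 233, 157, 269),
  (191, 223, 179, 239),
  (193, 223, 181, 239),
  (191, 227, 181, 241),
  (197, 223, 193, 227),
  (199, 223, 193, 229),
  (197, 227, 179, 251),
  (199, 227, 197, 229),
  (199, 229, 191, 239),
  (197, 233, 193, 239),
  (199, 233, 193, 241),
  (211, 223, 197, 239),
  (197, 241, 167, 283),
  (211, 227, 199, 239),
  (211, 229, 179, 269),
  (193, 251, 181, 269),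
  (211, 233, 191, 257),
  (197, 251, 193, 257),
  (199, 251, 181, 277),
  (223, 227, 211, 239),
  (223, 229, 211, 241),
  (199, 257, 191, 269),
  (227, 229, 223, 233),
  (199, 263, 193, 271),
  (227, 233, 179, 293),
  (229, 233, 223, 239),
  (223, 241, 199, 269),
  (227, 239, 211, 257),
  (229, 239, 227, 241),
  (229, 241, 199, 277),
  (233, 239, 211, 263),
  (233, 241, 223, 251),
  (199, 283, 193, 293),
  (227, 251, 211, 269),
  (239, 241, 229, 251),
  (197, 293, 167, 347),
  (233, 251, 227, 257),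
  (229, 257, 223, 263),
  (211, 281, 193, 307),
  (239, 251, 233, 257),
  (241, 251, 229, 263),
  (191, 317, 181, 337),
  (239, 257, 233, 263),
  (241, 257, 229, 269),
  (229, 271, 199, 313),
  (239, 263, 233, 269),
  (241, 263, 233, 271),
  (227, 281, 193, 331),
  (251, 257, 239, 269),
  (241, 269, 239, 271),
  (241, 271, 233, 281),
  (251, 263, 233, 283),
  (239, 277, 227, 293),
  (241, 277, 211, 317),
  (257, 263, 251, 269),
  (251, 271, 241, 281),
  (241, 283, 233, 293),
  (257, 269, 199, 347),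
  (257, 271, 251, 277),
  (239, 293, 223, 313),
  (263, 269, 251, 281),
  (263, 271, 257, 277),
  (233, 307, 229, 313),
  (257, 281, 227, 317),
  (269, 271, 263, 277),
  (239, 307, 233, 313),
  (263, 281, 251, 293),
  (269, 277, 263, 283),
  (271, 277, 241, 311),
  (269, 281, 257, 293),
  (271, 281, 269, 283),
  (271, 283, 241, 317),
  (263, 293, 251, 307),
  (277, 281, 223, 347),
  (277, 283, 251, 311),
  (269, 293, 257, 307),
  (281, 283, 271, 293),
  (257, 311, 251, 317),
  (257, 313, 239, 337),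
  (277, 293, 263, 307),
  (263, 311, 257, 317),
  (281, 293, 263, 313),
  (283, 293, 269, 307),
  (271, 307, 263, 317),
  (269, 311, 241, 347),
  (271, 311, 269, 313),
  (277, 307, 271, 313),
  (269, 317, 239, 359),
  (281, 307, 277, 311),
  (283, 307, 277, 313),
  (281, 311, 263, 331),
  (283, 311, 281, 313),
  (283, 313, 263, 337),
  (281, 317, 269, 331),
  (293, 307, 283, 317),
  (251, 359, 239, 379)]

theorem sc2 : chl 202 sl2 = true := by decide +kernel

def sl3 : List (ℕ × ℕ × ℕ × ℕ) := [
  (293, 311, 269, 337),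
  (293, 313, 277, 331),
  (257, 359, 251, 367),
  (293, 317, 281, 331),
  (277, 337, 269, 347),
  (283, 331, 271, 347),
  (281, 337, 271, 349),
  (307, 311, 283, 337),
  (307, 313, 271, 353),
  (277, 347, 277, 349),
  (311, 313, 307, 317),
  (281, 347, 277, 353),
  (311, 317, 283, 347),
  (313, 317, 293, 337),
  (277, 359, 271, 367),
  (283, 353, 269, 373),
  (281, 359, 271, 373),
  (307, 331, 293, 347),
  (293, 349, 269, 379),
  (311, 331, 271, 379),
  (313, 331, 307, 337),
  (283, 367, 271, 383),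
  (317, 331, 311, 337),
  (313, 337, 293, 359),
  (277, 383, 251, 421),
  (317, 337, 307, 347),
  (307, 349, 293, 367),
  (311, 347, 281, 383),
  (313, 347, 311, 349),
  (313, 349, 293, 373),
  (317, 347, 311, 353),
  (317, 349, 313, 353),
  (331, 337, 293, 379),
  (317, 353, 311, 359),
  (313, 359, 307, 367),
  (283, 401, 277, 409),
  (317, 359, 311, 367),
  (331, 347, 313, 367),
  (331, 349, 281, 409),
  (311, 373, 283, 409),
  (337, 347, 331, 353),
  (337, 349, 307, 383),
  (317, 373, 311, 379),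
  (337, 353, 331, 359),
  (311, 383, 307, 389),
  (317, 379, 313, 383),
  (347, 349, 337, 359),
  (331, 367, 317, 383),
  (347, 353, 307, 397),
  (349, 353, 307, 401),
  (337, 367, 331, 373),
  (347, 359, 313, 397),
  (349, 359, 311, 401),
  (337, 373, 331, 379),
  (353, 359, 293, 431),
  (347, 367, 331, 383),
  (349, 367, 337, 379),
  (331, 389, 307, 419),
  (353, 367, 347, 373),
  (349, 373, 317, 409),
  (311, 421, 283, 461),
  (359, 367, 353, 373),
  (349, 379, 313, 421),
  (347, 383, 331, 401),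
  (359, 373, 353, 379),
  (311, 431, 311, 433),
  (353, 383, 347, 389),
  (359, 379, 349, 389),
  (367, 373, 317, 431),
  (359, 383, 353, 389),
  (347, 397, 337, 409),
  (367, 379, 349, 397),
  (359, 389, 347, 401),
  (367, 383, 353, 397),
  (373, 379, 337, 419),
  (353, 401, 347, 409),
  (373, 383, 367, 389),
  (331, 433, 313, 457),
  (359, 401, 353, 409),
  (379, 383, 373, 389),
  (367, 397, 347, 419),
  (349, 419, 347, 421),
  (379, 389, 367, 401),
  (373, 397, 353, 419),
  (383, 389, 353, 421),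
  (373, 401, 347, 431),
  (379, 397, 367, 409),
  (359, 421, 349, 433),
  (383, 397, 379, 401),
  (373, 409, 353, 431),
  (383, 401, 349, 439),
  (389, 397, 367, 419),
  (379, 409, 367, 421),
  (389, 401, 359, 433),
  (383, 409, 373, 419),
  (373, 421, 359, 439),
  (367, 431, 317, 499),
  (397, 401, 389, 409),
  (379, 421, 349, 457),
  (383, 419, 373, 431)]

theorem sc3 : chl 302 sl3 = true := by decide +kernel

def sl4 : List (ℕ × ℕ × ℕ × ℕ) := [
  (383, 421, 373, 433),
  (397, 409, 347, 467),
  (389, 419, 367, 443),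
  (401, 409, 389, 421),
  (379, 433, 367, 449),
  (383, 431, 373, 443),
  (397, 419, 383, 433),
  (397, 421, 349, 479),
  (401, 419, 389, 431),
  (401, 421, 389, 433),
  (383, 443, 367, 461),
  (379, 449, 373, 457),
  (409, 419, 397, 431),
  (409, 421, 397, 433),
  (401, 431, 389, 443),
  (401, 433, 379, 457),
  (397, 439, 389, 449),
  (383, 457, 379, 463),
  (419, 421, 409, 431),
  (409, 433, 383, 461),
  (401, 443, 389, 457),
  (397, 449, 383, 467),
  (409, 439, 389, 461),
  (419, 431, 401, 449),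
  (421, 431, 419, 433),
  (421, 433, 389, 467),
  (397, 461, 373, 491),
  (419, 439, 409, 449),
  (421, 439, 401, 461),
  (419, 443, 401, 463),
  (431, 433, 421, 443),
  (409, 457, 401, 467),
  (419, 449, 383, 491),
  (431, 439, 421, 449),
  (433, 439, 409, 463),
  (431, 443, 397, 479),
  (433, 443, 419, 457),
  (421, 457, 401, 479),
  (431, 449, 419, 461),
  (439, 443, 433, 449),
  (421, 463, 401, 487),
  (419, 467, 409, 479),
  (439, 449, 431, 457),
  (433, 457, 389, 509),
  (443, 449, 431, 461),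
  (433, 461, 431, 463),
  (439, 457, 433, 463),
  (431, 467, 409, 491),
  (443, 457, 439, 461),
  (439, 463, 389, 521),
  (443, 461, 419, 487),
  (449, 457, 443, 463),
  (419, 491, 409, 503),
  (449, 461, 443, 467),
  (449, 463, 433, 479),
  (409, 509, 367, 569),
  (449, 467, 419, 499),
  (457, 461, 439, 479),
  (457, 463, 433, 487),
  (443, 479, 431, 491),
  (461, 463, 457, 467),
  (439, 487, 421, 509),
  (461, 467, 449, 479),
  (463, 467, 443, 487),
  (431, 503, 401, 541),
  (443, 491, 433, 503),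
  (457, 479, 449, 487),
  (439, 499, 431, 509),
  (461, 479, 449, 491),
  (463, 479, 443, 499),
  (457, 487, 389, 571),
  (467, 479, 443, 503),
  (461, 487, 457, 491),
  (463, 487, 443, 509),
  (461, 491, 449, 503),
  (467, 487, 463, 491),
  (457, 499, 421, 541),
  (467, 491, 449, 509),
  (461, 499, 457, 503),
  (463, 499, 443, 521),
  (461, 503, 443, 523),
  (479, 487, 467, 499),
  (449, 521, 433, 541),
  (479, 491, 467, 503),
  (463, 509, 431, 547),
  (433, 547, 421, 563),
  (467, 509, 457, 521),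
  (487, 491, 479, 499),
  (443, 541, 431, 557),
  (479, 503, 461, 521),
  (463, 521, 461, 523),
  (487, 499, 463, 523),
  (479, 509, 467, 521),
  (491, 499, 487, 503),
  (449, 547, 431, 569),
  (491, 503, 443, 557),
  (487, 509, 457, 541),
  (431, 577, 419, 593),
  (491, 509, 479, 521),
  (499, 503, 479, 523)]

theorem sc4 : chl 402 sl4 = true := by decide +kernel

def sl5 : List (ℕ × ℕ × ℕ × ℕ) := [
  (419, 601, 389, 647),
  (467, 541, 461, 547),
  (499, 509, 487, 521),
  (487, 523, 457, 557),
  (503, 509, 491, 521),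
  (491, 523, 461, 557),
  (463, 557, 457, 563),
  (449, 577, 431, 599),
  (499, 521, 479, 541),
  (499, 523, 467, 557),
  (503, 521, 479, 547),
  (503, 523, 467, 563),
  (487, 541, 463, 569),
  (509, 521, 463, 571),
  (509, 523, 491, 541),
  (487, 547, 479, 557),
  (457, 587, 433, 619),
  (491, 547, 449, 599),
  (499, 541, 479, 563),
  (487, 557, 461, 587),
  (521, 523, 503, 541),
  (499, 547, 491, 557),
  (487, 563, 467, 587),
  (509, 541, 503, 547),
  (491, 563, 479, 577),
  (487, 569, 467, 593),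
  (509, 547, 499, 557),
  (491, 569, 467, 599),
  (503, 557, 491, 571),
  (521, 541, 499, 563),
  (523, 541, 461, 613),
  (509, 557, 503, 563),
  (521, 547, 499, 571),
  (523, 547, 503, 569),
  (509, 563, 503, 571),
  (499, 577, 491, 587),
  (487, 593, 467, 619),
  (521, 557, 509, 569),
  (523, 557, 509, 571),
  (487, 599, 463, 631),
  (521, 563, 509, 577),
  (523, 563, 491, 599),
  (541, 547, 503, 587),
  (521, 569, 479, 619),
  (523, 569, 521, 571),
  (523, 571, 509, 587),
  (499, 601, 467, 641),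
  (541, 557, 521, 577),
  (523, 577, 509, 593),
  (499, 607, 491, 617),
  (547, 557, 541, 563),
  (509, 599, 503, 607),
  (521, 587, 509, 601),
  (547, 563, 541, 569),
  (541, 571, 521, 593),
  (523, 593, 491, 631),
  (547, 569, 503, 617),
  (547, 571, 541, 577),
  (557, 563, 523, 599),
  (523, 601, 509, 617),
  (547, 577, 509, 619),
  (557, 569, 521, 607),
  (557, 571, 541, 587),
  (467, 683, 461, 691),
  (563, 569, 521, 613),
  (563, 571, 557, 577),
  (521, 619, 503, 641),
  (523, 617, 523, 619),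
  (569, 571, 563, 577),
  (541, 601, 503, 647),
  (557, 587, 509, 641),
  (569, 577, 547, 599),
  (571, 577, 547, 601),
  (563, 587, 557, 593),
  (541, 613, 503, 659),
  (547, 607, 509, 653),
  (569, 587, 563, 593),
  (571, 587, 557, 601),
  (547, 613, 523, 641),
  (569, 593, 563, 599),
  (577, 587, 571, 593),
  (491, 691, 479, 709),
  (569, 599, 521, 653),
  (577, 593, 571, 599),
  (571, 601, 521, 659),
  (557, 617, 521, 661),
  (577, 599, 569, 607),
  (577, 601, 571, 607),
  (587, 593, 563, 617),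
  (569, 613, 563, 619),
  (577, 607, 571, 613),
  (587, 599, 569, 617),
  (587, 601, 571, 617),
  (577, 613, 571, 619),
  (593, 599, 523, 677),
  (593, 601, 587, 607),
  (577, 619, 557, 641),
  (557, 643, 499, 719)]

theorem sc5 : chl 502 sl5 = true := by decide +kernel

theorem small600 (N : ℕ) (h1 : 2 ≤ N) (h2 : N < 600) : 2 ≤ (CycI (N - 1)).card := by
  rcases lt_or_ge N 102 with h | h
  · exact chl_spec sl0 2 (by norm_num) sc0 N (by omega) (by simpa [sl0] using h)
  rcases lt_or_ge N 202 with h | h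
  · exact chl_spec sl1 102 (by norm_num) sc1 N (by omega) (by simpa [sl1] using h)
  rcases lt_or_ge N 302 with h | h
  · exact chl_spec sl2 202 (by norm_num) sc2 N (by omega) (by simpa [sl2] using h)
  rcases lt_or_ge N 402 with h | h
  · exact chl_spec sl3 302 (by norm_num) sc3 N (by omega) (by simpa [sl3] using h)
  rcases lt_or_ge N 502 with h | h
  · exact chl_spec sl4 402 (by norm_num) sc4 N (by omega) (by simpa [sl4] using h)
  exact chl_spec sl5 502 (by norm_num) sc5 N (by omega) (by simpa [sl5] using h2)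

end Pool.Agent.Helper83.CY.Ker
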