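import Pool.Agent.Helper83.CY.KerC13
import Pool.Agent.Helper83.CY.KerS

/-! Kernel computation: assembly. -/

set_option autoImplicit false

namespace Pool.Agent.Helper83.CY.Ker

theorem ker : S_KER := by
  intro n hn1 hn2
  have key : ∀ N : ℕ, 2 ≤ N → N ≤ 10 ^ 8 → 2 ≤ (CycI (N - 1)).card := by
    intro N h1 h2
    norm_num at h2
    rcases lt_or_ge N 600 with h | h
    · exact small600 N h1 h
    rcases lt_or_ge N 12813942 with h | h
    · exact part00 N (by omega) h
    rcases lt_or_ge N 23823990 with h | h
    · exact part01 N (by omega) h
    rcases lt_or_ge N 33261174 with h | h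
    · exact part02 N (by omega) h
    rcases lt_or_ge N 41125494 with h | h
    · exact part03 N (by omega) h
    rcases lt_or_ge N 48989814 with h | h
    · exact part04 N (by omega) h
    rcases lt_or_ge N 56067702 with h | h
    · exact part05 N (by omega) h
    rcases lt_or_ge N 63145590 with h | h
    · exact part06 N (by omega) h
    rcases lt_or_ge N 69437046 with h | h
    · exact part07 N (by omega) h
    rcases lt_or_ge N 75728502 with h | h
    · exact part08 N (by omega) h
    rcases lt_or_ge N 82019958 with h | h
    · exact part09 N (by omega) h
    rcases lt_or_ge N 88311414 with h | h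
    · exact part10 N (by omega) h
    rcases lt_or_ge N 93816438 with h | h
    · exact part11 N (by omega) h
    rcases lt_or_ge N 99321462 with h | h
    · exact part12 N (by omega) h
    exact part13 N (by omega) (by omega)
  have := key (n + 1) (by omega) (by omega)
  simpa using this

end Pool.Agent.Helper83.CY.Ker
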