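import Pool.Agent.Helper83.CY.Big
import Pool.Agent.Helper83.CY.Ker

namespace Pool.Agent.Helper83.CY.Final

open Pool.Agent.Helper83.CY

theorem final : ∀ n : ℕ, 1 ≤ n → ∃ c c' : ℕ,
    Nat.Coprime c (Nat.totient c) ∧ Nat.Coprime c' (Nat.totient c') ∧
      n ^ 2 < c ∧ c < c' ∧ c' < (n + 1) ^ 2 := by
  classical
  intro n hn
  have h2 : 2 ≤ (CycI n).card := by
    rcases lt_or_ge n (10 ^ 8) with h | h
    · exact Ker.ker n hn h
    · rcases le_or_gt n (10 ^ 14) with h' | h'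
      · exact Big.fin n h h'
      · exact Big.tail n h'.le
  obtain ⟨c, hc, c', hc', hne⟩ := Finset.one_lt_card.mp (by omega : 1 < (CycI n).card)
  have e1 : ∀ x ∈ CycI n, Nat.Coprime x (Nat.totient x) ∧ n ^ 2 < x ∧ x < (n + 1) ^ 2 := by
    intro x hx
    unfold CycI at hx
    rw [Finset.mem_filter] at hx
    obtain ⟨hx1, hx2⟩ := hx
    unfold I at hx1
    rw [Finset.mem_Ioo] at hx1
    exact ⟨hx2.2, hx1.1, hx1.2⟩
  obtain ⟨a1, a2, a3⟩ := e1 c hc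
  obtain ⟨b1, b2, b3⟩ := e1 c' hc'
  rcases lt_or_gt_of_ne hne with h | h
  · exact ⟨c, c', a1, b1, a2, h, b3⟩
  · exact ⟨c', c, b1, a1, b2, h, a3⟩

end Pool.Agent.Helper83.CY.Final
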