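import Pool.Agent.Helper83.CY.KerU

/-! Kernel computation, part 0: the blocks with `600 ≤ N < 12813942`. -/

set_option autoImplicit false

namespace Pool.Agent.Helper83.CY.Ker

theorem c0 : chk ⟨100, 2, 7, 8, 4,
  [⟨false, true, 1, 0, 3⟩, ⟨true, false, 1, 0, 3⟩],
  [⟨false, false, 1, 1, 5⟩, ⟨true, true, 7, 6, 1⟩],
  [⟨true, true, 1, 0, 6⟩, ⟨false, true, 6, 6, 1⟩, ⟨true, false, 7, 7, 1⟩],
  [⟨false, true, 0, 0, 2⟩, ⟨true, false, 1, 1, 2⟩],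
  [⟨false, false, 0, 1, 5⟩],
  [⟨true, true, 1, 1, 5⟩, ⟨false, true, 5, 6, 2⟩, ⟨true, false, 6, 7, 2⟩]⟩ = true := by
  decide +kernel

theorem c1 : chk ⟨102, 10, 14, 16, 4,
  [⟨false, true, 1, 0, 5⟩, ⟨true, false, 1, 0, 5⟩],
  [⟨false, false, 1, 1, 5⟩, ⟨true, true, 7, 6, 2⟩, ⟨false, true, 9, 9, 1⟩, ⟨true, false, 9, 9, 2⟩, ⟨false, false, 11, 12, 1⟩, ⟨true, true, 13, 13, 1⟩, ⟨false, true, 13, 14, 1⟩, ⟨true, false, 14, 15, 1⟩, ⟨false, false, 14, 16, 1⟩],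
  [⟨true, true, 1, 0, 6⟩, ⟨false, true, 6, 6, 2⟩, ⟨true, false, 7, 7, 2⟩],
  [⟨false, true, 0, 0, 4⟩, ⟨true, false, 1, 1, 4⟩],
  [⟨false, false, 0, 1, 6⟩, ⟨true, true, 7, 7, 2⟩, ⟨false, true, 8, 9, 2⟩, ⟨true, false, 9, 10, 1⟩, ⟨false, false, 10, 12, 1⟩],
  [⟨true, true, 1, 1, 5⟩, ⟨false, true, 6, 7, 2⟩, ⟨true, false, 6, 7, 3⟩]⟩ = true := by
  decide +kernel

theorem c2 : chk ⟨112, 5, 20, 23, 5,
  [⟨false, true, 1, 0, 6⟩, ⟨true, false, 1, 0, 6⟩, ⟨false, false, 7, 7, 2⟩],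
  [⟨false, false, 1, 1, 6⟩, ⟨true, true, 7, 6, 3⟩, ⟨false, true, 9, 9, 2⟩, ⟨true, false, 10, 10, 1⟩, ⟨false, false, 11, 12, 1⟩, ⟨true, true, 13, 13, 1⟩, ⟨false, true, 14, 15, 1⟩, ⟨true, false, 14, 15, 1⟩, ⟨false, false, 15, 17, 1⟩, ⟨false, true, 17, 19, 1⟩, ⟨true, true, 19, 21, 1⟩, ⟨false, true, 19, 22, 1⟩, ⟨true, false, 20, 23, 1⟩],
  [⟨true, true, 1, 0, 6⟩, ⟨false, true, 6, 6, 2⟩, ⟨true, false, 7, 7, 2⟩],
  [⟨false, true, 0, 0, 6⟩, ⟨true, false, 1, 1, 6⟩, ⟨false, false, 6, 7, 3⟩, ⟨true, true, 9, 9, 2⟩],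
  [⟨false, false, 0, 1, 6⟩, ⟨true, true, 7, 7, 2⟩, ⟨false, true, 8, 9, 2⟩, ⟨true, false, 9, 10, 2⟩, ⟨false, false, 10, 12, 2⟩, ⟨true, true, 12, 13, 2⟩, ⟨false, true, 13, 15, 1⟩, ⟨true, false, 14, 16, 1⟩, ⟨false, false, 14, 17, 1⟩, ⟨true, true, 16, 18, 1⟩],
  [⟨true, true, 1, 1, 6⟩, ⟨false, true, 6, 7, 2⟩, ⟨true, false, 7, 8, 2⟩, ⟨false, false, 8, 10, 2⟩]⟩ = true := by
  decide +kernel

theorem c3 : chk ⟨117, 2, 15, 17, 4,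
  [⟨false, true, 1, 0, 6⟩, ⟨true, false, 1, 0, 7⟩, ⟨false, false, 7, 7, 2⟩, ⟨true, true, 10, 9, 1⟩],
  [⟨false, false, 1, 1, 6⟩, ⟨true, true, 7, 6, 3⟩, ⟨false, true, 9, 9, 2⟩, ⟨true, false, 10, 10, 2⟩],
  [⟨true, true, 1, 0, 6⟩, ⟨false, true, 6, 6, 3⟩, ⟨true, false, 7, 7, 3⟩],
  [⟨false, true, 0, 0, 6⟩, ⟨true, false, 1, 1, 6⟩, ⟨false, false, 6, 7, 1⟩],
  [⟨false, false, 0, 1, 6⟩, ⟨true, true, 7, 7, 2⟩, ⟨false, true, 9, 10, 1⟩, ⟨true, false, 9, 10, 2⟩],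
  [⟨true, true, 1, 1, 6⟩, ⟨false, true, 6, 7, 2⟩, ⟨true, false, 7, 8, 2⟩, ⟨false, false, 8, 10, 2⟩, ⟨true, true, 11, 12, 1⟩, ⟨false, true, 12, 14, 1⟩, ⟨true, false, 12, 14, 2⟩, ⟨false, false, 13, 16, 1⟩, ⟨true, true, 15, 17, 1⟩]⟩ = true := by
  decide +kernel

theorem c4 : chk ⟨119, 5, 19, 24, 5,
  [⟨false, true, 1, 0, 6⟩, ⟨true, false, 1, 0, 7⟩, ⟨false, false, 7, 7, 2⟩, ⟨true, true, 10, 9, 2⟩, ⟨false, true, 11, 11, 2⟩, ⟨true, false, 12, 12, 1⟩, ⟨false, false, 13, 14, 1⟩, ⟨true, true, 15, 15, 1⟩],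
  [⟨false, false, 1, 1, 6⟩, ⟨true, true, 7, 6, 3⟩, ⟨false, true, 9, 9, 2⟩, ⟨true, false, 10, 10, 2⟩, ⟨false, false, 11, 12, 2⟩, ⟨true, true, 13, 13, 1⟩],
  [⟨true, true, 1, 0, 6⟩, ⟨false, true, 7, 7, 2⟩, ⟨true, false, 7, 7, 3⟩, ⟨false, false, 9, 10, 2⟩, ⟨true, true, 12, 12, 1⟩, ⟨false, true, 13, 14, 1⟩, ⟨true, false, 13, 14, 1⟩, ⟨false, false, 14, 16, 1⟩, ⟨true, true, 16, 17, 1⟩],
  [⟨false, true, 0, 0, 6⟩, ⟨true, false, 1, 1, 6⟩, ⟨false, false, 6, 7, 3⟩, ⟨true, true, 10, 10, 1⟩, ⟨false, true, 11, 12, 1⟩, ⟨true, false, 11, 12, 2⟩, ⟨false, false, 12, 14, 2⟩],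
  [⟨false, false, 0, 1, 6⟩, ⟨true, true, 7, 7, 2⟩, ⟨false, true, 9, 10, 2⟩, ⟨true, false, 9, 10, 2⟩, ⟨false, false, 11, 13, 1⟩, ⟨true, true, 13, 14, 1⟩],
  [⟨true, true, 1, 1, 6⟩, ⟨false, true, 6, 7, 3⟩, ⟨true, false, 7, 8, 2⟩, ⟨false, false, 9, 11, 1⟩, ⟨true, true, 11, 12, 2⟩, ⟨false, true, 12, 14, 1⟩, ⟨true, false, 13, 15, 1⟩, ⟨false, false, 13, 16, 1⟩, ⟨true, true, 15, 17, 1⟩, ⟨false, true, 16, 19, 1⟩, ⟨true, false, 16, 19, 1⟩, ⟨true, true, 18, 21, 1⟩, ⟨true, false, 19, 23, 1⟩, ⟨false, false, 19, 24, 1⟩]⟩ = true := by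
  decide +kernel

theorem c5 : chk ⟨124, 6, 18, 21, 5,
  [⟨false, true, 1, 0, 6⟩, ⟨true, false, 1, 0, 7⟩, ⟨false, false, 7, 7, 1⟩],
  [⟨false, false, 1, 1, 6⟩, ⟨true, true, 8, 7, 2⟩, ⟨false, true, 9, 9, 2⟩, ⟨true, false, 10, 10, 2⟩, ⟨false, false, 11, 12, 2⟩, ⟨true, true, 14, 14, 1⟩, ⟨false, true, 14, 15, 1⟩, ⟨true, false, 15, 16, 1⟩, ⟨false, false, 16, 18, 1⟩, ⟨true, true, 17, 18, 1⟩],
  [⟨true, true, 1, 0, 6⟩, ⟨false, true, 7, 7, 2⟩, ⟨true, false, 7, 7, 3⟩, ⟨false, false, 9, 10, 2⟩, ⟨true, true, 12, 12, 1⟩],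
  [⟨false, true, 0, 0, 7⟩, ⟨true, false, 1, 1, 6⟩, ⟨false, false, 7, 8, 2⟩],
  [⟨false, false, 0, 1, 6⟩, ⟨true, true, 7, 7, 3⟩, ⟨false, true, 9, 10, 2⟩, ⟨true, false, 10, 11, 1⟩, ⟨false, false, 11, 13, 1⟩, ⟨true, true, 13, 14, 1⟩, ⟨false, true, 14, 16, 1⟩, ⟨true, false, 15, 17, 1⟩, ⟨false, false, 15, 18, 1⟩, ⟨true, true, 17, 19, 1⟩, ⟨false, true, 17, 20, 1⟩, ⟨true, false, 18, 21, 1⟩],
  [⟨true, true, 1, 1, 6⟩, ⟨false, true, 6, 7, 3⟩, ⟨true, false, 7, 8, 2⟩, ⟨false, false, 9, 11, 2⟩, ⟨true, true, 11, 12, 2⟩, ⟨false, true, 12, 14, 2⟩, ⟨true, false, 13, 15, 1⟩, ⟨false, false, 14, 17, 1⟩, ⟨true, true, 16, 18, 1⟩, ⟨false, true, 16, 19, 1⟩, ⟨true, false, 17, 20, 1⟩]⟩ = true := by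
  decide +kernel

theorem c6 : chk ⟨130, 6, 19, 21, 5,
  [⟨false, true, 1, 0, 6⟩, ⟨true, false, 1, 0, 6⟩],
  [⟨false, false, 1, 1, 6⟩, ⟨true, true, 8, 7, 2⟩, ⟨false, true, 10, 10, 2⟩, ⟨true, false, 10, 10, 2⟩, ⟨false, false, 12, 13, 1⟩, ⟨true, true, 14, 14, 1⟩, ⟨false, true, 15, 16, 1⟩, ⟨true, false, 15, 16, 1⟩, ⟨false, false, 16, 18, 1⟩, ⟨true, true, 18, 19, 1⟩, ⟨false, true, 18, 20, 1⟩, ⟨true, false, 19, 21, 1⟩],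
  [⟨true, true, 1, 0, 7⟩, ⟨false, true, 7, 7, 2⟩, ⟨true, false, 8, 8, 2⟩, ⟨false, false, 10, 11, 1⟩],
  [⟨false, true, 0, 0, 7⟩, ⟨true, false, 1, 1, 6⟩, ⟨false, false, 7, 8, 2⟩],
  [⟨false, false, 0, 1, 7⟩, ⟨true, true, 7, 7, 3⟩, ⟨false, true, 9, 10, 2⟩, ⟨true, false, 10, 11, 2⟩, ⟨false, false, 11, 13, 2⟩],
  [⟨true, true, 1, 1, 6⟩, ⟨false, true, 6, 7, 3⟩, ⟨true, false, 7, 8, 3⟩]⟩ = true := by
  decide +kernel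

theorem c7 : chk ⟨136, 6, 26, 32, 5,
  [⟨false, true, 1, 0, 6⟩, ⟨true, false, 1, 0, 6⟩],
  [⟨false, false, 1, 1, 6⟩, ⟨true, true, 8, 7, 3⟩, ⟨false, true, 10, 10, 2⟩, ⟨true, false, 11, 11, 1⟩, ⟨false, false, 12, 13, 1⟩, ⟨true, true, 14, 14, 2⟩, ⟨false, true, 15, 16, 1⟩, ⟨true, false, 16, 17, 1⟩],
  [⟨true, true, 1, 0, 7⟩, ⟨false, true, 7, 7, 2⟩, ⟨true, false, 8, 8, 2⟩],
  [⟨false, true, 0, 0, 5⟩, ⟨true, false, 1, 1, 5⟩],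
  [⟨false, false, 0, 1, 7⟩, ⟨true, true, 7, 7, 3⟩, ⟨false, true, 9, 10, 2⟩, ⟨true, false, 10, 11, 2⟩, ⟨false, false, 11, 13, 2⟩, ⟨true, true, 14, 15, 1⟩, ⟨false, true, 15, 17, 1⟩, ⟨true, false, 15, 17, 1⟩, ⟨false, false, 16, 19, 1⟩, ⟨true, true, 18, 20, 1⟩, ⟨false, true, 18, 21, 1⟩, ⟨true, false, 19, 22, 1⟩, ⟨false, false, 19, 23, 1⟩, ⟨false, true, 21, 25, 1⟩, ⟨true, true, 23, 27, 1⟩, ⟨false, true, 23, 28, 1⟩, ⟨true, false, 24, 29, 1⟩, ⟨false, false, 24, 30, 1⟩, ⟨true, false, 26, 32, 1⟩],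
  [⟨true, true, 1, 1, 6⟩, ⟨false, true, 7, 8, 2⟩, ⟨true, false, 7, 8, 3⟩, ⟨false, false, 9, 11, 2⟩, ⟨true, true, 12, 13, 1⟩, ⟨false, true, 13, 15, 1⟩, ⟨true, false, 14, 16, 1⟩, ⟨false, false, 14, 17, 1⟩]⟩ = true := by
  decide +kernel

theorem c8 : chk ⟨142, 3, 22, 27, 5,
  [⟨false, true, 1, 0, 7⟩, ⟨true, false, 1, 0, 7⟩, ⟨false, false, 7, 7, 3⟩],
  [⟨false, false, 1, 1, 6⟩, ⟨true, true, 8, 7, 3⟩, ⟨false, true, 10, 10, 2⟩, ⟨true, false, 11, 11, 2⟩, ⟨false, false, 12, 13, 1⟩],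
  [⟨true, true, 1, 0, 7⟩, ⟨false, true, 7, 7, 3⟩, ⟨true, false, 8, 8, 3⟩, ⟨false, false, 10, 11, 2⟩, ⟨true, true, 13, 13, 1⟩, ⟨false, true, 14, 15, 1⟩, ⟨true, false, 14, 15, 2⟩, ⟨false, false, 15, 17, 1⟩, ⟨true, true, 17, 18, 1⟩, ⟨false, true, 18, 20, 1⟩, ⟨true, false, 18, 20, 1⟩, ⟨false, false, 19, 22, 1⟩],
  [⟨false, true, 0, 0, 5⟩, ⟨true, false, 1, 1, 5⟩],
  [⟨false, false, 0, 1, 7⟩, ⟨true, true, 7, 7, 3⟩, ⟨false, true, 9, 10, 3⟩, ⟨true, false, 10, 11, 2⟩, ⟨false, false, 12, 14, 1⟩, ⟨true, true, 14, 15, 1⟩, ⟨false, true, 15, 17, 1⟩, ⟨true, false, 15, 17, 2⟩, ⟨false, false, 16, 19, 1⟩, ⟨true, true, 18, 20, 1⟩, ⟨false, true, 18, 21, 1⟩, ⟨true, false, 19, 22, 1⟩, ⟨false, false, 19, 23, 1⟩, ⟨true, true, 21, 24, 1⟩, ⟨false, true, 21, 25, 1⟩, ⟨true, false, 22, 26, 1⟩, ⟨false, false, 22, 27, 1⟩],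
  [⟨true, true, 1, 1, 6⟩, ⟨false, true, 7, 8, 2⟩, ⟨true, false, 7, 8, 2⟩]⟩ = true := by
  decide +kernel

theorem c9 : chk ⟨145, 3, 18, 22, 5,
  [⟨false, true, 1, 0, 7⟩, ⟨true, false, 1, 0, 7⟩, ⟨false, false, 8, 8, 2⟩, ⟨true, true, 11, 10, 2⟩, ⟨false, true, 12, 12, 2⟩, ⟨true, false, 13, 13, 2⟩, ⟨false, false, 14, 15, 2⟩, ⟨true, true, 16, 16, 2⟩, ⟨false, true, 17, 18, 1⟩, ⟨true, false, 18, 19, 1⟩],
  [⟨false, false, 1, 1, 6⟩, ⟨true, true, 8, 7, 3⟩, ⟨false, true, 10, 10, 2⟩, ⟨true, false, 11, 11, 2⟩],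
  [⟨true, true, 1, 0, 7⟩, ⟨false, true, 7, 7, 3⟩, ⟨true, false, 8, 8, 3⟩],
  [⟨false, true, 0, 0, 7⟩, ⟨true, false, 1, 1, 7⟩],
  [⟨false, false, 0, 1, 7⟩, ⟨true, true, 8, 8, 2⟩, ⟨false, true, 10, 11, 1⟩, ⟨true, false, 10, 11, 1⟩],
  [⟨true, true, 1, 1, 6⟩, ⟨false, true, 7, 8, 2⟩, ⟨true, false, 7, 8, 3⟩, ⟨false, false, 9, 11, 3⟩, ⟨true, true, 12, 13, 2⟩, ⟨false, true, 13, 15, 2⟩, ⟨true, false, 14, 16, 1⟩, ⟨false, false, 15, 18, 1⟩, ⟨true, true, 17, 19, 1⟩, ⟨false, true, 17, 20, 1⟩, ⟨true, false, 18, 21, 1⟩, ⟨false, false, 18, 22, 1⟩]⟩ = true := by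
  decide +kernel

theorem c10 : chk ⟨148, 7, 22, 25, 5,
  [⟨false, true, 1, 0, 7⟩, ⟨true, false, 1, 0, 7⟩, ⟨false, false, 8, 8, 2⟩, ⟨true, true, 11, 10, 2⟩],
  [⟨false, false, 1, 1, 7⟩, ⟨true, true, 8, 7, 3⟩, ⟨false, true, 10, 10, 1⟩, ⟨true, false, 11, 11, 1⟩],
  [⟨true, true, 1, 0, 7⟩, ⟨false, true, 7, 7, 3⟩, ⟨true, false, 8, 8, 3⟩, ⟨false, false, 10, 11, 2⟩, ⟨true, true, 13, 13, 2⟩, ⟨false, true, 14, 15, 1⟩, ⟨true, false, 15, 16, 1⟩, ⟨false, false, 16, 18, 1⟩, ⟨true, true, 18, 19, 1⟩, ⟨false, true, 18, 20, 1⟩, ⟨true, false, 19, 21, 1⟩, ⟨false, false, 19, 22, 1⟩, ⟨true, true, 21, 23, 1⟩, ⟨false, true, 21, 24, 1⟩, ⟨true, false, 22, 25, 1⟩],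
  [⟨false, true, 0, 0, 7⟩, ⟨true, false, 1, 1, 7⟩, ⟨false, false, 7, 8, 3⟩, ⟨true, true, 11, 11, 2⟩, ⟨false, true, 12, 13, 2⟩, ⟨true, false, 13, 14, 1⟩, ⟨false, false, 14, 16, 1⟩, ⟨true, true, 16, 17, 1⟩, ⟨false, true, 17, 19, 1⟩, ⟨true, false, 17, 19, 1⟩],
  [⟨false, false, 0, 1, 7⟩, ⟨true, true, 8, 8, 2⟩, ⟨false, true, 10, 11, 2⟩, ⟨true, false, 10, 11, 3⟩, ⟨false, false, 12, 14, 2⟩],
  [⟨true, true, 1, 1, 7⟩, ⟨false, true, 7, 8, 3⟩, ⟨true, false, 8, 9, 2⟩, ⟨false, false, 10, 12, 2⟩]⟩ = true := by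
  decide +kernel

theorem c11 : chk ⟨155, 3, 40, 53, 6,
  [⟨false, true, 1, 0, 7⟩, ⟨true, false, 1, 0, 8⟩, ⟨false, false, 8, 8, 2⟩],
  [⟨false, false, 1, 1, 7⟩, ⟨true, true, 8, 7, 3⟩, ⟨false, true, 10, 10, 3⟩, ⟨true, false, 11, 11, 2⟩, ⟨false, false, 13, 14, 1⟩],
  [⟨true, true, 1, 0, 7⟩, ⟨false, true, 7, 7, 2⟩, ⟨true, false, 8, 8, 2⟩],
  [⟨false, true, 0, 0, 5⟩, ⟨true, false, 1, 1, 5⟩],
  [⟨false, false, 0, 1, 7⟩, ⟨true, true, 8, 8, 3⟩, ⟨false, true, 10, 11, 2⟩, ⟨true, false, 11, 12, 2⟩, ⟨false, false, 12, 14, 2⟩, ⟨true, true, 15, 16, 1⟩, ⟨false, true, 15, 17, 2⟩, ⟨true, false, 16, 18, 1⟩, ⟨false, false, 17, 20, 1⟩, ⟨true, true, 19, 21, 1⟩, ⟨false, true, 19, 22, 1⟩, ⟨true, false, 20, 23, 1⟩, ⟨false, false, 20, 24, 1⟩, ⟨true, true, 22, 25, 1⟩, ⟨false, true, 22, 26, 1⟩, ⟨true, false, 23, 27, 1⟩, ⟨false, false, 23,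 28, 1⟩, ⟨false, true, 25, 30, 1⟩, ⟨true, true, 27, 32, 1⟩, ⟨false, true, 27, 33, 1⟩, ⟨true, true, 29, 35, 1⟩, ⟨false, true, 29, 36, 1⟩, ⟨true, true, 31, 38, 1⟩, ⟨false, true, 31, 39, 1⟩, ⟨false, false, 33, 43, 1⟩, ⟨false, true, 37, 49, 1⟩, ⟨true, false, 39, 52, 1⟩, ⟨true, true, 40, 53, 1⟩],
  [⟨true, true, 1, 1, 7⟩, ⟨false, true, 7, 8, 2⟩, ⟨true, false, 8, 9, 2⟩]⟩ = true := by
  decide +kernel

theorem c12 : chk ⟨158, 7, 19, 21, 5,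
  [⟨false, true, 1, 0, 7⟩, ⟨true, false, 1, 0, 8⟩, ⟨false, false, 8, 8, 3⟩, ⟨true, true, 11, 10, 3⟩, ⟨false, true, 13, 13, 1⟩, ⟨true, false, 14, 14, 1⟩],
  [⟨false, false, 1, 1, 7⟩, ⟨true, true, 8, 7, 3⟩, ⟨false, true, 11, 11, 2⟩, ⟨true, false, 11, 11, 2⟩, ⟨false, false, 13, 14, 2⟩, ⟨true, true, 15, 15, 1⟩],
  [⟨true, true, 1, 0, 7⟩, ⟨false, true, 8, 8, 1⟩, ⟨true, false, 8, 8, 1⟩],
  [⟨false, true, 0, 0, 7⟩, ⟨true, false, 1, 1, 7⟩, ⟨false, false, 7, 8, 1⟩],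
  [⟨false, false, 0, 1, 7⟩, ⟨true, true, 8, 8, 3⟩, ⟨false, true, 10, 11, 2⟩, ⟨true, false, 11, 12, 2⟩, ⟨false, false, 12, 14, 2⟩, ⟨true, true, 15, 16, 1⟩, ⟨false, true, 16, 18, 1⟩, ⟨true, false, 16, 18, 2⟩, ⟨false, false, 17, 20, 1⟩, ⟨true, true, 19, 21, 1⟩],
  [⟨true, true, 1, 1, 7⟩, ⟨false, true, 7, 8, 3⟩, ⟨true, false, 8, 9, 3⟩, ⟨false, false, 10, 12, 2⟩, ⟨true, true, 13, 14, 2⟩, ⟨false, true, 14, 16, 1⟩, ⟨true, false, 15, 17, 1⟩]⟩ = true := by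
  decide +kernel

theorem c13 : chk ⟨165, 2, 28, 32, 5,
  [⟨false, true, 1, 0, 5⟩, ⟨true, false, 1, 0, 5⟩],
  [⟨false, false, 1, 1, 7⟩, ⟨true, true, 8, 7, 3⟩, ⟨false, true, 11, 11, 2⟩, ⟨true, false, 11, 11, 3⟩, ⟨false, false, 13, 14, 2⟩, ⟨true, true, 15, 15, 2⟩, ⟨false, true, 16, 17, 2⟩, ⟨true, false, 17, 18, 2⟩, ⟨false, false, 18, 20, 1⟩, ⟨true, true, 20, 21, 1⟩, ⟨false, true, 20, 22, 1⟩, ⟨true, false, 21, 23, 1⟩, ⟨false, false, 21, 24, 1⟩, ⟨true, true, 23, 25, 1⟩, ⟨false, true, 23, 26, 1⟩, ⟨true, false, 24, 27, 1⟩, ⟨false, false, 24, 28, 1⟩, ⟨true, true, 26, 29, 1⟩, ⟨false, true, 26, 30, 1⟩, ⟨true, false, 27, 31, 1⟩, ⟨false, false, 27, 32, 1⟩, ⟨true, true, 28, 32, 1⟩],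
  [⟨true, true, 1, 0, 7⟩],
  [⟨false, true, 0, 0, 6⟩, ⟨true, false, 1, 1, 6⟩],
  [⟨false, false, 0, 1, 6⟩],
  [⟨true, true, 1, 1, 5⟩]⟩ = true := by
  decide +kernel

theorem c14 : chk ⟨167, 8, 13, 14, 5,
  [⟨false, true, 1, 0, 7⟩, ⟨true, false, 1, 0, 8⟩, ⟨false, false, 8, 8, 1⟩],
  [⟨false, false, 1, 1, 7⟩, ⟨true, true, 9, 8, 2⟩],
  [⟨true, true, 1, 0, 7⟩, ⟨false, true, 8, 8, 3⟩, ⟨true, false, 8, 8, 3⟩],
  [⟨false, true, 0, 0, 6⟩, ⟨true, false, 1, 1, 6⟩],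
  [⟨false, false, 0, 1, 7⟩, ⟨true, true, 8, 8, 3⟩, ⟨false, true, 10, 11, 2⟩, ⟨true, false, 11, 12, 2⟩],
  [⟨true, true, 1, 1, 7⟩, ⟨false, true, 7, 8, 3⟩, ⟨true, false, 8, 9, 3⟩, ⟨false, false, 10, 12, 2⟩, ⟨true, true, 13, 14, 1⟩]⟩ = true := by
  decide +kernel

theorem c15 : chk ⟨175, 8, 18, 19, 5,
  [⟨false, true, 1, 0, 5⟩, ⟨true, false, 1, 0, 5⟩],
  [⟨false, false, 1, 1, 7⟩, ⟨true, true, 9, 8, 3⟩, ⟨false, true, 11, 11, 2⟩, ⟨true, false, 12, 12, 2⟩, ⟨false, false, 14, 15, 1⟩, ⟨true, true, 16, 16, 2⟩, ⟨false, true, 17, 18, 1⟩, ⟨true, false, 18, 19, 1⟩],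
  [⟨true, true, 1, 0, 8⟩, ⟨false, true, 8, 8, 3⟩, ⟨true, false, 9, 9, 3⟩, ⟨false, false, 11, 12, 2⟩, ⟨true, true, 14, 14, 2⟩, ⟨false, true, 15, 16, 2⟩, ⟨true, false, 16, 17, 1⟩],
  [⟨false, true, 0, 0, 7⟩, ⟨true, false, 1, 1, 7⟩],
  [⟨false, false, 0, 1, 8⟩, ⟨true, true, 8, 8, 3⟩, ⟨false, true, 11, 12, 2⟩, ⟨true, false, 11, 12, 2⟩],
  [⟨true, true, 1, 1, 7⟩, ⟨false, true, 7, 8, 3⟩, ⟨true, false, 8, 9, 3⟩, ⟨false, false, 11, 13, 2⟩, ⟨true, true, 14, 15, 1⟩, ⟨false, true, 15, 17, 1⟩, ⟨true, false, 15, 17, 1⟩]⟩ = true := by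
  decide +kernel

theorem c16 : chk ⟨183, 9, 25, 29, 6,
  [⟨false, true, 1, 0, 7⟩, ⟨true, false, 1, 0, 8⟩, ⟨false, false, 8, 8, 4⟩],
  [⟨false, false, 1, 1, 7⟩, ⟨true, true, 9, 8, 3⟩, ⟨false, true, 11, 11, 3⟩, ⟨true, false, 12, 12, 2⟩, ⟨false, false, 14, 15, 2⟩, ⟨true, true, 17, 17, 1⟩],
  [⟨true, true, 1, 0, 8⟩, ⟨false, true, 8, 8, 3⟩, ⟨true, false, 9, 9, 3⟩, ⟨false, false, 11, 12, 3⟩, ⟨true, true, 14, 14, 2⟩, ⟨false, true, 16, 17, 1⟩, ⟨true, false, 16, 17, 1⟩],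
  [⟨false, true, 0, 0, 8⟩, ⟨true, false, 1, 1, 8⟩, ⟨false, false, 8, 9, 3⟩],
  [⟨false, false, 0, 1, 8⟩, ⟨true, true, 8, 8, 4⟩, ⟨false, true, 11, 12, 2⟩, ⟨true, false, 12, 13, 2⟩, ⟨false, false, 13, 15, 2⟩, ⟨true, true, 16, 17, 1⟩, ⟨false, true, 17, 19, 1⟩, ⟨true, false, 18, 20, 1⟩, ⟨false, false, 19, 22, 1⟩, ⟨true, true, 21, 23, 1⟩, ⟨false, true, 21, 24, 1⟩, ⟨true, false, 22, 25, 1⟩, ⟨true, true, 24, 27, 1⟩, ⟨true, false, 25, 29, 1⟩],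
  [⟨true, true, 1, 1, 7⟩, ⟨false, true, 8, 9, 3⟩, ⟨true, false, 8, 9, 3⟩, ⟨false, false, 11, 13, 2⟩, ⟨true, true, 14, 15, 2⟩, ⟨false, true, 15, 17, 1⟩, ⟨true, false, 16, 18, 1⟩]⟩ = true := by
  decide +kernel

theorem c17 : chk ⟨192, 4, 20, 21, 6,
  [⟨false, true, 1, 0, 8⟩, ⟨true, false, 1, 0, 8⟩, ⟨false, false, 9, 9, 3⟩, ⟨true, true, 12, 11, 3⟩, ⟨false, true, 14, 14, 2⟩, ⟨true, false, 15, 15, 2⟩, ⟨false, false, 16, 17, 2⟩, ⟨true, true, 19, 19, 1⟩, ⟨false, true, 19, 20, 1⟩, ⟨true, false, 20, 21, 1⟩],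
  [⟨false, false, 1, 1, 7⟩, ⟨true, true, 9, 8, 3⟩, ⟨false, true, 12, 12, 2⟩, ⟨true, false, 12, 12, 3⟩, ⟨false, false, 14, 15, 2⟩],
  [⟨true, true, 1, 0, 8⟩, ⟨false, true, 8, 8, 3⟩, ⟨true, false, 9, 9, 3⟩, ⟨false, false, 11, 12, 1⟩],
  [⟨false, true, 0, 0, 8⟩, ⟨true, false, 1, 1, 8⟩],
  [⟨false, false, 0, 1, 8⟩, ⟨true, true, 9, 9, 3⟩, ⟨false, true, 11, 12, 3⟩, ⟨true, false, 12, 13, 2⟩],
  [⟨true, true, 1, 1, 7⟩, ⟨false, true, 8, 9, 3⟩, ⟨true, false, 8, 9, 4⟩, ⟨false, false, 11, 13, 1⟩]⟩ = true := by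
  decide +kernel

theorem c18 : chk ⟨196, 9, 26, 29, 6,
  [⟨false, true, 1, 0, 8⟩, ⟨true, false, 1, 0, 8⟩, ⟨false, false, 9, 9, 1⟩],
  [⟨false, false, 1, 1, 8⟩, ⟨true, true, 9, 8, 3⟩, ⟨false, true, 12, 12, 2⟩, ⟨true, false, 13, 13, 2⟩, ⟨false, false, 14, 15, 2⟩, ⟨true, true, 17, 17, 2⟩, ⟨false, true, 18, 19, 1⟩, ⟨true, false, 19, 20, 1⟩, ⟨false, false, 20, 22, 1⟩, ⟨true, true, 22, 23, 1⟩, ⟨true, false, 23, 25, 1⟩, ⟨false, false, 24, 27, 1⟩, ⟨false, true, 26, 29, 1⟩],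
  [⟨true, true, 1, 0, 8⟩, ⟨false, true, 8, 8, 4⟩, ⟨true, false, 9, 9, 3⟩, ⟨false, false, 12, 13, 2⟩],
  [⟨false, true, 0, 0, 8⟩, ⟨true, false, 1, 1, 8⟩, ⟨false, false, 8, 9, 3⟩, ⟨true, true, 12, 12, 3⟩, ⟨false, true, 14, 15, 2⟩, ⟨true, false, 15, 16, 2⟩],
  [⟨false, false, 0, 1, 8⟩, ⟨true, true, 9, 9, 3⟩, ⟨false, true, 11, 12, 3⟩, ⟨true, false, 12, 13, 2⟩, ⟨false, false, 14, 16, 2⟩, ⟨true, true, 17, 18, 1⟩, ⟨false, true, 18, 20, 1⟩, ⟨true, false, 18, 20, 2⟩, ⟨false, false, 19, 22, 1⟩, ⟨true, true, 21, 23, 1⟩],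
  [⟨true, true, 1, 1, 8⟩, ⟨false, true, 8, 9, 3⟩, ⟨true, false, 9, 10, 3⟩, ⟨false, false, 11, 13, 3⟩, ⟨true, true, 14, 15, 2⟩, ⟨false, true, 16, 18, 1⟩, ⟨true, false, 16, 18, 2⟩, ⟨false, false, 17, 20, 2⟩, ⟨true, true, 20, 22, 1⟩, ⟨false, true, 21, 24, 1⟩, ⟨true, false, 21, 24, 1⟩]⟩ = true := by
  decide +kernel

theorem c19 : chk ⟨205, 5, 14, 15, 6,
  [⟨false, true, 1, 0, 8⟩, ⟨true, false, 1, 0, 9⟩],
  [⟨false, false, 1, 1, 8⟩, ⟨true, true, 9, 8, 4⟩, ⟨false, true, 12, 12, 2⟩, ⟨true, false, 13, 13, 2⟩, ⟨false, false, 14, 15, 1⟩],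
  [⟨true, true, 1, 0, 8⟩, ⟨false, true, 9, 9, 3⟩, ⟨true, false, 9, 9, 4⟩],
  [⟨false, true, 0, 0, 7⟩, ⟨true, false, 1, 1, 7⟩],
  [⟨false, false, 0, 1, 8⟩, ⟨true, true, 9, 9, 3⟩],
  [⟨true, true, 1, 1, 8⟩, ⟨false, true, 8, 9, 1⟩, ⟨true, false, 9, 10, 1⟩]⟩ = true := by
  decide +kernel

theorem c20 : chk ⟨210, 10, 30, 34, 6,
  [⟨false, true, 1, 0, 8⟩, ⟨true, false, 1, 0, 9⟩],
  [⟨false, false, 1, 1, 8⟩, ⟨true, true, 10, 9, 3⟩, ⟨false, true, 12, 12, 3⟩, ⟨true, false, 13, 13, 2⟩, ⟨false, false, 15, 16, 2⟩, ⟨true, true, 18, 18, 1⟩, ⟨false, true, 19, 20, 1⟩, ⟨true, false, 19, 20, 2⟩, ⟨false, false, 20, 22, 2⟩, ⟨true, true, 23, 24, 1⟩, ⟨false, true, 23, 25, 1⟩, ⟨true, false, 24, 26, 1⟩, ⟨false, true, 27, 30, 1⟩, ⟨false, false, 28, 32, 1⟩, ⟨false, true, 30, 34, 1⟩],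
  [⟨true, true, 1, 0, 8⟩, ⟨false, true, 9, 9, 3⟩, ⟨true, false, 9, 9, 4⟩, ⟨false, false, 12, 13, 2⟩, ⟨true, true, 15, 15, 2⟩, ⟨false, true, 17, 18, 1⟩, ⟨true, false, 17, 18, 2⟩],
  [⟨false, true, 0, 0, 9⟩, ⟨true, false, 1, 1, 8⟩, ⟨false, false, 9, 10, 3⟩, ⟨true, true, 13, 13, 2⟩, ⟨false, true, 15, 16, 1⟩, ⟨true, false, 15, 16, 2⟩, ⟨false, false, 17, 19, 1⟩],
  [⟨false, false, 0, 1, 8⟩, ⟨true, true, 9, 9, 3⟩, ⟨false, true, 12, 13, 2⟩, ⟨true, false, 12, 13, 3⟩, ⟨false, false, 14, 16, 2⟩, ⟨true, true, 17, 18, 2⟩, ⟨false, true, 18, 20, 2⟩, ⟨true, false, 19, 21, 1⟩, ⟨false, false, 20, 23, 1⟩, ⟨true, true, 22, 24, 1⟩, ⟨false, true, 23, 26, 1⟩, ⟨false, false, 24, 28, 1⟩],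
  [⟨true, true, 1, 1, 8⟩, ⟨false, true, 8, 9, 3⟩, ⟨true, false, 9, 10, 3⟩, ⟨false, false, 12, 14, 2⟩, ⟨true, true, 15, 16, 2⟩, ⟨false, true, 16, 18, 2⟩, ⟨true, false, 17, 19, 2⟩, ⟨false, false, 18, 21, 2⟩, ⟨true, true, 20, 22, 2⟩, ⟨false, true, 21, 24, 1⟩, ⟨true, false, 22, 25, 1⟩, ⟨false, false, 23, 27, 1⟩, ⟨false, true, 25, 29, 1⟩, ⟨true, false, 26, 30, 1⟩]⟩ = true := by
  decide +kernel

theorem c21 : chk ⟨220, 11, 21, 23, 6,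
  [⟨false, true, 1, 0, 8⟩, ⟨true, false, 1, 0, 9⟩, ⟨false, false, 9, 9, 4⟩, ⟨true, true, 13, 12, 3⟩, ⟨false, true, 15, 15, 2⟩, ⟨true, false, 16, 16, 2⟩],
  [⟨false, false, 1, 1, 8⟩, ⟨true, true, 10, 9, 3⟩, ⟨false, true, 13, 13, 2⟩, ⟨true, false, 13, 13, 3⟩, ⟨false, false, 15, 16, 2⟩, ⟨true, true, 18, 18, 2⟩, ⟨false, true, 19, 20, 1⟩, ⟨true, false, 20, 21, 1⟩],
  [⟨true, true, 1, 0, 9⟩, ⟨false, true, 9, 9, 3⟩, ⟨true, false, 10, 10, 3⟩, ⟨false, false, 12, 13, 3⟩, ⟨true, true, 16, 16, 2⟩, ⟨false, true, 17, 18, 2⟩, ⟨true, false, 18, 19, 1⟩, ⟨false, false, 19, 21, 1⟩],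
  [⟨false, true, 0, 0, 9⟩, ⟨true, false, 1, 1, 8⟩, ⟨false, false, 9, 10, 3⟩, ⟨true, true, 13, 13, 2⟩, ⟨false, true, 15, 16, 1⟩, ⟨true, false, 16, 17, 1⟩],
  [⟨false, false, 0, 1, 9⟩, ⟨true, true, 9, 9, 4⟩, ⟨false, true, 12, 13, 3⟩, ⟨true, false, 13, 14, 2⟩, ⟨false, false, 15, 17, 1⟩],
  [⟨true, true, 1, 1, 8⟩, ⟨false, true, 8, 9, 4⟩, ⟨true, false, 9, 10, 3⟩, ⟨false, false, 12, 14, 2⟩, ⟨true, true, 15, 16, 2⟩, ⟨false, true, 17, 19, 1⟩, ⟨true, false, 17, 19, 2⟩, ⟨false, false, 19, 22, 1⟩, ⟨true, true, 21, 23, 1⟩]⟩ = true := by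
  decide +kernel

theorem c22 : chk ⟨231, 11, 24, 26, 6,
  [⟨false, true, 1, 0, 8⟩, ⟨true, false, 1, 0, 9⟩, ⟨false, false, 9, 9, 4⟩, ⟨true, true, 14, 13, 2⟩, ⟨false, true, 16, 16, 1⟩, ⟨true, false, 16, 16, 1⟩],
  [⟨false, false, 1, 1, 8⟩, ⟨true, true, 10, 9, 3⟩, ⟨false, true, 13, 13, 2⟩, ⟨true, false, 14, 14, 2⟩, ⟨false, false, 16, 17, 2⟩, ⟨true, true, 18, 18, 2⟩, ⟨false, true, 20, 21, 1⟩, ⟨true, false, 20, 21, 1⟩],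
  [⟨true, true, 1, 0, 9⟩, ⟨false, true, 9, 9, 4⟩, ⟨true, false, 10, 10, 3⟩, ⟨false, false, 13, 14, 2⟩, ⟨true, true, 16, 16, 2⟩, ⟨false, true, 18, 19, 1⟩, ⟨true, false, 18, 19, 2⟩, ⟨false, false, 20, 22, 1⟩, ⟨true, true, 22, 23, 1⟩, ⟨false, true, 23, 25, 1⟩, ⟨true, false, 24, 26, 1⟩],
  [⟨false, true, 0, 0, 9⟩, ⟨true, false, 1, 1, 9⟩, ⟨false, false, 9, 10, 3⟩, ⟨true, true, 13, 13, 2⟩],
  [⟨false, false, 0, 1, 9⟩, ⟨true, true, 9, 9, 4⟩, ⟨false, true, 12, 13, 3⟩, ⟨true, false, 13, 14, 3⟩, ⟨false, false, 15, 17, 2⟩, ⟨true, true, 18, 19, 1⟩],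
  [⟨true, true, 1, 1, 8⟩, ⟨false, true, 9, 10, 3⟩, ⟨true, false, 9, 10, 4⟩, ⟨false, false, 12, 14, 3⟩, ⟨true, true, 16, 17, 2⟩, ⟨false, true, 17, 19, 2⟩, ⟨true, false, 18, 20, 1⟩]⟩ = true := by
  decide +kernel

theorem c23 : chk ⟨242, 12, 29, 33, 7,
  [⟨false, true, 1, 0, 9⟩, ⟨true, false, 1, 0, 9⟩, ⟨false, false, 10, 10, 3⟩],
  [⟨false, false, 1, 1, 8⟩, ⟨true, true, 10, 9, 4⟩, ⟨false, true, 13, 13, 2⟩, ⟨true, false, 14, 14, 2⟩],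
  [⟨true, true, 1, 0, 9⟩, ⟨false, true, 9, 9, 3⟩, ⟨true, false, 10, 10, 3⟩],
  [⟨false, true, 0, 0, 9⟩, ⟨true, false, 1, 1, 9⟩],
  [⟨false, false, 0, 1, 9⟩, ⟨true, true, 10, 10, 3⟩, ⟨false, true, 13, 14, 2⟩, ⟨true, false, 13, 14, 3⟩, ⟨false, false, 15, 17, 2⟩, ⟨true, true, 18, 19, 2⟩, ⟨false, true, 20, 22, 1⟩, ⟨true, false, 20, 22, 2⟩, ⟨false, false, 22, 25, 1⟩, ⟨true, true, 24, 26, 1⟩, ⟨false, true, 25, 28, 1⟩, ⟨true, false, 25, 28, 1⟩, ⟨false, false, 26, 30, 1⟩, ⟨true, true, 28, 31, 1⟩, ⟨true, false, 29, 33, 1⟩],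
  [⟨true, true, 1, 1, 8⟩, ⟨false, true, 9, 10, 2⟩, ⟨true, false, 10, 11, 2⟩]⟩ = true := by
  decide +kernel

theorem c24 : chk ⟨254, 12, 19, 19, 7,
  [⟨false, true, 1, 0, 9⟩, ⟨true, false, 1, 0, 10⟩],
  [⟨false, false, 1, 1, 9⟩, ⟨true, true, 10, 9, 4⟩, ⟨false, true, 13, 13, 3⟩, ⟨true, false, 14, 14, 3⟩, ⟨false, false, 16, 17, 2⟩, ⟨true, true, 19, 19, 1⟩],
  [⟨true, true, 1, 0, 9⟩, ⟨false, true, 10, 10, 3⟩, ⟨true, false, 10, 10, 4⟩, ⟨false, false, 13, 14, 3⟩],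
  [⟨false, true, 0, 0, 7⟩, ⟨true, false, 1, 1, 7⟩],
  [⟨false, false, 0, 1, 9⟩, ⟨true, true, 10, 10, 4⟩, ⟨false, true, 13, 14, 1⟩, ⟨true, false, 14, 15, 1⟩],
  [⟨true, true, 1, 1, 9⟩, ⟨false, true, 9, 10, 1⟩, ⟨true, false, 10, 11, 1⟩]⟩ = true := by
  decide +kernel

theorem c25 : chk ⟨266, 6, 24, 25, 7,
  [⟨false, true, 1, 0, 9⟩, ⟨true, false, 1, 0, 10⟩, ⟨false, false, 10, 10, 4⟩, ⟨true, true, 14, 13, 3⟩, ⟨false, true, 17, 17, 2⟩, ⟨true, false, 17, 17, 3⟩, ⟨false, false, 19, 20, 2⟩, ⟨true, true, 22, 22, 2⟩, ⟨false, true, 23, 24, 1⟩, ⟨true, false, 24, 25, 1⟩],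
  [⟨false, false, 1, 1, 9⟩, ⟨true, true, 11, 10, 3⟩, ⟨false, true, 14, 14, 2⟩, ⟨true, false, 14, 14, 3⟩, ⟨false, false, 16, 17, 3⟩, ⟨true, true, 20, 20, 2⟩, ⟨false, true, 21, 22, 1⟩, ⟨true, false, 22, 23, 1⟩],
  [⟨true, true, 1, 0, 9⟩, ⟨false, true, 10, 10, 3⟩, ⟨true, false, 10, 10, 4⟩, ⟨false, false, 13, 14, 3⟩, ⟨true, true, 17, 17, 2⟩, ⟨false, true, 19, 20, 2⟩, ⟨true, false, 19, 20, 2⟩],
  [⟨false, true, 0, 0, 5⟩, ⟨true, false, 1, 1, 5⟩],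
  [⟨false, false, 0, 1, 9⟩, ⟨true, true, 10, 10, 4⟩, ⟨false, true, 13, 14, 3⟩, ⟨true, false, 14, 15, 3⟩, ⟨false, false, 16, 18, 2⟩, ⟨true, true, 19, 20, 2⟩],
  [⟨true, true, 1, 1, 9⟩, ⟨false, true, 9, 10, 4⟩, ⟨true, false, 10, 11, 4⟩, ⟨false, false, 13, 15, 3⟩, ⟨true, true, 16, 17, 2⟩]⟩ = true := by
  decide +kernel

theorem c26 : chk ⟨272, 13, 37, 42, 7,
  [⟨false, true, 1, 0, 9⟩, ⟨true, false, 1, 0, 10⟩, ⟨false, false, 10, 10, 2⟩],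
  [⟨false, false, 1, 1, 9⟩, ⟨true, true, 11, 10, 3⟩, ⟨false, true, 14, 14, 3⟩, ⟨true, false, 15, 15, 2⟩, ⟨false, false, 17, 18, 2⟩],
  [⟨true, true, 1, 0, 10⟩, ⟨false, true, 10, 10, 4⟩, ⟨true, false, 11, 11, 3⟩, ⟨false, false, 14, 15, 2⟩, ⟨true, true, 17, 17, 3⟩, ⟨false, true, 19, 20, 2⟩, ⟨true, false, 20, 21, 2⟩, ⟨false, false, 21, 23, 2⟩, ⟨true, true, 24, 25, 1⟩, ⟨false, true, 25, 27, 1⟩, ⟨true, false, 26, 28, 1⟩, ⟨false, false, 27, 30, 1⟩, ⟨true, true, 29, 31, 1⟩, ⟨true, false, 30, 33, 1⟩, ⟨false, false, 31, 35, 1⟩, ⟨false, true, 33, 37, 1⟩, ⟨true, false, 34, 38, 1⟩, ⟨true, true, 36, 40, 1⟩, ⟨true, false, 37, 42, 1⟩],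
  [⟨false, true, 0, 0, 10⟩, ⟨true, false, 1, 1, 9⟩],
  [⟨false, false, 0, 1, 10⟩, ⟨true, true, 10, 10, 4⟩, ⟨false, true, 13, 14, 1⟩, ⟨true, false, 14, 15, 1⟩],
  [⟨true, true, 1, 1, 9⟩, ⟨false, true, 9, 10, 4⟩, ⟨true, false, 10, 11, 4⟩, ⟨false, false, 13, 15, 3⟩]⟩ = true := by
  decide +kernel

theorem c27 : chk ⟨285, 14, 30, 34, 7,
  [⟨false, true, 1, 0, 9⟩, ⟨true, false, 1, 0, 10⟩, ⟨false, false, 10, 10, 4⟩, ⟨true, true, 15, 14, 3⟩, ⟨false, true, 17, 17, 3⟩, ⟨true, false, 18, 18, 2⟩, ⟨false, false, 20, 21, 2⟩, ⟨true, true, 23, 23, 1⟩, ⟨false, true, 24, 25, 1⟩, ⟨true, false, 25, 26, 1⟩, ⟨false, false, 26, 28, 1⟩, ⟨true, true, 28, 29, 1⟩, ⟨false, true, 29, 31, 1⟩, ⟨true, false, 30, 32, 1⟩],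
  [⟨false, false, 1, 1, 9⟩, ⟨true, true, 11, 10, 4⟩, ⟨false, true, 14, 14, 3⟩, ⟨true, false, 15, 15, 3⟩, ⟨false, false, 17, 18, 2⟩, ⟨true, true, 20, 20, 2⟩, ⟨false, true, 22, 23, 1⟩, ⟨true, false, 23, 24, 1⟩],
  [⟨true, true, 1, 0, 10⟩, ⟨false, true, 10, 10, 4⟩, ⟨true, false, 11, 11, 4⟩, ⟨false, false, 14, 15, 3⟩, ⟨true, true, 18, 18, 2⟩, ⟨false, true, 20, 21, 1⟩, ⟨true, false, 20, 21, 2⟩, ⟨false, false, 22, 24, 1⟩, ⟨true, true, 24, 25, 1⟩],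
  [⟨false, true, 0, 0, 10⟩, ⟨true, false, 1, 1, 10⟩, ⟨false, false, 10, 11, 4⟩],
  [⟨false, false, 0, 1, 10⟩, ⟨true, true, 10, 10, 4⟩, ⟨false, true, 14, 15, 3⟩, ⟨true, false, 14, 15, 3⟩],
  [⟨true, true, 1, 1, 9⟩, ⟨false, true, 10, 11, 3⟩, ⟨true, false, 10, 11, 4⟩, ⟨false, false, 14, 16, 2⟩, ⟨true, true, 17, 18, 2⟩, ⟨false, true, 19, 21, 2⟩, ⟨true, false, 20, 22, 2⟩, ⟨false, false, 21, 24, 2⟩, ⟨true, true, 24, 26, 1⟩, ⟨false, true, 25, 28, 1⟩, ⟨true, false, 26, 29, 1⟩, ⟨false, false, 27, 31, 1⟩, ⟨true, true, 29, 32, 1⟩, ⟨false, true, 30, 34, 1⟩, ⟨true, false, 30, 34, 1⟩]⟩ = true := by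
  decide +kernel

theorem c28 : chk ⟨299, 14, 34, 38, 7,
  [⟨false, true, 1, 0, 10⟩, ⟨true, false, 1, 0, 10⟩],
  [⟨false, false, 1, 1, 9⟩, ⟨true, true, 11, 10, 4⟩, ⟨false, true, 15, 15, 2⟩, ⟨true, false, 15, 15, 3⟩, ⟨false, false, 18, 19, 2⟩, ⟨true, true, 21, 21, 2⟩, ⟨false, true, 23, 24, 1⟩, ⟨true, false, 23, 24, 2⟩],
  [⟨true, true, 1, 0, 10⟩, ⟨false, true, 10, 10, 4⟩, ⟨true, false, 11, 11, 4⟩, ⟨false, false, 14, 15, 3⟩, ⟨true, true, 18, 18, 1⟩],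
  [⟨false, true, 0, 0, 10⟩, ⟨true, false, 1, 1, 10⟩, ⟨false, false, 10, 11, 4⟩, ⟨true, true, 15, 15, 3⟩, ⟨false, true, 17, 18, 1⟩, ⟨true, false, 18, 19, 1⟩],
  [⟨false, false, 0, 1, 10⟩, ⟨true, true, 11, 11, 4⟩, ⟨false, true, 14, 15, 3⟩, ⟨true, false, 15, 16, 3⟩, ⟨false, false, 17, 19, 2⟩, ⟨true, true, 20, 21, 2⟩, ⟨false, true, 22, 24, 2⟩, ⟨true, false, 23, 25, 1⟩, ⟨false, false, 24, 27, 1⟩, ⟨true, true, 27, 29, 1⟩, ⟨false, true, 28, 31, 1⟩, ⟨true, false, 28, 31, 1⟩, ⟨false, false, 29, 33, 1⟩, ⟨true, true, 31, 34, 1⟩, ⟨false, true, 32, 36, 1⟩],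
  [⟨true, true, 1, 1, 9⟩, ⟨false, true, 10, 11, 4⟩, ⟨true, false, 11, 12, 3⟩, ⟨false, false, 14, 16, 3⟩, ⟨true, true, 18, 19, 2⟩, ⟨false, true, 20, 22, 1⟩, ⟨true, false, 20, 22, 2⟩, ⟨false, false, 22, 25, 1⟩, ⟨true, true, 25, 27, 1⟩, ⟨false, true, 26, 29, 1⟩, ⟨true, false, 26, 29, 2⟩, ⟨false, false, 27, 31, 1⟩, ⟨true, true, 30, 33, 1⟩, ⟨true, false, 31, 35, 1⟩, ⟨false, false, 32, 37, 1⟩, ⟨true, true, 34, 38, 1⟩]⟩ = true := by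
  decide +kernel

theorem c29 : chk ⟨313, 15, 29, 32, 7,
  [⟨false, true, 1, 0, 10⟩, ⟨true, false, 1, 0, 11⟩, ⟨false, false, 11, 11, 3⟩],
  [⟨false, false, 1, 1, 10⟩, ⟨true, true, 11, 10, 4⟩, ⟨false, true, 15, 15, 3⟩, ⟨true, false, 16, 16, 3⟩, ⟨false, false, 18, 19, 2⟩, ⟨true, true, 21, 21, 2⟩, ⟨false, true, 23, 24, 2⟩, ⟨true, false, 24, 25, 1⟩, ⟨false, false, 25, 27, 2⟩],
  [⟨true, true, 1, 0, 10⟩, ⟨false, true, 11, 11, 2⟩, ⟨true, false, 11, 11, 2⟩],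
  [⟨false, true, 0, 0, 10⟩, ⟨true, false, 1, 1, 10⟩, ⟨false, false, 10, 11, 1⟩],
  [⟨false, false, 0, 1, 10⟩, ⟨true, true, 11, 11, 4⟩, ⟨false, true, 14, 15, 3⟩, ⟨true, false, 15, 16, 3⟩, ⟨false, false, 18, 20, 2⟩, ⟨true, true, 21, 22, 2⟩, ⟨false, true, 23, 25, 1⟩, ⟨true, false, 23, 25, 2⟩, ⟨false, false, 25, 28, 1⟩, ⟨true, true, 27, 29, 1⟩, ⟨false, true, 28, 31, 1⟩, ⟨true, false, 29, 32, 1⟩],
  [⟨true, true, 1, 1, 10⟩, ⟨false, true, 10, 11, 4⟩, ⟨true, false, 11, 12, 4⟩, ⟨false, false, 14, 16, 3⟩]⟩ = true := by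
  decide +kernel

theorem c30 : chk ⟨328, 16, 30, 33, 8,
  [⟨false, true, 1, 0, 10⟩, ⟨true, false, 1, 0, 11⟩, ⟨false, false, 11, 11, 4⟩, ⟨true, true, 16, 15, 3⟩, ⟨false, true, 19, 19, 1⟩, ⟨true, false, 19, 19, 1⟩],
  [⟨false, false, 1, 1, 10⟩, ⟨true, true, 12, 11, 4⟩, ⟨false, true, 15, 15, 3⟩, ⟨true, false, 16, 16, 3⟩, ⟨false, false, 19, 20, 2⟩, ⟨true, true, 22, 22, 2⟩, ⟨false, true, 24, 25, 1⟩, ⟨true, false, 24, 25, 2⟩],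
  [⟨true, true, 1, 0, 10⟩, ⟨false, true, 11, 11, 4⟩, ⟨true, false, 12, 12, 4⟩, ⟨false, false, 15, 16, 3⟩, ⟨true, true, 19, 19, 1⟩],
  [⟨false, true, 0, 0, 11⟩, ⟨true, false, 1, 1, 10⟩, ⟨false, false, 11, 12, 4⟩, ⟨true, true, 16, 16, 2⟩],
  [⟨false, false, 0, 1, 10⟩, ⟨true, true, 11, 11, 4⟩, ⟨false, true, 15, 16, 3⟩, ⟨true, false, 15, 16, 3⟩, ⟨false, false, 18, 20, 2⟩, ⟨true, true, 21, 22, 2⟩, ⟨false, true, 23, 25, 2⟩, ⟨true, false, 24, 26, 1⟩, ⟨false, false, 25, 28, 2⟩, ⟨true, true, 28, 30, 1⟩, ⟨false, true, 29, 32, 1⟩, ⟨true, false, 30, 33, 1⟩],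
  [⟨true, true, 1, 1, 10⟩, ⟨false, true, 10, 11, 4⟩, ⟨true, false, 11, 12, 4⟩, ⟨false, false, 15, 17, 3⟩, ⟨true, true, 19, 20, 2⟩, ⟨false, true, 21, 23, 1⟩, ⟨true, false, 21, 23, 1⟩]⟩ = true := by
  decide +kernel

theorem c31 : chk ⟨344, 8, 31, 33, 8,
  [⟨false, true, 1, 0, 10⟩, ⟨true, false, 1, 0, 11⟩, ⟨false, false, 11, 11, 1⟩],
  [⟨false, false, 1, 1, 10⟩, ⟨true, true, 12, 11, 4⟩, ⟨false, true, 15, 15, 4⟩, ⟨true, false, 16, 16, 3⟩, ⟨false, false, 19, 20, 2⟩, ⟨true, true, 22, 22, 2⟩, ⟨false, true, 24, 25, 2⟩, ⟨true, false, 25, 26, 2⟩, ⟨false, false, 26, 28, 2⟩, ⟨true, true, 29, 30, 1⟩, ⟨false, true, 30, 32, 1⟩, ⟨true, false, 30, 32, 2⟩],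
  [⟨true, true, 1, 0, 11⟩, ⟨false, true, 11, 11, 2⟩, ⟨true, false, 12, 12, 2⟩],
  [⟨false, true, 0, 0, 11⟩, ⟨true, false, 1, 1, 11⟩],
  [⟨false, false, 0, 1, 11⟩, ⟨true, true, 11, 11, 5⟩, ⟨false, true, 15, 16, 3⟩, ⟨true, false, 16, 17, 3⟩, ⟨false, false, 18, 20, 3⟩, ⟨true, true, 22, 23, 2⟩, ⟨false, true, 23, 25, 1⟩, ⟨true, false, 24, 26, 1⟩],
  [⟨true, true, 1, 1, 10⟩, ⟨false, true, 10, 11, 5⟩, ⟨true, false, 11, 12, 4⟩, ⟨false, false, 15, 17, 3⟩, ⟨true, true, 19, 20, 1⟩]⟩ = true := by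
  decide +kernel

theorem c32 : chk ⟨352, 17, 24, 26, 8,
  [⟨false, true, 1, 0, 10⟩, ⟨true, false, 1, 0, 11⟩, ⟨false, false, 12, 12, 4⟩, ⟨true, true, 17, 16, 3⟩, ⟨false, true, 19, 19, 3⟩, ⟨true, false, 20, 20, 3⟩],
  [⟨false, false, 1, 1, 10⟩, ⟨true, true, 12, 11, 4⟩, ⟨false, true, 16, 16, 3⟩, ⟨true, false, 17, 17, 3⟩, ⟨false, false, 19, 20, 3⟩, ⟨true, true, 23, 23, 2⟩],
  [⟨true, true, 1, 0, 11⟩, ⟨false, true, 11, 11, 4⟩, ⟨true, false, 12, 12, 4⟩, ⟨false, false, 16, 17, 3⟩, ⟨true, true, 20, 20, 2⟩, ⟨false, true, 22, 23, 2⟩, ⟨true, false, 23, 24, 2⟩, ⟨false, false, 24, 26, 1⟩],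
  [⟨false, true, 0, 0, 11⟩, ⟨true, false, 1, 1, 11⟩, ⟨false, false, 11, 12, 3⟩],
  [⟨false, false, 0, 1, 11⟩, ⟨true, true, 12, 12, 4⟩, ⟨false, true, 15, 16, 3⟩, ⟨true, false, 16, 17, 3⟩, ⟨false, false, 19, 21, 1⟩],
  [⟨true, true, 1, 1, 10⟩, ⟨false, true, 11, 12, 4⟩, ⟨true, false, 11, 12, 5⟩, ⟨false, false, 15, 17, 3⟩, ⟨true, true, 19, 20, 3⟩, ⟨false, true, 21, 23, 2⟩, ⟨true, false, 22, 24, 2⟩]⟩ = true := by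
  decide +kernel

theorem c33 : chk ⟨369, 18, 33, 36, 8,
  [⟨false, true, 1, 0, 11⟩, ⟨true, false, 1, 0, 11⟩, ⟨false, false, 12, 12, 4⟩],
  [⟨false, false, 1, 1, 11⟩, ⟨true, true, 12, 11, 5⟩, ⟨false, true, 16, 16, 3⟩, ⟨true, false, 17, 17, 3⟩, ⟨false, false, 20, 21, 1⟩],
  [⟨true, true, 1, 0, 11⟩, ⟨false, true, 12, 12, 4⟩, ⟨true, false, 12, 12, 5⟩, ⟨false, false, 16, 17, 3⟩, ⟨true, true, 20, 20, 1⟩],
  [⟨false, true, 0, 0, 11⟩, ⟨true, false, 1, 1, 11⟩, ⟨false, false, 11, 12, 2⟩],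
  [⟨false, false, 0, 1, 11⟩, ⟨true, true, 12, 12, 4⟩, ⟨false, true, 16, 17, 3⟩, ⟨true, false, 16, 17, 4⟩, ⟨false, false, 19, 21, 3⟩, ⟨true, true, 23, 24, 2⟩],
  [⟨true, true, 1, 1, 11⟩, ⟨false, true, 11, 12, 4⟩, ⟨true, false, 12, 13, 4⟩, ⟨false, false, 16, 18, 3⟩, ⟨true, true, 20, 21, 2⟩, ⟨false, true, 22, 24, 2⟩, ⟨true, false, 23, 25, 2⟩, ⟨false, false, 24, 27, 2⟩, ⟨true, true, 27, 29, 2⟩, ⟨false, true, 29, 32, 1⟩, ⟨true, false, 29, 32, 2⟩, ⟨false, false, 31, 35, 1⟩, ⟨true, true, 33, 36, 1⟩]⟩ = true := by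
  decide +kernel

theorem c34 : chk ⟨387, 19, 42, 46, 8,
  [⟨false, true, 1, 0, 10⟩, ⟨true, false, 1, 0, 10⟩],
  [⟨false, false, 1, 1, 11⟩, ⟨true, true, 13, 12, 4⟩, ⟨false, true, 17, 17, 3⟩, ⟨true, false, 17, 17, 4⟩, ⟨false, false, 20, 21, 3⟩, ⟨true, true, 24, 24, 2⟩, ⟨false, true, 26, 27, 1⟩, ⟨true, false, 26, 27, 2⟩, ⟨false, false, 28, 30, 2⟩, ⟨true, true, 31, 32, 1⟩, ⟨false, true, 32, 34, 1⟩, ⟨true, false, 33, 35, 1⟩, ⟨false, false, 34, 37, 1⟩, ⟨true, true, 36, 38, 1⟩, ⟨false, true, 37, 40, 1⟩, ⟨true, false, 38, 41, 1⟩, ⟨true, true, 41, 44, 1⟩, ⟨true, false, 42, 46, 1⟩],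
  [⟨true, true, 1, 0, 11⟩, ⟨false, true, 12, 12, 1⟩, ⟨true, false, 12, 12, 1⟩],
  [⟨false, true, 0, 0, 12⟩, ⟨true, false, 1, 1, 11⟩, ⟨false, false, 12, 13, 2⟩],
  [⟨false, false, 0, 1, 11⟩, ⟨true, true, 12, 12, 5⟩, ⟨false, true, 16, 17, 3⟩, ⟨true, false, 17, 18, 3⟩, ⟨false, false, 20, 22, 2⟩, ⟨true, true, 23, 24, 2⟩, ⟨false, true, 25, 27, 2⟩, ⟨true, false, 26, 28, 2⟩, ⟨false, false, 28, 31, 1⟩, ⟨true, true, 30, 32, 2⟩, ⟨false, true, 32, 35, 1⟩, ⟨true, false, 32, 35, 1⟩],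
  [⟨true, true, 1, 1, 11⟩, ⟨false, true, 11, 12, 5⟩, ⟨true, false, 12, 13, 4⟩, ⟨false, false, 16, 18, 3⟩]⟩ = true := by
  decide +kernel

theorem c35 : chk ⟨406, 20, 39, 42, 9,
  [⟨false, true, 1, 0, 11⟩, ⟨true, false, 1, 0, 12⟩, ⟨false, false, 12, 12, 5⟩, ⟨true, true, 18, 17, 3⟩, ⟨false, true, 21, 21, 2⟩, ⟨true, false, 21, 21, 3⟩, ⟨false, false, 24, 25, 2⟩, ⟨true, true, 27, 27, 2⟩, ⟨false, true, 29, 30, 1⟩, ⟨true, false, 30, 31, 1⟩, ⟨false, false, 31, 33, 1⟩],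
  [⟨false, false, 1, 1, 11⟩, ⟨true, true, 13, 12, 4⟩, ⟨false, true, 17, 17, 3⟩, ⟨true, false, 18, 18, 3⟩, ⟨false, false, 21, 22, 2⟩, ⟨true, true, 24, 24, 3⟩, ⟨false, true, 26, 27, 2⟩, ⟨true, false, 27, 28, 2⟩, ⟨false, false, 29, 31, 1⟩, ⟨true, true, 32, 33, 1⟩, ⟨false, true, 33, 35, 1⟩, ⟨true, false, 34, 36, 1⟩, ⟨false, false, 35, 38, 1⟩, ⟨true, true, 37, 39, 1⟩, ⟨false, true, 38, 41, 1⟩, ⟨true, false, 39, 42, 1⟩],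
  [⟨true, true, 1, 0, 12⟩, ⟨false, true, 12, 12, 5⟩, ⟨true, false, 13, 13, 4⟩, ⟨false, false, 17, 18, 3⟩, ⟨true, true, 21, 21, 3⟩],
  [⟨false, true, 0, 0, 12⟩, ⟨true, false, 1, 1, 11⟩, ⟨false, false, 12, 13, 4⟩, ⟨true, true, 17, 17, 4⟩, ⟨false, true, 20, 21, 3⟩, ⟨true, false, 21, 22, 3⟩, ⟨false, false, 23, 25, 3⟩, ⟨true, true, 27, 28, 2⟩, ⟨false, true, 28, 30, 2⟩, ⟨true, false, 29, 31, 2⟩],
  [⟨false, false, 0, 1, 12⟩, ⟨true, true, 12, 12, 5⟩, ⟨false, true, 17, 18, 3⟩, ⟨true, false, 17, 18, 3⟩, ⟨false, false, 20, 22, 3⟩, ⟨true, true, 24, 25, 2⟩, ⟨false, true, 26, 28, 2⟩, ⟨true, false, 26, 28, 2⟩, ⟨false, false, 28, 31, 2⟩, ⟨true, true, 31, 33, 1⟩, ⟨false, true, 32, 35, 1⟩, ⟨true, false, 33, 36, 1⟩],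
  [⟨true, true, 1, 1, 11⟩, ⟨false, true, 12, 13, 4⟩, ⟨true, false, 12, 13, 5⟩, ⟨false, false, 16, 18, 4⟩, ⟨true, true, 21, 22, 2⟩, ⟨false, true, 23, 25, 2⟩, ⟨true, false, 24, 26, 2⟩, ⟨false, false, 26, 29, 1⟩]⟩ = true := by
  decide +kernel

theorem c36 : chk ⟨426, 21, 24, 25, 9,
  [⟨false, true, 1, 0, 12⟩, ⟨true, false, 1, 0, 12⟩, ⟨false, false, 13, 13, 4⟩],
  [⟨false, false, 1, 1, 11⟩, ⟨true, true, 13, 12, 5⟩, ⟨false, true, 17, 17, 4⟩, ⟨true, false, 18, 18, 3⟩],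
  [⟨true, true, 1, 0, 12⟩, ⟨false, true, 12, 12, 5⟩, ⟨true, false, 13, 13, 5⟩, ⟨false, false, 17, 18, 4⟩],
  [⟨false, true, 0, 0, 12⟩, ⟨true, false, 1, 1, 12⟩, ⟨false, false, 12, 13, 5⟩, ⟨true, true, 18, 18, 3⟩],
  [⟨false, false, 0, 1, 12⟩, ⟨true, true, 13, 13, 4⟩, ⟨false, true, 17, 18, 3⟩, ⟨true, false, 18, 19, 3⟩, ⟨false, false, 21, 23, 2⟩, ⟨true, true, 24, 25, 1⟩],
  [⟨true, true, 1, 1, 11⟩, ⟨false, true, 12, 13, 5⟩, ⟨true, false, 13, 14, 4⟩, ⟨false, false, 17, 19, 3⟩]⟩ = true := by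
  decide +kernel

theorem c37 : chk ⟨447, 22, 25, 27, 9,
  [⟨false, true, 1, 0, 12⟩, ⟨true, false, 1, 0, 13⟩, ⟨false, false, 13, 13, 1⟩],
  [⟨false, false, 1, 1, 12⟩, ⟨true, true, 14, 13, 4⟩, ⟨false, true, 18, 18, 1⟩, ⟨true, false, 19, 19, 1⟩],
  [⟨true, true, 1, 0, 12⟩, ⟨false, true, 13, 13, 4⟩, ⟨true, false, 13, 13, 5⟩, ⟨false, false, 18, 19, 3⟩, ⟨true, true, 22, 22, 1⟩],
  [⟨false, true, 0, 0, 11⟩, ⟨true, false, 1, 1, 11⟩],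
  [⟨false, false, 0, 1, 12⟩, ⟨true, true, 13, 13, 5⟩, ⟨false, true, 17, 18, 1⟩, ⟨true, false, 18, 19, 1⟩],
  [⟨true, true, 1, 1, 12⟩, ⟨false, true, 12, 13, 5⟩, ⟨true, false, 13, 14, 5⟩, ⟨false, false, 17, 19, 4⟩, ⟨true, true, 22, 23, 2⟩, ⟨false, true, 24, 26, 1⟩, ⟨true, false, 25, 27, 1⟩]⟩ = true := by
  decide +kernel

theorem c38 : chk ⟨469, 23, 40, 42, 9,
  [⟨false, true, 1, 0, 12⟩, ⟨true, false, 1, 0, 13⟩, ⟨false, false, 13, 13, 3⟩],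
  [⟨false, false, 1, 1, 12⟩, ⟨true, true, 14, 13, 5⟩, ⟨false, true, 18, 18, 4⟩, ⟨true, false, 19, 19, 3⟩, ⟨false, false, 22, 23, 3⟩, ⟨true, true, 26, 26, 2⟩, ⟨false, true, 28, 29, 2⟩, ⟨true, false, 29, 30, 2⟩, ⟨false, false, 31, 33, 2⟩, ⟨true, true, 34, 35, 1⟩, ⟨false, true, 35, 37, 2⟩, ⟨true, false, 36, 38, 1⟩, ⟨false, false, 37, 40, 2⟩, ⟨true, true, 40, 42, 1⟩],
  [⟨true, true, 1, 0, 13⟩, ⟨false, true, 13, 13, 5⟩, ⟨true, false, 14, 14, 5⟩],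
  [⟨false, true, 0, 0, 13⟩, ⟨true, false, 1, 1, 12⟩, ⟨false, false, 13, 14, 5⟩, ⟨true, true, 19, 19, 3⟩, ⟨false, true, 22, 23, 2⟩, ⟨true, false, 23, 24, 2⟩],
  [⟨false, false, 0, 1, 13⟩, ⟨true, true, 13, 13, 5⟩, ⟨false, true, 18, 19, 3⟩, ⟨true, false, 18, 19, 4⟩, ⟨false, false, 22, 24, 3⟩, ⟨true, true, 26, 27, 2⟩, ⟨false, true, 28, 30, 2⟩, ⟨true, false, 28, 30, 2⟩, ⟨false, false, 30, 33, 2⟩, ⟨true, true, 33, 35, 2⟩, ⟨false, true, 35, 38, 1⟩, ⟨true, false, 36, 39, 1⟩],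
  [⟨true, true, 1, 1, 12⟩, ⟨false, true, 12, 13, 5⟩, ⟨true, false, 13, 14, 5⟩, ⟨false, false, 18, 20, 3⟩, ⟨true, true, 22, 23, 3⟩, ⟨false, true, 25, 27, 2⟩, ⟨true, false, 25, 27, 2⟩]⟩ = true := by
  decide +kernel

theorem c39 : chk ⟨492, 24, 36, 40, 9,
  [⟨false, true, 1, 0, 12⟩, ⟨true, false, 1, 0, 13⟩, ⟨false, false, 14, 14, 5⟩, ⟨true, true, 20, 19, 3⟩, ⟨false, true, 23, 23, 3⟩, ⟨true, false, 24, 24, 2⟩, ⟨false, false, 26, 27, 3⟩, ⟨true, true, 30, 30, 2⟩, ⟨false, true, 32, 33, 1⟩, ⟨true, false, 32, 33, 1⟩],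
  [⟨false, false, 1, 1, 12⟩, ⟨true, true, 14, 13, 5⟩, ⟨false, true, 19, 19, 3⟩, ⟨true, false, 19, 19, 4⟩, ⟨false, false, 23, 24, 3⟩, ⟨true, true, 27, 27, 2⟩, ⟨false, true, 29, 30, 2⟩, ⟨true, false, 30, 31, 2⟩],
  [⟨true, true, 1, 0, 13⟩, ⟨false, true, 13, 13, 5⟩, ⟨true, false, 14, 14, 5⟩, ⟨false, false, 19, 20, 3⟩, ⟨true, true, 23, 23, 3⟩, ⟨false, true, 26, 27, 2⟩, ⟨true, false, 27, 28, 2⟩, ⟨false, false, 29, 31, 1⟩],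
  [⟨false, true, 0, 0, 13⟩, ⟨true, false, 1, 1, 13⟩, ⟨false, false, 13, 14, 5⟩, ⟨true, true, 19, 19, 4⟩, ⟨false, true, 22, 23, 3⟩, ⟨true, false, 23, 24, 3⟩],
  [⟨false, false, 0, 1, 13⟩, ⟨true, true, 14, 14, 5⟩, ⟨false, true, 18, 19, 4⟩, ⟨true, false, 19, 20, 4⟩, ⟨false, false, 22, 24, 3⟩, ⟨true, true, 26, 27, 3⟩, ⟨false, true, 28, 30, 3⟩, ⟨true, false, 29, 31, 2⟩, ⟨false, false, 31, 34, 2⟩, ⟨true, true, 34, 36, 1⟩],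
  [⟨true, true, 1, 1, 12⟩, ⟨false, true, 13, 14, 5⟩, ⟨true, false, 13, 14, 5⟩, ⟨false, false, 18, 20, 4⟩, ⟨true, true, 23, 24, 3⟩, ⟨false, true, 25, 27, 3⟩, ⟨true, false, 26, 28, 2⟩, ⟨false, false, 28, 31, 2⟩, ⟨true, true, 32, 34, 1⟩, ⟨false, true, 33, 36, 2⟩, ⟨true, false, 34, 37, 2⟩, ⟨false, false, 36, 40, 1⟩]⟩ = true := by
  decide +kernel

theorem c40 : chk ⟨516, 12, 37, 39, 9,
  [⟨false, true, 1, 0, 13⟩, ⟨true, false, 1, 0, 13⟩],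
  [⟨false, false, 1, 1, 13⟩, ⟨true, true, 14, 13, 6⟩, ⟨false, true, 19, 19, 4⟩, ⟨true, false, 20, 20, 4⟩, ⟨false, false, 23, 24, 3⟩, ⟨true, true, 27, 27, 3⟩, ⟨false, true, 29, 30, 3⟩, ⟨true, false, 30, 31, 2⟩, ⟨false, false, 32, 34, 2⟩, ⟨true, true, 35, 36, 2⟩, ⟨false, true, 37, 39, 1⟩, ⟨true, false, 37, 39, 1⟩],
  [⟨true, true, 1, 0, 13⟩, ⟨false, true, 13, 13, 6⟩, ⟨true, false, 14, 14, 5⟩, ⟨false, false, 19, 20, 4⟩, ⟨true, true, 23, 23, 4⟩, ⟨false, true, 26, 27, 3⟩, ⟨true, false, 27, 28, 3⟩, ⟨false, false, 29, 31, 3⟩, ⟨true, true, 33, 34, 2⟩, ⟨false, true, 34, 36, 2⟩, ⟨true, false, 35, 37, 2⟩],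
  [⟨false, true, 0, 0, 13⟩, ⟨true, false, 1, 1, 13⟩, ⟨false, false, 13, 14, 6⟩, ⟨true, true, 19, 19, 4⟩, ⟨false, true, 23, 24, 1⟩, ⟨true, false, 23, 24, 1⟩],
  [⟨false, false, 0, 1, 13⟩, ⟨true, true, 14, 14, 5⟩, ⟨false, true, 18, 19, 4⟩, ⟨true, false, 19, 20, 4⟩, ⟨false, false, 22, 24, 4⟩, ⟨true, true, 27, 28, 1⟩],
  [⟨true, true, 1, 1, 13⟩, ⟨false, true, 13, 14, 5⟩, ⟨true, false, 14, 15, 5⟩, ⟨false, false, 18, 20, 4⟩, ⟨true, true, 23, 24, 3⟩, ⟨false, true, 26, 28, 2⟩, ⟨true, false, 26, 28, 2⟩]⟩ = true := by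
  decide +kernel

theorem c41 : chk ⟨528, 26, 47, 52, 10,
  [⟨false, true, 1, 0, 13⟩, ⟨true, false, 1, 0, 14⟩, ⟨false, false, 14, 14, 5⟩, ⟨true, true, 20, 19, 4⟩, ⟨false, true, 24, 24, 1⟩, ⟨true, false, 24, 24, 1⟩],
  [⟨false, false, 1, 1, 13⟩, ⟨true, true, 15, 14, 5⟩, ⟨false, true, 19, 19, 4⟩, ⟨true, false, 20, 20, 4⟩, ⟨false, false, 24, 25, 3⟩, ⟨true, true, 28, 28, 2⟩, ⟨false, true, 30, 31, 1⟩, ⟨true, false, 31, 32, 1⟩],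
  [⟨true, true, 1, 0, 13⟩, ⟨false, true, 14, 14, 5⟩, ⟨true, false, 14, 14, 6⟩, ⟨false, false, 19, 20, 4⟩, ⟨true, true, 24, 24, 3⟩, ⟨false, true, 27, 28, 2⟩, ⟨true, false, 28, 29, 2⟩, ⟨false, false, 30, 32, 1⟩],
  [⟨false, true, 0, 0, 13⟩, ⟨true, false, 1, 1, 13⟩, ⟨false, false, 14, 15, 5⟩, ⟨true, true, 20, 20, 3⟩, ⟨false, true, 23, 24, 3⟩, ⟨true, false, 24, 25, 3⟩, ⟨false, false, 27, 29, 2⟩, ⟨true, true, 30, 31, 3⟩, ⟨false, true, 32, 34, 2⟩, ⟨true, false, 33, 35, 2⟩],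
  [⟨false, false, 0, 1, 13⟩, ⟨true, true, 14, 14, 5⟩, ⟨false, true, 19, 20, 2⟩, ⟨true, false, 20, 21, 2⟩],
  [⟨true, true, 1, 1, 13⟩, ⟨false, true, 13, 14, 5⟩, ⟨true, false, 14, 15, 5⟩, ⟨false, false, 19, 21, 3⟩, ⟨true, true, 24, 25, 3⟩, ⟨false, true, 26, 28, 3⟩, ⟨true, false, 27, 29, 3⟩, ⟨false, false, 29, 32, 3⟩, ⟨true, true, 33, 35, 2⟩, ⟨false, true, 35, 38, 1⟩, ⟨true, false, 35, 38, 2⟩, ⟨false, false, 37, 41, 1⟩, ⟨true, true, 40, 43, 1⟩, ⟨false, true, 41, 45, 1⟩, ⟨true, false, 42, 46, 1⟩, ⟨false, false, 43, 48, 1⟩, ⟨true, false, 47, 52, 1⟩]⟩ = true := by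
  decide +kernel

theorem c42 : chk ⟨554, 27, 31, 33, 10,
  [⟨false, true, 1, 0, 13⟩, ⟨true, false, 1, 0, 13⟩],
  [⟨false, false, 1, 1, 13⟩, ⟨true, true, 15, 14, 5⟩, ⟨false, true, 20, 20, 4⟩, ⟨true, false, 21, 21, 3⟩, ⟨false, false, 24, 25, 3⟩],
  [⟨true, true, 1, 0, 14⟩, ⟨false, true, 14, 14, 5⟩, ⟨true, false, 15, 15, 5⟩],
  [⟨false, true, 0, 0, 14⟩, ⟨true, false, 1, 1, 13⟩, ⟨false, false, 14, 15, 5⟩, ⟨true, true, 20, 20, 4⟩, ⟨false, true, 24, 25, 3⟩, ⟨true, false, 24, 25, 4⟩, ⟨false, false, 27, 29, 3⟩],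
  [⟨false, false, 0, 1, 14⟩, ⟨true, true, 14, 14, 6⟩, ⟨false, true, 19, 20, 4⟩, ⟨true, false, 20, 21, 4⟩, ⟨false, false, 24, 26, 3⟩, ⟨true, true, 28, 29, 2⟩, ⟨false, true, 30, 32, 1⟩, ⟨true, false, 31, 33, 1⟩],
  [⟨true, true, 1, 1, 13⟩, ⟨false, true, 14, 15, 5⟩, ⟨true, false, 14, 15, 6⟩, ⟨false, false, 19, 21, 4⟩, ⟨true, true, 24, 25, 2⟩]⟩ = true := by
  decide +kernel

theorem c43 : chk ⟨581, 29, 31, 34, 10,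
  [⟨false, true, 1, 0, 11⟩, ⟨true, false, 1, 0, 11⟩],
  [⟨false, false, 1, 1, 13⟩, ⟨true, true, 15, 14, 6⟩, ⟨false, true, 20, 20, 4⟩, ⟨true, false, 21, 21, 4⟩],
  [⟨true, true, 1, 0, 14⟩, ⟨false, true, 14, 14, 6⟩, ⟨true, false, 15, 15, 6⟩, ⟨false, false, 20, 21, 4⟩, ⟨true, true, 25, 25, 1⟩],
  [⟨false, true, 0, 0, 10⟩, ⟨true, false, 1, 1, 10⟩],
  [⟨false, false, 0, 1, 14⟩, ⟨true, true, 15, 15, 5⟩],
  [⟨true, true, 1, 1, 13⟩, ⟨false, true, 14, 15, 5⟩, ⟨true, false, 15, 16, 5⟩, ⟨false, false, 20, 22, 4⟩, ⟨true, true, 25, 26, 3⟩, ⟨false, true, 28, 30, 2⟩, ⟨true, false, 28, 30, 3⟩, ⟨false, false, 31, 34, 1⟩]⟩ = true := by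
  decide +kernel

theorem c44 : chk ⟨610, 30, 36, 39, 10,
  [⟨false, true, 1, 0, 13⟩, ⟨true, false, 1, 0, 13⟩],
  [⟨false, false, 1, 1, 14⟩, ⟨true, true, 16, 15, 5⟩, ⟨false, true, 21, 21, 4⟩, ⟨true, false, 21, 21, 5⟩, ⟨false, false, 25, 26, 4⟩, ⟨true, true, 30, 30, 2⟩, ⟨false, true, 32, 33, 3⟩, ⟨true, false, 33, 34, 2⟩, ⟨false, false, 35, 37, 2⟩],
  [⟨true, true, 1, 0, 14⟩, ⟨false, true, 15, 15, 4⟩, ⟨true, false, 15, 15, 4⟩],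
  [⟨false, true, 0, 0, 14⟩, ⟨true, false, 1, 1, 14⟩, ⟨false, false, 15, 16, 5⟩, ⟨true, true, 21, 21, 4⟩, ⟨false, true, 25, 26, 3⟩, ⟨true, false, 26, 27, 3⟩, ⟨false, false, 29, 31, 2⟩, ⟨true, true, 33, 34, 2⟩, ⟨false, true, 35, 37, 1⟩, ⟨true, false, 36, 38, 1⟩],
  [⟨false, false, 0, 1, 14⟩, ⟨true, true, 15, 15, 6⟩, ⟨false, true, 20, 21, 4⟩, ⟨true, false, 21, 22, 4⟩, ⟨false, false, 25, 27, 3⟩, ⟨true, true, 29, 30, 3⟩, ⟨false, true, 32, 34, 2⟩, ⟨true, false, 32, 34, 3⟩, ⟨false, false, 35, 38, 2⟩],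
  [⟨true, true, 1, 1, 14⟩, ⟨false, true, 14, 15, 6⟩, ⟨true, false, 15, 16, 5⟩, ⟨false, false, 20, 22, 4⟩, ⟨true, true, 25, 26, 4⟩, ⟨false, true, 28, 30, 3⟩, ⟨true, false, 29, 31, 3⟩]⟩ = true := by
  decide +kernel

theorem c45 : chk ⟨640, 32, 44, 47, 11,
  [⟨false, true, 1, 0, 14⟩, ⟨true, false, 1, 0, 14⟩],
  [⟨false, false, 1, 1, 14⟩, ⟨true, true, 16, 15, 6⟩, ⟨false, true, 21, 21, 4⟩, ⟨true, false, 22, 22, 4⟩, ⟨false, false, 26, 27, 3⟩, ⟨true, true, 30, 30, 3⟩, ⟨false, true, 33, 34, 2⟩, ⟨true, false, 34, 35, 2⟩, ⟨false, false, 36, 38, 2⟩, ⟨true, true, 40, 41, 1⟩, ⟨false, true, 42, 44, 1⟩, ⟨true, false, 42, 44, 2⟩, ⟨false, false, 44, 47, 1⟩],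
  [⟨true, true, 1, 0, 15⟩, ⟨false, true, 15, 15, 6⟩, ⟨true, false, 16, 16, 5⟩, ⟨false, false, 21, 22, 4⟩, ⟨true, true, 26, 26, 2⟩],
  [⟨false, true, 0, 0, 14⟩, ⟨true, false, 1, 1, 14⟩],
  [⟨false, false, 0, 1, 15⟩, ⟨true, true, 15, 15, 6⟩, ⟨false, true, 21, 22, 4⟩, ⟨true, false, 21, 22, 5⟩, ⟨false, false, 25, 27, 1⟩],
  [⟨true, true, 1, 1, 14⟩, ⟨false, true, 15, 16, 5⟩, ⟨true, false, 15, 16, 6⟩, ⟨false, false, 21, 23, 4⟩, ⟨true, true, 26, 27, 3⟩, ⟨false, true, 29, 31, 3⟩, ⟨true, false, 30, 32, 2⟩, ⟨false, false, 32, 35, 1⟩]⟩ = true := by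
  decide +kernel

theorem c46 : chk ⟨672, 33, 48, 50, 11,
  [⟨false, true, 1, 0, 15⟩, ⟨true, false, 1, 0, 15⟩, ⟨false, false, 16, 16, 4⟩],
  [⟨false, false, 1, 1, 14⟩, ⟨true, true, 16, 15, 6⟩, ⟨false, true, 22, 22, 4⟩, ⟨true, false, 23, 23, 4⟩, ⟨false, false, 27, 28, 3⟩, ⟨true, true, 31, 31, 3⟩, ⟨false, true, 34, 35, 2⟩, ⟨true, false, 35, 36, 2⟩, ⟨false, false, 37, 39, 2⟩, ⟨true, true, 41, 42, 1⟩, ⟨false, true, 43, 45, 1⟩, ⟨true, false, 43, 45, 2⟩, ⟨false, false, 45, 48, 1⟩, ⟨true, true, 48, 50, 1⟩],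
  [⟨true, true, 1, 0, 15⟩, ⟨false, true, 15, 15, 6⟩, ⟨true, false, 16, 16, 6⟩, ⟨false, false, 22, 23, 2⟩],
  [⟨false, true, 0, 0, 15⟩, ⟨true, false, 1, 1, 15⟩, ⟨false, false, 15, 16, 6⟩, ⟨true, true, 22, 22, 4⟩, ⟨false, true, 26, 27, 1⟩, ⟨true, false, 27, 28, 1⟩],
  [⟨false, false, 0, 1, 15⟩, ⟨true, true, 16, 16, 6⟩, ⟨false, true, 21, 22, 5⟩, ⟨true, false, 22, 23, 4⟩, ⟨false, false, 26, 28, 3⟩, ⟨true, true, 31, 32, 2⟩, ⟨false, true, 33, 35, 2⟩, ⟨true, false, 34, 36, 2⟩],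
  [⟨true, true, 1, 1, 14⟩, ⟨false, true, 15, 16, 6⟩, ⟨true, false, 16, 17, 5⟩, ⟨false, false, 21, 23, 4⟩, ⟨true, true, 27, 28, 3⟩, ⟨false, true, 30, 32, 3⟩, ⟨true, false, 30, 32, 3⟩, ⟨false, false, 33, 36, 3⟩, ⟨true, true, 37, 39, 2⟩, ⟨false, true, 39, 42, 2⟩, ⟨true, false, 40, 43, 2⟩]⟩ = true := by
  decide +kernel

theorem c47 : chk ⟨705, 35, 33, 33, 11,
  [⟨false, true, 1, 0, 15⟩, ⟨true, false, 1, 0, 15⟩],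
  [⟨false, false, 1, 1, 15⟩, ⟨true, true, 17, 16, 6⟩, ⟨false, true, 22, 22, 5⟩, ⟨true, false, 23, 23, 4⟩, ⟨false, false, 27, 28, 4⟩, ⟨true, true, 32, 32, 2⟩],
  [⟨true, true, 1, 0, 15⟩, ⟨false, true, 16, 16, 6⟩, ⟨true, false, 17, 17, 6⟩, ⟨false, false, 22, 23, 5⟩, ⟨true, true, 28, 28, 3⟩],
  [⟨false, true, 0, 0, 15⟩, ⟨true, false, 1, 1, 15⟩, ⟨false, false, 16, 17, 6⟩, ⟨true, true, 23, 23, 4⟩, ⟨false, true, 27, 28, 2⟩, ⟨true, false, 28, 29, 2⟩],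
  [⟨false, false, 0, 1, 15⟩, ⟨true, true, 16, 16, 6⟩, ⟨false, true, 22, 23, 4⟩, ⟨true, false, 23, 24, 4⟩, ⟨false, false, 27, 29, 3⟩, ⟨true, true, 31, 32, 1⟩],
  [⟨true, true, 1, 1, 15⟩, ⟨false, true, 15, 16, 5⟩, ⟨true, false, 16, 17, 5⟩]⟩ = true := by
  decide +kernel

theorem c48 : chk ⟨740, 37, 37, 39, 11,
  [⟨false, true, 1, 0, 15⟩, ⟨true, false, 1, 0, 16⟩, ⟨false, false, 17, 17, 6⟩, ⟨true, true, 24, 23, 4⟩, ⟨false, true, 28, 28, 4⟩, ⟨true, false, 29, 29, 3⟩],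
  [⟨false, false, 1, 1, 15⟩, ⟨true, true, 17, 16, 6⟩, ⟨false, true, 23, 23, 4⟩, ⟨true, false, 24, 24, 4⟩, ⟨false, false, 28, 29, 3⟩, ⟨true, true, 33, 33, 3⟩],
  [⟨true, true, 1, 0, 16⟩, ⟨false, true, 16, 16, 6⟩, ⟨true, false, 17, 17, 6⟩, ⟨false, false, 23, 24, 4⟩, ⟨true, true, 28, 28, 4⟩, ⟨false, true, 32, 33, 2⟩, ⟨true, false, 33, 34, 2⟩],
  [⟨false, true, 0, 0, 14⟩, ⟨true, false, 1, 1, 14⟩],
  [⟨false, false, 0, 1, 16⟩, ⟨true, true, 17, 17, 6⟩, ⟨false, true, 22, 23, 5⟩, ⟨true, false, 23, 24, 5⟩, ⟨false, false, 27, 29, 4⟩, ⟨true, true, 32, 33, 3⟩, ⟨false, true, 35, 37, 2⟩, ⟨true, false, 36, 38, 2⟩],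
  [⟨true, true, 1, 1, 15⟩, ⟨false, true, 16, 17, 6⟩, ⟨true, false, 16, 17, 7⟩, ⟨false, false, 22, 24, 5⟩, ⟨true, true, 28, 29, 3⟩, ⟨false, true, 31, 33, 1⟩, ⟨true, false, 32, 34, 1⟩]⟩ = true := by
  decide +kernel

theorem c49 : chk ⟨777, 38, 48, 52, 12,
  [⟨false, true, 1, 0, 16⟩, ⟨true, false, 1, 0, 16⟩, ⟨false, false, 17, 17, 6⟩, ⟨true, true, 24, 23, 5⟩, ⟨false, true, 29, 29, 1⟩, ⟨true, false, 29, 29, 1⟩],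
  [⟨false, false, 1, 1, 16⟩, ⟨true, true, 17, 16, 7⟩, ⟨false, true, 23, 23, 5⟩, ⟨true, false, 24, 24, 5⟩, ⟨false, false, 29, 30, 3⟩],
  [⟨true, true, 1, 0, 16⟩, ⟨false, true, 17, 17, 6⟩, ⟨true, false, 17, 17, 7⟩, ⟨false, false, 23, 24, 5⟩, ⟨true, true, 29, 29, 4⟩, ⟨false, true, 33, 34, 3⟩, ⟨true, false, 33, 34, 3⟩, ⟨false, false, 36, 38, 3⟩, ⟨true, true, 40, 41, 3⟩, ⟨false, true, 43, 45, 1⟩, ⟨true, false, 43, 45, 1⟩],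
  [⟨false, true, 0, 0, 16⟩, ⟨true, false, 1, 1, 16⟩, ⟨false, false, 16, 17, 7⟩, ⟨true, true, 24, 24, 4⟩, ⟨false, true, 28, 29, 3⟩, ⟨true, false, 29, 30, 3⟩],
  [⟨false, false, 0, 1, 16⟩, ⟨true, true, 17, 17, 6⟩, ⟨false, true, 23, 24, 5⟩, ⟨true, false, 24, 25, 4⟩, ⟨false, false, 28, 30, 4⟩, ⟨true, true, 33, 34, 3⟩, ⟨false, true, 36, 38, 3⟩, ⟨true, false, 37, 39, 2⟩, ⟨false, false, 39, 42, 3⟩, ⟨true, true, 43, 45, 2⟩, ⟨false, true, 45, 48, 2⟩, ⟨true, false, 46, 49, 2⟩, ⟨false, false, 48, 52, 1⟩],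
  [⟨true, true, 1, 1, 16⟩, ⟨false, true, 16, 17, 6⟩, ⟨true, false, 17, 18, 6⟩, ⟨false, false, 23, 25, 4⟩, ⟨true, true, 29, 30, 3⟩, ⟨false, true, 32, 34, 1⟩, ⟨true, false, 33, 35, 1⟩]⟩ = true := by
  decide +kernel

theorem c50 : chk ⟨815, 20, 41, 43, 12,
  [⟨false, true, 1, 0, 16⟩, ⟨true, false, 1, 0, 16⟩],
  [⟨false, false, 1, 1, 16⟩, ⟨true, true, 18, 17, 6⟩, ⟨false, true, 24, 24, 5⟩, ⟨true, false, 24, 24, 5⟩, ⟨false, false, 29, 30, 4⟩, ⟨true, true, 34, 34, 3⟩, ⟨false, true, 37, 38, 3⟩, ⟨true, false, 38, 39, 3⟩, ⟨false, false, 40, 42, 2⟩],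
  [⟨true, true, 1, 0, 16⟩, ⟨false, true, 17, 17, 6⟩, ⟨true, false, 18, 18, 6⟩, ⟨false, false, 24, 25, 5⟩, ⟨true, true, 29, 29, 3⟩],
  [⟨false, true, 0, 0, 15⟩, ⟨true, false, 1, 1, 15⟩],
  [⟨false, false, 0, 1, 16⟩, ⟨true, true, 17, 17, 7⟩, ⟨false, true, 23, 24, 1⟩, ⟨true, false, 24, 25, 1⟩],
  [⟨true, true, 1, 1, 16⟩, ⟨false, true, 16, 17, 7⟩, ⟨true, false, 17, 18, 7⟩, ⟨false, false, 23, 25, 5⟩, ⟨true, true, 29, 30, 1⟩]⟩ = true := by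
  decide +kernel

theorem c51 : chk ⟨835, 41, 50, 53, 12,
  [⟨false, true, 1, 0, 16⟩, ⟨true, false, 1, 0, 17⟩, ⟨false, false, 18, 18, 2⟩],
  [⟨false, false, 1, 1, 16⟩, ⟨true, true, 18, 17, 7⟩, ⟨false, true, 24, 24, 5⟩, ⟨true, false, 25, 25, 5⟩, ⟨false, false, 30, 31, 3⟩, ⟨true, true, 35, 35, 3⟩, ⟨false, true, 38, 39, 3⟩, ⟨true, false, 39, 40, 2⟩, ⟨false, false, 41, 43, 3⟩],
  [⟨true, true, 1, 0, 17⟩, ⟨false, true, 17, 17, 7⟩, ⟨true, false, 18, 18, 6⟩, ⟨false, false, 24, 25, 5⟩, ⟨true, true, 30, 30, 4⟩, ⟨false, true, 34, 35, 1⟩, ⟨true, false, 35, 36, 1⟩],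
  [⟨false, true, 0, 0, 17⟩, ⟨true, false, 1, 1, 17⟩, ⟨false, false, 17, 18, 7⟩, ⟨true, true, 25, 25, 1⟩],
  [⟨false, false, 0, 1, 17⟩, ⟨true, true, 18, 18, 6⟩, ⟨false, true, 24, 25, 5⟩, ⟨true, false, 24, 25, 5⟩, ⟨false, false, 29, 31, 4⟩, ⟨true, true, 34, 35, 3⟩, ⟨false, true, 37, 39, 3⟩, ⟨true, false, 38, 40, 3⟩, ⟨false, false, 41, 44, 2⟩, ⟨true, true, 45, 47, 2⟩, ⟨false, true, 47, 50, 2⟩, ⟨true, false, 48, 51, 1⟩],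
  [⟨true, true, 1, 1, 16⟩, ⟨false, true, 17, 18, 6⟩, ⟨true, false, 17, 18, 7⟩, ⟨false, false, 24, 26, 4⟩, ⟨true, true, 30, 31, 3⟩, ⟨false, true, 33, 35, 3⟩, ⟨true, false, 34, 36, 3⟩, ⟨false, false, 37, 40, 3⟩, ⟨true, true, 41, 43, 3⟩, ⟨false, true, 44, 47, 2⟩, ⟨true, false, 45, 48, 2⟩, ⟨false, false, 47, 51, 2⟩, ⟨true, true, 50, 53, 1⟩]⟩ = true := by
  decide +kernel

theorem c52 : chk ⟨876, 21, 48, 51, 12,
  [⟨false, true, 1, 0, 17⟩, ⟨true, false, 1, 0, 17⟩, ⟨false, false, 18, 18, 7⟩, ⟨true, true, 25, 24, 6⟩, ⟨false, true, 30, 30, 4⟩, ⟨true, false, 31, 31, 4⟩],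
  [⟨false, false, 1, 1, 17⟩, ⟨true, true, 18, 17, 7⟩, ⟨false, true, 25, 25, 5⟩, ⟨true, false, 25, 25, 5⟩, ⟨false, false, 30, 31, 4⟩],
  [⟨true, true, 1, 0, 17⟩, ⟨false, true, 17, 17, 7⟩, ⟨true, false, 18, 18, 7⟩, ⟨false, false, 24, 25, 1⟩],
  [⟨false, true, 0, 0, 17⟩, ⟨true, false, 1, 1, 17⟩, ⟨false, false, 17, 18, 7⟩, ⟨true, true, 25, 25, 5⟩, ⟨false, true, 30, 31, 1⟩, ⟨true, false, 30, 31, 1⟩],
  [⟨false, false, 0, 1, 17⟩, ⟨true, true, 18, 18, 7⟩, ⟨false, true, 24, 25, 5⟩, ⟨true, false, 25, 26, 5⟩, ⟨false, false, 29, 31, 5⟩, ⟨true, true, 35, 36, 3⟩, ⟨false, true, 38, 40, 3⟩, ⟨true, false, 39, 41, 3⟩, ⟨false, false, 41, 44, 3⟩, ⟨true, true, 45, 47, 3⟩, ⟨false, true, 48, 51, 1⟩, ⟨true, false, 48, 51, 1⟩],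
  [⟨true, true, 1, 1, 17⟩, ⟨false, true, 17, 18, 3⟩, ⟨true, false, 18, 19, 3⟩]⟩ = true := by
  decide +kernel

theorem c53 : chk ⟨897, 44, 62, 66, 13,
  [⟨false, true, 1, 0, 17⟩, ⟨true, false, 1, 0, 18⟩, ⟨false, false, 18, 18, 7⟩, ⟨true, true, 26, 25, 2⟩],
  [⟨false, false, 1, 1, 17⟩, ⟨true, true, 19, 18, 6⟩, ⟨false, true, 25, 25, 5⟩, ⟨true, false, 26, 26, 5⟩, ⟨false, false, 31, 32, 3⟩],
  [⟨true, true, 1, 0, 17⟩, ⟨false, true, 18, 18, 7⟩, ⟨true, false, 19, 19, 6⟩, ⟨false, false, 25, 26, 5⟩, ⟨true, true, 31, 31, 4⟩, ⟨false, true, 35, 36, 3⟩, ⟨true, false, 36, 37, 3⟩],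
  [⟨false, true, 0, 0, 17⟩, ⟨true, false, 1, 1, 17⟩, ⟨false, false, 18, 19, 5⟩],
  [⟨false, false, 0, 1, 17⟩, ⟨true, true, 18, 18, 7⟩, ⟨false, true, 25, 26, 5⟩, ⟨true, false, 25, 26, 5⟩, ⟨false, false, 30, 32, 4⟩, ⟨true, true, 35, 36, 4⟩, ⟨false, true, 39, 41, 3⟩, ⟨true, false, 39, 41, 3⟩, ⟨false, false, 42, 45, 3⟩, ⟨true, true, 46, 48, 2⟩, ⟨false, true, 49, 52, 2⟩, ⟨true, false, 49, 52, 2⟩, ⟨false, false, 52, 56, 1⟩, ⟨true, true, 55, 58, 1⟩, ⟨false, true, 57, 61, 1⟩, ⟨true, false, 58, 62, 1⟩, ⟨false, false, 59, 64, 1⟩, ⟨true, true, 62, 66, 1⟩],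
  [⟨true, true, 1, 1, 17⟩, ⟨false, true, 17, 18, 7⟩, ⟨true, false, 18, 19, 7⟩, ⟨false, false, 25, 27, 4⟩, ⟨true, true, 31, 32, 4⟩, ⟨false, true, 35, 37, 3⟩, ⟨true, false, 35, 37, 3⟩]⟩ = true := by
  decide +kernel

theorem c54 : chk ⟨941, 47, 66, 70, 13,
  [⟨false, true, 1, 0, 17⟩, ⟨true, false, 1, 0, 18⟩, ⟨false, false, 19, 19, 6⟩],
  [⟨false, false, 1, 1, 17⟩, ⟨true, true, 19, 18, 7⟩, ⟨false, true, 26, 26, 5⟩, ⟨true, false, 26, 26, 6⟩, ⟨false, false, 31, 32, 4⟩, ⟨true, true, 37, 37, 3⟩, ⟨false, true, 40, 41, 3⟩, ⟨true, false, 41, 42, 3⟩, ⟨false, false, 44, 46, 2⟩, ⟨true, true, 48, 49, 2⟩, ⟨false, true, 51, 53, 1⟩, ⟨true, false, 51, 53, 2⟩, ⟨false, false, 53, 56, 2⟩, ⟨true, true, 57, 59, 1⟩, ⟨false, true, 59, 62, 1⟩, ⟨true, false, 60, 63, 1⟩, ⟨false, false, 61, 65, 1⟩, ⟨true, true, 64, 67, 1⟩, ⟨false, true, 66,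 70, 1⟩],
  [⟨true, true, 1, 0, 18⟩, ⟨false, true, 18, 18, 7⟩, ⟨true, false, 19, 19, 7⟩, ⟨false, false, 26, 27, 5⟩, ⟨true, true, 32, 32, 4⟩, ⟨false, true, 36, 37, 3⟩, ⟨true, false, 37, 38, 3⟩, ⟨false, false, 40, 42, 2⟩],
  [⟨false, true, 0, 0, 14⟩, ⟨true, false, 1, 1, 14⟩],
  [⟨false, false, 0, 1, 18⟩, ⟨true, true, 19, 19, 7⟩, ⟨false, true, 25, 26, 5⟩, ⟨true, false, 26, 27, 5⟩, ⟨false, false, 31, 33, 4⟩, ⟨true, true, 36, 37, 4⟩, ⟨false, true, 40, 42, 3⟩, ⟨true, false, 40, 42, 3⟩, ⟨false, false, 43, 46, 2⟩],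
  [⟨true, true, 1, 1, 17⟩, ⟨false, true, 18, 19, 7⟩, ⟨true, false, 18, 19, 7⟩, ⟨false, false, 25, 27, 5⟩, ⟨true, true, 31, 32, 4⟩, ⟨false, true, 35, 37, 2⟩, ⟨true, false, 36, 38, 2⟩]⟩ = true := by
  decide +kernel

theorem c55 : chk ⟨988, 49, 41, 44, 13,
  [⟨false, true, 1, 0, 18⟩, ⟨true, false, 1, 0, 18⟩],
  [⟨false, false, 1, 1, 18⟩, ⟨true, true, 20, 19, 7⟩, ⟨false, true, 26, 26, 6⟩, ⟨true, false, 27, 27, 5⟩, ⟨false, false, 32, 33, 4⟩, ⟨true, true, 38, 38, 1⟩],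
  [⟨true, true, 1, 0, 18⟩, ⟨false, true, 19, 19, 7⟩, ⟨true, false, 19, 19, 7⟩, ⟨false, false, 26, 27, 5⟩, ⟨true, true, 33, 33, 4⟩],
  [⟨false, true, 0, 0, 18⟩, ⟨true, false, 1, 1, 18⟩, ⟨false, false, 19, 20, 7⟩, ⟨true, true, 27, 27, 5⟩, ⟨false, true, 32, 33, 2⟩, ⟨true, false, 33, 34, 2⟩],
  [⟨false, false, 0, 1, 18⟩, ⟨true, true, 19, 19, 7⟩, ⟨false, true, 26, 27, 5⟩, ⟨true, false, 27, 28, 5⟩, ⟨false, false, 32, 34, 2⟩],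
  [⟨true, true, 1, 1, 18⟩, ⟨false, true, 18, 19, 7⟩, ⟨true, false, 19, 20, 7⟩, ⟨false, false, 26, 28, 5⟩, ⟨true, true, 32, 33, 4⟩, ⟨false, true, 36, 38, 4⟩, ⟨true, false, 37, 39, 3⟩, ⟨false, false, 41, 44, 1⟩]⟩ = true := by
  decide +kernel

theorem c56 : chk ⟨1037, 51, 52, 53, 13,
  [⟨false, true, 1, 0, 18⟩, ⟨true, false, 1, 0, 19⟩, ⟨false, false, 20, 20, 3⟩],
  [⟨false, false, 1, 1, 18⟩, ⟨true, true, 20, 19, 7⟩, ⟨false, true, 27, 27, 5⟩, ⟨true, false, 28, 28, 5⟩, ⟨false, false, 33, 34, 4⟩, ⟨true, true, 39, 39, 3⟩, ⟨false, true, 42, 43, 3⟩, ⟨true, false, 43, 44, 3⟩, ⟨false, false, 46, 48, 3⟩, ⟨true, true, 50, 51, 3⟩],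
  [⟨true, true, 1, 0, 19⟩, ⟨false, true, 19, 19, 7⟩, ⟨true, false, 20, 20, 7⟩, ⟨false, false, 27, 28, 5⟩, ⟨true, true, 33, 33, 5⟩, ⟨false, true, 38, 39, 1⟩, ⟨true, false, 38, 39, 1⟩],
  [⟨false, true, 0, 0, 19⟩, ⟨true, false, 1, 1, 18⟩, ⟨false, false, 19, 20, 3⟩],
  [⟨false, false, 0, 1, 19⟩, ⟨true, true, 20, 20, 7⟩, ⟨false, true, 27, 28, 3⟩, ⟨true, false, 27, 28, 3⟩],
  [⟨true, true, 1, 1, 18⟩, ⟨false, true, 19, 20, 7⟩, ⟨true, false, 19, 20, 8⟩, ⟨false, false, 26, 28, 6⟩, ⟨true, true, 33, 34, 4⟩, ⟨false, true, 37, 39, 2⟩, ⟨true, false, 38, 40, 2⟩]⟩ = true := by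
  decide +kernel

theorem c57 : chk ⟨1088, 54, 52, 55, 14,
  [⟨false, true, 1, 0, 19⟩, ⟨true, false, 1, 0, 19⟩, ⟨false, false, 20, 20, 3⟩],
  [⟨false, false, 1, 1, 19⟩, ⟨true, true, 21, 20, 7⟩, ⟨false, true, 28, 28, 5⟩, ⟨true, false, 28, 28, 6⟩, ⟨false, false, 34, 35, 4⟩, ⟨true, true, 40, 40, 1⟩],
  [⟨true, true, 1, 0, 19⟩, ⟨false, true, 20, 20, 7⟩, ⟨true, false, 20, 20, 8⟩, ⟨false, false, 28, 29, 5⟩, ⟨true, true, 34, 34, 5⟩, ⟨false, true, 39, 40, 3⟩, ⟨true, false, 39, 40, 4⟩, ⟨false, false, 43, 45, 1⟩],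
  [⟨false, true, 0, 0, 19⟩, ⟨true, false, 1, 1, 19⟩, ⟨false, false, 20, 21, 6⟩],
  [⟨false, false, 0, 1, 19⟩, ⟨true, true, 20, 20, 7⟩, ⟨false, true, 27, 28, 6⟩, ⟨true, false, 28, 29, 5⟩],
  [⟨true, true, 1, 1, 19⟩, ⟨false, true, 19, 20, 8⟩, ⟨true, false, 20, 21, 7⟩, ⟨false, false, 27, 29, 5⟩, ⟨true, true, 34, 35, 4⟩, ⟨false, true, 38, 40, 4⟩, ⟨true, false, 39, 41, 3⟩, ⟨false, false, 43, 46, 3⟩, ⟨true, true, 47, 49, 3⟩, ⟨false, true, 50, 53, 2⟩, ⟨true, false, 51, 54, 2⟩]⟩ = true := by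
  decide +kernel

theorem c58 : chk ⟨1142, 57, 62, 65, 14,
  [⟨false, true, 1, 0, 19⟩, ⟨true, false, 1, 0, 20⟩, ⟨false, false, 20, 20, 8⟩, ⟨true, true, 29, 28, 6⟩, ⟨false, true, 35, 35, 1⟩, ⟨true, false, 35, 35, 1⟩],
  [⟨false, false, 1, 1, 19⟩, ⟨true, true, 21, 20, 8⟩, ⟨false, true, 28, 28, 6⟩, ⟨true, false, 29, 29, 6⟩, ⟨false, false, 35, 36, 4⟩, ⟨true, true, 40, 40, 4⟩, ⟨false, true, 44, 45, 1⟩, ⟨true, false, 45, 46, 1⟩],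
  [⟨true, true, 1, 0, 20⟩, ⟨false, true, 20, 20, 8⟩, ⟨true, false, 21, 21, 7⟩, ⟨false, false, 28, 29, 6⟩, ⟨true, true, 35, 35, 5⟩, ⟨false, true, 40, 41, 2⟩, ⟨true, false, 40, 41, 2⟩],
  [⟨false, true, 0, 0, 20⟩, ⟨true, false, 1, 1, 19⟩, ⟨false, false, 20, 21, 8⟩, ⟨true, true, 29, 29, 5⟩, ⟨false, true, 34, 35, 2⟩, ⟨true, false, 35, 36, 2⟩],
  [⟨false, false, 0, 1, 20⟩, ⟨true, true, 20, 20, 8⟩, ⟨false, true, 28, 29, 5⟩, ⟨true, false, 29, 30, 5⟩, ⟨false, false, 34, 36, 5⟩, ⟨true, true, 40, 41, 4⟩, ⟨false, true, 44, 46, 3⟩, ⟨true, false, 45, 47, 3⟩, ⟨false, false, 48, 51, 3⟩, ⟨true, true, 52, 54, 3⟩, ⟨false, true, 55, 58, 2⟩, ⟨true, false, 56, 59, 2⟩, ⟨false, false, 58, 62, 2⟩, ⟨true, true, 62, 65, 1⟩],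
  [⟨true, true, 1, 1, 19⟩, ⟨false, true, 20, 21, 6⟩, ⟨true, false, 20, 21, 6⟩]⟩ = true := by
  decide +kernel

theorem c59 : chk ⟨1199, 59, 73, 76, 15,
  [⟨false, true, 1, 0, 20⟩, ⟨true, false, 1, 0, 20⟩, ⟨false, false, 21, 21, 8⟩, ⟨true, true, 30, 29, 6⟩, ⟨false, true, 36, 36, 2⟩, ⟨true, false, 36, 36, 2⟩],
  [⟨false, false, 1, 1, 19⟩, ⟨true, true, 21, 20, 8⟩, ⟨false, true, 29, 29, 6⟩, ⟨true, false, 30, 30, 5⟩, ⟨false, false, 35, 36, 5⟩, ⟨true, true, 41, 41, 4⟩, ⟨false, true, 45, 46, 4⟩, ⟨true, false, 46, 47, 3⟩, ⟨false, false, 50, 52, 2⟩, ⟨true, true, 54, 55, 3⟩, ⟨false, true, 57, 59, 2⟩, ⟨true, false, 58, 60, 2⟩, ⟨false, false, 60, 63, 2⟩, ⟨true, true, 64, 66, 2⟩, ⟨false, true, 67, 70, 1⟩, ⟨true, false, 67, 70, 2⟩, ⟨false, false, 69, 73, 2⟩, ⟨true, true, 73, 76, 1⟩],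
  [⟨true, true, 1, 0, 20⟩, ⟨false, true, 21, 21, 7⟩, ⟨true, false, 21, 21, 8⟩, ⟨false, false, 29, 30, 6⟩, ⟨true, true, 36, 36, 4⟩, ⟨false, true, 41, 42, 3⟩, ⟨true, false, 41, 42, 4⟩, ⟨false, false, 45, 47, 1⟩],
  [⟨false, true, 0, 0, 20⟩, ⟨true, false, 1, 1, 20⟩, ⟨false, false, 20, 21, 8⟩, ⟨true, true, 29, 29, 2⟩],
  [⟨false, false, 0, 1, 20⟩, ⟨true, true, 21, 21, 8⟩, ⟨false, true, 29, 30, 5⟩, ⟨true, false, 29, 30, 6⟩, ⟨false, false, 35, 37, 4⟩, ⟨true, true, 41, 42, 1⟩],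
  [⟨true, true, 1, 1, 19⟩, ⟨false, true, 20, 21, 8⟩, ⟨true, false, 21, 22, 8⟩, ⟨false, false, 28, 30, 6⟩, ⟨true, true, 35, 36, 5⟩, ⟨false, true, 40, 42, 4⟩, ⟨true, false, 41, 43, 4⟩]⟩ = true := by
  decide +kernel

theorem c60 : chk ⟨1258, 62, 48, 50, 15,
  [⟨false, true, 1, 0, 20⟩, ⟨true, false, 1, 0, 21⟩, ⟨false, false, 21, 21, 1⟩],
  [⟨false, false, 1, 1, 20⟩, ⟨true, true, 22, 21, 8⟩, ⟨false, true, 30, 30, 6⟩, ⟨true, false, 30, 30, 6⟩, ⟨false, false, 36, 37, 5⟩, ⟨true, true, 42, 42, 3⟩],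
  [⟨true, true, 1, 0, 20⟩, ⟨false, true, 21, 21, 8⟩, ⟨true, false, 22, 22, 8⟩],
  [⟨false, true, 0, 0, 21⟩, ⟨true, false, 1, 1, 20⟩, ⟨false, false, 21, 22, 4⟩],
  [⟨false, false, 0, 1, 20⟩, ⟨true, true, 21, 21, 8⟩, ⟨false, true, 29, 30, 6⟩, ⟨true, false, 30, 31, 6⟩, ⟨false, false, 36, 38, 4⟩, ⟨true, true, 42, 43, 4⟩, ⟨false, true, 46, 48, 2⟩, ⟨true, false, 47, 49, 2⟩],
  [⟨true, true, 1, 1, 20⟩, ⟨false, true, 21, 22, 8⟩, ⟨true, false, 21, 22, 8⟩, ⟨false, false, 29, 31, 6⟩]⟩ = true := by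
  decide +kernel

theorem c61 : chk ⟨1320, 66, 61, 64, 15,
  [⟨false, true, 1, 0, 21⟩, ⟨true, false, 1, 0, 21⟩, ⟨false, false, 22, 22, 8⟩, ⟨true, true, 31, 30, 5⟩],
  [⟨false, false, 1, 1, 20⟩, ⟨true, true, 22, 21, 9⟩, ⟨false, true, 31, 31, 5⟩, ⟨true, false, 31, 31, 6⟩, ⟨false, false, 37, 38, 2⟩],
  [⟨true, true, 1, 0, 21⟩, ⟨false, true, 22, 22, 8⟩, ⟨true, false, 22, 22, 8⟩, ⟨false, false, 30, 31, 4⟩],
  [⟨false, true, 0, 0, 21⟩, ⟨true, false, 1, 1, 21⟩, ⟨false, false, 21, 22, 9⟩, ⟨true, true, 31, 31, 6⟩, ⟨false, true, 37, 38, 5⟩, ⟨true, false, 38, 39, 4⟩, ⟨false, false, 42, 44, 4⟩, ⟨true, true, 48, 49, 3⟩, ⟨false, true, 52, 54, 2⟩, ⟨true, false, 52, 54, 2⟩],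
  [⟨false, false, 0, 1, 21⟩, ⟨true, true, 22, 22, 8⟩, ⟨false, true, 30, 31, 6⟩, ⟨true, false, 31, 32, 6⟩, ⟨false, false, 37, 39, 4⟩, ⟨true, true, 43, 44, 4⟩, ⟨false, true, 47, 49, 4⟩, ⟨true, false, 48, 50, 3⟩, ⟨false, false, 52, 55, 3⟩, ⟨true, true, 56, 58, 3⟩, ⟨false, true, 59, 62, 3⟩, ⟨true, false, 60, 63, 2⟩],
  [⟨true, true, 1, 1, 20⟩, ⟨false, true, 21, 22, 8⟩, ⟨true, false, 22, 23, 8⟩, ⟨false, false, 30, 32, 6⟩, ⟨true, true, 37, 38, 5⟩, ⟨false, true, 42, 44, 2⟩, ⟨true, false, 43, 45, 2⟩]⟩ = true := by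
  decide +kernel

theorem c62 : chk ⟨1386, 138, 60, 61, 16,
  [⟨false, true, 1, 0, 21⟩, ⟨true, false, 1, 0, 22⟩, ⟨false, false, 23, 23, 4⟩],
  [⟨false, false, 1, 1, 21⟩, ⟨true, true, 24, 23, 7⟩, ⟨false, true, 32, 32, 5⟩, ⟨true, false, 33, 33, 5⟩, ⟨false, false, 39, 40, 4⟩, ⟨true, true, 46, 46, 3⟩, ⟨false, true, 50, 51, 2⟩, ⟨true, false, 51, 52, 2⟩, ⟨false, false, 55, 57, 1⟩, ⟨true, true, 60, 61, 1⟩],
  [⟨true, true, 1, 0, 21⟩, ⟨false, true, 23, 23, 8⟩, ⟨true, false, 23, 23, 8⟩, ⟨false, false, 32, 33, 5⟩, ⟨true, true, 40, 40, 3⟩, ⟨false, true, 45, 46, 3⟩, ⟨true, false, 45, 46, 3⟩],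
  [⟨false, true, 0, 0, 22⟩, ⟨true, false, 1, 1, 21⟩, ⟨false, false, 23, 24, 4⟩],
  [⟨false, false, 0, 1, 21⟩, ⟨true, true, 23, 23, 8⟩, ⟨false, true, 32, 33, 5⟩, ⟨true, false, 32, 33, 6⟩, ⟨false, false, 39, 41, 3⟩, ⟨true, true, 45, 46, 3⟩],
  [⟨true, true, 1, 1, 21⟩, ⟨false, true, 22, 23, 8⟩, ⟨true, false, 23, 24, 8⟩, ⟨false, false, 31, 33, 6⟩, ⟨true, true, 39, 40, 4⟩, ⟨false, true, 44, 46, 3⟩, ⟨true, false, 45, 47, 3⟩, ⟨false, false, 49, 52, 3⟩]⟩ = true := by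
  decide +kernel

theorem c63 : chk ⟨1524, 76, 75, 79, 16,
  [⟨false, true, 1, 0, 21⟩, ⟨true, false, 1, 0, 21⟩],
  [⟨false, false, 1, 1, 22⟩, ⟨true, true, 24, 23, 9⟩, ⟨false, true, 33, 33, 6⟩, ⟨true, false, 33, 33, 7⟩, ⟨false, false, 40, 41, 5⟩],
  [⟨true, true, 1, 0, 23⟩, ⟨false, true, 23, 23, 9⟩, ⟨true, false, 24, 24, 9⟩, ⟨false, false, 33, 34, 5⟩],
  [⟨false, true, 0, 0, 18⟩, ⟨true, false, 1, 1, 18⟩],
  [⟨false, false, 0, 1, 23⟩, ⟨true, true, 24, 24, 8⟩, ⟨false, true, 32, 33, 7⟩, ⟨true, false, 33, 34, 6⟩, ⟨false, false, 40, 42, 5⟩, ⟨true, true, 46, 47, 4⟩, ⟨false, true, 51, 53, 3⟩, ⟨true, false, 51, 53, 4⟩, ⟨false, false, 56, 59, 3⟩, ⟨true, true, 61, 63, 2⟩, ⟨false, true, 64, 67, 2⟩, ⟨true, false, 65, 68, 2⟩, ⟨false, false, 68, 72, 2⟩, ⟨true, true, 72, 75, 2⟩, ⟨false, true, 75, 79, 1⟩, ⟨true, false, 75, 79, 1⟩],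
  [⟨true, true, 1, 1, 22⟩, ⟨false, true, 23, 24, 9⟩, ⟨true, false, 23, 24, 9⟩, ⟨false, false, 32, 34, 1⟩]⟩ = true := by
  decide +kernel

theorem c64 : chk ⟨1600, 80, 63, 65, 17,
  [⟨false, true, 1, 0, 23⟩, ⟨true, false, 1, 0, 23⟩, ⟨false, false, 24, 24, 3⟩],
  [⟨false, false, 1, 1, 23⟩, ⟨true, true, 25, 24, 9⟩, ⟨false, true, 34, 34, 6⟩, ⟨true, false, 34, 34, 7⟩, ⟨false, false, 41, 42, 5⟩, ⟨true, true, 48, 48, 4⟩, ⟨false, true, 53, 54, 1⟩, ⟨true, false, 53, 54, 1⟩],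
  [⟨true, true, 1, 0, 23⟩, ⟨false, true, 24, 24, 9⟩, ⟨true, false, 24, 24, 9⟩, ⟨false, false, 33, 34, 7⟩, ⟨true, true, 41, 41, 6⟩, ⟨false, true, 47, 48, 4⟩, ⟨true, false, 48, 49, 4⟩, ⟨false, false, 52, 54, 4⟩, ⟨true, true, 58, 59, 3⟩, ⟨false, true, 62, 64, 2⟩, ⟨true, false, 62, 64, 2⟩],
  [⟨false, true, 0, 0, 23⟩, ⟨true, false, 1, 1, 23⟩, ⟨false, false, 24, 25, 9⟩, ⟨true, true, 34, 34, 2⟩],
  [⟨false, false, 0, 1, 23⟩, ⟨true, true, 24, 24, 9⟩, ⟨false, true, 33, 34, 3⟩, ⟨true, false, 34, 35, 3⟩],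
  [⟨true, true, 1, 1, 23⟩, ⟨false, true, 23, 24, 9⟩, ⟨true, false, 24, 25, 9⟩, ⟨false, false, 33, 35, 7⟩, ⟨true, true, 41, 42, 5⟩, ⟨false, true, 46, 48, 5⟩, ⟨true, false, 47, 49, 4⟩]⟩ = true := by
  decide +kernel

theorem c65 : chk ⟨1680, 84, 72, 76, 17,
  [⟨false, true, 1, 0, 23⟩, ⟨true, false, 1, 0, 24⟩, ⟨false, false, 25, 25, 5⟩],
  [⟨false, false, 1, 1, 23⟩, ⟨true, true, 25, 24, 9⟩, ⟨false, true, 34, 34, 7⟩, ⟨true, false, 35, 35, 7⟩, ⟨false, false, 42, 43, 5⟩, ⟨true, true, 49, 49, 4⟩, ⟨false, true, 54, 55, 4⟩, ⟨true, false, 55, 56, 3⟩, ⟨false, false, 59, 61, 3⟩, ⟨true, true, 64, 65, 3⟩, ⟨false, true, 68, 70, 1⟩, ⟨true, false, 68, 70, 1⟩],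
  [⟨true, true, 1, 0, 24⟩, ⟨false, true, 24, 24, 7⟩, ⟨true, false, 25, 25, 7⟩],
  [⟨false, true, 0, 0, 24⟩, ⟨true, false, 1, 1, 23⟩, ⟨false, false, 24, 25, 9⟩, ⟨true, true, 35, 35, 4⟩],
  [⟨false, false, 0, 1, 24⟩, ⟨true, true, 25, 25, 9⟩, ⟨false, true, 34, 35, 7⟩, ⟨true, false, 35, 36, 6⟩, ⟨false, false, 42, 44, 5⟩, ⟨true, true, 48, 49, 5⟩, ⟨false, true, 53, 55, 4⟩, ⟨true, false, 54, 56, 4⟩, ⟨false, false, 58, 61, 4⟩, ⟨true, true, 64, 66, 2⟩, ⟨false, true, 67, 70, 3⟩, ⟨true, false, 68, 71, 2⟩, ⟨false, false, 71, 75, 2⟩],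
  [⟨true, true, 1, 1, 23⟩, ⟨false, true, 24, 25, 9⟩, ⟨true, false, 25, 26, 9⟩, ⟨false, false, 34, 36, 6⟩, ⟨true, true, 42, 43, 5⟩, ⟨false, true, 48, 50, 4⟩, ⟨true, false, 48, 50, 5⟩, ⟨false, false, 53, 56, 4⟩, ⟨true, true, 59, 61, 3⟩]⟩ = true := by
  decide +kernel

theorem c66 : chk ⟨1764, 88, 62, 64, 18,
  [⟨false, true, 1, 0, 24⟩, ⟨true, false, 1, 0, 25⟩, ⟨false, false, 25, 25, 10⟩],
  [⟨false, false, 1, 1, 24⟩, ⟨true, true, 26, 25, 9⟩, ⟨false, true, 35, 35, 6⟩, ⟨true, false, 36, 36, 6⟩],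
  [⟨true, true, 1, 0, 24⟩, ⟨false, true, 25, 25, 9⟩, ⟨true, false, 26, 26, 9⟩, ⟨false, false, 35, 36, 7⟩, ⟨true, true, 44, 44, 5⟩, ⟨false, true, 49, 50, 2⟩, ⟨true, false, 50, 51, 2⟩],
  [⟨false, true, 0, 0, 24⟩, ⟨true, false, 1, 1, 24⟩, ⟨false, false, 25, 26, 9⟩, ⟨true, true, 36, 36, 7⟩, ⟨false, true, 43, 44, 5⟩, ⟨true, false, 43, 44, 6⟩, ⟨false, false, 49, 51, 5⟩, ⟨true, true, 56, 57, 3⟩, ⟨false, true, 60, 62, 2⟩, ⟨true, false, 61, 63, 2⟩],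
  [⟨false, false, 0, 1, 24⟩, ⟨true, true, 25, 25, 10⟩, ⟨false, true, 35, 36, 7⟩, ⟨true, false, 35, 36, 7⟩, ⟨false, false, 43, 45, 5⟩, ⟨true, true, 50, 51, 4⟩, ⟨false, true, 55, 57, 4⟩, ⟨true, false, 55, 57, 4⟩, ⟨false, false, 60, 63, 2⟩],
  [⟨true, true, 1, 1, 24⟩, ⟨false, true, 25, 26, 9⟩, ⟨true, false, 25, 26, 10⟩, ⟨false, false, 35, 37, 7⟩, ⟨true, true, 43, 44, 5⟩, ⟨false, true, 49, 51, 4⟩, ⟨true, false, 50, 52, 4⟩]⟩ = true := by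
  decide +kernel

theorem c67 : chk ⟨1852, 92, 75, 78, 18,
  [⟨false, true, 1, 0, 25⟩, ⟨true, false, 1, 0, 25⟩, ⟨false, false, 26, 26, 10⟩, ⟨true, true, 37, 36, 3⟩],
  [⟨false, false, 1, 1, 24⟩, ⟨true, true, 26, 25, 10⟩, ⟨false, true, 36, 36, 7⟩, ⟨true, false, 37, 37, 7⟩, ⟨false, false, 44, 45, 6⟩, ⟨true, true, 51, 51, 5⟩, ⟨false, true, 57, 58, 4⟩, ⟨true, false, 57, 58, 4⟩, ⟨false, false, 62, 64, 3⟩, ⟨true, true, 67, 68, 3⟩, ⟨false, true, 71, 73, 3⟩, ⟨true, false, 72, 74, 2⟩, ⟨false, false, 75, 78, 1⟩],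
  [⟨true, true, 1, 0, 25⟩, ⟨false, true, 26, 26, 9⟩, ⟨true, false, 26, 26, 10⟩, ⟨false, false, 36, 37, 7⟩, ⟨true, true, 45, 45, 5⟩, ⟨false, true, 51, 52, 2⟩, ⟨true, false, 51, 52, 2⟩],
  [⟨false, true, 0, 0, 25⟩, ⟨true, false, 1, 1, 25⟩],
  [⟨false, false, 0, 1, 25⟩, ⟨true, true, 26, 26, 10⟩, ⟨false, true, 36, 37, 7⟩, ⟨true, false, 36, 37, 7⟩, ⟨false, false, 44, 46, 5⟩, ⟨true, true, 51, 52, 5⟩, ⟨false, true, 56, 58, 2⟩, ⟨true, false, 57, 59, 2⟩],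
  [⟨true, true, 1, 1, 24⟩, ⟨false, true, 25, 26, 10⟩, ⟨true, false, 26, 27, 9⟩, ⟨false, false, 36, 38, 7⟩, ⟨true, true, 44, 45, 6⟩, ⟨false, true, 50, 52, 5⟩, ⟨true, false, 51, 53, 4⟩, ⟨false, false, 56, 59, 2⟩]⟩ = true := by
  decide +kernel

theorem c68 : chk ⟨1944, 97, 59, 61, 18,
  [⟨false, true, 1, 0, 25⟩, ⟨true, false, 1, 0, 26⟩, ⟨false, false, 27, 27, 5⟩],
  [⟨false, false, 1, 1, 25⟩, ⟨true, true, 27, 26, 10⟩, ⟨false, true, 37, 37, 7⟩, ⟨true, false, 38, 38, 7⟩, ⟨false, false, 45, 46, 6⟩, ⟨true, true, 53, 53, 4⟩, ⟨false, true, 58, 59, 1⟩, ⟨true, false, 59, 60, 1⟩],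
  [⟨true, true, 1, 0, 25⟩, ⟨false, true, 26, 26, 10⟩, ⟨true, false, 27, 27, 10⟩, ⟨false, false, 37, 38, 7⟩, ⟨true, true, 46, 46, 5⟩, ⟨false, true, 52, 53, 5⟩, ⟨true, false, 53, 54, 4⟩, ⟨false, false, 58, 60, 2⟩],
  [⟨false, true, 0, 0, 26⟩, ⟨true, false, 1, 1, 25⟩, ⟨false, false, 26, 27, 10⟩, ⟨true, true, 37, 37, 2⟩],
  [⟨false, false, 0, 1, 25⟩, ⟨true, true, 27, 27, 9⟩, ⟨false, true, 37, 38, 7⟩, ⟨true, false, 37, 38, 7⟩, ⟨false, false, 45, 47, 5⟩, ⟨true, true, 52, 53, 5⟩, ⟨false, true, 57, 59, 2⟩, ⟨true, false, 58, 60, 2⟩],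
  [⟨true, true, 1, 1, 25⟩, ⟨false, true, 26, 27, 10⟩, ⟨true, false, 26, 27, 10⟩, ⟨false, false, 36, 38, 8⟩, ⟨true, true, 45, 46, 6⟩, ⟨false, true, 51, 53, 4⟩, ⟨true, false, 52, 54, 4⟩]⟩ = true := by
  decide +kernel

theorem c69 : chk ⟨2041, 102, 60, 62, 19,
  [⟨false, true, 1, 0, 26⟩, ⟨true, false, 1, 0, 26⟩, ⟨false, false, 27, 27, 9⟩],
  [⟨false, false, 1, 1, 26⟩, ⟨true, true, 28, 27, 10⟩, ⟨false, true, 38, 38, 7⟩, ⟨true, false, 39, 39, 7⟩, ⟨false, false, 46, 47, 6⟩, ⟨true, true, 54, 54, 5⟩],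
  [⟨true, true, 1, 0, 26⟩, ⟨false, true, 27, 27, 10⟩, ⟨true, false, 28, 28, 10⟩, ⟨false, false, 38, 39, 7⟩, ⟨true, true, 47, 47, 6⟩, ⟨false, true, 53, 54, 5⟩, ⟨true, false, 54, 55, 5⟩, ⟨false, false, 59, 61, 2⟩],
  [⟨false, true, 0, 0, 26⟩, ⟨true, false, 1, 1, 26⟩],
  [⟨false, false, 0, 1, 26⟩, ⟨true, true, 27, 27, 10⟩, ⟨false, true, 37, 38, 5⟩, ⟨true, false, 38, 39, 5⟩],
  [⟨true, true, 1, 1, 26⟩, ⟨false, true, 26, 27, 9⟩, ⟨true, false, 27, 28, 9⟩]⟩ = true := by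
  decide +kernel

theorem c70 : chk ⟨2143, 107, 64, 65, 19,
  [⟨false, true, 1, 0, 26⟩, ⟨true, false, 1, 0, 27⟩, ⟨false, false, 28, 28, 10⟩, ⟨true, true, 40, 39, 6⟩],
  [⟨false, false, 1, 1, 26⟩, ⟨true, true, 28, 27, 11⟩, ⟨false, true, 39, 39, 7⟩, ⟨true, false, 40, 40, 7⟩, ⟨false, false, 47, 48, 6⟩, ⟨true, true, 55, 55, 5⟩, ⟨false, true, 61, 62, 3⟩, ⟨true, false, 62, 63, 3⟩],
  [⟨true, true, 1, 0, 27⟩, ⟨false, true, 28, 28, 10⟩, ⟨true, false, 28, 28, 11⟩, ⟨false, false, 39, 40, 7⟩, ⟨true, true, 48, 48, 6⟩, ⟨false, true, 54, 55, 5⟩, ⟨true, false, 55, 56, 5⟩],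
  [⟨false, true, 0, 0, 27⟩, ⟨true, false, 1, 1, 27⟩, ⟨false, false, 27, 28, 6⟩],
  [⟨false, false, 0, 1, 27⟩, ⟨true, true, 28, 28, 10⟩, ⟨false, true, 38, 39, 8⟩, ⟨true, false, 39, 40, 8⟩, ⟨false, false, 47, 49, 6⟩, ⟨true, true, 55, 56, 3⟩],
  [⟨true, true, 1, 1, 26⟩, ⟨false, true, 27, 28, 10⟩, ⟨true, false, 28, 29, 10⟩, ⟨false, false, 38, 40, 8⟩, ⟨true, true, 47, 48, 3⟩]⟩ = true := by
  decide +kernel

theorem c71 : chk ⟨2250, 112, 65, 66, 20,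
  [⟨false, true, 1, 0, 27⟩, ⟨true, false, 1, 0, 28⟩, ⟨false, false, 29, 29, 10⟩, ⟨true, true, 41, 40, 7⟩, ⟨false, true, 49, 49, 5⟩, ⟨true, false, 49, 49, 5⟩],
  [⟨false, false, 1, 1, 27⟩, ⟨true, true, 29, 28, 11⟩, ⟨false, true, 40, 40, 8⟩, ⟨true, false, 41, 41, 7⟩, ⟨false, false, 49, 50, 6⟩, ⟨true, true, 57, 57, 5⟩, ⟨false, true, 62, 63, 3⟩, ⟨true, false, 63, 64, 3⟩],
  [⟨true, true, 1, 0, 27⟩, ⟨false, true, 28, 28, 11⟩, ⟨true, false, 29, 29, 11⟩, ⟨false, false, 40, 41, 1⟩],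
  [⟨false, true, 0, 0, 28⟩, ⟨true, false, 1, 1, 27⟩, ⟨false, false, 28, 29, 11⟩, ⟨true, true, 40, 40, 8⟩, ⟨false, true, 48, 49, 3⟩, ⟨true, false, 49, 50, 3⟩],
  [⟨false, false, 0, 1, 27⟩, ⟨true, true, 29, 29, 10⟩, ⟨false, true, 39, 40, 8⟩, ⟨true, false, 40, 41, 8⟩, ⟨false, false, 48, 50, 6⟩, ⟨true, true, 56, 57, 2⟩],
  [⟨true, true, 1, 1, 27⟩, ⟨false, true, 28, 29, 10⟩, ⟨true, false, 28, 29, 11⟩, ⟨false, false, 39, 41, 8⟩, ⟨true, true, 49, 50, 6⟩, ⟨false, true, 55, 57, 2⟩, ⟨true, false, 56, 58, 2⟩]⟩ = true := by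
  decide +kernel

theorem c72 : chk ⟨2362, 236, 83, 86, 21,
  [⟨false, true, 1, 0, 28⟩, ⟨true, false, 1, 0, 28⟩, ⟨false, false, 30, 30, 10⟩, ⟨true, true, 43, 42, 4⟩],
  [⟨false, false, 1, 1, 28⟩, ⟨true, true, 30, 29, 11⟩, ⟨false, true, 42, 42, 7⟩, ⟨true, false, 42, 42, 7⟩, ⟨false, false, 51, 52, 5⟩, ⟨true, true, 59, 59, 4⟩, ⟨false, true, 65, 66, 2⟩, ⟨true, false, 66, 67, 2⟩],
  [⟨true, true, 1, 0, 28⟩, ⟨false, true, 30, 30, 10⟩, ⟨true, false, 30, 30, 11⟩, ⟨false, false, 42, 43, 7⟩, ⟨true, true, 51, 51, 6⟩],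
  [⟨false, true, 0, 0, 28⟩, ⟨true, false, 1, 1, 28⟩, ⟨false, false, 29, 30, 9⟩],
  [⟨false, false, 0, 1, 28⟩, ⟨true, true, 30, 30, 10⟩, ⟨false, true, 41, 42, 7⟩, ⟨true, false, 42, 43, 7⟩, ⟨false, false, 50, 52, 6⟩, ⟨true, true, 59, 60, 4⟩, ⟨false, true, 65, 67, 3⟩, ⟨true, false, 66, 68, 3⟩, ⟨false, false, 71, 74, 2⟩, ⟨true, true, 77, 79, 2⟩, ⟨false, true, 82, 85, 1⟩, ⟨true, false, 83, 86, 1⟩],
  [⟨true, true, 1, 1, 28⟩, ⟨false, true, 29, 30, 10⟩, ⟨true, false, 30, 31, 10⟩, ⟨false, false, 41, 43, 7⟩, ⟨true, true, 51, 52, 5⟩, ⟨false, true, 58, 60, 4⟩, ⟨true, false, 59, 61, 4⟩, ⟨false, false, 65, 68, 3⟩, ⟨true, true, 72, 74, 1⟩]⟩ = true := by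
  decide +kernel

theorem c73 : chk ⟨2598, 129, 75, 78, 21,
  [⟨false, true, 1, 0, 29⟩, ⟨true, false, 1, 0, 30⟩, ⟨false, false, 31, 31, 6⟩],
  [⟨false, false, 1, 1, 29⟩, ⟨true, true, 31, 30, 12⟩, ⟨false, true, 43, 43, 8⟩, ⟨true, false, 43, 43, 9⟩, ⟨false, false, 52, 53, 2⟩],
  [⟨true, true, 1, 0, 29⟩, ⟨false, true, 30, 30, 12⟩, ⟨true, false, 31, 31, 11⟩, ⟨false, false, 43, 44, 8⟩, ⟨true, true, 53, 53, 6⟩, ⟨false, true, 60, 61, 1⟩, ⟨true, false, 61, 62, 1⟩],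
  [⟨false, true, 0, 0, 27⟩, ⟨true, false, 1, 1, 27⟩],
  [⟨false, false, 0, 1, 29⟩, ⟨true, true, 31, 31, 11⟩, ⟨false, true, 42, 43, 9⟩, ⟨true, false, 43, 44, 8⟩, ⟨false, false, 52, 54, 6⟩, ⟨true, true, 60, 61, 6⟩, ⟨false, true, 67, 69, 4⟩, ⟨true, false, 67, 69, 5⟩, ⟨false, false, 73, 76, 3⟩],
  [⟨true, true, 1, 1, 29⟩, ⟨false, true, 30, 31, 11⟩, ⟨true, false, 30, 31, 12⟩, ⟨false, false, 42, 44, 8⟩]⟩ = true := by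
  decide +kernel

theorem c74 : chk ⟨2727, 136, 72, 73, 22,
  [⟨false, true, 1, 0, 30⟩, ⟨true, false, 1, 0, 30⟩, ⟨false, false, 31, 31, 12⟩, ⟨true, true, 45, 44, 8⟩, ⟨false, true, 54, 54, 4⟩, ⟨true, false, 54, 54, 4⟩],
  [⟨false, false, 1, 1, 30⟩, ⟨true, true, 32, 31, 12⟩, ⟨false, true, 44, 44, 8⟩, ⟨true, false, 45, 45, 8⟩, ⟨false, false, 54, 55, 6⟩, ⟨true, true, 62, 62, 6⟩, ⟨false, true, 69, 70, 4⟩, ⟨true, false, 69, 70, 4⟩],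
  [⟨true, true, 1, 0, 30⟩, ⟨false, true, 31, 31, 12⟩, ⟨true, false, 32, 32, 11⟩, ⟨false, false, 44, 45, 8⟩, ⟨true, true, 54, 54, 7⟩, ⟨false, true, 61, 62, 5⟩, ⟨true, false, 62, 63, 5⟩],
  [⟨false, true, 0, 0, 30⟩, ⟨true, false, 1, 1, 30⟩, ⟨false, false, 31, 32, 8⟩],
  [⟨false, false, 0, 1, 30⟩, ⟨true, true, 31, 31, 12⟩, ⟨false, true, 43, 44, 9⟩, ⟨true, false, 44, 45, 9⟩, ⟨false, false, 53, 55, 7⟩, ⟨true, true, 62, 63, 3⟩],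
  [⟨true, true, 1, 1, 30⟩, ⟨false, true, 31, 32, 11⟩, ⟨true, false, 31, 32, 12⟩, ⟨false, false, 43, 45, 3⟩]⟩ = true := by
  decide +kernel

theorem c75 : chk ⟨2863, 143, 74, 76, 22,
  [⟨false, true, 1, 0, 31⟩, ⟨true, false, 1, 0, 31⟩, ⟨false, false, 32, 32, 1⟩],
  [⟨false, false, 1, 1, 30⟩, ⟨true, true, 33, 32, 12⟩, ⟨false, true, 45, 45, 8⟩, ⟨true, false, 46, 46, 8⟩],
  [⟨true, true, 1, 0, 31⟩, ⟨false, true, 32, 32, 12⟩, ⟨true, false, 32, 32, 12⟩],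
  [⟨false, true, 0, 0, 26⟩, ⟨true, false, 1, 1, 26⟩],
  [⟨false, false, 0, 1, 31⟩, ⟨true, true, 32, 32, 12⟩, ⟨false, true, 44, 45, 9⟩, ⟨true, false, 45, 46, 9⟩, ⟨false, false, 54, 56, 7⟩, ⟨true, true, 63, 64, 6⟩, ⟨false, true, 70, 72, 4⟩, ⟨true, false, 71, 73, 4⟩],
  [⟨true, true, 1, 1, 30⟩, ⟨false, true, 31, 32, 12⟩, ⟨true, false, 32, 33, 12⟩, ⟨false, false, 44, 46, 9⟩, ⟨true, true, 55, 56, 7⟩, ⟨false, true, 62, 64, 5⟩, ⟨true, false, 63, 65, 5⟩]⟩ = true := by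
  decide +kernel

theorem c76 : chk ⟨3006, 150, 92, 95, 23,
  [⟨false, true, 1, 0, 31⟩, ⟨true, false, 1, 0, 32⟩, ⟨false, false, 33, 33, 12⟩, ⟨true, true, 47, 46, 9⟩, ⟨false, true, 56, 56, 4⟩, ⟨true, false, 57, 57, 4⟩],
  [⟨false, false, 1, 1, 31⟩, ⟨true, true, 33, 32, 13⟩, ⟨false, true, 46, 46, 9⟩, ⟨true, false, 47, 47, 9⟩, ⟨false, false, 56, 57, 7⟩, ⟨true, true, 65, 65, 1⟩],
  [⟨true, true, 1, 0, 32⟩, ⟨false, true, 33, 33, 12⟩, ⟨true, false, 33, 33, 13⟩, ⟨false, false, 46, 47, 9⟩, ⟨true, true, 57, 57, 7⟩, ⟨false, true, 65, 66, 5⟩, ⟨true, false, 65, 66, 6⟩, ⟨false, false, 72, 74, 5⟩],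
  [⟨false, true, 0, 0, 32⟩, ⟨true, false, 1, 1, 31⟩, ⟨false, false, 32, 33, 13⟩, ⟨true, true, 46, 46, 9⟩, ⟨false, true, 56, 57, 3⟩, ⟨true, false, 57, 58, 3⟩],
  [⟨false, false, 0, 1, 32⟩, ⟨true, true, 33, 33, 12⟩, ⟨false, true, 46, 47, 8⟩, ⟨true, false, 46, 47, 9⟩, ⟨false, false, 56, 58, 7⟩, ⟨true, true, 65, 66, 6⟩, ⟨false, true, 72, 74, 5⟩, ⟨true, false, 72, 74, 5⟩, ⟨false, false, 78, 81, 5⟩, ⟨true, true, 85, 87, 4⟩, ⟨false, true, 90, 93, 2⟩, ⟨true, false, 91, 94, 2⟩],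
  [⟨true, true, 1, 1, 31⟩, ⟨false, true, 32, 33, 12⟩, ⟨true, false, 33, 34, 12⟩, ⟨false, false, 45, 47, 9⟩, ⟨true, true, 56, 57, 2⟩]⟩ = true := by
  decide +kernel

theorem c77 : chk ⟨3156, 157, 95, 96, 24,
  [⟨false, true, 1, 0, 32⟩, ⟨true, false, 1, 0, 33⟩, ⟨false, false, 34, 34, 12⟩, ⟨true, true, 48, 47, 9⟩, ⟨false, true, 58, 58, 7⟩, ⟨true, false, 58, 58, 8⟩, ⟨false, false, 66, 67, 7⟩, ⟨true, true, 75, 75, 5⟩, ⟨false, true, 81, 82, 4⟩, ⟨true, false, 82, 83, 4⟩, ⟨false, false, 87, 89, 4⟩, ⟨true, true, 94, 95, 2⟩],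
  [⟨false, false, 1, 1, 32⟩, ⟨true, true, 34, 33, 13⟩, ⟨false, true, 47, 47, 9⟩, ⟨true, false, 48, 48, 9⟩, ⟨false, false, 58, 59, 5⟩],
  [⟨true, true, 1, 0, 32⟩, ⟨false, true, 33, 33, 13⟩, ⟨true, false, 34, 34, 13⟩, ⟨false, false, 47, 48, 9⟩, ⟨true, true, 58, 58, 7⟩, ⟨false, true, 66, 67, 6⟩, ⟨true, false, 67, 68, 6⟩, ⟨false, false, 74, 76, 3⟩],
  [⟨false, true, 0, 0, 33⟩, ⟨true, false, 1, 1, 32⟩, ⟨false, false, 33, 34, 13⟩, ⟨true, true, 47, 47, 10⟩],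
  [⟨false, false, 0, 1, 32⟩, ⟨true, true, 34, 34, 12⟩, ⟨false, true, 47, 48, 9⟩, ⟨true, false, 47, 48, 10⟩, ⟨false, false, 57, 59, 7⟩],
  [⟨true, true, 1, 1, 32⟩, ⟨false, true, 33, 34, 13⟩, ⟨true, false, 34, 35, 12⟩, ⟨false, false, 46, 48, 10⟩, ⟨true, true, 58, 59, 7⟩, ⟨false, true, 66, 68, 2⟩, ⟨true, false, 66, 68, 2⟩]⟩ = true := by
  decide +kernel

theorem c78 : chk ⟨3313, 165, 78, 80, 24,
  [⟨false, true, 1, 0, 33⟩, ⟨true, false, 1, 0, 34⟩, ⟨false, false, 35, 35, 8⟩],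
  [⟨false, false, 1, 1, 33⟩, ⟨true, true, 35, 34, 13⟩, ⟨false, true, 48, 48, 8⟩, ⟨true, false, 49, 49, 8⟩],
  [⟨true, true, 1, 0, 33⟩, ⟨false, true, 34, 34, 13⟩, ⟨true, false, 35, 35, 13⟩, ⟨false, false, 48, 49, 10⟩, ⟨true, true, 59, 59, 2⟩],
  [⟨false, true, 0, 0, 32⟩, ⟨true, false, 1, 1, 32⟩],
  [⟨false, false, 0, 1, 33⟩, ⟨true, true, 35, 35, 12⟩, ⟨false, true, 48, 49, 9⟩, ⟨true, false, 48, 49, 10⟩, ⟨false, false, 58, 60, 8⟩, ⟨true, true, 68, 69, 6⟩, ⟨false, true, 75, 77, 3⟩, ⟨true, false, 76, 78, 3⟩],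
  [⟨true, true, 1, 1, 33⟩, ⟨false, true, 34, 35, 13⟩, ⟨true, false, 34, 35, 13⟩, ⟨false, false, 48, 50, 3⟩]⟩ = true := by
  decide +kernel

theorem c79 : chk ⟨3478, 173, 78, 80, 25,
  [⟨false, true, 1, 0, 30⟩, ⟨true, false, 1, 0, 30⟩],
  [⟨false, false, 1, 1, 34⟩, ⟨true, true, 36, 35, 13⟩, ⟨false, true, 50, 50, 9⟩, ⟨true, false, 50, 50, 10⟩, ⟨false, false, 60, 61, 8⟩, ⟨true, true, 70, 70, 6⟩],
  [⟨true, true, 1, 0, 34⟩, ⟨false, true, 35, 35, 13⟩, ⟨true, false, 36, 36, 13⟩, ⟨false, false, 49, 50, 10⟩, ⟨true, true, 61, 61, 8⟩, ⟨false, true, 69, 70, 7⟩, ⟨true, false, 70, 71, 6⟩, ⟨false, false, 78, 80, 1⟩],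
  [⟨false, true, 0, 0, 29⟩, ⟨true, false, 1, 1, 29⟩],
  [⟨false, false, 0, 1, 34⟩, ⟨true, true, 35, 35, 14⟩, ⟨false, true, 49, 50, 5⟩, ⟨true, false, 50, 51, 5⟩],
  [⟨true, true, 1, 1, 34⟩, ⟨false, true, 35, 36, 13⟩, ⟨true, false, 35, 36, 13⟩, ⟨false, false, 49, 51, 8⟩]⟩ = true := by
  decide +kernel

theorem c80 : chk ⟨3651, 182, 84, 85, 25,
  [⟨false, true, 1, 0, 32⟩, ⟨true, false, 1, 0, 32⟩],
  [⟨false, false, 1, 1, 34⟩, ⟨true, true, 37, 36, 13⟩, ⟨false, true, 51, 51, 10⟩, ⟨true, false, 51, 51, 10⟩, ⟨false, false, 62, 63, 8⟩, ⟨true, true, 72, 72, 7⟩, ⟨false, true, 80, 81, 5⟩, ⟨true, false, 80, 81, 5⟩],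
  [⟨true, true, 1, 0, 35⟩, ⟨false, true, 36, 36, 12⟩, ⟨true, false, 37, 37, 12⟩],
  [⟨false, true, 0, 0, 33⟩, ⟨true, false, 1, 1, 33⟩],
  [⟨false, false, 0, 1, 35⟩, ⟨true, true, 36, 36, 14⟩, ⟨false, true, 50, 51, 4⟩, ⟨true, false, 51, 52, 4⟩],
  [⟨true, true, 1, 1, 34⟩, ⟨false, true, 35, 36, 14⟩, ⟨true, false, 36, 37, 14⟩, ⟨false, false, 50, 52, 10⟩, ⟨true, true, 62, 63, 8⟩]⟩ = true := by
  decide +kernel

theorem c81 : chk ⟨3833, 383, 92, 95, 26,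
  [⟨false, true, 1, 0, 35⟩, ⟨true, false, 1, 0, 36⟩, ⟨false, false, 38, 38, 12⟩],
  [⟨false, false, 1, 1, 35⟩, ⟨true, true, 38, 37, 14⟩, ⟨false, true, 53, 53, 9⟩, ⟨true, false, 54, 54, 9⟩, ⟨false, false, 65, 66, 6⟩, ⟨true, true, 75, 75, 5⟩, ⟨false, true, 83, 84, 3⟩, ⟨true, false, 84, 85, 3⟩],
  [⟨true, true, 1, 0, 36⟩, ⟨false, true, 38, 38, 13⟩, ⟨true, false, 38, 38, 13⟩, ⟨false, false, 53, 54, 9⟩, ⟨true, true, 65, 65, 7⟩, ⟨false, true, 75, 76, 5⟩, ⟨true, false, 75, 76, 5⟩, ⟨false, false, 83, 85, 4⟩, ⟨true, true, 92, 93, 1⟩],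
  [⟨false, true, 0, 0, 36⟩, ⟨true, false, 1, 1, 36⟩, ⟨false, false, 37, 38, 13⟩],
  [⟨false, false, 0, 1, 36⟩, ⟨true, true, 38, 38, 13⟩, ⟨false, true, 53, 54, 9⟩, ⟨true, false, 53, 54, 9⟩, ⟨false, false, 64, 66, 7⟩, ⟨true, true, 75, 76, 5⟩, ⟨false, true, 83, 85, 4⟩, ⟨true, false, 84, 86, 3⟩, ⟨false, false, 91, 94, 2⟩],
  [⟨true, true, 1, 1, 35⟩, ⟨false, true, 37, 38, 13⟩, ⟨true, false, 38, 39, 13⟩, ⟨false, false, 53, 55, 8⟩, ⟨true, true, 65, 66, 6⟩, ⟨false, true, 74, 76, 1⟩, ⟨true, false, 75, 77, 1⟩]⟩ = true := by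
  decide +kernel

theorem c82 : chk ⟨4216, 210, 89, 90, 27,
  [⟨false, true, 1, 0, 37⟩, ⟨true, false, 1, 0, 38⟩, ⟨false, false, 39, 39, 11⟩],
  [⟨false, false, 1, 1, 37⟩, ⟨true, true, 39, 38, 15⟩, ⟨false, true, 54, 54, 11⟩, ⟨true, false, 55, 55, 11⟩, ⟨false, false, 67, 68, 8⟩, ⟨true, true, 77, 77, 7⟩, ⟨false, true, 86, 87, 4⟩, ⟨true, false, 86, 87, 4⟩],
  [⟨true, true, 1, 0, 37⟩, ⟨false, true, 39, 39, 13⟩, ⟨true, false, 39, 39, 13⟩],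
  [⟨false, true, 0, 0, 32⟩, ⟨true, false, 1, 1, 32⟩],
  [⟨false, false, 0, 1, 37⟩, ⟨true, true, 39, 39, 15⟩, ⟨false, true, 54, 55, 7⟩, ⟨true, false, 55, 56, 7⟩],
  [⟨true, true, 1, 1, 37⟩, ⟨false, true, 38, 39, 13⟩, ⟨true, false, 39, 40, 13⟩]⟩ = true := by
  decide +kernel

theorem c83 : chk ⟨4426, 221, 114, 116, 28,
  [⟨false, true, 1, 0, 38⟩, ⟨true, false, 1, 0, 39⟩, ⟨false, false, 40, 40, 11⟩],
  [⟨false, false, 1, 1, 38⟩, ⟨true, true, 40, 39, 15⟩, ⟨false, true, 56, 56, 11⟩, ⟨true, false, 56, 56, 11⟩, ⟨false, false, 68, 69, 9⟩, ⟨true, true, 79, 79, 7⟩, ⟨false, true, 88, 89, 6⟩, ⟨true, false, 88, 89, 6⟩, ⟨false, false, 96, 98, 5⟩, ⟨true, true, 104, 105, 5⟩, ⟨false, true, 110, 112, 4⟩, ⟨true, false, 111, 113, 4⟩],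
  [⟨true, true, 1, 0, 38⟩, ⟨false, true, 40, 40, 14⟩, ⟨true, false, 40, 40, 15⟩, ⟨false, false, 56, 57, 11⟩, ⟨true, true, 69, 69, 8⟩, ⟨false, true, 78, 79, 6⟩, ⟨true, false, 79, 80, 6⟩],
  [⟨false, true, 0, 0, 39⟩, ⟨true, false, 1, 1, 38⟩, ⟨false, false, 39, 40, 3⟩],
  [⟨false, false, 0, 1, 38⟩, ⟨true, true, 40, 40, 15⟩, ⟨false, true, 55, 56, 11⟩, ⟨true, false, 56, 57, 11⟩, ⟨false, false, 68, 70, 2⟩],
  [⟨true, true, 1, 1, 38⟩, ⟨false, true, 39, 40, 15⟩, ⟨true, false, 40, 41, 15⟩, ⟨false, false, 55, 57, 11⟩, ⟨true, true, 68, 69, 9⟩, ⟨false, true, 78, 80, 7⟩, ⟨true, false, 79, 81, 7⟩, ⟨false, false, 87, 90, 6⟩, ⟨true, true, 96, 98, 5⟩, ⟨false, true, 103, 106, 3⟩, ⟨true, false, 103, 106, 3⟩]⟩ = true := by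
  decide +kernel

theorem c84 : chk ⟨4647, 232, 81, 83, 28,
  [⟨false, true, 1, 0, 39⟩, ⟨true, false, 1, 0, 40⟩, ⟨false, false, 41, 41, 15⟩, ⟨true, true, 58, 57, 11⟩],
  [⟨false, false, 1, 1, 39⟩, ⟨true, true, 41, 40, 16⟩, ⟨false, true, 57, 57, 11⟩, ⟨true, false, 58, 58, 11⟩, ⟨false, false, 70, 71, 5⟩],
  [⟨true, true, 1, 0, 39⟩, ⟨false, true, 40, 40, 16⟩, ⟨true, false, 41, 41, 15⟩, ⟨false, false, 57, 58, 9⟩],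
  [⟨false, true, 0, 0, 40⟩, ⟨true, false, 1, 1, 39⟩, ⟨false, false, 40, 41, 13⟩],
  [⟨false, false, 0, 1, 39⟩, ⟨true, true, 41, 41, 15⟩, ⟨false, true, 57, 58, 9⟩, ⟨true, false, 57, 58, 9⟩],
  [⟨true, true, 1, 1, 39⟩, ⟨false, true, 40, 41, 15⟩, ⟨true, false, 41, 42, 15⟩, ⟨false, false, 57, 59, 11⟩, ⟨true, true, 70, 71, 9⟩, ⟨false, true, 80, 82, 2⟩, ⟨true, false, 80, 82, 2⟩]⟩ = true := by
  decide +kernel

theorem c85 : chk ⟨4879, 487, 104, 106, 30,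
  [⟨false, true, 1, 0, 40⟩, ⟨true, false, 1, 0, 41⟩, ⟨false, false, 43, 43, 15⟩, ⟨true, true, 61, 60, 5⟩],
  [⟨false, false, 1, 1, 40⟩, ⟨true, true, 43, 42, 15⟩, ⟨false, true, 60, 60, 10⟩, ⟨true, false, 61, 61, 10⟩, ⟨false, false, 73, 74, 8⟩, ⟨true, true, 85, 85, 6⟩, ⟨false, true, 94, 95, 4⟩, ⟨true, false, 95, 96, 4⟩, ⟨false, false, 103, 105, 2⟩],
  [⟨true, true, 1, 0, 40⟩, ⟨false, true, 42, 42, 15⟩, ⟨true, false, 43, 43, 15⟩, ⟨false, false, 60, 61, 10⟩, ⟨true, true, 74, 74, 7⟩, ⟨false, true, 84, 85, 6⟩, ⟨true, false, 85, 86, 6⟩, ⟨false, false, 94, 96, 4⟩],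
  [⟨false, true, 0, 0, 40⟩, ⟨true, false, 1, 1, 40⟩, ⟨false, false, 42, 43, 2⟩],
  [⟨false, false, 0, 1, 40⟩, ⟨true, true, 43, 43, 15⟩, ⟨false, true, 59, 60, 11⟩, ⟨true, false, 60, 61, 10⟩, ⟨false, false, 73, 75, 7⟩, ⟨true, true, 85, 86, 5⟩, ⟨false, true, 94, 96, 4⟩, ⟨true, false, 94, 96, 4⟩],
  [⟨true, true, 1, 1, 40⟩, ⟨false, true, 42, 43, 15⟩, ⟨true, false, 43, 44, 14⟩, ⟨false, false, 59, 61, 10⟩, ⟨true, true, 73, 74, 1⟩]⟩ = true := by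
  decide +kernel

theorem c86 : chk ⟨5366, 536, 92, 92, 31,
  [⟨false, true, 1, 0, 42⟩, ⟨true, false, 1, 0, 43⟩, ⟨false, false, 45, 45, 6⟩],
  [⟨false, false, 1, 1, 42⟩, ⟨true, true, 45, 44, 16⟩, ⟨false, true, 63, 63, 10⟩, ⟨true, false, 64, 64, 10⟩, ⟨false, false, 77, 78, 8⟩, ⟨true, true, 89, 89, 4⟩],
  [⟨true, true, 1, 0, 42⟩, ⟨false, true, 45, 45, 15⟩, ⟨true, false, 45, 45, 16⟩, ⟨false, false, 63, 64, 1⟩],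
  [⟨false, true, 0, 0, 42⟩, ⟨true, false, 1, 1, 42⟩, ⟨false, false, 44, 45, 16⟩, ⟨true, true, 63, 63, 11⟩, ⟨false, true, 76, 77, 6⟩, ⟨true, false, 77, 78, 6⟩],
  [⟨false, false, 0, 1, 42⟩, ⟨true, true, 45, 45, 15⟩, ⟨false, true, 62, 63, 7⟩, ⟨true, false, 63, 64, 7⟩],
  [⟨true, true, 1, 1, 42⟩, ⟨false, true, 44, 45, 15⟩, ⟨true, false, 45, 46, 15⟩, ⟨false, false, 62, 64, 11⟩, ⟨true, true, 77, 78, 1⟩]⟩ = true := by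
  decide +kernel

theorem c87 : chk ⟨5902, 590, 107, 109, 33,
  [⟨false, true, 1, 0, 44⟩, ⟨true, false, 1, 0, 45⟩, ⟨false, false, 47, 47, 8⟩],
  [⟨false, false, 1, 1, 44⟩, ⟨true, true, 48, 47, 16⟩, ⟨false, true, 66, 66, 11⟩, ⟨true, false, 67, 67, 11⟩, ⟨false, false, 81, 82, 8⟩, ⟨true, true, 94, 94, 5⟩],
  [⟨true, true, 1, 0, 44⟩, ⟨false, true, 47, 47, 16⟩, ⟨true, false, 47, 47, 17⟩, ⟨false, false, 66, 67, 1⟩],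
  [⟨false, true, 0, 0, 45⟩, ⟨true, false, 1, 1, 44⟩, ⟨false, false, 47, 48, 2⟩],
  [⟨false, false, 0, 1, 44⟩, ⟨true, true, 47, 47, 16⟩, ⟨false, true, 65, 66, 11⟩, ⟨true, false, 66, 67, 11⟩, ⟨false, false, 80, 82, 8⟩, ⟨true, true, 93, 94, 6⟩, ⟨false, true, 103, 105, 4⟩, ⟨true, false, 104, 106, 4⟩],
  [⟨true, true, 1, 1, 44⟩, ⟨false, true, 46, 47, 16⟩, ⟨true, false, 47, 48, 16⟩, ⟨false, false, 65, 67, 5⟩]⟩ = true := by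
  decide +kernel

theorem c88 : chk ⟨6492, 649, 103, 104, 34,
  [⟨false, true, 1, 0, 46⟩, ⟨true, false, 1, 0, 46⟩],
  [⟨false, false, 1, 1, 46⟩, ⟨true, true, 50, 49, 17⟩, ⟨false, true, 69, 69, 10⟩, ⟨true, false, 70, 70, 10⟩],
  [⟨true, true, 1, 0, 47⟩, ⟨false, true, 49, 49, 17⟩, ⟨true, false, 50, 50, 17⟩, ⟨false, false, 69, 70, 12⟩, ⟨true, true, 85, 85, 9⟩, ⟨false, true, 97, 98, 6⟩, ⟨true, false, 98, 99, 6⟩],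
  [⟨false, true, 0, 0, 45⟩, ⟨true, false, 1, 1, 45⟩],
  [⟨false, false, 0, 1, 47⟩, ⟨true, true, 49, 49, 17⟩, ⟨false, true, 69, 70, 9⟩, ⟨true, false, 69, 70, 9⟩],
  [⟨true, true, 1, 1, 46⟩, ⟨false, true, 48, 49, 17⟩, ⟨true, false, 49, 50, 17⟩, ⟨false, false, 68, 70, 7⟩]⟩ = true := by
  decide +kernel

theorem c89 : chk ⟨7141, 714, 109, 109, 36,
  [⟨false, true, 1, 0, 48⟩, ⟨true, false, 1, 0, 49⟩, ⟨false, false, 52, 52, 9⟩],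
  [⟨false, false, 1, 1, 48⟩, ⟨true, true, 52, 51, 18⟩, ⟨false, true, 73, 73, 12⟩, ⟨true, false, 73, 73, 12⟩, ⟨false, false, 89, 90, 9⟩, ⟨true, true, 103, 103, 7⟩],
  [⟨true, true, 1, 0, 49⟩, ⟨false, true, 51, 51, 18⟩, ⟨true, false, 52, 52, 18⟩, ⟨false, false, 72, 73, 13⟩, ⟨true, true, 89, 89, 4⟩],
  [⟨false, true, 0, 0, 49⟩, ⟨true, false, 1, 1, 49⟩, ⟨false, false, 51, 52, 5⟩],
  [⟨false, false, 0, 1, 49⟩, ⟨true, true, 52, 52, 17⟩, ⟨false, true, 72, 73, 12⟩, ⟨true, false, 73, 74, 12⟩, ⟨false, false, 88, 90, 9⟩, ⟨true, true, 102, 103, 2⟩],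
  [⟨true, true, 1, 1, 48⟩, ⟨false, true, 51, 52, 18⟩, ⟨true, false, 52, 53, 17⟩, ⟨false, false, 72, 74, 12⟩, ⟨true, true, 89, 90, 8⟩]⟩ = true := by
  decide +kernel

theorem c90 : chk ⟨7855, 785, 121, 123, 38,
  [⟨false, true, 1, 0, 51⟩, ⟨true, false, 1, 0, 52⟩, ⟨false, false, 54, 54, 9⟩],
  [⟨false, false, 1, 1, 51⟩, ⟨true, true, 55, 54, 18⟩, ⟨false, true, 76, 76, 13⟩, ⟨true, false, 77, 77, 12⟩, ⟨false, false, 93, 94, 9⟩, ⟨true, true, 108, 108, 1⟩],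
  [⟨true, true, 1, 0, 51⟩, ⟨false, true, 54, 54, 19⟩, ⟨true, false, 54, 54, 19⟩, ⟨false, false, 76, 77, 7⟩],
  [⟨false, true, 0, 0, 51⟩, ⟨true, false, 1, 1, 51⟩, ⟨false, false, 54, 55, 11⟩],
  [⟨false, false, 0, 1, 51⟩, ⟨true, true, 54, 54, 19⟩, ⟨false, true, 76, 77, 12⟩, ⟨true, false, 76, 77, 13⟩, ⟨false, false, 92, 94, 10⟩, ⟨true, true, 107, 108, 7⟩, ⟨false, true, 119, 121, 2⟩, ⟨true, false, 120, 122, 2⟩],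
  [⟨true, true, 1, 1, 51⟩, ⟨false, true, 53, 54, 19⟩, ⟨true, false, 54, 55, 19⟩]⟩ = true := by
  decide +kernel

theorem c91 : chk ⟨8640, 864, 139, 141, 40,
  [⟨false, true, 1, 0, 49⟩, ⟨true, false, 1, 0, 49⟩],
  [⟨false, false, 1, 1, 53⟩, ⟨true, true, 57, 56, 20⟩, ⟨false, true, 80, 80, 13⟩, ⟨true, false, 80, 80, 14⟩, ⟨false, false, 97, 98, 10⟩, ⟨true, true, 113, 113, 8⟩, ⟨false, true, 126, 127, 5⟩, ⟨true, false, 126, 127, 6⟩, ⟨false, false, 137, 139, 3⟩],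
  [⟨true, true, 1, 0, 54⟩, ⟨false, true, 56, 56, 12⟩, ⟨true, false, 57, 57, 12⟩],
  [⟨false, true, 0, 0, 45⟩, ⟨true, false, 1, 1, 45⟩],
  [⟨false, false, 0, 1, 54⟩, ⟨true, true, 57, 57, 19⟩, ⟨false, true, 79, 80, 14⟩, ⟨true, false, 80, 81, 13⟩, ⟨false, false, 97, 99, 1⟩],
  [⟨true, true, 1, 1, 53⟩, ⟨false, true, 56, 57, 20⟩, ⟨true, false, 57, 58, 19⟩, ⟨false, false, 79, 81, 11⟩]⟩ = true := by
  decide +kernel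

theorem c92 : chk ⟨9504, 950, 157, 160, 42,
  [⟨false, true, 1, 0, 51⟩, ⟨true, false, 1, 0, 51⟩],
  [⟨false, false, 1, 1, 56⟩, ⟨true, true, 60, 59, 21⟩, ⟨false, true, 84, 84, 14⟩, ⟨true, false, 84, 84, 14⟩, ⟨false, false, 102, 103, 11⟩, ⟨true, true, 119, 119, 7⟩, ⟨false, true, 132, 133, 1⟩, ⟨true, false, 132, 133, 1⟩],
  [⟨true, true, 1, 0, 56⟩, ⟨false, true, 59, 59, 21⟩, ⟨true, false, 60, 60, 20⟩, ⟨false, false, 83, 84, 14⟩, ⟨true, true, 103, 103, 10⟩, ⟨false, true, 118, 119, 2⟩, ⟨true, false, 118, 119, 2⟩],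
  [⟨false, true, 0, 0, 56⟩, ⟨true, false, 1, 1, 56⟩, ⟨false, false, 59, 60, 9⟩],
  [⟨false, false, 0, 1, 56⟩, ⟨true, true, 60, 60, 20⟩, ⟨false, true, 83, 84, 14⟩, ⟨true, false, 84, 85, 14⟩],
  [⟨true, true, 1, 1, 56⟩, ⟨false, true, 59, 60, 20⟩, ⟨true, false, 59, 60, 21⟩, ⟨false, false, 83, 85, 14⟩, ⟨true, true, 102, 103, 11⟩, ⟨false, true, 117, 119, 8⟩, ⟨true, false, 118, 120, 8⟩, ⟨false, false, 131, 134, 6⟩, ⟨true, true, 144, 146, 4⟩, ⟨false, true, 155, 158, 2⟩, ⟨true, false, 156, 159, 2⟩]⟩ = true := by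
  decide +kernel

theorem c93 : chk ⟨10454, 1045, 151, 153, 44,
  [⟨false, true, 1, 0, 59⟩, ⟨true, false, 1, 0, 59⟩, ⟨false, false, 62, 62, 22⟩, ⟨true, true, 89, 88, 2⟩],
  [⟨false, false, 1, 1, 59⟩, ⟨true, true, 63, 62, 21⟩, ⟨false, true, 88, 88, 14⟩, ⟨true, false, 88, 88, 15⟩, ⟨false, false, 107, 108, 11⟩, ⟨true, true, 124, 124, 8⟩, ⟨false, true, 138, 139, 6⟩, ⟨true, false, 139, 140, 6⟩, ⟨false, false, 151, 153, 1⟩],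
  [⟨true, true, 1, 0, 59⟩, ⟨false, true, 62, 62, 18⟩, ⟨true, false, 63, 63, 18⟩],
  [⟨false, true, 0, 0, 59⟩, ⟨true, false, 1, 1, 59⟩, ⟨false, false, 62, 63, 21⟩, ⟨true, true, 88, 88, 12⟩],
  [⟨false, false, 0, 1, 59⟩, ⟨true, true, 62, 62, 22⟩, ⟨false, true, 87, 88, 10⟩, ⟨true, false, 88, 89, 10⟩],
  [⟨true, true, 1, 1, 59⟩, ⟨false, true, 62, 63, 21⟩, ⟨true, false, 62, 63, 22⟩, ⟨false, false, 87, 89, 15⟩, ⟨true, true, 107, 108, 11⟩]⟩ = true := by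
  decide +kernel

theorem c94 : chk ⟨11499, 1149, 130, 131, 46,
  [⟨false, true, 1, 0, 62⟩, ⟨true, false, 1, 0, 62⟩, ⟨false, false, 65, 65, 17⟩],
  [⟨false, false, 1, 1, 61⟩, ⟨true, true, 66, 65, 23⟩, ⟨false, true, 92, 92, 14⟩, ⟨true, false, 93, 93, 14⟩],
  [⟨true, true, 1, 0, 62⟩, ⟨false, true, 65, 65, 23⟩, ⟨true, false, 66, 66, 22⟩, ⟨false, false, 92, 93, 10⟩],
  [⟨false, true, 0, 0, 51⟩, ⟨true, false, 1, 1, 51⟩],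
  [⟨false, false, 0, 1, 62⟩, ⟨true, true, 65, 65, 23⟩, ⟨false, true, 91, 92, 16⟩, ⟨true, false, 92, 93, 16⟩, ⟨false, false, 112, 114, 11⟩, ⟨true, true, 130, 131, 1⟩],
  [⟨true, true, 1, 1, 61⟩, ⟨false, true, 65, 66, 22⟩, ⟨true, false, 65, 66, 23⟩, ⟨false, false, 91, 93, 8⟩]⟩ = true := by
  decide +kernel

theorem c95 : chk ⟨12648, 1264, 124, 126, 48,
  [⟨false, true, 1, 0, 59⟩, ⟨true, false, 1, 0, 59⟩],
  [⟨false, false, 1, 1, 64⟩, ⟨true, true, 69, 68, 24⟩, ⟨false, true, 96, 96, 14⟩, ⟨true, false, 97, 97, 14⟩],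
  [⟨true, true, 1, 0, 65⟩, ⟨false, true, 68, 68, 21⟩, ⟨true, false, 69, 69, 21⟩],
  [⟨false, true, 0, 0, 52⟩, ⟨true, false, 1, 1, 52⟩],
  [⟨false, false, 0, 1, 65⟩, ⟨true, true, 69, 69, 23⟩, ⟨false, true, 96, 97, 16⟩, ⟨true, false, 97, 98, 16⟩, ⟨false, false, 117, 119, 8⟩],
  [⟨true, true, 1, 1, 64⟩, ⟨false, true, 68, 69, 23⟩, ⟨true, false, 68, 69, 24⟩, ⟨false, false, 96, 98, 16⟩, ⟨true, true, 118, 119, 3⟩]⟩ = true := by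
  decide +kernel

theorem c96 : chk ⟨13912, 1391, 190, 192, 50,
  [⟨false, true, 1, 0, 68⟩, ⟨true, false, 1, 0, 68⟩, ⟨false, false, 72, 72, 25⟩, ⟨true, true, 102, 101, 4⟩],
  [⟨false, false, 1, 1, 68⟩, ⟨true, true, 72, 71, 25⟩, ⟨false, true, 101, 101, 17⟩, ⟨true, false, 102, 102, 17⟩, ⟨false, false, 124, 125, 8⟩],
  [⟨true, true, 1, 0, 68⟩, ⟨false, true, 72, 72, 24⟩, ⟨true, false, 72, 72, 25⟩, ⟨false, false, 101, 102, 11⟩],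
  [⟨false, true, 0, 0, 62⟩, ⟨true, false, 1, 1, 62⟩],
  [⟨false, false, 0, 1, 68⟩, ⟨true, true, 72, 72, 25⟩, ⟨false, true, 101, 102, 17⟩, ⟨true, false, 101, 102, 17⟩, ⟨false, false, 123, 125, 13⟩, ⟨true, true, 143, 144, 9⟩, ⟨false, true, 159, 161, 7⟩, ⟨true, false, 160, 162, 7⟩, ⟨false, false, 174, 177, 5⟩, ⟨true, true, 188, 190, 3⟩],
  [⟨true, true, 1, 1, 68⟩, ⟨false, true, 71, 72, 25⟩, ⟨true, false, 72, 73, 25⟩, ⟨false, false, 101, 103, 16⟩, ⟨true, true, 124, 125, 12⟩, ⟨false, true, 142, 144, 5⟩, ⟨true, false, 143, 145, 5⟩]⟩ = true := by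
  decide +kernel

theorem c97 : chk ⟨15303, 1530, 134, 135, 53,
  [⟨false, true, 1, 0, 71⟩, ⟨true, false, 1, 0, 72⟩, ⟨false, false, 75, 75, 2⟩],
  [⟨false, false, 1, 1, 71⟩, ⟨true, true, 76, 75, 26⟩, ⟨false, true, 106, 106, 18⟩, ⟨true, false, 107, 107, 18⟩, ⟨false, false, 130, 131, 5⟩],
  [⟨true, true, 1, 0, 71⟩, ⟨false, true, 75, 75, 26⟩, ⟨true, false, 76, 76, 26⟩, ⟨false, false, 106, 107, 18⟩, ⟨true, true, 130, 130, 1⟩],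
  [⟨false, true, 0, 0, 61⟩, ⟨true, false, 1, 1, 61⟩],
  [⟨false, false, 0, 1, 71⟩, ⟨true, true, 75, 75, 27⟩, ⟨false, true, 106, 107, 12⟩, ⟨true, false, 106, 107, 12⟩],
  [⟨true, true, 1, 1, 71⟩, ⟨false, true, 75, 76, 26⟩, ⟨true, false, 75, 76, 26⟩, ⟨false, false, 105, 107, 5⟩]⟩ = true := by
  decide +kernel

theorem c98 : chk ⟨16833, 1683, 181, 182, 55,
  [⟨false, true, 1, 0, 62⟩, ⟨true, false, 1, 0, 62⟩],
  [⟨false, false, 1, 1, 74⟩, ⟨true, true, 80, 79, 27⟩, ⟨false, true, 111, 111, 19⟩, ⟨true, false, 112, 112, 19⟩, ⟨false, false, 136, 137, 14⟩, ⟨true, true, 158, 158, 10⟩, ⟨false, true, 175, 176, 6⟩, ⟨true, false, 176, 177, 6⟩],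
  [⟨true, true, 1, 0, 75⟩, ⟨false, true, 79, 79, 27⟩, ⟨true, false, 79, 79, 28⟩, ⟨false, false, 111, 112, 19⟩, ⟨true, true, 137, 137, 8⟩],
  [⟨false, true, 0, 0, 66⟩, ⟨true, false, 1, 1, 66⟩],
  [⟨false, false, 0, 1, 75⟩, ⟨true, true, 79, 79, 27⟩, ⟨false, true, 111, 112, 16⟩, ⟨true, false, 111, 112, 16⟩],
  [⟨true, true, 1, 1, 74⟩, ⟨false, true, 78, 79, 27⟩, ⟨true, false, 79, 80, 27⟩]⟩ = true := by
  decide +kernel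

theorem c99 : chk ⟨18516, 1851, 167, 168, 58,
  [⟨false, true, 1, 0, 65⟩, ⟨true, false, 1, 0, 65⟩],
  [⟨false, false, 1, 1, 78⟩, ⟨true, true, 83, 82, 29⟩, ⟨false, true, 117, 117, 11⟩, ⟨true, false, 117, 117, 11⟩],
  [⟨true, true, 1, 0, 79⟩, ⟨false, true, 83, 83, 25⟩, ⟨true, false, 83, 83, 25⟩],
  [⟨false, true, 0, 0, 68⟩, ⟨true, false, 1, 1, 68⟩],
  [⟨false, false, 0, 1, 79⟩, ⟨true, true, 83, 83, 29⟩, ⟨false, true, 116, 117, 20⟩, ⟨true, false, 117, 118, 19⟩, ⟨false, false, 142, 144, 15⟩, ⟨true, true, 165, 166, 3⟩],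
  [⟨true, true, 1, 1, 78⟩, ⟨false, true, 82, 83, 23⟩, ⟨true, false, 83, 84, 23⟩]⟩ = true := by
  decide +kernel

theorem c100 : chk ⟨20367, 2036, 150, 151, 61,
  [⟨false, true, 1, 0, 82⟩, ⟨true, false, 1, 0, 83⟩, ⟨false, false, 87, 87, 4⟩],
  [⟨false, false, 1, 1, 82⟩, ⟨true, true, 87, 86, 31⟩, ⟨false, true, 122, 122, 21⟩, ⟨true, false, 123, 123, 21⟩, ⟨false, false, 150, 151, 1⟩],
  [⟨true, true, 1, 0, 82⟩, ⟨false, true, 87, 87, 22⟩, ⟨true, false, 87, 87, 22⟩],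
  [⟨false, true, 0, 0, 77⟩, ⟨true, false, 1, 1, 77⟩],
  [⟨false, false, 0, 1, 82⟩, ⟨true, true, 87, 87, 30⟩, ⟨false, true, 122, 123, 20⟩, ⟨true, false, 123, 124, 20⟩],
  [⟨true, true, 1, 1, 82⟩, ⟨false, true, 86, 87, 30⟩, ⟨true, false, 87, 88, 30⟩, ⟨false, false, 122, 124, 8⟩]⟩ = true := by
  decide +kernel

theorem c101 : chk ⟨22403, 2240, 170, 172, 64,
  [⟨false, true, 1, 0, 73⟩, ⟨true, false, 1, 0, 73⟩],
  [⟨false, false, 1, 1, 86⟩, ⟨true, true, 92, 91, 31⟩, ⟨false, true, 128, 128, 10⟩, ⟨true, false, 129, 129, 10⟩],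
  [⟨true, true, 1, 0, 86⟩, ⟨false, true, 91, 91, 24⟩, ⟨true, false, 91, 91, 24⟩],
  [⟨false, true, 0, 0, 66⟩, ⟨true, false, 1, 1, 66⟩],
  [⟨false, false, 0, 1, 86⟩, ⟨true, true, 91, 91, 32⟩, ⟨false, true, 128, 129, 21⟩, ⟨true, false, 129, 130, 21⟩, ⟨false, false, 156, 158, 15⟩],
  [⟨true, true, 1, 1, 86⟩, ⟨false, true, 90, 91, 27⟩, ⟨true, false, 91, 92, 27⟩]⟩ = true := by
  decide +kernel

theorem c102 : chk ⟨24643, 2464, 151, 151, 67,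
  [⟨false, true, 1, 0, 82⟩, ⟨true, false, 1, 0, 82⟩],
  [⟨false, false, 1, 1, 90⟩, ⟨true, true, 96, 95, 33⟩, ⟨false, true, 135, 135, 17⟩, ⟨true, false, 135, 135, 17⟩],
  [⟨true, true, 1, 0, 91⟩, ⟨false, true, 95, 95, 19⟩, ⟨true, false, 96, 96, 19⟩],
  [⟨false, true, 0, 0, 68⟩, ⟨true, false, 1, 1, 68⟩],
  [⟨false, false, 0, 1, 91⟩, ⟨true, true, 96, 96, 33⟩, ⟨false, true, 134, 135, 1⟩, ⟨true, false, 135, 136, 1⟩],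
  [⟨true, true, 1, 1, 90⟩, ⟨false, true, 95, 96, 33⟩, ⟨true, false, 95, 96, 33⟩]⟩ = true := by
  decide +kernel

theorem c103 : chk ⟨27107, 2710, 225, 226, 70,
  [⟨false, true, 1, 0, 90⟩, ⟨true, false, 1, 0, 90⟩],
  [⟨false, false, 1, 1, 95⟩, ⟨true, true, 101, 100, 34⟩, ⟨false, true, 141, 141, 24⟩, ⟨true, false, 142, 142, 23⟩, ⟨false, false, 173, 174, 17⟩, ⟨true, true, 200, 200, 13⟩, ⟨false, true, 223, 224, 3⟩, ⟨true, false, 223, 224, 3⟩],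
  [⟨true, true, 1, 0, 95⟩, ⟨false, true, 100, 100, 33⟩, ⟨true, false, 101, 101, 33⟩],
  [⟨false, true, 0, 0, 80⟩, ⟨true, false, 1, 1, 80⟩],
  [⟨false, false, 0, 1, 95⟩, ⟨true, true, 100, 100, 35⟩, ⟨false, true, 141, 142, 10⟩, ⟨true, false, 141, 142, 10⟩],
  [⟨true, true, 1, 1, 95⟩, ⟨false, true, 99, 100, 35⟩, ⟨true, false, 100, 101, 35⟩, ⟨false, false, 140, 142, 3⟩]⟩ = true := by
  decide +kernel

theorem c104 : chk ⟨29817, 2981, 188, 189, 74,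
  [⟨false, true, 1, 0, 74⟩, ⟨true, false, 1, 0, 74⟩],
  [⟨false, false, 1, 1, 99⟩, ⟨true, true, 106, 105, 36⟩, ⟨false, true, 148, 148, 14⟩, ⟨true, false, 149, 149, 14⟩],
  [⟨true, true, 1, 0, 100⟩, ⟨false, true, 105, 105, 36⟩, ⟨true, false, 105, 105, 37⟩, ⟨false, false, 148, 149, 4⟩],
  [⟨false, true, 0, 0, 82⟩, ⟨true, false, 1, 1, 82⟩],
  [⟨false, false, 0, 1, 100⟩, ⟨true, true, 105, 105, 36⟩, ⟨false, true, 148, 149, 10⟩, ⟨true, false, 148, 149, 10⟩],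
  [⟨true, true, 1, 1, 99⟩, ⟨false, true, 104, 105, 37⟩, ⟨true, false, 105, 106, 36⟩, ⟨false, false, 147, 149, 25⟩, ⟨true, true, 181, 182, 8⟩]⟩ = true := by
  decide +kernel

theorem c105 : chk ⟨32798, 3279, 169, 169, 77,
  [⟨false, true, 1, 0, 104⟩, ⟨true, false, 1, 0, 105⟩, ⟨false, false, 110, 110, 22⟩],
  [⟨false, false, 1, 1, 104⟩, ⟨true, true, 111, 110, 38⟩, ⟨false, true, 155, 155, 14⟩, ⟨true, false, 156, 156, 14⟩],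
  [⟨true, true, 1, 0, 105⟩, ⟨false, true, 110, 110, 30⟩, ⟨true, false, 110, 110, 30⟩],
  [⟨false, true, 0, 0, 73⟩, ⟨true, false, 1, 1, 73⟩],
  [⟨false, false, 0, 1, 105⟩, ⟨true, true, 110, 110, 38⟩, ⟨false, true, 155, 156, 8⟩, ⟨true, false, 155, 156, 8⟩],
  [⟨true, true, 1, 1, 104⟩, ⟨false, true, 109, 110, 24⟩, ⟨true, false, 110, 111, 24⟩]⟩ = true := by
  decide +kernel

theorem c106 : chk ⟨36077, 3607, 206, 208, 81,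
  [⟨false, true, 1, 0, 81⟩, ⟨true, false, 1, 0, 81⟩],
  [⟨false, false, 1, 1, 109⟩, ⟨true, true, 116, 115, 40⟩, ⟨false, true, 163, 163, 9⟩, ⟨true, false, 163, 163, 9⟩],
  [⟨true, true, 1, 0, 110⟩, ⟨false, true, 115, 115, 21⟩, ⟨true, false, 116, 116, 21⟩],
  [⟨false, true, 0, 0, 83⟩, ⟨true, false, 1, 1, 83⟩],
  [⟨false, false, 0, 1, 110⟩, ⟨true, true, 116, 116, 40⟩, ⟨false, true, 162, 163, 28⟩, ⟨true, false, 163, 164, 27⟩, ⟨false, false, 199, 201, 8⟩],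
  [⟨true, true, 1, 1, 109⟩, ⟨false, true, 115, 116, 33⟩, ⟨true, false, 115, 116, 33⟩]⟩ = true := by
  decide +kernel

theorem c107 : chk ⟨39684, 3968, 182, 183, 85,
  [⟨false, true, 1, 0, 98⟩, ⟨true, false, 1, 0, 98⟩],
  [⟨false, false, 1, 1, 115⟩, ⟨true, true, 122, 121, 42⟩, ⟨false, true, 171, 171, 8⟩, ⟨true, false, 171, 171, 8⟩],
  [⟨true, true, 1, 0, 115⟩, ⟨false, true, 121, 121, 27⟩, ⟨true, false, 121, 121, 27⟩],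
  [⟨false, true, 0, 0, 88⟩, ⟨true, false, 1, 1, 88⟩],
  [⟨false, false, 0, 1, 115⟩, ⟨true, true, 121, 121, 42⟩, ⟨false, true, 170, 171, 12⟩, ⟨true, false, 171, 172, 12⟩],
  [⟨true, true, 1, 1, 115⟩, ⟨false, true, 120, 121, 28⟩, ⟨true, false, 121, 122, 28⟩]⟩ = true := by
  decide +kernel

theorem c108 : chk ⟨43652, 4365, 193, 193, 89,
  [⟨false, true, 1, 0, 84⟩, ⟨true, false, 1, 0, 84⟩],
  [⟨false, false, 1, 1, 120⟩, ⟨true, true, 128, 127, 44⟩, ⟨false, true, 179, 179, 14⟩, ⟨true, false, 180, 180, 14⟩],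
  [⟨true, true, 1, 0, 121⟩, ⟨false, true, 127, 127, 25⟩, ⟨true, false, 127, 127, 25⟩],
  [⟨false, true, 0, 0, 80⟩, ⟨true, false, 1, 1, 80⟩],
  [⟨false, false, 0, 1, 121⟩, ⟨true, true, 127, 127, 44⟩, ⟨false, true, 179, 180, 9⟩, ⟨true, false, 179, 180, 9⟩],
  [⟨true, true, 1, 1, 120⟩, ⟨false, true, 126, 127, 30⟩, ⟨true, false, 127, 128, 30⟩]⟩ = true := by
  decide +kernel

theorem c109 : chk ⟨48017, 4801, 191, 192, 94,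
  [⟨false, true, 1, 0, 102⟩, ⟨true, false, 1, 0, 102⟩],
  [⟨false, false, 1, 1, 126⟩, ⟨true, true, 134, 133, 46⟩, ⟨false, true, 188, 188, 4⟩, ⟨true, false, 188, 188, 4⟩],
  [⟨true, true, 1, 0, 127⟩, ⟨false, true, 133, 133, 28⟩, ⟨true, false, 134, 134, 28⟩],
  [⟨false, true, 0, 0, 90⟩, ⟨true, false, 1, 1, 90⟩],
  [⟨false, false, 0, 1, 127⟩, ⟨true, true, 133, 133, 46⟩, ⟨false, true, 187, 188, 4⟩, ⟨true, false, 188, 189, 4⟩],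
  [⟨true, true, 1, 1, 126⟩, ⟨false, true, 132, 133, 24⟩, ⟨true, false, 133, 134, 24⟩]⟩ = true := by
  decide +kernel

theorem c110 : chk ⟨52818, 5281, 167, 167, 98,
  [⟨false, true, 1, 0, 99⟩, ⟨true, false, 1, 0, 99⟩],
  [⟨false, false, 1, 1, 132⟩, ⟨true, true, 140, 139, 20⟩],
  [⟨true, true, 1, 0, 133⟩, ⟨false, true, 139, 139, 27⟩, ⟨true, false, 140, 140, 27⟩],
  [⟨false, true, 0, 0, 83⟩, ⟨true, false, 1, 1, 83⟩],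
  [⟨false, false, 0, 1, 133⟩, ⟨true, true, 140, 140, 28⟩],
  [⟨true, true, 1, 1, 132⟩, ⟨false, true, 139, 140, 22⟩, ⟨true, false, 139, 140, 22⟩]⟩ = true := by
  decide +kernel

theorem c111 : chk ⟨58099, 5809, 225, 227, 103,
  [⟨false, true, 1, 0, 110⟩, ⟨true, false, 1, 0, 110⟩],
  [⟨false, false, 1, 1, 139⟩, ⟨true, true, 147, 146, 34⟩],
  [⟨true, true, 1, 0, 139⟩, ⟨false, true, 146, 146, 51⟩, ⟨true, false, 147, 147, 51⟩, ⟨false, false, 206, 207, 16⟩],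
  [⟨false, true, 0, 0, 101⟩, ⟨true, false, 1, 1, 101⟩],
  [⟨false, false, 0, 1, 139⟩, ⟨true, true, 146, 146, 51⟩, ⟨false, true, 206, 207, 12⟩, ⟨true, false, 207, 208, 12⟩],
  [⟨true, true, 1, 1, 139⟩, ⟨false, true, 146, 147, 50⟩, ⟨true, false, 146, 147, 51⟩, ⟨false, false, 206, 208, 20⟩]⟩ = true := by
  decide +kernel

theorem c112 : chk ⟨63908, 6390, 221, 221, 108,
  [⟨false, true, 1, 0, 107⟩, ⟨true, false, 1, 0, 107⟩],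
  [⟨false, false, 1, 1, 145⟩, ⟨true, true, 154, 153, 53⟩, ⟨false, true, 217, 217, 5⟩, ⟨true, false, 217, 217, 5⟩],
  [⟨true, true, 1, 0, 146⟩, ⟨false, true, 153, 153, 26⟩, ⟨true, false, 154, 154, 26⟩],
  [⟨false, true, 0, 0, 97⟩, ⟨true, false, 1, 1, 97⟩],
  [⟨false, false, 0, 1, 146⟩, ⟨true, true, 154, 154, 47⟩],
  [⟨true, true, 1, 1, 145⟩, ⟨false, true, 153, 154, 18⟩, ⟨true, false, 153, 154, 18⟩]⟩ = true := by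
  decide +kernel

theorem c113 : chk ⟨70298, 7029, 245, 246, 113,
  [⟨false, true, 1, 0, 109⟩, ⟨true, false, 1, 0, 109⟩],
  [⟨false, false, 1, 1, 153⟩, ⟨true, true, 162, 161, 52⟩],
  [⟨true, true, 1, 0, 153⟩, ⟨false, true, 161, 161, 56⟩, ⟨true, false, 161, 161, 56⟩, ⟨false, false, 227, 228, 4⟩],
  [⟨false, true, 0, 0, 101⟩, ⟨true, false, 1, 1, 101⟩],
  [⟨false, false, 0, 1, 153⟩, ⟨true, true, 161, 161, 56⟩, ⟨false, true, 227, 228, 19⟩, ⟨true, false, 227, 228, 19⟩],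
  [⟨true, true, 1, 1, 153⟩, ⟨false, true, 160, 161, 34⟩, ⟨true, false, 161, 162, 34⟩]⟩ = true := by
  decide +kernel

theorem c114 : chk ⟨77327, 7732, 209, 208, 119,
  [⟨false, true, 1, 0, 100⟩, ⟨true, false, 1, 0, 100⟩],
  [⟨false, false, 1, 1, 160⟩, ⟨true, true, 169, 168, 41⟩],
  [⟨true, true, 1, 0, 161⟩, ⟨false, true, 169, 169, 16⟩, ⟨true, false, 169, 169, 16⟩],
  [⟨false, true, 0, 0, 101⟩, ⟨true, false, 1, 1, 101⟩],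
  [⟨false, false, 0, 1, 161⟩, ⟨true, true, 169, 169, 30⟩],
  [⟨true, true, 1, 1, 160⟩, ⟨false, true, 168, 169, 24⟩, ⟨true, false, 169, 170, 24⟩]⟩ = true := by
  decide +kernel

theorem c115 : chk ⟨85059, 8505, 227, 227, 125,
  [⟨false, true, 1, 0, 110⟩, ⟨true, false, 1, 0, 110⟩],
  [⟨false, false, 1, 1, 168⟩, ⟨true, true, 178, 177, 32⟩],
  [⟨true, true, 1, 0, 168⟩, ⟨false, true, 177, 177, 27⟩, ⟨true, false, 177, 177, 27⟩],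
  [⟨false, true, 0, 0, 117⟩, ⟨true, false, 1, 1, 117⟩],
  [⟨false, false, 0, 1, 168⟩, ⟨true, true, 177, 177, 51⟩],
  [⟨true, true, 1, 1, 168⟩, ⟨false, true, 176, 177, 45⟩, ⟨true, false, 177, 178, 45⟩]⟩ = true := by
  decide +kernel

theorem c116 : chk ⟨93564, 9356, 223, 222, 131,
  [⟨false, true, 1, 0, 104⟩, ⟨true, false, 1, 0, 104⟩],
  [⟨false, false, 1, 1, 176⟩, ⟨true, true, 186, 185, 38⟩],
  [⟨true, true, 1, 0, 177⟩, ⟨false, true, 185, 185, 25⟩, ⟨true, false, 186, 186, 25⟩],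
  [⟨false, true, 0, 0, 110⟩, ⟨true, false, 1, 1, 110⟩],
  [⟨false, false, 0, 1, 177⟩, ⟨true, true, 186, 186, 16⟩],
  [⟨true, true, 1, 1, 176⟩, ⟨false, true, 185, 186, 17⟩, ⟨true, false, 186, 187, 17⟩]⟩ = true := by
  decide +kernel

theorem c117 : chk ⟨102920, 10292, 236, 237, 137,
  [⟨false, true, 1, 0, 105⟩, ⟨true, false, 1, 0, 105⟩],
  [⟨false, false, 1, 1, 185⟩, ⟨true, true, 195, 194, 15⟩],
  [⟨true, true, 1, 0, 185⟩, ⟨false, true, 194, 194, 19⟩, ⟨true, false, 195, 195, 19⟩],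
  [⟨false, true, 0, 0, 95⟩, ⟨true, false, 1, 1, 95⟩],
  [⟨false, false, 0, 1, 185⟩, ⟨true, true, 195, 195, 33⟩],
  [⟨true, true, 1, 1, 185⟩, ⟨false, true, 194, 195, 42⟩, ⟨true, false, 195, 196, 42⟩]⟩ = true := by
  decide +kernel

theorem c118 : chk ⟨113212, 11321, 253, 252, 144,
  [⟨false, true, 1, 0, 116⟩, ⟨true, false, 1, 0, 116⟩],
  [⟨false, false, 1, 1, 194⟩, ⟨true, true, 205, 204, 49⟩],
  [⟨true, true, 1, 0, 194⟩, ⟨false, true, 204, 204, 11⟩, ⟨true, false, 205, 205, 11⟩],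
  [⟨false, true, 0, 0, 113⟩, ⟨true, false, 1, 1, 113⟩],
  [⟨false, false, 0, 1, 194⟩, ⟨true, true, 204, 204, 45⟩],
  [⟨true, true, 1, 1, 194⟩, ⟨false, true, 203, 204, 12⟩, ⟨true, false, 204, 205, 12⟩]⟩ = true := by
  decide +kernel

theorem c119 : chk ⟨124533, 12453, 332, 333, 151,
  [⟨false, true, 1, 0, 110⟩, ⟨true, false, 1, 0, 110⟩],
  [⟨false, false, 1, 1, 203⟩, ⟨true, true, 215, 214, 25⟩],
  [⟨true, true, 1, 0, 204⟩, ⟨false, true, 214, 214, 2⟩, ⟨true, false, 215, 215, 2⟩],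
  [⟨false, true, 0, 0, 103⟩, ⟨true, false, 1, 1, 103⟩],
  [⟨false, false, 0, 1, 204⟩, ⟨true, true, 214, 214, 75⟩, ⟨false, true, 302, 303, 30⟩, ⟨true, false, 303, 304, 30⟩],
  [⟨true, true, 1, 1, 203⟩, ⟨false, true, 213, 214, 15⟩, ⟨true, false, 214, 215, 15⟩]⟩ = true := by
  decide +kernel

theorem c120 : chk ⟨136986, 13698, 262, 262, 158,
  [⟨false, true, 1, 0, 142⟩, ⟨true, false, 1, 0, 142⟩],
  [⟨false, false, 1, 1, 213⟩, ⟨true, true, 225, 224, 9⟩],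
  [⟨true, true, 1, 0, 214⟩, ⟨false, true, 224, 224, 34⟩, ⟨true, false, 225, 225, 34⟩],
  [⟨false, true, 0, 0, 111⟩, ⟨true, false, 1, 1, 111⟩],
  [⟨false, false, 0, 1, 214⟩, ⟨true, true, 225, 225, 38⟩],
  [⟨true, true, 1, 1, 213⟩, ⟨false, true, 224, 225, 16⟩, ⟨true, false, 224, 225, 16⟩]⟩ = true := by
  decide +kernel

theorem c121 : chk ⟨150684, 15068, 272, 272, 166,
  [⟨false, true, 1, 0, 119⟩, ⟨true, false, 1, 0, 119⟩],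
  [⟨false, false, 1, 1, 224⟩, ⟨true, true, 236, 235, 23⟩],
  [⟨true, true, 1, 0, 224⟩, ⟨false, true, 235, 235, 2⟩, ⟨true, false, 236, 236, 2⟩],
  [⟨false, true, 0, 0, 112⟩, ⟨true, false, 1, 1, 112⟩],
  [⟨false, false, 0, 1, 224⟩, ⟨true, true, 236, 236, 37⟩],
  [⟨true, true, 1, 1, 224⟩, ⟨false, true, 235, 236, 14⟩, ⟨true, false, 235, 236, 14⟩]⟩ = true := by
  decide +kernel

theorem c122 : chk ⟨165752, 16575, 318, 317, 174,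
  [⟨false, true, 1, 0, 123⟩, ⟨true, false, 1, 0, 123⟩],
  [⟨false, false, 1, 1, 235⟩, ⟨true, true, 248, 247, 71⟩],
  [⟨true, true, 1, 0, 235⟩, ⟨false, true, 247, 247, 5⟩, ⟨true, false, 247, 247, 5⟩],
  [⟨false, true, 0, 0, 126⟩, ⟨true, false, 1, 1, 126⟩],
  [⟨false, false, 0, 1, 235⟩, ⟨true, true, 247, 247, 35⟩],
  [⟨true, true, 1, 1, 235⟩, ⟨false, true, 246, 247, 4⟩, ⟨true, false, 247, 248, 4⟩]⟩ = true := by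
  decide +kernel

theorem c123 : chk ⟨182327, 18232, 299, 299, 183,
  [⟨false, true, 1, 0, 130⟩, ⟨true, false, 1, 0, 130⟩],
  [⟨false, false, 1, 1, 245⟩],
  [⟨true, true, 1, 0, 247⟩, ⟨false, true, 259, 259, 34⟩, ⟨true, false, 259, 259, 34⟩],
  [⟨false, true, 0, 0, 124⟩, ⟨true, false, 1, 1, 124⟩],
  [⟨false, false, 0, 1, 247⟩, ⟨true, true, 259, 259, 41⟩],
  [⟨true, true, 1, 1, 246⟩, ⟨false, true, 258, 259, 8⟩, ⟨true, false, 259, 260, 8⟩]⟩ = true := by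
  decide +kernel

theorem c124 : chk ⟨200559, 20055, 282, 282, 192,
  [⟨false, true, 1, 0, 126⟩, ⟨true, false, 1, 0, 126⟩],
  [⟨false, false, 1, 1, 258⟩, ⟨true, true, 272, 271, 9⟩],
  [⟨true, true, 1, 0, 259⟩, ⟨false, true, 271, 271, 6⟩, ⟨true, false, 272, 272, 6⟩],
  [⟨false, true, 0, 0, 135⟩, ⟨true, false, 1, 1, 135⟩],
  [⟨false, false, 0, 1, 259⟩, ⟨true, true, 272, 272, 11⟩],
  [⟨true, true, 1, 1, 240⟩]⟩ = true := by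
  decide +kernel

theorem c125 : chk ⟨220614, 22061, 309, 308, 201,
  [⟨false, true, 1, 0, 125⟩, ⟨true, false, 1, 0, 125⟩],
  [⟨false, false, 1, 1, 271⟩, ⟨true, true, 285, 284, 25⟩],
  [⟨true, true, 1, 0, 271⟩, ⟨false, true, 285, 285, 3⟩, ⟨true, false, 285, 285, 3⟩],
  [⟨false, true, 0, 0, 125⟩, ⟨true, false, 1, 1, 125⟩],
  [⟨false, false, 0, 1, 271⟩, ⟨true, true, 285, 285, 4⟩],
  [⟨true, true, 1, 1, 271⟩]⟩ = true := by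
  decide +kernel

theorem c126 : chk ⟨242675, 24267, 276, 275, 211,
  [⟨false, true, 1, 0, 128⟩, ⟨true, false, 1, 0, 128⟩],
  [⟨false, false, 1, 1, 259⟩],
  [⟨true, true, 1, 0, 276⟩],
  [⟨false, true, 0, 0, 129⟩, ⟨true, false, 1, 1, 129⟩],
  [⟨false, false, 0, 1, 268⟩],
  [⟨true, true, 1, 1, 266⟩]⟩ = true := by
  decide +kernel

theorem c127 : chk ⟨266942, 26694, 318, 319, 221,
  [⟨false, true, 1, 0, 140⟩, ⟨true, false, 1, 0, 140⟩],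
  [⟨false, false, 1, 1, 298⟩, ⟨true, true, 314, 313, 2⟩],
  [⟨true, true, 1, 0, 264⟩],
  [⟨false, true, 0, 0, 142⟩, ⟨true, false, 1, 1, 142⟩],
  [⟨false, false, 0, 1, 296⟩],
  [⟨true, true, 1, 1, 298⟩, ⟨false, true, 313, 314, 6⟩, ⟨true, false, 313, 314, 6⟩]⟩ = true := by
  decide +kernel

theorem c128 : chk ⟨293636, 29363, 305, 305, 232,
  [⟨false, true, 1, 0, 146⟩, ⟨true, false, 1, 0, 146⟩],
  [⟨false, false, 1, 1, 305⟩],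
  [⟨true, true, 1, 0, 285⟩],
  [⟨false, true, 0, 0, 132⟩, ⟨true, false, 1, 1, 132⟩],
  [⟨false, false, 0, 1, 296⟩],
  [⟨true, true, 1, 1, 288⟩]⟩ = true := by
  decide +kernel

theorem c129 : chk ⟨322999, 32299, 359, 358, 243,
  [⟨false, true, 1, 0, 142⟩, ⟨true, false, 1, 0, 142⟩],
  [⟨false, false, 1, 1, 328⟩, ⟨true, true, 345, 344, 15⟩],
  [⟨true, true, 1, 0, 278⟩],
  [⟨false, true, 0, 0, 156⟩, ⟨true, false, 1, 1, 156⟩],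
  [⟨false, false, 0, 1, 288⟩],
  [⟨true, true, 1, 1, 311⟩]⟩ = true := by
  decide +kernel

theorem c130 : chk ⟨355298, 35529, 337, 338, 255,
  [⟨false, true, 1, 0, 148⟩, ⟨true, false, 1, 0, 148⟩],
  [⟨false, false, 1, 1, 285⟩],
  [⟨true, true, 1, 0, 273⟩],
  [⟨false, true, 0, 0, 134⟩, ⟨true, false, 1, 1, 134⟩],
  [⟨false, false, 0, 1, 338⟩],
  [⟨true, true, 1, 1, 269⟩]⟩ = true := by
  decide +kernel

theorem c131 : chk ⟨390827, 39082, 332, 333, 267,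
  [⟨false, true, 1, 0, 155⟩, ⟨true, false, 1, 0, 155⟩],
  [⟨false, false, 1, 1, 323⟩],
  [⟨true, true, 1, 0, 301⟩],
  [⟨false, true, 0, 0, 156⟩, ⟨true, false, 1, 1, 156⟩],
  [⟨false, false, 0, 1, 333⟩],
  [⟨true, true, 1, 1, 299⟩]⟩ = true := by
  decide +kernel

theorem c132 : chk ⟨429909, 42990, 458, 457, 281,
  [⟨false, true, 1, 0, 141⟩, ⟨true, false, 1, 0, 141⟩],
  [⟨false, false, 1, 1, 378⟩, ⟨true, true, 398, 397, 61⟩],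
  [⟨true, true, 1, 0, 318⟩],
  [⟨false, true, 0, 0, 148⟩, ⟨true, false, 1, 1, 148⟩],
  [⟨false, false, 0, 1, 291⟩],
  [⟨true, true, 1, 1, 323⟩]⟩ = true := by
  decide +kernel

theorem c133 : chk ⟨472899, 47289, 346, 346, 294,
  [⟨false, true, 1, 0, 153⟩, ⟨true, false, 1, 0, 153⟩],
  [⟨false, false, 1, 1, 346⟩],
  [⟨true, true, 1, 0, 297⟩],
  [⟨false, true, 0, 0, 153⟩, ⟨true, false, 1, 1, 153⟩],
  [⟨false, false, 0, 1, 313⟩],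
  [⟨true, true, 1, 1, 340⟩]⟩ = true := by
  decide +kernel

theorem c134 : chk ⟨520188, 52018, 351, 351, 309,
  [⟨false, true, 1, 0, 154⟩, ⟨true, false, 1, 0, 154⟩],
  [⟨false, false, 1, 1, 291⟩],
  [⟨true, true, 1, 0, 340⟩],
  [⟨false, true, 0, 0, 159⟩, ⟨true, false, 1, 1, 159⟩],
  [⟨false, false, 0, 1, 296⟩],
  [⟨true, true, 1, 1, 351⟩]⟩ = true := by
  decide +kernel

theorem c135 : chk ⟨572206, 57220, 351, 352, 324,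
  [⟨false, true, 1, 0, 166⟩, ⟨true, false, 1, 0, 166⟩],
  [⟨false, false, 1, 1, 311⟩],
  [⟨true, true, 1, 0, 335⟩],
  [⟨false, true, 0, 0, 164⟩, ⟨true, false, 1, 1, 164⟩],
  [⟨false, false, 0, 1, 352⟩],
  [⟨true, true, 1, 1, 350⟩]⟩ = true := by
  decide +kernel

theorem c136 : chk ⟨629426, 62942, 405, 405, 339,
  [⟨false, true, 1, 0, 160⟩, ⟨true, false, 1, 0, 160⟩],
  [⟨false, false, 1, 1, 345⟩],
  [⟨true, true, 1, 0, 388⟩],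
  [⟨false, true, 0, 0, 189⟩, ⟨true, false, 1, 1, 189⟩],
  [⟨false, false, 0, 1, 303⟩],
  [⟨true, true, 1, 1, 405⟩]⟩ = true := by
  decide +kernel

theorem c137 : chk ⟨692368, 69236, 370, 370, 356,
  [⟨false, true, 1, 0, 161⟩, ⟨true, false, 1, 0, 161⟩],
  [⟨false, false, 1, 1, 315⟩],
  [⟨true, true, 1, 0, 312⟩],
  [⟨false, true, 0, 0, 189⟩, ⟨true, false, 1, 1, 189⟩],
  [⟨false, false, 0, 1, 366⟩],
  [⟨true, true, 1, 1, 370⟩]⟩ = true := by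
  decide +kernel

theorem c138 : chk ⟨761604, 76160, 377, 377, 373,
  [⟨false, true, 1, 0, 156⟩, ⟨true, false, 1, 0, 156⟩],
  [⟨false, false, 1, 1, 341⟩],
  [⟨true, true, 1, 0, 346⟩],
  [⟨false, true, 0, 0, 178⟩, ⟨true, false, 1, 1, 178⟩],
  [⟨false, false, 0, 1, 354⟩],
  [⟨true, true, 1, 1, 377⟩]⟩ = true := by
  decide +kernel

theorem c139 : chk ⟨837764, 83776, 337, 338, 392,
  [⟨false, true, 1, 0, 207⟩, ⟨true, false, 1, 0, 207⟩],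
  [⟨false, false, 1, 1, 317⟩],
  [⟨true, true, 1, 0, 337⟩],
  [⟨false, true, 0, 0, 177⟩, ⟨true, false, 1, 1, 177⟩],
  [⟨false, false, 0, 1, 338⟩],
  [⟨true, true, 1, 1, 332⟩]⟩ = true := by
  decide +kernel

theorem c140 : chk ⟨921540, 92154, 379, 379, 411,
  [⟨false, true, 1, 0, 176⟩, ⟨true, false, 1, 0, 176⟩],
  [⟨false, false, 1, 1, 379⟩],
  [⟨true, true, 1, 0, 335⟩],
  [⟨false, true, 0, 0, 192⟩, ⟨true, false, 1, 1, 192⟩],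
  [⟨false, false, 0, 1, 351⟩],
  [⟨true, true, 1, 1, 348⟩]⟩ = true := by
  decide +kernel

theorem c141 : chk ⟨1013694, 101369, 402, 403, 431,
  [⟨false, true, 1, 0, 181⟩, ⟨true, false, 1, 0, 181⟩],
  [⟨false, false, 1, 1, 366⟩],
  [⟨true, true, 1, 0, 382⟩],
  [⟨false, true, 0, 0, 200⟩, ⟨true, false, 1, 1, 200⟩],
  [⟨false, false, 0, 1, 403⟩],
  [⟨true, true, 1, 1, 378⟩]⟩ = true := by
  decide +kernel

theorem c142 : chk ⟨1115063, 111506, 435, 435, 452,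
  [⟨false, true, 1, 0, 215⟩, ⟨true, false, 1, 0, 215⟩],
  [⟨false, false, 1, 1, 365⟩],
  [⟨true, true, 1, 0, 362⟩],
  [⟨false, true, 0, 0, 250⟩, ⟨true, false, 1, 1, 250⟩],
  [⟨false, false, 0, 1, 410⟩],
  [⟨true, true, 1, 1, 435⟩]⟩ = true := by
  decide +kernel

theorem c143 : chk ⟨1226569, 122656, 409, 409, 474,
  [⟨false, true, 1, 0, 193⟩, ⟨true, false, 1, 0, 193⟩],
  [⟨false, false, 1, 1, 396⟩],
  [⟨true, true, 1, 0, 364⟩],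
  [⟨false, true, 0, 0, 184⟩, ⟨true, false, 1, 1, 184⟩],
  [⟨false, false, 0, 1, 375⟩],
  [⟨true, true, 1, 1, 409⟩]⟩ = true := by
  decide +kernel

theorem c144 : chk ⟨1349225, 131072, 483, 483, 496,
  [⟨false, true, 1, 0, 206⟩, ⟨true, false, 1, 0, 206⟩],
  [⟨false, false, 1, 1, 370⟩],
  [⟨true, true, 1, 0, 415⟩],
  [⟨false, true, 0, 0, 206⟩, ⟨true, false, 1, 1, 206⟩],
  [⟨false, false, 0, 1, 416⟩],
  [⟨true, true, 1, 1, 483⟩]⟩ = true := by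
  decide +kernel

theorem c145 : chk ⟨1480297, 131072, 455, 455, 518,
  [⟨false, true, 1, 0, 186⟩, ⟨true, false, 1, 0, 186⟩],
  [⟨false, false, 1, 1, 397⟩],
  [⟨true, true, 1, 0, 392⟩],
  [⟨false, true, 0, 0, 202⟩, ⟨true, false, 1, 1, 202⟩],
  [⟨false, false, 0, 1, 394⟩],
  [⟨true, true, 1, 1, 455⟩]⟩ = true := by
  decide +kernel

theorem c146 : chk ⟨1611369, 131072, 413, 412, 539,
  [⟨false, true, 1, 0, 201⟩, ⟨true, false, 1, 0, 201⟩],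
  [⟨false, false, 1, 1, 403⟩],
  [⟨true, true, 1, 0, 413⟩],
  [⟨false, true, 0, 0, 199⟩, ⟨true, false, 1, 1, 199⟩],
  [⟨false, false, 0, 1, 400⟩],
  [⟨true, true, 1, 1, 399⟩]⟩ = true := by
  decide +kernel

theorem c147 : chk ⟨1742441, 131072, 493, 493, 559,
  [⟨false, true, 1, 0, 205⟩, ⟨true, false, 1, 0, 205⟩],
  [⟨false, false, 1, 1, 493⟩],
  [⟨true, true, 1, 0, 381⟩],
  [⟨false, true, 0, 0, 202⟩, ⟨true, false, 1, 1, 202⟩],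
  [⟨false, false, 0, 1, 383⟩],
  [⟨true, true, 1, 1, 392⟩]⟩ = true := by
  decide +kernel

theorem c148 : chk ⟨1873513, 131072, 474, 474, 578,
  [⟨false, true, 1, 0, 232⟩, ⟨true, false, 1, 0, 232⟩],
  [⟨false, false, 1, 1, 433⟩],
  [⟨true, true, 1, 0, 383⟩],
  [⟨false, true, 0, 0, 249⟩, ⟨true, false, 1, 1, 249⟩],
  [⟨false, false, 0, 1, 403⟩],
  [⟨true, true, 1, 1, 474⟩]⟩ = true := by
  decide +kernel

theorem c149 : chk ⟨2004585, 131072, 449, 449, 596,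
  [⟨false, true, 1, 0, 198⟩, ⟨true, false, 1, 0, 198⟩],
  [⟨false, false, 1, 1, 449⟩],
  [⟨true, true, 1, 0, 380⟩],
  [⟨false, true, 0, 0, 206⟩, ⟨true, false, 1, 1, 206⟩],
  [⟨false, false, 0, 1, 408⟩],
  [⟨true, true, 1, 1, 434⟩]⟩ = true := by
  decide +kernel

theorem part00 (N : ℕ) (h1 : 600 ≤ N) (h2 : N < 12813942) : 2 ≤ (CycI (N - 1)).card := by
  rcases lt_or_ge N 612 with h | h
  · exact chk_use _ c0 600 612 rfl rfl N (by omega) h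
  rcases lt_or_ge N 672 with h | h
  · exact chk_use _ c1 612 672 rfl rfl N (by omega) h
  rcases lt_or_ge N 702 with h | h
  · exact chk_use _ c2 672 702 rfl rfl N (by omega) h
  rcases lt_or_ge N 714 with h | h
  · exact chk_use _ c3 702 714 rfl rfl N (by omega) h
  rcases lt_or_ge N 744 with h | h
  · exact chk_use _ c4 714 744 rfl rfl N (by omega) h
  rcases lt_or_ge N 780 with h | h
  · exact chk_use _ c5 744 780 rfl rfl N (by omega) h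
  rcases lt_or_ge N 816 with h | h
  · exact chk_use _ c6 780 816 rfl rfl N (by omega) h
  rcases lt_or_ge N 852 with h | h
  · exact chk_use _ c7 816 852 rfl rfl N (by omega) h
  rcases lt_or_ge N 870 with h | h
  · exact chk_use _ c8 852 870 rfl rfl N (by omega) h
  rcases lt_or_ge N 888 with h | h
  · exact chk_use _ c9 870 888 rfl rfl N (by omega) h
  rcases lt_or_ge N 930 with h | h
  · exact chk_use _ c10 888 930 rfl rfl N (by omega) h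
  rcases lt_or_ge N 948 with h | h
  · exact chk_use _ c11 930 948 rfl rfl N (by omega) h
  rcases lt_or_ge N 990 with h | h
  · exact chk_use _ c12 948 990 rfl rfl N (by omega) h
  rcases lt_or_ge N 1002 with h | h
  · exact chk_use _ c13 990 1002 rfl rfl N (by omega) h
  rcases lt_or_ge N 1050 with h | h
  · exact chk_use _ c14 1002 1050 rfl rfl N (by omega) h
  rcases lt_or_ge N 1098 with h | h
  · exact chk_use _ c15 1050 1098 rfl rfl N (by omega) h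
  rcases lt_or_ge N 1152 with h | h
  · exact chk_use _ c16 1098 1152 rfl rfl N (by omega) h
  rcases lt_or_ge N 1176 with h | h
  · exact chk_use _ c17 1152 1176 rfl rfl N (by omega) h
  rcases lt_or_ge N 1230 with h | h
  · exact chk_use _ c18 1176 1230 rfl rfl N (by omega) h
  rcases lt_or_ge N 1260 with h | h
  · exact chk_use _ c19 1230 1260 rfl rfl N (by omega) h
  rcases lt_or_ge N 1320 with h | h
  · exact chk_use _ c20 1260 1320 rfl rfl N (by omega) h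
  rcases lt_or_ge N 1386 with h | h
  · exact chk_use _ c21 1320 1386 rfl rfl N (by omega) h
  rcases lt_or_ge N 1452 with h | h
  · exact chk_use _ c22 1386 1452 rfl rfl N (by omega) h
  rcases lt_or_ge N 1524 with h | h
  · exact chk_use _ c23 1452 1524 rfl rfl N (by omega) h
  rcases lt_or_ge N 1596 with h | h
  · exact chk_use _ c24 1524 1596 rfl rfl N (by omega) h
  rcases lt_or_ge N 1632 with h | h
  · exact chk_use _ c25 1596 1632 rfl rfl N (by omega) h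
  rcases lt_or_ge N 1710 with h | h
  · exact chk_use _ c26 1632 1710 rfl rfl N (by omega) h
  rcases lt_or_ge N 1794 with h | h
  · exact chk_use _ c27 1710 1794 rfl rfl N (by omega) h
  rcases lt_or_ge N 1878 with h | h
  · exact chk_use _ c28 1794 1878 rfl rfl N (by omega) h
  rcases lt_or_ge N 1968 with h | h
  · exact chk_use _ c29 1878 1968 rfl rfl N (by omega) h
  rcases lt_or_ge N 2064 with h | h
  · exact chk_use _ c30 1968 2064 rfl rfl N (by omega) h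
  rcases lt_or_ge N 2112 with h | h
  · exact chk_use _ c31 2064 2112 rfl rfl N (by omega) h
  rcases lt_or_ge N 2214 with h | h
  · exact chk_use _ c32 2112 2214 rfl rfl N (by omega) h
  rcases lt_or_ge N 2322 with h | h
  · exact chk_use _ c33 2214 2322 rfl rfl N (by omega) h
  rcases lt_or_ge N 2436 with h | h
  · exact chk_use _ c34 2322 2436 rfl rfl N (by omega) h
  rcases lt_or_ge N 2556 with h | h
  · exact chk_use _ c35 2436 2556 rfl rfl N (by omega) h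
  rcases lt_or_ge N 2682 with h | h
  · exact chk_use _ c36 2556 2682 rfl rfl N (by omega) h
  rcases lt_or_ge N 2814 with h | h
  · exact chk_use _ c37 2682 2814 rfl rfl N (by omega) h
  rcases lt_or_ge N 2952 with h | h
  · exact chk_use _ c38 2814 2952 rfl rfl N (by omega) h
  rcases lt_or_ge N 3096 with h | h
  · exact chk_use _ c39 2952 3096 rfl rfl N (by omega) h
  rcases lt_or_ge N 3168 with h | h
  · exact chk_use _ c40 3096 3168 rfl rfl N (by omega) h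
  rcases lt_or_ge N 3324 with h | h
  · exact chk_use _ c41 3168 3324 rfl rfl N (by omega) h
  rcases lt_or_ge N 3486 with h | h
  · exact chk_use _ c42 3324 3486 rfl rfl N (by omega) h
  rcases lt_or_ge N 3660 with h | h
  · exact chk_use _ c43 3486 3660 rfl rfl N (by omega) h
  rcases lt_or_ge N 3840 with h | h
  · exact chk_use _ c44 3660 3840 rfl rfl N (by omega) h
  rcases lt_or_ge N 4032 with h | h
  · exact chk_use _ c45 3840 4032 rfl rfl N (by omega) h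
  rcases lt_or_ge N 4230 with h | h
  · exact chk_use _ c46 4032 4230 rfl rfl N (by omega) h
  rcases lt_or_ge N 4440 with h | h
  · exact chk_use _ c47 4230 4440 rfl rfl N (by omega) h
  rcases lt_or_ge N 4662 with h | h
  · exact chk_use _ c48 4440 4662 rfl rfl N (by omega) h
  rcases lt_or_ge N 4890 with h | h
  · exact chk_use _ c49 4662 4890 rfl rfl N (by omega) h
  rcases lt_or_ge N 5010 with h | h
  · exact chk_use _ c50 4890 5010 rfl rfl N (by omega) h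
  rcases lt_or_ge N 5256 with h | h
  · exact chk_use _ c51 5010 5256 rfl rfl N (by omega) h
  rcases lt_or_ge N 5382 with h | h
  · exact chk_use _ c52 5256 5382 rfl rfl N (by omega) h
  rcases lt_or_ge N 5646 with h | h
  · exact chk_use _ c53 5382 5646 rfl rfl N (by omega) h
  rcases lt_or_ge N 5928 with h | h
  · exact chk_use _ c54 5646 5928 rfl rfl N (by omega) h
  rcases lt_or_ge N 6222 with h | h
  · exact chk_use _ c55 5928 6222 rfl rfl N (by omega) h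
  rcases lt_or_ge N 6528 with h | h
  · exact chk_use _ c56 6222 6528 rfl rfl N (by omega) h
  rcases lt_or_ge N 6852 with h | h
  · exact chk_use _ c57 6528 6852 rfl rfl N (by omega) h
  rcases lt_or_ge N 7194 with h | h
  · exact chk_use _ c58 6852 7194 rfl rfl N (by omega) h
  rcases lt_or_ge N 7548 with h | h
  · exact chk_use _ c59 7194 7548 rfl rfl N (by omega) h
  rcases lt_or_ge N 7920 with h | h
  · exact chk_use _ c60 7548 7920 rfl rfl N (by omega) h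
  rcases lt_or_ge N 8316 with h | h
  · exact chk_use _ c61 7920 8316 rfl rfl N (by omega) h
  rcases lt_or_ge N 9144 with h | h
  · exact chk_use _ c62 8316 9144 rfl rfl N (by omega) h
  rcases lt_or_ge N 9600 with h | h
  · exact chk_use _ c63 9144 9600 rfl rfl N (by omega) h
  rcases lt_or_ge N 10080 with h | h
  · exact chk_use _ c64 9600 10080 rfl rfl N (by omega) h
  rcases lt_or_ge N 10584 with h | h
  · exact chk_use _ c65 10080 10584 rfl rfl N (by omega) h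
  rcases lt_or_ge N 11112 with h | h
  · exact chk_use _ c66 10584 11112 rfl rfl N (by omega) h
  rcases lt_or_ge N 11664 with h | h
  · exact chk_use _ c67 11112 11664 rfl rfl N (by omega) h
  rcases lt_or_ge N 12246 with h | h
  · exact chk_use _ c68 11664 12246 rfl rfl N (by omega) h
  rcases lt_or_ge N 12858 with h | h
  · exact chk_use _ c69 12246 12858 rfl rfl N (by omega) h
  rcases lt_or_ge N 13500 with h | h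
  · exact chk_use _ c70 12858 13500 rfl rfl N (by omega) h
  rcases lt_or_ge N 14172 with h | h
  · exact chk_use _ c71 13500 14172 rfl rfl N (by omega) h
  rcases lt_or_ge N 15588 with h | h
  · exact chk_use _ c72 14172 15588 rfl rfl N (by omega) h
  rcases lt_or_ge N 16362 with h | h
  · exact chk_use _ c73 15588 16362 rfl rfl N (by omega) h
  rcases lt_or_ge N 17178 with h | h
  · exact chk_use _ c74 16362 17178 rfl rfl N (by omega) h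
  rcases lt_or_ge N 18036 with h | h
  · exact chk_use _ c75 17178 18036 rfl rfl N (by omega) h
  rcases lt_or_ge N 18936 with h | h
  · exact chk_use _ c76 18036 18936 rfl rfl N (by omega) h
  rcases lt_or_ge N 19878 with h | h
  · exact chk_use _ c77 18936 19878 rfl rfl N (by omega) h
  rcases lt_or_ge N 20868 with h | h
  · exact chk_use _ c78 19878 20868 rfl rfl N (by omega) h
  rcases lt_or_ge N 21906 with h | h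
  · exact chk_use _ c79 20868 21906 rfl rfl N (by omega) h
  rcases lt_or_ge N 22998 with h | h
  · exact chk_use _ c80 21906 22998 rfl rfl N (by omega) h
  rcases lt_or_ge N 25296 with h | h
  · exact chk_use _ c81 22998 25296 rfl rfl N (by omega) h
  rcases lt_or_ge N 26556 with h | h
  · exact chk_use _ c82 25296 26556 rfl rfl N (by omega) h
  rcases lt_or_ge N 27882 with h | h
  · exact chk_use _ c83 26556 27882 rfl rfl N (by omega) h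
  rcases lt_or_ge N 29274 with h | h
  · exact chk_use _ c84 27882 29274 rfl rfl N (by omega) h
  rcases lt_or_ge N 32196 with h | h
  · exact chk_use _ c85 29274 32196 rfl rfl N (by omega) h
  rcases lt_or_ge N 35412 with h | h
  · exact chk_use _ c86 32196 35412 rfl rfl N (by omega) h
  rcases lt_or_ge N 38952 with h | h
  · exact chk_use _ c87 35412 38952 rfl rfl N (by omega) h
  rcases lt_or_ge N 42846 with h | h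
  · exact chk_use _ c88 38952 42846 rfl rfl N (by omega) h
  rcases lt_or_ge N 47130 with h | h
  · exact chk_use _ c89 42846 47130 rfl rfl N (by omega) h
  rcases lt_or_ge N 51840 with h | h
  · exact chk_use _ c90 47130 51840 rfl rfl N (by omega) h
  rcases lt_or_ge N 57024 with h | h
  · exact chk_use _ c91 51840 57024 rfl rfl N (by omega) h
  rcases lt_or_ge N 62724 with h | h
  · exact chk_use _ c92 57024 62724 rfl rfl N (by omega) h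
  rcases lt_or_ge N 68994 with h | h
  · exact chk_use _ c93 62724 68994 rfl rfl N (by omega) h
  rcases lt_or_ge N 75888 with h | h
  · exact chk_use _ c94 68994 75888 rfl rfl N (by omega) h
  rcases lt_or_ge N 83472 with h | h
  · exact chk_use _ c95 75888 83472 rfl rfl N (by omega) h
  rcases lt_or_ge N 91818 with h | h
  · exact chk_use _ c96 83472 91818 rfl rfl N (by omega) h
  rcases lt_or_ge N 100998 with h | h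
  · exact chk_use _ c97 91818 100998 rfl rfl N (by omega) h
  rcases lt_or_ge N 111096 with h | h
  · exact chk_use _ c98 100998 111096 rfl rfl N (by omega) h
  rcases lt_or_ge N 122202 with h | h
  · exact chk_use _ c99 111096 122202 rfl rfl N (by omega) h
  rcases lt_or_ge N 134418 with h | h
  · exact chk_use _ c100 122202 134418 rfl rfl N (by omega) h
  rcases lt_or_ge N 147858 with h | h
  · exact chk_use _ c101 134418 147858 rfl rfl N (by omega) h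
  rcases lt_or_ge N 162642 with h | h
  · exact chk_use _ c102 147858 162642 rfl rfl N (by omega) h
  rcases lt_or_ge N 178902 with h | h
  · exact chk_use _ c103 162642 178902 rfl rfl N (by omega) h
  rcases lt_or_ge N 196788 with h | h
  · exact chk_use _ c104 178902 196788 rfl rfl N (by omega) h
  rcases lt_or_ge N 216462 with h | h
  · exact chk_use _ c105 196788 216462 rfl rfl N (by omega) h
  rcases lt_or_ge N 238104 with h | h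
  · exact chk_use _ c106 216462 238104 rfl rfl N (by omega) h
  rcases lt_or_ge N 261912 with h | h
  · exact chk_use _ c107 238104 261912 rfl rfl N (by omega) h
  rcases lt_or_ge N 288102 with h | h
  · exact chk_use _ c108 261912 288102 rfl rfl N (by omega) h
  rcases lt_or_ge N 316908 with h | h
  · exact chk_use _ c109 288102 316908 rfl rfl N (by omega) h
  rcases lt_or_ge N 348594 with h | h
  · exact chk_use _ c110 316908 348594 rfl rfl N (by omega) h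
  rcases lt_or_ge N 383448 with h | h
  · exact chk_use _ c111 348594 383448 rfl rfl N (by omega) h
  rcases lt_or_ge N 421788 with h | h
  · exact chk_use _ c112 383448 421788 rfl rfl N (by omega) h
  rcases lt_or_ge N 463962 with h | h
  · exact chk_use _ c113 421788 463962 rfl rfl N (by omega) h
  rcases lt_or_ge N 510354 with h | h
  · exact chk_use _ c114 463962 510354 rfl rfl N (by omega) h
  rcases lt_or_ge N 561384 with h | h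
  · exact chk_use _ c115 510354 561384 rfl rfl N (by omega) h
  rcases lt_or_ge N 617520 with h | h
  · exact chk_use _ c116 561384 617520 rfl rfl N (by omega) h
  rcases lt_or_ge N 679272 with h | h
  · exact chk_use _ c117 617520 679272 rfl rfl N (by omega) h
  rcases lt_or_ge N 747198 with h | h
  · exact chk_use _ c118 679272 747198 rfl rfl N (by omega) h
  rcases lt_or_ge N 821916 with h | h
  · exact chk_use _ c119 747198 821916 rfl rfl N (by omega) h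
  rcases lt_or_ge N 904104 with h | h
  · exact chk_use _ c120 821916 904104 rfl rfl N (by omega) h
  rcases lt_or_ge N 994512 with h | h
  · exact chk_use _ c121 904104 994512 rfl rfl N (by omega) h
  rcases lt_or_ge N 1093962 with h | h
  · exact chk_use _ c122 994512 1093962 rfl rfl N (by omega) h
  rcases lt_or_ge N 1203354 with h | h
  · exact chk_use _ c123 1093962 1203354 rfl rfl N (by omega) h
  rcases lt_or_ge N 1323684 with h | h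
  · exact chk_use _ c124 1203354 1323684 rfl rfl N (by omega) h
  rcases lt_or_ge N 1456050 with h | h
  · exact chk_use _ c125 1323684 1456050 rfl rfl N (by omega) h
  rcases lt_or_ge N 1601652 with h | h
  · exact chk_use _ c126 1456050 1601652 rfl rfl N (by omega) h
  rcases lt_or_ge N 1761816 with h | h
  · exact chk_use _ c127 1601652 1761816 rfl rfl N (by omega) h
  rcases lt_or_ge N 1937994 with h | h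
  · exact chk_use _ c128 1761816 1937994 rfl rfl N (by omega) h
  rcases lt_or_ge N 2131788 with h | h
  · exact chk_use _ c129 1937994 2131788 rfl rfl N (by omega) h
  rcases lt_or_ge N 2344962 with h | h
  · exact chk_use _ c130 2131788 2344962 rfl rfl N (by omega) h
  rcases lt_or_ge N 2579454 with h | h
  · exact chk_use _ c131 2344962 2579454 rfl rfl N (by omega) h
  rcases lt_or_ge N 2837394 with h | h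
  · exact chk_use _ c132 2579454 2837394 rfl rfl N (by omega) h
  rcases lt_or_ge N 3121128 with h | h
  · exact chk_use _ c133 2837394 3121128 rfl rfl N (by omega) h
  rcases lt_or_ge N 3433236 with h | h
  · exact chk_use _ c134 3121128 3433236 rfl rfl N (by omega) h
  rcases lt_or_ge N 3776556 with h | h
  · exact chk_use _ c135 3433236 3776556 rfl rfl N (by omega) h
  rcases lt_or_ge N 4154208 with h | h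
  · exact chk_use _ c136 3776556 4154208 rfl rfl N (by omega) h
  rcases lt_or_ge N 4569624 with h | h
  · exact chk_use _ c137 4154208 4569624 rfl rfl N (by omega) h
  rcases lt_or_ge N 5026584 with h | h
  · exact chk_use _ c138 4569624 5026584 rfl rfl N (by omega) h
  rcases lt_or_ge N 5529240 with h | h
  · exact chk_use _ c139 5026584 5529240 rfl rfl N (by omega) h
  rcases lt_or_ge N 6082164 with h | h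
  · exact chk_use _ c140 5529240 6082164 rfl rfl N (by omega) h
  rcases lt_or_ge N 6690378 with h | h
  · exact chk_use _ c141 6082164 6690378 rfl rfl N (by omega) h
  rcases lt_or_ge N 7359414 with h | h
  · exact chk_use _ c142 6690378 7359414 rfl rfl N (by omega) h
  rcases lt_or_ge N 8095350 with h | h
  · exact chk_use _ c143 7359414 8095350 rfl rfl N (by omega) h
  rcases lt_or_ge N 8881782 with h | h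
  · exact chk_use _ c144 8095350 8881782 rfl rfl N (by omega) h
  rcases lt_or_ge N 9668214 with h | h
  · exact chk_use _ c145 8881782 9668214 rfl rfl N (by omega) h
  rcases lt_or_ge N 10454646 with h | h
  · exact chk_use _ c146 9668214 10454646 rfl rfl N (by omega) h
  rcases lt_or_ge N 11241078 with h | h
  · exact chk_use _ c147 10454646 11241078 rfl rfl N (by omega) h
  rcases lt_or_ge N 12027510 with h | h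
  · exact chk_use _ c148 11241078 12027510 rfl rfl N (by omega) h
  exact chk_use _ c149 12027510 12813942 rfl rfl N (by omega) h2

end Pool.Agent.Helper83.CY.Ker
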