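import Pool.Agent.Helper83.CY.KerC00

/-! Kernel computation, part 1: the blocks with `12813942 ≤ N < 23823990`. -/

set_option autoImplicit false

namespace Pool.Agent.Helper83.CY.Ker

theorem c150 : chk ⟨2135657, 131072, 462, 462, 614,
  [⟨false, true, 1, 0, 204⟩, ⟨true, false, 1, 0, 204⟩],
  [⟨false, false, 1, 1, 462⟩],
  [⟨true, true, 1, 0, 403⟩],
  [⟨false, true, 0, 0, 203⟩, ⟨true, false, 1, 1, 203⟩],
  [⟨false, false, 0, 1, 394⟩],
  [⟨true, true, 1, 1, 455⟩]⟩ = true := by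
  decide +kernel

theorem c151 : chk ⟨2266729, 131072, 468, 469, 632,
  [⟨false, true, 1, 0, 232⟩, ⟨true, false, 1, 0, 232⟩],
  [⟨false, false, 1, 1, 405⟩],
  [⟨true, true, 1, 0, 403⟩],
  [⟨false, true, 0, 0, 257⟩, ⟨true, false, 1, 1, 257⟩],
  [⟨false, false, 0, 1, 469⟩],
  [⟨true, true, 1, 1, 418⟩]⟩ = true := by
  decide +kernel

theorem c152 : chk ⟨2397801, 131072, 457, 458, 649,
  [⟨false, true, 1, 0, 212⟩, ⟨true, false, 1, 0, 212⟩],
  [⟨false, false, 1, 1, 435⟩],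
  [⟨true, true, 1, 0, 397⟩],
  [⟨false, true, 0, 0, 192⟩, ⟨true, false, 1, 1, 192⟩],
  [⟨false, false, 0, 1, 458⟩],
  [⟨true, true, 1, 1, 398⟩]⟩ = true := by
  decide +kernel

theorem c153 : chk ⟨2528873, 131072, 500, 500, 666,
  [⟨false, true, 1, 0, 245⟩, ⟨true, false, 1, 0, 245⟩],
  [⟨false, false, 1, 1, 427⟩],
  [⟨true, true, 1, 0, 433⟩],
  [⟨false, true, 0, 0, 210⟩, ⟨true, false, 1, 1, 210⟩],
  [⟨false, false, 0, 1, 385⟩],
  [⟨true, true, 1, 1, 500⟩]⟩ = true := by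
  decide +kernel

theorem c154 : chk ⟨2659945, 131072, 458, 458, 682,
  [⟨false, true, 1, 0, 206⟩, ⟨true, false, 1, 0, 206⟩],
  [⟨false, false, 1, 1, 420⟩],
  [⟨true, true, 1, 0, 450⟩],
  [⟨false, true, 0, 0, 236⟩, ⟨true, false, 1, 1, 236⟩],
  [⟨false, false, 0, 1, 433⟩],
  [⟨true, true, 1, 1, 458⟩]⟩ = true := by
  decide +kernel

theorem c155 : chk ⟨2791017, 131072, 495, 496, 698,
  [⟨false, true, 1, 0, 220⟩, ⟨true, false, 1, 0, 220⟩],
  [⟨false, false, 1, 1, 447⟩],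
  [⟨true, true, 1, 0, 413⟩],
  [⟨false, true, 0, 0, 226⟩, ⟨true, false, 1, 1, 226⟩],
  [⟨false, false, 0, 1, 496⟩],
  [⟨true, true, 1, 1, 493⟩]⟩ = true := by
  decide +kernel

theorem c156 : chk ⟨2922089, 131072, 443, 443, 713,
  [⟨false, true, 1, 0, 223⟩, ⟨true, false, 1, 0, 223⟩],
  [⟨false, false, 1, 1, 435⟩],
  [⟨true, true, 1, 0, 398⟩],
  [⟨false, true, 0, 0, 248⟩, ⟨true, false, 1, 1, 248⟩],
  [⟨false, false, 0, 1, 435⟩],
  [⟨true, true, 1, 1, 443⟩]⟩ = true := by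
  decide +kernel

theorem c157 : chk ⟨3053161, 131072, 503, 503, 728,
  [⟨false, true, 1, 0, 217⟩, ⟨true, false, 1, 0, 217⟩],
  [⟨false, false, 1, 1, 503⟩],
  [⟨true, true, 1, 0, 415⟩],
  [⟨false, true, 0, 0, 269⟩, ⟨true, false, 1, 1, 269⟩],
  [⟨false, false, 0, 1, 431⟩],
  [⟨true, true, 1, 1, 437⟩]⟩ = true := by
  decide +kernel

theorem c158 : chk ⟨3184233, 131072, 487, 488, 743,
  [⟨false, true, 1, 0, 229⟩, ⟨true, false, 1, 0, 229⟩],
  [⟨false, false, 1, 1, 448⟩],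
  [⟨true, true, 1, 0, 448⟩],
  [⟨false, true, 0, 0, 218⟩, ⟨true, false, 1, 1, 218⟩],
  [⟨false, false, 0, 1, 488⟩],
  [⟨true, true, 1, 1, 472⟩]⟩ = true := by
  decide +kernel

theorem c159 : chk ⟨3315305, 131072, 463, 464, 758,
  [⟨false, true, 1, 0, 200⟩, ⟨true, false, 1, 0, 200⟩],
  [⟨false, false, 1, 1, 418⟩],
  [⟨true, true, 1, 0, 424⟩],
  [⟨false, true, 0, 0, 215⟩, ⟨true, false, 1, 1, 215⟩],
  [⟨false, false, 0, 1, 464⟩],
  [⟨true, true, 1, 1, 405⟩]⟩ = true := by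
  decide +kernel

theorem c160 : chk ⟨3446377, 131072, 477, 478, 772,
  [⟨false, true, 1, 0, 233⟩, ⟨true, false, 1, 0, 233⟩],
  [⟨false, false, 1, 1, 472⟩],
  [⟨true, true, 1, 0, 405⟩],
  [⟨false, true, 0, 0, 268⟩, ⟨true, false, 1, 1, 268⟩],
  [⟨false, false, 0, 1, 478⟩],
  [⟨true, true, 1, 1, 425⟩]⟩ = true := by
  decide +kernel

theorem c161 : chk ⟨3577449, 131072, 467, 467, 786,
  [⟨false, true, 1, 0, 214⟩, ⟨true, false, 1, 0, 214⟩],
  [⟨false, false, 1, 1, 467⟩],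
  [⟨true, true, 1, 0, 411⟩],
  [⟨false, true, 0, 0, 232⟩, ⟨true, false, 1, 1, 232⟩],
  [⟨false, false, 0, 1, 431⟩],
  [⟨true, true, 1, 1, 465⟩]⟩ = true := by
  decide +kernel

theorem c162 : chk ⟨3708521, 131072, 439, 440, 800,
  [⟨false, true, 1, 0, 250⟩, ⟨true, false, 1, 0, 250⟩],
  [⟨false, false, 1, 1, 435⟩],
  [⟨true, true, 1, 0, 431⟩],
  [⟨false, true, 0, 0, 215⟩, ⟨true, false, 1, 1, 215⟩],
  [⟨false, false, 0, 1, 440⟩],
  [⟨true, true, 1, 1, 421⟩]⟩ = true := by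
  decide +kernel

theorem c163 : chk ⟨3839593, 131072, 513, 512, 813,
  [⟨false, true, 1, 0, 242⟩, ⟨true, false, 1, 0, 242⟩],
  [⟨false, false, 1, 1, 431⟩],
  [⟨true, true, 1, 0, 513⟩],
  [⟨false, true, 0, 0, 224⟩, ⟨true, false, 1, 1, 224⟩],
  [⟨false, false, 0, 1, 464⟩],
  [⟨true, true, 1, 1, 440⟩]⟩ = true := by
  decide +kernel

theorem part01 (N : ℕ) (h1 : 12813942 ≤ N) (h2 : N < 23823990) : 2 ≤ (CycI (N - 1)).card := by
  rcases lt_or_ge N 13600374 with h | h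
  · exact chk_use _ c150 12813942 13600374 rfl rfl N (by omega) h
  rcases lt_or_ge N 14386806 with h | h
  · exact chk_use _ c151 13600374 14386806 rfl rfl N (by omega) h
  rcases lt_or_ge N 15173238 with h | h
  · exact chk_use _ c152 14386806 15173238 rfl rfl N (by omega) h
  rcases lt_or_ge N 15959670 with h | h
  · exact chk_use _ c153 15173238 15959670 rfl rfl N (by omega) h
  rcases lt_or_ge N 16746102 with h | h
  · exact chk_use _ c154 15959670 16746102 rfl rfl N (by omega) h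
  rcases lt_or_ge N 17532534 with h | h
  · exact chk_use _ c155 16746102 17532534 rfl rfl N (by omega) h
  rcases lt_or_ge N 18318966 with h | h
  · exact chk_use _ c156 17532534 18318966 rfl rfl N (by omega) h
  rcases lt_or_ge N 19105398 with h | h
  · exact chk_use _ c157 18318966 19105398 rfl rfl N (by omega) h
  rcases lt_or_ge N 19891830 with h | h
  · exact chk_use _ c158 19105398 19891830 rfl rfl N (by omega) h
  rcases lt_or_ge N 20678262 with h | h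
  · exact chk_use _ c159 19891830 20678262 rfl rfl N (by omega) h
  rcases lt_or_ge N 21464694 with h | h
  · exact chk_use _ c160 20678262 21464694 rfl rfl N (by omega) h
  rcases lt_or_ge N 22251126 with h | h
  · exact chk_use _ c161 21464694 22251126 rfl rfl N (by omega) h
  rcases lt_or_ge N 23037558 with h | h
  · exact chk_use _ c162 22251126 23037558 rfl rfl N (by omega) h
  exact chk_use _ c163 23037558 23823990 rfl rfl N (by omega) h2

end Pool.Agent.Helper83.CY.Ker
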