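import Pool.Agent.Helper83.CY.KerC01

/-! Kernel computation, part 2: the blocks with `23823990 ≤ N < 33261174`. -/

set_option autoImplicit false

namespace Pool.Agent.Helper83.CY.Ker

theorem c164 : chk ⟨3970665, 131072, 482, 483, 827,
  [⟨false, true, 1, 0, 242⟩, ⟨true, false, 1, 0, 242⟩],
  [⟨false, false, 1, 1, 475⟩],
  [⟨true, true, 1, 0, 465⟩],
  [⟨false, true, 0, 0, 233⟩, ⟨true, false, 1, 1, 233⟩],
  [⟨false, false, 0, 1, 483⟩],
  [⟨true, true, 1, 1, 445⟩]⟩ = true := by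
  decide +kernel

theorem c165 : chk ⟨4101737, 131072, 490, 490, 840,
  [⟨false, true, 1, 0, 281⟩, ⟨true, false, 1, 0, 281⟩],
  [⟨false, false, 1, 1, 490⟩],
  [⟨true, true, 1, 0, 475⟩],
  [⟨false, true, 0, 0, 237⟩, ⟨true, false, 1, 1, 237⟩],
  [⟨false, false, 0, 1, 400⟩],
  [⟨true, true, 1, 1, 439⟩]⟩ = true := by
  decide +kernel

theorem c166 : chk ⟨4232809, 131072, 480, 480, 853,
  [⟨false, true, 1, 0, 239⟩, ⟨true, false, 1, 0, 239⟩],
  [⟨false, false, 1, 1, 480⟩],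
  [⟨true, true, 1, 0, 452⟩],
  [⟨false, true, 0, 0, 238⟩, ⟨true, false, 1, 1, 238⟩],
  [⟨false, false, 0, 1, 419⟩],
  [⟨true, true, 1, 1, 462⟩]⟩ = true := by
  decide +kernel

theorem c167 : chk ⟨4363881, 131072, 634, 634, 865,
  [⟨false, true, 1, 0, 248⟩, ⟨true, false, 1, 0, 248⟩],
  [⟨false, false, 1, 1, 634⟩],
  [⟨true, true, 1, 0, 468⟩],
  [⟨false, true, 0, 0, 235⟩, ⟨true, false, 1, 1, 235⟩],
  [⟨false, false, 0, 1, 427⟩],
  [⟨true, true, 1, 1, 426⟩]⟩ = true := by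
  decide +kernel

theorem c168 : chk ⟨4494953, 131072, 656, 656, 878,
  [⟨false, true, 1, 0, 285⟩, ⟨true, false, 1, 0, 285⟩],
  [⟨false, false, 1, 1, 575⟩],
  [⟨true, true, 1, 0, 457⟩],
  [⟨false, true, 0, 0, 229⟩, ⟨true, false, 1, 1, 229⟩],
  [⟨false, false, 0, 1, 564⟩],
  [⟨true, true, 1, 1, 656⟩]⟩ = true := by
  decide +kernel

theorem c169 : chk ⟨4626025, 131072, 581, 581, 890,
  [⟨false, true, 1, 0, 256⟩, ⟨true, false, 1, 0, 256⟩],
  [⟨false, false, 1, 1, 490⟩],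
  [⟨true, true, 1, 0, 499⟩],
  [⟨false, true, 0, 0, 220⟩, ⟨true, false, 1, 1, 220⟩],
  [⟨false, false, 0, 1, 485⟩],
  [⟨true, true, 1, 1, 581⟩]⟩ = true := by
  decide +kernel

theorem c170 : chk ⟨4757097, 131072, 495, 496, 902,
  [⟨false, true, 1, 0, 220⟩, ⟨true, false, 1, 0, 220⟩],
  [⟨false, false, 1, 1, 483⟩],
  [⟨true, true, 1, 0, 492⟩],
  [⟨false, true, 0, 0, 222⟩, ⟨true, false, 1, 1, 222⟩],
  [⟨false, false, 0, 1, 496⟩],
  [⟨true, true, 1, 1, 476⟩]⟩ = true := by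
  decide +kernel

theorem c171 : chk ⟨4888169, 131072, 625, 624, 914,
  [⟨false, true, 1, 0, 206⟩, ⟨true, false, 1, 0, 206⟩],
  [⟨false, false, 1, 1, 525⟩],
  [⟨true, true, 1, 0, 625⟩],
  [⟨false, true, 0, 0, 226⟩, ⟨true, false, 1, 1, 226⟩],
  [⟨false, false, 0, 1, 433⟩],
  [⟨true, true, 1, 1, 465⟩]⟩ = true := by
  decide +kernel

theorem c172 : chk ⟨5019241, 131072, 490, 490, 926,
  [⟨false, true, 1, 0, 219⟩, ⟨true, false, 1, 0, 219⟩],
  [⟨false, false, 1, 1, 472⟩],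
  [⟨true, true, 1, 0, 449⟩],
  [⟨false, true, 0, 0, 233⟩, ⟨true, false, 1, 1, 233⟩],
  [⟨false, false, 0, 1, 457⟩],
  [⟨true, true, 1, 1, 490⟩]⟩ = true := by
  decide +kernel

theorem c173 : chk ⟨5150313, 131072, 523, 523, 938,
  [⟨false, true, 1, 0, 257⟩, ⟨true, false, 1, 0, 257⟩],
  [⟨false, false, 1, 1, 442⟩],
  [⟨true, true, 1, 0, 466⟩],
  [⟨false, true, 0, 0, 272⟩, ⟨true, false, 1, 1, 272⟩],
  [⟨false, false, 0, 1, 508⟩],
  [⟨true, true, 1, 1, 523⟩]⟩ = true := by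
  decide +kernel

theorem c174 : chk ⟨5281385, 131072, 553, 553, 949,
  [⟨false, true, 1, 0, 249⟩, ⟨true, false, 1, 0, 249⟩],
  [⟨false, false, 1, 1, 553⟩],
  [⟨true, true, 1, 0, 432⟩],
  [⟨false, true, 0, 0, 240⟩, ⟨true, false, 1, 1, 240⟩],
  [⟨false, false, 0, 1, 449⟩],
  [⟨true, true, 1, 1, 453⟩]⟩ = true := by
  decide +kernel

theorem c175 : chk ⟨5412457, 131072, 548, 548, 961,
  [⟨false, true, 1, 0, 242⟩, ⟨true, false, 1, 0, 242⟩],
  [⟨false, false, 1, 1, 548⟩],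
  [⟨true, true, 1, 0, 493⟩],
  [⟨false, true, 0, 0, 237⟩, ⟨true, false, 1, 1, 237⟩],
  [⟨false, false, 0, 1, 499⟩],
  [⟨true, true, 1, 1, 459⟩]⟩ = true := by
  decide +kernel

theorem part02 (N : ℕ) (h1 : 23823990 ≤ N) (h2 : N < 33261174) : 2 ≤ (CycI (N - 1)).card := by
  rcases lt_or_ge N 24610422 with h | h
  · exact chk_use _ c164 23823990 24610422 rfl rfl N (by omega) h
  rcases lt_or_ge N 25396854 with h | h
  · exact chk_use _ c165 24610422 25396854 rfl rfl N (by omega) h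
  rcases lt_or_ge N 26183286 with h | h
  · exact chk_use _ c166 25396854 26183286 rfl rfl N (by omega) h
  rcases lt_or_ge N 26969718 with h | h
  · exact chk_use _ c167 26183286 26969718 rfl rfl N (by omega) h
  rcases lt_or_ge N 27756150 with h | h
  · exact chk_use _ c168 26969718 27756150 rfl rfl N (by omega) h
  rcases lt_or_ge N 28542582 with h | h
  · exact chk_use _ c169 27756150 28542582 rfl rfl N (by omega) h
  rcases lt_or_ge N 29329014 with h | h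
  · exact chk_use _ c170 28542582 29329014 rfl rfl N (by omega) h
  rcases lt_or_ge N 30115446 with h | h
  · exact chk_use _ c171 29329014 30115446 rfl rfl N (by omega) h
  rcases lt_or_ge N 30901878 with h | h
  · exact chk_use _ c172 30115446 30901878 rfl rfl N (by omega) h
  rcases lt_or_ge N 31688310 with h | h
  · exact chk_use _ c173 30901878 31688310 rfl rfl N (by omega) h
  rcases lt_or_ge N 32474742 with h | h
  · exact chk_use _ c174 31688310 32474742 rfl rfl N (by omega) h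
  exact chk_use _ c175 32474742 33261174 rfl rfl N (by omega) h2

end Pool.Agent.Helper83.CY.Ker
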