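import Pool.Agent.Helper83.CY.KerC02

/-! Kernel computation, part 3: the blocks with `33261174 ≤ N < 41125494`. -/

set_option autoImplicit false

namespace Pool.Agent.Helper83.CY.Ker

theorem c176 : chk ⟨5543529, 131072, 557, 557, 972,
  [⟨false, true, 1, 0, 272⟩, ⟨true, false, 1, 0, 272⟩],
  [⟨false, false, 1, 1, 418⟩],
  [⟨true, true, 1, 0, 455⟩],
  [⟨false, true, 0, 0, 248⟩, ⟨true, false, 1, 1, 248⟩],
  [⟨false, false, 0, 1, 494⟩],
  [⟨true, true, 1, 1, 557⟩]⟩ = true := by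
  decide +kernel

theorem c177 : chk ⟨5674601, 131072, 508, 507, 983,
  [⟨false, true, 1, 0, 226⟩, ⟨true, false, 1, 0, 226⟩],
  [⟨false, false, 1, 1, 440⟩],
  [⟨true, true, 1, 0, 508⟩],
  [⟨false, true, 0, 0, 249⟩, ⟨true, false, 1, 1, 249⟩],
  [⟨false, false, 0, 1, 455⟩],
  [⟨true, true, 1, 1, 480⟩]⟩ = true := by
  decide +kernel

theorem c178 : chk ⟨5805673, 131072, 499, 498, 994,
  [⟨false, true, 1, 0, 236⟩, ⟨true, false, 1, 0, 236⟩],
  [⟨false, false, 1, 1, 462⟩],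
  [⟨true, true, 1, 0, 499⟩],
  [⟨false, true, 0, 0, 272⟩, ⟨true, false, 1, 1, 272⟩],
  [⟨false, false, 0, 1, 427⟩],
  [⟨true, true, 1, 1, 469⟩]⟩ = true := by
  decide +kernel

theorem c179 : chk ⟨5936745, 131072, 522, 522, 1005,
  [⟨false, true, 1, 0, 279⟩, ⟨true, false, 1, 0, 279⟩],
  [⟨false, false, 1, 1, 522⟩],
  [⟨true, true, 1, 0, 488⟩],
  [⟨false, true, 0, 0, 258⟩, ⟨true, false, 1, 1, 258⟩],
  [⟨false, false, 0, 1, 490⟩],
  [⟨true, true, 1, 1, 445⟩]⟩ = true := by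
  decide +kernel

theorem c180 : chk ⟨6067817, 131072, 555, 554, 1016,
  [⟨false, true, 1, 0, 264⟩, ⟨true, false, 1, 0, 264⟩],
  [⟨false, false, 1, 1, 509⟩],
  [⟨true, true, 1, 0, 555⟩],
  [⟨false, true, 0, 0, 236⟩, ⟨true, false, 1, 1, 236⟩],
  [⟨false, false, 0, 1, 516⟩],
  [⟨true, true, 1, 1, 463⟩]⟩ = true := by
  decide +kernel

theorem c181 : chk ⟨6198889, 131072, 511, 511, 1027,
  [⟨false, true, 1, 0, 242⟩, ⟨true, false, 1, 0, 242⟩],
  [⟨false, false, 1, 1, 469⟩],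
  [⟨true, true, 1, 0, 436⟩],
  [⟨false, true, 0, 0, 244⟩, ⟨true, false, 1, 1, 244⟩],
  [⟨false, false, 0, 1, 494⟩],
  [⟨true, true, 1, 1, 511⟩]⟩ = true := by
  decide +kernel

theorem c182 : chk ⟨6329961, 131072, 506, 507, 1037,
  [⟨false, true, 1, 0, 252⟩, ⟨true, false, 1, 0, 252⟩],
  [⟨false, false, 1, 1, 472⟩],
  [⟨true, true, 1, 0, 478⟩],
  [⟨false, true, 0, 0, 251⟩, ⟨true, false, 1, 1, 251⟩],
  [⟨false, false, 0, 1, 507⟩],
  [⟨true, true, 1, 1, 448⟩]⟩ = true := by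
  decide +kernel

theorem c183 : chk ⟨6461033, 131072, 530, 529, 1048,
  [⟨false, true, 1, 0, 266⟩, ⟨true, false, 1, 0, 266⟩],
  [⟨false, false, 1, 1, 484⟩],
  [⟨true, true, 1, 0, 530⟩],
  [⟨false, true, 0, 0, 239⟩, ⟨true, false, 1, 1, 239⟩],
  [⟨false, false, 0, 1, 480⟩],
  [⟨true, true, 1, 1, 500⟩]⟩ = true := by
  decide +kernel

theorem c184 : chk ⟨6592105, 131072, 550, 551, 1058,
  [⟨false, true, 1, 0, 282⟩, ⟨true, false, 1, 0, 282⟩],
  [⟨false, false, 1, 1, 527⟩],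
  [⟨true, true, 1, 0, 547⟩],
  [⟨false, true, 0, 0, 252⟩, ⟨true, false, 1, 1, 252⟩],
  [⟨false, false, 0, 1, 551⟩],
  [⟨true, true, 1, 1, 446⟩]⟩ = true := by
  decide +kernel

theorem c185 : chk ⟨6723177, 131072, 625, 625, 1069,
  [⟨false, true, 1, 0, 248⟩, ⟨true, false, 1, 0, 248⟩],
  [⟨false, false, 1, 1, 524⟩],
  [⟨true, true, 1, 0, 522⟩],
  [⟨false, true, 0, 0, 279⟩, ⟨true, false, 1, 1, 279⟩],
  [⟨false, false, 0, 1, 459⟩],
  [⟨true, true, 1, 1, 625⟩]⟩ = true := by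
  decide +kernel

theorem part03 (N : ℕ) (h1 : 33261174 ≤ N) (h2 : N < 41125494) : 2 ≤ (CycI (N - 1)).card := by
  rcases lt_or_ge N 34047606 with h | h
  · exact chk_use _ c176 33261174 34047606 rfl rfl N (by omega) h
  rcases lt_or_ge N 34834038 with h | h
  · exact chk_use _ c177 34047606 34834038 rfl rfl N (by omega) h
  rcases lt_or_ge N 35620470 with h | h
  · exact chk_use _ c178 34834038 35620470 rfl rfl N (by omega) h
  rcases lt_or_ge N 36406902 with h | h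
  · exact chk_use _ c179 35620470 36406902 rfl rfl N (by omega) h
  rcases lt_or_ge N 37193334 with h | h
  · exact chk_use _ c180 36406902 37193334 rfl rfl N (by omega) h
  rcases lt_or_ge N 37979766 with h | h
  · exact chk_use _ c181 37193334 37979766 rfl rfl N (by omega) h
  rcases lt_or_ge N 38766198 with h | h
  · exact chk_use _ c182 37979766 38766198 rfl rfl N (by omega) h
  rcases lt_or_ge N 39552630 with h | h
  · exact chk_use _ c183 38766198 39552630 rfl rfl N (by omega) h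
  rcases lt_or_ge N 40339062 with h | h
  · exact chk_use _ c184 39552630 40339062 rfl rfl N (by omega) h
  exact chk_use _ c185 40339062 41125494 rfl rfl N (by omega) h2

end Pool.Agent.Helper83.CY.Ker
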