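import Pool.Agent.Helper83.CY.KerC03

/-! Kernel computation, part 4: the blocks with `41125494 ≤ N < 48989814`. -/

set_option autoImplicit false

namespace Pool.Agent.Helper83.CY.Ker

theorem c186 : chk ⟨6854249, 131072, 573, 572, 1079,
  [⟨false, true, 1, 0, 239⟩, ⟨true, false, 1, 0, 239⟩],
  [⟨false, false, 1, 1, 465⟩],
  [⟨true, true, 1, 0, 573⟩],
  [⟨false, true, 0, 0, 267⟩, ⟨true, false, 1, 1, 267⟩],
  [⟨false, false, 0, 1, 492⟩],
  [⟨true, true, 1, 1, 556⟩]⟩ = true := by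
  decide +kernel

theorem c187 : chk ⟨6985321, 131072, 517, 517, 1089,
  [⟨false, true, 1, 0, 273⟩, ⟨true, false, 1, 0, 273⟩],
  [⟨false, false, 1, 1, 517⟩],
  [⟨true, true, 1, 0, 473⟩],
  [⟨false, true, 0, 0, 295⟩, ⟨true, false, 1, 1, 295⟩],
  [⟨false, false, 0, 1, 459⟩],
  [⟨true, true, 1, 1, 460⟩]⟩ = true := by
  decide +kernel

theorem c188 : chk ⟨7116393, 131072, 520, 520, 1099,
  [⟨false, true, 1, 0, 259⟩, ⟨true, false, 1, 0, 259⟩],
  [⟨false, false, 1, 1, 520⟩],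
  [⟨true, true, 1, 0, 484⟩],
  [⟨false, true, 0, 0, 252⟩, ⟨true, false, 1, 1, 252⟩],
  [⟨false, false, 0, 1, 471⟩],
  [⟨true, true, 1, 1, 485⟩]⟩ = true := by
  decide +kernel

theorem c189 : chk ⟨7247465, 131072, 487, 487, 1109,
  [⟨false, true, 1, 0, 220⟩, ⟨true, false, 1, 0, 220⟩],
  [⟨false, false, 1, 1, 479⟩],
  [⟨true, true, 1, 0, 463⟩],
  [⟨false, true, 0, 0, 225⟩, ⟨true, false, 1, 1, 225⟩],
  [⟨false, false, 0, 1, 474⟩],
  [⟨true, true, 1, 1, 487⟩]⟩ = true := by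
  decide +kernel

theorem c190 : chk ⟨7378537, 131072, 559, 559, 1118,
  [⟨false, true, 1, 0, 235⟩, ⟨true, false, 1, 0, 235⟩],
  [⟨false, false, 1, 1, 559⟩],
  [⟨true, true, 1, 0, 447⟩],
  [⟨false, true, 0, 0, 232⟩, ⟨true, false, 1, 1, 232⟩],
  [⟨false, false, 0, 1, 448⟩],
  [⟨true, true, 1, 1, 545⟩]⟩ = true := by
  decide +kernel

theorem c191 : chk ⟨7509609, 131072, 630, 630, 1128,
  [⟨false, true, 1, 0, 257⟩, ⟨true, false, 1, 0, 257⟩],
  [⟨false, false, 1, 1, 630⟩],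
  [⟨true, true, 1, 0, 599⟩],
  [⟨false, true, 0, 0, 277⟩, ⟨true, false, 1, 1, 277⟩],
  [⟨false, false, 0, 1, 592⟩],
  [⟨true, true, 1, 1, 500⟩]⟩ = true := by
  decide +kernel

theorem c192 : chk ⟨7640681, 131072, 599, 598, 1138,
  [⟨false, true, 1, 0, 247⟩, ⟨true, false, 1, 0, 247⟩],
  [⟨false, false, 1, 1, 489⟩],
  [⟨true, true, 1, 0, 599⟩],
  [⟨false, true, 0, 0, 248⟩, ⟨true, false, 1, 1, 248⟩],
  [⟨false, false, 0, 1, 445⟩],
  [⟨true, true, 1, 1, 460⟩]⟩ = true := by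
  decide +kernel

theorem c193 : chk ⟨7771753, 131072, 505, 506, 1147,
  [⟨false, true, 1, 0, 272⟩, ⟨true, false, 1, 0, 272⟩],
  [⟨false, false, 1, 1, 494⟩],
  [⟨true, true, 1, 0, 492⟩],
  [⟨false, true, 0, 0, 268⟩, ⟨true, false, 1, 1, 268⟩],
  [⟨false, false, 0, 1, 506⟩],
  [⟨true, true, 1, 1, 491⟩]⟩ = true := by
  decide +kernel

theorem c194 : chk ⟨7902825, 131072, 561, 561, 1157,
  [⟨false, true, 1, 0, 254⟩, ⟨true, false, 1, 0, 254⟩],
  [⟨false, false, 1, 1, 494⟩],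
  [⟨true, true, 1, 0, 510⟩],
  [⟨false, true, 0, 0, 258⟩, ⟨true, false, 1, 1, 258⟩],
  [⟨false, false, 0, 1, 476⟩],
  [⟨true, true, 1, 1, 561⟩]⟩ = true := by
  decide +kernel

theorem c195 : chk ⟨8033897, 131072, 561, 561, 1166,
  [⟨false, true, 1, 0, 230⟩, ⟨true, false, 1, 0, 230⟩],
  [⟨false, false, 1, 1, 561⟩],
  [⟨true, true, 1, 0, 474⟩],
  [⟨false, true, 0, 0, 252⟩, ⟨true, false, 1, 1, 252⟩],
  [⟨false, false, 0, 1, 536⟩],
  [⟨true, true, 1, 1, 505⟩]⟩ = true := by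
  decide +kernel

theorem part04 (N : ℕ) (h1 : 41125494 ≤ N) (h2 : N < 48989814) : 2 ≤ (CycI (N - 1)).card := by
  rcases lt_or_ge N 41911926 with h | h
  · exact chk_use _ c186 41125494 41911926 rfl rfl N (by omega) h
  rcases lt_or_ge N 42698358 with h | h
  · exact chk_use _ c187 41911926 42698358 rfl rfl N (by omega) h
  rcases lt_or_ge N 43484790 with h | h
  · exact chk_use _ c188 42698358 43484790 rfl rfl N (by omega) h
  rcases lt_or_ge N 44271222 with h | h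
  · exact chk_use _ c189 43484790 44271222 rfl rfl N (by omega) h
  rcases lt_or_ge N 45057654 with h | h
  · exact chk_use _ c190 44271222 45057654 rfl rfl N (by omega) h
  rcases lt_or_ge N 45844086 with h | h
  · exact chk_use _ c191 45057654 45844086 rfl rfl N (by omega) h
  rcases lt_or_ge N 46630518 with h | h
  · exact chk_use _ c192 45844086 46630518 rfl rfl N (by omega) h
  rcases lt_or_ge N 47416950 with h | h
  · exact chk_use _ c193 46630518 47416950 rfl rfl N (by omega) h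
  rcases lt_or_ge N 48203382 with h | h
  · exact chk_use _ c194 47416950 48203382 rfl rfl N (by omega) h
  exact chk_use _ c195 48203382 48989814 rfl rfl N (by omega) h2

end Pool.Agent.Helper83.CY.Ker
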