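import Pool.Agent.Helper83.CY.KerC04

/-! Kernel computation, part 5: the blocks with `48989814 ≤ N < 56067702`. -/

set_option autoImplicit false

namespace Pool.Agent.Helper83.CY.Ker

theorem c196 : chk ⟨8164969, 131072, 533, 533, 1176,
  [⟨false, true, 1, 0, 245⟩, ⟨true, false, 1, 0, 245⟩],
  [⟨false, false, 1, 1, 533⟩],
  [⟨true, true, 1, 0, 510⟩],
  [⟨false, true, 0, 0, 241⟩, ⟨true, false, 1, 1, 241⟩],
  [⟨false, false, 0, 1, 532⟩],
  [⟨true, true, 1, 1, 489⟩]⟩ = true := by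
  decide +kernel

theorem c197 : chk ⟨8296041, 131072, 547, 547, 1185,
  [⟨false, true, 1, 0, 258⟩, ⟨true, false, 1, 0, 258⟩],
  [⟨false, false, 1, 1, 547⟩],
  [⟨true, true, 1, 0, 515⟩],
  [⟨false, true, 0, 0, 244⟩, ⟨true, false, 1, 1, 244⟩],
  [⟨false, false, 0, 1, 482⟩],
  [⟨true, true, 1, 1, 489⟩]⟩ = true := by
  decide +kernel

theorem c198 : chk ⟨8427113, 131072, 605, 605, 1194,
  [⟨false, true, 1, 0, 265⟩, ⟨true, false, 1, 0, 265⟩],
  [⟨false, false, 1, 1, 605⟩],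
  [⟨true, true, 1, 0, 524⟩],
  [⟨false, true, 0, 0, 310⟩, ⟨true, false, 1, 1, 310⟩],
  [⟨false, false, 0, 1, 553⟩],
  [⟨true, true, 1, 1, 510⟩]⟩ = true := by
  decide +kernel

theorem c199 : chk ⟨8558185, 131072, 544, 545, 1203,
  [⟨false, true, 1, 0, 225⟩, ⟨true, false, 1, 0, 225⟩],
  [⟨false, false, 1, 1, 505⟩],
  [⟨true, true, 1, 0, 480⟩],
  [⟨false, true, 0, 0, 234⟩, ⟨true, false, 1, 1, 234⟩],
  [⟨false, false, 0, 1, 545⟩],
  [⟨true, true, 1, 1, 491⟩]⟩ = true := by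
  decide +kernel

theorem c200 : chk ⟨8689257, 131072, 590, 590, 1212,
  [⟨false, true, 1, 0, 286⟩, ⟨true, false, 1, 0, 286⟩],
  [⟨false, false, 1, 1, 590⟩],
  [⟨true, true, 1, 0, 498⟩],
  [⟨false, true, 0, 0, 247⟩, ⟨true, false, 1, 1, 247⟩],
  [⟨false, false, 0, 1, 468⟩],
  [⟨true, true, 1, 1, 544⟩]⟩ = true := by
  decide +kernel

theorem c201 : chk ⟨8820329, 131072, 633, 632, 1221,
  [⟨false, true, 1, 0, 244⟩, ⟨true, false, 1, 0, 244⟩],
  [⟨false, false, 1, 1, 546⟩],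
  [⟨true, true, 1, 0, 633⟩],
  [⟨false, true, 0, 0, 253⟩, ⟨true, false, 1, 1, 253⟩],
  [⟨false, false, 0, 1, 454⟩],
  [⟨true, true, 1, 1, 539⟩]⟩ = true := by
  decide +kernel

theorem c202 : chk ⟨8951401, 131072, 531, 531, 1230,
  [⟨false, true, 1, 0, 267⟩, ⟨true, false, 1, 0, 267⟩],
  [⟨false, false, 1, 1, 531⟩],
  [⟨true, true, 1, 0, 523⟩],
  [⟨false, true, 0, 0, 233⟩, ⟨true, false, 1, 1, 233⟩],
  [⟨false, false, 0, 1, 494⟩],
  [⟨true, true, 1, 1, 496⟩]⟩ = true := by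
  decide +kernel

theorem c203 : chk ⟨9082473, 131072, 545, 544, 1239,
  [⟨false, true, 1, 0, 279⟩, ⟨true, false, 1, 0, 279⟩],
  [⟨false, false, 1, 1, 506⟩],
  [⟨true, true, 1, 0, 545⟩],
  [⟨false, true, 0, 0, 269⟩, ⟨true, false, 1, 1, 269⟩],
  [⟨false, false, 0, 1, 512⟩],
  [⟨true, true, 1, 1, 508⟩]⟩ = true := by
  decide +kernel

theorem c204 : chk ⟨9213545, 131072, 568, 567, 1248,
  [⟨false, true, 1, 0, 265⟩, ⟨true, false, 1, 0, 265⟩],
  [⟨false, false, 1, 1, 452⟩],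
  [⟨true, true, 1, 0, 568⟩],
  [⟨false, true, 0, 0, 250⟩, ⟨true, false, 1, 1, 250⟩],
  [⟨false, false, 0, 1, 534⟩],
  [⟨true, true, 1, 1, 492⟩]⟩ = true := by
  decide +kernel

theorem part05 (N : ℕ) (h1 : 48989814 ≤ N) (h2 : N < 56067702) : 2 ≤ (CycI (N - 1)).card := by
  rcases lt_or_ge N 49776246 with h | h
  · exact chk_use _ c196 48989814 49776246 rfl rfl N (by omega) h
  rcases lt_or_ge N 50562678 with h | h
  · exact chk_use _ c197 49776246 50562678 rfl rfl N (by omega) h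
  rcases lt_or_ge N 51349110 with h | h
  · exact chk_use _ c198 50562678 51349110 rfl rfl N (by omega) h
  rcases lt_or_ge N 52135542 with h | h
  · exact chk_use _ c199 51349110 52135542 rfl rfl N (by omega) h
  rcases lt_or_ge N 52921974 with h | h
  · exact chk_use _ c200 52135542 52921974 rfl rfl N (by omega) h
  rcases lt_or_ge N 53708406 with h | h
  · exact chk_use _ c201 52921974 53708406 rfl rfl N (by omega) h
  rcases lt_or_ge N 54494838 with h | h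
  · exact chk_use _ c202 53708406 54494838 rfl rfl N (by omega) h
  rcases lt_or_ge N 55281270 with h | h
  · exact chk_use _ c203 54494838 55281270 rfl rfl N (by omega) h
  exact chk_use _ c204 55281270 56067702 rfl rfl N (by omega) h2

end Pool.Agent.Helper83.CY.Ker
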