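import Pool.Agent.Helper83.CY.KerC05

/-! Kernel computation, part 6: the blocks with `56067702 ≤ N < 63145590`. -/

set_option autoImplicit false

namespace Pool.Agent.Helper83.CY.Ker

theorem c205 : chk ⟨9344617, 131072, 557, 557, 1256,
  [⟨false, true, 1, 0, 245⟩, ⟨true, false, 1, 0, 245⟩],
  [⟨false, false, 1, 1, 490⟩],
  [⟨true, true, 1, 0, 473⟩],
  [⟨false, true, 0, 0, 227⟩, ⟨true, false, 1, 1, 227⟩],
  [⟨false, false, 0, 1, 500⟩],
  [⟨true, true, 1, 1, 557⟩]⟩ = true := by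
  decide +kernel

theorem c206 : chk ⟨9475689, 131072, 636, 637, 1265,
  [⟨false, true, 1, 0, 296⟩, ⟨true, false, 1, 0, 296⟩],
  [⟨false, false, 1, 1, 470⟩],
  [⟨true, true, 1, 0, 530⟩],
  [⟨false, true, 0, 0, 277⟩, ⟨true, false, 1, 1, 277⟩],
  [⟨false, false, 0, 1, 637⟩],
  [⟨true, true, 1, 1, 474⟩]⟩ = true := by
  decide +kernel

theorem c207 : chk ⟨9606761, 131072, 749, 750, 1274,
  [⟨false, true, 1, 0, 278⟩, ⟨true, false, 1, 0, 278⟩],
  [⟨false, false, 1, 1, 555⟩],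
  [⟨true, true, 1, 0, 582⟩],
  [⟨false, true, 0, 0, 264⟩, ⟨true, false, 1, 1, 264⟩],
  [⟨false, false, 0, 1, 750⟩],
  [⟨true, true, 1, 1, 553⟩]⟩ = true := by
  decide +kernel

theorem c208 : chk ⟨9737833, 131072, 550, 550, 1282,
  [⟨false, true, 1, 0, 251⟩, ⟨true, false, 1, 0, 251⟩],
  [⟨false, false, 1, 1, 550⟩],
  [⟨true, true, 1, 0, 508⟩],
  [⟨false, true, 0, 0, 258⟩, ⟨true, false, 1, 1, 258⟩],
  [⟨false, false, 0, 1, 511⟩],
  [⟨true, true, 1, 1, 486⟩]⟩ = true := by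
  decide +kernel

theorem c209 : chk ⟨9868905, 131072, 560, 560, 1291,
  [⟨false, true, 1, 0, 273⟩, ⟨true, false, 1, 0, 273⟩],
  [⟨false, false, 1, 1, 481⟩],
  [⟨true, true, 1, 0, 497⟩],
  [⟨false, true, 0, 0, 260⟩, ⟨true, false, 1, 1, 260⟩],
  [⟨false, false, 0, 1, 507⟩],
  [⟨true, true, 1, 1, 560⟩]⟩ = true := by
  decide +kernel

theorem c210 : chk ⟨9999977, 131072, 619, 618, 1299,
  [⟨false, true, 1, 0, 321⟩, ⟨true, false, 1, 0, 321⟩],
  [⟨false, false, 1, 1, 572⟩],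
  [⟨true, true, 1, 0, 619⟩],
  [⟨false, true, 0, 0, 236⟩, ⟨true, false, 1, 1, 236⟩],
  [⟨false, false, 0, 1, 523⟩],
  [⟨true, true, 1, 1, 527⟩]⟩ = true := by
  decide +kernel

theorem c211 : chk ⟨10131049, 131072, 540, 540, 1308,
  [⟨false, true, 1, 0, 256⟩, ⟨true, false, 1, 0, 256⟩],
  [⟨false, false, 1, 1, 530⟩],
  [⟨true, true, 1, 0, 491⟩],
  [⟨false, true, 0, 0, 299⟩, ⟨true, false, 1, 1, 299⟩],
  [⟨false, false, 0, 1, 532⟩],
  [⟨true, true, 1, 1, 540⟩]⟩ = true := by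
  decide +kernel

theorem c212 : chk ⟨10262121, 131072, 572, 572, 1316,
  [⟨false, true, 1, 0, 267⟩, ⟨true, false, 1, 0, 267⟩],
  [⟨false, false, 1, 1, 478⟩],
  [⟨true, true, 1, 0, 485⟩],
  [⟨false, true, 0, 0, 277⟩, ⟨true, false, 1, 1, 277⟩],
  [⟨false, false, 0, 1, 529⟩],
  [⟨true, true, 1, 1, 572⟩]⟩ = true := by
  decide +kernel

theorem c213 : chk ⟨10393193, 131072, 566, 566, 1324,
  [⟨false, true, 1, 0, 258⟩, ⟨true, false, 1, 0, 258⟩],
  [⟨false, false, 1, 1, 485⟩],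
  [⟨true, true, 1, 0, 502⟩],
  [⟨false, true, 0, 0, 262⟩, ⟨true, false, 1, 1, 262⟩],
  [⟨false, false, 0, 1, 530⟩],
  [⟨true, true, 1, 1, 566⟩]⟩ = true := by
  decide +kernel

theorem part06 (N : ℕ) (h1 : 56067702 ≤ N) (h2 : N < 63145590) : 2 ≤ (CycI (N - 1)).card := by
  rcases lt_or_ge N 56854134 with h | h
  · exact chk_use _ c205 56067702 56854134 rfl rfl N (by omega) h
  rcases lt_or_ge N 57640566 with h | h
  · exact chk_use _ c206 56854134 57640566 rfl rfl N (by omega) h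
  rcases lt_or_ge N 58426998 with h | h
  · exact chk_use _ c207 57640566 58426998 rfl rfl N (by omega) h
  rcases lt_or_ge N 59213430 with h | h
  · exact chk_use _ c208 58426998 59213430 rfl rfl N (by omega) h
  rcases lt_or_ge N 59999862 with h | h
  · exact chk_use _ c209 59213430 59999862 rfl rfl N (by omega) h
  rcases lt_or_ge N 60786294 with h | h
  · exact chk_use _ c210 59999862 60786294 rfl rfl N (by omega) h
  rcases lt_or_ge N 61572726 with h | h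
  · exact chk_use _ c211 60786294 61572726 rfl rfl N (by omega) h
  rcases lt_or_ge N 62359158 with h | h
  · exact chk_use _ c212 61572726 62359158 rfl rfl N (by omega) h
  exact chk_use _ c213 62359158 63145590 rfl rfl N (by omega) h2

end Pool.Agent.Helper83.CY.Ker
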