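import Pool.Agent.Helper83.CY.KerC06

/-! Kernel computation, part 7: the blocks with `63145590 ≤ N < 69437046`. -/

set_option autoImplicit false

namespace Pool.Agent.Helper83.CY.Ker

theorem c214 : chk ⟨10524265, 131072, 580, 579, 1332,
  [⟨false, true, 1, 0, 246⟩, ⟨true, false, 1, 0, 246⟩],
  [⟨false, false, 1, 1, 450⟩],
  [⟨true, true, 1, 0, 580⟩],
  [⟨false, true, 0, 0, 224⟩, ⟨true, false, 1, 1, 224⟩],
  [⟨false, false, 0, 1, 493⟩],
  [⟨true, true, 1, 1, 496⟩]⟩ = true := by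
  decide +kernel

theorem c215 : chk ⟨10655337, 131072, 563, 563, 1340,
  [⟨false, true, 1, 0, 236⟩, ⟨true, false, 1, 0, 236⟩],
  [⟨false, false, 1, 1, 495⟩],
  [⟨true, true, 1, 0, 481⟩],
  [⟨false, true, 0, 0, 249⟩, ⟨true, false, 1, 1, 249⟩],
  [⟨false, false, 0, 1, 521⟩],
  [⟨true, true, 1, 1, 563⟩]⟩ = true := by
  decide +kernel

theorem c216 : chk ⟨10786409, 131072, 588, 588, 1349,
  [⟨false, true, 1, 0, 261⟩, ⟨true, false, 1, 0, 261⟩],
  [⟨false, false, 1, 1, 588⟩],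
  [⟨true, true, 1, 0, 482⟩],
  [⟨false, true, 0, 0, 292⟩, ⟨true, false, 1, 1, 292⟩],
  [⟨false, false, 0, 1, 561⟩],
  [⟨true, true, 1, 1, 480⟩]⟩ = true := by
  decide +kernel

theorem c217 : chk ⟨10917481, 131072, 580, 580, 1357,
  [⟨false, true, 1, 0, 279⟩, ⟨true, false, 1, 0, 279⟩],
  [⟨false, false, 1, 1, 580⟩],
  [⟨true, true, 1, 0, 483⟩],
  [⟨false, true, 0, 0, 278⟩, ⟨true, false, 1, 1, 278⟩],
  [⟨false, false, 0, 1, 564⟩],
  [⟨true, true, 1, 1, 539⟩]⟩ = true := by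
  decide +kernel

theorem c218 : chk ⟨11048553, 131072, 572, 573, 1365,
  [⟨false, true, 1, 0, 270⟩, ⟨true, false, 1, 0, 270⟩],
  [⟨false, false, 1, 1, 525⟩],
  [⟨true, true, 1, 0, 462⟩],
  [⟨false, true, 0, 0, 281⟩, ⟨true, false, 1, 1, 281⟩],
  [⟨false, false, 0, 1, 573⟩],
  [⟨true, true, 1, 1, 551⟩]⟩ = true := by
  decide +kernel

theorem c219 : chk ⟨11179625, 131072, 589, 589, 1373,
  [⟨false, true, 1, 0, 251⟩, ⟨true, false, 1, 0, 251⟩],
  [⟨false, false, 1, 1, 589⟩],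
  [⟨true, true, 1, 0, 547⟩],
  [⟨false, true, 0, 0, 258⟩, ⟨true, false, 1, 1, 258⟩],
  [⟨false, false, 0, 1, 531⟩],
  [⟨true, true, 1, 1, 519⟩]⟩ = true := by
  decide +kernel

theorem c220 : chk ⟨11310697, 131072, 598, 598, 1381,
  [⟨false, true, 1, 0, 265⟩, ⟨true, false, 1, 0, 265⟩],
  [⟨false, false, 1, 1, 598⟩],
  [⟨true, true, 1, 0, 543⟩],
  [⟨false, true, 0, 0, 278⟩, ⟨true, false, 1, 1, 278⟩],
  [⟨false, false, 0, 1, 477⟩],
  [⟨true, true, 1, 1, 572⟩]⟩ = true := by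
  decide +kernel

theorem c221 : chk ⟨11441769, 131072, 606, 605, 1389,
  [⟨false, true, 1, 0, 287⟩, ⟨true, false, 1, 0, 287⟩],
  [⟨false, false, 1, 1, 525⟩],
  [⟨true, true, 1, 0, 606⟩],
  [⟨false, true, 0, 0, 267⟩, ⟨true, false, 1, 1, 267⟩],
  [⟨false, false, 0, 1, 514⟩],
  [⟨true, true, 1, 1, 515⟩]⟩ = true := by
  decide +kernel

theorem part07 (N : ℕ) (h1 : 63145590 ≤ N) (h2 : N < 69437046) : 2 ≤ (CycI (N - 1)).card := by
  rcases lt_or_ge N 63932022 with h | h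
  · exact chk_use _ c214 63145590 63932022 rfl rfl N (by omega) h
  rcases lt_or_ge N 64718454 with h | h
  · exact chk_use _ c215 63932022 64718454 rfl rfl N (by omega) h
  rcases lt_or_ge N 65504886 with h | h
  · exact chk_use _ c216 64718454 65504886 rfl rfl N (by omega) h
  rcases lt_or_ge N 66291318 with h | h
  · exact chk_use _ c217 65504886 66291318 rfl rfl N (by omega) h
  rcases lt_or_ge N 67077750 with h | h
  · exact chk_use _ c218 66291318 67077750 rfl rfl N (by omega) h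
  rcases lt_or_ge N 67864182 with h | h
  · exact chk_use _ c219 67077750 67864182 rfl rfl N (by omega) h
  rcases lt_or_ge N 68650614 with h | h
  · exact chk_use _ c220 67864182 68650614 rfl rfl N (by omega) h
  exact chk_use _ c221 68650614 69437046 rfl rfl N (by omega) h2

end Pool.Agent.Helper83.CY.Ker
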