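import Pool.Agent.Helper83.CY.KerC07

/-! Kernel computation, part 8: the blocks with `69437046 ≤ N < 75728502`. -/

set_option autoImplicit false

namespace Pool.Agent.Helper83.CY.Ker

theorem c222 : chk ⟨11572841, 131072, 562, 562, 1396,
  [⟨false, true, 1, 0, 274⟩, ⟨true, false, 1, 0, 274⟩],
  [⟨false, false, 1, 1, 511⟩],
  [⟨true, true, 1, 0, 561⟩],
  [⟨false, true, 0, 0, 292⟩, ⟨true, false, 1, 1, 292⟩],
  [⟨false, false, 0, 1, 506⟩],
  [⟨true, true, 1, 1, 562⟩]⟩ = true := by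
  decide +kernel

theorem c223 : chk ⟨11703913, 131072, 580, 581, 1404,
  [⟨false, true, 1, 0, 320⟩, ⟨true, false, 1, 0, 320⟩],
  [⟨false, false, 1, 1, 551⟩],
  [⟨true, true, 1, 0, 557⟩],
  [⟨false, true, 0, 0, 250⟩, ⟨true, false, 1, 1, 250⟩],
  [⟨false, false, 0, 1, 581⟩],
  [⟨true, true, 1, 1, 533⟩]⟩ = true := by
  decide +kernel

theorem c224 : chk ⟨11834985, 131072, 533, 533, 1412,
  [⟨false, true, 1, 0, 258⟩, ⟨true, false, 1, 0, 258⟩],
  [⟨false, false, 1, 1, 489⟩],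
  [⟨true, true, 1, 0, 498⟩],
  [⟨false, true, 0, 0, 280⟩, ⟨true, false, 1, 1, 280⟩],
  [⟨false, false, 0, 1, 468⟩],
  [⟨true, true, 1, 1, 533⟩]⟩ = true := by
  decide +kernel

theorem c225 : chk ⟨11966057, 131072, 568, 568, 1420,
  [⟨false, true, 1, 0, 241⟩, ⟨true, false, 1, 0, 241⟩],
  [⟨false, false, 1, 1, 568⟩],
  [⟨true, true, 1, 0, 474⟩],
  [⟨false, true, 0, 0, 338⟩, ⟨true, false, 1, 1, 338⟩],
  [⟨false, false, 0, 1, 549⟩],
  [⟨true, true, 1, 1, 534⟩]⟩ = true := by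
  decide +kernel

theorem c226 : chk ⟨12097129, 131072, 597, 597, 1427,
  [⟨false, true, 1, 0, 290⟩, ⟨true, false, 1, 0, 290⟩],
  [⟨false, false, 1, 1, 597⟩],
  [⟨true, true, 1, 0, 568⟩],
  [⟨false, true, 0, 0, 264⟩, ⟨true, false, 1, 1, 264⟩],
  [⟨false, false, 0, 1, 559⟩],
  [⟨true, true, 1, 1, 517⟩]⟩ = true := by
  decide +kernel

theorem c227 : chk ⟨12228201, 131072, 620, 620, 1435,
  [⟨false, true, 1, 0, 259⟩, ⟨true, false, 1, 0, 259⟩],
  [⟨false, false, 1, 1, 483⟩],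
  [⟨true, true, 1, 0, 512⟩],
  [⟨false, true, 0, 0, 259⟩, ⟨true, false, 1, 1, 259⟩],
  [⟨false, false, 0, 1, 547⟩],
  [⟨true, true, 1, 1, 620⟩]⟩ = true := by
  decide +kernel

theorem c228 : chk ⟨12359273, 131072, 563, 564, 1443,
  [⟨false, true, 1, 0, 270⟩, ⟨true, false, 1, 0, 270⟩],
  [⟨false, false, 1, 1, 514⟩],
  [⟨true, true, 1, 0, 498⟩],
  [⟨false, true, 0, 0, 253⟩, ⟨true, false, 1, 1, 253⟩],
  [⟨false, false, 0, 1, 564⟩],
  [⟨true, true, 1, 1, 505⟩]⟩ = true := by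
  decide +kernel

theorem c229 : chk ⟨12490345, 131072, 577, 577, 1450,
  [⟨false, true, 1, 0, 281⟩, ⟨true, false, 1, 0, 281⟩],
  [⟨false, false, 1, 1, 577⟩],
  [⟨true, true, 1, 0, 520⟩],
  [⟨false, true, 0, 0, 257⟩, ⟨true, false, 1, 1, 257⟩],
  [⟨false, false, 0, 1, 515⟩],
  [⟨true, true, 1, 1, 503⟩]⟩ = true := by
  decide +kernel

theorem part08 (N : ℕ) (h1 : 69437046 ≤ N) (h2 : N < 75728502) : 2 ≤ (CycI (N - 1)).card := by
  rcases lt_or_ge N 70223478 with h | h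
  · exact chk_use _ c222 69437046 70223478 rfl rfl N (by omega) h
  rcases lt_or_ge N 71009910 with h | h
  · exact chk_use _ c223 70223478 71009910 rfl rfl N (by omega) h
  rcases lt_or_ge N 71796342 with h | h
  · exact chk_use _ c224 71009910 71796342 rfl rfl N (by omega) h
  rcases lt_or_ge N 72582774 with h | h
  · exact chk_use _ c225 71796342 72582774 rfl rfl N (by omega) h
  rcases lt_or_ge N 73369206 with h | h
  · exact chk_use _ c226 72582774 73369206 rfl rfl N (by omega) h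
  rcases lt_or_ge N 74155638 with h | h
  · exact chk_use _ c227 73369206 74155638 rfl rfl N (by omega) h
  rcases lt_or_ge N 74942070 with h | h
  · exact chk_use _ c228 74155638 74942070 rfl rfl N (by omega) h
  exact chk_use _ c229 74942070 75728502 rfl rfl N (by omega) h2

end Pool.Agent.Helper83.CY.Ker
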