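import Pool.Agent.Helper83.CY.KerC08

/-! Kernel computation, part 9: the blocks with `75728502 ≤ N < 82019958`. -/

set_option autoImplicit false

namespace Pool.Agent.Helper83.CY.Ker

theorem c230 : chk ⟨12621417, 131072, 598, 598, 1458,
  [⟨false, true, 1, 0, 264⟩, ⟨true, false, 1, 0, 264⟩],
  [⟨false, false, 1, 1, 598⟩],
  [⟨true, true, 1, 0, 507⟩],
  [⟨false, true, 0, 0, 267⟩, ⟨true, false, 1, 1, 267⟩],
  [⟨false, false, 0, 1, 494⟩],
  [⟨true, true, 1, 1, 490⟩]⟩ = true := by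
  decide +kernel

theorem c231 : chk ⟨12752489, 131072, 544, 545, 1465,
  [⟨false, true, 1, 0, 266⟩, ⟨true, false, 1, 0, 266⟩],
  [⟨false, false, 1, 1, 488⟩],
  [⟨true, true, 1, 0, 514⟩],
  [⟨false, true, 0, 0, 272⟩, ⟨true, false, 1, 1, 272⟩],
  [⟨false, false, 0, 1, 545⟩],
  [⟨true, true, 1, 1, 515⟩]⟩ = true := by
  decide +kernel

theorem c232 : chk ⟨12883561, 131072, 556, 556, 1472,
  [⟨false, true, 1, 0, 324⟩, ⟨true, false, 1, 0, 324⟩],
  [⟨false, false, 1, 1, 556⟩],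
  [⟨true, true, 1, 0, 529⟩],
  [⟨false, true, 0, 0, 257⟩, ⟨true, false, 1, 1, 257⟩],
  [⟨false, false, 0, 1, 495⟩],
  [⟨true, true, 1, 1, 498⟩]⟩ = true := by
  decide +kernel

theorem c233 : chk ⟨13014633, 131072, 606, 606, 1480,
  [⟨false, true, 1, 0, 262⟩, ⟨true, false, 1, 0, 262⟩],
  [⟨false, false, 1, 1, 533⟩],
  [⟨true, true, 1, 0, 522⟩],
  [⟨false, true, 0, 0, 279⟩, ⟨true, false, 1, 1, 279⟩],
  [⟨false, false, 0, 1, 557⟩],
  [⟨true, true, 1, 1, 606⟩]⟩ = true := by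
  decide +kernel

theorem c234 : chk ⟨13145705, 131072, 529, 528, 1487,
  [⟨false, true, 1, 0, 307⟩, ⟨true, false, 1, 0, 307⟩],
  [⟨false, false, 1, 1, 463⟩],
  [⟨true, true, 1, 0, 529⟩],
  [⟨false, true, 0, 0, 266⟩, ⟨true, false, 1, 1, 266⟩],
  [⟨false, false, 0, 1, 470⟩],
  [⟨true, true, 1, 1, 511⟩]⟩ = true := by
  decide +kernel

theorem c235 : chk ⟨13276777, 131072, 563, 563, 1495,
  [⟨false, true, 1, 0, 251⟩, ⟨true, false, 1, 0, 251⟩],
  [⟨false, false, 1, 1, 493⟩],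
  [⟨true, true, 1, 0, 496⟩],
  [⟨false, true, 0, 0, 247⟩, ⟨true, false, 1, 1, 247⟩],
  [⟨false, false, 0, 1, 529⟩],
  [⟨true, true, 1, 1, 563⟩]⟩ = true := by
  decide +kernel

theorem c236 : chk ⟨13407849, 131072, 536, 537, 1502,
  [⟨false, true, 1, 0, 282⟩, ⟨true, false, 1, 0, 282⟩],
  [⟨false, false, 1, 1, 476⟩],
  [⟨true, true, 1, 0, 493⟩],
  [⟨false, true, 0, 0, 276⟩, ⟨true, false, 1, 1, 276⟩],
  [⟨false, false, 0, 1, 537⟩],
  [⟨true, true, 1, 1, 495⟩]⟩ = true := by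
  decide +kernel

theorem c237 : chk ⟨13538921, 131072, 638, 637, 1509,
  [⟨false, true, 1, 0, 291⟩, ⟨true, false, 1, 0, 291⟩],
  [⟨false, false, 1, 1, 587⟩],
  [⟨true, true, 1, 0, 638⟩],
  [⟨false, true, 0, 0, 272⟩, ⟨true, false, 1, 1, 272⟩],
  [⟨false, false, 0, 1, 575⟩],
  [⟨true, true, 1, 1, 588⟩]⟩ = true := by
  decide +kernel

theorem part09 (N : ℕ) (h1 : 75728502 ≤ N) (h2 : N < 82019958) : 2 ≤ (CycI (N - 1)).card := by
  rcases lt_or_ge N 76514934 with h | h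
  · exact chk_use _ c230 75728502 76514934 rfl rfl N (by omega) h
  rcases lt_or_ge N 77301366 with h | h
  · exact chk_use _ c231 76514934 77301366 rfl rfl N (by omega) h
  rcases lt_or_ge N 78087798 with h | h
  · exact chk_use _ c232 77301366 78087798 rfl rfl N (by omega) h
  rcases lt_or_ge N 78874230 with h | h
  · exact chk_use _ c233 78087798 78874230 rfl rfl N (by omega) h
  rcases lt_or_ge N 79660662 with h | h
  · exact chk_use _ c234 78874230 79660662 rfl rfl N (by omega) h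
  rcases lt_or_ge N 80447094 with h | h
  · exact chk_use _ c235 79660662 80447094 rfl rfl N (by omega) h
  rcases lt_or_ge N 81233526 with h | h
  · exact chk_use _ c236 80447094 81233526 rfl rfl N (by omega) h
  exact chk_use _ c237 81233526 82019958 rfl rfl N (by omega) h2

end Pool.Agent.Helper83.CY.Ker
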