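import Pool.Agent.Helper83.CY.KerC09

/-! Kernel computation, part 10: the blocks with `82019958 ≤ N < 88311414`. -/

set_option autoImplicit false

namespace Pool.Agent.Helper83.CY.Ker

theorem c238 : chk ⟨13669993, 131072, 602, 602, 1516,
  [⟨false, true, 1, 0, 251⟩, ⟨true, false, 1, 0, 251⟩],
  [⟨false, false, 1, 1, 602⟩],
  [⟨true, true, 1, 0, 547⟩],
  [⟨false, true, 0, 0, 276⟩, ⟨true, false, 1, 1, 276⟩],
  [⟨false, false, 0, 1, 547⟩],
  [⟨true, true, 1, 1, 575⟩]⟩ = true := by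
  decide +kernel

theorem c239 : chk ⟨13801065, 131072, 580, 580, 1524,
  [⟨false, true, 1, 0, 305⟩, ⟨true, false, 1, 0, 305⟩],
  [⟨false, false, 1, 1, 580⟩],
  [⟨true, true, 1, 0, 545⟩],
  [⟨false, true, 0, 0, 233⟩, ⟨true, false, 1, 1, 233⟩],
  [⟨false, false, 0, 1, 536⟩],
  [⟨true, true, 1, 1, 562⟩]⟩ = true := by
  decide +kernel

theorem c240 : chk ⟨13932137, 131072, 613, 612, 1531,
  [⟨false, true, 1, 0, 285⟩, ⟨true, false, 1, 0, 285⟩],
  [⟨false, false, 1, 1, 509⟩],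
  [⟨true, true, 1, 0, 613⟩],
  [⟨false, true, 0, 0, 251⟩, ⟨true, false, 1, 1, 251⟩],
  [⟨false, false, 0, 1, 605⟩],
  [⟨true, true, 1, 1, 492⟩]⟩ = true := by
  decide +kernel

theorem c241 : chk ⟨14063209, 131072, 621, 622, 1538,
  [⟨false, true, 1, 0, 241⟩, ⟨true, false, 1, 0, 241⟩],
  [⟨false, false, 1, 1, 531⟩],
  [⟨true, true, 1, 0, 604⟩],
  [⟨false, true, 0, 0, 279⟩, ⟨true, false, 1, 1, 279⟩],
  [⟨false, false, 0, 1, 622⟩],
  [⟨true, true, 1, 1, 509⟩]⟩ = true := by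
  decide +kernel

theorem c242 : chk ⟨14194281, 131072, 607, 607, 1545,
  [⟨false, true, 1, 0, 238⟩, ⟨true, false, 1, 0, 238⟩],
  [⟨false, false, 1, 1, 519⟩],
  [⟨true, true, 1, 0, 507⟩],
  [⟨false, true, 0, 0, 271⟩, ⟨true, false, 1, 1, 271⟩],
  [⟨false, false, 0, 1, 531⟩],
  [⟨true, true, 1, 1, 607⟩]⟩ = true := by
  decide +kernel

theorem c243 : chk ⟨14325353, 131072, 594, 593, 1552,
  [⟨false, true, 1, 0, 282⟩, ⟨true, false, 1, 0, 282⟩],
  [⟨false, false, 1, 1, 533⟩],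
  [⟨true, true, 1, 0, 594⟩],
  [⟨false, true, 0, 0, 292⟩, ⟨true, false, 1, 1, 292⟩],
  [⟨false, false, 0, 1, 525⟩],
  [⟨true, true, 1, 1, 523⟩]⟩ = true := by
  decide +kernel

theorem c244 : chk ⟨14456425, 131072, 549, 549, 1559,
  [⟨false, true, 1, 0, 295⟩, ⟨true, false, 1, 0, 295⟩],
  [⟨false, false, 1, 1, 540⟩],
  [⟨true, true, 1, 0, 529⟩],
  [⟨false, true, 0, 0, 299⟩, ⟨true, false, 1, 1, 299⟩],
  [⟨false, false, 0, 1, 518⟩],
  [⟨true, true, 1, 1, 549⟩]⟩ = true := by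
  decide +kernel

theorem c245 : chk ⟨14587497, 131072, 561, 561, 1566,
  [⟨false, true, 1, 0, 283⟩, ⟨true, false, 1, 0, 283⟩],
  [⟨false, false, 1, 1, 561⟩],
  [⟨true, true, 1, 0, 517⟩],
  [⟨false, true, 0, 0, 282⟩, ⟨true, false, 1, 1, 282⟩],
  [⟨false, false, 0, 1, 540⟩],
  [⟨true, true, 1, 1, 550⟩]⟩ = true := by
  decide +kernel

theorem part10 (N : ℕ) (h1 : 82019958 ≤ N) (h2 : N < 88311414) : 2 ≤ (CycI (N - 1)).card := by
  rcases lt_or_ge N 82806390 with h | h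
  · exact chk_use _ c238 82019958 82806390 rfl rfl N (by omega) h
  rcases lt_or_ge N 83592822 with h | h
  · exact chk_use _ c239 82806390 83592822 rfl rfl N (by omega) h
  rcases lt_or_ge N 84379254 with h | h
  · exact chk_use _ c240 83592822 84379254 rfl rfl N (by omega) h
  rcases lt_or_ge N 85165686 with h | h
  · exact chk_use _ c241 84379254 85165686 rfl rfl N (by omega) h
  rcases lt_or_ge N 85952118 with h | h
  · exact chk_use _ c242 85165686 85952118 rfl rfl N (by omega) h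
  rcases lt_or_ge N 86738550 with h | h
  · exact chk_use _ c243 85952118 86738550 rfl rfl N (by omega) h
  rcases lt_or_ge N 87524982 with h | h
  · exact chk_use _ c244 86738550 87524982 rfl rfl N (by omega) h
  exact chk_use _ c245 87524982 88311414 rfl rfl N (by omega) h2

end Pool.Agent.Helper83.CY.Ker
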