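import Pool.Agent.Helper83.CY.KerC10

/-! Kernel computation, part 11: the blocks with `88311414 ≤ N < 93816438`. -/

set_option autoImplicit false

namespace Pool.Agent.Helper83.CY.Ker

theorem c246 : chk ⟨14718569, 131072, 616, 615, 1573,
  [⟨false, true, 1, 0, 256⟩, ⟨true, false, 1, 0, 256⟩],
  [⟨false, false, 1, 1, 558⟩],
  [⟨true, true, 1, 0, 616⟩],
  [⟨false, true, 0, 0, 270⟩, ⟨true, false, 1, 1, 270⟩],
  [⟨false, false, 0, 1, 521⟩],
  [⟨true, true, 1, 1, 608⟩]⟩ = true := by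
  decide +kernel

theorem c247 : chk ⟨14849641, 131072, 656, 656, 1580,
  [⟨false, true, 1, 0, 262⟩, ⟨true, false, 1, 0, 262⟩],
  [⟨false, false, 1, 1, 608⟩],
  [⟨true, true, 1, 0, 524⟩],
  [⟨false, true, 0, 0, 244⟩, ⟨true, false, 1, 1, 244⟩],
  [⟨false, false, 0, 1, 542⟩],
  [⟨true, true, 1, 1, 656⟩]⟩ = true := by
  decide +kernel

theorem c248 : chk ⟨14980713, 131072, 579, 578, 1587,
  [⟨false, true, 1, 0, 295⟩, ⟨true, false, 1, 0, 295⟩],
  [⟨false, false, 1, 1, 562⟩],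
  [⟨true, true, 1, 0, 579⟩],
  [⟨false, true, 0, 0, 292⟩, ⟨true, false, 1, 1, 292⟩],
  [⟨false, false, 0, 1, 565⟩],
  [⟨true, true, 1, 1, 514⟩]⟩ = true := by
  decide +kernel

theorem c249 : chk ⟨15111785, 131072, 660, 660, 1594,
  [⟨false, true, 1, 0, 307⟩, ⟨true, false, 1, 0, 307⟩],
  [⟨false, false, 1, 1, 655⟩],
  [⟨true, true, 1, 0, 551⟩],
  [⟨false, true, 0, 0, 266⟩, ⟨true, false, 1, 1, 266⟩],
  [⟨false, false, 0, 1, 523⟩],
  [⟨true, true, 1, 1, 660⟩]⟩ = true := by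
  decide +kernel

theorem c250 : chk ⟨15242857, 131072, 588, 587, 1600,
  [⟨false, true, 1, 0, 289⟩, ⟨true, false, 1, 0, 289⟩],
  [⟨false, false, 1, 1, 532⟩],
  [⟨true, true, 1, 0, 588⟩],
  [⟨false, true, 0, 0, 301⟩, ⟨true, false, 1, 1, 301⟩],
  [⟨false, false, 0, 1, 531⟩],
  [⟨true, true, 1, 1, 541⟩]⟩ = true := by
  decide +kernel

theorem c251 : chk ⟨15373929, 131072, 587, 587, 1607,
  [⟨false, true, 1, 0, 279⟩, ⟨true, false, 1, 0, 279⟩],
  [⟨false, false, 1, 1, 587⟩],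
  [⟨true, true, 1, 0, 586⟩],
  [⟨false, true, 0, 0, 267⟩, ⟨true, false, 1, 1, 267⟩],
  [⟨false, false, 0, 1, 568⟩],
  [⟨true, true, 1, 1, 578⟩]⟩ = true := by
  decide +kernel

theorem c252 : chk ⟨15505001, 131072, 612, 612, 1614,
  [⟨false, true, 1, 0, 273⟩, ⟨true, false, 1, 0, 273⟩],
  [⟨false, false, 1, 1, 553⟩],
  [⟨true, true, 1, 0, 548⟩],
  [⟨false, true, 0, 0, 303⟩, ⟨true, false, 1, 1, 303⟩],
  [⟨false, false, 0, 1, 558⟩],
  [⟨true, true, 1, 1, 612⟩]⟩ = true := by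
  decide +kernel

theorem part11 (N : ℕ) (h1 : 88311414 ≤ N) (h2 : N < 93816438) : 2 ≤ (CycI (N - 1)).card := by
  rcases lt_or_ge N 89097846 with h | h
  · exact chk_use _ c246 88311414 89097846 rfl rfl N (by omega) h
  rcases lt_or_ge N 89884278 with h | h
  · exact chk_use _ c247 89097846 89884278 rfl rfl N (by omega) h
  rcases lt_or_ge N 90670710 with h | h
  · exact chk_use _ c248 89884278 90670710 rfl rfl N (by omega) h
  rcases lt_or_ge N 91457142 with h | h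
  · exact chk_use _ c249 90670710 91457142 rfl rfl N (by omega) h
  rcases lt_or_ge N 92243574 with h | h
  · exact chk_use _ c250 91457142 92243574 rfl rfl N (by omega) h
  rcases lt_or_ge N 93030006 with h | h
  · exact chk_use _ c251 92243574 93030006 rfl rfl N (by omega) h
  exact chk_use _ c252 93030006 93816438 rfl rfl N (by omega) h2

end Pool.Agent.Helper83.CY.Ker
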