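import Pool.Agent.Helper83.CY.KerC11

/-! Kernel computation, part 12: the blocks with `93816438 ≤ N < 99321462`. -/

set_option autoImplicit false

namespace Pool.Agent.Helper83.CY.Ker

theorem c253 : chk ⟨15636073, 131072, 693, 694, 1621,
  [⟨false, true, 1, 0, 276⟩, ⟨true, false, 1, 0, 276⟩],
  [⟨false, false, 1, 1, 550⟩],
  [⟨true, true, 1, 0, 566⟩],
  [⟨false, true, 0, 0, 286⟩, ⟨true, false, 1, 1, 286⟩],
  [⟨false, false, 0, 1, 694⟩],
  [⟨true, true, 1, 1, 590⟩]⟩ = true := by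
  decide +kernel

theorem c254 : chk ⟨15767145, 131072, 645, 646, 1627,
  [⟨false, true, 1, 0, 233⟩, ⟨true, false, 1, 0, 233⟩],
  [⟨false, false, 1, 1, 488⟩],
  [⟨true, true, 1, 0, 595⟩],
  [⟨false, true, 0, 0, 311⟩, ⟨true, false, 1, 1, 311⟩],
  [⟨false, false, 0, 1, 646⟩],
  [⟨true, true, 1, 1, 594⟩]⟩ = true := by
  decide +kernel

theorem c255 : chk ⟨15898217, 131072, 660, 660, 1634,
  [⟨false, true, 1, 0, 232⟩, ⟨true, false, 1, 0, 232⟩],
  [⟨false, false, 1, 1, 532⟩],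
  [⟨true, true, 1, 0, 501⟩],
  [⟨false, true, 0, 0, 316⟩, ⟨true, false, 1, 1, 316⟩],
  [⟨false, false, 0, 1, 610⟩],
  [⟨true, true, 1, 1, 660⟩]⟩ = true := by
  decide +kernel

theorem c256 : chk ⟨16029289, 131072, 580, 580, 1641,
  [⟨false, true, 1, 0, 282⟩, ⟨true, false, 1, 0, 282⟩],
  [⟨false, false, 1, 1, 519⟩],
  [⟨true, true, 1, 0, 543⟩],
  [⟨false, true, 0, 0, 279⟩, ⟨true, false, 1, 1, 279⟩],
  [⟨false, false, 0, 1, 518⟩],
  [⟨true, true, 1, 1, 580⟩]⟩ = true := by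
  decide +kernel

theorem c257 : chk ⟨16160361, 131072, 569, 568, 1647,
  [⟨false, true, 1, 0, 258⟩, ⟨true, false, 1, 0, 258⟩],
  [⟨false, false, 1, 1, 553⟩],
  [⟨true, true, 1, 0, 569⟩],
  [⟨false, true, 0, 0, 257⟩, ⟨true, false, 1, 1, 257⟩],
  [⟨false, false, 0, 1, 522⟩],
  [⟨true, true, 1, 1, 523⟩]⟩ = true := by
  decide +kernel

theorem c258 : chk ⟨16291433, 131072, 588, 588, 1654,
  [⟨false, true, 1, 0, 301⟩, ⟨true, false, 1, 0, 301⟩],
  [⟨false, false, 1, 1, 588⟩],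
  [⟨true, true, 1, 0, 536⟩],
  [⟨false, true, 0, 0, 267⟩, ⟨true, false, 1, 1, 267⟩],
  [⟨false, false, 0, 1, 534⟩],
  [⟨true, true, 1, 1, 496⟩]⟩ = true := by
  decide +kernel

theorem c259 : chk ⟨16422505, 131072, 581, 580, 1661,
  [⟨false, true, 1, 0, 271⟩, ⟨true, false, 1, 0, 271⟩],
  [⟨false, false, 1, 1, 546⟩],
  [⟨true, true, 1, 0, 581⟩],
  [⟨false, true, 0, 0, 266⟩, ⟨true, false, 1, 1, 266⟩],
  [⟨false, false, 0, 1, 533⟩],
  [⟨true, true, 1, 1, 548⟩]⟩ = true := by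
  decide +kernel

theorem part12 (N : ℕ) (h1 : 93816438 ≤ N) (h2 : N < 99321462) : 2 ≤ (CycI (N - 1)).card := by
  rcases lt_or_ge N 94602870 with h | h
  · exact chk_use _ c253 93816438 94602870 rfl rfl N (by omega) h
  rcases lt_or_ge N 95389302 with h | h
  · exact chk_use _ c254 94602870 95389302 rfl rfl N (by omega) h
  rcases lt_or_ge N 96175734 with h | h
  · exact chk_use _ c255 95389302 96175734 rfl rfl N (by omega) h
  rcases lt_or_ge N 96962166 with h | h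
  · exact chk_use _ c256 96175734 96962166 rfl rfl N (by omega) h
  rcases lt_or_ge N 97748598 with h | h
  · exact chk_use _ c257 96962166 97748598 rfl rfl N (by omega) h
  rcases lt_or_ge N 98535030 with h | h
  · exact chk_use _ c258 97748598 98535030 rfl rfl N (by omega) h
  exact chk_use _ c259 98535030 99321462 rfl rfl N (by omega) h2

end Pool.Agent.Helper83.CY.Ker
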