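import Pool.Agent.Helper83.CY.KerC12

/-! Kernel computation, part 13: the blocks with `99321462 ≤ N < 100000002`. -/

set_option autoImplicit false

namespace Pool.Agent.Helper83.CY.Ker

theorem c260 : chk ⟨16553577, 113090, 636, 636, 1666,
  [⟨false, true, 1, 0, 279⟩, ⟨true, false, 1, 0, 279⟩],
  [⟨false, false, 1, 1, 636⟩],
  [⟨true, true, 1, 0, 503⟩],
  [⟨false, true, 0, 0, 292⟩, ⟨true, false, 1, 1, 292⟩],
  [⟨false, false, 0, 1, 596⟩],
  [⟨true, true, 1, 1, 528⟩]⟩ = true := by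
  decide +kernel

theorem part13 (N : ℕ) (h1 : 99321462 ≤ N) (h2 : N < 100000002) : 2 ≤ (CycI (N - 1)).card := by
  exact chk_use _ c260 99321462 100000002 rfl rfl N (by omega) h2

end Pool.Agent.Helper83.CY.Ker
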