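import Pool.Agent.Helper83.CY.Base

/-! Kernel computation for cyclic numbers between consecutive squares: the checking functions.
A bit set of primes in the classes 1 and 5 modulo 6 is sieved inside a window, and pairs of
primes symmetric about `N` (or about `N + j`) are found by shifting it against itself. -/

set_option autoImplicit false

namespace Pool.Agent.Helper83.CY.Ker

/-- evaluate `x`, then return `y` -/
noncomputable def touch {α : Type} (x : ℕ) (y : α) : α :=
  Bool.rec (motive := fun _ => α) y y (Nat.beq x 0)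

/-- `m` doublings of the pattern `R` with shift `sh` -/
noncomputable def dbl (m : ℕ) : ℕ → ℕ → ℕ :=
  Nat.rec (motive := fun _ => ℕ → ℕ → ℕ) (fun R _ => R)
    (fun _ ih R sh => ih (Nat.lor R (Nat.shiftLeft R sh)) (Nat.add sh sh)) m

/-- bits `i0, i0 + d, i0 + 2 d, ...` (at least up to `Lw`) -/
noncomputable def pat (Lw d i0 : ℕ) : ℕ :=
  dbl (Nat.succ (Nat.log2 (Nat.div Lw d))) (Nat.shiftLeft 1 i0) d

/-- choose by bit `e` of `M` -/
noncomputable def sel {α : Type} (M e : ℕ) (x y : α) : α :=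
  Bool.rec (motive := fun _ => α) x y (Nat.beq (Nat.land (Nat.shiftRight M e) 1) 0)

/-- the numbers `e < 1668` with `6 e + 5` prime, as a bit set -/
def M5 : ℕ := 0x8016086c28988501820b46f1b0612944b6144002528690035a88703582510c500982600643a02239d084014b315c4108a4609cb72c64001222192608d88234ea1a1c62a44943009684244010c7a9c1310a541923028cb61c81191680902b3844f091cd1812602c29618e85804e094ac70082314e1591406b5601382c43d02784a532c091a0c5138234192a6206168848604a8729c9325454b8c54a1a012ced1b146318054ad8a33127588a20154213cac2bc2e41c0b721c7281e14b0e748ccb5148933c4e705ab6a58e195ee1b9676bdf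

/-- the numbers `e < 1668` with `6 e + 7` prime, as a bit set -/
def M7 : ℕ := 0x83246542c686892d68041011a703906081633344c3842c3112448dca1b124580654288b330a95802860c85301c0021a65a1252a84a40c892a80670908029431a0450b0a4235a250cc80a4627982312d05285c6100840ad614382c7902e1910f70044080ca501e2415cb230212b10c01d271a1c419006508a54898960c641154a3108872c873156b43881295e16286c0a16a4848210c87125cf50883490c203c613a52449c8c22dc1201e10b9e46386a5340d7312019d0b2848e335ab109466344b724a578c64519aa72cc70b5a7539e77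

/-- mark the indices `i` with `d ∣ a0 + 6 i`, where `6 w = 1` modulo `d` -/
noncomputable def mk (Lw a0 d w C : ℕ) : ℕ :=
  Nat.lor C (pat Lw d (Nat.mod (Nat.mul (Nat.sub d (Nat.mod a0 d)) w) d))

/-- mark multiples of the selected `6 e + 5`, `6 e + 7` -/
noncomputable def sv (Lw a0 em : ℕ) : ℕ → ℕ :=
  Nat.rec (motive := fun _ => ℕ → ℕ) (fun C => C)
    (fun e ih C =>
      touch C (ih
        (sel M7 e
          (mk Lw a0 (Nat.add (Nat.mul 6 e) 7) (Nat.add (Nat.mul 5 e) 6)
            (sel M5 e (mk Lw a0 (Nat.add (Nat.mul 6 e) 5) (Nat.succ e) C) C))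
          (sel M5 e (mk Lw a0 (Nat.add (Nat.mul 6 e) 5) (Nat.succ e) C) C))))
    em

/-- `2 ^ L - 1` -/
noncomputable def ones (L : ℕ) : ℕ := Nat.sub (Nat.pow 2 L) 1

/-- bit `i` is set: `i < Lw` and `a0 + 6 i` is prime -/
noncomputable def prm (Lw a0 em : ℕ) : ℕ :=
  Nat.xor (ones Lw) (Nat.land (ones Lw) (sv Lw a0 em 0))

/-- one run of symmetric pairs -/
noncomputable def loop (P Q sx sy : ℕ) (T : ℕ) : ℕ → ℕ → (ℕ → ℕ → Bool) → Bool :=
  Nat.rec (motive := fun _ => ℕ → ℕ → (ℕ → ℕ → Bool) → Bool)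
    (fun a1 a2 k => k a1 a2)
    (fun n ih a1 a2 k =>
      touch a2 (touch a1 (ih
        (Nat.lor a1 (Nat.land (Nat.shiftRight P (Nat.sub sx n)) (Nat.shiftRight Q (Nat.add sy n))))
        (Nat.lor a2 (Nat.land a1
          (Nat.land (Nat.shiftRight P (Nat.sub sx n)) (Nat.shiftRight Q (Nat.add sy n))))) k))) T

/-- A run: the primes `6 (k - x - t) + c` and `6 (k + y + t) + d`, `t < T`, where `c`, `d` are
`5` for `true` and `1` for `false`. -/
structure Run where
  c : Bool
  d : Bool
  x : ℕ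
  y : ℕ
  T : ℕ

/-- selection of one of two numbers -/
noncomputable def pk (P1 P5 : ℕ) (b : Bool) : ℕ := Bool.rec (motive := fun _ => ℕ) P1 P5 b

/-- all runs of one residue class modulo 6 -/
noncomputable def cls (P1 P5 E L : ℕ) (rs : List Run) : ℕ → ℕ → Bool :=
  List.rec (motive := fun _ => ℕ → ℕ → Bool)
    (fun _ a2 => Nat.beq (Nat.land a2 (ones L)) (ones L))
    (fun R _ ih a1 a2 =>
      loop (pk P1 P5 R.c) (pk P1 P5 R.d) (Nat.sub E R.x) (Nat.add E R.y) R.T a1 a2 ih) rs

/-- `5` or `1` -/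
def cv (b : Bool) : ℕ := if b then 5 else 1

/-- conditions on a run: `u = 6 x + r - c`, `v = 6 y + d - r` -/
def side (K L E r : ℕ) (R : Run) : Bool :=
  let u := 6 * R.x + r - cv R.c
  let v := 6 * R.y + cv R.d - r
  let w := v - u
  let s := 6 * (R.T - 1)
  decide (1 ≤ R.T) && decide (R.x + R.T ≤ E + 1) && decide (cv R.c + 1 ≤ 6 * R.x + r) &&
    decide (r + 1 ≤ 6 * R.y + cv R.d) && decide (u ≤ v) && decide (R.x ≤ R.y + 1) &&
    decide (w * (6 * (K + L) - 1) < u * v) &&
    decide ((u + s) * (v + s) + 1 < (w + 2) * (6 * K)) &&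
    decide (v + s + 2 * (u + s) ≤ 6 * K)

/-- no two runs with the same signature -/
def nds : List Run → Bool
  | [] => true
  | R :: rs => rs.all (fun S => !(decide (R.c = S.c) && decide (R.d = S.d) &&
      decide (R.x + S.y = S.x + R.y))) && nds rs

/-- A block: all `N` with `6 K ≤ N < 6 (K + L)`. -/
structure Blk where
  K : ℕ
  L : ℕ
  E : ℕ
  F : ℕ
  em : ℕ
  r0 : List Run
  r1 : List Run
  r2 : List Run
  r3 : List Run
  r4 : List Run
  r5 : List Run

def sides (B : Blk) (r : ℕ) (rs : List Run) : Bool :=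
  rs.all (side B.K B.L B.E r) && nds rs

/-- the check of a block -/
noncomputable def chk (B : Blk) : Bool :=
  (decide (B.E < B.K) && decide (B.em ≤ 1668) &&
    decide (6 * (B.K + B.L + B.F) + 6 ≤ (6 * B.em + 5) ^ 2)
    && sides B 0 B.r0 && sides B 1 B.r1 && sides B 2 B.r2 && sides B 3 B.r3 && sides B 4 B.r4
    && sides B 5 B.r5) &&
  (fun P1 P5 => touch P1 (touch P5
    (cls P1 P5 B.E B.L B.r0 0 0 && cls P1 P5 B.E B.L B.r1 0 0 && cls P1 P5 B.E B.L B.r2 0 0 &&
    cls P1 P5 B.E B.L B.r3 0 0 && cls P1 P5 B.E B.L B.r4 0 0 && cls P1 P5 B.E B.L B.r5 0 0)))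
  (prm (B.L + B.E + B.F) (6 * (B.K - B.E) + 1) B.em)
  (prm (B.L + B.E + B.F) (6 * (B.K - B.E) + 5) B.em)

/-- `f e` for all `e < n` -/
noncomputable def allb (f : ℕ → Bool) (n : ℕ) : Bool :=
  Nat.rec (motive := fun _ => Bool) true (fun e ih => Bool.rec (motive := fun _ => Bool) false ih (f e)) n

/-- `d` has a proper divisor in the list -/
noncomputable def dvb (d : ℕ) (l : List ℕ) : Bool :=
  List.rec (motive := fun _ => Bool) false (fun q _ ih =>
    Bool.rec (motive := fun _ => Bool) ih (Nat.blt q d) (Nat.beq (Nat.mod d q) 0)) l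

def ql : List ℕ := [5, 7, 11, 13, 17, 19, 23, 29, 31, 37, 41, 43, 47, 53, 59, 61, 67, 71, 73, 79,
  83, 89, 97]

theorem cm5 : allb (fun i => allb (fun e => sel M5 (12 * i + e) true
    (dvb (6 * (12 * i + e) + 5) ql)) 12) 139 = true := by
  decide +kernel

theorem cm7 : allb (fun i => allb (fun e => sel M7 (12 * i + e) true
    (dvb (6 * (12 * i + e) + 7) ql)) 12) 139 = true := by
  decide +kernel

end Pool.Agent.Helper83.CY.Ker
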