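import Pool.Agent.Helper83.CY.KerDefs

/-! Correctness of the bit sieve. -/

set_option autoImplicit false

namespace Pool.Agent.Helper83.CY.Ker

theorem touch_eq {α : Type} (x : ℕ) (y : α) : touch x y = y := by
  unfold touch
  cases Nat.beq x 0 <;> rfl

theorem sel_eq {α : Type} (M e : ℕ) (x y : α) : sel M e x y = if M.testBit e then x else y := by
  have h1 : Nat.land (Nat.shiftRight M e) 1 = M / 2 ^ e % 2 := by
    change (M >>> e) &&& 1 = _
    rw [Nat.and_one_is_mod, Nat.shiftRight_eq_div_pow]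
  unfold sel
  rw [h1, Nat.testBit_eq_decide_div_mod_eq]
  rcases Nat.mod_two_eq_zero_or_one (M / 2 ^ e) with h | h
  · rw [h]; simp
  · rw [h]; simp only [decide_true, if_true]; rfl

theorem dbl_bits (d i0 : ℕ) : ∀ (m n R sh : ℕ), sh = d * n →
    (∀ j < n, R.testBit (i0 + d * j) = true) →
    ∀ j < n * 2 ^ m, (dbl m R sh).testBit (i0 + d * j) = true := by
  intro m
  induction m with
  | zero =>
    intro n R sh _ hR j hj
    exact hR j (by simpa using hj)
  | succ m ih =>
    intro n R sh hsh hR j hj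
    change (dbl m (R ||| R <<< sh) (sh + sh)).testBit _ = true
    refine ih (2 * n) _ _ (by rw [hsh]; ring) ?_ j (by rw [pow_succ] at hj; nlinarith)
    intro k hk
    rw [Nat.testBit_or, Nat.testBit_shiftLeft]
    by_cases hkn : k < n
    · rw [hR k hkn]; rfl
    · push Not at hkn
      have h1 : i0 + d * k ≥ sh := by
        rw [hsh]
        have := Nat.mul_le_mul_left d hkn
        omega
      have h2 : i0 + d * k - sh = i0 + d * (k - n) := by
        have h3 : d * k = d * (k - n) + d * n := by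
          rw [← Nat.mul_add]; congr 1; omega
        rw [hsh, h3]; omega
      rw [h2, hR (k - n) (by omega)]
      simp [h1]

theorem pat_bits (Lw d i0 : ℕ) (hd : 0 < d) (j : ℕ) (hj : i0 + d * j < Lw) :
    (pat Lw d i0).testBit (i0 + d * j) = true := by
  unfold pat
  refine dbl_bits d i0 _ 1 _ _ (by rw [mul_one]) ?_ j ?_
  · intro k hk
    have : k = 0 := by omega
    subst this
    change (1 <<< i0).testBit _ = true
    rw [Nat.testBit_shiftLeft]
    simp
  · rw [one_mul]
    change j < 2 ^ (Nat.log2 (Lw / d) + 1)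
    have h1 : j ≤ Lw / d := by
      rw [Nat.le_div_iff_mul_le hd]
      nlinarith
    exact lt_of_le_of_lt h1 Nat.lt_log2_self

theorem mk_mono (Lw a0 d w C i : ℕ) (h : C.testBit i = true) :
    (mk Lw a0 d w C).testBit i = true := by
  unfold mk
  change (C ||| _).testBit i = true
  rw [Nat.testBit_or, h]; rfl

theorem mk_bits (Lw a0 d w C i : ℕ) (hd : 0 < d) (hw : 6 * w ≡ 1 [MOD d]) (hi : i < Lw)
    (hdv : d ∣ a0 + 6 * i) : (mk Lw a0 d w C).testBit i = true := by
  unfold mk
  change (C ||| pat Lw d ((d - a0 % d) * w % d)).testBit i = true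
  rw [Nat.testBit_or]
  have h1 : i % d = (d - a0 % d) * w % d := by
    have h2 : a0 + 6 * i ≡ a0 + (d - a0 % d) [MOD d] := by
      have h3 : a0 + (d - a0 % d) ≡ 0 [MOD d] := by
        have hlt := Nat.mod_lt a0 hd
        have h4 : a0 + (d - a0 % d) = d * (a0 / d) + d := by
          have := Nat.div_add_mod a0 d
          omega
        rw [h4]
        exact (Nat.modEq_zero_iff_dvd.2 ⟨a0 / d + 1, by ring⟩)
      exact (Nat.modEq_zero_iff_dvd.2 hdv).trans h3.symm
    have h5 : 6 * i ≡ d - a0 % d [MOD d] := Nat.ModEq.add_left_cancel' a0 h2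
    have h6 : 6 * i * w ≡ (d - a0 % d) * w [MOD d] := h5.mul_right w
    have h7 : i ≡ 6 * i * w [MOD d] := by
      have h8 := (hw.mul_right i).symm
      have e1 : 6 * w * i = 6 * i * w := by ring
      rw [e1, one_mul] at h8
      exact h8
    exact h7.trans h6
  have h9 : i = (d - a0 % d) * w % d + d * (i / d) := by
    rw [← h1]
    exact (Nat.mod_add_div i d).symm
  have h10 : (pat Lw d ((d - a0 % d) * w % d)).testBit i = true := by
    have h11 := pat_bits Lw d ((d - a0 % d) * w % d) hd (i / d) (by rw [← h9]; exact hi)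
    rw [← h9] at h11
    exact h11
  rw [h10, Bool.or_true]

theorem sv_succ (Lw a0 e C : ℕ) : sv Lw a0 (e + 1) C = sv Lw a0 e
    (sel M7 e
      (mk Lw a0 (6 * e + 7) (5 * e + 6) (sel M5 e (mk Lw a0 (6 * e + 5) (e + 1) C) C))
      (sel M5 e (mk Lw a0 (6 * e + 5) (e + 1) C) C)) := by
  change touch C _ = _
  rw [touch_eq]
  rfl

theorem w5 (e : ℕ) : 6 * (e + 1) ≡ 1 [MOD 6 * e + 5] := by
  have : 6 * (e + 1) = (6 * e + 5) + 1 := by ring
  rw [this]
  simp [Nat.ModEq]

theorem w7 (e : ℕ) : 6 * (5 * e + 6) ≡ 1 [MOD 6 * e + 7] := by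
  have : 6 * (5 * e + 6) = 1 + (6 * e + 7) * 5 := by ring
  rw [this]
  simp [Nat.ModEq]

theorem sv_spec (Lw a0 : ℕ) : ∀ (em C : ℕ),
    (∀ i, C.testBit i = true → (sv Lw a0 em C).testBit i = true) ∧
    (∀ e < em, M5.testBit e = true → ∀ i < Lw, (6 * e + 5) ∣ a0 + 6 * i →
      (sv Lw a0 em C).testBit i = true) ∧
    (∀ e < em, M7.testBit e = true → ∀ i < Lw, (6 * e + 7) ∣ a0 + 6 * i →
      (sv Lw a0 em C).testBit i = true) := by
  intro em
  induction em with
  | zero =>
    intro C
    refine ⟨fun i h => h, fun e he => absurd he (by omega), fun e he => absurd he (by omega)⟩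
  | succ em ih =>
    intro C
    rw [sv_succ]
    set C1 := sel M5 em (mk Lw a0 (6 * em + 5) (em + 1) C) C with hC1
    set C2 := sel M7 em (mk Lw a0 (6 * em + 7) (5 * em + 6) C1) C1 with hC2
    have m1 : ∀ i, C.testBit i = true → C1.testBit i = true := by
      intro i hi
      rw [hC1, sel_eq]
      split
      · exact mk_mono _ _ _ _ _ _ hi
      · exact hi
    have m2 : ∀ i, C1.testBit i = true → C2.testBit i = true := by
      intro i hi
      rw [hC2, sel_eq]
      split
      · exact mk_mono _ _ _ _ _ _ hi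
      · exact hi
    obtain ⟨a, b, c⟩ := ih C2
    refine ⟨fun i hi => a i (m2 i (m1 i hi)), ?_, ?_⟩
    · intro e he hM i hi hd
      rcases Nat.lt_succ_iff_lt_or_eq.1 he with h | h
      · exact b e h hM i hi hd
      · subst h
        refine a i (m2 i ?_)
        rw [hC1, sel_eq, if_pos hM]
        exact mk_bits _ _ _ _ _ _ (by omega) (w5 e) hi hd
    · intro e he hM i hi hd
      rcases Nat.lt_succ_iff_lt_or_eq.1 he with h | h
      · exact c e h hM i hi hd
      · subst h
        refine a i ?_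
        rw [hC2, sel_eq, if_pos hM]
        exact mk_bits _ _ _ _ _ _ (by omega) (w7 e) hi hd

theorem ones_bit (L i : ℕ) : (ones L).testBit i = decide (i < L) := by
  change (2 ^ L - 1).testBit i = _
  rw [Nat.testBit_two_pow_sub_one]

theorem prm_bit (Lw a0 em i : ℕ) (h : (prm Lw a0 em).testBit i = true) :
    i < Lw ∧ (sv Lw a0 em 0).testBit i = false := by
  change ((ones Lw) ^^^ ((ones Lw) &&& (sv Lw a0 em 0))).testBit i = true at h
  rw [Nat.testBit_xor, Nat.testBit_and, ones_bit] at h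
  by_cases hi : i < Lw
  · refine ⟨hi, ?_⟩
    simp only [hi, decide_true, Bool.true_and] at h
    cases hs : (sv Lw a0 em 0).testBit i
    · rfl
    · rw [hs] at h; simp at h
  · simp [hi] at h

theorem allb_spec (f : ℕ → Bool) : ∀ n, allb f n = true → ∀ e < n, f e = true := by
  intro n
  induction n with
  | zero => intro _ e he; omega
  | succ n ih =>
    intro h e he
    have h1 : allb f (n + 1) = Bool.rec (motive := fun _ => Bool) false (allb f n) (f n) := rfl
    rw [h1] at h
    cases hf : f n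
    · rw [hf] at h; simp at h
    · rw [hf] at h
      rcases Nat.lt_succ_iff_lt_or_eq.1 he with h2 | h2
      · exact ih h e h2
      · rw [h2]; exact hf

theorem dvb_spec (d : ℕ) : ∀ l : List ℕ, dvb d l = true → ∃ q ∈ l, q ∣ d ∧ q < d := by
  intro l
  induction l with
  | nil => intro h; simp [dvb] at h
  | cons q l ih =>
    intro h
    have h1 : dvb d (q :: l) = Bool.rec (motive := fun _ => Bool) (dvb d l) (Nat.blt q d)
      (Nat.beq (d % q) 0) := rfl
    rw [h1] at h
    cases hb : Nat.beq (d % q) 0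
    · rw [hb] at h
      obtain ⟨q', hq', h2⟩ := ih h
      exact ⟨q', List.mem_cons_of_mem _ hq', h2⟩
    · rw [hb] at h
      refine ⟨q, List.mem_cons_self, ?_, ?_⟩
      · exact Nat.dvd_of_mod_eq_zero (Nat.eq_of_beq_eq_true hb)
      · simpa [Nat.blt_eq] using h

theorem ql_one : ∀ q ∈ ql, 2 ≤ q := by decide

theorem not_prime_of_dvb (d : ℕ) (h : dvb d ql = true) : ¬ d.Prime := by
  obtain ⟨q, hq, hd, hlt⟩ := dvb_spec d ql h
  intro hp
  have h2 := ql_one q hq
  rcases (Nat.dvd_prime hp).1 hd with h3 | h3 <;> omega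

theorem prime5 (e : ℕ) (he : e < 1668) (hp : (6 * e + 5).Prime) : M5.testBit e = true := by
  have h := allb_spec _ _ (allb_spec _ _ cm5 (e / 12) (by omega)) (e % 12) (Nat.mod_lt _ (by norm_num))
  have e1 : 12 * (e / 12) + e % 12 = e := Nat.div_add_mod e 12
  simp only [e1] at h
  rw [sel_eq] at h
  by_contra hc
  rw [if_neg hc] at h
  exact not_prime_of_dvb _ h hp

theorem prime7 (e : ℕ) (he : e < 1668) (hp : (6 * e + 7).Prime) : M7.testBit e = true := by
  have h := allb_spec _ _ (allb_spec _ _ cm7 (e / 12) (by omega)) (e % 12) (Nat.mod_lt _ (by norm_num))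
  have e1 : 12 * (e / 12) + e % 12 = e := Nat.div_add_mod e 12
  simp only [e1] at h
  rw [sel_eq] at h
  by_contra hc
  rw [if_neg hc] at h
  exact not_prime_of_dvb _ h hp

theorem prm_prime (Lw a0 em i : ℕ) (ha : a0 % 6 = 1 ∨ a0 % 6 = 5) (hem : em ≤ 1668)
    (h1 : 2 ≤ a0 + 6 * i)
    (hb : i < Lw → a0 + 6 * i < (6 * em + 5) ^ 2) (h : (prm Lw a0 em).testBit i = true) :
    (a0 + 6 * i).Prime := by
  obtain ⟨hi, hs⟩ := prm_bit _ _ _ _ h
  have hb := hb hi
  obtain ⟨_, h5, h7⟩ := sv_spec Lw a0 em 0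
  by_contra hn
  set n := a0 + 6 * i with hn0
  have hpp : (Nat.minFac n).Prime := Nat.minFac_prime (by omega)
  have hpd : Nat.minFac n ∣ n := Nat.minFac_dvd n
  have hsq : Nat.minFac n ^ 2 ≤ n := Nat.minFac_sq_le_self (by omega) hn
  have hlt : Nat.minFac n < 6 * em + 5 := by
    by_contra hc
    push Not at hc
    have := Nat.pow_le_pow_left hc 2
    omega
  set p := Nat.minFac n with hp0
  obtain ⟨k, hk⟩ := hpd
  have hn6 : n % 6 = 1 ∨ n % 6 = 5 := by omega
  have hp2 : p % 2 ≠ 0 := by
    intro h2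
    have : n % 2 = 0 := by rw [hk, Nat.mul_mod, h2]; simp
    omega
  have hp3 : p % 3 ≠ 0 := by
    intro h2
    have : n % 3 = 0 := by rw [hk, Nat.mul_mod, h2]; simp
    omega
  have hpp2 := hpp.two_le
  have hp6 : p % 6 = 1 ∨ p % 6 = 5 := by omega
  rcases hp6 with h6 | h6
  · obtain ⟨e, he⟩ : ∃ e, p = 6 * e + 7 := ⟨(p - 7) / 6, by omega⟩
    have he2 : e < em := by omega
    have hM := prime7 e (by omega) (by rw [← he]; exact hpp)
    have := h7 e he2 hM i hi (by rw [← he, ← hn0]; exact ⟨k, hk⟩)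
    rw [hs] at this
    exact absurd this (by simp)
  · obtain ⟨e, he⟩ : ∃ e, p = 6 * e + 5 := ⟨(p - 5) / 6, by omega⟩
    have he2 : e < em := by omega
    have hM := prime5 e (by omega) (by rw [← he]; exact hpp)
    have := h5 e he2 hM i hi (by rw [← he, ← hn0]; exact ⟨k, hk⟩)
    rw [hs] at this
    exact absurd this (by simp)

end Pool.Agent.Helper83.CY.Ker
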