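import Pool.Agent.Helper83.CY.KerSieve

/-! Correctness of the block check. -/

set_option autoImplicit false

namespace Pool.Agent.Helper83.CY.Ker

/-- Two primes about `N` give a cyclic number in the interval. -/
theorem good (N p q u v : ℕ) (hp : p.Prime) (hq : q.Prime) (hpu : p + u = N) (hqv : q = N + v)
    (hu : 1 ≤ u) (hv : 1 ≤ v) (huv : u ≤ v) (hA : (v - u) * N < u * v)
    (hB : u * v + 1 < (v - u + 2) * N) (hC : v + 2 * u ≤ N) : p * q ∈ CycI (N - 1) := by
  obtain ⟨w, rfl⟩ := Nat.exists_eq_add_of_le huv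
  have hw : u + w - u = w := by omega
  rw [hw] at hA hB
  have hp2 := hp.two_le
  have hlo : (N - 1) ^ 2 < p * q := by
    obtain ⟨M, rfl⟩ : ∃ M, N = M + 1 := ⟨N - 1, by omega⟩
    simp only [Nat.add_sub_cancel]
    subst hqv
    have : p = M + 1 - u := by omega
    zify at *
    nlinarith
  have hhi : p * q < (N - 1 + 1) ^ 2 := by
    have : N - 1 + 1 = N := by omega
    rw [this]
    subst hqv
    subst hpu
    nlinarith
  have hcop : Nat.Coprime (p * q) (Nat.totient (p * q)) := by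
    have hne : p ≠ q := by omega
    rw [Nat.totient_mul ((Nat.coprime_primes hp hq).2 hne), Nat.totient_prime hp,
      Nat.totient_prime hq]
    refine Nat.Coprime.mul_left ?_ ?_
    · refine Nat.Coprime.mul_right ?_ ?_
      · rw [hp.coprime_iff_not_dvd]
        intro h
        have := Nat.le_of_dvd (by omega) h
        omega
      · rw [hp.coprime_iff_not_dvd]
        intro h
        have h2 : p ∣ q - 1 - p := Nat.dvd_sub h (dvd_refl p)
        have := Nat.le_of_dvd (by omega) h2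
        omega
    · refine Nat.Coprime.mul_right ?_ ?_
      · rw [hq.coprime_iff_not_dvd]
        intro h
        have := Nat.le_of_dvd (by omega) h
        omega
      · rw [hq.coprime_iff_not_dvd]
        intro h
        have := Nat.le_of_dvd (by omega) h
        omega
  unfold CycI
  classical
  refine (Finset.mem_filter (p := Cyc)).2 ⟨?_, ?_, hcop⟩
  · unfold I
    rw [Finset.mem_Ioo]
    exact ⟨hlo, hhi⟩
  · exact Nat.mul_pos hp.pos hq.pos

/-- a step -/
structure St where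
  c : Bool
  d : Bool
  x : ℕ
  y : ℕ

def G (K i : ℕ) (e : St) : Prop :=
  (6 * (K + i - e.x) + cv e.c).Prime ∧ (6 * (K + i + e.y) + cv e.d).Prime

def Inv (K : ℕ) (D : St → Prop) (a1 a2 : ℕ) : Prop :=
  (∀ i, a1.testBit i = true → ∃ e, D e ∧ G K i e) ∧
  (∀ i, a2.testBit i = true → ∃ e e', D e ∧ D e' ∧ e ≠ e' ∧ G K i e ∧ G K i e')

/-- `P` describes the primes of class `c` in the window -/
def SP (K E : ℕ) (P : ℕ) (c : Bool) : Prop :=
  ∀ i, P.testBit i = true → (6 * (K - E + i) + cv c).Prime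

theorem loop_zero (P Q sx sy a1 a2 : ℕ) (k : ℕ → ℕ → Bool) :
    loop P Q sx sy 0 a1 a2 k = k a1 a2 := rfl

theorem loop_succ (P Q sx sy n a1 a2 : ℕ) (k : ℕ → ℕ → Bool) :
    loop P Q sx sy (n + 1) a1 a2 k = loop P Q sx sy n
      (a1 ||| (P >>> (sx - n) &&& Q >>> (sy + n)))
      (a2 ||| (a1 &&& (P >>> (sx - n) &&& Q >>> (sy + n)))) k := by
  change touch a2 (touch a1 _) = _
  rw [touch_eq, touch_eq]
  rfl

theorem loop_inv (K E P Q : ℕ) (c d : Bool) (x y : ℕ) (hP : SP K E P c) (hQ : SP K E Q d)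
    (hEK : E ≤ K) (k : ℕ → ℕ → Bool) : ∀ (T a1 a2 : ℕ) (D : St → Prop), x + T ≤ E + 1 →
    Inv K D a1 a2 → (∀ t < T, ¬ D ⟨c, d, x + t, y + t⟩) →
    loop P Q (E - x) (E + y) T a1 a2 k = true →
    ∃ b1 b2, Inv K (fun e => D e ∨ ∃ t < T, e = ⟨c, d, x + t, y + t⟩) b1 b2 ∧ k b1 b2 = true := by
  intro T
  induction T with
  | zero =>
    intro a1 a2 D _ hI _ h
    refine ⟨a1, a2, ?_, h⟩
    refine ⟨fun i hi => ?_, fun i hi => ?_⟩
    · obtain ⟨e, he, hg⟩ := hI.1 i hi
      exact ⟨e, Or.inl he, hg⟩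
    · obtain ⟨e, e', h1, h2, h3⟩ := hI.2 i hi
      exact ⟨e, e', Or.inl h1, Or.inl h2, h3⟩
  | succ T ih =>
    intro a1 a2 D hT hI hD h
    rw [loop_succ] at h
    have hX : ∀ i, (P >>> (E - x - T) &&& Q >>> (E + y + T)).testBit i = true →
        G K i ⟨c, d, x + T, y + T⟩ := by
      intro i hi
      rw [Nat.testBit_and, Nat.testBit_shiftRight, Nat.testBit_shiftRight, Bool.and_eq_true] at hi
      refine ⟨?_, ?_⟩
      · have h1 := hP _ hi.1
        have e1 : K - E + (E - x - T + i) = K + i - (x + T) := by omega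
        rw [e1] at h1
        exact h1
      · have h1 := hQ _ hi.2
        have e1 : K - E + (E + y + T + i) = K + i + (y + T) := by omega
        rw [e1] at h1
        exact h1
    have hInv : Inv K (fun e => D e ∨ e = ⟨c, d, x + T, y + T⟩)
        (a1 ||| (P >>> (E - x - T) &&& Q >>> (E + y + T)))
        (a2 ||| (a1 &&& (P >>> (E - x - T) &&& Q >>> (E + y + T)))) := by
      refine ⟨fun i hi => ?_, fun i hi => ?_⟩
      · rw [Nat.testBit_or, Bool.or_eq_true] at hi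
        rcases hi with hi | hi
        · obtain ⟨e, he, hg⟩ := hI.1 i hi
          exact ⟨e, Or.inl he, hg⟩
        · exact ⟨_, Or.inr rfl, hX i hi⟩
      · rw [Nat.testBit_or, Bool.or_eq_true] at hi
        rcases hi with hi | hi
        · obtain ⟨e, e', h1, h2, h3⟩ := hI.2 i hi
          exact ⟨e, e', Or.inl h1, Or.inl h2, h3⟩
        · rw [Nat.testBit_and, Bool.and_eq_true] at hi
          obtain ⟨e, he, hg⟩ := hI.1 i hi.1
          refine ⟨e, _, Or.inl he, Or.inr rfl, ?_, hg, hX i hi.2⟩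
          rintro rfl
          exact hD T (by omega) he
    have hDis : ∀ t < T, ¬ (D ⟨c, d, x + t, y + t⟩ ∨
        (⟨c, d, x + t, y + t⟩ : St) = ⟨c, d, x + T, y + T⟩) := by
      intro t ht h2
      rcases h2 with h2 | h2
      · exact hD t (by omega) h2
      · have h3 : x + t = x + T := congrArg St.x h2
        omega
    obtain ⟨b1, b2, hb, hk⟩ := ih _ _ (fun e => D e ∨ e = ⟨c, d, x + T, y + T⟩) (by omega)
      hInv hDis h
    refine ⟨b1, b2, ?_, hk⟩
    have hsub : ∀ e, ((D e ∨ e = ⟨c, d, x + T, y + T⟩) ∨ ∃ t < T, e = ⟨c, d, x + t, y + t⟩) →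
        (D e ∨ ∃ t < T + 1, e = ⟨c, d, x + t, y + t⟩) := by
      rintro e ((h | h) | ⟨t, ht, h⟩)
      · exact Or.inl h
      · exact Or.inr ⟨T, by omega, h⟩
      · exact Or.inr ⟨t, by omega, h⟩
    refine ⟨fun i hi => ?_, fun i hi => ?_⟩
    · obtain ⟨e, he, hg⟩ := hb.1 i hi
      exact ⟨e, hsub e he, hg⟩
    · obtain ⟨e, e', h1, h2, h3⟩ := hb.2 i hi
      exact ⟨e, e', hsub e h1, hsub e' h2, h3⟩

/-- the steps of a run -/
def inRun (R : Run) (e : St) : Prop := ∃ t < R.T, e = ⟨R.c, R.d, R.x + t, R.y + t⟩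

theorem nds_spec (R : Run) (rs : List Run) (h : nds (R :: rs) = true) :
    (∀ S ∈ rs, ¬ (R.c = S.c ∧ R.d = S.d ∧ R.x + S.y = S.x + R.y)) ∧ nds rs = true := by
  unfold nds at h
  rw [Bool.and_eq_true, List.all_eq_true] at h
  refine ⟨fun S hS hc => ?_, h.2⟩
  have := h.1 S hS
  simp [hc.1, hc.2.1, hc.2.2] at this

theorem cls_inv (K E L P1 P5 : ℕ) (h1 : SP K E P1 false) (h5 : SP K E P5 true) (hEK : E ≤ K) :
    ∀ (rs : List Run) (a1 a2 : ℕ) (D : St → Prop), Inv K D a1 a2 →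
    (∀ R ∈ rs, R.x + R.T ≤ E + 1) →
    (∀ R ∈ rs, ∀ e, inRun R e → ¬ D e) → nds rs = true → cls P1 P5 E L rs a1 a2 = true →
    ∃ b1 b2, Inv K (fun e => D e ∨ ∃ R ∈ rs, inRun R e) b1 b2 ∧ b2 &&& ones L = ones L := by
  intro rs
  induction rs with
  | nil =>
    intro a1 a2 D hI _ _ _ h
    refine ⟨a1, a2, ?_, Nat.eq_of_beq_eq_true h⟩
    refine ⟨fun i hi => ?_, fun i hi => ?_⟩
    · obtain ⟨e, he, hg⟩ := hI.1 i hi
      exact ⟨e, Or.inl he, hg⟩
    · obtain ⟨e, e', h1, h2, h3⟩ := hI.2 i hi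
      exact ⟨e, e', Or.inl h1, Or.inl h2, h3⟩
  | cons R rs ih =>
    intro a1 a2 D hI hT hD hn h
    obtain ⟨hn1, hn2⟩ := nds_spec R rs hn
    have hpk : ∀ b, SP K E (pk P1 P5 b) b := by
      intro b
      cases b
      · exact h1
      · exact h5
    have h' : loop (pk P1 P5 R.c) (pk P1 P5 R.d) (E - R.x) (E + R.y) R.T a1 a2
        (cls P1 P5 E L rs) = true := h
    obtain ⟨b1, b2, hb, hk⟩ := loop_inv K E _ _ R.c R.d R.x R.y (hpk _) (hpk _) hEK _ R.T a1 a2 D
      (hT R List.mem_cons_self) hI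
      (fun t ht => hD R List.mem_cons_self _ ⟨t, ht, rfl⟩) h'
    have hdis : ∀ S ∈ rs, ∀ e, inRun S e →
        ¬ (D e ∨ ∃ t < R.T, e = ⟨R.c, R.d, R.x + t, R.y + t⟩) := by
      rintro S hS e he (h2 | ⟨t, ht, h2⟩)
      · exact hD S (List.mem_cons_of_mem _ hS) e he h2
      · obtain ⟨s, hs, h3⟩ := he
        rw [h2] at h3
        have q1 : R.c = S.c := congrArg St.c h3
        have q2 : R.d = S.d := congrArg St.d h3
        have q3 : R.x + t = S.x + s := congrArg St.x h3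
        have q4 : R.y + t = S.y + s := congrArg St.y h3
        exact hn1 S hS ⟨q1, q2, by omega⟩
    obtain ⟨c1, c2, hc, hk2⟩ := ih b1 b2 _ hb (fun S hS => hT S (List.mem_cons_of_mem _ hS))
      hdis hn2 hk
    refine ⟨c1, c2, ?_, hk2⟩
    have hsub : ∀ e, ((D e ∨ ∃ t < R.T, e = ⟨R.c, R.d, R.x + t, R.y + t⟩) ∨
        ∃ S ∈ rs, inRun S e) → (D e ∨ ∃ S ∈ R :: rs, inRun S e) := by
      rintro e ((h | h) | ⟨S, hS, h⟩)
      · exact Or.inl h
      · exact Or.inr ⟨R, List.mem_cons_self, h⟩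
      · exact Or.inr ⟨S, List.mem_cons_of_mem _ hS, h⟩
    refine ⟨fun i hi => ?_, fun i hi => ?_⟩
    · obtain ⟨e, he, hg⟩ := hc.1 i hi
      exact ⟨e, hsub e he, hg⟩
    · obtain ⟨e, e', h1, h2, h3⟩ := hc.2 i hi
      exact ⟨e, e', hsub e h1, hsub e' h2, h3⟩

theorem cv_cases (b : Bool) : cv b = 1 ∨ cv b = 5 := by
  cases b <;> simp [cv]

theorem cv_inj (b c : Bool) (h : cv b = cv c) : b = c := by
  revert h
  cases b <;> cases c <;> simp [cv]

/-- a class of a block -/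
theorem cls_good (K L E r P1 P5 : ℕ) (h1 : SP K E P1 false) (h5 : SP K E P5 true) (hEK : E ≤ K)
    (hr : r < 6) (rs : List Run) (hs : rs.all (side K L E r) = true) (hn : nds rs = true)
    (h : cls P1 P5 E L rs 0 0 = true) (i : ℕ) (hi : i < L) :
    2 ≤ (CycI (6 * (K + i) + r - 1)).card := by
  have hside : ∀ R ∈ rs, side K L E r R = true := List.all_eq_true.1 hs
  obtain ⟨b1, b2, hb, hk⟩ := cls_inv K E L P1 P5 h1 h5 hEK rs 0 0 (fun _ => False)
    ⟨fun i hi => by simp at hi, fun i hi => by simp at hi⟩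
    (fun R hR => by
      have := hside R hR
      simp only [side, Bool.and_eq_true, decide_eq_true_eq] at this
      omega)
    (fun _ _ _ _ h => h) hn h
  have hbit : b2.testBit i = true := by
    have h2 : (b2 &&& ones L).testBit i = (ones L).testBit i := by rw [hk]
    rw [Nat.testBit_and, ones_bit] at h2
    simpa [hi] using h2
  obtain ⟨e, e', he, he', hne, hg, hg'⟩ := hb.2 i hbit
  have key : ∀ e : St, (False ∨ ∃ R ∈ rs, inRun R e) → G K i e →
      (6 * (K + i - e.x) + cv e.c) * (6 * (K + i + e.y) + cv e.d) ∈ CycI (6 * (K + i) + r - 1) ∧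
      6 * (K + i - e.x) + cv e.c < 6 * (K + i) + r ∧
      6 * (K + i) + r < 6 * (K + i + e.y) + cv e.d ∧ e.x ≤ K := by
    rintro e (h | ⟨R, hR, t, ht, rfl⟩) hg
    · exact absurd h id
    · have hsd := hside R hR
      simp only [side, Bool.and_eq_true, decide_eq_true_eq] at hsd
      obtain ⟨⟨⟨⟨⟨⟨⟨⟨s1, s2⟩, s3⟩, s4⟩, s5⟩, s6⟩, s7⟩, s8⟩, s9⟩ := hsd
      dsimp only at hg ⊢
      obtain ⟨g1, g2⟩ := hg
      dsimp only at g1 g2
      set c := cv R.c with hc
      set d := cv R.d with hd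
      have hcc := cv_cases R.c
      have hdd := cv_cases R.d
      rw [← hc] at hcc
      rw [← hd] at hdd
      obtain ⟨u0, hu0⟩ : ∃ u0, u0 = 6 * R.x + r - c := ⟨_, rfl⟩
      obtain ⟨v0, hv0⟩ : ∃ v0, v0 = 6 * R.y + d - r := ⟨_, rfl⟩
      rw [← hu0, ← hv0] at s5 s7 s8 s9
      obtain ⟨w, hw⟩ := Nat.exists_eq_add_of_le s5
      have hw2 : v0 - u0 = w := by omega
      rw [hw2] at s7 s8
      obtain ⟨m, hm⟩ : ∃ m, R.T - 1 = t + m := ⟨R.T - 1 - t, by omega⟩
      rw [hm] at s8 s9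
      have hxK : R.x + t ≤ K := by omega
      refine ⟨?_, by omega, by omega, hxK⟩
      refine good (6 * (K + i) + r) _ _ (u0 + 6 * t) (v0 + 6 * t) g1 g2 (by omega) (by omega)
        (by omega) (by omega) (by omega) ?_ ?_ (by omega)
      · have e1 : v0 + 6 * t - (u0 + 6 * t) = w := by omega
        rw [e1]
        calc w * (6 * (K + i) + r) ≤ w * (6 * (K + L) - 1) := Nat.mul_le_mul_left _ (by omega)
          _ < u0 * v0 := s7
          _ ≤ (u0 + 6 * t) * (v0 + 6 * t) := Nat.mul_le_mul (by omega) (by omega)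
      · have e1 : v0 + 6 * t - (u0 + 6 * t) = w := by omega
        rw [e1]
        calc (u0 + 6 * t) * (v0 + 6 * t) + 1
            ≤ (u0 + 6 * (t + m)) * (v0 + 6 * (t + m)) + 1 :=
              Nat.add_le_add_right (Nat.mul_le_mul (by omega) (by omega)) 1
          _ < (w + 2) * (6 * K) := s8
          _ ≤ (w + 2) * (6 * (K + i) + r) := Nat.mul_le_mul_left _ (by omega)
  obtain ⟨m1, l1, u1, x1⟩ := key e he hg
  obtain ⟨m2, l2, u2, x2⟩ := key e' he' hg'
  have hlt : 1 < (CycI (6 * (K + i) + r - 1)).card := by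
    refine Finset.one_lt_card.2 ⟨_, m1, _, m2, ?_⟩
    intro heq
    apply hne
    have hqd : (6 * (K + i + e.y) + cv e.d) ∣
        (6 * (K + i - e'.x) + cv e'.c) * (6 * (K + i + e'.y) + cv e'.d) := by
      rw [← heq]
      exact Dvd.intro_left _ rfl
    rcases (Nat.Prime.dvd_mul hg.2).1 hqd with h3 | h3
    · rcases (Nat.dvd_prime hg'.1).1 h3 with h4 | h4
      · exact absurd h4 hg.2.one_lt.ne'
      · omega
    · rcases (Nat.dvd_prime hg'.2).1 h3 with h4 | h4
      · exact absurd h4 hg.2.one_lt.ne'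
      · have h5 : 6 * (K + i - e.x) + cv e.c = 6 * (K + i - e'.x) + cv e'.c := by
          rw [← h4] at heq
          exact Nat.eq_of_mul_eq_mul_right hg.2.pos heq
        have c1 := cv_cases e.c
        have c2 := cv_cases e'.c
        have c3 := cv_cases e.d
        have c4 := cv_cases e'.d
        have y1 : e.y = e'.y := by omega
        have d1 : cv e.d = cv e'.d := by omega
        have xx1 : e.x = e'.x := by omega
        have cc1 : cv e.c = cv e'.c := by omega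
        obtain ⟨ec, ed, ex, ey⟩ := e
        obtain ⟨ec', ed', ex', ey'⟩ := e'
        dsimp only at *
        rw [cv_inj _ _ cc1, cv_inj _ _ d1, xx1, y1]
  exact hlt

/-- Correctness of the check. -/
theorem chk_sound (B : Blk) (h : chk B = true) (N : ℕ) (h1 : 6 * B.K ≤ N)
    (h2 : N < 6 * (B.K + B.L)) : 2 ≤ (CycI (N - 1)).card := by
  unfold chk at h
  simp only [touch_eq, sides, Bool.and_eq_true, decide_eq_true_eq] at h
  obtain ⟨⟨⟨⟨⟨⟨⟨⟨⟨hE, hem⟩, hb⟩, s0⟩, s1⟩, s2⟩, s3⟩, s4⟩, s5⟩, ⟨⟨⟨⟨c0, c1⟩, c2⟩, c3⟩, c4⟩, c5⟩ := h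
  have p1 : SP B.K B.E (prm (B.L + B.E + B.F) (6 * (B.K - B.E) + 1) B.em) false := by
    intro i hi
    have hlt := (prm_bit _ _ _ _ hi).1
    have := prm_prime _ _ _ i (Or.inl (by omega)) hem (by omega) (fun _ => by
        refine lt_of_lt_of_le ?_ hb
        omega) hi
    have e1 : 6 * (B.K - B.E) + 1 + 6 * i = 6 * (B.K - B.E + i) + cv false := by
      simp [cv]; ring
    rw [e1] at this
    exact this
  have p5 : SP B.K B.E (prm (B.L + B.E + B.F) (6 * (B.K - B.E) + 5) B.em) true := by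
    intro i hi
    have hlt := (prm_bit _ _ _ _ hi).1
    have := prm_prime _ _ _ i (Or.inr (by omega)) hem (by omega) (fun _ => by
        refine lt_of_lt_of_le ?_ hb
        omega) hi
    have e1 : 6 * (B.K - B.E) + 5 + 6 * i = 6 * (B.K - B.E + i) + cv true := by
      simp [cv]; ring
    rw [e1] at this
    exact this
  obtain ⟨i, r, hr, hi⟩ : ∃ i r, r < 6 ∧ N = 6 * (B.K + i) + r := by
    refine ⟨N / 6 - B.K, N % 6, Nat.mod_lt _ (by norm_num), ?_⟩
    have := Nat.div_add_mod N 6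
    omega
  subst hi
  have hiL : i < B.L := by omega
  interval_cases r
  · exact cls_good _ _ _ 0 _ _ p1 p5 hE.le (by norm_num) _ s0.1 s0.2 c0 i hiL
  · exact cls_good _ _ _ 1 _ _ p1 p5 hE.le (by norm_num) _ s1.1 s1.2 c1 i hiL
  · exact cls_good _ _ _ 2 _ _ p1 p5 hE.le (by norm_num) _ s2.1 s2.2 c2 i hiL
  · exact cls_good _ _ _ 3 _ _ p1 p5 hE.le (by norm_num) _ s3.1 s3.2 c3 i hiL
  · exact cls_good _ _ _ 4 _ _ p1 p5 hE.le (by norm_num) _ s4.1 s4.2 c4 i hiL
  · exact cls_good _ _ _ 5 _ _ p1 p5 hE.le (by norm_num) _ s5.1 s5.2 c5 i hiL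

end Pool.Agent.Helper83.CY.Ker
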