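import Pool.Agent.Helper83.CY.KerT

set_option autoImplicit false

namespace Pool.Agent.Helper83.CY.Ker

theorem chk_use (B : Blk) (h : chk B = true) (a b : ℕ) (ha : 6 * B.K = a)
    (hb : 6 * (B.K + B.L) = b) (N : ℕ) (h1 : a ≤ N) (h2 : N < b) : 2 ≤ (CycI (N - 1)).card := by
  subst ha
  subst hb
  exact chk_sound B h N h1 h2

end Pool.Agent.Helper83.CY.Ker
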