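import Pool.Agent.Helper83.CY.TailDefs

set_option autoImplicit false

open Finset

namespace Pool.Agent.Helper83.CY.T3

theorem PP_mono {a b b' : ℕ} (h : b ≤ b') : PP a b ⊆ PP a b' := by
  intro p hp
  rw [PP, mem_filter, mem_Ioc] at hp ⊢
  exact ⟨⟨hp.1.1, hp.1.2.trans h⟩, hp.2⟩

theorem S2_mono {a b b' : ℕ} (h : b ≤ b') : S2 a b ≤ S2 a b' := by
  rw [S2, S2]
  exact sum_le_sum_of_subset_of_nonneg (PP_mono h) fun i _ _ => by positivity

theorem S2_split {a b c : ℕ} (hab : a ≤ b) (hbc : b ≤ c) : S2 a c = S2 a b + S2 b c := by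
  rw [S2, S2, S2, ← sum_union]
  · refine sum_congr ?_ fun _ _ => rfl
    ext p
    simp only [PP, mem_union, mem_filter, mem_Ioc]
    constructor
    · rintro ⟨⟨h1, h2⟩, h3⟩
      rcases le_or_gt p b with h | h
      · exact Or.inl ⟨⟨h1, h⟩, h3⟩
      · exact Or.inr ⟨⟨h, h2⟩, h3⟩
    · rintro (⟨⟨h1, h2⟩, h3⟩ | ⟨⟨h1, h2⟩, h3⟩)
      · exact ⟨⟨h1, h2.trans hbc⟩, h3⟩
      · exact ⟨⟨lt_of_le_of_lt hab h1, h2⟩, h3⟩
  · rw [Finset.disjoint_left]
    intro p hp hp'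
    rw [PP, mem_filter, mem_Ioc] at hp hp'
    exact absurd hp.1.2 (not_le.2 hp'.1.1)

/-- the tail of `S2` from a value at `20000` -/
theorem S2_bound (hNT : S_NT) {y : ℕ} {s t : ℝ} (hy : y ≤ 20000) (hs : S2 y 20000 ≤ s)
    (ht : s + 1 / (3 * 19997) ≤ t) (Z : ℕ) : S2 y Z ≤ t := by
  rcases le_or_gt Z 20000 with h | h
  · have h1 := S2_mono (a := y) h
    have h2 : (0 : ℝ) ≤ 1 / (3 * 19997) := by norm_num
    linarith
  · rw [S2_split hy h.le]
    have h1 := (hNT 20000 Z (by norm_num) h.le).1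
    have h2 : (0 : ℝ) ≤ 1 / ((Z : ℝ) + 4) := by positivity
    have h3 : (1 : ℝ) / 3 * (1 / (((20000 : ℕ) : ℝ) - 3) - 1 / ((Z : ℝ) + 4)) ≤ 1 / (3 * 19997) := by
      push_cast
      have : (1 : ℝ) / (20000 - 3) = 1 / 19997 := by norm_num
      rw [this]
      have h4 : (1 : ℝ) / (3 * 19997) = 1 / 3 * (1 / 19997) := by norm_num
      rw [h4]
      nlinarith
    linarith

theorem exp_bound : (2 : ℝ) ^ 240 ≤ Real.exp 170 := by
  have h1 : (2.7182 : ℝ) ≤ Real.exp 1 := by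
    have := Real.exp_one_gt_d9
    linarith
  have h2 : (2 : ℝ) ^ 24 ≤ Real.exp 17 := by
    have e : Real.exp 17 = Real.exp 1 ^ 17 := by
      rw [← Real.exp_nat_mul]
      norm_num
    rw [e]
    calc (2 : ℝ) ^ 24 ≤ 2.7182 ^ 17 := by norm_num
      _ ≤ Real.exp 1 ^ 17 := by gcongr
  have e : Real.exp 170 = Real.exp 17 ^ 10 := by
    rw [← Real.exp_nat_mul]
    norm_num
  rw [e]
  calc (2 : ℝ) ^ 240 = (2 ^ 24) ^ 10 := by norm_num
    _ ≤ Real.exp 17 ^ 10 := by gcongr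

theorem t3 (hTA : S_TA) (_h1 : S_OB1) (h2 : S_OB2) (hE : S_E0) (hNT : S_NT) (hV : S_CV)
    (hP : S_CP) : S_T3 := by
  intro n c hn hc hcn hnc hw0 hw
  obtain ⟨-, -, -, -, -, -, ⟨hV1, hV2⟩⟩ := hV
  obtain ⟨-, -, -, -, -, -, -, -, ⟨-, hP2, -⟩⟩ := hP
  obtain ⟨e0, he1, he2⟩ := hE c 5003 hc (by norm_num)
  have hnr : (10 : ℝ) ^ 14 ≤ n := by exact_mod_cast hn
  have hsig : ∀ Z, S2 5003 Z ≤ 0.0000332 := fun Z =>
    S2_bound hNT (by norm_num) hP2 (by norm_num) Z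
  have hcr : (46415 : ℝ) ≤ c := by exact_mod_cast hc
  have key := hTA n c 5003 e0 (658025 / 10 ^ 7) 0.0000332 (20 * n) 20 (2 ^ e0) hc hcn hnc
    (by norm_num) (by omega) hV1 hsig (by norm_num) (by linarith) le_rfl
    (by linarith) he1 le_rfl
  obtain ⟨X, hX⟩ : ∃ X : ℝ, X = 2 ^ 670 := ⟨_, rfl⟩
  have hX1 : 1 ≤ X := by
    rw [hX]
    exact one_le_pow₀ (by norm_num)
  have hn720 : X * 2 ^ 50 ≤ n := by
    have h3 : Real.exp 170 ≤ c := by
      rw [← Real.exp_log (show (0 : ℝ) < c by linarith)]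
      exact Real.exp_le_exp.2 hw0
    have h4 : (2 : ℝ) ^ 240 ≤ c := exp_bound.trans h3
    calc X * 2 ^ 50 = (2 ^ 240) ^ 3 := by rw [hX, ← pow_mul, ← pow_add]
      _ ≤ (c : ℝ) ^ 3 := by gcongr
      _ ≤ n := by exact_mod_cast hcn
  have hE0 : (0 : ℝ) ≤ 2 ^ e0 := by positivity
  rw [hV2, ← hX] at key
  set w := Real.log c with hwdef
  have hratio : (n : ℝ) / (20 * n) = 1 / 20 := by
    have : (0 : ℝ) < n := by linarith only [hnr]
    field_simp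
  rw [hratio] at key
  have hO : O n c w (3.7727 + w) ((w - 4.8) / 3) (Real.sqrt c) 0.0000332 20 (2 ^ e0) +
      0.0000332 * (1 + 13 / 8 + 5 / 3 * w + 1.0001 * (3.7727 + w)) ≤ 0.075 := by
    have h3 := h2 n c 0.0000332 20 (2 ^ e0) (by linarith) hcn hnc (by norm_num) (by norm_num)
      (by norm_num) (by linarith) hE0 he2
    rw [← hwdef] at h3
    have h4 : 1 / w ^ 2 ≤ 1 / 900 := by
      refine one_div_le_one_div_of_le (by norm_num) ?_
      nlinarith only [hw0]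
    linarith only [h3, h4, hw]
  have hfin : (2 : ℝ) ≤ ((CycI n).card : ℝ) := by
    refine le_trans ?_ key
    have h5 : (1 / 64 : ℝ) ≤ 2 * (658025 / 10 ^ 7)
        - 0.0000332 * (1 + 13 / 8 + 5 / 3 * w + 1.0001 * (3.7727 + w))
        - O n c w (3.7727 + w) ((w - 4.8) / 3) (Real.sqrt c) 0.0000332 20 (2 ^ e0)
        - 0.66674 * (1 / 20) := by
      linarith only [hO]
    have h6 : X * 2 ^ 50 * (1 / 64) ≤ (n : ℝ) * (2 * (658025 / 10 ^ 7)
        - 0.0000332 * (1 + 13 / 8 + 5 / 3 * w + 1.0001 * (3.7727 + w))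
        - O n c w (3.7727 + w) ((w - 4.8) / 3) (Real.sqrt c) 0.0000332 20 (2 ^ e0)
        - 0.66674 * (1 / 20)) :=
      mul_le_mul hn720 h5 (by norm_num) (by linarith only [hnr])
    have h7 : (2 : ℝ) + X ≤ X * 2 ^ 50 * (1 / 64) := by
      norm_num
      linarith only [hX1]
    linarith only [h6, h7]
  exact_mod_cast hfin

end Pool.Agent.Helper83.CY.T3
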