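import Pool.Agent.Helper83.CY.Const

/-! statements for the tail `n ≥ 10^14` -/

namespace Pool.Agent.Helper83.CY

/-- the error terms of the tail, relative to `n` -/
noncomputable def O (N C w l s1 q sig g E : ℝ) : ℝ :=
  1.0001 * s1 / (6 * q) + 4 / 9 / q ^ 4
  + 16 * l * (1.4143 * sig / q + 8 * s1 / q ^ 3 + 4 / 3 / q ^ 2)
  + 22.63 * l * s1 / q ^ 2 + 1.0001 * l * s1 / (8 * q) + 0.84 / q ^ 2
  + E * ((1.0001 + g / 2) / (3 * (C - 2)) + 1 / (3 * C))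
  + Real.log (N + 3) / (C + 1) + 2 / N + 0.5001 * (1.0001 + w) / C

/-- TAILA (proved in TailA.lean from S_AC, S_NT, S_DG) -/
def S_TA : Prop := ∀ (n c y e0 : ℕ) (v sig G g E : ℝ),
    46415 ≤ c → c ^ 3 ≤ n → n < (c + 1) ^ 3 → 127 ≤ y → y ≤ c →
    v ≤ V y → (∀ Z, S2 y Z ≤ sig) → 0 ≤ sig →
    (n : ℝ) ≤ G → G ≤ g * n → g ≤ n →
    (c + 1) ^ 4 ≤ (y + 1) ^ (e0 + 1) → (2 : ℝ) ^ e0 ≤ E →
    (n : ℝ) * (2 * v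
      - sig * (1 + 13 / 8 + 5 / 3 * Real.log c + 1.0001 * (3.7727 + Real.log c))
      - O n c (Real.log c) (3.7727 + Real.log c) ((Real.log c - 4.8) / 3) (Real.sqrt c) sig g E
      - 0.66674 * (n / G)) - 2 ^ ((PP 0 y).card) ≤ ((CycI n).card : ℝ)

/-- first bound for O (at c = 46415 the true value is 0.0819) -/
def S_OB1 : Prop := ∀ (n c : ℕ) (sig g E : ℝ), 46415 ≤ c → c ^ 3 ≤ n → n < (c + 1) ^ 3 →
  0 ≤ sig → sig ≤ 0.0011 → 0 ≤ g → g ≤ 20 → 0 ≤ E → E ^ 7 ≤ ((c : ℝ) + 1) ^ 4 →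
  O n c (Real.log c) (3.7727 + Real.log c) ((Real.log c - 4.8) / 3) (Real.sqrt c) sig g E
    ≤ 0.083

/-- second bound for O (log c >= 30; at log c = 30 the true value is 0.00004) -/
def S_OB2 : Prop := ∀ (n c : ℕ) (sig g E : ℝ), 30 ≤ Real.log c → c ^ 3 ≤ n → n < (c + 1) ^ 3 →
  0 ≤ sig → sig ≤ 0.0011 → 0 ≤ g → g ≤ Real.log c + 20 → 0 ≤ E → E ^ 7 ≤ ((c : ℝ) + 1) ^ 4 →
  O n c (Real.log c) (3.7727 + Real.log c) ((Real.log c - 4.8) / 3) (Real.sqrt c) sig g E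
    ≤ 1 / (Real.log c) ^ 2

/-- the exponent e0 -/
def S_E0 : Prop := ∀ c y : ℕ, 46415 ≤ c → 127 ≤ y →
  ∃ e0 : ℕ, (c + 1) ^ 4 ≤ (y + 1) ^ (e0 + 1) ∧ ((2 : ℝ) ^ e0) ^ 7 ≤ ((c : ℝ) + 1) ^ 4

/-- integer cube root -/
def S_CUBE : Prop := ∀ n : ℕ, 10 ^ 14 ≤ n → ∃ c : ℕ, 46415 ≤ c ∧ c ^ 3 ≤ n ∧ n < (c + 1) ^ 3

/-- T1: y = 151, v = 0.1098853, sig = 0.0010745, G = 20 n, g = 20; O <= .083 for log c <= 29 or so,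
O <= 1/w^2 for log c >= 30 (use c monotone: OB1 for log c <= 30) -/
def S_T1 : Prop := ∀ n c : ℕ, 10 ^ 14 ≤ n → 46415 ≤ c → c ^ 3 ≤ n → n < (c + 1) ^ 3 →
  Real.log c ≤ 50 → 2 ≤ (CycI n).card

/-- T2: y = 1021, v = 0.0806468, sig = 0.0001352, G = 20 n -/
def S_T2 : Prop := ∀ n c : ℕ, 10 ^ 14 ≤ n → 46415 ≤ c → c ^ 3 ≤ n → n < (c + 1) ^ 3 →
  48 ≤ Real.log c → Real.log c ≤ 280 → 2 ≤ (CycI n).card

/-- T3: y = 5003, v = 0.0658025, sig = 0.0000332, G = 20 n -/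
def S_T3 : Prop := ∀ n c : ℕ, 10 ^ 14 ≤ n → 46415 ≤ c → c ^ 3 ≤ n → n < (c + 1) ^ 3 →
  170 ≤ Real.log c → Real.log c ≤ 820 → 2 ≤ (CycI n).card

/-- T4: y = floor (12 w), w = log c, v = 0.45 / log y, sig = 2.8 / (y log y), G = n w, g = w -/
def S_T4 : Prop := ∀ n c : ℕ, 10 ^ 14 ≤ n → 46415 ≤ c → c ^ 3 ≤ n → n < (c + 1) ^ 3 →
  700 ≤ Real.log c → 2 ≤ (CycI n).card

end Pool.Agent.Helper83.CY
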